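import Pool.Agent.H637_NO.Stm
import Pool.Agent.W868.Small

/-!
# Arithmetic in transitive models of ZF

`NR M P`: the relation `P` on natural numbers is the restriction of a relation that is definable
over `M`. `NFn M f`: the same for functions. Closure properties: boolean operations, number
quantifiers, composition, recursion, all functions `x` with `rl x ∈ M`, addition, multiplication,
`Nat.pair`, `Nat.unpair`, all primitive recursive functions, all arithmetical formulas, and all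
formulas of second order arithmetic, evaluated in `Reals M`.
-/

set_option autoImplicit false
set_option linter.unreachableTactic false
set_option linter.unusedTactic false

namespace Pool.Agent.H637_NO.AR

open Pool.Agent.W868 Pool.Agent.W868.GM
open ZFSet (pair)

/-! ### Numerals -/

theorem nat_mem_nat' {m n : ℕ} : nat m ∈ nat n ↔ m < n := by
  rw [nat_eq, nat_eq, Ordinal.toZFSet_mem_toZFSet_iff]
  exact_mod_cast Iff.rfl

theorem nat_inj' {m n : ℕ} : nat m = nat n ↔ m = n := ⟨fun h => nat_injective h, fun h => by rw [h]⟩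

theorem isOrdinal_nat' (n : ℕ) : (nat n).IsOrdinal := by
  rw [nat_eq]
  exact ZFSet.isOrdinal_toZFSet _

theorem sUnion_nat' (n : ℕ) : ZFSet.sUnion (nat (n + 1)) = nat n := by
  ext z
  rw [ZFSet.mem_sUnion]
  constructor
  · rintro ⟨y, hy, hz⟩
    rcases ZFSet.mem_insert_iff.1 hy with rfl | hy
    · exact hz
    · exact (isOrdinal_nat' n).mem_trans hz hy
  · exact fun hz => ⟨nat n, ZFSet.mem_insert _ _, hz⟩

theorem nat_succ_ne' (n : ℕ) : nat (n + 1) ≠ ∅ := by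
  intro h
  have h1 : nat n ∈ nat (n + 1) := ZFSet.mem_insert _ _
  rw [h] at h1
  exact ZFSet.notMem_empty _ h1

theorem mem_rl {x : ℕ → ℕ} {p : ZFSet.{0}} : p ∈ rl x ↔ ∃ n, p = pair (nat n) (nat (x n)) := by
  rw [rl, ZFSet.mem_range]
  constructor
  · rintro ⟨n, rfl⟩
    exact ⟨n, rfl⟩
  · rintro ⟨n, rfl⟩
    exact ⟨n, rfl⟩

theorem pair_mem_rl {x : ℕ → ℕ} {m n : ℕ} : pair (nat m) (nat n) ∈ rl x ↔ n = x m := by
  rw [mem_rl]
  constructor
  · rintro ⟨k, h⟩
    obtain ⟨h1, h2⟩ := ZFSet.pair_inj.1 h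
    rw [nat_inj'] at h1 h2
    rw [h2, h1]
  · rintro rfl
    exact ⟨m, rfl⟩

theorem ap_rl (x : ℕ → ℕ) (n : ℕ) : ap (rl x) (nat n) = nat (x n) := by
  have h1 : im sn (ZFSet.sep (fun q => fs q = nat n) (rl x)) = {nat (x n)} := by
    ext z
    rw [mem_im, ZFSet.mem_singleton]
    constructor
    · rintro ⟨p, hp, rfl⟩
      rw [ZFSet.mem_sep, mem_rl] at hp
      obtain ⟨⟨m, rfl⟩, h3⟩ := hp
      rw [fs_pair, nat_inj'] at h3
      rw [sn_pair, h3]
    · rintro rfl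
      refine ⟨pair (nat n) (nat (x n)), ZFSet.mem_sep.2 ⟨mem_rl.2 ⟨n, rfl⟩, ?_⟩, ?_⟩
      · rw [fs_pair]
      · rw [sn_pair]
  rw [ap, h1, ZFSet.sUnion_singleton]

theorem rl_injective {x y : ℕ → ℕ} (h : rl x = rl y) : x = y := by
  funext n
  apply nat_injective
  rw [← ap_rl, ← ap_rl, h]

/-! ### Recursion on the natural numbers -/

/-- Iteration of `T`, starting with `a`. -/
noncomputable def itn (T : ZFSet.{0} → ZFSet.{0} → ZFSet.{0}) (a : ZFSet.{0}) :
    ZFSet.{0} → ZFSet.{0} :=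
  wfF (fun z => z) ZFSet.mem_wf fun z g =>
    open Classical in if z = ∅ then a else T (ZFSet.sUnion z) (ap g (ZFSet.sUnion z))

theorem itn_eq (T : ZFSet.{0} → ZFSet.{0} → ZFSet.{0}) (a z : ZFSet.{0}) : itn T a z =
    open Classical in if z = ∅ then a else
      T (ZFSet.sUnion z) (ap (gr (itn T a) z) (ZFSet.sUnion z)) := wfF_eq _ _ _ _

theorem itn_zero (T : ZFSet.{0} → ZFSet.{0} → ZFSet.{0}) (a : ZFSet.{0}) :
    itn T a (nat 0) = a := by
  rw [itn_eq, if_pos (show nat 0 = ∅ from rfl)]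

theorem itn_succ (T : ZFSet.{0} → ZFSet.{0} → ZFSet.{0}) (a : ZFSet.{0}) (n : ℕ) :
    itn T a (nat (n + 1)) = T (nat n) (itn T a (nat n)) := by
  rw [itn_eq, if_neg (nat_succ_ne' n), sUnion_nat',
    ap_gr (show nat n ∈ nat (n + 1) from ZFSet.mem_insert _ _)]

theorem dfn_itn {M : Set ZFSet.{0}} (hM : IsZF M) {T : ZFSet.{0} → ZFSet.{0} → ZFSet.{0}}
    (hT : DfnF M M fun w : Fin 2 → ZFSet.{0} => T (w 0) (w 1)) {a : ZFSet.{0}} (ha : a ∈ M) :
    DfnF M M fun w : Fin 1 → ZFSet.{0} => itn T a (w 0) := by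
  have hB := hM.base
  have h0 := hM.empty_mem
  refine hM.memrec (G := fun z g => open Classical in
    if z = ∅ then a else T (ZFSet.sUnion z) (ap g (ZFSet.sUnion z))) ?_ (itn_eq T a)
  refine DfnF.ite (Dfn.eq (DfnF.proj 0) (DfnF.const h0)) (DfnF.const ha) ?_
  have h1 : DfnF M M fun w : Fin 2 → ZFSet.{0} => ap (w 1) (ZFSet.sUnion (w 0)) :=
    hM.ap' (DfnF.proj 1) (hB.sUnion' (DfnF.proj 0))
  exact DfnF.comp2 (f := T) hT (hB.sUnion' (DfnF.proj 0)) h1

theorem DfnF.comp3 {S M : Set ZFSet.{0}} {n : ℕ}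
    {f : ZFSet.{0} → ZFSet.{0} → ZFSet.{0} → ZFSet.{0}}
    {F G H : (Fin n → ZFSet.{0}) → ZFSet.{0}}
    (h : DfnF S M fun w : Fin 3 → ZFSet.{0} => f (w 0) (w 1) (w 2)) (hF : DfnF S M F)
    (hG : DfnF S M G) (hH : DfnF S M H) : DfnF S M fun v => f (F v) (G v) (H v) := by
  refine ⟨fun v hv => h.1 ![F v, G v, H v] ?_, ?_⟩
  · intro i
    fin_cases i
    · exact hF.1 v hv
    · exact hG.1 v hv
    · exact hH.1 v hv
  · exact Dfn.comp4 (Q := fun a b c d => a = f b c d) h.2 (DfnF.proj 0) hF.tail hG.tail hH.tail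

/-- Recursion with a parameter from `ω`. -/
theorem exists_prec {M : Set ZFSet.{0}} (hM : IsZF M) {G : ZFSet.{0} → ZFSet.{0}}
    {T : ZFSet.{0} → ZFSet.{0} → ZFSet.{0} → ZFSet.{0}}
    (hG : DfnF M M fun w : Fin 1 → ZFSet.{0} => G (w 0))
    (hT : DfnF M M fun w : Fin 3 → ZFSet.{0} => T (w 0) (w 1) (w 2)) :
    ∃ F : ZFSet.{0} → ZFSet.{0} → ZFSet.{0},
      (DfnF M M fun w : Fin 2 → ZFSet.{0} => F (w 0) (w 1)) ∧
      ∀ x : ℕ, F (nat x) (nat 0) = G (nat x) ∧
        ∀ n, F (nat x) (nat (n + 1)) = T (nat x) (nat n) (F (nat x) (nat n)) := by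
  have hB := hM.base
  have hω := hM.infinity
  set T' : ZFSet.{0} → ZFSet.{0} → ZFSet.{0} :=
    fun n g => im (fun p => pair (fs p) (T (fs p) n (sn p))) g with hT'
  set A₀ : ZFSet.{0} := gr G ZFSet.omega with hA₀
  have hA₀M : A₀ ∈ M := by
    refine hM.im_mem (h := fun u => pair u (G u)) hω ?_
    exact hB.pair' (DfnF.proj 0) hG
  have hT'd : DfnF M M fun w : Fin 2 → ZFSet.{0} => T' (w 0) (w 1) := by
    refine hM.im' (h := fun p w => pair (fs p) (T (fs p) (w 0) (sn p))) (DfnF.proj 1) ?_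
    exact hB.pair' (hM.fs' (DfnF.proj 0))
      (DfnF.comp3 (f := T) hT (hM.fs' (DfnF.proj 0)) (DfnF.proj 1) (hM.sn' (DfnF.proj 0)))
  have hI := dfn_itn hM hT'd hA₀M
  have key : ∀ n : ℕ, itn T' A₀ (nat n) =
      gr (fun x => ap (itn T' A₀ (nat n)) x) ZFSet.omega := by
    intro n
    induction n with
    | zero =>
      rw [itn_zero, hA₀]
      exact im_congr fun u hu => by
        show ZFSet.pair u (G u) = ZFSet.pair u (ap (gr G ZFSet.omega) u)
        rw [ap_gr hu]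
    | succ n ih =>
      have h1 : itn T' A₀ (nat (n + 1)) =
          gr (fun x => T x (nat n) (ap (itn T' A₀ (nat n)) x)) ZFSet.omega := by
        rw [itn_succ, hT']
        ext p
        simp only
        rw [mem_im, mem_gr]
        constructor
        · rintro ⟨q, hq, rfl⟩
          rw [ih] at hq
          obtain ⟨u, hu, rfl⟩ := mem_gr.1 hq
          exact ⟨u, hu, by rw [fs_pair, sn_pair]⟩
        · rintro ⟨u, hu, rfl⟩
          refine ⟨pair u (ap (itn T' A₀ (nat n)) u), ?_, by rw [fs_pair, sn_pair]⟩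
          rw [ih]
          exact mem_gr.2 ⟨u, hu, by rw [← ih]⟩
      conv_lhs => rw [h1]
      rw [h1]
      exact im_congr fun u hu => by
        beta_reduce
        rw [ap_gr hu]
  refine ⟨fun x n => ap (itn T' A₀ n) x, ?_, fun x => ⟨?_, fun n => ?_⟩⟩
  · exact hM.ap' (DfnF.comp1 (f := itn T' A₀) hI (DfnF.proj 1)) (DfnF.proj 0)
  · show ap (itn T' A₀ (nat 0)) (nat x) = _
    rw [itn_zero, hA₀, ap_gr (nat_mem_omega x)]
  · show ap (itn T' A₀ (nat (n + 1))) (nat x) = _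
    have h1 : itn T' A₀ (nat (n + 1)) =
        gr (fun x => T x (nat n) (ap (itn T' A₀ (nat n)) x)) ZFSet.omega := by
      rw [itn_succ, hT']
      ext p
      simp only
      rw [mem_im, mem_gr]
      constructor
      · rintro ⟨q, hq, rfl⟩
        rw [key n] at hq
        obtain ⟨u, hu, rfl⟩ := mem_gr.1 hq
        exact ⟨u, hu, by rw [fs_pair, sn_pair]⟩
      · rintro ⟨u, hu, rfl⟩
        refine ⟨pair u (ap (itn T' A₀ (nat n)) u), ?_, by rw [fs_pair, sn_pair]⟩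
        rw [key n]
        exact mem_gr.2 ⟨u, hu, by rw [← key n]⟩
    rw [h1, ap_gr (nat_mem_omega x)]

/-! ### Relations and functions on the natural numbers -/

/-- The relation `P` is the restriction of a definable relation. -/
def NR (M : Set ZFSet.{0}) {m : ℕ} (P : (Fin m → ℕ) → Prop) : Prop :=
  ∃ R : (Fin m → ZFSet.{0}) → Prop, Dfn M M R ∧ ∀ a : Fin m → ℕ, (R (fun i => nat (a i)) ↔ P a)

/-- The function `f` is the restriction of a definable function. -/
def NFn (M : Set ZFSet.{0}) {m : ℕ} (f : (Fin m → ℕ) → ℕ) : Prop :=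
  ∃ F : (Fin m → ZFSet.{0}) → ZFSet.{0}, DfnF M M F ∧ ∀ a : Fin m → ℕ,
    F (fun i => nat (a i)) = nat (f a)

section

variable {M : Set ZFSet.{0}} {m : ℕ} {P Q : (Fin m → ℕ) → Prop} {f g : (Fin m → ℕ) → ℕ}

theorem cons_nat (n : ℕ) (a : Fin m → ℕ) :
    (Fin.cons (nat n) (fun i => nat (a i)) : Fin (m + 1) → ZFSet.{0}) =
      fun i => nat ((Fin.cons n a : Fin (m + 1) → ℕ) i) := by
  funext i
  refine Fin.cases ?_ (fun i => ?_) i
  · rfl
  · rfl

theorem NR.congr (h : NR M P) (h' : ∀ a, P a ↔ Q a) : NR M Q := by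
  obtain ⟨R, h1, h2⟩ := h
  exact ⟨R, h1, fun a => (h2 a).trans (h' a)⟩

theorem NR.not (h : NR M P) : NR M fun a => ¬ P a := by
  obtain ⟨R, h1, h2⟩ := h
  exact ⟨_, h1.not, fun a => not_congr (h2 a)⟩

theorem NR.and (h : NR M P) (h' : NR M Q) : NR M fun a => P a ∧ Q a := by
  obtain ⟨R, h1, h2⟩ := h
  obtain ⟨R', h3, h4⟩ := h'
  exact ⟨_, h1.and h3, fun a => and_congr (h2 a) (h4 a)⟩

theorem NR.or (h : NR M P) (h' : NR M Q) : NR M fun a => P a ∨ Q a :=
  (h.not.and h'.not).not.congr fun a => by tauto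

theorem NR.imp (h : NR M P) (h' : NR M Q) : NR M fun a => P a → Q a :=
  (h.and h'.not).not.congr fun a => by tauto

theorem NR.iff (h : NR M P) (h' : NR M Q) : NR M fun a => P a ↔ Q a :=
  ((h.imp h').and (h'.imp h)).congr fun a => by tauto

theorem NR.prop (p : Prop) : NR M fun _ : Fin m → ℕ => p :=
  ⟨fun _ => p, Dfn.prop p, fun _ => Iff.rfl⟩

theorem NR.comp (h : NR M P) {k : ℕ} (ρ : Fin m → Fin k) :
    NR M fun a : Fin k → ℕ => P fun i => a (ρ i) := by
  obtain ⟨R, h1, h2⟩ := h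
  exact ⟨_, h1.comp ρ, fun a => h2 fun i => a (ρ i)⟩

theorem NR.tail (h : NR M P) : NR M fun a : Fin (m + 1) → ℕ => P (Fin.tail a) := h.comp Fin.succ

theorem NFn.comp (h : NFn M f) {k : ℕ} (ρ : Fin m → Fin k) :
    NFn M fun a : Fin k → ℕ => f fun i => a (ρ i) := by
  obtain ⟨F, h1, h2⟩ := h
  refine ⟨fun v => F fun i => v (ρ i), ⟨fun v hv => h1.1 _ fun i => hv _, ?_⟩,
    fun a => h2 fun i => a (ρ i)⟩
  exact h1.2.comp (Fin.cons 0 fun i => (ρ i).succ)

theorem NFn.tail (h : NFn M f) : NFn M fun a : Fin (m + 1) → ℕ => f (Fin.tail a) :=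
  h.comp Fin.succ

theorem NFn.proj (i : Fin m) : NFn M fun a => a i := ⟨fun v => v i, DfnF.proj i, fun _ => rfl⟩

theorem NFn.congr (h : NFn M f) (h' : ∀ a, f a = g a) : NFn M g := by
  obtain ⟨F, h1, h2⟩ := h
  exact ⟨F, h1, fun a => (h2 a).trans (by rw [h' a])⟩

theorem NR.eq (hf : NFn M f) (hg : NFn M g) : NR M fun a => f a = g a := by
  obtain ⟨F, h1, h2⟩ := hf
  obtain ⟨G, h3, h4⟩ := hg
  refine ⟨fun v => F v = G v, Dfn.eq h1 h3, fun a => ?_⟩
  simp only [h2, h4, nat_inj']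

theorem NR.lt (hf : NFn M f) (hg : NFn M g) : NR M fun a => f a < g a := by
  obtain ⟨F, h1, h2⟩ := hf
  obtain ⟨G, h3, h4⟩ := hg
  refine ⟨fun v => F v ∈ G v, Dfn.mem h1 h3, fun a => ?_⟩
  simp only [h2, h4, nat_mem_nat']

theorem NR.le (hf : NFn M f) (hg : NFn M g) : NR M fun a => f a ≤ g a :=
  (NR.lt hg hf).not.congr fun _ => not_lt

theorem NR.subst {Q : ℕ → (Fin m → ℕ) → Prop}
    (h : NR M fun w : Fin (m + 1) → ℕ => Q (w 0) (Fin.tail w)) (hf : NFn M f) :
    NR M fun a => Q (f a) a := by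
  obtain ⟨R, h1, h2⟩ := h
  obtain ⟨F, h3, h4⟩ := hf
  refine ⟨fun v => R (Fin.cons (F v) v), ?_, fun a => ?_⟩
  · refine Dfn.subst (Q := fun x v => R (Fin.cons x v)) ?_ h3
    exact h1.congr fun v _ => by rw [Fin.cons_self_tail]
  · beta_reduce
    rw [h4, cons_nat, h2]
    rfl

theorem NFn.subst {g : ℕ → (Fin m → ℕ) → ℕ}
    (h : NFn M fun w : Fin (m + 1) → ℕ => g (w 0) (Fin.tail w)) (hf : NFn M f) :
    NFn M fun a => g (f a) a := by
  obtain ⟨G, h1, h2⟩ := h
  obtain ⟨F, h3, h4⟩ := hf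
  refine ⟨fun v => G (Fin.cons (F v) v), ⟨fun v hv => h1.1 _ ?_, ?_⟩, fun a => ?_⟩
  · intro i
    refine Fin.cases ?_ (fun i => ?_) i
    · exact h3.1 v hv
    · exact hv i
  · refine Dfn.subst (Q := fun x w => w 0 = G (Fin.cons x (Fin.tail w))) ?_ h3.tail
    refine (h1.2.comp (Fin.cons 1 (Fin.cons 0 fun i => i.succ.succ) :
      Fin (m + 2) → Fin (m + 2))).congr fun w _ => ?_
    have e1 : (Fin.tail fun i : Fin (m + 2) => w ((Fin.cons 1 (Fin.cons 0 fun i => i.succ.succ) :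
        Fin (m + 2) → Fin (m + 2)) i)) = Fin.cons (w 0) (Fin.tail (Fin.tail w)) := by
      funext i
      refine Fin.cases ?_ (fun i => ?_) i
      · rfl
      · rfl
    rw [e1]
    rfl
  · beta_reduce
    rw [h4, cons_nat, h2]
    rfl

theorem NR.comp1 {Q : ℕ → Prop} (h : NR M fun w : Fin 1 → ℕ => Q (w 0)) (hf : NFn M f) :
    NR M fun a => Q (f a) :=
  NR.subst (Q := fun x _ => Q x) (h.comp (fun _ => 0)) hf

theorem NR.comp2 {Q : ℕ → ℕ → Prop} (h : NR M fun w : Fin 2 → ℕ => Q (w 0) (w 1))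
    (hf : NFn M f) (hg : NFn M g) : NR M fun a => Q (f a) (g a) := by
  refine NR.subst (Q := fun x a => Q x (g a)) ?_ hf
  refine NR.subst (Q := fun x a => Q (a 0) x) ?_ hg.tail
  exact h.comp ![1, 0]

theorem NFn.comp1 {h : ℕ → ℕ} (hh : NFn M fun w : Fin 1 → ℕ => h (w 0)) (hf : NFn M f) :
    NFn M fun a => h (f a) :=
  NFn.subst (g := fun x _ => h x) (hh.comp (fun _ => 0)) hf

theorem NFn.comp2 {h : ℕ → ℕ → ℕ} (hh : NFn M fun w : Fin 2 → ℕ => h (w 0) (w 1))
    (hf : NFn M f) (hg : NFn M g) : NFn M fun a => h (f a) (g a) := by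
  refine NFn.subst (g := fun x a => h x (g a)) ?_ hf
  refine NFn.subst (g := fun x a => h (a 0) x) ?_ hg.tail
  exact hh.comp ![1, 0]

open Classical in
theorem NFn.ite (hP : NR M P) (hf : NFn M f) (hg : NFn M g) :
    NFn M fun a => if P a then f a else g a := by
  obtain ⟨R, h1, h2⟩ := hP
  obtain ⟨F, h3, h4⟩ := hf
  obtain ⟨G, h5, h6⟩ := hg
  refine ⟨_, DfnF.ite h1 h3 h5, fun a => ?_⟩
  beta_reduce
  by_cases h : P a
  · rw [if_pos h, if_pos ((h2 a).2 h), h4]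
  · rw [if_neg h, if_neg fun h' => h ((h2 a).1 h'), h6]

variable (hM : IsZF M)

include hM

theorem NFn.const (n : ℕ) : NFn M fun _ : Fin m → ℕ => n :=
  ⟨fun _ => nat n, DfnF.const (hM.nat_mem n), fun _ => rfl⟩

theorem NFn.succ (hf : NFn M f) : NFn M fun a => f a + 1 := by
  obtain ⟨F, h1, h2⟩ := hf
  exact ⟨fun v => insert (F v) (F v), hM.base.insert' h1 h1, fun a => by
    beta_reduce
    rw [h2]
    rfl⟩

theorem NR.ex {Q : ℕ → (Fin m → ℕ) → Prop}
    (h : NR M fun w : Fin (m + 1) → ℕ => Q (w 0) (Fin.tail w)) : NR M fun a => ∃ n, Q n a := by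
  obtain ⟨R, h1, h2⟩ := h
  refine ⟨fun v => ∃ x ∈ ZFSet.omega, R (Fin.cons x v), ?_, fun a => ?_⟩
  · apply hM.base.bex (Q := fun x v => R (Fin.cons x v)) (DfnF.const hM.infinity)
    exact h1.congr fun v _ => by rw [Fin.cons_self_tail]
  · constructor
    · rintro ⟨x, hx, h3⟩
      obtain ⟨n, rfl⟩ := mem_omega_iff.1 hx
      rw [cons_nat, h2] at h3
      exact ⟨n, h3⟩
    · rintro ⟨n, h3⟩
      refine ⟨nat n, nat_mem_omega n, ?_⟩
      rw [cons_nat, h2]
      exact h3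

theorem NR.all {Q : ℕ → (Fin m → ℕ) → Prop}
    (h : NR M fun w : Fin (m + 1) → ℕ => Q (w 0) (Fin.tail w)) : NR M fun a => ∀ n, Q n a :=
  (NR.ex hM (Q := fun n a => ¬ Q n a) h.not).not.congr fun a => by
    constructor
    · intro h n
      by_contra h'
      exact h ⟨n, h'⟩
    · rintro h ⟨n, h'⟩
      exact h' (h n)

/-- A function whose graph is definable is definable. -/
theorem NFn.of_graph {Q : ℕ → (Fin m → ℕ) → Prop}
    (h : NR M fun w : Fin (m + 1) → ℕ => Q (w 0) (Fin.tail w)) (hu : ∀ a n, Q n a ↔ n = f a) :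
    NFn M f := by
  obtain ⟨R, h1, h2⟩ := h
  refine ⟨fun v => lo M fun ζ => ζ ∈ ZFSet.omega ∧ R (Fin.cons ζ v), ?_, fun a => ?_⟩
  · refine hM.lo' (Q := fun ζ v => ζ ∈ ZFSet.omega ∧ R (Fin.cons ζ v)) ?_
    apply Dfn.and
    · exact Dfn.mem (DfnF.proj 0) (DfnF.const hM.infinity)
    · exact h1.congr fun v _ => by rw [Fin.cons_self_tail]
  · have h3 : ∀ n, R (Fin.cons (nat n) fun i => nat (a i)) ↔ n = f a := by
      intro n
      rw [cons_nat, h2]
      exact hu a n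
    obtain ⟨-, -, h4, h5⟩ := lo_spec (M := M)
      (P := fun ζ => ζ ∈ ZFSet.omega ∧ R (Fin.cons ζ fun i => nat (a i)))
      ⟨nat (f a), hM.nat_mem _, isOrdinal_nat' _, nat_mem_omega _, (h3 _).2 rfl⟩
    obtain ⟨n, hn⟩ := mem_omega_iff.1 h4
    beta_reduce
    rw [hn] at h5 ⊢
    rw [(h3 n).1 h5]

/-- The function that is defined by recursion. -/
theorem NFn.rec2 {g : ℕ → ℕ} {t : ℕ → ℕ → ℕ → ℕ} {r : ℕ → ℕ → ℕ}
    (hg : NFn M fun w : Fin 1 → ℕ => g (w 0))
    (ht : NFn M fun w : Fin 3 → ℕ => t (w 0) (w 1) (w 2))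
    (h0 : ∀ x, r x 0 = g x) (h1 : ∀ x n, r x (n + 1) = t x n (r x n)) :
    NFn M fun w : Fin 2 → ℕ => r (w 0) (w 1) := by
  obtain ⟨G, h2, h3⟩ := hg
  obtain ⟨T, h4, h5⟩ := ht
  have h2' : DfnF M M fun w : Fin 1 → ZFSet.{0} => G ![w 0] := by
    refine h2.congr fun v _ => ?_
    congr 1
    funext i
    fin_cases i
    rfl
  have h4' : DfnF M M fun w : Fin 3 → ZFSet.{0} => T ![w 0, w 1, w 2] := by
    refine h4.congr fun v _ => ?_
    congr 1
    funext i
    fin_cases i <;> rfl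
  obtain ⟨F, h6, h7⟩ := exists_prec hM (G := fun x => G ![x]) (T := fun x y z => T ![x, y, z])
    h2' h4'
  refine ⟨fun v => F (v 0) (v 1), h6, fun a => ?_⟩
  have key : ∀ x n, F (nat x) (nat n) = nat (r x n) := by
    intro x n
    induction n with
    | zero =>
      rw [(h7 x).1, h0]
      have h8 := h3 ![x]
      rw [show (fun i => nat ((![x] : Fin 1 → ℕ) i)) = ![nat x] by
        funext i; fin_cases i; rfl] at h8
      exact h8
    | succ n ih =>
      rw [(h7 x).2, ih, h1]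
      have h8 := h5 ![x, n, r x n]
      rw [show (fun i => nat ((![x, n, r x n] : Fin 3 → ℕ) i)) = ![nat x, nat n, nat (r x n)] by
        funext i; fin_cases i <;> rfl] at h8
      exact h8
  exact key _ _

theorem mem_reals_iff {x : ℕ → ℕ} : x ∈ Reals M ↔ NFn M fun a : Fin 1 → ℕ => x (a 0) := by
  constructor
  · intro hx
    exact ⟨fun v => ap (rl x) (v 0), hM.ap' (DfnF.const hx) (DfnF.proj 0), fun a => ap_rl x _⟩
  · rintro ⟨F, h1, h2⟩
    have h1' : DfnF M M fun w : Fin 1 → ZFSet.{0} => F ![w 0] := by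
      refine h1.congr fun v _ => ?_
      congr 1
      funext i
      fin_cases i
      rfl
    have h2' : ∀ n, F ![nat n] = nat (x n) := by
      intro n
      have h3 := h2 ![n]
      rw [show (fun i => nat ((![n] : Fin 1 → ℕ) i)) = ![nat n] by
        funext i; fin_cases i; rfl] at h3
      exact h3
    obtain ⟨f, hf, h3, h4⟩ := hM.rel_mem hM.infinity hM.infinity
      (Q := fun a b => b = F ![a])
      (Dfn.eq (DfnF.proj 1) (DfnF.comp1 (f := fun a => F ![a]) h1' (DfnF.proj 0)))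
    have h5 : f = rl x := by
      ext p
      rw [mem_rl]
      constructor
      · intro hp
        obtain ⟨a, ha, b, hb, rfl⟩ := ZFSet.mem_prod.1 (h3 hp)
        obtain ⟨n, rfl⟩ := mem_omega_iff.1 ha
        exact ⟨n, by rw [← h2', ← ((h4 _ _).1 hp).2.2]⟩
      · rintro ⟨n, rfl⟩
        exact (h4 _ _).2 ⟨nat_mem_omega _, nat_mem_omega _, (h2' n).symm⟩
    show rl x ∈ M
    rw [← h5]
    exact hf

theorem NFn.app {x : ℕ → ℕ} (hx : x ∈ Reals M) (hf : NFn M f) : NFn M fun a => x (f a) :=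
  NFn.comp1 (h := x) ((mem_reals_iff hM).1 hx) hf

theorem NFn.add (hf : NFn M f) (hg : NFn M g) : NFn M fun a => f a + g a := by
  refine NFn.comp2 (h := fun x y => x + y) ?_ hf hg
  exact NFn.rec2 hM (g := fun x => x) (t := fun _ _ y => y + 1) (NFn.proj 0)
    (NFn.succ hM (NFn.proj 2)) (fun _ => rfl) fun _ _ => rfl

theorem NFn.mul (hf : NFn M f) (hg : NFn M g) : NFn M fun a => f a * g a := by
  refine NFn.comp2 (h := fun x y => x * y) ?_ hf hg
  exact NFn.rec2 hM (g := fun _ => 0) (t := fun x _ y => y + x) (NFn.const hM 0)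
    (NFn.add hM (NFn.proj 2) (NFn.proj 0)) (fun _ => rfl) fun _ _ => rfl

theorem NFn.pair (hf : NFn M f) (hg : NFn M g) : NFn M fun a => Nat.pair (f a) (g a) := by
  have h := NFn.ite (NR.lt hf hg) (NFn.add hM (NFn.mul hM hg hg) hf)
    (NFn.add hM (NFn.add hM (NFn.mul hM hf hf) hf) hg)
  refine h.congr fun a => ?_
  unfold Nat.pair
  by_cases h' : f a < g a
  · rw [if_pos h', if_pos h']
  · rw [if_neg h', if_neg h']

theorem NFn.fst (hf : NFn M f) : NFn M fun a => (Nat.unpair (f a)).1 := by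
  refine NFn.comp1 (h := fun n => (Nat.unpair n).1) ?_ hf
  refine NFn.of_graph hM (Q := fun n a => ∃ k, Nat.pair n k = a 0) ?_ fun a n => ?_
  · refine NR.ex hM (Q := fun k w => Nat.pair (w 0) k = Fin.tail w 0) ?_
    exact NR.eq (NFn.pair hM (NFn.proj 1) (NFn.proj 0)) (NFn.proj 2)
  · constructor
    · rintro ⟨k, h⟩
      rw [← h, Nat.unpair_pair]
    · rintro rfl
      exact ⟨(Nat.unpair (a 0)).2, Nat.pair_unpair _⟩

theorem NFn.snd (hf : NFn M f) : NFn M fun a => (Nat.unpair (f a)).2 := by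
  refine NFn.comp1 (h := fun n => (Nat.unpair n).2) ?_ hf
  refine NFn.of_graph hM (Q := fun n a => ∃ k, Nat.pair k n = a 0) ?_ fun a n => ?_
  · refine NR.ex hM (Q := fun k w => Nat.pair k (w 0) = Fin.tail w 0) ?_
    exact NR.eq (NFn.pair hM (NFn.proj 0) (NFn.proj 1)) (NFn.proj 2)
  · constructor
    · rintro ⟨k, h⟩
      rw [← h, Nat.unpair_pair]
    · rintro rfl
      exact ⟨(Nat.unpair (a 0)).1, Nat.pair_unpair _⟩

/-- All primitive recursive functions are in all models. -/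
theorem primrec_mem {x : ℕ → ℕ} (hx : Nat.Primrec x) : x ∈ Reals M := by
  rw [mem_reals_iff hM]
  induction hx with
  | zero => exact NFn.const hM 0
  | succ => exact NFn.succ hM (NFn.proj 0)
  | left => exact NFn.fst hM (NFn.proj 0)
  | right => exact NFn.snd hM (NFn.proj 0)
  | pair _ _ ih1 ih2 => exact NFn.pair hM ih1 ih2
  | @comp f g _ _ ih1 ih2 => exact NFn.comp1 (h := f) ih1 ih2
  | @prec f g _ _ ih1 ih2 =>
    have h := NFn.rec2 hM (g := f) (t := fun z y i => g (Nat.pair z (Nat.pair y i)))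
      (r := fun z n => Nat.rec (f z) (fun y IH => g (Nat.pair z (Nat.pair y IH))) n) ih1
      (NFn.comp1 (h := g) ih2 (NFn.pair hM (NFn.proj 0) (NFn.pair hM (NFn.proj 1) (NFn.proj 2))))
      (fun _ => rfl) fun _ _ => rfl
    exact NFn.comp2 (m := 1) (h := fun z n =>
      Nat.rec (f z) (fun y IH => g (Nat.pair z (Nat.pair y IH))) n) h
      (f := fun a => (Nat.unpair (a 0)).1) (g := fun a => (Nat.unpair (a 0)).2)
      (NFn.fst hM (NFn.proj 0)) (NFn.snd hM (NFn.proj 0))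

/-- Composition of reals. -/
theorem comp_mem {x y : ℕ → ℕ} (hx : x ∈ Reals M) (hy : y ∈ Reals M) :
    (fun n => x (y n)) ∈ Reals M :=
  (mem_reals_iff hM).2 (NFn.app hM hx ((mem_reals_iff hM).1 hy))

/-- A function that is defined over `M` is in `M`. -/
theorem real_of_dfn {R : ZFSet.{0} → ZFSet.{0} → Prop}
    (hR : Dfn M M fun w : Fin 2 → ZFSet.{0} => R (w 0) (w 1)) {x : ℕ → ℕ}
    (h : ∀ n k, R (nat n) (nat k) ↔ k = x n) : x ∈ Reals M := by
  rw [mem_reals_iff hM]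
  refine NFn.of_graph hM (Q := fun (k : ℕ) (a : Fin 1 → ℕ) => R (nat (a 0)) (nat k)) ?_ fun a n => h _ _
  exact ⟨fun v => R (v 1) (v 0), hR.comp ![1, 0], fun _ => Iff.rfl⟩

/-- The set of the pairs of numbers with a definable property is in `M`. -/
theorem NR.set2 {P : ℕ → ℕ → Prop} (h : NR M fun w : Fin 2 → ℕ => P (w 0) (w 1)) :
    ∃ r ∈ M, r ⊆ oo ∧ ∀ a b, pair (nat a) (nat b) ∈ r ↔ P a b := by
  obtain ⟨R, h1, h2⟩ := h
  obtain ⟨f, hf, h3, h4⟩ := hM.rel_mem hM.infinity hM.infinity (Q := fun a b => R ![a, b])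
    (h1.congr fun v _ => by
      have : v = ![v 0, v 1] := by
        funext i
        fin_cases i <;> rfl
      rw [← this])
  refine ⟨f, hf, h3, fun a b => ?_⟩
  rw [h4]
  have h5 := h2 ![a, b]
  rw [show (fun i => nat ((![a, b] : Fin 2 → ℕ) i)) = ![nat a, nat b] by
    funext i; fin_cases i <;> rfl] at h5
  rw [h5]
  exact ⟨fun h => h.2.2, fun h => ⟨nat_mem_omega _, nat_mem_omega _, h⟩⟩

/-- Membership of pairs of numbers in a set in `M`. -/
theorem NR.pairMem {r : ZFSet.{0}} (hr : r ∈ M) (hf : NFn M f) (hg : NFn M g) :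
    NR M fun a => ZFSet.pair (nat (f a)) (nat (g a)) ∈ r := by
  obtain ⟨F, h1, h2⟩ := hf
  obtain ⟨G, h3, h4⟩ := hg
  refine ⟨fun v => ZFSet.pair (F v) (G v) ∈ r,
    Dfn.mem (hM.base.pair' h1 h3) (DfnF.const hr), fun a => ?_⟩
  simp only [h2, h4]

end

/-! ### Second order arithmetic in a model -/

section

variable {M : Set ZFSet.{0}} (hM : IsZF M)

include hM

omit hM in
theorem isFunc_iff {a : ZFSet.{0}} (ha : a ∈ M) :
    ZFSet.IsFunc ZFSet.omega ZFSet.omega a ↔ ∃ x ∈ Reals M, a = rl x := by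
  constructor
  · intro h
    have h1 : ∀ n : ℕ, ∃ k : ℕ, pair (nat n) (nat k) ∈ a := by
      intro n
      obtain ⟨b, hb, h2⟩ := fun_exists h (nat_mem_omega n)
      obtain ⟨k, rfl⟩ := mem_omega_iff.1 hb
      exact ⟨k, h2⟩
    choose x hx using h1
    have h2 : a = rl x := by
      ext p
      rw [mem_rl]
      constructor
      · intro hp
        obtain ⟨u, hu, w, hw, rfl⟩ := ZFSet.mem_prod.1 (h.1 hp)
        obtain ⟨n, rfl⟩ := mem_omega_iff.1 hu
        exact ⟨n, by rw [fun_unique h hp (hx n)]⟩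
      · rintro ⟨n, rfl⟩
        exact hx n
    refine ⟨x, ?_, h2⟩
    show rl x ∈ M
    rw [← h2]
    exact ha
  · rintro ⟨x, -, rfl⟩
    refine ⟨fun p hp => ?_, fun z hz => ?_⟩
    · obtain ⟨n, rfl⟩ := mem_rl.1 hp
      exact ZFSet.pair_mem_prod.2 ⟨nat_mem_omega _, nat_mem_omega _⟩
    · obtain ⟨n, rfl⟩ := mem_omega_iff.1 hz
      refine ⟨nat (x n), mem_rl.2 ⟨n, rfl⟩, fun b hb => ?_⟩
      obtain ⟨k, h1⟩ := mem_rl.1 hb
      obtain ⟨h2, h3⟩ := ZFSet.pair_inj.1 h1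
      rw [nat_inj'] at h2
      rw [h3, h2]

theorem exists_add : ∃ F : ZFSet.{0} → ZFSet.{0} → ZFSet.{0},
    (DfnF M M fun w : Fin 2 → ZFSet.{0} => F (w 0) (w 1)) ∧
    ∀ a b : ℕ, F (nat a) (nat b) = nat (a + b) := by
  obtain ⟨F, h1, h2⟩ := NFn.add hM (m := 2) (NFn.proj 0) (NFn.proj 1)
  refine ⟨fun x y => F ![x, y], ?_, fun a b => ?_⟩
  · refine h1.congr fun v _ => ?_
    congr 1
    funext i
    fin_cases i <;> rfl
  · have h3 := h2 ![a, b]
    rw [show (fun i => nat ((![a, b] : Fin 2 → ℕ) i)) = ![nat a, nat b] by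
      funext i; fin_cases i <;> rfl] at h3
    exact h3

theorem exists_mul : ∃ F : ZFSet.{0} → ZFSet.{0} → ZFSet.{0},
    (DfnF M M fun w : Fin 2 → ZFSet.{0} => F (w 0) (w 1)) ∧
    ∀ a b : ℕ, F (nat a) (nat b) = nat (a * b) := by
  obtain ⟨F, h1, h2⟩ := NFn.mul hM (m := 2) (NFn.proj 0) (NFn.proj 1)
  refine ⟨fun x y => F ![x, y], ?_, fun a b => ?_⟩
  · refine h1.congr fun v _ => ?_
    congr 1
    funext i
    fin_cases i <;> rfl
  · have h3 := h2 ![a, b]
    rw [show (fun i => nat ((![a, b] : Fin 2 → ℕ) i)) = ![nat a, nat b] by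
      funext i; fin_cases i <;> rfl] at h3
    exact h3

theorem dfn_val {m k : ℕ} (t : Tm m k) {n : ℕ} (α : Fin m → Fin n) (β : Fin k → Fin n) :
    ∃ F : (Fin n → ZFSet.{0}) → ZFSet.{0}, DfnF M M F ∧
      ∀ (w : Fin n → ZFSet.{0}) (x : Fin m → Reals M) (v : Fin k → ℕ),
        (∀ i, w (α i) = rl (x i).1) → (∀ j, w (β j) = nat (v j)) →
        F w = nat (t.val (std (Reals M)) x v) := by
  induction t with
  | var j => exact ⟨fun w => w (β j), DfnF.proj _, fun w x v _ h => h j⟩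
  | zero => exact ⟨fun _ => nat 0, DfnF.const (hM.nat_mem 0), fun _ _ _ _ _ => rfl⟩
  | succ t ih =>
    obtain ⟨F, h1, h2⟩ := ih
    refine ⟨fun w => insert (F w) (F w), hM.base.insert' h1 h1, fun w x v ha hb => ?_⟩
    beta_reduce
    rw [h2 w x v ha hb]
    rfl
  | add s t ih1 ih2 =>
    obtain ⟨F, h1, h2⟩ := ih1
    obtain ⟨G, h3, h4⟩ := ih2
    obtain ⟨A, h5, h6⟩ := exists_add hM
    refine ⟨fun w => A (F w) (G w), DfnF.comp2 (f := A) h5 h1 h3, fun w x v ha hb => ?_⟩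
    beta_reduce
    rw [h2 w x v ha hb, h4 w x v ha hb]
    exact h6 _ _
  | mul s t ih1 ih2 =>
    obtain ⟨F, h1, h2⟩ := ih1
    obtain ⟨G, h3, h4⟩ := ih2
    obtain ⟨A, h5, h6⟩ := exists_mul hM
    refine ⟨fun w => A (F w) (G w), DfnF.comp2 (f := A) h5 h1 h3, fun w x v ha hb => ?_⟩
    beta_reduce
    rw [h2 w x v ha hb, h4 w x v ha hb]
    exact h6 _ _
  | app i t ih =>
    obtain ⟨F, h1, h2⟩ := ih
    refine ⟨fun w => ap (w (α i)) (F w), hM.ap' (DfnF.proj _) h1, fun w x v ha hb => ?_⟩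
    beta_reduce
    rw [h2 w x v ha hb, ha i]
    exact ap_rl _ _

/-- Truth in `std (Reals M)` is definable over `M`. -/
theorem dfn_holds : {m k : ℕ} → (φ : Fm m k) → {n : ℕ} → (α : Fin m → Fin n) →
    (β : Fin k → Fin n) →
    ∃ R : (Fin n → ZFSet.{0}) → Prop, Dfn M M R ∧
      ∀ (w : Fin n → ZFSet.{0}) (x : Fin m → Reals M) (v : Fin k → ℕ),
        (∀ i, w (α i) = rl (x i).1) → (∀ j, w (β j) = nat (v j)) →
        (R w ↔ Holds (std (Reals M)) φ x v)
  | m, k, .eq s t, n, α, β => by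
    obtain ⟨F, h1, h2⟩ := dfn_val hM s α β
    obtain ⟨G, h3, h4⟩ := dfn_val hM t α β
    refine ⟨fun w => F w = G w, Dfn.eq h1 h3, fun w x v ha hb => ?_⟩
    beta_reduce
    rw [h2 w x v ha hb, h4 w x v ha hb]
    exact nat_inj'
  | m, k, .neg φ, n, α, β => by
    obtain ⟨R, h1, h2⟩ := dfn_holds φ α β
    exact ⟨fun w => ¬ R w, h1.not, fun w x v ha hb => not_congr (h2 w x v ha hb)⟩
  | m, k, .and φ ψ, n, α, β => by
    obtain ⟨R, h1, h2⟩ := dfn_holds φ α β
    obtain ⟨R', h3, h4⟩ := dfn_holds ψ α β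
    exact ⟨fun w => R w ∧ R' w, h1.and h3, fun w x v ha hb =>
      and_congr (h2 w x v ha hb) (h4 w x v ha hb)⟩
  | m, k, .exN φ, n, α, β => by
    obtain ⟨R, h1, h2⟩ := dfn_holds φ (fun i => (α i).succ)
      (Fin.cons 0 fun j => (β j).succ : Fin (k + 1) → Fin (n + 1))
    refine ⟨fun w => ∃ a ∈ ZFSet.omega, R (Fin.cons a w), ?_, fun w x v ha hb => ?_⟩
    · apply hM.base.bex (Q := fun x v => R (Fin.cons x v)) (DfnF.const hM.infinity)
      exact h1.congr fun v _ => by rw [Fin.cons_self_tail]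
    · have h3 : ∀ a : ℕ, R (Fin.cons (nat a) w) ↔
          Holds (std (Reals M)) φ x (Fin.cons a v : Fin (k + 1) → ℕ) := by
        intro a
        refine h2 _ x _ ha fun j => ?_
        refine Fin.cases ?_ (fun j => ?_) j
        · rfl
        · exact hb j
      constructor
      · rintro ⟨a, ha', h4⟩
        obtain ⟨a, rfl⟩ := mem_omega_iff.1 ha'
        exact ⟨a, (h3 a).1 h4⟩
      · rintro ⟨a, h4⟩
        exact ⟨nat a, nat_mem_omega a, (h3 a).2 h4⟩
  | m, k, .exR φ, n, α, β => by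
    obtain ⟨R, h1, h2⟩ := dfn_holds φ
      (Fin.cons 0 fun i => (α i).succ : Fin (m + 1) → Fin (n + 1)) (fun j => (β j).succ)
    refine ⟨fun w => ∃ a ∈ M, ZFSet.IsFunc ZFSet.omega ZFSet.omega a ∧ R (Fin.cons a w), ?_,
      fun w x v ha hb => ?_⟩
    · apply Dfn.ex (Q := fun x v => ZFSet.IsFunc ZFSet.omega ZFSet.omega x ∧ R (Fin.cons x v))
      refine Dfn.and (hM.base.isFunc' (DfnF.const hM.infinity) (DfnF.const hM.infinity)
        (DfnF.proj 0)) ?_
      exact h1.congr fun v _ => by rw [Fin.cons_self_tail]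
    · have h3 : ∀ a : Reals M, R (Fin.cons (rl a.1) w) ↔
          Holds (std (Reals M)) φ (Fin.cons a x : Fin (m + 1) → Reals M) v := by
        intro a
        refine h2 _ _ v (fun i => ?_) hb
        refine Fin.cases ?_ (fun i => ?_) i
        · rfl
        · exact ha i
      constructor
      · rintro ⟨a, ha', h4, h5⟩
        obtain ⟨y, hy, rfl⟩ := (isFunc_iff ha').1 h4
        exact ⟨⟨y, hy⟩, (h3 ⟨y, hy⟩).1 h5⟩
      · rintro ⟨a, h4⟩
        exact ⟨rl a.1, a.2, (isFunc_iff a.2).2 ⟨a.1, a.2, rfl⟩, (h3 a).2 h4⟩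

/-- A relation on numbers that is defined in second order arithmetic with real parameters. -/
theorem NR.holds {m k : ℕ} (φ : Fm m k) (x : Fin m → Reals M) :
    NR M fun v : Fin k → ℕ => Holds (std (Reals M)) φ x v := by
  obtain ⟨R, h1, h2⟩ := dfn_holds hM φ (n := m + k) (Fin.castAdd k) (Fin.natAdd m)
  let σ : Fin (m + k) → Fin k ⊕ ZFSet.{0} :=
    Fin.addCases (fun i => Sum.inr (rl (x i).1)) fun j => Sum.inl j
  refine ⟨fun w => R fun i => Sum.elim w id (σ i), h1.specN σ fun i => ?_, fun a => ?_⟩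
  · refine Fin.addCases (fun i => ?_) (fun j => ?_) i
    · simp only [σ, Fin.addCases_left]
      exact tOver_inr.2 (x i).2
    · simp only [σ, Fin.addCases_right]
      exact TOver.inl _
  · refine h2 _ x a (fun i => ?_) fun j => ?_
    · simp only [σ, Fin.addCases_left]
      rfl
    · simp only [σ, Fin.addCases_right]
      rfl

end

end Pool.Agent.H637_NO.AR
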