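import Pool.Agent.H637_NO.NP

/-!
# New orbits: the forcing is a notion of forcing in the model
-/

set_option autoImplicit false
set_option linter.unreachableTactic false
set_option linter.unusedTactic false

namespace Pool.Agent.H637_NO.C1f

open Pool.Agent.W868 Pool.Agent.W868.GM
open ZFSet (pair)

/-! ### Reals -/

theorem mem_rl {x : ℕ → ℕ} {y : ZFSet.{0}} : y ∈ rl x ↔ ∃ n, y = pair (nat n) (nat (x n)) := by
  rw [rl, ZFSet.mem_range]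
  constructor
  · rintro ⟨n, rfl⟩
    exact ⟨n, rfl⟩
  · rintro ⟨n, rfl⟩
    exact ⟨n, rfl⟩

theorem pair_mem_rl {x : ℕ → ℕ} {m n : ℕ} : pair (nat m) (nat n) ∈ rl x ↔ n = x m := by
  rw [mem_rl]
  constructor
  · rintro ⟨k, h⟩
    obtain ⟨h1, h2⟩ := ZFSet.pair_inj.1 h
    obtain rfl := nat_injective h1
    exact nat_injective h2
  · rintro rfl
    exact ⟨m, rfl⟩

theorem rl_inj {x y : ℕ → ℕ} (h : rl x = rl y) : x = y := by
  funext m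
  have h1 : pair (nat m) (nat (x m)) ∈ rl y := h ▸ pair_mem_rl.2 rfl
  exact pair_mem_rl.1 h1

theorem rl_sub {x : ℕ → ℕ} : rl x ⊆ oo := by
  intro y hy
  obtain ⟨n, rfl⟩ := mem_rl.1 hy
  exact ZFSet.pair_mem_prod.2 ⟨nat_mem_omega _, nat_mem_omega _⟩

theorem isFunc_rl (x : ℕ → ℕ) : ZFSet.IsFunc ZFSet.omega ZFSet.omega (rl x) := by
  refine ⟨rl_sub, fun a ha => ?_⟩
  obtain ⟨m, rfl⟩ := mem_omega_iff.1 ha
  refine ⟨nat (x m), pair_mem_rl.2 rfl, fun b hb => ?_⟩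
  obtain ⟨n, h⟩ := mem_rl.1 hb
  obtain ⟨h1, h2⟩ := ZFSet.pair_inj.1 h
  obtain rfl := nat_injective h1
  exact h2

theorem exists_rl {f : ZFSet.{0}} (h : ZFSet.IsFunc ZFSet.omega ZFSet.omega f) :
    ∃ x, f = rl x := by
  have h1 : ∀ m : ℕ, ∃ n : ℕ, pair (nat m) (nat n) ∈ f := by
    intro m
    obtain ⟨b, hb, hb'⟩ := fun_exists h (nat_mem_omega m)
    obtain ⟨n, rfl⟩ := mem_omega_iff.1 hb
    exact ⟨n, hb'⟩
  choose x hx using h1
  refine ⟨x, ?_⟩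
  ext y
  rw [mem_rl]
  constructor
  · intro hy
    obtain ⟨a, ha, b, hb, rfl⟩ := ZFSet.mem_prod.1 (h.1 hy)
    obtain ⟨m, rfl⟩ := mem_omega_iff.1 ha
    exact ⟨m, by rw [fun_unique h hy (hx m)]⟩
  · rintro ⟨m, rfl⟩
    exact hx m

/-- The set `rw' z`, computed from the set `rl z` and the graph of the pairing function. -/
noncomputable def RW (g p : ZFSet.{0}) : ZFSet.{0} :=
  ZFSet.sep (fun q => ∃ k ∈ ZFSet.omega, pair q k ∈ g ∧ pair k ∅ ∈ p) oo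

theorem RW_rl {g : ZFSet.{0}}
    (hg : ∀ m n k : ℕ, pair (pair (nat m) (nat n)) (nat k) ∈ g ↔ k = Nat.pair m n) (z : ℕ → ℕ) :
    RW g (rl z) = rw' z := by
  ext q
  rw [RW, rw', ZFSet.mem_sep, ZFSet.mem_sep]
  refine and_congr_right fun hq => ?_
  obtain ⟨a, ha, b, hb, rfl⟩ := ZFSet.mem_prod.1 hq
  obtain ⟨m, rfl⟩ := mem_omega_iff.1 ha
  obtain ⟨n, rfl⟩ := mem_omega_iff.1 hb
  constructor
  · rintro ⟨k, hk, h1, h2⟩
    obtain ⟨k, rfl⟩ := mem_omega_iff.1 hk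
    have h3 := (hg m n k).1 h1
    subst h3
    have h4 : (0 : ℕ) = z (Nat.pair m n) := pair_mem_rl.1 h2
    exact ⟨m, n, rfl, h4.symm⟩
  · rintro ⟨m', n', h1, h2⟩
    obtain ⟨h3, h4⟩ := ZFSet.pair_inj.1 h1
    obtain rfl := nat_injective h3
    obtain rfl := nat_injective h4
    exact ⟨nat (Nat.pair m n), nat_mem_omega _, (hg m n _).2 rfl,
      pair_mem_rl (m := Nat.pair m n) (n := 0) |>.2 h2.symm⟩

theorem rw_sub (z : ℕ → ℕ) : rw' z ⊆ oo := fun _ h => (ZFSet.mem_sep.1 h).1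

/-! ### The set of the reals -/

theorem mem_PW {M : Set ZFSet.{0}} {r : ZFSet.{0}} : r ∈ PW M ↔ r ⊆ oo ∧ r ∈ M := by
  rw [PW, ZFSet.mem_sep, ZFSet.mem_powerset]

section

variable {M : Set ZFSet.{0}} (hM : IsZF M)

include hM

theorem oo_mem : oo ∈ M := hM.prod_mem hM.infinity hM.infinity

theorem PW_mem : PW M ∈ M := by
  obtain ⟨y, hy, h⟩ := hM.power _ (oo_mem hM)
  have h1 : y = PW M := by
    ext z
    rw [h, mem_PW, and_comm]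
  exact h1 ▸ hy

end

/-! ### Definability -/

section dfn

variable {M : Set ZFSet.{0}} (hM : IsZF M)

include hM

theorem dfn_RW {g : ZFSet.{0}} (hg : g ∈ M) : DfnF M M fun w : Fin 1 → ZFSet.{0} => RW g (w 0) := by
  have hB := hM.base
  have hω := hM.infinity
  have h0 := hM.empty_mem
  have h1 : Dfn M M fun w : Fin 2 → ZFSet.{0} => ∃ k ∈ ZFSet.omega, pair (w 0) k ∈ g ∧
      pair k ∅ ∈ w 1 := by
    (repeat' first
      | assumption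
      | exact DfnF.proj _
      | exact DfnF.const (by assumption)
      | apply Dfn.not | apply Dfn.and | apply Dfn.or | apply Dfn.imp | apply Dfn.iff
      | apply hB.bex | apply hB.ball | apply Dfn.ex | apply Dfn.all
      | apply Dfn.eq | apply Dfn.mem | apply hB.pair')
  exact hM.sep' (F := fun _ => oo) (Q := fun q w => ∃ k ∈ ZFSet.omega, pair q k ∈ g ∧
    pair k ∅ ∈ w 0) (DfnF.const (oo_mem hM)) h1

theorem dfn_Clp : Dfn M M fun w : Fin 2 → ZFSet.{0} => Clp (w 0) (w 1) := by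
  have hB := hM.base
  have hω := hM.infinity
  have h1 : Dfn M M fun w : Fin 2 → ZFSet.{0} => (∀ q ∈ w 1, ∃ n ∈ M, ∃ x ∈ M, q = pair n x ∧
    n ∈ ZFSet.omega ∧ (∀ y ∈ x, ∃ m ∈ ZFSet.omega, pair m n ∈ w 0 ∧ pair m y ∈ w 1) ∧
    ∀ m ∈ ZFSet.omega, pair m n ∈ w 0 → ∃ y ∈ x, pair m y ∈ w 1) ∧
    ∀ n ∈ ZFSet.omega, ∃ x ∈ M, pair n x ∈ w 1 := by
    (repeat' first
      | assumption
      | exact DfnF.proj _
      | exact DfnF.const (by assumption)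
      | apply Dfn.not | apply Dfn.and | apply Dfn.or | apply Dfn.imp | apply Dfn.iff
      | apply hB.bex | apply hB.ball | apply Dfn.ex | apply Dfn.all
      | apply Dfn.eq | apply Dfn.mem | apply hB.pair')
  refine h1.congr fun w hw => ?_
  have h2 : ∀ {a b}, pair a b ∈ w 1 → a ∈ M ∧ b ∈ M := fun h =>
    hM.of_pair_mem (hM.trans _ (hw 1) _ h)
  rw [Clp]
  refine and_congr (forall₂_congr fun q hq => ?_) (forall₂_congr fun n hn => ?_)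
  · constructor
    · rintro ⟨n, -, x, -, h⟩
      exact ⟨n, x, h⟩
    · rintro ⟨n, x, rfl, h⟩
      exact ⟨n, (h2 hq).1, x, (h2 hq).2, rfl, h⟩
  · constructor
    · rintro ⟨x, -, h⟩
      exact ⟨x, h⟩
    · rintro ⟨x, h⟩
      exact ⟨x, (h2 h).2, h⟩

theorem dfn_Cod (HC : S_HC) :
    Dfn M M fun w : Fin 2 → ZFSet.{0} => w 0 ⊆ oo ∧ Cod (w 0) (w 1) := by
  have hB := hM.base
  have h0 := hM.empty_mem
  have hoo := oo_mem hM
  have h1 : Dfn M M fun w : Fin 2 → ZFSet.{0} => w 0 ⊆ oo ∧ ∃ p ∈ M, Clp (w 0) p ∧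
      pair ∅ (w 1) ∈ p := by
    apply Dfn.and (hB.subset' (DfnF.proj 0) (DfnF.const hoo))
    apply Dfn.ex
    apply Dfn.and
    · exact Dfn.comp2 (Q := Clp) (dfn_Clp hM) (DfnF.proj 1) (DfnF.proj 0)
    · exact Dfn.mem (hB.pair' (DfnF.const h0) (DfnF.proj 2)) (DfnF.proj 0)
  refine h1.congr fun w hw => and_congr_right fun h2 => ?_
  constructor
  · rintro ⟨p, -, h3⟩
    exact ⟨p, h3⟩
  · rintro ⟨p, h3⟩
    obtain ⟨T, hT, hT', hpT, -⟩ := (HC M hM).2.2.1 _ (hw 0) h2 p h3.1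
    exact ⟨p, hM.trans _ hT _ hpT, h3⟩

theorem dfn_Fi : Dfn M M fun w : Fin 1 → ZFSet.{0} => Fi M (w 0) := by
  have hB := hM.base
  have hω := hM.infinity
  have h1 : Dfn M M fun w : Fin 1 → ZFSet.{0} => ∃ n ∈ ZFSet.omega, ∃ f ∈ M, IsInj (w 0) n f := by
    (repeat' first
      | assumption
      | exact DfnF.proj _
      | exact DfnF.const (by assumption)
      | apply hB.isInj'
      | apply Dfn.not | apply Dfn.and | apply Dfn.or | apply Dfn.imp | apply Dfn.iff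
      | apply hB.bex | apply hB.ball | apply Dfn.ex | apply Dfn.all
      | apply Dfn.eq | apply Dfn.mem | apply hB.pair')
  exact h1

theorem dfn_IsQ : Dfn M M fun w : Fin 1 → ZFSet.{0} => IsQ (w 0) := by
  have hB := hM.base
  have hω := hM.infinity
  have hoo := oo_mem hM
  have h1 : Dfn M M fun w : Fin 1 → ZFSet.{0} => ∃ q ∈ oo, ∃ m ∈ ZFSet.omega, ∃ a ∈ M,
      a ⊆ ZFSet.prod m m ∧ w 0 = pair q (pair m a) := by
    (repeat' first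
      | assumption
      | exact DfnF.proj _
      | exact DfnF.const (by assumption)
      | apply hB.subset' | apply hM.prod'
      | apply Dfn.not | apply Dfn.and | apply Dfn.or | apply Dfn.imp | apply Dfn.iff
      | apply hB.bex | apply hB.ball | apply Dfn.ex | apply Dfn.all
      | apply Dfn.eq | apply Dfn.mem | apply hB.pair')
  refine h1.congr fun w hw => ?_
  constructor
  · rintro ⟨q, hq, m, hm, a, -, ha, e⟩
    exact ⟨q, hq, m, hm, a, ha, e⟩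
  · rintro ⟨q, hq, m, hm, a, ha, e⟩
    have h2 := hw 0
    rw [e] at h2
    exact ⟨q, hq, m, hm, a, (hM.of_pair_mem (hM.of_pair_mem h2).2).2, ha, e⟩

theorem dfn_Hit : Dfn M M fun w : Fin 2 → ZFSet.{0} => Hit (w 0) (w 1) := by
  have hB := hM.base
  have h1 : Dfn M M fun w : Fin 2 → ZFSet.{0} => ∃ q ∈ M, ∃ m ∈ M, ∃ r ∈ M, ∃ a ∈ M,
      (a ⊆ r ∧ a ⊆ ZFSet.prod m m ∧ ∀ x ∈ r, x ∈ ZFSet.prod m m → x ∈ a) ∧
      w 0 = pair q (pair m a) ∧ w 1 = pair r q := by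
    (repeat' first
      | assumption
      | exact DfnF.proj _
      | exact DfnF.const (by assumption)
      | apply hB.subset' | apply hM.prod'
      | apply Dfn.not | apply Dfn.and | apply Dfn.or | apply Dfn.imp | apply Dfn.iff
      | apply hB.bex | apply hB.ball | apply Dfn.ex | apply Dfn.all
      | apply Dfn.eq | apply Dfn.mem | apply hB.pair')
  refine h1.congr fun w hw => ?_
  constructor
  · rintro ⟨q, -, m, -, r, -, a, -, ⟨h3, h4, h5⟩, e1, e2⟩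
    refine ⟨q, m, r, ?_, e2⟩
    have h6 : a = r ∩ ZFSet.prod m m := by
      ext x
      rw [ZFSet.mem_inter]
      exact ⟨fun h => ⟨h3 h, h4 h⟩, fun h => h5 x h.1 h.2⟩
    rw [e1, h6]
  · rintro ⟨q, m, r, e1, e2⟩
    have h2 := hw 0
    have h3 := hw 1
    rw [e1] at h2
    rw [e2] at h3
    have h4 := hM.of_pair_mem h2
    have h5 := hM.of_pair_mem h4.2
    have h6 := hM.of_pair_mem h3
    exact ⟨q, h4.1, m, h5.1, r, h6.1, _, h5.2, ⟨fun x hx => (ZFSet.mem_inter.1 hx).1,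
      fun x hx => (ZFSet.mem_inter.1 hx).2, fun x h7 h8 => ZFSet.mem_inter.2 ⟨h7, h8⟩⟩, e1, e2⟩

theorem dfn_Pc (hM' : IsZFC M) (HC : S_HC) (WD : S_WD) :
    Dfn M M fun w : Fin 1 → ZFSet.{0} => Pc M (w 0) := by
  have hB := hM.base
  obtain ⟨h, hh, h1⟩ := (HC M hM).1
  obtain ⟨PD, h2, h3⟩ := WD
  have h4 : Dfn M M fun w : Fin 1 → ZFSet.{0} => ∃ b ∈ h, w 0 ∈ h ∧ PD b (w 0) := by
    apply hB.bex (DfnF.const hh)
    apply Dfn.and (Dfn.mem (DfnF.proj _) (DfnF.const hh))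
    exact Dfn.comp2 (Q := PD) (h2.dfn hM.trans) (DfnF.proj 0) (DfnF.proj 1)
  refine h4.congr fun w hw => ?_
  rw [h3 M hM']
  refine exists_congr fun b => ?_
  rw [h1, h1]

theorem dfn_rs : DfnF M M fun w : Fin 2 → ZFSet.{0} => rs (w 0) (w 1) := by
  exact hM.sep' (F := fun w => w 0) (Q := fun p w => fs p ∈ w 1) (DfnF.proj 0)
    (Dfn.mem (hM.fs' (DfnF.proj 0)) (DfnF.proj 2))

theorem dfn_ln : DfnF M M fun w : Fin 1 → ZFSet.{0} => ln (w 0) := by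
  exact hM.im' (F := fun w => w 0) (h := fun p _ => fs p) (DfnF.proj 0) (hM.fs' (DfnF.proj 0))

theorem dfn_Cd (hM' : IsZFC M) (HC : S_HC) (WD : S_WD) :
    Dfn M M fun w : Fin 3 → ZFSet.{0} => Cd M (w 0) (w 1) (w 2) := by
  have hB := hM.base
  have hoo := oo_mem hM
  have hPW := PW_mem hM
  have h1 : Dfn M M fun w : Fin 3 → ZFSet.{0} => Pc M (w 0) ∧ Fi M (w 1) ∧ Fi M (w 2) ∧
      (∀ u ∈ w 1, IsQ u) ∧ ∀ v ∈ w 2, ∃ r ∈ PW M, ∃ q ∈ oo, v = pair r q ∧ ∃ j ∈ ln (w 0),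
      (r ⊆ oo ∧ Cod r (rs (w 0) j)) ∧ ∃ X ∈ M, pair j X ∈ w 0 ∧ q ∈ X := by
    refine (Dfn.comp1 (Q := Pc M) (dfn_Pc hM hM' HC WD) (DfnF.proj 0)).and ?_
    refine (Dfn.comp1 (Q := Fi M) (dfn_Fi hM) (DfnF.proj 1)).and ?_
    refine (Dfn.comp1 (Q := Fi M) (dfn_Fi hM) (DfnF.proj 2)).and ?_
    refine Dfn.and (hB.ball (DfnF.proj 1) (Dfn.comp1 (Q := IsQ) (dfn_IsQ hM) (DfnF.proj 0))) ?_
    apply hB.ball (DfnF.proj _)
    apply hB.bex (DfnF.const hPW)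
    apply hB.bex (DfnF.const hoo)
    apply Dfn.and (Dfn.eq (DfnF.proj _) (hB.pair' (DfnF.proj _) (DfnF.proj _)))
    apply hB.bex (DfnF.comp1 (f := ln) (dfn_ln hM) (DfnF.proj _))
    apply Dfn.and
    · exact Dfn.comp2 (Q := fun r a => r ⊆ oo ∧ Cod r a) (dfn_Cod hM HC) (DfnF.proj 2)
        (DfnF.comp2 (f := rs) (dfn_rs hM) (DfnF.proj 4) (DfnF.proj 0))
    · apply Dfn.ex
      (repeat' first
      | assumption
      | exact DfnF.proj _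
      | exact DfnF.const (by assumption)
      | apply Dfn.not | apply Dfn.and | apply Dfn.or | apply Dfn.imp | apply Dfn.iff
      | apply hB.bex | apply hB.ball | apply Dfn.ex | apply Dfn.all
      | apply Dfn.eq | apply Dfn.mem | apply hB.pair')
  refine h1.congr fun w hw => ?_
  rw [Cd]
  refine and_congr_right fun _ => and_congr_right fun _ => and_congr_right fun _ =>
    and_congr_right fun _ => forall₂_congr fun v hv => ?_
  refine exists_congr fun r => and_congr_right fun hr => exists_congr fun q =>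
    and_congr_right fun hq => and_congr_right fun _ => exists_congr fun j =>
    and_congr_right fun hj => ?_
  have h2 := (mem_PW.1 hr).1
  constructor
  · rintro ⟨⟨-, h3⟩, X, -, h4⟩
    exact ⟨h3, X, h4⟩
  · rintro ⟨h3, X, h4⟩
    exact ⟨⟨h2, h3⟩, X, (hM.of_pair_mem (hM.trans _ (hw 0) _ h4.1)).2, h4⟩

/-- The set `p` is a real that codes the condition `(c, (s, F))`. -/
def CzS (M : Set ZFSet.{0}) (g p c s F : ZFSet.{0}) : Prop :=
  ZFSet.IsFunc ZFSet.omega ZFSet.omega p ∧ (RW g p ⊆ oo ∧ Cod (RW g p) (pair c (pair s F))) ∧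
    Cd M c s F

theorem dfn_CzS (hM' : IsZFC M) (HC : S_HC) (WD : S_WD) {g : ZFSet.{0}} (hg : g ∈ M) :
    Dfn M M fun w : Fin 4 → ZFSet.{0} => CzS M g (w 0) (w 1) (w 2) (w 3) := by
  have hB := hM.base
  have hω := hM.infinity
  refine Dfn.and (hB.isFunc' (DfnF.const hω) (DfnF.const hω) (DfnF.proj 0)) (Dfn.and ?_ ?_)
  · exact Dfn.comp2 (Q := fun r a => r ⊆ oo ∧ Cod r a) (dfn_Cod hM HC)
      (DfnF.comp1 (f := RW g) (dfn_RW hM hg) (DfnF.proj 0))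
      (hB.pair' (DfnF.proj 1) (hB.pair' (DfnF.proj 2) (DfnF.proj 3)))
  · exact Dfn.comp3 (Q := Cd M) (dfn_Cd hM hM' HC WD) (DfnF.proj 1) (DfnF.proj 2) (DfnF.proj 3)

end dfn

/-! ### The forcing is in the model -/

theorem inj_mem {M : Set ZFSet.{0}} (hM : IsZF M) {x y : ZFSet.{0}} (h : Inj M x y) : x ∈ M := by
  obtain ⟨f, hf, h⟩ := h
  have h1 : x = im fs f := by
    ext z
    rw [mem_im]
    constructor
    · intro hz
      obtain ⟨b, hb, h2⟩ := fun_exists h.1 hz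
      exact ⟨_, h2, (fs_pair _ _).symm⟩
    · rintro ⟨p, hp, rfl⟩
      obtain ⟨a, ha, b, hb, rfl⟩ := ZFSet.mem_prod.1 (h.1.1 hp)
      rwa [fs_pair]
  rw [h1]
  exact hM.im_mem hf (hM.fs' (DfnF.proj 0))

theorem hct_mem {M : Set ZFSet.{0}} (hM : IsZF M) {x : ZFSet.{0}} (h : HCt M x) : x ∈ M := by
  obtain ⟨T, hT, -, hx, -⟩ := h
  exact hM.trans _ hT _ hx

section

variable {V : Set ZFSet.{0}} (hV : IsZFC V)

include hV

theorem mem_V_of_Cd (HC2 : S_HC2) {c s F : ZFSet.{0}} (h : Cd V c s F) :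
    HCt V c ∧ HCt V s ∧ HCt V F := by
  have hM := hV.toIsZF
  obtain ⟨h1, h2, h3, h4, h5⟩ := h
  obtain ⟨HCa, HCb⟩ := HC2
  obtain ⟨H1, H2, H3, H4, H5⟩ := HCa V hM
  have hoo : ∀ q ∈ oo, HCt V q := (H3 oo H5).2.2
  have hfin : ∀ x, Fi V x → (∀ y ∈ x, y ∈ V → HCt V y) → HCt V x := by
    rintro x ⟨n, hn, hx⟩ hy
    have hxV := inj_mem hM hx
    refine HCb V hV x hxV (fun y h => hy y h (hM.trans _ hxV _ h)) ?_
    obtain ⟨f, hf, h6⟩ := hx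
    refine ⟨f, hf, ⟨fun p hp => ?_, h6.1.2⟩, h6.2⟩
    obtain ⟨a, ha, b, hb, rfl⟩ := ZFSet.mem_prod.1 (h6.1.1 hp)
    obtain ⟨k, rfl⟩ := mem_omega_iff.1 hn
    exact ZFSet.pair_mem_prod.2 ⟨ha, nat_subset_omega hb⟩
  refine ⟨h1.1, hfin s h2 fun u hu huV => ?_, hfin F h3 fun v hv hvV => ?_⟩
  · obtain ⟨q, hq, m, hm, a, ha, rfl⟩ := h4 u hu
    have h6 := hM.of_pair_mem (hM.of_pair_mem huV).2
    have h7 : HCt V m := (H3 _ H4).2.2 m hm
    have h8 : HCt V a := H2 oo a H5 h6.2 fun x hx => by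
      obtain ⟨i, hi, j, hj, rfl⟩ := ZFSet.mem_prod.1 (ha hx)
      obtain ⟨k, rfl⟩ := mem_omega_iff.1 hm
      exact ZFSet.pair_mem_prod.2 ⟨nat_subset_omega hi, nat_subset_omega hj⟩
    exact (H1 _ _ (hoo q hq) (H1 _ _ h7 h8).1).1
  · obtain ⟨r, hr, q, hq, rfl, -⟩ := h5 v hv
    have h6 := mem_PW.1 hr
    exact (H1 _ _ (H2 oo r H5 h6.2 h6.1) (hoo q hq)).1

theorem triple (HC2 : S_HC2) {c s F : ZFSet.{0}} (h : Cd V c s F) :
    HCt V (pair c (pair s F)) := by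
  have hM := hV.toIsZF
  obtain ⟨h1, h2, h3⟩ := mem_V_of_Cd hV HC2 h
  obtain ⟨H1, -⟩ := HC2.1 V hM
  exact (H1 _ _ h1 (H1 _ _ h2 h3).1).1

theorem exists_Cz (HC : S_HC) (HC2 : S_HC2) (RWh : S_RW) {c s F : ZFSet.{0}} (h : Cd V c s F) :
    ∃ z, Cz V z c s F := by
  have hM := hV.toIsZF
  obtain ⟨r, hr, h1⟩ := (HC V hM).2.1 _ (triple hV HC2 h)
  obtain ⟨z, hz, rfl⟩ := (RWh V hM).2 r hr
  exact ⟨z, hz, h1, h⟩

theorem Cz_unique (HC : S_HC) {z : ℕ → ℕ} {c s F c' s' F' : ZFSet.{0}} (h : Cz V z c s F)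
    (h' : Cz V z c' s' F') : c = c' ∧ s = s' ∧ F = F' := by
  have h1 := (HC V hV.toIsZF).2.2.2.2 _ _ _ h.2.1 h'.2.1
  obtain ⟨h2, h3⟩ := ZFSet.pair_inj.1 h1
  obtain ⟨h4, h5⟩ := ZFSet.pair_inj.1 h3
  exact ⟨h2, h4, h5⟩

theorem Cz_iff {g : ZFSet.{0}}
    (hg : ∀ m n k : ℕ, pair (pair (nat m) (nat n)) (nat k) ∈ g ↔ k = Nat.pair m n)
    {z : ℕ → ℕ} {c s F : ZFSet.{0}} :
    Cz V z c s F ↔ rl z ∈ V ∧ CzS V g (rl z) c s F := by
  rw [Cz, CzS, RW_rl hg]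
  constructor
  · rintro ⟨h1, h2, h3⟩
    exact ⟨h1, isFunc_rl z, ⟨rw_sub z, h2⟩, h3⟩
  · rintro ⟨h1, -, ⟨-, h2⟩, h3⟩
    exact ⟨h1, h2, h3⟩

theorem mem_Pf {p : ZFSet.{0}} : p ∈ Pf V ↔ ∃ z c s F, p = rl z ∧ Cz V z c s F := by
  rw [Pf, ZFSet.mem_sep, ZFSet.mem_powerset]
  constructor
  · exact fun h => h.2
  · rintro ⟨z, c, s, F, rfl, h⟩
    exact ⟨rl_sub, z, c, s, F, rfl, h⟩

theorem mem_Lf {p : ZFSet.{0}} : p ∈ Lf V ↔ ∃ z c s F z' c' s' F', p = pair (rl z') (rl z) ∧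
    Cz V z c s F ∧ Cz V z' c' s' F' ∧ Stronger c s F c' s' F' := by
  rw [Lf, ZFSet.mem_sep, ZFSet.mem_prod]
  constructor
  · exact fun h => h.2
  · rintro ⟨z, c, s, F, z', c', s', F', rfl, h⟩
    exact ⟨⟨_, ZFSet.mem_powerset.2 rl_sub, _, ZFSet.mem_powerset.2 rl_sub, rfl⟩,
      z, c, s, F, z', c', s', F', rfl, h⟩

theorem Pf_mem (HC : S_HC) (HC2 : S_HC2) (WD : S_WD) {g : ZFSet.{0}} (hgV : g ∈ V)
    (hg : ∀ m n k : ℕ, pair (pair (nat m) (nat n)) (nat k) ∈ g ↔ k = Nat.pair m n) :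
    Pf V ∈ V := by
  have hM := hV.toIsZF
  have h1 : Dfn V V fun w : Fin 1 → ZFSet.{0} => ∃ c ∈ V, ∃ s ∈ V, ∃ F ∈ V,
      CzS V g (w 0) c s F := by
    apply Dfn.ex
    apply Dfn.ex
    apply Dfn.ex
    exact Dfn.comp4 (Q := CzS V g) (dfn_CzS hM hV HC WD hgV) (DfnF.proj 3) (DfnF.proj 2)
      (DfnF.proj 1) (DfnF.proj 0)
  have h2 := hM.sep_mem (Q := fun p => ∃ c ∈ V, ∃ s ∈ V, ∃ F ∈ V, CzS V g p c s F) h1 (PW_mem hM)
  have h3 : ZFSet.sep (fun p => ∃ c ∈ V, ∃ s ∈ V, ∃ F ∈ V, CzS V g p c s F) (PW V) = Pf V := by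
    ext p
    rw [ZFSet.mem_sep, mem_Pf hV, mem_PW]
    constructor
    · rintro ⟨⟨-, hp⟩, c, -, s, -, F, -, h4⟩
      obtain ⟨z, rfl⟩ := exists_rl h4.1
      exact ⟨z, c, s, F, rfl, (Cz_iff hV hg).2 ⟨hp, h4⟩⟩
    · rintro ⟨z, c, s, F, rfl, h4⟩
      have h5 := (Cz_iff hV hg).1 h4
      have h6 := mem_V_of_Cd hV HC2 h4.2.2
      exact ⟨⟨rl_sub, h5.1⟩, c, hct_mem hM h6.1, s, hct_mem hM h6.2.1, F, hct_mem hM h6.2.2, h5.2⟩
  exact h3 ▸ h2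

theorem Lf_mem (HC : S_HC) (HC2 : S_HC2) (WD : S_WD) {g : ZFSet.{0}} (hgV : g ∈ V)
    (hg : ∀ m n k : ℕ, pair (pair (nat m) (nat n)) (nat k) ∈ g ↔ k = Nat.pair m n) :
    Lf V ∈ V := by
  have hM := hV.toIsZF
  have hB := hM.base
  have h1 : Dfn V V fun w : Fin 1 → ZFSet.{0} => ∃ p ∈ V, ∃ c ∈ V, ∃ s ∈ V, ∃ F ∈ V,
      ∃ p' ∈ V, ∃ c' ∈ V, ∃ s' ∈ V, ∃ F' ∈ V, w 0 = pair p' p ∧
      CzS V g p c s F ∧ CzS V g p' c' s' F' ∧ c ⊆ c' ∧ s ⊆ s' ∧ F ⊆ F' ∧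
      ∀ u ∈ s', u ∉ s → ∀ v ∈ F, ¬ Hit u v := by
    apply Dfn.ex
    apply Dfn.ex
    apply Dfn.ex
    apply Dfn.ex
    apply Dfn.ex
    apply Dfn.ex
    apply Dfn.ex
    apply Dfn.ex
    apply Dfn.and (Dfn.eq (DfnF.proj _) (hB.pair' (DfnF.proj _) (DfnF.proj _)))
    apply Dfn.and (Dfn.comp4 (Q := CzS V g) (dfn_CzS hM hV HC WD hgV) (DfnF.proj _) (DfnF.proj _)
      (DfnF.proj _) (DfnF.proj _))
    apply Dfn.and (Dfn.comp4 (Q := CzS V g) (dfn_CzS hM hV HC WD hgV) (DfnF.proj _) (DfnF.proj _)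
      (DfnF.proj _) (DfnF.proj _))
    apply Dfn.and (hB.subset' (DfnF.proj _) (DfnF.proj _))
    apply Dfn.and (hB.subset' (DfnF.proj _) (DfnF.proj _))
    apply Dfn.and (hB.subset' (DfnF.proj _) (DfnF.proj _))
    apply hB.ball (DfnF.proj _)
    apply Dfn.imp (Dfn.mem (DfnF.proj _) (DfnF.proj _)).not
    apply hB.ball (DfnF.proj _)
    apply Dfn.not
    exact Dfn.comp2 (Q := Hit) (dfn_Hit hM) (DfnF.proj _) (DfnF.proj _)
  have h2 := hM.sep_mem (Q := fun x => ∃ p ∈ V, ∃ c ∈ V, ∃ s ∈ V, ∃ F ∈ V,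
      ∃ p' ∈ V, ∃ c' ∈ V, ∃ s' ∈ V, ∃ F' ∈ V, x = pair p' p ∧
      CzS V g p c s F ∧ CzS V g p' c' s' F' ∧ c ⊆ c' ∧ s ⊆ s' ∧ F ⊆ F' ∧
      ∀ u ∈ s', u ∉ s → ∀ v ∈ F, ¬ Hit u v) h1 (hM.prod_mem (PW_mem hM) (PW_mem hM))
  refine (?_ : ZFSet.sep _ _ = Lf V) ▸ h2
  ext x
  rw [ZFSet.mem_sep, mem_Lf hV, ZFSet.mem_prod]
  constructor
  · rintro ⟨-, p, hp, c, -, s, -, F, -, p', hp', c', -, s', -, F', -, rfl, h4, h5, h6⟩
    obtain ⟨z, rfl⟩ := exists_rl h4.1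
    obtain ⟨z', rfl⟩ := exists_rl h5.1
    exact ⟨z, c, s, F, z', c', s', F', rfl, (Cz_iff hV hg).2 ⟨hp, h4⟩,
      (Cz_iff hV hg).2 ⟨hp', h5⟩, h6⟩
  · rintro ⟨z, c, s, F, z', c', s', F', rfl, h4, h5, h6⟩
    have h7 := (Cz_iff hV hg).1 h4
    have h8 := (Cz_iff hV hg).1 h5
    have h9 := mem_V_of_Cd hV HC2 h4.2.2
    have h10 := mem_V_of_Cd hV HC2 h5.2.2
    exact ⟨⟨_, mem_PW.2 ⟨rl_sub, h8.1⟩, _, mem_PW.2 ⟨rl_sub, h7.1⟩, rfl⟩,
      rl z, h7.1, c, hct_mem hM h9.1, s, hct_mem hM h9.2.1, F, hct_mem hM h9.2.2,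
      rl z', h8.1, c', hct_mem hM h10.1, s', hct_mem hM h10.2.1, F', hct_mem hM h10.2.2, rfl,
      h7.2, h8.2, h6⟩

end

/-! ### The order -/

theorem stronger_refl (c s F : ZFSet.{0}) : Stronger c s F c s F :=
  ⟨fun _ h => h, fun _ h => h, fun _ h => h, fun _ h h' => absurd h h'⟩

theorem stronger_trans {c s F c' s' F' c'' s'' F'' : ZFSet.{0}} (h : Stronger c s F c' s' F')
    (h' : Stronger c' s' F' c'' s'' F'') : Stronger c s F c'' s'' F'' := by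
  obtain ⟨h1, h2, h3, h4⟩ := h
  obtain ⟨h5, h6, h7, h8⟩ := h'
  refine ⟨fun _ h => h5 (h1 h), fun _ h => h6 (h2 h), fun _ h => h7 (h3 h), fun u hu hu' v hv => ?_⟩
  by_cases h9 : u ∈ s'
  · exact h4 u h9 hu' v hv
  · exact h8 u hu h9 v (h3 hv)

theorem Cd_empty {M : Set ZFSet.{0}} (hM : IsZF M) (PC : S_PC) : Cd M ∅ ∅ ∅ := by
  have h1 : Fi M ∅ := by
    refine ⟨∅, ZFSet.omega_zero, ∅, hM.empty_mem, ⟨?_, ?_⟩, ?_⟩
    · exact fun x hx => absurd hx (ZFSet.notMem_empty x)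
    · exact fun x hx => absurd hx (ZFSet.notMem_empty x)
    · exact fun a b c h => absurd h (ZFSet.notMem_empty _)
  exact ⟨(PC M hM).1, h1, h1, fun u hu => absurd hu (ZFSet.notMem_empty u),
    fun u hu => absurd hu (ZFSet.notMem_empty u)⟩

end Pool.Agent.H637_NO.C1f

namespace Pool.Agent.H637_NO

open Pool.Agent.W868 Pool.Agent.W868.GM
open ZFSet (pair)
open C1f

theorem c1_aux (NP : ∀ M : Set ZFSet.{0}, IsZF M → ∃ g ∈ M, ∀ m n k : ℕ,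
      pair (pair (nat m) (nat n)) (nat k) ∈ g ↔ k = Nat.pair m n) :
    S_HC → S_HC2 → S_RW → S_WD → S_PC → S_C1 := by
  intro HC HC2 RWh WD PC V hG
  have hV := hG.zfc
  have hM := hV.toIsZF
  obtain ⟨g, hgV, hg⟩ := NP V hM
  have hle : ∀ {z c s F z' c' s' F'}, Cz V z c s F → Cz V z' c' s' F' →
      (pair (rl z') (rl z) ∈ Lf V ↔ Stronger c s F c' s' F') := by
    intro z c s F z' c' s' F' h h'
    rw [mem_Lf hV]
    constructor
    · rintro ⟨z₁, c₁, s₁, F₁, z₂, c₂, s₂, F₂, h1, h2, h3, h4⟩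
      obtain ⟨h5, h6⟩ := ZFSet.pair_inj.1 h1
      obtain rfl := rl_inj h5
      obtain rfl := rl_inj h6
      obtain ⟨rfl, rfl, rfl⟩ := Cz_unique hV HC h h2
      obtain ⟨rfl, rfl, rfl⟩ := Cz_unique hV HC h' h3
      exact h4
    · intro h1
      exact ⟨z, c, s, F, z', c', s', F', rfl, h, h', h1⟩
  refine ⟨⟨Pf_mem hV HC HC2 WD hgV hg, Lf_mem hV HC HC2 WD hgV hg, ?_, ?_, ?_⟩, ?_, ?_, ?_⟩
  · intro p hp
    obtain ⟨z, c, s, F, rfl, h⟩ := (mem_Pf hV).1 hp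
    exact (hle h h).2 (stronger_refl _ _ _)
  · intro p hp q hq r hr h1 h2
    obtain ⟨z, c, s, F, rfl, h⟩ := (mem_Pf hV).1 hp
    obtain ⟨z', c', s', F', rfl, h'⟩ := (mem_Pf hV).1 hq
    obtain ⟨z'', c'', s'', F'', rfl, h''⟩ := (mem_Pf hV).1 hr
    exact (hle h h'').2 (stronger_trans ((hle h h').1 h2) ((hle h' h'').1 h1))
  · obtain ⟨z, hz⟩ := exists_Cz hV HC HC2 RWh (Cd_empty hM PC)
    refine ⟨rl z, (mem_Pf hV).2 ⟨z, _, _, _, rfl, hz⟩, fun p hp => ?_⟩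
    obtain ⟨z', c', s', F', rfl, h'⟩ := (mem_Pf hV).1 hp
    exact (hle hz h').2 ⟨fun x hx => absurd hx (ZFSet.notMem_empty x),
      fun x hx => absurd hx (ZFSet.notMem_empty x), fun x hx => absurd hx (ZFSet.notMem_empty x),
      fun _ _ _ v hv => absurd hv (ZFSet.notMem_empty v)⟩
  · intro c s F h
    exact ⟨triple hV HC2 h, exists_Cz hV HC HC2 RWh h⟩
  · intro z hz
    rw [mem_Pf hV]
    constructor
    · rintro ⟨z', c, s, F, h1, h2⟩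
      obtain rfl := rl_inj h1
      exact ⟨c, s, F, h2⟩
    · rintro ⟨c, s, F, h⟩
      exact ⟨z, c, s, F, rfl, h⟩
  · intro z c s F z' c' s' F' h h'
    exact hle h h'

/-- The forcing `P` is a notion of forcing in the model. -/
theorem c1 : S_HC → S_HC2 → S_RW → S_WD → S_PC → S_C1 := c1_aux fun _ hM => NPf.np_mem hM

end Pool.Agent.H637_NO
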