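import Pool.Agent.H637_NO.ZC
import Pool.Agent.R597.Cho
import Pool.Agent.Y588.Hst

/-!
# New orbits: the forcing `P` is `Σ^1_2`

`Sg`: relations between hereditarily countable sets that are `Σ_1` by the same formula in all
transitive models of ZFC.
-/

set_option autoImplicit false
set_option linter.unreachableTactic false
set_option linter.unusedTactic false

namespace Pool.Agent.H637_NO

open Pool.Agent.W868 Pool.Agent.W868.GM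
open ZFSet (pair)

/-! ### Hereditarily countable sets -/

theorem HC2_pair (hC : S_HC2) {M : Set ZFSet.{0}} (hM : IsZFC M) {a b : ZFSet.{0}}
    (ha : HCt M a) (hb : HCt M b) : HCt M (pair a b) := ((hC.1 M hM.toIsZF).1 a b ha hb).1

theorem HC2_mem (hC : S_HC2) {M : Set ZFSet.{0}} (hM : IsZFC M) {a b : ZFSet.{0}}
    (ha : HCt M a) (hb : b ∈ a) : HCt M b := ((hC.1 M hM.toIsZF).2.2.1 a ha).2.2 b hb

theorem HC2_M (hC : S_HC2) {M : Set ZFSet.{0}} (hM : IsZFC M) {a : ZFSet.{0}}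
    (ha : HCt M a) : a ∈ M := ((hC.1 M hM.toIsZF).2.2.1 a ha).1

theorem HC2_of_pair (hC : S_HC2) {M : Set ZFSet.{0}} (hM : IsZFC M) {a b : ZFSet.{0}}
    (h : HCt M (pair a b)) : HCt M a ∧ HCt M b := by
  have h1 : HCt M ({a, b} : ZFSet.{0}) := HC2_mem hC hM h (by simp [pair])
  exact ⟨HC2_mem hC hM h1 (by simp), HC2_mem hC hM h1 (by simp)⟩

theorem HC2_om (hC : S_HC2) {M : Set ZFSet.{0}} (hM : IsZFC M) : HCt M ZFSet.omega :=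
  (hC.1 M hM.toIsZF).2.2.2.1

theorem HC2_sub (hC : S_HC2) {M : Set ZFSet.{0}} (hM : IsZFC M) {a b : ZFSet.{0}}
    (ha : HCt M a) (hb : b ∈ M) (h : b ⊆ a) : HCt M b :=
  (hC.1 M hM.toIsZF).2.1 a b ha hb h

/-- Collection for the hereditarily countable sets. -/
theorem HC2_coll (hH : S_HC) (hC : S_HC2) {M : Set ZFSet.{0}} (hM : IsZFC M) {F : ZFSet.{0}}
    (hF : HCt M F) {Q : ZFSet.{0} → ZFSet.{0} → Prop}
    (hQ : Dfn M M fun w : Fin 2 → ZFSet.{0} => Q (w 0) (w 1))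
    (h : ∀ a ∈ F, ∃ y, HCt M y ∧ Q y a) : ∃ B, HCt M B ∧ ∀ a ∈ F, ∃ y ∈ B, Q y a := by
  have hZ := hM.toIsZF
  have hFM := HC2_M hC hM hF
  obtain ⟨u, hu, hu'⟩ := (hH M hZ).1
  have hG : DfnF M M fun w : Fin 1 → ZFSet.{0} => ZFSet.sep (fun y => Q y (w 0)) u :=
    hZ.sep' (Q := fun y w => Q y (w 0)) (DfnF.const hu) hQ
  obtain ⟨c, hc, h1, h2⟩ := R597.exists_choice hM hFM
    (F := fun a => ZFSet.sep (fun y => Q y a) u) hG (by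
      intro a ha
      obtain ⟨y, hy, h1⟩ := h a ha
      exact ⟨y, ZFSet.mem_sep.2 ⟨(hu' y).2 hy, h1⟩⟩)
  have h3 : DfnF M M fun w : Fin 1 → ZFSet.{0} => ap c (w 0) :=
    hZ.ap' (DfnF.const hc) (DfnF.proj 0)
  refine ⟨im (ap c) F, hC.2 M hM _ (hZ.im_mem hFM h3) (fun y hy => ?_) ?_, fun a ha => ?_⟩
  · obtain ⟨a, ha, rfl⟩ := mem_im.1 hy
    exact (hu' _).1 (ZFSet.mem_sep.1 (h2 a ha)).1
  · exact Inj.image hZ hFM hZ.infinity isOrdinal_omega ((hC.1 M hZ).2.2.1 F hF).2.1 h3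
  · exact ⟨_, mem_im.2 ⟨a, ha, rfl⟩, (ZFSet.mem_sep.1 (h2 a ha)).2⟩

/-! ### `Σ_1` relations -/

/-- The relation `R M` on the hereditarily countable sets of `M` is `Σ_1`, by the same formula in
all models `M` of ZFC. -/
def Sg {n : ℕ} (R : Set ZFSet.{0} → (Fin n → ZFSet.{0}) → Prop) : Prop :=
  ∃ Q : ZFSet.{0} → (Fin n → ZFSet.{0}) → Prop,
    (D0 fun v : Fin (n + 1) → ZFSet.{0} => Q (v 0) (Fin.tail v)) ∧
    ∀ M, IsZFC M → ∀ v, (∀ i, HCt M (v i)) → (R M v ↔ ∃ a, HCt M a ∧ Q a v)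

section

variable {n : ℕ} {R T : Set ZFSet.{0} → (Fin n → ZFSet.{0}) → Prop}

theorem Sg.congr (h : Sg R) (h' : ∀ M, IsZFC M → ∀ v, (∀ i, HCt M (v i)) → (R M v ↔ T M v)) :
    Sg T := by
  obtain ⟨Q, h1, h2⟩ := h
  exact ⟨Q, h1, fun M hM v hv => (h' M hM v hv).symm.trans (h2 M hM v hv)⟩

theorem Sg.of (hC : S_HC2) {R : (Fin n → ZFSet.{0}) → Prop} (h : D0 R) : Sg fun _ v => R v :=
  ⟨fun _ v => R v, h.tail, fun _ hM _ _ =>
    ⟨fun h1 => ⟨_, HC2_om hC hM, h1⟩, fun ⟨_, _, h1⟩ => h1⟩⟩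

theorem Sg.and (hC : S_HC2) (h : Sg R) (h' : Sg T) : Sg fun M v => R M v ∧ T M v := by
  obtain ⟨Q, h1, h2⟩ := h
  obtain ⟨Q', h3, h4⟩ := h'
  refine ⟨fun z v => ∃ x y, z = pair x y ∧ Q x v ∧ Q' y v, ?_, fun M hM v hv => ?_⟩
  · refine D0.expair (Q := fun x y w => Q x (Fin.tail w) ∧ Q' y (Fin.tail w)) (D0v.proj 0) ?_
    apply D0.and
    · exact h1.comp (Fin.cons 1 fun i => i.succ.succ.succ)
    · exact h3.comp (Fin.cons 0 fun i => i.succ.succ.succ)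
  · beta_reduce
    rw [h2 M hM v hv, h4 M hM v hv]
    constructor
    · rintro ⟨⟨a, ha, h5⟩, b, hb, h6⟩
      exact ⟨pair a b, HC2_pair hC hM ha hb, a, b, rfl, h5, h6⟩
    · rintro ⟨_, h5, a, b, rfl, h6, h7⟩
      exact ⟨⟨a, (HC2_of_pair hC hM h5).1, h6⟩, b, (HC2_of_pair hC hM h5).2, h7⟩

theorem Sg.ex (hC : S_HC2) {P : Set ZFSet.{0} → ZFSet.{0} → (Fin n → ZFSet.{0}) → Prop}
    (h : Sg fun M (w : Fin (n + 1) → ZFSet.{0}) => P M (w 0) (Fin.tail w)) :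
    Sg fun M v => ∃ a, HCt M a ∧ P M a v := by
  obtain ⟨Q, h1, h2⟩ := h
  refine ⟨fun z v => ∃ x y, z = pair x y ∧ Q y (Fin.cons x v), ?_, fun M hM v hv => ?_⟩
  · refine D0.expair (Q := fun x y w => Q y (Fin.cons x (Fin.tail w))) (D0v.proj 0) ?_
    refine (h1.comp (Fin.cons 0 (Fin.cons 1 fun i => i.succ.succ.succ) :
      Fin (n + 2) → Fin (n + 3))).congr fun w => ?_
    have h3 : (Fin.tail fun i : Fin (n + 2) => w ((Fin.cons 0 (Fin.cons 1 fun i =>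
        i.succ.succ.succ) : Fin (n + 2) → Fin (n + 3)) i)) =
        (Fin.cons (w 1) (Fin.tail (Fin.tail (Fin.tail w))) : Fin (n + 1) → ZFSet.{0}) := by
      funext i
      refine Fin.cases ?_ (fun i => ?_) i
      · rfl
      · rfl
    rw [h3]
    rfl
  · have h3 : ∀ a, HCt M a → (P M a v ↔ ∃ y, HCt M y ∧ Q y (Fin.cons a v)) := by
      intro a ha
      refine (h2 M hM (Fin.cons a v) fun i => ?_)
      refine Fin.cases ?_ (fun i => ?_) i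
      · exact ha
      · exact hv i
    constructor
    · rintro ⟨a, ha, h4⟩
      obtain ⟨y, hy, h5⟩ := (h3 a ha).1 h4
      exact ⟨pair a y, HC2_pair hC hM ha hy, a, y, rfl, h5⟩
    · rintro ⟨_, h5, a, y, rfl, h6⟩
      exact ⟨a, (HC2_of_pair hC hM h5).1, (h3 a (HC2_of_pair hC hM h5).1).2
        ⟨y, (HC2_of_pair hC hM h5).2, h6⟩⟩

theorem Sg.comp (h : Sg R) {m : ℕ} (ρ : Fin n → Fin m) :
    Sg fun M (v : Fin m → ZFSet.{0}) => R M fun i => v (ρ i) := by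
  obtain ⟨Q, h1, h2⟩ := h
  refine ⟨fun a v => Q a fun i => v (ρ i), ?_, fun M hM v hv => h2 M hM _ fun i => hv _⟩
  exact h1.comp (Fin.cons 0 fun i => (ρ i).succ)

theorem Sg.ball (hH : S_HC) (hC : S_HC2)
    {P : Set ZFSet.{0} → ZFSet.{0} → (Fin n → ZFSet.{0}) → Prop}
    {F : (Fin n → ZFSet.{0}) → ZFSet.{0}} (hF : D0v F)
    (h : Sg fun M (w : Fin (n + 1) → ZFSet.{0}) => P M (w 0) (Fin.tail w)) :
    Sg fun M v => ∀ a ∈ F v, P M a v := by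
  obtain ⟨Q, h1, h2⟩ := h
  refine ⟨fun z v => ∀ a ∈ F v, ∃ y ∈ z, Q y (Fin.cons a v), ?_, fun M hM v hv => ?_⟩
  · apply D0.ball hF.tail
    apply D0.bex (D0v.proj 1)
    refine (h1.comp (Fin.cons 0 (Fin.cons 1 fun i => i.succ.succ.succ) :
      Fin (n + 2) → Fin (n + 3))).congr fun w => ?_
    have h3 : (Fin.tail fun i : Fin (n + 2) => w ((Fin.cons 0 (Fin.cons 1 fun i =>
        i.succ.succ.succ) : Fin (n + 2) → Fin (n + 3)) i)) =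
        (Fin.cons (w 1) (Fin.tail (Fin.tail (Fin.tail w))) : Fin (n + 1) → ZFSet.{0}) := by
      funext i
      refine Fin.cases ?_ (fun i => ?_) i
      · rfl
      · rfl
    rw [h3]
    rfl
  · have h3 : ∀ a, HCt M a → (P M a v ↔ ∃ y, HCt M y ∧ Q y (Fin.cons a v)) := by
      intro a ha
      refine (h2 M hM (Fin.cons a v) fun i => ?_)
      refine Fin.cases ?_ (fun i => ?_) i
      · exact ha
      · exact hv i
    have hFv : HCt M (F v) := by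
      obtain ⟨i, hi⟩ := hF
      rw [hi]
      exact hv i
    constructor
    · intro h4
      refine HC2_coll hH hC hM hFv (Q := fun y a => Q y (Fin.cons a v)) ?_
        fun a ha => (h3 a (HC2_mem hC hM hFv ha)).1 (h4 a ha)
      have h5 : D0 fun w : Fin (n + 2) → ZFSet.{0} =>
          Q (w 0) (Fin.cons (w 1) (Fin.tail (Fin.tail w))) := by
        refine h1.congr fun w => ?_
        have h6 : (Fin.tail w : Fin (n + 1) → ZFSet.{0}) =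
            Fin.cons (w 1) (Fin.tail (Fin.tail w)) := by
          funext i
          refine Fin.cases ?_ (fun i => ?_) i
          · rfl
          · rfl
        rw [← h6]
      exact Dfn.spec2 (R := fun y a v => Q y (Fin.cons a v))
        (h5.dfn hM.toIsZF.trans) fun i => HC2_M hC hM (hv i)
    · rintro ⟨B, hB, h4⟩ a ha
      obtain ⟨y, hy, h5⟩ := h4 a ha
      exact (h3 a (HC2_mem hC hM hFv ha)).2 ⟨y, HC2_mem hC hM hB hy, h5⟩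

theorem Sg.bex (hC : S_HC2) {P : Set ZFSet.{0} → ZFSet.{0} → (Fin n → ZFSet.{0}) → Prop}
    {F : (Fin n → ZFSet.{0}) → ZFSet.{0}} (hF : D0v F)
    (h : Sg fun M (w : Fin (n + 1) → ZFSet.{0}) => P M (w 0) (Fin.tail w)) :
    Sg fun M v => ∃ a ∈ F v, P M a v := by
  have h1 : Sg fun M v => ∃ a, HCt M a ∧ a ∈ F v ∧ P M a v :=
    Sg.ex hC (P := fun M a v => a ∈ F v ∧ P M a v)
      (Sg.and hC (Sg.of hC (D0.mem (D0v.proj 0) hF.tail)) h)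
  refine h1.congr fun M hM v hv => ?_
  have hFv : HCt M (F v) := by
    obtain ⟨i, hi⟩ := hF
    rw [hi]
    exact hv i
  exact ⟨fun ⟨a, _, h2⟩ => ⟨a, h2⟩, fun ⟨a, ha, h2⟩ => ⟨a, HC2_mem hC hM hFv ha, ha, h2⟩⟩

theorem Sg.expair (hC : S_HC2)
    {P : Set ZFSet.{0} → ZFSet.{0} → ZFSet.{0} → (Fin n → ZFSet.{0}) → Prop}
    {F : (Fin n → ZFSet.{0}) → ZFSet.{0}} (hF : D0v F)
    (h : Sg fun M (w : Fin (n + 2) → ZFSet.{0}) => P M (w 1) (w 0) (Fin.tail (Fin.tail w))) :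
    Sg fun M v => ∃ x y, F v = pair x y ∧ P M x y v := by
  have h1 : Sg fun M v => ∃ x, HCt M x ∧ ∃ y, HCt M y ∧ F v = pair x y ∧ P M x y v := by
    refine Sg.ex hC (P := fun M x v => ∃ y, HCt M y ∧ F v = pair x y ∧ P M x y v) ?_
    refine Sg.ex hC (P := fun M y w => F (Fin.tail w) = pair (w 0) y ∧
      P M (w 0) y (Fin.tail w)) ?_
    exact Sg.and hC (Sg.of hC (D0.isPair hF.tail.tail (D0v.proj 1) (D0v.proj 0))) h
  refine h1.congr fun M hM v hv => ?_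
  have hFv : HCt M (F v) := by
    obtain ⟨i, hi⟩ := hF
    rw [hi]
    exact hv i
  constructor
  · rintro ⟨x, -, y, -, h2⟩
    exact ⟨x, y, h2⟩
  · rintro ⟨x, y, h2, h3⟩
    rw [h2] at hFv
    exact ⟨x, (HC2_of_pair hC hM hFv).1, y, (HC2_of_pair hC hM hFv).2, h2, h3⟩

end

theorem d0_omega {n : ℕ} {F : (Fin n → ZFSet.{0}) → ZFSet.{0}} (hF : D0v F) :
    D0 fun v => F v = ZFSet.omega := by
  have h : D0 fun v => (F v).IsOrdinal ∧ (∃ z ∈ F v, ∀ u ∈ z, u ≠ u) ∧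
      (∀ z ∈ F v, ∃ u ∈ F v, z ∈ u) ∧
      ∀ z ∈ F v, (∀ u ∈ z, u ≠ u) ∨ ∃ u ∈ z, ∀ x ∈ z, x = u ∨ x ∈ u := by
    have h1 := hF.tail
    (repeat' first
      | assumption
      | exact D0v.proj _
      | apply D0.not
      | apply D0.or
      | apply D0.and | apply D0.pairMem
      | apply D0.bex | apply D0.ball | apply D0.imp | apply D0.subset
      | apply D0.eq | apply D0.mem | apply D0.isOrdinal)
  refine h.congr fun v => ?_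
  constructor
  · rintro ⟨h1, h2, h3, h4⟩
    exact omega_of h1 h2 h3 h4
  · intro h1
    rw [h1]
    refine ⟨isOrdinal_omega, ⟨∅, ZFSet.omega_zero, fun u hu =>
      absurd hu (ZFSet.notMem_empty u)⟩, fun z hz => ?_, fun z hz => ?_⟩
    · exact ⟨insert z z, ZFSet.omega_succ hz, ZFSet.mem_insert _ _⟩
    · obtain ⟨n, rfl⟩ := mem_omega_iff.1 hz
      cases n with
      | zero => exact Or.inl fun u hu => absurd hu (ZFSet.notMem_empty u)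
      | succ n =>
        refine Or.inr ⟨nat n, ZFSet.mem_insert _ _, fun x hx => ?_⟩
        exact ZFSet.mem_insert_iff.1 hx


section

variable {n : ℕ} {F G H : (Fin n → ZFSet.{0}) → ZFSet.{0}}

theorem Sg.om (hC : S_HC2) {P : Set ZFSet.{0} → ZFSet.{0} → (Fin n → ZFSet.{0}) → Prop}
    (h : Sg fun M (w : Fin (n + 1) → ZFSet.{0}) => P M (w 0) (Fin.tail w)) :
    Sg fun M v => P M ZFSet.omega v := by
  have h1 : Sg fun M v => ∃ a, HCt M a ∧ a = ZFSet.omega ∧ P M a v :=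
    Sg.ex hC (P := fun M a v => a = ZFSet.omega ∧ P M a v)
      (Sg.and hC (Sg.of hC (d0_omega (D0v.proj 0))) h)
  refine h1.congr fun M hM v hv => ?_
  constructor
  · rintro ⟨_, -, rfl, h2⟩
    exact h2
  · intro h2
    exact ⟨_, HC2_om hC hM, rfl, h2⟩

theorem Sg.comp1 {R : Set ZFSet.{0} → ZFSet.{0} → Prop}
    (h : Sg fun M (v : Fin 1 → ZFSet.{0}) => R M (v 0)) (hF : D0v F) :
    Sg fun M v => R M (F v) := by
  obtain ⟨a, ha⟩ := hF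
  refine (h.comp ![a]).congr fun M _ v _ => ?_
  rw [ha]
  rfl

theorem Sg.comp2 {R : Set ZFSet.{0} → ZFSet.{0} → ZFSet.{0} → Prop}
    (h : Sg fun M (v : Fin 2 → ZFSet.{0}) => R M (v 0) (v 1)) (hF : D0v F) (hG : D0v G) :
    Sg fun M v => R M (F v) (G v) := by
  obtain ⟨a, ha⟩ := hF
  obtain ⟨b, hb⟩ := hG
  refine (h.comp ![a, b]).congr fun M _ v _ => ?_
  rw [ha, hb]
  rfl

theorem Sg.comp3 {R : Set ZFSet.{0} → ZFSet.{0} → ZFSet.{0} → ZFSet.{0} → Prop}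
    (h : Sg fun M (v : Fin 3 → ZFSet.{0}) => R M (v 0) (v 1) (v 2)) (hF : D0v F) (hG : D0v G)
    (hH : D0v H) : Sg fun M v => R M (F v) (G v) (H v) := by
  obtain ⟨a, ha⟩ := hF
  obtain ⟨b, hb⟩ := hG
  obtain ⟨c, hc⟩ := hH
  refine (h.comp ![a, b, c]).congr fun M _ v _ => ?_
  rw [ha, hb, hc]
  rfl

end

/-! ### The relations -/

/-- `r` is a set of pairs of elements of `o`. -/
def SubO (o r : ZFSet.{0}) : Prop := ∀ z ∈ r, ∃ m n, z = pair m n ∧ m ∈ o ∧ n ∈ o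

theorem subO_iff {o r : ZFSet.{0}} : SubO o r ↔ r ⊆ ZFSet.prod o o := by
  constructor
  · intro h z hz
    obtain ⟨m, n, rfl, h1, h2⟩ := h z hz
    exact ZFSet.pair_mem_prod.2 ⟨h1, h2⟩
  · intro h z hz
    obtain ⟨m, hm, n, hn, rfl⟩ := ZFSet.mem_prod.1 (h hz)
    exact ⟨m, n, rfl, hm, hn⟩

/-- Bounded form of `Clp`. -/
def ClO (o r p : ZFSet.{0}) : Prop :=
  (∀ q ∈ p, ∃ n x, q = pair n x ∧ n ∈ o ∧
    (∀ y ∈ x, ∃ m ∈ o, pair m n ∈ r ∧ pair m y ∈ p) ∧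
    ∀ m ∈ o, pair m n ∈ r → ∃ y ∈ x, pair m y ∈ p) ∧
  ∀ n ∈ o, ∃ q ∈ p, ∃ n' x, q = pair n' x ∧ n' = n ∧ x = x

theorem clO_iff {r p : ZFSet.{0}} : ClO ZFSet.omega r p ↔ Clp r p := by
  unfold ClO Clp
  refine and_congr_right fun _ => forall₂_congr fun n _ => ?_
  constructor
  · rintro ⟨_, hq, _, x, rfl, rfl, -⟩
    exact ⟨x, hq⟩
  · rintro ⟨x, hx⟩
    exact ⟨_, hx, n, x, rfl, rfl, rfl⟩

/-- Bounded form of `y = rs c j`. -/
def RsO (y c j : ZFSet.{0}) : Prop :=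
  (∀ u ∈ y, u ∈ c ∧ ∃ i x, u = pair i x ∧ i ∈ j ∧ x = x) ∧
  ∀ u ∈ c, (∃ i x, u = pair i x ∧ i ∈ j ∧ x = x) → u ∈ y

theorem rsO_iff {y c j a b : ZFSet.{0}} (hc : c ⊆ ZFSet.prod a b) : RsO y c j ↔ y = rs c j := by
  constructor
  · rintro ⟨h1, h2⟩
    ext u
    rw [rs, ZFSet.mem_sep]
    constructor
    · intro hu
      obtain ⟨h3, i, x, rfl, h4, -⟩ := h1 u hu
      exact ⟨h3, by rwa [fs_pair]⟩
    · rintro ⟨h3, h4⟩
      obtain ⟨i, hi, x, hx, rfl⟩ := ZFSet.mem_prod.1 (hc h3)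
      rw [fs_pair] at h4
      exact h2 _ h3 ⟨i, x, rfl, h4, rfl⟩
  · rintro rfl
    refine ⟨fun u hu => ?_, fun u hu h => ?_⟩
    · obtain ⟨h3, h4⟩ := ZFSet.mem_sep.1 hu
      obtain ⟨i, hi, x, hx, rfl⟩ := ZFSet.mem_prod.1 (hc h3)
      rw [fs_pair] at h4
      exact ⟨h3, i, x, rfl, h4, rfl⟩
    · obtain ⟨i, x, rfl, h4, -⟩ := h
      exact ZFSet.mem_sep.2 ⟨hu, by rwa [fs_pair]⟩

/-- Bounded form of `IsQ`. -/
def QO (o u : ZFSet.{0}) : Prop :=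
  ∃ q t, u = pair q t ∧ (∃ i j, q = pair i j ∧ i ∈ o ∧ j ∈ o) ∧
    ∃ m a, t = pair m a ∧ m ∈ o ∧ SubO m a

theorem qO_iff {u : ZFSet.{0}} : QO ZFSet.omega u ↔ IsQ u := by
  constructor
  · rintro ⟨_, _, rfl, ⟨i, j, rfl, hi, hj⟩, m, a, rfl, hm, ha⟩
    exact ⟨_, ZFSet.pair_mem_prod.2 ⟨hi, hj⟩, m, hm, a, subO_iff.1 ha, rfl⟩
  · rintro ⟨q, hq, m, hm, a, ha, rfl⟩
    obtain ⟨i, hi, j, hj, rfl⟩ := ZFSet.mem_prod.1 hq
    exact ⟨_, _, rfl, ⟨i, j, rfl, hi, hj⟩, m, a, rfl, hm, subO_iff.2 ha⟩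

/-- Bounded form of `Hit`. -/
def HO (u v : ZFSet.{0}) : Prop :=
  ∃ q t, u = pair q t ∧ ∃ m a, t = pair m a ∧ ∃ r q', v = pair r q' ∧ q' = q ∧
    (∀ z ∈ a, z ∈ r ∧ ∃ i j, z = pair i j ∧ i ∈ m ∧ j ∈ m) ∧
    ∀ z ∈ r, (∃ i j, z = pair i j ∧ i ∈ m ∧ j ∈ m) → z ∈ a

theorem hO_iff {u v : ZFSet.{0}} : HO u v ↔ Hit u v := by
  constructor
  · rintro ⟨q, _, rfl, m, a, rfl, r, _, rfl, rfl, h1, h2⟩
    refine ⟨_, m, r, ?_, rfl⟩
    have h3 : a = r ∩ ZFSet.prod m m := by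
      ext z
      rw [ZFSet.mem_inter]
      constructor
      · intro hz
        obtain ⟨h4, i, j, rfl, hi, hj⟩ := h1 z hz
        exact ⟨h4, ZFSet.pair_mem_prod.2 ⟨hi, hj⟩⟩
      · rintro ⟨h4, h5⟩
        obtain ⟨i, hi, j, hj, rfl⟩ := ZFSet.mem_prod.1 h5
        exact h2 _ h4 ⟨i, j, rfl, hi, hj⟩
    rw [h3]
  · rintro ⟨q, m, r, rfl, rfl⟩
    refine ⟨q, _, rfl, m, _, rfl, r, q, rfl, rfl, fun z hz => ?_, fun z hz h => ?_⟩
    · obtain ⟨h4, h5⟩ := ZFSet.mem_inter.1 hz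
      obtain ⟨i, hi, j, hj, rfl⟩ := ZFSet.mem_prod.1 h5
      exact ⟨h4, i, j, rfl, hi, hj⟩
    · obtain ⟨i, j, rfl, hi, hj⟩ := h
      exact ZFSet.mem_inter.2 ⟨hz, ZFSet.pair_mem_prod.2 ⟨hi, hj⟩⟩

theorem d0_SubO' : D0 fun v : Fin 2 → ZFSet.{0} => SubO (v 0) (v 1) := by
  unfold SubO
  (repeat' first
      | assumption
      | exact D0v.proj _
      | apply D0.not
      | apply D0.or
      | apply D0.and | apply D0.expair | apply D0.pairMem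
      | apply D0.bex | apply D0.ball | apply D0.imp | apply D0.subset
      | apply D0.eq | apply D0.mem | apply D0.isOrdinal)

theorem d0_ClO' : D0 fun v : Fin 3 → ZFSet.{0} => ClO (v 0) (v 1) (v 2) := by
  unfold ClO
  (repeat' first
      | assumption
      | exact D0v.proj _
      | apply D0.not
      | apply D0.or
      | apply D0.and | apply D0.expair | apply D0.pairMem
      | apply D0.bex | apply D0.ball | apply D0.imp | apply D0.subset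
      | apply D0.eq | apply D0.mem | apply D0.isOrdinal)

theorem d0_RsO' : D0 fun v : Fin 3 → ZFSet.{0} => RsO (v 0) (v 1) (v 2) := by
  unfold RsO
  (repeat' first
      | assumption
      | exact D0v.proj _
      | apply D0.not
      | apply D0.or
      | apply D0.and | apply D0.expair | apply D0.pairMem
      | apply D0.bex | apply D0.ball | apply D0.imp | apply D0.subset
      | apply D0.eq | apply D0.mem | apply D0.isOrdinal)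

theorem d0_QO' : D0 fun v : Fin 2 → ZFSet.{0} => QO (v 0) (v 1) := by
  unfold QO SubO
  (repeat' first
      | assumption
      | exact D0v.proj _
      | apply D0.not
      | apply D0.or
      | apply D0.and | apply D0.expair | apply D0.pairMem
      | apply D0.bex | apply D0.ball | apply D0.imp | apply D0.subset
      | apply D0.eq | apply D0.mem | apply D0.isOrdinal)

theorem d0_Hit' : D0 fun v : Fin 2 → ZFSet.{0} => Hit (v 0) (v 1) := by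
  have h : D0 fun v : Fin 2 → ZFSet.{0} => HO (v 0) (v 1) := by
    unfold HO
    (repeat' first
      | assumption
      | exact D0v.proj _
      | apply D0.not
      | apply D0.or
      | apply D0.and | apply D0.expair | apply D0.pairMem
      | apply D0.bex | apply D0.ball | apply D0.imp | apply D0.subset
      | apply D0.eq | apply D0.mem | apply D0.isOrdinal)
  exact h.congr fun v => hO_iff


section

variable (hH : S_HC) (hC : S_HC2)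

include hC

theorem HC2_fun {M : Set ZFSet.{0}} (hM : IsZFC M) {s y f : ZFSet.{0}} (hs : HCt M s)
    (hy : HCt M y) (hf : f ∈ M) (h : ZFSet.IsFunc s y f) : HCt M f := by
  have hZ := hM.toIsZF
  have h1 : DfnF M M fun w : Fin 1 → ZFSet.{0} => pair (w 0) (ap f (w 0)) :=
    hZ.base.pair' (DfnF.proj 0) (hZ.ap' (DfnF.const hf) (DfnF.proj 0))
  have h2 : f = im (fun a => pair a (ap f a)) s := by
    ext p
    rw [mem_im]
    constructor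
    · intro hp
      obtain ⟨a, ha, b, hb, rfl⟩ := ZFSet.mem_prod.1 (h.1 hp)
      exact ⟨a, ha, by rw [ap_func h hp]⟩
    · rintro ⟨a, ha, rfl⟩
      obtain ⟨b, hb, h3⟩ := fun_exists h ha
      rwa [ap_func h h3]
  refine hC.2 M hM f hf (fun p hp => ?_) ?_
  · obtain ⟨a, ha, b, hb, rfl⟩ := ZFSet.mem_prod.1 (h.1 hp)
    exact HC2_pair hC hM (HC2_mem hC hM hs ha) (HC2_mem hC hM hy hb)
  · rw [h2]
    exact Inj.image hZ (HC2_M hC hM hs) hZ.infinity isOrdinal_omega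
      ((hC.1 M hZ).2.2.1 s hs).2.1 h1

theorem sg_Fi : Sg fun M (v : Fin 1 → ZFSet.{0}) => Fi M (v 0) := by
  have h : Sg fun M (v : Fin 1 → ZFSet.{0}) => ∃ n, HCt M n ∧ n ∈ ZFSet.omega ∧
      ∃ f, HCt M f ∧ IsInj (v 0) n f := by
    refine Sg.om hC (P := fun M o v => ∃ n, HCt M n ∧ n ∈ o ∧ ∃ f, HCt M f ∧
      IsInj (v 0) n f) ?_
    refine Sg.ex hC (P := fun M n w => n ∈ w 0 ∧ ∃ f, HCt M f ∧ IsInj (w 1) n f) ?_
    refine Sg.and hC (Sg.of hC (D0.mem (D0v.proj 0) (D0v.proj 1))) ?_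
    refine Sg.ex hC (P := fun _ f w => IsInj (w 2) (w 0) f) ?_
    exact Sg.of hC (D0.comp3 Y588.d0_isInj (D0v.proj 3) (D0v.proj 1) (D0v.proj 0))
  refine h.congr fun M hM v hv => ?_
  constructor
  · rintro ⟨n, hn, h1, f, hf, h2⟩
    exact ⟨n, h1, f, HC2_M hC hM hf, h2⟩
  · rintro ⟨n, h1, f, hf, h2⟩
    have hn := HC2_mem hC hM (HC2_om hC hM) h1
    exact ⟨n, hn, h1, f, HC2_fun hC hM (hv 0) hn hf h2.1, h2⟩

omit hC in
theorem sg_Pc (hW : S_WD) : Sg fun M (v : Fin 1 → ZFSet.{0}) => Pc M (v 0) := by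
  obtain ⟨PD, h1, h2⟩ := hW
  refine ⟨fun b v => PD b (v 0), h1, fun M hM v hv => ?_⟩
  beta_reduce
  rw [h2 M hM]
  exact ⟨fun ⟨b, hb, _, h3⟩ => ⟨b, hb, h3⟩, fun ⟨b, hb, h3⟩ => ⟨b, hb, hv 0, h3⟩⟩

include hH

theorem sg_Cod : Sg fun _ (v : Fin 2 → ZFSet.{0}) => v 0 ⊆ oo ∧ Cod (v 0) (v 1) := by
  have h : Sg fun M (v : Fin 2 → ZFSet.{0}) => SubO ZFSet.omega (v 0) ∧
      ∃ p, HCt M p ∧ ClO ZFSet.omega (v 0) p ∧
        ∃ q ∈ p, ∃ e x, q = pair e x ∧ e = ∅ ∧ x = v 1 := by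
    refine Sg.om hC (P := fun M o v => SubO o (v 0) ∧
      ∃ p, HCt M p ∧ ClO o (v 0) p ∧ ∃ q ∈ p, ∃ e x, q = pair e x ∧ e = ∅ ∧ x = v 1) ?_
    refine Sg.and hC (Sg.of hC (D0.comp2 d0_SubO' (D0v.proj 0) (D0v.proj 1))) ?_
    refine Sg.ex hC (P := fun _ p w => ClO (w 0) (w 1) p ∧
      ∃ q ∈ p, ∃ e x, q = pair e x ∧ e = ∅ ∧ x = w 2) ?_
    refine Sg.of hC ?_
    refine D0.and (D0.comp3 d0_ClO' (D0v.proj 1) (D0v.proj 2) (D0v.proj 0)) ?_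
    apply D0.bex (D0v.proj 0)
    apply D0.expair (D0v.proj 0)
    exact D0.and (D0.isEmpty (D0v.proj 1)) (D0.eq (D0v.proj 0) (D0v.proj 6))
  refine h.congr fun M hM v hv => ?_
  rw [subO_iff]
  refine and_congr_right fun h1 => ?_
  constructor
  · rintro ⟨p, -, h2, _, hq, _, _, rfl, rfl, rfl⟩
    exact ⟨p, clO_iff.1 h2, hq⟩
  · rintro ⟨p, h2, h3⟩
    exact ⟨p, (hH M hM.toIsZF).2.2.1 _ (HC2_M hC hM (hv 0)) h1 p h2, clO_iff.2 h2, _, h3, _, _,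
      rfl, rfl, rfl⟩

/-- The last clause of `Cd`. -/
def InC (M : Set ZFSet.{0}) (r q c : ZFSet.{0}) : Prop :=
  ∃ w ∈ c, ∃ j X, w = pair j X ∧ q ∈ X ∧ ∃ y, HCt M y ∧ RsO y c j ∧ r ⊆ oo ∧ Cod r y

theorem sg_InC : Sg fun M (v : Fin 3 → ZFSet.{0}) => InC M (v 0) (v 1) (v 2) := by
  unfold InC
  refine Sg.bex hC (P := fun M w v => ∃ j X, w = pair j X ∧ v 1 ∈ X ∧ ∃ y, HCt M y ∧
    RsO y (v 2) j ∧ v 0 ⊆ oo ∧ Cod (v 0) y) (D0v.proj 2) ?_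
  refine Sg.expair hC (P := fun M j X w => w 2 ∈ X ∧ ∃ y, HCt M y ∧
    RsO y (w 3) j ∧ w 1 ⊆ oo ∧ Cod (w 1) y) (D0v.proj 0) ?_
  refine Sg.and hC (Sg.of hC (D0.mem (D0v.proj 4) (D0v.proj 0))) ?_
  refine Sg.ex hC (P := fun _ y w => RsO y (w 5) (w 1) ∧ w 3 ⊆ oo ∧ Cod (w 3) y) ?_
  refine Sg.and hC (Sg.of hC (D0.comp3 d0_RsO' (D0v.proj 0) (D0v.proj 6) (D0v.proj 2))) ?_
  exact Sg.comp2 (R := fun _ a b => a ⊆ oo ∧ Cod a b) (sg_Cod hH hC) (D0v.proj 4) (D0v.proj 0)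

theorem sg_Cd (hW : S_WD) (hP : S_PC) :
    Sg fun M (v : Fin 3 → ZFSet.{0}) => Cd M (v 0) (v 1) (v 2) := by
  have h : Sg fun M (v : Fin 3 → ZFSet.{0}) => Pc M (v 0) ∧ Fi M (v 1) ∧ Fi M (v 2) ∧
      (∀ u ∈ v 1, QO ZFSet.omega u) ∧ ∀ w ∈ v 2, ∃ r q, w = pair r q ∧
        (∃ i j, q = pair i j ∧ i ∈ ZFSet.omega ∧ j ∈ ZFSet.omega) ∧ InC M r q (v 0) := by
    refine Sg.and hC (Sg.comp1 (sg_Pc hW) (D0v.proj 0)) ?_
    refine Sg.and hC (Sg.comp1 (sg_Fi hC) (D0v.proj 1)) ?_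
    refine Sg.and hC (Sg.comp1 (sg_Fi hC) (D0v.proj 2)) ?_
    refine Sg.and hC ?_ ?_
    · refine Sg.om hC (P := fun _ o v => ∀ u ∈ v 1, QO o u) ?_
      refine Sg.of hC ?_
      apply D0.ball (D0v.proj 2)
      exact D0.comp2 d0_QO' (D0v.proj 1) (D0v.proj 0)
    · refine Sg.ball hH hC (P := fun M w v => ∃ r q, w = pair r q ∧
        (∃ i j, q = pair i j ∧ i ∈ ZFSet.omega ∧ j ∈ ZFSet.omega) ∧ InC M r q (v 0))
        (D0v.proj 2) ?_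
      refine Sg.expair hC (P := fun M r q w =>
        (∃ i j, q = pair i j ∧ i ∈ ZFSet.omega ∧ j ∈ ZFSet.omega) ∧ InC M r q (w 1))
        (D0v.proj 0) ?_
      refine Sg.and hC ?_ ?_
      · refine Sg.om hC (P := fun _ o w => ∃ i j, w 0 = pair i j ∧ i ∈ o ∧ j ∈ o) ?_
        refine Sg.of hC ?_
        apply D0.expair (D0v.proj 1)
        exact D0.and (D0.mem (D0v.proj 1) (D0v.proj 2)) (D0.mem (D0v.proj 0) (D0v.proj 2))
      · exact Sg.comp3 (sg_InC hH hC) (D0v.proj 1) (D0v.proj 0) (D0v.proj 3)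
  refine h.congr fun M hM v hv => ?_
  have hZ := hM.toIsZF
  refine and_congr_right fun hc => and_congr_right fun _ => and_congr_right fun _ =>
    and_congr (forall₂_congr fun u _ => qO_iff) (forall₂_congr fun w hw => ?_)
  have hf := ((hP M hZ).2.2.1 _ hc).2.2
  constructor
  · rintro ⟨r, q, rfl, ⟨i, k, rfl, hi, hk⟩, _, hw', j, X, rfl, hq, y, hy, h1, h2, h3⟩
    have hr : r ∈ M := (hZ.of_pair_mem (HC2_M hC hM (HC2_mem hC hM (hv 2) hw))).1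
    refine ⟨r, ?_, _, ZFSet.pair_mem_prod.2 ⟨hi, hk⟩, rfl, j, mem_im.2 ⟨_, hw', by rw [fs_pair]⟩,
      ?_, X, hw', hq⟩
    · exact ZFSet.mem_sep.2 ⟨ZFSet.mem_powerset.2 h2, hr⟩
    · rwa [(rsO_iff hf.1).1 h1] at h3
  · rintro ⟨r, hr, q, hq, rfl, j, hj, h3, X, hX, h4⟩
    obtain ⟨i, hi, k, hk, rfl⟩ := ZFSet.mem_prod.1 hq
    obtain ⟨hr1, hr2⟩ := ZFSet.mem_sep.1 hr
    have hr3 := ZFSet.mem_powerset.1 hr1
    exact ⟨r, _, rfl, ⟨i, k, rfl, hi, hk⟩, _, hX, j, X, rfl, h4, _,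
      (hH M hZ).2.2.2.1 r hr2 hr3 _ h3, (rsO_iff hf.1).2 rfl, hr3, h3⟩

/-- The set `r` codes the condition `(c, (s, F))`. -/
def Cq (M : Set ZFSet.{0}) (r c s F : ZFSet.{0}) : Prop :=
  (r ⊆ oo ∧ Cod r (pair c (pair s F))) ∧ Cd M c s F

theorem sg_Cq (hW : S_WD) (hP : S_PC) :
    Sg fun M (v : Fin 4 → ZFSet.{0}) => Cq M (v 0) (v 1) (v 2) (v 3) := by
  have h : Sg fun M (v : Fin 4 → ZFSet.{0}) => (∃ a, HCt M a ∧
      (∃ x y, a = pair x y ∧ x = v 1 ∧ y = pair (v 2) (v 3)) ∧ v 0 ⊆ oo ∧ Cod (v 0) a) ∧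
      Cd M (v 1) (v 2) (v 3) := by
    refine Sg.and hC ?_ (Sg.comp3 (sg_Cd hH hC hW hP) (D0v.proj 1) (D0v.proj 2) (D0v.proj 3))
    refine Sg.ex hC (P := fun _ a v => (∃ x y, a = pair x y ∧ x = v 1 ∧
      y = pair (v 2) (v 3)) ∧ v 0 ⊆ oo ∧ Cod (v 0) a) ?_
    refine Sg.and hC (Sg.of hC ?_) ?_
    · apply D0.expair (D0v.proj 0)
      exact D0.and (D0.eq (D0v.proj 1) (D0v.proj 4))
        (D0.isPair (D0v.proj 0) (D0v.proj 5) (D0v.proj 6))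
    · exact Sg.comp2 (R := fun _ a b => a ⊆ oo ∧ Cod a b) (sg_Cod hH hC) (D0v.proj 1)
        (D0v.proj 0)
  refine h.congr fun M hM v hv => and_congr_left fun _ => ?_
  constructor
  · rintro ⟨_, -, ⟨_, _, rfl, rfl, rfl⟩, h1⟩
    exact h1
  · intro h1
    exact ⟨_, HC2_pair hC hM (hv 1) (HC2_pair hC hM (hv 2) (hv 3)), ⟨_, _, rfl, rfl, rfl⟩, h1⟩

theorem sg_one (hW : S_WD) (hP : S_PC) :
    Sg fun M (v : Fin 1 → ZFSet.{0}) => ∃ c, HCt M c ∧ ∃ s, HCt M s ∧ ∃ F, HCt M F ∧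
      Cq M (v 0) c s F := by
  refine Sg.ex hC (P := fun M c v => ∃ s, HCt M s ∧ ∃ F, HCt M F ∧ Cq M (v 0) c s F) ?_
  refine Sg.ex hC (P := fun M s w => ∃ F, HCt M F ∧ Cq M (w 1) (w 0) s F) ?_
  refine Sg.ex hC (P := fun M F w => Cq M (w 2) (w 1) (w 0) F) ?_
  exact (sg_Cq hH hC hW hP).comp ![3, 2, 1, 0]

theorem sg_two (hW : S_WD) (hP : S_PC)
    {K : ZFSet.{0} → ZFSet.{0} → ZFSet.{0} → ZFSet.{0} → ZFSet.{0} → ZFSet.{0} → Prop}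
    (hK : D0 fun v : Fin 6 → ZFSet.{0} => K (v 0) (v 1) (v 2) (v 3) (v 4) (v 5)) :
    Sg fun M (v : Fin 2 → ZFSet.{0}) => ∃ c, HCt M c ∧ ∃ s, HCt M s ∧ ∃ F, HCt M F ∧
      ∃ c', HCt M c' ∧ ∃ s', HCt M s' ∧ ∃ F', HCt M F' ∧
      Cq M (v 0) c s F ∧ Cq M (v 1) c' s' F' ∧ K c s F c' s' F' := by
  refine Sg.ex hC (P := fun M c v => ∃ s, HCt M s ∧ ∃ F, HCt M F ∧
      ∃ c', HCt M c' ∧ ∃ s', HCt M s' ∧ ∃ F', HCt M F' ∧
      Cq M (v 0) c s F ∧ Cq M (v 1) c' s' F' ∧ K c s F c' s' F') ?_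
  refine Sg.ex hC (P := fun M s w => ∃ F, HCt M F ∧
      ∃ c', HCt M c' ∧ ∃ s', HCt M s' ∧ ∃ F', HCt M F' ∧
      Cq M (w 1) (w 0) s F ∧ Cq M (w 2) c' s' F' ∧ K (w 0) s F c' s' F') ?_
  refine Sg.ex hC (P := fun M F w =>
      ∃ c', HCt M c' ∧ ∃ s', HCt M s' ∧ ∃ F', HCt M F' ∧
      Cq M (w 2) (w 1) (w 0) F ∧ Cq M (w 3) c' s' F' ∧ K (w 1) (w 0) F c' s' F') ?_
  refine Sg.ex hC (P := fun M c' w => ∃ s', HCt M s' ∧ ∃ F', HCt M F' ∧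
      Cq M (w 3) (w 2) (w 1) (w 0) ∧ Cq M (w 4) c' s' F' ∧ K (w 2) (w 1) (w 0) c' s' F') ?_
  refine Sg.ex hC (P := fun M s' w => ∃ F', HCt M F' ∧
      Cq M (w 4) (w 3) (w 2) (w 1) ∧ Cq M (w 5) (w 0) s' F' ∧ K (w 3) (w 2) (w 1) (w 0) s' F') ?_
  refine Sg.ex hC (P := fun M F' w =>
      Cq M (w 5) (w 4) (w 3) (w 2) ∧ Cq M (w 6) (w 1) (w 0) F' ∧
        K (w 4) (w 3) (w 2) (w 1) (w 0) F') ?_
  refine Sg.and hC ((sg_Cq hH hC hW hP).comp ![6, 5, 4, 3]) ?_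
  refine Sg.and hC ((sg_Cq hH hC hW hP).comp ![7, 2, 1, 0]) ?_
  exact Sg.of hC (hK.comp ![5, 4, 3, 2, 1, 0])

omit hH in
theorem sg_Tr (hR : S_RW) (hD : S_D1) {k : ℕ} {R : Set ZFSet.{0} → (Fin k → ZFSet.{0}) → Prop}
    (h : Sg R) : ∃ φ : Fm k 0, Cls true 2 φ ∧ ∀ M, IsZFC M → ∀ x : Fin k → Reals M,
      (R M (fun i => rw' (x i).1) ↔ Tr (Reals M) φ x) := by
  obtain ⟨Q, h1, h2⟩ := h
  obtain ⟨φ, h3, h4⟩ := hD k Q h1
  refine ⟨φ, h3, fun M hM x => ?_⟩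
  rw [← h4 M hM, h2 M hM]
  intro i
  obtain ⟨h5, h6⟩ := ZFSet.mem_sep.1 ((hR M hM.toIsZF).1 _ (x i).2)
  exact HC2_sub hC hM (hC.1 M hM.toIsZF).2.2.2.2 h6 (ZFSet.mem_powerset.1 h5)

end

theorem d0_Stronger : D0 fun v : Fin 6 → ZFSet.{0} =>
    Stronger (v 3) (v 4) (v 5) (v 0) (v 1) (v 2) := by
  unfold Stronger
  refine D0.and (D0.subset (D0v.proj _) (D0v.proj _)) ?_
  refine D0.and (D0.subset (D0v.proj _) (D0v.proj _)) ?_
  refine D0.and (D0.subset (D0v.proj _) (D0v.proj _)) ?_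
  apply D0.ball (D0v.proj 1)
  apply D0.imp (D0.not (D0.mem (D0v.proj 0) (D0v.proj 5)))
  apply D0.ball (D0v.proj 6)
  exact D0.not (D0.comp2 d0_Hit' (D0v.proj 1) (D0v.proj 0))

/-- The bounded form of compatibility. -/
def Cpt (c s F c' s' F' : ZFSet.{0}) : Prop :=
  (c ⊆ c' ∨ c' ⊆ c) ∧ (∀ u ∈ s', u ∉ s → ∀ v ∈ F, ¬ Hit u v) ∧
    ∀ u ∈ s, u ∉ s' → ∀ v ∈ F', ¬ Hit u v

theorem d0_Cpt : D0 fun v : Fin 6 → ZFSet.{0} =>
    Cpt (v 0) (v 1) (v 2) (v 3) (v 4) (v 5) := by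
  unfold Cpt
  refine D0.and (D0.or (D0.subset (D0v.proj _) (D0v.proj _))
    (D0.subset (D0v.proj _) (D0v.proj _))) (D0.and ?_ ?_)
  · apply D0.ball (D0v.proj 4)
    apply D0.imp (D0.not (D0.mem (D0v.proj 0) (D0v.proj 2)))
    apply D0.ball (D0v.proj 3)
    exact D0.not (D0.comp2 d0_Hit' (D0v.proj 1) (D0v.proj 0))
  · apply D0.ball (D0v.proj 1)
    apply D0.imp (D0.not (D0.mem (D0v.proj 0) (D0v.proj 5)))
    apply D0.ball (D0v.proj 6)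
    exact D0.not (D0.comp2 d0_Hit' (D0v.proj 1) (D0v.proj 0))

theorem rw'_sub {z : ℕ → ℕ} : rw' z ⊆ oo := fun _ h => (ZFSet.mem_sep.1 h).1

/-- The forcing `P` is `Σ^1_2`. -/
theorem c2 (hH : S_HC) (hC : S_HC2) (hR : S_RW) (hW : S_WD) (hP : S_PC) (h1 : S_C1)
    (hCP : S_CP) (hD : S_D1) : S_C2 := by
  intro V hV
  have hZ := hV.zfc
  obtain ⟨hf, hc1, hc2, hc3⟩ := h1 V hV
  have hz : ∀ (x : Reals V) (c s F : ZFSet.{0}), Cz V x.1 c s F ↔ Cq V (rw' x.1) c s F := by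
    intro x c s F
    exact ⟨fun h => ⟨⟨rw'_sub, h.2.1⟩, h.2.2⟩, fun h => ⟨x.2, h.1.2, h.2⟩⟩
  have hh : ∀ c s F : ZFSet.{0}, Cd V c s F → HCt V c ∧ HCt V s ∧ HCt V F := by
    intro c s F h
    have h2 := HC2_of_pair hC hZ (hc1 c s F h).1
    have h3 := HC2_of_pair hC hZ h2.2
    exact ⟨h2.1, h3.1, h3.2⟩
  have htwo : ∀ {K : ZFSet.{0} → ZFSet.{0} → ZFSet.{0} → ZFSet.{0} → ZFSet.{0} → ZFSet.{0} →
      Prop} (x y : Reals V), (∃ c s F c' s' F', Cz V x.1 c s F ∧ Cz V y.1 c' s' F' ∧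
        K c s F c' s' F') ↔ ∃ c, HCt V c ∧ ∃ s, HCt V s ∧ ∃ F, HCt V F ∧
      ∃ c', HCt V c' ∧ ∃ s', HCt V s' ∧ ∃ F', HCt V F' ∧
      Cq V (rw' x.1) c s F ∧ Cq V (rw' y.1) c' s' F' ∧ K c s F c' s' F' := by
    intro K x y
    constructor
    · rintro ⟨c, s, F, c', s', F', h2, h3, h4⟩
      obtain ⟨a1, a2, a3⟩ := hh c s F h2.2.2
      obtain ⟨b1, b2, b3⟩ := hh c' s' F' h3.2.2
      exact ⟨c, a1, s, a2, F, a3, c', b1, s', b2, F', b3, (hz x _ _ _).1 h2,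
        (hz y _ _ _).1 h3, h4⟩
    · rintro ⟨c, -, s, -, F, -, c', -, s', -, F', -, h2, h3, h4⟩
      exact ⟨c, s, F, c', s', F', (hz x _ _ _).2 h2, (hz y _ _ _).2 h3, h4⟩
  refine ⟨?_, ?_, ?_, ?_⟩
  · intro p hp
    obtain ⟨-, z, c, s, F, rfl, h⟩ := ZFSet.mem_sep.1 hp
    exact ⟨z, h.1, rfl⟩
  · obtain ⟨φ, h2, h3⟩ := sg_Tr hC hR hD (sg_one hH hC hW hP)
    refine ⟨φ, h2, fun x => ?_⟩
    rw [← h3 V hZ ![x], hc2 x.1 x.2]
    constructor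
    · rintro ⟨c, s, F, h4⟩
      obtain ⟨a1, a2, a3⟩ := hh c s F h4.2.2
      exact ⟨c, a1, s, a2, F, a3, (hz x _ _ _).1 h4⟩
    · rintro ⟨c, -, s, -, F, -, h4⟩
      exact ⟨c, s, F, (hz x _ _ _).2 h4⟩
  · obtain ⟨φ, h2, h3⟩ := sg_Tr hC hR hD (sg_two hH hC hW hP
      (K := fun c' s' F' c s F => Stronger c s F c' s' F') d0_Stronger)
    refine ⟨φ, h2, fun x y => ?_⟩
    rw [← h3 V hZ ![x, y]]
    refine Iff.trans ?_ (htwo (K := fun c' s' F' c s F => Stronger c s F c' s' F') x y)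
    constructor
    · rintro ⟨hx, hy, h4⟩
      obtain ⟨c', s', F', h5⟩ := (hc2 x.1 x.2).1 hx
      obtain ⟨c, s, F, h6⟩ := (hc2 y.1 y.2).1 hy
      exact ⟨c', s', F', c, s, F, h5, h6, (hc3 _ _ _ _ _ _ _ _ h6 h5).1 h4⟩
    · rintro ⟨c', s', F', c, s, F, h5, h6, h7⟩
      exact ⟨(hc2 x.1 x.2).2 ⟨_, _, _, h5⟩, (hc2 y.1 y.2).2 ⟨_, _, _, h6⟩,
        (hc3 _ _ _ _ _ _ _ _ h6 h5).2 h7⟩
  · obtain ⟨φ, h2, h3⟩ := sg_Tr hC hR hD (sg_two hH hC hW hP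
      (K := fun c s F c' s' F' => ¬ Cpt c s F c' s' F') d0_Cpt.not)
    refine ⟨φ, h2, fun x y => ?_⟩
    rw [← h3 V hZ ![x, y]]
    refine Iff.trans ?_ (htwo (K := fun c s F c' s' F' => ¬ Cpt c s F c' s' F') x y)
    constructor
    · rintro ⟨hx, hy, h4⟩
      obtain ⟨c, s, F, h5⟩ := (hc2 x.1 x.2).1 hx
      obtain ⟨c', s', F', h6⟩ := (hc2 y.1 y.2).1 hy
      refine ⟨c, s, F, c', s', F', h5, h6, fun h7 => h4 ?_⟩
      obtain ⟨c'', s'', F'', h8, h9, h10⟩ := (hCP V hV c s F c' s' F' h5.2.2 h6.2.2).2 h7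
      obtain ⟨z, hz'⟩ := (hc1 _ _ _ h8).2
      exact ⟨rl z, (hc2 z hz'.1).2 ⟨_, _, _, hz'⟩, (hc3 _ _ _ _ _ _ _ _ h5 hz').2 h9,
        (hc3 _ _ _ _ _ _ _ _ h6 hz').2 h10⟩
    · rintro ⟨c, s, F, c', s', F', h5, h6, h7⟩
      refine ⟨(hc2 x.1 x.2).2 ⟨_, _, _, h5⟩, (hc2 y.1 y.2).2 ⟨_, _, _, h6⟩, ?_⟩
      rintro ⟨r, hr, h8, h9⟩
      obtain ⟨-, z, c'', s'', F'', rfl, h10⟩ := ZFSet.mem_sep.1 hr
      exact h7 ((hCP V hV c s F c' s' F' h5.2.2 h6.2.2).1 ⟨c'', s'', F'', h10.2.2,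
        (hc3 _ _ _ _ _ _ _ _ h5 h10).1 h8, (hc3 _ _ _ _ _ _ _ _ h6 h10).1 h9⟩)

end Pool.Agent.H637_NO
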