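import Pool.Agent.H637_NO.C3c

/-!
# New orbits: the forcing is proper
-/

set_option autoImplicit false
set_option linter.unreachableTactic false
set_option linter.unusedTactic false

namespace Pool.Agent.H637_NO

open Pool.Agent.W868 Pool.Agent.W868.GM Pool.Agent.Y588 Pool.Agent.R597
open ZFSet (pair)

theorem T0b_mem' {V : Set ZFSet.{0}} (hM : IsZF V) : T0b ∈ V := by
  have hB := hM.base
  refine hM.union_mem hM.infinity (hM.union_mem ?_ (oo_mem hM))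
  refine hM.im_mem (oo_mem hM) ?_
  exact hB.upair' (hM.fs' (DfnF.proj 0)) (hM.sn' (DfnF.proj 0))

theorem SB_mem' {V : Set ZFSet.{0}} (hM : IsZF V) {H : ZFSet.{0}} (hH : H ∈ V) : SB H ∈ V :=
  hM.union_mem (T0b_mem' hM) (hM.insert_mem hH hH)

theorem Cd.mono {V : Set ZFSet.{0}} {c c' s F : ZFSet.{0}} (h : Cd V c s F) (hc' : Pc V c')
    (hcc : c ⊆ c') : Cd V c' s F := by
  obtain ⟨h1, h2, h3, h4, h5⟩ := h
  refine ⟨hc', h2, h3, h4, fun v hv => ?_⟩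
  obtain ⟨r, hr, q, hq, rfl, j, hj, h6, X, h7, h8⟩ := h5 v hv
  refine ⟨r, hr, q, hq, rfl, j, pc_ln_mono hcc hj, ?_, X, hcc h7, h8⟩
  have h9 : rs c' j = rs c j := by
    have h10 := (pc_rs_eq h1 hc' hcc).2
    rw [← h10, pc_rs_rs ((pc_ord h1).isTransitive _ hj)]
  rw [h9]
  exact h6

theorem rl_inj {x y : ℕ → ℕ} (h : rl x = rl y) : x = y := by
  funext n
  have h1 : pair (nat n) (nat (x n)) ∈ rl x := ZFSet.mem_range.2 ⟨n, rfl⟩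
  rw [h] at h1
  obtain ⟨m, hm⟩ := ZFSet.mem_range.1 h1
  obtain ⟨h2, h3⟩ := ZFSet.pair_inj.1 hm
  have h4 : m = n := nat_injective h2
  subst h4
  exact (nat_injective h3).symm

section

variable {N H : ZFSet.{0}} (h : Elem N H) (hT : Tra H)

include h hT

theorem Elem.succ {S z : ZFSet.{0}} (hS : S ∈ N) (hz : z ∈ N) (hx : sc z ∈ S) : sc z ∈ N := by
  have hR : D0 fun v : Fin 3 → ZFSet.{0} => v 0 ∈ v 1 ∧ (∀ z ∈ v 0, z ∈ v 2 ∨ z = v 2) ∧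
      v 2 ∈ v 0 ∧ v 2 ⊆ v 0 := by
    (repeat' first
      | exact D0v.proj _
      | apply D0.and | apply D0.or | apply D0.ball | apply D0.subset | apply D0.eq | apply D0.mem)
  obtain ⟨c, hc, -, h4, h5, h6⟩ := h.wit hT hR (v := ![S, z]) (by
    intro i
    fin_cases i
    exacts [hS, hz]) (a := sc z) (h.trH hT hS hx)
      ⟨hx, fun y hy => (ZFSet.mem_insert_iff.1 hy).symm, ZFSet.mem_insert _ _,
        fun y hy => ZFSet.mem_insert_of_mem _ hy⟩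
  have h7 : c = sc z := by
    ext y
    constructor
    · intro hy
      rcases h4 y hy with h8 | h8
      · exact ZFSet.mem_insert_of_mem _ h8
      · have h9 : y = z := h8
        rw [h9]
        exact ZFSet.mem_insert _ _
    · intro hy
      rcases ZFSet.mem_insert_iff.1 hy with h8 | h8
      · rw [h8]
        exact h5
      · exact h6 h8
  exact h7 ▸ hc

theorem Elem.ln {S c : ZFSet.{0}} (hS : S ∈ N) (hc : c ∈ N) (hx : ln c ∈ S) (hp : pc_IsPs c) :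
    ln c ∈ N := by
  have hR : D0 fun v : Fin 3 → ZFSet.{0} => v 0 ∈ v 1 ∧
      (∀ j ∈ v 0, ∃ p ∈ v 2, ∃ x y, p = pair x y ∧ x = j) ∧
      ∀ p ∈ v 2, ∃ x y, p = pair x y ∧ x ∈ v 0 := by
    (repeat' first
      | exact D0v.proj _
      | apply D0.and | apply D0.or | apply D0.ball | apply D0.bex | apply D0.expair
      | apply D0.eq | apply D0.mem)
  obtain ⟨a, ha, -, h4, h5⟩ := h.wit hT hR (v := ![S, c]) (by
    intro i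
    fin_cases i
    exacts [hS, hc]) (a := Pool.Agent.H637_NO.ln c) (h.trH hT hS hx)
      ⟨hx, fun j hj => by
        obtain ⟨r, hr⟩ := (pc_mem_ln hp).1 hj
        exact ⟨_, hr, j, r, rfl, rfl⟩, fun p hpc => by
        obtain ⟨x, y, rfl⟩ := hp p hpc
        exact ⟨x, y, rfl, (pc_mem_ln hp).2 ⟨y, hpc⟩⟩⟩
  have h7 : a = Pool.Agent.H637_NO.ln c := by
    ext j
    rw [pc_mem_ln hp]
    constructor
    · intro hj
      obtain ⟨p, hpc, x, y, rfl, rfl⟩ := h4 j hj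
      exact ⟨y, hpc⟩
    · rintro ⟨r, hr⟩
      obtain ⟨x, y, h8, h9⟩ := h5 _ hr
      obtain ⟨rfl, rfl⟩ := ZFSet.pair_inj.1 h8
      exact h9
  exact h7 ▸ ha

theorem Elem.task {Tk D s r ζ : ZFSet.{0}} (hTk : Tk ∈ N) (hD : D ∈ N) (hs : s ∈ N)
    (hr : r ∈ N) (hζ : ζ ∈ N) (hx : pair D (pair s (pair r ζ)) ∈ Tk) :
    pair D (pair s (pair r ζ)) ∈ N := by
  have hR : D0 fun v : Fin 6 → ZFSet.{0} => v 0 ∈ v 1 ∧ ∃ c d, v 0 = pair c d ∧ c = v 2 ∧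
      ∃ c' d', d = pair c' d' ∧ c' = v 3 ∧ d' = pair (v 4) (v 5) := by
    (repeat' first
      | exact D0v.proj _
      | apply D0.and | apply D0.expair | apply D0.isPair
      | apply D0.eq | apply D0.mem)
  obtain ⟨a, ha, -, c, d, h4, h5, c', d', h6, h7, h8⟩ := h.wit hT hR
    (v := ![Tk, D, s, r, ζ]) (by
    intro i
    fin_cases i
    exacts [hTk, hD, hs, hr, hζ]) (a := pair D (pair s (pair r ζ))) (h.trH hT hTk hx)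
      ⟨hx, _, _, rfl, rfl, _, _, rfl, rfl, rfl⟩
  have h9 : c = D := h5
  have h10 : c' = s := h7
  have h11 : d' = pair r ζ := h8
  have h12 : a = pair c d := h4
  rw [h12, h6, h9, h10, h11] at ha
  exact ha

theorem Elem.inD {Dc D c s : ZFSet.{0}} (hDc : Dc ∈ N) (hD : D ∈ N) (hc : c ∈ N) (hs : s ∈ N)
    (hx : InD Dc D c s) : ∃ p' ∈ N, ∃ F, p' ∈ D ∧ pair p' (pair c (pair s F)) ∈ Dc := by
  have hR : D0 fun v : Fin 5 → ZFSet.{0} => v 0 ∈ v 2 ∧ ∃ q ∈ v 1, ∃ x y, q = pair x y ∧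
      x = v 0 ∧ ∃ x' y', y = pair x' y' ∧ x' = v 3 ∧ ∃ x'' y'', y' = pair x'' y'' ∧ x'' = v 4 := by
    (repeat' first
      | exact D0v.proj _
      | apply D0.and | apply D0.expair | apply D0.isPair | apply D0.bex
      | apply D0.eq | apply D0.mem)
  obtain ⟨p', F, h1, h2⟩ := hx
  obtain ⟨a, ha, h3, q, hq, x, y, h4, h5, x', y', h6, h7, x'', y'', h8, h9⟩ := h.wit hT hR
    (v := ![Dc, D, c, s]) (by
    intro i
    fin_cases i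
    exacts [hDc, hD, hc, hs]) (a := p') (h.trH hT hD h1)
      ⟨h1, _, h2, _, _, rfl, rfl, _, _, rfl, rfl, _, _, rfl, rfl⟩
  refine ⟨a, ha, y'', h3, ?_⟩
  have h10 : x = a := h5
  have h11 : x' = c := h7
  have h12 : x'' = s := h9
  rw [h4, h10, h6, h11, h8, h12] at hq
  exact hq

end

/-- The main step. -/
theorem proper_main {V : Set ZFSet.{0}} (hG : GoodV V) (hC : S_HC) (hC2 : S_HC2)
    (hF : S_FUS) (h1 : S_C1) (hCP : S_CP)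
    {o B p₀ Dc Tk E Ch Cl Bi J Q QF PP : ZFSet.{0}} (hP : Par V o B p₀ Dc Tk E Ch Cl Bi J Q QF PP)
    (hoV : o ∈ V) (hpV : p₀ ∈ V) (hTkV : Tk ∈ V) (hEV : E ∈ V)
    {N H : ZFSet.{0}} (hH : Tra H) (hE : Elem N H) (hNV : N ∈ V)
    (hNc : Inj V N ZFSet.omega) (hω : ZFSet.omega ∈ N) (ho : o ∈ N) (hB : B ∈ N)
    (hDc : Dc ∈ N) (hTk : Tk ∈ N) (hCh : Ch ∈ N) (hCl : Cl ∈ N) (hBi : Bi ∈ N)
    (hJ : J ∈ N) (hQ : Q ∈ N) (hQF : QF ∈ N) (hPN : Pf V ∈ N) :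
    ∀ p ∈ Pf V, p ∈ N → ∃ q ∈ Pf V, pair q p ∈ Lf V ∧ NGeneric (Pf V) (Lf V) N q := by
  have hV := hG.zfc
  have hM := hV.toIsZF
  have hfor := (h1 V hG).1
  -- countable elements are subsets
  have hsubN : ∀ z ∈ insert QF (insert Q o), z ∈ N → ∀ u ∈ z, u ∈ N := by
    intro z hz hzN u hu
    obtain ⟨f, hf, hf'⟩ := hP.hJ z hz
    exact hE.sub hH hω (hE.app hH hJ hzN hf.1 hf.2) hf' hu
  have hoN : ∀ ζ ∈ o, ζ ∈ N → ∀ u ∈ ζ, u ∈ N := fun ζ hζ =>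
    hsubN ζ (ZFSet.mem_insert_of_mem _ (ZFSet.mem_insert_of_mem _ hζ))
  have hQFN : ∀ s ∈ QF, s ∈ N := hsubN QF (ZFSet.mem_insert _ _) hQF
  have hot : ∀ z ∈ o, ∀ y ∈ z, y ∈ o := by
    intro z hz y hy
    obtain ⟨h2, h3⟩ := (hP.ho z).1 hz
    exact (hP.ho y).2 ⟨((hC2.1 V hM).2.2.1 z h2).2.2 y hy, h3.mem hy⟩
  have hNsub : ∀ S : ZFSet.{0}, S ∈ V → ZFSet.sep (fun x => x ∈ N) S ∈ V ∧
      Inj V (ZFSet.sep (fun x => x ∈ N) S) ZFSet.omega := by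
    intro S hS
    have h2 : ZFSet.sep (fun x => x ∈ N) S ∈ V :=
      hM.sep_mem (Dfn.mem (DfnF.proj 0) (DfnF.const hNV)) hS
    refine ⟨h2, ?_⟩
    exact Inj.trans hM h2 hM.infinity (Inj.of_subset hM h2 hNV fun x hx =>
      (ZFSet.mem_sep.1 hx).2) hNc
  obtain ⟨δ, hδ⟩ : ∃ δ, δ = ZFSet.sep (fun x => x ∈ N) o := ⟨_, rfl⟩
  have hmδ : ∀ z, z ∈ δ ↔ z ∈ o ∧ z ∈ N := by
    intro z
    rw [hδ, ZFSet.mem_sep]
  have hδV : δ ∈ V := by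
    rw [hδ]
    exact (hNsub o hoV).1
  have hδi : Inj V δ ZFSet.omega := by
    rw [hδ]
    exact (hNsub o hoV).2
  have hδo : δ.IsOrdinal := by
    refine ⟨?_, ?_⟩
    · intro x hx y hy
      have hx' := (hmδ x).1 hx
      exact (hmδ y).2 ⟨hot x hx'.1 y hy, hoN x hx'.1 hx'.2 y hy⟩
    · intro x y z hx hy hz
      exact ((hP.ho z).1 ((hmδ z).1 hz).1).2.mem_trans hx hy
  have hδh : HCt V δ := hC2.2 V hV δ hδV (fun y hy => ((hP.ho y).1 ((hmδ y).1 hy).1).1) hδi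
  have hδmo : δ ∈ o := (hP.ho δ).2 ⟨hδh, hδo⟩
  have h0N : (∅ : ZFSet.{0}) ∈ N := hE.omega hH hω ZFSet.omega_zero
  have h0o : (∅ : ZFSet.{0}) ∈ o := (hP.ho ∅).2 ⟨pc_hct_empty hM, ZFSet.isOrdinal_empty⟩
  have h0δ : (∅ : ZFSet.{0}) ∈ δ := (hmδ _).2 ⟨h0o, h0N⟩
  have hlim : Lim δ := by
    refine ⟨hδo, fun h2 => ?_, fun ζ hζ => ?_⟩
    · rw [h2] at h0δ
      exact ZFSet.notMem_empty _ h0δ
    · have hζ' := (hmδ ζ).1 hζ
      have h2 := (hP.ho ζ).1 hζ'.1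
      have h3 : sc ζ ∈ o := (hP.ho _).2 ⟨((hC2.1 V hM).1 ζ ζ h2.1 h2.1).2.2.1, isOrdinal_sc h2.2⟩
      exact (hmδ _).2 ⟨h3, hE.succ hH ho hζ'.2 h3⟩
  -- the restriction of `B`
  have hb := hP.Bp δ hδmo
  have hBps : pc_IsPs B := pc_isPs_of_func hP.Bf
  have hlnb : ln (rs B δ) = δ := pc_ln_eq (pc_func_rs hP.Bf fun x hx => ((hmδ x).1 hx).1)
  obtain ⟨η, G, ζ₀, hηh, hηo, hGL, hGF, hζ₀, hii, hiii, hiv⟩ :=
    pc_lim hb δ (by rw [hlnb]; exact ZFSet.mem_insert _ _) hlim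
  obtain ⟨H', hH'⟩ : ∃ H', H' = rg (rs B δ) δ := ⟨_, rfl⟩
  rw [← hH'] at hGL hiii
  have hmH : ∀ r, r ∈ H' ↔ r ∈ PW V ∧ r ∈ N := by
    intro r
    rw [hH', pc_mem_rg (pc_isPs hb)]
    constructor
    · rintro ⟨j, hj, hjr⟩
      have h2 := (pc_pair_mem_rs.1 hjr).1
      have h3 := (hmδ j).1 hj
      exact ⟨(ZFSet.pair_mem_prod.1 (hP.Bf.1 h2)).2, hE.app hH hB h3.2 h2 fun y' hy' =>
        fun_unique hP.Bf hy' h2⟩
    · rintro ⟨hr, hrN⟩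
      obtain ⟨j, hj, hj1, hj2⟩ := hP.hBi r hr
      have h2 : j ∈ N := hE.app hH hBi hrN hj1.1 hj1.2
      have h3 : j ∈ δ := (hmδ j).2 ⟨hj, h2⟩
      exact ⟨j, h3, pc_pair_mem_rs.2 ⟨hj2, h3⟩⟩
  have hBV : B ∈ V := hM.trans _ hNV _ hB
  have hH'V : H' ∈ V := by
    rw [hH']
    exact rg_mem_M hM (rs_mem_M hM hBV hδV) hδV
  have hH'i : Inj V H' ZFSet.omega := Inj.trans hM hH'V hM.infinity
    (Inj.of_subset hM hH'V hNV fun r hr => ((hmH r).1 hr).2) hNc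
  obtain ⟨K, hK⟩ : ∃ K, K = ZFSet.sep (fun x => x ∈ N) p₀ := ⟨_, rfl⟩
  obtain ⟨T, hT⟩ : ∃ T, T = ZFSet.sep (fun x => x ∈ N) Tk := ⟨_, rfl⟩
  have hmK : ∀ c, c ∈ K ↔ Pc V c ∧ c ∈ N := by
    intro c
    rw [hK, ZFSet.mem_sep, hP.hp]
  have hmT : ∀ t, t ∈ T ↔ t ∈ Tk ∧ t ∈ N := by
    intro t
    rw [hT, ZFSet.mem_sep]
  have hKV : K ∈ V ∧ Inj V K ZFSet.omega := by
    rw [hK]
    exact hNsub p₀ hpV
  have hTV : T ∈ V ∧ Inj V T ZFSet.omega := by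
    rw [hT]
    exact hNsub Tk hTkV
  have hηV := hct_mem hM hηh
  have hSB := SB_mem' hM hH'V
  have hGV : G ∈ V := hM.trans _ (Lb_mem_M hM hSB hηV) _ hGL
  -- lengths
  have hlnK : ∀ c ∈ K, ln c ∈ δ := by
    intro c hc
    have h2 := (hmK c).1 hc
    have h3 : ln c ∈ o := (hP.ho _).2 ⟨pc_hct_ln hM (pc_hct h2.1) (pc_isPs h2.1), pc_ord h2.1⟩
    exact (hmδ _).2 ⟨h3, hE.ln hH ho h2.2 h3 (pc_isPs h2.1)⟩
  have hvalK : ∀ c ∈ K, ∀ j r, pair j r ∈ c → r ∈ H' := by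
    intro c hc j r hjr
    have h2 := (hmK c).1 hc
    have h3 := pc_dom h2.1 hjr
    have h4 := (hmδ _).1 (hlnK c hc)
    have h5 := hoN _ h4.1 h4.2 j h3.1
    exact (hmH r).2 ⟨h3.2, hE.app hH h2.2 h5 hjr fun y' hy' => pc_unique h2.1 hy' hjr⟩
  obtain ⟨r₀, hr₀⟩ : ∃ r₀, r₀ ∈ H' := by
    obtain ⟨r, hr⟩ := (pc_mem_ln (pc_isPs hb)).1 (by rw [hlnb]; exact h0δ)
    exact ⟨r, by
      rw [hH', pc_mem_rg (pc_isPs hb)]
      exact ⟨∅, h0δ, hr⟩⟩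
  have hr₀' := (hmH r₀).1 hr₀
  have h0QF : (∅ : ZFSet.{0}) ∈ QF := by
    refine (hP.hQF ∅).2 ⟨ZFSet.empty_subset _, ∅, ZFSet.omega_zero, ?_⟩
    exact Inj.of_subset hM hM.empty_mem hM.empty_mem (fun _ h => h)
  have htask : ∀ D s r ζ, D ∈ V → D ⊆ Pf V → D ∈ N → s ∈ QF → r ∈ H' → ζ ∈ δ →
      pair D (pair s (pair r ζ)) ∈ T := by
    intro D s r ζ hDV hD hDN hs hr hζ
    have h2 : pair D (pair s (pair r ζ)) ∈ Tk := by
      rw [hP.hT]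
      exact ZFSet.pair_mem_prod.2 ⟨(hP.hPP D).2 ⟨hDV, hD⟩, ZFSet.pair_mem_prod.2 ⟨hs,
        ZFSet.pair_mem_prod.2 ⟨((hmH r).1 hr).1, ((hmδ ζ).1 hζ).1⟩⟩⟩
    exact (hmT _).2 ⟨h2, hE.task hH hTk hDN (hQFN s hs) ((hmH r).1 hr).2 ((hmδ ζ).1 hζ).2 h2⟩
  have hPV : Pf V ∈ V := hfor.mem
  -- fusion
  have hfus := hF V hV K T E H' G δ η hKV.1 hTV.1 hEV hH'V hGV hTV.2 hKV.2 hH'i hlim hδh (by
      intro c hc
      refine ⟨((hmK c).1 hc).1, hlnK c hc, fun r hr => ?_⟩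
      rw [pc_mem_rg (pc_isPs ((hmK c).1 hc).1)] at hr
      obtain ⟨j, -, hjr⟩ := hr
      exact hvalK c hc j r hjr) (fun r hr => ((hmH r).1 hr).1) (by
      intro c hc t ht
      have hc' := (hmK c).1 hc
      have ht' := (hmT t).1 ht
      have hζ₀' := (hmδ ζ₀).1 hζ₀
      obtain ⟨ζ', h2, h3, h4, h5⟩ := hP.hCl t ht'.1 c ((hP.hp c).2 hc'.1) ζ₀ hζ₀'.1
      have h6 : ζ' ∈ N := hE.app3 hH hCl ht'.2 hc'.2 hζ₀'.2 h3.1 h3.2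
      have h7 : ζ' ∈ δ := (hmδ ζ').2 ⟨h2, h6⟩
      obtain ⟨j, hj, r, g, hjr, hrg, hg, hζg⟩ := hii ζ' h7 h4
      have hjr' := pc_pair_mem_rs.1 hjr
      have hr : r ∈ H' := by
        rw [hH', pc_mem_rg (pc_isPs hb)]
        exact ⟨j, hjr'.2, hjr⟩
      have hr' := (hmH r).1 hr
      obtain ⟨c', h8, h9, h10, h11, h12⟩ := hP.hCh t ht'.1 c ((hP.hp c).2 hc'.1) r hr'.1
      have h13 : c' ∈ N := hE.app3 hH hCh ht'.2 hc'.2 hr'.2 h9.1 h9.2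
      have h14 := h5 j hj r c' hjr'.1 h9
      have h15 : ln c' ∈ g := hζg h14
      exact ⟨c', (hmK c').2 ⟨(hP.hp c').1 h8, h13⟩, r, hr, g, hg, h10, h11, hrg,
        (hδo.mem hg).isTransitive _ h15, h12⟩) (by
      intro r hr
      refine ⟨_, htask (Pf V) ∅ r ∅ hPV (fun _ h => h) hPN h0QF hr h0δ, fun c' _ hc' => ?_⟩
      have h2 := ((hP.hE _ _).1 hc').2.2.2.1
      simpa using h2) (by
      intro ζ hζ
      refine ⟨_, htask (Pf V) ∅ r₀ ζ hPV (fun _ h => h) hPN h0QF hr₀ hζ, fun c' _ hc' => ?_⟩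
      have h2 := ((hP.hE _ _).1 hc').2.2.2.2
      simpa using h2) (by
      intro ζ hζ
      obtain ⟨j, hj, r, p, h2, h3, h4⟩ := hiv ζ hζ
      refine ⟨r, ?_, p, h3, h4⟩
      rw [hH', pc_mem_rg (pc_isPs hb)]
      exact ⟨j, hj, h2⟩) hηh hηo hGL hGF hiii
  -- the generic condition
  intro p hp hpN
  obtain ⟨-, z, c₀, s₀, F₀, rfl, hz⟩ := ZFSet.mem_sep.1 hp
  have h2 : pair (rl z) (pair c₀ (pair s₀ F₀)) ∈ Dc := (hP.hD _ _).2 ⟨z, c₀, s₀, F₀, rfl, hz, rfl⟩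
  have h3 : pair c₀ (pair s₀ F₀) ∈ N := by
    refine hE.app hH hDc hpN h2 fun a' ha' => ?_
    obtain ⟨z', c', s', F', h4, h5, rfl⟩ := (hP.hD _ _).1 ha'
    have h6 := rl_inj h4
    subst h6
    exact (hC V hM).2.2.2.2 _ _ _ h5.2.1 hz.2.1
  have hc₀ : c₀ ∈ K := (hmK c₀).2 ⟨hz.2.2.1, hE.fst hH h3⟩
  obtain ⟨c, h4, h5, h6, h7⟩ := hfus c₀ hc₀
  have h8 : Cd V c s₀ F₀ := Cd.mono hz.2.2 h4 h6
  obtain ⟨z', hz'⟩ := ((h1 V hG).2.1 c s₀ F₀ h8).2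
  have hst : Stronger c₀ s₀ F₀ c s₀ F₀ := ⟨h6, fun _ h => h, fun _ h => h, fun u hu hu' =>
    absurd hu hu'⟩
  have hmemP : ∀ {z c s F}, Cz V z c s F → rl z ∈ Pf V := by
    intro z c s F hz
    exact ((h1 V hG).2.2.1 z hz.1).2 ⟨c, s, F, hz⟩
  have hle : ∀ {z c s F z' c' s' F'}, Cz V z c s F → Cz V z' c' s' F' →
      (pair (rl z') (rl z) ∈ Lf V ↔ Stronger c s F c' s' F') := by
    intro z c s F z' c' s' F' hz hz'
    exact (h1 V hG).2.2.2 z c s F z' c' s' F' hz hz'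
  refine ⟨rl z', hmemP hz', (hle hz hz').2 hst, ?_⟩
  intro D hDN hDP hDd r hr hrq
  obtain ⟨-, z1, c1, s1, F1, rfl, hz1⟩ := ZFSet.mem_sep.1 hr
  have h9 := (hle hz' hz1).1 hrq
  obtain ⟨d, hd, hdr⟩ := hDd _ hr
  obtain ⟨-, z2, c2, s2, F2, rfl, hz2⟩ := ZFSet.mem_sep.1 (hDP hd)
  have h10 := (hle hz1 hz2).1 hdr
  have hDV : D ∈ V := hM.trans _ hNV _ hDN
  have hs2 : s2 ∈ QF := by
    refine (hP.hQF s2).2 ⟨fun u hu => (hP.hQ u).2 (hz2.2.2.2.2.2.1 u hu), hz2.2.2.2.1⟩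
  have ht := htask D s2 r₀ ∅ hDV hDP hDN hs2 hr₀ h0δ
  obtain ⟨cn, hcn, hcnc, hcnE⟩ := h7 _ ht
  have hcn' := (hmK cn).1 hcn
  have h11 := ((hP.hE _ _).1 hcnE).2.2.1
  simp only [fs_pair, sn_pair] at h11
  have hsub2 : cn ⊆ c2 := fun x hx => h10.1 (h9.1 (hcnc hx))
  have h12 : InD Dc D cn s2 := by
    rcases h11 with h12 | h12
    · exact h12
    · exfalso
      apply h12
      refine ⟨c2, (hP.hp c2).2 hz2.2.2.1, hsub2, rl z2, F2, hd, ?_⟩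
      exact (hP.hD _ _).2 ⟨z2, c2, s2, F2, rfl, hz2, rfl⟩
  obtain ⟨d', hd'N, F3, hd'D, hd'c⟩ := hE.inD hH hDc hDN hcn'.2 (hQFN s2 hs2) h12
  obtain ⟨z3, c3, s3, F3', rfl, hz3, h13⟩ := (hP.hD _ _).1 hd'c
  obtain ⟨rfl, h14⟩ := ZFSet.pair_inj.1 h13
  obtain ⟨rfl, rfl⟩ := ZFSet.pair_inj.1 h14
  obtain ⟨c4, s4, F4, h15, h16, h17⟩ := (hCP V hG cn s2 F3 c2 s2 F2 hz3.2.2 hz2.2.2).2
    ⟨Or.inl hsub2, fun u hu hu' => absurd hu hu', fun u hu hu' => absurd hu hu'⟩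
  obtain ⟨z4, hz4⟩ := ((h1 V hG).2.1 c4 s4 F4 h15).2
  refine ⟨rl z3, hd'D, hd'N, rl z4, hmemP hz4, (hle hz3 hz4).2 h16, ?_⟩
  exact hfor.trans _ (hmemP hz1) _ (hmemP hz2) _ (hmemP hz4) ((hle hz2 hz4).2 h17) hdr

/-- The forcing is proper. -/
theorem c3 (hC : S_HC) (hC2 : S_HC2) (hRW : S_RW) (hR : S_RWd) (hW : S_WD) (hQ0 : S_Q0)
    (hF : S_FUS) (h1 : S_C1) (hCP : S_CP) : S_C3 := by
  intro V hG
  have hV := hG.zfc
  have hM := hV.toIsZF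
  obtain ⟨o, ho, B, hB, p₀, hp₀, Dc, hDc, Tk, hTk, E, hE, Ch, hCh, Cl, hCl, Bi, hBi, J, hJ, Q, hQ,
    QF, hQF, PP, hPP, hP⟩ := exists_par hG hC hC2 hRW hR hW h1 hQ0
  have hPV : Pf V ∈ V := (h1 V hG).1.mem
  obtain ⟨x, hx⟩ : ∃ x, x = pair ZFSet.omega (pair o (pair B (pair Dc (pair Tk (pair Ch
    (pair Cl (pair Bi (pair J (pair Q (pair QF (Pf V))))))))))) := ⟨_, rfl⟩
  have hxV : x ∈ V := by
    rw [hx]
    exact hM.pair_mem hM.infinity (hM.pair_mem ho (hM.pair_mem hB (hM.pair_mem hDc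
      (hM.pair_mem hTk (hM.pair_mem hCh (hM.pair_mem hCl (hM.pair_mem hBi (hM.pair_mem hJ
      (hM.pair_mem hQ (hM.pair_mem hQF hPV))))))))))
  obtain ⟨θ₀, hθ₀, h2⟩ := exists_Hth hV hxV
  refine ⟨θ₀, hθ₀, fun θ _ hθ H _ hH => ⟨x, (hH x).2 (h2 θ hθ), fun N hN hNc hNH hxN => ?_⟩⟩
  have hHT := Hth_tra hM hH
  rw [hx] at hxN
  have e1 := hNH.snd hHT hxN
  have e2 := hNH.snd hHT e1
  have e3 := hNH.snd hHT e2
  have e4 := hNH.snd hHT e3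
  have e5 := hNH.snd hHT e4
  have e6 := hNH.snd hHT e5
  have e7 := hNH.snd hHT e6
  have e8 := hNH.snd hHT e7
  have e9 := hNH.snd hHT e8
  have e10 := hNH.snd hHT e9
  have e11 := hNH.snd hHT e10
  exact proper_main hG hC hC2 hF h1 hCP hP ho hp₀ hTk hE hHT hNH hN hNc (hNH.fst hHT hxN)
    (hNH.fst hHT e1) (hNH.fst hHT e2) (hNH.fst hHT e3) (hNH.fst hHT e4) (hNH.fst hHT e5)
    (hNH.fst hHT e6) (hNH.fst hHT e7) (hNH.fst hHT e8) (hNH.fst hHT e9) (hNH.fst hHT e10) e11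

end Pool.Agent.H637_NO
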