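import Pool.Agent.H637_NO.DF
import Pool.Agent.R597.Cho
import Pool.Agent.R597.Wo

/-!
# New orbits: elementary submodels
-/

set_option autoImplicit false
set_option linter.unreachableTactic false
set_option linter.unusedTactic false

namespace Pool.Agent.H637_NO

open Pool.Agent.W868 Pool.Agent.W868.GM Pool.Agent.Y588 Pool.Agent.R597
open ZFSet (pair)

section

variable {N H : ZFSet.{0}} (h : Elem N H) (hT : Tra H)

include h hT

/-- Witnesses of bounded relations. -/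
theorem Elem.wit {n : ℕ} {R : (Fin (n + 1) → ZFSet.{0}) → Prop} (hR : D0 R)
    {v : Fin n → ZFSet.{0}} (hv : ∀ i, v i ∈ N) {a : ZFSet.{0}} (ha : a ∈ H)
    (hRa : R (Fin.cons a v)) : ∃ b ∈ N, R (Fin.cons b v) := by
  obtain ⟨φ, hφ⟩ := hR
  have hc : ∀ {S : ZFSet.{0}} {b : ZFSet.{0}}, b ∈ S → (∀ i, v i ∈ S) →
      ∀ i, (Fin.cons b v : Fin (n + 1) → ZFSet.{0}) i ∈ {x | x ∈ S} := by
    intro S b hb hS i
    refine Fin.cases ?_ (fun i => ?_) i
    · exact hb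
    · exact hS i
  have h1 : Sat {x | x ∈ H} Empty.elim (.ex φ) v :=
    ⟨a, ha, (hφ {x | x ∈ H} hT _ (hc ha fun i => h.1 (hv i))).2 hRa⟩
  obtain ⟨b, hb, h2⟩ := (h.2 n (.ex φ) v hv).2 h1
  have h3 := (h.2 (n + 1) φ (Fin.cons b v) (hc hb hv)).1 h2
  exact ⟨b, hb, (hφ {x | x ∈ H} hT _ (hc (h.1 hb) fun i => h.1 (hv i))).1 h3⟩

theorem Elem.trH {x y : ZFSet.{0}} (hx : x ∈ N) (hy : y ∈ x) : y ∈ H := hT x (h.1 hx) y hy

theorem Elem.trP {x a b : ZFSet.{0}} (hx : x ∈ N) (hy : pair a b ∈ x) : a ∈ H ∧ b ∈ H := by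
  have h1 := h.trH hT hx hy
  have h2 : ({a, b} : ZFSet.{0}) ∈ H := hT _ h1 _ (by simp [pair])
  exact ⟨hT _ h2 _ (by simp), hT _ h2 _ (by simp)⟩

theorem Elem.fst {a b : ZFSet.{0}} (hx : pair a b ∈ N) : a ∈ N := by
  have hR : D0 fun v : Fin 2 → ZFSet.{0} => ∃ c d, v 1 = pair c d ∧ v 0 = c := by
    (repeat' first
      | exact D0v.proj _
      | apply D0.expair | apply D0.eq)
  have h2 : ({a, b} : ZFSet.{0}) ∈ H := hT _ (h.1 hx) _ (by simp [pair])
  have h3 : a ∈ H := hT _ h2 _ (by simp)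
  obtain ⟨c, hc, c', d, h4, h5⟩ := h.wit hT hR (v := ![pair a b]) (by
    intro i
    fin_cases i
    exact hx) (a := a) h3 ⟨a, b, rfl, rfl⟩
  have h6 : pair a b = pair c' d := h4
  have h7 : c = c' := h5
  obtain ⟨rfl, rfl⟩ := ZFSet.pair_inj.1 h6
  exact h7 ▸ hc

theorem Elem.snd {a b : ZFSet.{0}} (hx : pair a b ∈ N) : b ∈ N := by
  have hR : D0 fun v : Fin 2 → ZFSet.{0} => ∃ c d, v 1 = pair c d ∧ v 0 = d := by
    (repeat' first
      | exact D0v.proj _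
      | apply D0.expair | apply D0.eq)
  have h2 : ({a, b} : ZFSet.{0}) ∈ H := hT _ (h.1 hx) _ (by simp [pair])
  have h3 : b ∈ H := hT _ h2 _ (by simp)
  obtain ⟨c, hc, c', d, h4, h5⟩ := h.wit hT hR (v := ![pair a b]) (by
    intro i
    fin_cases i
    exact hx) (a := b) h3 ⟨a, b, rfl, rfl⟩
  have h6 : pair a b = pair c' d := h4
  have h7 : c = d := h5
  obtain ⟨rfl, rfl⟩ := ZFSet.pair_inj.1 h6
  exact h7 ▸ hc

/-- Values of functions. -/
theorem Elem.app {f x y : ZFSet.{0}} (hf : f ∈ N) (hx : x ∈ N) (hy : pair x y ∈ f)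
    (hu : ∀ y', pair x y' ∈ f → y' = y) : y ∈ N := by
  have hR : D0 fun v : Fin 3 → ZFSet.{0} => pair (v 2) (v 0) ∈ v 1 := by
    (repeat' first
      | exact D0v.proj _
      | apply D0.pairMem)
  obtain ⟨c, hc, h4⟩ := h.wit hT hR (v := ![f, x]) (by
    intro i
    fin_cases i
    exacts [hf, hx]) (a := y) (h.trP hT hf hy).2 hy
  exact hu c h4 ▸ hc

/-- Values of inverse functions. -/
theorem Elem.inv {f x y : ZFSet.{0}} (hf : f ∈ N) (hy : y ∈ N) (hx : pair x y ∈ f)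
    (hu : ∀ x', pair x' y ∈ f → x' = x) : x ∈ N := by
  have hR : D0 fun v : Fin 3 → ZFSet.{0} => pair (v 0) (v 2) ∈ v 1 := by
    (repeat' first
      | exact D0v.proj _
      | apply D0.pairMem)
  obtain ⟨c, hc, h4⟩ := h.wit hT hR (v := ![f, y]) (by
    intro i
    fin_cases i
    exacts [hf, hy]) (a := x) (h.trP hT hf hx).1 hx
  exact hu c h4 ▸ hc

/-- Pairs of elements, if they are in an element. -/
theorem Elem.pr {S a b : ZFSet.{0}} (hS : S ∈ N) (ha : a ∈ N) (hb : b ∈ N)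
    (hx : pair a b ∈ S) : pair a b ∈ N := by
  have hR : D0 fun v : Fin 4 → ZFSet.{0} => v 0 ∈ v 1 ∧ v 0 = pair (v 2) (v 3) := by
    (repeat' first
      | exact D0v.proj _
      | apply D0.and | apply D0.isPair | apply D0.mem)
  obtain ⟨c, hc, -, h4⟩ := h.wit hT hR (v := ![S, a, b]) (by
    intro i
    fin_cases i
    exacts [hS, ha, hb]) (a := pair a b) (h.trH hT hS hx) ⟨hx, rfl⟩
  have h5 : c = pair a b := h4
  exact h5 ▸ hc

/-- Values of functions of pairs. -/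
theorem Elem.app2 {f x x' y : ZFSet.{0}} (hf : f ∈ N) (hx : x ∈ N) (hx' : x' ∈ N)
    (hy : pair (pair x x') y ∈ f)
    (hu : ∀ y', pair (pair x x') y' ∈ f → y' = y) : y ∈ N := by
  have hR : D0 fun v : Fin 4 → ZFSet.{0} => ∃ q ∈ v 1, ∃ c d, q = pair c d ∧ c = pair (v 2) (v 3) ∧
      d = v 0 := by
    (repeat' first
      | exact D0v.proj _
      | apply D0.bex | apply D0.expair | apply D0.and | apply D0.isPair | apply D0.eq)
  obtain ⟨c, hc, q, hq, c', d, h4, h5, h6⟩ := h.wit hT hR (v := ![f, x, x']) (by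
    intro i
    fin_cases i
    exacts [hf, hx, hx']) (a := y) (h.trP hT hf hy).2 ⟨_, hy, _, _, rfl, rfl, rfl⟩
  have h7 : c' = pair x x' := h5
  have h8 : d = c := h6
  subst h4 h7 h8
  exact hu d hq ▸ hc

/-- Values of functions of triples. -/
theorem Elem.app3 {f x x' x'' y : ZFSet.{0}} (hf : f ∈ N) (hx : x ∈ N) (hx' : x' ∈ N)
    (hx'' : x'' ∈ N) (hy : pair (pair x (pair x' x'')) y ∈ f)
    (hu : ∀ y', pair (pair x (pair x' x'')) y' ∈ f → y' = y) : y ∈ N := by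
  have hR : D0 fun v : Fin 5 → ZFSet.{0} => ∃ q ∈ v 1, ∃ c d, q = pair c d ∧
      d = v 0 ∧ ∃ c' d', c = pair c' d' ∧ c' = v 2 ∧ d' = pair (v 3) (v 4) := by
    (repeat' first
      | exact D0v.proj _
      | apply D0.bex | apply D0.expair | apply D0.and | apply D0.isPair | apply D0.eq)
  obtain ⟨c, hc, q, hq, c', d, h4, h5, c1, d1, h6, h7, h8⟩ :=
    h.wit hT hR (v := ![f, x, x', x'']) (by
    intro i
    fin_cases i
    exacts [hf, hx, hx', hx'']) (a := y) (h.trP hT hf hy).2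
      ⟨_, hy, _, _, rfl, rfl, _, _, rfl, rfl, rfl⟩
  have h9 : d = c := h5
  have h10 : c1 = x := h7
  have h11 : d1 = pair x' x'' := h8
  subst h4 h6 h9 h10 h11
  exact hu d hq ▸ hc

theorem Elem.nat (hω : ZFSet.omega ∈ N) : ∀ n : ℕ, nat n ∈ N
  | 0 => by
    have hR : D0 fun v : Fin 2 → ZFSet.{0} => v 0 ∈ v 1 ∧ v 0 = ∅ := by
      apply D0.and
      · exact D0.mem (D0v.proj _) (D0v.proj _)
      · exact D0.isEmpty (D0v.proj _)
    obtain ⟨c, hc, -, h4⟩ := h.wit hT hR (v := ![ZFSet.omega]) (by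
      intro i
      fin_cases i
      exact hω) (a := ∅) (h.trH hT hω ZFSet.omega_zero) ⟨ZFSet.omega_zero, rfl⟩
    have h5 : c = ∅ := h4
    show (∅ : ZFSet.{0}) ∈ N
    rw [← h5]
    exact hc
  | n + 1 => by
    have hR : D0 fun v : Fin 3 → ZFSet.{0} => v 0 ∈ v 1 ∧ (∀ z ∈ v 0, z ∈ v 2 ∨ z = v 2) ∧
        v 2 ∈ v 0 ∧ v 2 ⊆ v 0 := by
      (repeat' first
        | exact D0v.proj _
        | apply D0.and | apply D0.or | apply D0.ball | apply D0.subset | apply D0.eq | apply D0.mem)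
    obtain ⟨c, hc, -, h4, h5, h6⟩ := h.wit hT hR (v := ![ZFSet.omega, Pool.Agent.W868.nat n]) (by
      intro i
      fin_cases i
      exacts [hω, Elem.nat hω n]) (a := Pool.Agent.W868.nat (n + 1))
        (h.trH hT hω (nat_mem_omega (n + 1)))
        ⟨nat_mem_omega (n + 1), fun z hz => (ZFSet.mem_insert_iff.1 hz).symm,
          ZFSet.mem_insert _ _, fun z hz => ZFSet.mem_insert_of_mem _ hz⟩
    have h7 : c = Pool.Agent.W868.nat (n + 1) := by
      ext z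
      constructor
      · intro hz
        rcases h4 z hz with h8 | h8
        · exact ZFSet.mem_insert_of_mem _ h8
        · have h9 : z = Pool.Agent.W868.nat n := h8
          rw [h9]
          exact ZFSet.mem_insert _ _
      · intro hz
        rcases ZFSet.mem_insert_iff.1 hz with h8 | h8
        · rw [h8]
          exact h5
        · exact h6 h8
    exact h7 ▸ hc

theorem Elem.omega (hω : ZFSet.omega ∈ N) {n : ZFSet.{0}} (hn : n ∈ ZFSet.omega) : n ∈ N := by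
  obtain ⟨k, rfl⟩ := mem_omega_iff.1 hn
  exact h.nat hT hω k

/-- Countable elements are subsets. -/
theorem Elem.sub {z f : ZFSet.{0}} (hω : ZFSet.omega ∈ N) (hf : f ∈ N)
    (hi : IsInj z ZFSet.omega f) {u : ZFSet.{0}} (hu : u ∈ z) : u ∈ N := by
  obtain ⟨n, hn, h1⟩ := fun_exists hi.1 hu
  exact h.inv hT hf (h.omega hT hω hn) h1 fun x' hx' => hi.2 x' u n hx' h1

end

/-! ### The set `H(θ)` -/

theorem Hth_tra {M : Set ZFSet.{0}} (hM : IsZF M) {θ H : ZFSet.{0}} (hH : ∀ z, z ∈ H ↔ z ∈ Hth M θ) :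
    Tra H := by
  intro x hx y hy
  obtain ⟨h1, T, h2, h3, h4, h5⟩ := (hH x).1 hx
  exact (hH y).2 ⟨hM.trans _ h1 _ hy, T, h2, h3, fun z hz => h3 y (h4 hy) z hz, h5⟩

theorem Vh_tra {M : Set ZFSet.{0}} {ξ : ZFSet.{0}} (hξ : ξ.IsOrdinal) : Tra (Vh M ξ) := by
  intro x hx y hy
  obtain ⟨u, hu, h1, h2⟩ := mem_Vh.1 hx
  obtain ⟨u', hu', h3, h4⟩ := mem_Vh.1 (h2 hy)
  exact mem_Vh.2 ⟨u', hξ.mem_trans hu' hu, h3, h4⟩

/-- Every set is in `H(θ)` for all large `θ`. -/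
theorem exists_Hth {M : Set ZFSet.{0}} (hM : IsZFC M) {x : ZFSet.{0}} (hx : x ∈ M) :
    ∃ θ₀ ∈ M, ∀ θ : ZFSet.{0}, θ₀ ∈ θ → x ∈ Hth M θ := by
  have hZ := hM.toIsZF
  have h1 : sc (rk x) ∈ M := hZ.sc_mem (rk_mem hZ hx)
  have h2 := Vh_mem hZ h1
  have h3 : Tra (Vh M (sc (rk x))) := Vh_tra (isOrdinal_sc (isOrdinal_rk x))
  have h4 : x ∈ Vh M (sc (rk x)) := mem_Vh_of_rk hZ _ hx (ZFSet.mem_insert _ _)
  obtain ⟨α, hα, -, f, hf, h5⟩ := exists_wo hM h2
  exact ⟨α, hα, fun θ hθ => ⟨hx, _, h2, h3, fun z hz => h3 x h4 z hz, α, hθ, f, hf, h5⟩⟩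

end Pool.Agent.H637_NO
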