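import Pool.Agent.H637_NO.Stm
import Pool.Agent.W868.Inj

/-!
# Basic facts on fast sequences
-/

set_option autoImplicit false

namespace Pool.Agent.H637_NO

open Pool.Agent.W868 Pool.Agent.W868.GM
open ZFSet (pair)

/-! ### Sets of pairs, restrictions, values, lengths -/

/-- `c` is a set of pairs. -/
def pc_IsPs (c : ZFSet.{0}) : Prop := ∀ p ∈ c, ∃ a b, p = pair a b

theorem pc_isPs_of_func {x y c : ZFSet.{0}} (h : ZFSet.IsFunc x y c) : pc_IsPs c := by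
  intro p hp
  obtain ⟨a, -, b, -, rfl⟩ := ZFSet.mem_prod.1 (h.1 hp)
  exact ⟨a, b, rfl⟩

theorem pc_mem_sc {x y : ZFSet.{0}} : x ∈ sc y ↔ x = y ∨ x ∈ y := ZFSet.mem_insert_iff

theorem pc_mem_rs {c ξ p : ZFSet.{0}} : p ∈ rs c ξ ↔ p ∈ c ∧ fs p ∈ ξ := ZFSet.mem_sep

theorem pc_pair_mem_rs {c ξ a b : ZFSet.{0}} : pair a b ∈ rs c ξ ↔ pair a b ∈ c ∧ a ∈ ξ := by
  rw [pc_mem_rs, fs_pair]

theorem pc_rs_subset {c ξ : ZFSet.{0}} : rs c ξ ⊆ c := fun _ h => (pc_mem_rs.1 h).1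

theorem pc_isPs_rs {c ξ : ZFSet.{0}} (h : pc_IsPs c) : pc_IsPs (rs c ξ) :=
  fun p hp => h p (pc_rs_subset hp)

theorem pc_isPs_subset {c d : ZFSet.{0}} (h : pc_IsPs d) (hcd : c ⊆ d) : pc_IsPs c :=
  fun p hp => h p (hcd hp)

theorem pc_ext {c d : ZFSet.{0}} (hc : pc_IsPs c) (hd : pc_IsPs d)
    (h : ∀ a b, pair a b ∈ c ↔ pair a b ∈ d) : c = d := by
  ext p
  constructor
  · intro hp
    obtain ⟨a, b, rfl⟩ := hc p hp
    exact (h a b).1 hp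
  · intro hp
    obtain ⟨a, b, rfl⟩ := hd p hp
    exact (h a b).2 hp

theorem pc_mem_rg {c ξ r : ZFSet.{0}} (hc : pc_IsPs c) :
    r ∈ rg c ξ ↔ ∃ j ∈ ξ, pair j r ∈ c := by
  rw [rg, mem_im]
  constructor
  · rintro ⟨p, hp, rfl⟩
    obtain ⟨h1, h2⟩ := pc_mem_rs.1 hp
    obtain ⟨a, b, rfl⟩ := hc p h1
    rw [fs_pair] at h2
    exact ⟨a, h2, by rw [sn_pair]; exact h1⟩
  · rintro ⟨j, hj, h⟩
    exact ⟨pair j r, pc_pair_mem_rs.2 ⟨h, hj⟩, (sn_pair _ _).symm⟩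

theorem pc_mem_ln {c j : ZFSet.{0}} (hc : pc_IsPs c) : j ∈ ln c ↔ ∃ r, pair j r ∈ c := by
  rw [ln, mem_im]
  constructor
  · rintro ⟨p, hp, rfl⟩
    obtain ⟨a, b, rfl⟩ := hc p hp
    exact ⟨b, by rw [fs_pair]; exact hp⟩
  · rintro ⟨r, h⟩
    exact ⟨_, h, (fs_pair _ _).symm⟩

theorem pc_ln_empty : ln (∅ : ZFSet.{0}) = ∅ := by
  rw [ZFSet.eq_empty]
  intro y hy
  obtain ⟨p, hp, -⟩ := mem_im.1 hy
  exact ZFSet.notMem_empty _ hp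

theorem pc_ln_eq {x y c : ZFSet.{0}} (h : ZFSet.IsFunc x y c) : ln c = x := by
  ext j
  rw [pc_mem_ln (pc_isPs_of_func h)]
  constructor
  · rintro ⟨r, hr⟩
    exact (ZFSet.pair_mem_prod.1 (h.1 hr)).1
  · intro hj
    obtain ⟨r, -, hr⟩ := fun_exists h hj
    exact ⟨r, hr⟩

theorem pc_ln_mono {c d : ZFSet.{0}} (h : c ⊆ d) : ln c ⊆ ln d := by
  intro j hj
  obtain ⟨p, hp, rfl⟩ := mem_im.1 hj
  exact mem_im.2 ⟨p, h hp, rfl⟩

theorem pc_func_rs {x y c ξ : ZFSet.{0}} (h : ZFSet.IsFunc x y c) (hξ : ξ ⊆ x) :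
    ZFSet.IsFunc ξ y (rs c ξ) := by
  refine ⟨fun p hp => ?_, fun j hj => ?_⟩
  · obtain ⟨h1, h2⟩ := pc_mem_rs.1 hp
    obtain ⟨a, -, b, hb, rfl⟩ := ZFSet.mem_prod.1 (h.1 h1)
    rw [fs_pair] at h2
    exact ZFSet.pair_mem_prod.2 ⟨h2, hb⟩
  · obtain ⟨w, h1, h2⟩ := h.2 j (hξ hj)
    exact ⟨w, pc_pair_mem_rs.2 ⟨h1, hj⟩, fun w' hw' => h2 w' (pc_pair_mem_rs.1 hw').1⟩

theorem pc_func_ad {x y c r : ZFSet.{0}} (h : ZFSet.IsFunc x y c) (hr : r ∈ y) :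
    ZFSet.IsFunc (sc x) y (ad c r) := by
  have hl := pc_ln_eq h
  refine ⟨fun p hp => ?_, fun j hj => ?_⟩
  · rcases ZFSet.mem_insert_iff.1 hp with rfl | hp
    · rw [hl]
      exact ZFSet.pair_mem_prod.2 ⟨pc_mem_sc.2 (Or.inl rfl), hr⟩
    · obtain ⟨a, ha, b, hb, rfl⟩ := ZFSet.mem_prod.1 (h.1 hp)
      exact ZFSet.pair_mem_prod.2 ⟨pc_mem_sc.2 (Or.inr ha), hb⟩
  · have key : ∀ w, pair j w ∈ ad c r ↔ (j = x ∧ w = r) ∨ pair j w ∈ c := by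
      intro w
      rw [ad, ZFSet.mem_insert_iff, hl, ZFSet.pair_inj]
    rcases pc_mem_sc.1 hj with rfl | hj
    · refine ⟨r, (key r).2 (Or.inl ⟨rfl, rfl⟩), fun w hw => ?_⟩
      rcases (key w).1 hw with h1 | h1
      · exact h1.2
      · exact absurd (ZFSet.pair_mem_prod.1 (h.1 h1)).1 (ZFSet.mem_irrefl _)
    · obtain ⟨w, h1, h2⟩ := h.2 j hj
      refine ⟨w, (key w).2 (Or.inr h1), fun w' hw' => ?_⟩
      rcases (key w').1 hw' with h3 | h3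
      · obtain ⟨rfl, -⟩ := h3
        exact absurd hj (ZFSet.mem_irrefl _)
      · exact h2 w' h3

/-- A sequence is the restriction of each extension. -/
theorem pc_rs_of_subset {x y y' x' c c' : ZFSet.{0}} (h : ZFSet.IsFunc x y c)
    (h' : ZFSet.IsFunc x' y' c') (hcc : c ⊆ c') : rs c' x = c := by
  refine pc_ext (pc_isPs_rs (pc_isPs_of_func h')) (pc_isPs_of_func h) fun a b => ?_
  rw [pc_pair_mem_rs]
  constructor
  · rintro ⟨h1, h2⟩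
    obtain ⟨w, -, hw⟩ := fun_exists h h2
    rw [fun_unique h' h1 (hcc hw)]
    exact hw
  · exact fun h1 => ⟨hcc h1, (ZFSet.pair_mem_prod.1 (h.1 h1)).1⟩

theorem pc_rs_self {x y c : ZFSet.{0}} (h : ZFSet.IsFunc x y c) : rs c x = c :=
  pc_rs_of_subset h h fun _ h => h

theorem pc_rs_rs {c ξ ζ : ZFSet.{0}} (h : ζ ⊆ ξ) : rs (rs c ξ) ζ = rs c ζ := by
  ext p
  rw [pc_mem_rs, pc_mem_rs, pc_mem_rs]
  exact ⟨fun h1 => ⟨h1.1.1, h1.2⟩, fun h1 => ⟨⟨h1.1, h h1.2⟩, h1.2⟩⟩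

theorem pc_rs_mono {c ξ ζ : ZFSet.{0}} (h : ζ ⊆ ξ) : rs c ζ ⊆ rs c ξ := fun p hp =>
  pc_mem_rs.2 ⟨(pc_mem_rs.1 hp).1, h (pc_mem_rs.1 hp).2⟩

/-! ### Fastness at `ξ` depends only on the restriction to `ξ` -/

theorem pc_rg_congr {c c' ξ : ZFSet.{0}} (hc : pc_IsPs c) (hc' : pc_IsPs c')
    (h : ∀ j ∈ ξ, ∀ r, pair j r ∈ c ↔ pair j r ∈ c') : rg c ξ = rg c' ξ := by
  ext r
  rw [pc_mem_rg hc, pc_mem_rg hc']
  exact exists_congr fun j => and_congr_right fun hj => h j hj r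

theorem wt_congr {c c' ξ : ZFSet.{0}} (hc : pc_IsPs c) (hc' : pc_IsPs c')
    (h : ∀ j ∈ ξ, ∀ r, pair j r ∈ c ↔ pair j r ∈ c') (hξ : Tra ξ) {η G z : ZFSet.{0}} :
    Wt c ξ η G z ↔ Wt c' ξ η G z := by
  unfold Wt
  rw [pc_rg_congr hc hc' h]
  refine and_congr_right fun _ => and_congr_right fun _ => and_congr_right fun _ =>
    and_congr_right fun _ => and_congr ?_ (and_congr_right fun _ => ?_)
  · refine forall_congr' fun ζ => forall_congr' fun hζ => forall_congr' fun _ => ?_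
    refine exists_congr fun j => and_congr_right fun hj => ?_
    refine exists_congr fun r => exists_congr fun g => and_congr_left fun _ => ?_
    exact h j (hξ _ hζ _ hj) r
  · refine forall_congr' fun ζ => forall_congr' fun _ => ?_
    refine exists_congr fun j => and_congr_right fun hj => ?_
    refine exists_congr fun r => exists_congr fun p => and_congr_left fun _ => ?_
    exact h j hj r

theorem pc_tra_of_ord {ξ : ZFSet.{0}} (h : ξ.IsOrdinal) : Tra ξ := fun _ hx _ hy =>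
  h.mem_trans hy hx

/-- Fastness of a restriction. -/
theorem pc_wt_rs {c ξ ζ η G z : ZFSet.{0}} (hc : pc_IsPs c) (hξ : ξ.IsOrdinal) (h : ξ ⊆ ζ) :
    Wt (rs c ζ) ξ η G z ↔ Wt c ξ η G z :=
  wt_congr (pc_isPs_rs hc) hc (fun j hj r => by
    rw [pc_pair_mem_rs]
    exact ⟨fun h1 => h1.1, fun h1 => ⟨h1, h hj⟩⟩) (pc_tra_of_ord hξ)

/-- Fastness and extensions. -/
theorem pc_wt_ext {x y x' y' c c' ξ η G z : ZFSet.{0}} (hc : ZFSet.IsFunc x y c)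
    (hc' : ZFSet.IsFunc x' y' c') (hcc : c ⊆ c') (hξ : ξ.IsOrdinal) (h : ξ ⊆ x) :
    Wt c ξ η G z ↔ Wt c' ξ η G z := by
  have h1 := pc_rs_of_subset hc hc' hcc
  rw [← pc_wt_rs (pc_isPs_of_func hc') hξ h, h1]

/-! ### Hereditarily countable sets -/

theorem pc_inj_insert {M : Set ZFSet.{0}} (hM : IsZF M) {T x : ZFSet.{0}} (hT : T ∈ M)
    (hx : x ∈ M) (h : Inj M T ZFSet.omega) : Inj M (insert x T) ZFSet.omega := by
  have hB := hM.base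
  have h0 := hM.empty_mem
  have hω := hM.infinity
  obtain ⟨f, hf, h⟩ := h
  have hR : Dfn M M fun w : Fin 2 → ZFSet.{0} => (w 0 = x ∧ w 1 = ∅) ∨
      (¬ w 0 = x ∧ ∃ c ∈ ZFSet.omega, pair (w 0) c ∈ f ∧ w 1 = insert c c) := by
    (repeat' first
      | assumption
      | exact DfnF.proj _
      | exact DfnF.const (by assumption)
      | exact DfnF.const' (by first | assumption | trivial) (by first | assumption | trivial)
      | exact Dfn.prop _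
      | apply hB.insert'
      | apply Dfn.not | apply Dfn.and | apply Dfn.or | apply Dfn.imp | apply Dfn.iff
      | apply hB.bex | apply hB.ball | apply Dfn.ex | apply Dfn.all
      | apply Dfn.eq | apply Dfn.mem | apply hB.pair')
  have hsc : ∀ a b : ZFSet.{0}, (insert a a : ZFSet.{0}) = insert b b → a = b := by
    intro a b h
    have h1 : a ∈ (insert b b : ZFSet.{0}) := h ▸ ZFSet.mem_insert _ _
    have h2 : b ∈ (insert a a : ZFSet.{0}) := h ▸ ZFSet.mem_insert _ _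
    rcases ZFSet.mem_insert_iff.1 h1 with h1 | h1
    · exact h1
    rcases ZFSet.mem_insert_iff.1 h2 with h2 | h2
    · exact h2.symm
    exact absurd h2 (ZFSet.mem_asymm h1)
  have hins : ∀ a : ZFSet.{0}, (insert a a : ZFSet.{0}) ≠ ∅ := fun a h =>
    ZFSet.notMem_empty a (h ▸ ZFSet.mem_insert _ _)
  refine Inj.of_rel hM (hM.insert_mem hx hT) hω
    (R := fun a b => (a = x ∧ b = ∅) ∨
      (¬ a = x ∧ ∃ c ∈ ZFSet.omega, pair a c ∈ f ∧ b = insert c c)) hR ?_ ?_ ?_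
  · intro a ha
    by_cases hax : a = x
    · exact ⟨∅, ZFSet.omega_zero, Or.inl ⟨hax, rfl⟩⟩
    · rcases ZFSet.mem_insert_iff.1 ha with ha | ha
      · exact absurd ha hax
      obtain ⟨b, hb, h3⟩ := fun_exists h.1 ha
      exact ⟨_, ZFSet.omega_succ hb, Or.inr ⟨hax, b, hb, h3, rfl⟩⟩
  · rintro a - b - b' - (⟨h1, rfl⟩ | ⟨h1, c, -, h2, rfl⟩) (⟨h3, rfl⟩ | ⟨h3, d, -, h4, rfl⟩)
    · rfl
    · exact absurd h1 h3
    · exact absurd h3 h1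
    · rw [fun_unique h.1 h2 h4]
  · rintro a - a' - b - (⟨h1, rfl⟩ | ⟨h1, c, -, h2, rfl⟩) (⟨h3, h4⟩ | ⟨h3, d, -, h4, h5⟩)
    · rw [h1, h3]
    · exact absurd h5.symm (hins _)
    · exact absurd h4 (hins _)
    · have := hsc _ _ h5
      subst this
      exact h.2 _ _ _ h2 h4

/-- A set in `M` that is a subset of a countable transitive set of `M` is hereditarily
countable in `M`. -/
theorem pc_hct_of_subset {M : Set ZFSet.{0}} (hM : IsZF M) {T b : ZFSet.{0}} (hT : T ∈ M)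
    (hTt : Tra T) (hi : Inj M T ZFSet.omega) (hb : b ∈ M) (h : b ⊆ T) : HCt M b := by
  refine ⟨insert b T, hM.insert_mem hb hT, ?_, ZFSet.mem_insert _ _, pc_inj_insert hM hT hb hi⟩
  intro x hx y hy
  rcases ZFSet.mem_insert_iff.1 hx with rfl | hx
  · exact ZFSet.mem_insert_of_mem _ (h hy)
  · exact ZFSet.mem_insert_of_mem _ (hTt x hx y hy)

theorem pc_hct_mem {M : Set ZFSet.{0}} (hM : IsZF M) {a : ZFSet.{0}} (h : HCt M a) : a ∈ M := by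
  obtain ⟨T, hT, -, haT, -⟩ := h
  exact hM.trans _ hT _ haT

theorem pc_hct_sub {M : Set ZFSet.{0}} (hM : IsZF M) {a b : ZFSet.{0}} (h : HCt M a)
    (hb : b ∈ M) (hba : b ⊆ a) : HCt M b := by
  obtain ⟨T, hT, hTt, haT, hi⟩ := h
  exact pc_hct_of_subset hM hT hTt hi hb fun x hx => hTt a haT x (hba hx)

theorem pc_hct_empty {M : Set ZFSet.{0}} (hM : IsZF M) : HCt M ∅ := by
  refine ⟨ZFSet.omega, hM.infinity, fun x hx y hy => ?_, ZFSet.omega_zero,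
    Inj.of_subset hM hM.infinity hM.infinity fun _ h => h⟩
  exact isOrdinal_omega.mem_trans hy hx

theorem pc_rs_mem {M : Set ZFSet.{0}} (hM : IsZF M) {c ξ : ZFSet.{0}} (hc : c ∈ M) (hξ : ξ ∈ M) :
    rs c ξ ∈ M :=
  hM.sep_mem (Q := fun p => fs p ∈ ξ) (Dfn.mem (hM.fs' (DfnF.proj 0)) (DfnF.const hξ)) hc

theorem pc_ln_mem {M : Set ZFSet.{0}} (hM : IsZF M) {c : ZFSet.{0}} (hc : c ∈ M) : ln c ∈ M :=
  hM.im_mem hc (hM.fs' (DfnF.proj 0))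

theorem pc_rg_mem {M : Set ZFSet.{0}} (hM : IsZF M) {c ξ : ZFSet.{0}} (hc : c ∈ M) (hξ : ξ ∈ M) :
    rg c ξ ∈ M :=
  hM.im_mem (pc_rs_mem hM hc hξ) (hM.sn' (DfnF.proj 0))

theorem pc_hct_ln {M : Set ZFSet.{0}} (hM : IsZF M) {c : ZFSet.{0}} (h : HCt M c)
    (hp : pc_IsPs c) : HCt M (ln c) := by
  obtain ⟨T, hT, hTt, hcT, hi⟩ := h
  refine pc_hct_of_subset hM hT hTt hi (pc_ln_mem hM (hM.trans _ hT _ hcT)) fun j hj => ?_
  obtain ⟨r, hr⟩ := (pc_mem_ln hp).1 hj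
  have h1 : ({j} : ZFSet.{0}) ∈ T := hTt _ (hTt _ hcT _ hr) _ (by simp [pair])
  exact hTt _ h1 _ (by simp)

theorem pc_hct_pw {M : Set ZFSet.{0}} (hM : IsZF M) (h2 : S_HC2) {r : ZFSet.{0}}
    (hr : r ∈ PW M) : HCt M r := by
  have h3 := h2.1 M hM
  obtain ⟨h4, h5⟩ := ZFSet.mem_sep.1 hr
  exact pc_hct_sub hM h3.2.2.2.2 h5 (ZFSet.mem_powerset.1 h4)

/-! ### Fast sequences -/

/-- A form of the definition that does not mention `δ`. -/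
theorem pc_iff {M : Set ZFSet.{0}} {c : ZFSet.{0}} : Pc M c ↔ HCt M c ∧ (ln c).IsOrdinal ∧
    ZFSet.IsFunc (ln c) (PW M) c ∧ ∀ ξ ∈ sc (ln c), Lim ξ → ∃ η G ζ₀, HCt M η ∧ Wt c ξ η G ζ₀ := by
  constructor
  · rintro ⟨h1, δ, h2, h3, h4⟩
    rw [pc_ln_eq h3]
    exact ⟨h1, h2, h3, h4⟩
  · rintro ⟨h1, h2, h3, h4⟩
    exact ⟨h1, _, h2, h3, h4⟩

theorem pc_hct {M : Set ZFSet.{0}} {c : ZFSet.{0}} (h : Pc M c) : HCt M c := h.1
theorem pc_ord {M : Set ZFSet.{0}} {c : ZFSet.{0}} (h : Pc M c) : (ln c).IsOrdinal :=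
  (pc_iff.1 h).2.1
theorem pc_func {M : Set ZFSet.{0}} {c : ZFSet.{0}} (h : Pc M c) :
    ZFSet.IsFunc (ln c) (PW M) c := (pc_iff.1 h).2.2.1
theorem pc_isPs {M : Set ZFSet.{0}} {c : ZFSet.{0}} (h : Pc M c) : pc_IsPs c :=
  pc_isPs_of_func (pc_func h)
theorem pc_lim {M : Set ZFSet.{0}} {c : ZFSet.{0}} (h : Pc M c) : ∀ ξ ∈ sc (ln c), Lim ξ →
    ∃ η G ζ₀, HCt M η ∧ Wt c ξ η G ζ₀ := (pc_iff.1 h).2.2.2

/-- The values are unique. -/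
theorem pc_unique {M : Set ZFSet.{0}} {c j r r' : ZFSet.{0}} (h : Pc M c) (h1 : pair j r ∈ c)
    (h2 : pair j r' ∈ c) : r = r' := fun_unique (pc_func h) h1 h2

/-- The values exist. -/
theorem pc_exists {M : Set ZFSet.{0}} {c j : ZFSet.{0}} (h : Pc M c) (hj : j ∈ ln c) :
    ∃ r ∈ PW M, pair j r ∈ c := fun_exists (pc_func h) hj

theorem pc_dom {M : Set ZFSet.{0}} {c j r : ZFSet.{0}} (h : Pc M c) (hr : pair j r ∈ c) :
    j ∈ ln c ∧ r ∈ PW M := ZFSet.pair_mem_prod.1 ((pc_func h).1 hr)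

theorem pc_empty {M : Set ZFSet.{0}} (hM : IsZF M) : Pc M ∅ := by
  refine ⟨pc_hct_empty hM, ∅, ZFSet.isOrdinal_empty, ⟨fun p hp => absurd hp (ZFSet.notMem_empty _),
    fun p hp => absurd hp (ZFSet.notMem_empty _)⟩, fun ξ hξ hl => ?_⟩
  rcases pc_mem_sc.1 hξ with rfl | h
  · exact absurd rfl hl.2.1
  · exact absurd h (ZFSet.notMem_empty _)

theorem pc_sc_subset {ξ δ : ZFSet.{0}} (hδ : δ.IsOrdinal) (h : ξ ∈ sc δ) : ξ ⊆ δ := by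
  rcases pc_mem_sc.1 h with rfl | h
  · exact fun _ h => h
  · exact hδ.subset_of_mem h

theorem pc_sc_ord {ξ δ : ZFSet.{0}} (hδ : δ.IsOrdinal) (h : ξ ∈ sc δ) : ξ.IsOrdinal := by
  rcases pc_mem_sc.1 h with rfl | h
  · exact hδ
  · exact hδ.mem h

theorem pc_mem_sc_of_subset {ξ δ : ZFSet.{0}} (hξ : ξ.IsOrdinal) (hδ : δ.IsOrdinal)
    (h : ξ ⊆ δ) : ξ ∈ sc δ := by
  rcases (hξ.subset_iff_eq_or_mem hδ).1 h with h | h
  · exact pc_mem_sc.2 (Or.inl h)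
  · exact pc_mem_sc.2 (Or.inr h)

theorem pc_rs {M : Set ZFSet.{0}} (hM : IsZF M) {c ξ : ZFSet.{0}} (h : Pc M c)
    (hξ : ξ ∈ sc (ln c)) : Pc M (rs c ξ) ∧ ln (rs c ξ) = ξ := by
  have h1 := pc_ord h
  have h2 := pc_func_rs (pc_func h) (pc_sc_subset h1 hξ)
  have h3 : ξ ∈ M := by
    rcases pc_mem_sc.1 hξ with rfl | h4
    · exact pc_ln_mem hM (pc_hct_mem hM h.1)
    · exact hM.trans _ (pc_ln_mem hM (pc_hct_mem hM h.1)) _ h4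
  refine ⟨⟨pc_hct_sub hM h.1 (pc_rs_mem hM (pc_hct_mem hM h.1) h3) pc_rs_subset, ξ,
    pc_sc_ord h1 hξ, h2, fun ζ hζ hl => ?_⟩, pc_ln_eq h2⟩
  have h4 : ζ ∈ sc (ln c) := by
    refine pc_mem_sc_of_subset hl.1 h1 fun x hx => ?_
    exact pc_sc_subset h1 hξ (pc_sc_subset (pc_sc_ord h1 hξ) hζ hx)
  obtain ⟨η, G, z, h5, h6⟩ := pc_lim h ζ h4 hl
  exact ⟨η, G, z, h5, (pc_wt_rs (pc_isPs h) hl.1 (pc_sc_subset (pc_sc_ord h1 hξ) hζ)).2 h6⟩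

theorem pc_ad {M : Set ZFSet.{0}} (hM : IsZF M) (h2 : S_HC2) {c r : ZFSet.{0}} (h : Pc M c)
    (hr : r ∈ PW M) : Pc M (ad c r) ∧ ln (ad c r) = sc (ln c) ∧ c ⊆ ad c r := by
  have h3 := h2.1 M hM
  have h4 := pc_func_ad (pc_func h) hr
  have h5 : c ⊆ ad c r := fun p hp => ZFSet.mem_insert_of_mem _ hp
  refine ⟨⟨?_, sc (ln c), isOrdinal_sc (pc_ord h), h4, fun ξ hξ hl => ?_⟩, pc_ln_eq h4, h5⟩
  · exact (h3.1 _ _ (h3.1 _ _ (pc_hct_ln hM h.1 (pc_isPs h)) (pc_hct_pw hM h2 hr)).1 h.1).2.2.1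
  · rcases pc_mem_sc.1 hξ with rfl | hξ
    · exact absurd (hl.2.2 (ln c) (pc_mem_sc.2 (Or.inl rfl))) (ZFSet.mem_irrefl _)
    · obtain ⟨η, G, z, h6, h7⟩ := pc_lim h ξ hξ hl
      exact ⟨η, G, z, h6, (pc_wt_ext (pc_func h) h4 h5 hl.1 (pc_sc_subset (pc_ord h) hξ)).1 h7⟩

theorem pc_rs_eq {M M' : Set ZFSet.{0}} {c c' : ZFSet.{0}} (h : Pc M c) (h' : Pc M' c')
    (hcc : c ⊆ c') : ln c ∈ sc (ln c') ∧ rs c' (ln c) = c :=
  ⟨pc_mem_sc_of_subset (pc_ord h) (pc_ord h') (pc_ln_mono hcc),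
    pc_rs_of_subset (pc_func h) (pc_func h') hcc⟩

theorem pc_comparable {M : Set ZFSet.{0}} {c c' d : ZFSet.{0}} (h : Pc M c) (h' : Pc M c')
    (hd : Pc M d) (hc : c ⊆ d) (hc' : c' ⊆ d) : c ⊆ c' ∨ c' ⊆ c := by
  rw [← (pc_rs_eq h hd hc).2, ← (pc_rs_eq h' hd hc').2]
  rcases (pc_ord h).subset_total (pc_ord h') with h1 | h1
  · exact Or.inl (pc_rs_mono h1)
  · exact Or.inr (pc_rs_mono h1)

/-- Agreement of the values of comparable sequences. -/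
theorem pc_agree {M : Set ZFSet.{0}} {c c' j r r' : ZFSet.{0}} (h : Pc M c) (h' : Pc M c')
    (hcc : c ⊆ c' ∨ c' ⊆ c) (h1 : pair j r ∈ c) (h2 : pair j r' ∈ c') : r = r' := by
  rcases hcc with h3 | h3
  · exact pc_unique h' (h3 h1) h2
  · exact pc_unique h h1 (h3 h2)

/-- Sequences that agree and are comparable in length are comparable. -/
theorem pc_subset_of_ln {M : Set ZFSet.{0}} {c c' : ZFSet.{0}} (h : Pc M c) (h' : Pc M c')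
    (hcc : c ⊆ c' ∨ c' ⊆ c) (hl : ln c ⊆ ln c') : c ⊆ c' := by
  rcases hcc with h1 | h1
  · exact h1
  · intro p hp
    obtain ⟨a, b, rfl⟩ := pc_isPs h p hp
    obtain ⟨b', -, hb'⟩ := pc_exists h' (hl (pc_dom h hp).1)
    rw [pc_unique h hp (h1 hb')]
    exact hb'

/-! ### Unions of chains -/

/-- `K` is a chain of fast sequences of `M`. -/
def pc_Chain (M : Set ZFSet.{0}) (K : ZFSet.{0}) : Prop :=
  (∀ c ∈ K, Pc M c) ∧ ∀ c ∈ K, ∀ c' ∈ K, c ⊆ c' ∨ c' ⊆ c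

theorem pc_chain_isPs {M : Set ZFSet.{0}} {K : ZFSet.{0}} (h : pc_Chain M K) :
    pc_IsPs (ZFSet.sUnion K : ZFSet.{0}) := by
  intro p hp
  obtain ⟨c, hc, hp⟩ := ZFSet.mem_sUnion.1 hp
  exact pc_isPs (h.1 c hc) p hp

theorem pc_chain_ln {M : Set ZFSet.{0}} {K j : ZFSet.{0}} (h : pc_Chain M K) :
    j ∈ ln (ZFSet.sUnion K : ZFSet.{0}) ↔ ∃ c ∈ K, j ∈ ln c := by
  rw [pc_mem_ln (pc_chain_isPs h)]
  constructor
  · rintro ⟨r, hr⟩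
    obtain ⟨c, hc, hr⟩ := ZFSet.mem_sUnion.1 hr
    exact ⟨c, hc, (pc_mem_ln (pc_isPs (h.1 c hc))).2 ⟨r, hr⟩⟩
  · rintro ⟨c, hc, hj⟩
    obtain ⟨r, hr⟩ := (pc_mem_ln (pc_isPs (h.1 c hc))).1 hj
    exact ⟨r, ZFSet.mem_sUnion.2 ⟨c, hc, hr⟩⟩

theorem pc_chain_ord {M : Set ZFSet.{0}} {K : ZFSet.{0}} (h : pc_Chain M K) :
    (ln (ZFSet.sUnion K : ZFSet.{0})).IsOrdinal := by
  refine ⟨fun x hx y hy => ?_, fun hx hy hz => ?_⟩
  · obtain ⟨c, hc, hx⟩ := (pc_chain_ln h).1 hx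
    exact (pc_chain_ln h).2 ⟨c, hc, (pc_ord (h.1 c hc)).mem_trans hy hx⟩
  · obtain ⟨c, hc, hz⟩ := (pc_chain_ln h).1 hz
    exact ((pc_ord (h.1 c hc)).mem hz).mem_trans hx hy

theorem pc_chain_func {M : Set ZFSet.{0}} {K : ZFSet.{0}} (h : pc_Chain M K) :
    ZFSet.IsFunc (ln (ZFSet.sUnion K : ZFSet.{0})) (PW M) (ZFSet.sUnion K) := by
  refine ⟨fun p hp => ?_, fun j hj => ?_⟩
  · obtain ⟨c, hc, hp⟩ := ZFSet.mem_sUnion.1 hp
    obtain ⟨a, b, rfl⟩ := pc_isPs (h.1 c hc) p hp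
    have h1 := pc_dom (h.1 c hc) hp
    exact ZFSet.pair_mem_prod.2 ⟨(pc_chain_ln h).2 ⟨c, hc, h1.1⟩, h1.2⟩
  · obtain ⟨c, hc, hj⟩ := (pc_chain_ln h).1 hj
    obtain ⟨r, -, hr⟩ := pc_exists (h.1 c hc) hj
    refine ⟨r, ZFSet.mem_sUnion.2 ⟨c, hc, hr⟩, fun r' hr' => ?_⟩
    obtain ⟨c', hc', hr'⟩ := ZFSet.mem_sUnion.1 hr'
    exact pc_agree (h.1 c' hc') (h.1 c hc) (h.2 c' hc' c hc) hr' hr

theorem pc_chain_subset {K c : ZFSet.{0}} (hc : c ∈ K) : c ⊆ (ZFSet.sUnion K : ZFSet.{0}) :=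
  fun _ hp => ZFSet.mem_sUnion.2 ⟨c, hc, hp⟩

/-- The union of a chain is a fast sequence if it is hereditarily countable and fast at its
length. -/
theorem pc_chain {M : Set ZFSet.{0}} {K : ZFSet.{0}} (h : pc_Chain M K)
    (h1 : HCt M (ZFSet.sUnion K : ZFSet.{0})) (h2 : Lim (ln (ZFSet.sUnion K : ZFSet.{0})) →
      ∃ η G ζ₀, HCt M η ∧ Wt (ZFSet.sUnion K) (ln (ZFSet.sUnion K : ZFSet.{0})) η G ζ₀) :
    Pc M (ZFSet.sUnion K) := by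
  refine pc_iff.2 ⟨h1, pc_chain_ord h, pc_chain_func h, fun ξ hξ hl => ?_⟩
  rcases pc_mem_sc.1 hξ with rfl | hξ
  · exact h2 hl
  · obtain ⟨c, hc, hj⟩ := (pc_chain_ln h).1 hξ
    obtain ⟨η, G, z, h3, h4⟩ := pc_lim (h.1 c hc) ξ (pc_mem_sc.2 (Or.inr hj)) hl
    exact ⟨η, G, z, h3, (pc_wt_ext (pc_func (h.1 c hc)) (pc_chain_func h) (pc_chain_subset hc)
      hl.1 ((pc_ord (h.1 c hc)).subset_of_mem hj)).1 h4⟩

theorem pC : S_HC → S_HC2 → S_PC := by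
  intro _ h2 M hM
  refine ⟨pc_empty hM, pc_ln_empty, fun c hc => ⟨pc_ord hc, pc_hct_ln hM hc.1 (pc_isPs hc),
    pc_func hc⟩, fun c hc ξ hξ => ⟨(pc_rs hM hc hξ).1, (pc_rs hM hc hξ).2, pc_rs_subset⟩,
    fun c hc r hr => pc_ad hM h2 hc hr, fun c c' hc hc' hcc => pc_rs_eq hc hc' hcc,
    fun c c' d hc hc' hd h3 h4 => pc_comparable hc hc' hd h3 h4⟩

end Pool.Agent.H637_NO
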