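import Pool.Agent.H637_NO.C3a
import Pool.Agent.H637_NO.PC

/-!
# New orbits: the sets used in the proof of properness
-/

set_option autoImplicit false
set_option linter.unreachableTactic false
set_option linter.unusedTactic false

namespace Pool.Agent.H637_NO

open Pool.Agent.W868 Pool.Agent.W868.GM Pool.Agent.Y588 Pool.Agent.R597
open ZFSet (pair)

/-- `f` has the value `b` at `a`, and no other. -/
def Vf (f a b : ZFSet.{0}) : Prop := pair a b ∈ f ∧ ∀ b', pair a b' ∈ f → b' = b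

/-- Choice of the values of a function. -/
theorem choice_fun {V : Set ZFSet.{0}} (hV : IsZFC V) {x y : ZFSet.{0}} (hx : x ∈ V) (hy : y ∈ V)
    {R : ZFSet.{0} → ZFSet.{0} → Prop}
    (hR : Dfn V V fun w : Fin 2 → ZFSet.{0} => R (w 0) (w 1))
    (h : ∀ a ∈ x, ∃ b ∈ y, R a b) :
    ∃ f ∈ V, ∀ a ∈ x, ∃ b ∈ y, Vf f a b ∧ R a b := by
  have hZ := hV.toIsZF
  have h1 : DfnF V V fun w : Fin 1 → ZFSet.{0} => ZFSet.sep (fun b => R (w 0) b) y := by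
    refine hZ.sep' (Q := fun b w => R (w 0) b) (DfnF.const hy) ?_
    exact Dfn.comp2 (Q := R) hR (DfnF.proj 1) (DfnF.proj 0)
  obtain ⟨f, hf, h2, h3⟩ := exists_choice hV hx (F := fun a => ZFSet.sep (fun b => R a b) y) h1 (by
    intro a ha
    obtain ⟨b, hb, h2⟩ := h a ha
    exact ⟨b, ZFSet.mem_sep.2 ⟨hb, h2⟩⟩)
  refine ⟨f, hf, fun a ha => ?_⟩
  obtain ⟨b, -, hab⟩ := fun_exists h2 ha
  have h4 := h3 a ha
  rw [ap_func h2 hab, ZFSet.mem_sep] at h4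
  exact ⟨b, h4.1, ⟨hab, fun b' hb' => fun_unique h2 hb' hab⟩, h4.2⟩

theorem hct_mem {M : Set ZFSet.{0}} (hM : IsZF M) {z : ZFSet.{0}} (h : HCt M z) : z ∈ M := by
  obtain ⟨T, hT, -, h1, -⟩ := h
  exact hM.trans _ hT _ h1

section

variable {V : Set ZFSet.{0}} (hG : GoodV V)

include hG

/-- Decoding of the conditions. -/
theorem exists_Dc (hC : S_HC) (hRW : S_RW) (hR : S_RWd) (hW : S_WD) (h1 : S_C1) :
    ∃ Dc ∈ V, ∀ p a, pair p a ∈ Dc ↔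
      ∃ z c s F, p = rl z ∧ Cz V z c s F ∧ a = pair c (pair s F) := by
  have hV := hG.zfc
  have hM := hV.toIsZF
  have hB := hM.base
  obtain ⟨h, hh, h2⟩ := (hC V hM).1
  have hP := (h1 V hG).1.mem
  have h3 : Dfn V V fun w : Fin 2 → ZFSet.{0} => ∃ d ∈ V, ∃ c ∈ V, ∃ s ∈ V, ∃ F ∈ V,
      w 1 = pair c (pair s F) ∧ (∃ z ∈ Reals V, w 0 = rl z ∧ d = rw' z) ∧
      (d ∈ PW V ∧ Cod d (w 1)) ∧ Cd V c s F := by
    apply Dfn.ex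
    apply Dfn.ex
    apply Dfn.ex
    apply Dfn.ex
    apply Dfn.and
    · exact Dfn.eq (DfnF.proj 5) (hB.pair' (DfnF.proj 2) (hB.pair' (DfnF.proj 1) (DfnF.proj 0)))
    apply Dfn.and
    · exact Dfn.comp2 (Q := fun a b => ∃ z ∈ Reals V, a = rl z ∧ b = rw' z) (hR V hM)
        (DfnF.proj 4) (DfnF.proj 3)
    apply Dfn.and
    · exact dfn_Cod hM hC (DfnF.proj 3) (DfnF.proj 5)
    · exact dfn_Cd hV hC hW (DfnF.proj 2) (DfnF.proj 1) (DfnF.proj 0)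
  obtain ⟨Dc, hDc, -, h4⟩ := hM.rel_mem hP hh (Q := fun p a => ∃ d ∈ V, ∃ c ∈ V, ∃ s ∈ V, ∃ F ∈ V,
      a = pair c (pair s F) ∧ (∃ z ∈ Reals V, p = rl z ∧ d = rw' z) ∧
      (d ∈ PW V ∧ Cod d a) ∧ Cd V c s F) h3
  refine ⟨Dc, hDc, fun p a => ?_⟩
  rw [h4]
  constructor
  · rintro ⟨-, -, d, -, c, -, s, -, F, -, rfl, ⟨z, hz, rfl, rfl⟩, ⟨-, h5⟩, h6⟩
    exact ⟨z, c, s, F, rfl, ⟨hz, h5, h6⟩, rfl⟩
  · rintro ⟨z, c, s, F, rfl, h5, rfl⟩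
    have h6 := ((h1 V hG).2.1 c s F h5.2.2).1
    have h7 := hct_mem hM h6
    have h8 := hM.of_pair_mem h7
    have h9 := hM.of_pair_mem h8.2
    have h10 : rw' z ∈ PW V := (hRW V hM).1 z h5.1
    refine ⟨((h1 V hG).2.2.1 z h5.1).2 ⟨c, s, F, h5⟩, (h2 _).2 h6, rw' z, ?_, c, h8.1, s, h9.1, F,
      h9.2, rfl, ⟨z, h5.1, rfl, rfl⟩, ⟨h10, h5.2.1⟩, h5.2.2⟩
    exact (mem_PW.1 h10).1

end

/-! ### Tasks -/

/-- Some condition in `D` has the components `c`, `s`. -/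
def InD (Dc D c s : ZFSet.{0}) : Prop := ∃ p' F, p' ∈ D ∧ pair p' (pair c (pair s F)) ∈ Dc

/-- The sequence `c'` meets the task `t`. -/
def TE (p₀ Dc t c' : ZFSet.{0}) : Prop :=
  (InD Dc (fs t) c' (fs (sn t)) ∨ ¬ ∃ c2 ∈ p₀, c' ⊆ c2 ∧ InD Dc (fs t) c2 (fs (sn t))) ∧
    fs (sn (sn t)) ∈ rg c' (ln c') ∧ sn (sn (sn t)) ∈ ln c'

theorem dfn_InD {V : Set ZFSet.{0}} (hM : IsZF V) {n : ℕ}
    {F G H K : (Fin n → ZFSet.{0}) → ZFSet.{0}} (hF : DfnF V V F) (hG : DfnF V V G)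
    (hH : DfnF V V H) (hK : DfnF V V K) : Dfn V V fun v => InD (F v) (G v) (H v) (K v) := by
  have hB := hM.base
  have h1 : Dfn V V fun v => ∃ p' ∈ V, ∃ F1 ∈ V, p' ∈ G v ∧
      pair p' (pair (H v) (pair (K v) F1)) ∈ F v := by
    apply Dfn.ex
    apply Dfn.ex
    apply Dfn.and (Dfn.mem (DfnF.proj 1) hG.tail.tail)
    exact Dfn.mem (hB.pair' (DfnF.proj 1) (hB.pair' hH.tail.tail (hB.pair' hK.tail.tail
      (DfnF.proj 0)))) hF.tail.tail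
  refine h1.congr fun v hv => ?_
  constructor
  · rintro ⟨p', -, F1, -, h2, h3⟩
    exact ⟨p', F1, h2, h3⟩
  · rintro ⟨p', F1, h2, h3⟩
    have h4 := hM.of_pair_mem (hM.trans _ (hF.1 v hv) _ h3)
    have h5 := hM.of_pair_mem (hM.of_pair_mem h4.2).2
    exact ⟨p', h4.1, F1, h5.2, h2, h3⟩

theorem dfn_TE {V : Set ZFSet.{0}} (hM : IsZF V) {p₀ Dc : ZFSet.{0}} (hp : p₀ ∈ V)
    (hD : Dc ∈ V) {n : ℕ} {F G : (Fin n → ZFSet.{0}) → ZFSet.{0}} (hF : DfnF V V F)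
    (hG : DfnF V V G) : Dfn V V fun v => TE p₀ Dc (F v) (G v) := by
  have hB := hM.base
  unfold TE
  apply Dfn.and
  · apply Dfn.or
    · exact dfn_InD hM (DfnF.const hD) (hM.fs' hF) hG (hM.fs' (hM.sn' hF))
    · apply Dfn.not
      apply hB.bex (DfnF.const hp)
      apply Dfn.and (hB.subset' hG.tail (DfnF.proj 0))
      exact dfn_InD hM (DfnF.const hD) (hM.fs' hF.tail) (DfnF.proj 0) (hM.fs' (hM.sn' hF.tail))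
  · apply Dfn.and
    · exact Dfn.mem (hM.fs' (hM.sn' (hM.sn' hF))) (dfn_rg hM hG (dfn_ln hM hG))
    · exact Dfn.mem (hM.sn' (hM.sn' (hM.sn' hF))) (dfn_ln hM hG)

/-- The sets used in the proof of properness. -/
structure Par (V : Set ZFSet.{0}) (o B p₀ Dc Tk E Ch Cl Bi J Q QF PP : ZFSet.{0}) : Prop where
  ho : ∀ z, z ∈ o ↔ HCt V z ∧ z.IsOrdinal
  Bf : ZFSet.IsFunc o (PW V) B
  Bp : ∀ ξ ∈ o, Pc V (rs B ξ)
  hp : ∀ c, c ∈ p₀ ↔ Pc V c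
  hD : ∀ p a, pair p a ∈ Dc ↔ ∃ z c s F, p = rl z ∧ Cz V z c s F ∧ a = pair c (pair s F)
  hPP : ∀ D, D ∈ PP ↔ D ∈ V ∧ D ⊆ Pf V
  hT : Tk = ZFSet.prod PP (ZFSet.prod QF (ZFSet.prod (PW V) o))
  hE : ∀ a b, pair a b ∈ E ↔ a ∈ Tk ∧ b ∈ p₀ ∧ TE p₀ Dc a b
  hCh : ∀ t ∈ Tk, ∀ c ∈ p₀, ∀ r ∈ PW V, ∃ c' ∈ p₀, Vf Ch (pair t (pair c r)) c' ∧ c ⊆ c' ∧
    pair (ln c) r ∈ c' ∧ pair t c' ∈ E
  hCl : ∀ t ∈ Tk, ∀ c ∈ p₀, ∀ ζ ∈ o, ∃ ζ' ∈ o, Vf Cl (pair t (pair c ζ)) ζ' ∧ ζ ∈ ζ' ∧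
    ∀ j ∈ ζ', ∀ r c', pair j r ∈ B → Vf Ch (pair t (pair c r)) c' → ln c' ∈ ζ'
  hBi : ∀ r ∈ PW V, ∃ j ∈ o, Vf Bi r j ∧ pair j r ∈ B
  hJ : ∀ z ∈ insert QF (insert Q o), ∃ f, Vf J z f ∧ IsInj z ZFSet.omega f
  hQ : ∀ u, u ∈ Q ↔ IsQ u
  hQF : ∀ s, s ∈ QF ↔ s ⊆ Q ∧ Fi V s

section

variable {V : Set ZFSet.{0}} (hG : GoodV V)

include hG

theorem exists_p (hC : S_HC) (hW : S_WD) : ∃ p₀ ∈ V, ∀ c, c ∈ p₀ ↔ Pc V c := by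
  have hV := hG.zfc
  have hM := hV.toIsZF
  obtain ⟨h, hh, h2⟩ := (hC V hM).1
  refine ⟨ZFSet.sep (fun c => Pc V c) h, hM.sep_mem (dfn_Pc hV hW (DfnF.proj 0)) hh, fun c => ?_⟩
  rw [ZFSet.mem_sep, h2]
  exact ⟨fun h => h.2, fun h => ⟨h.1, h⟩⟩

/-- Extension of sequences to meet a task. -/
theorem exists_TE (hC2 : S_HC2) {p₀ Dc t c r : ZFSet.{0}} (hp : ∀ c, c ∈ p₀ ↔ Pc V c)
    (ht : fs (sn (sn t)) ∈ PW V) (ht' : HCt V (sn (sn (sn t))))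
    (hto : (sn (sn (sn t))).IsOrdinal) (hc : c ∈ p₀) (hr : r ∈ PW V) :
    ∃ c' ∈ p₀, c ⊆ c' ∧ pair (ln c) r ∈ c' ∧ TE p₀ Dc t c' := by
  have hV := hG.zfc
  have hM := hV.toIsZF
  have h1 := (hp c).1 hc
  obtain ⟨h2, h3, h4⟩ := pc_ad hM hC2 h1 hr
  obtain ⟨h5, h6, h7⟩ := pc_ad hM hC2 h2 ht
  obtain ⟨c2, h8, h9, h10⟩ := hG.ext _ h5 _ ht' hto
  have h11 : pair (ln c) r ∈ c2 := h9 (h7 (ZFSet.mem_insert _ _))
  have h12 : pair (ln (ad c r)) (fs (sn (sn t))) ∈ c2 := h9 (ZFSet.mem_insert _ _)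
  have hc2 : c ⊆ c2 := fun x hx => h9 (h7 (h4 hx))
  have key : ∀ c3, Pc V c3 → c2 ⊆ c3 → fs (sn (sn t)) ∈ rg c3 (ln c3) ∧
      sn (sn (sn t)) ∈ ln c3 := by
    intro c3 h13 h14
    constructor
    · rw [pc_mem_rg (pc_isPs h13)]
      exact ⟨_, (pc_dom h13 (h14 h12)).1, h14 h12⟩
    · exact pc_ln_mono h14 h10
  by_cases h13 : ∃ c3 ∈ p₀, c2 ⊆ c3 ∧ InD Dc (fs t) c3 (fs (sn t))
  · obtain ⟨c3, h14, h15, h16⟩ := h13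
    refine ⟨c3, h14, fun x hx => h15 (hc2 hx), h15 h11, Or.inl h16, ?_⟩
    exact key c3 ((hp c3).1 h14) h15
  · exact ⟨c2, (hp c2).2 h8, hc2, h11, Or.inr h13, key c2 h8 (fun _ h => h)⟩

end

end Pool.Agent.H637_NO
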