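import Pool.Agent.H637_NO.C3b

/-!
# New orbits: the sets used in the proof of properness, continued
-/

set_option autoImplicit false
set_option linter.unreachableTactic false
set_option linter.unusedTactic false

namespace Pool.Agent.H637_NO

open Pool.Agent.W868 Pool.Agent.W868.GM Pool.Agent.Y588 Pool.Agent.R597
open ZFSet (pair)

theorem hct_sub_of {V : Set ZFSet.{0}} (hM : IsZF V) {T b : ZFSet.{0}} (hT : T ∈ V)
    (hTt : Tra T) (hi : Inj V T ZFSet.omega) (hb : b ∈ V) (h : b ⊆ T) : HCt V b :=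
  pc_hct_of_subset hM hT hTt hi hb h

theorem hct_sUnion {V : Set ZFSet.{0}} (hM : IsZF V) {a : ZFSet.{0}} (h : HCt V a) :
    HCt V (ZFSet.sUnion a : ZFSet.{0}) := by
  obtain ⟨T, hT, h1, h2, h3⟩ := h
  refine hct_sub_of hM hT h1 h3 (hM.union _ (hM.trans _ hT _ h2)) fun x hx => ?_
  obtain ⟨y, hy, hx⟩ := ZFSet.mem_sUnion.1 hx
  exact h1 y (h1 a h2 y hy) x hx

/-- Closure points. -/
theorem exists_close {V : Set ZFSet.{0}} (hV : IsZFC V) (hC2 : S_HC2) {o ζ₀ : ZFSet.{0}}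
    (ho : ∀ z, z ∈ o ↔ HCt V z ∧ z.IsOrdinal) (hζ : ζ₀ ∈ o) {f : ZFSet.{0} → ZFSet.{0}}
    (hf : DfnF V V fun w : Fin 1 → ZFSet.{0} => f (w 0)) (hfo : ∀ j ∈ o, f j ∈ o) :
    ∃ ζ ∈ o, ζ₀ ∈ ζ ∧ ∀ j ∈ ζ, f j ∈ ζ := by
  have hM := hV.toIsZF
  have hB := hM.base
  set T : ZFSet.{0} → ZFSet.{0} := fun z => sc z ∪ ZFSet.sUnion (im (fun j => sc (f j)) z) with hT
  have hTd : DfnF V V fun w : Fin 1 → ZFSet.{0} => T (w 0) := by
    refine hB.union' (hB.insert' (DfnF.proj 0) (DfnF.proj 0)) (hB.sUnion' ?_)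
    refine hM.im' (h := fun j _ => sc (f j)) (DfnF.proj 0) ?_
    have h1 : DfnF V V fun w : Fin 2 → ZFSet.{0} => f (w 0) := DfnF.comp1 (f := f) hf (DfnF.proj 0)
    exact hB.insert' h1 h1
  have hsub : ∀ z, ∀ j ∈ z, f j ∈ T z := by
    intro z j hj
    refine ZFSet.mem_union.2 (Or.inr (ZFSet.mem_sUnion.2 ⟨sc (f j), ?_, ZFSet.mem_insert _ _⟩))
    exact mem_im.2 ⟨j, hj, rfl⟩
  have hot : ∀ z ∈ o, ∀ y ∈ z, y ∈ o := by
    intro z hz y hy
    obtain ⟨h1, h2⟩ := (ho z).1 hz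
    exact (ho y).2 ⟨((hC2.1 V hM).2.2.1 z h1).2.2 y hy, h2.mem hy⟩
  have hsco : ∀ z ∈ o, sc z ∈ o := by
    intro z hz
    obtain ⟨h1, h2⟩ := (ho z).1 hz
    exact (ho _).2 ⟨((hC2.1 V hM).1 z z h1 h1).2.2.1, isOrdinal_sc h2⟩
  -- countable unions
  have hun : ∀ (z : ZFSet.{0}) (g : ZFSet.{0} → ZFSet.{0}), HCt V z →
      (DfnF V V fun w : Fin 1 → ZFSet.{0} => g (w 0)) → (∀ j ∈ z, g j ∈ o) →
      ZFSet.sUnion (im g z) ∈ o := by
    intro z g hz hg hgo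
    have hzV := hct_mem hM hz
    have h1 : im g z ∈ V := hM.im_mem hzV hg
    have h2 : Inj V z ZFSet.omega := ((hC2.1 V hM).2.2.1 z hz).2.1
    have h3 : Inj V (im g z) ZFSet.omega := by
      refine Inj.image hM hzV hM.infinity isOrdinal_omega h2 hg
    have h4 : HCt V (im g z) := by
      refine hC2.2 V hV _ h1 (fun y hy => ?_) h3
      obtain ⟨j, hj, rfl⟩ := mem_im.1 hy
      exact ((ho _).1 (hgo j hj)).1
    refine (ho _).2 ⟨hct_sUnion hM h4, isOrdinal_sUnion fun y hy => ?_⟩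
    obtain ⟨j, hj, rfl⟩ := mem_im.1 hy
    exact ((ho _).1 (hgo j hj)).2
  have hTo : ∀ z ∈ o, T z ∈ o := by
    intro z hz
    have h1 : ZFSet.sUnion (im (fun j => sc (f j)) z) ∈ o := by
      refine hun z (fun j => sc (f j)) ((ho z).1 hz).1 ?_ fun j hj => hsco _ (hfo j (hot z hz j hj))
      exact hB.insert' hf hf
    have h2 := (ho _).1 (hsco z hz)
    have h3 := (ho _).1 h1
    exact (ho _).2 ⟨((hC2.1 V hM).1 _ _ h2.1 h3.1).2.2.2, isOrdinal_union h2.2 h3.2⟩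
  have hn : ∀ n : ℕ, itr T (sc ζ₀) (nat n) ∈ o := by
    intro n
    induction n with
    | zero =>
      have h1 : itr T (sc ζ₀) (nat 0) = sc ζ₀ := by
        ext y
        rw [mem_itr]
        exact ⟨fun h => h.elim id fun ⟨u, hu, _⟩ => absurd hu (ZFSet.notMem_empty u), Or.inl⟩
      rw [h1]
      exact hsco _ hζ
    | succ n ih =>
      have h1 : itr T (sc ζ₀) (nat (n + 1)) = itr T (sc ζ₀) (nat n) ∪ T (itr T (sc ζ₀) (nat n)) := by
        ext y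
        rw [mem_itr, ZFSet.mem_union]
        constructor
        · rintro (h | ⟨u, hu, h⟩)
          · exact Or.inl (itr_base h)
          · rcases ZFSet.mem_insert_iff.1 hu with rfl | hu
            · exact Or.inr h
            · exact Or.inl (itr_step hu h)
        · rintro (h | h)
          · rcases mem_itr.1 h with h | ⟨u, hu, h⟩
            · exact Or.inl h
            · exact Or.inr ⟨u, ZFSet.mem_insert_of_mem _ hu, h⟩
          · exact Or.inr ⟨nat n, ZFSet.mem_insert _ _, h⟩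
      rw [h1]
      have h2 := (ho _).1 ih
      have h3 := (ho _).1 (hTo _ ih)
      exact (ho _).2 ⟨((hC2.1 V hM).1 _ _ h2.1 h3.1).2.2.2, isOrdinal_union h2.2 h3.2⟩
  have hscV : sc ζ₀ ∈ V := hct_mem hM ((ho _).1 (hsco _ hζ)).1
  have hω : itr T (sc ζ₀) ZFSet.omega = ZFSet.sUnion (im (itr T (sc ζ₀)) ZFSet.omega) := by
    ext y
    constructor
    · intro hy
      obtain ⟨k, hk⟩ := mem_itr_omega hy
      exact ZFSet.mem_sUnion.2 ⟨_, mem_im.2 ⟨nat k, nat_mem_omega k, rfl⟩, hk⟩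
    · intro hy
      obtain ⟨z, hz, hy⟩ := ZFSet.mem_sUnion.1 hy
      obtain ⟨n, hn, rfl⟩ := mem_im.1 hz
      obtain ⟨k, rfl⟩ := mem_omega_iff.1 hn
      exact itr_mono nat_subset_omega hy
  have hfin : itr T (sc ζ₀) ZFSet.omega ∈ o := by
    rw [hω]
    refine hun _ _ (hC2.1 V hM).2.2.2.1 (dfn_itr hM hscV hTd) fun n hn' => ?_
    obtain ⟨k, rfl⟩ := mem_omega_iff.1 hn'
    exact hn k
  refine ⟨_, hfin, itr_base (ZFSet.mem_insert _ _), fun j hj => ?_⟩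
  obtain ⟨k, hk⟩ := mem_itr_omega hj
  exact itr_step (nat_mem_omega k) (hsub _ j hk)

theorem Vf.eq {f a b b' : ZFSet.{0}} (h : Vf f a b) (h' : Vf f a b') : b = b' :=
  h'.2 b h.1

section

variable {V : Set ZFSet.{0}} (hG : GoodV V)

include hG

theorem dfn_Vf {V : Set ZFSet.{0}} (hM : IsZF V) {n : ℕ}
    {F G H : (Fin n → ZFSet.{0}) → ZFSet.{0}} (hF : DfnF V V F) (hG : DfnF V V G)
    (hH : DfnF V V H) : Dfn V V fun v => Vf (F v) (G v) (H v) := by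
  have hB := hM.base
  have h1 : Dfn V V fun v => pair (G v) (H v) ∈ F v ∧ ∀ b' ∈ V, pair (G v) b' ∈ F v →
      b' = H v := by
    apply Dfn.and (Dfn.mem (hB.pair' hG hH) hF)
    apply Dfn.all
    apply Dfn.imp
    · exact Dfn.mem (hB.pair' hG.tail (DfnF.proj 0)) hF.tail
    · exact Dfn.eq (DfnF.proj 0) hH.tail
  refine h1.congr fun v hv => and_congr_right fun _ => ?_
  constructor
  · intro h2 b' hb'
    exact h2 b' (hM.of_pair_mem (hM.trans _ (hF.1 v hv) _ hb')).2 hb'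
  · exact fun h2 b' _ hb' => h2 b' hb'

/-- All the parameters exist. -/
theorem exists_par (hC : S_HC) (hC2 : S_HC2) (hRW : S_RW) (hR : S_RWd) (hW : S_WD) (h1 : S_C1)
    (hQ0 : S_Q0) : ∃ o ∈ V, ∃ B ∈ V, ∃ p₀ ∈ V, ∃ Dc ∈ V, ∃ Tk ∈ V, ∃ E ∈ V, ∃ Ch ∈ V,
      ∃ Cl ∈ V, ∃ Bi ∈ V, ∃ J ∈ V, ∃ Q ∈ V, ∃ QF ∈ V, ∃ PP ∈ V,
        Par V o B p₀ Dc Tk E Ch Cl Bi J Q QF PP := by
  have hV := hG.zfc
  have hM := hV.toIsZF
  have hB' := hM.base
  obtain ⟨B, hB, o, hoV, ho, hBf, hBs, hBp⟩ := hG.seq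
  obtain ⟨p₀, hp₀, hp⟩ := exists_p hG hC hW
  obtain ⟨Dc, hDc, hD⟩ := exists_Dc hG hC hRW hR hW h1
  obtain ⟨Q, QF, hQh, hQFh, hQ, hQF⟩ := hQ0 V hV
  have hQV := hct_mem hM hQh
  have hQFV := hct_mem hM hQFh
  obtain ⟨PP, hPPV, hPP⟩ := hM.power (Pf V) (h1 V hG).1.mem
  have hPW := PW_mem hM
  have hTkV : ZFSet.prod PP (ZFSet.prod QF (ZFSet.prod (PW V) o)) ∈ V :=
    hM.prod_mem hPPV (hM.prod_mem hQFV (hM.prod_mem hPW hoV))
  obtain ⟨Tk, hTk⟩ : ∃ Tk, Tk = ZFSet.prod PP (ZFSet.prod QF (ZFSet.prod (PW V) o)) := ⟨_, rfl⟩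
  rw [← hTk] at hTkV
  obtain ⟨E, hEV, -, hE⟩ := hM.rel_mem hTkV hp₀ (Q := TE p₀ Dc)
    (dfn_TE hM hp₀ hDc (DfnF.proj 0) (DfnF.proj 1))
  -- the function `Ch`
  have hChx : ZFSet.prod Tk (ZFSet.prod p₀ (PW V)) ∈ V :=
    hM.prod_mem hTkV (hM.prod_mem hp₀ hPW)
  have hChR : Dfn V V fun w : Fin 2 → ZFSet.{0} => fs (sn (w 0)) ⊆ w 1 ∧
      pair (ln (fs (sn (w 0)))) (sn (sn (w 0))) ∈ w 1 ∧ pair (fs (w 0)) (w 1) ∈ E := by
    have h2 : DfnF V V fun w : Fin 2 → ZFSet.{0} => fs (sn (w 0)) :=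
      hM.fs' (hM.sn' (DfnF.proj 0))
    apply Dfn.and (hB'.subset' h2 (DfnF.proj 1))
    apply Dfn.and
    · exact Dfn.mem (hB'.pair' (dfn_ln hM h2) (hM.sn' (hM.sn' (DfnF.proj 0)))) (DfnF.proj 1)
    · exact Dfn.mem (hB'.pair' (hM.fs' (DfnF.proj 0)) (DfnF.proj 1)) (DfnF.const hEV)
  obtain ⟨Ch, hChV, hCh⟩ := choice_fun hV hChx hp₀ (R := fun a b => fs (sn a) ⊆ b ∧
      pair (ln (fs (sn a))) (sn (sn a)) ∈ b ∧ pair (fs a) b ∈ E) hChR (by
    intro a ha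
    obtain ⟨t, ht, b, hb, rfl⟩ := ZFSet.mem_prod.1 ha
    obtain ⟨c, hc, r, hr, rfl⟩ := ZFSet.mem_prod.1 hb
    simp only [fs_pair, sn_pair]
    have ht' := ht
    rw [hTk] at ht'
    obtain ⟨D, hDD, b1, hb1, rfl⟩ := ZFSet.mem_prod.1 ht'
    obtain ⟨s, hs, b2, hb2, rfl⟩ := ZFSet.mem_prod.1 hb1
    obtain ⟨h, hh, ζ, hζ, rfl⟩ := ZFSet.mem_prod.1 hb2
    have h2 := (ho ζ).1 hζ
    obtain ⟨c', h3, h4, h5, h6⟩ := exists_TE hG hC2 (Dc := Dc)
      (t := pair D (pair s (pair h ζ))) (c := c) (r := r) hp (by simpa using hh)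
      (by simpa using h2.1) (by simpa using h2.2) hc hr
    exact ⟨c', h3, h4, h5, (hE _ _).2 ⟨ht, h3, h6⟩⟩)
  have hCh' : ∀ t ∈ Tk, ∀ c ∈ p₀, ∀ r ∈ PW V, ∃ c' ∈ p₀, Vf Ch (pair t (pair c r)) c' ∧ c ⊆ c' ∧
      pair (ln c) r ∈ c' ∧ pair t c' ∈ E := by
    intro t ht c hc r hr
    obtain ⟨c', h2, h3, h4⟩ := hCh (pair t (pair c r))
      (ZFSet.pair_mem_prod.2 ⟨ht, ZFSet.pair_mem_prod.2 ⟨hc, hr⟩⟩)
    simp only [fs_pair, sn_pair] at h4
    exact ⟨c', h2, h3, h4⟩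
  -- closure points
  have hlno : ∀ c ∈ p₀, ln c ∈ o := by
    intro c hc
    have h2 := (hp c).1 hc
    exact (ho _).2 ⟨pc_hct_ln hM (pc_hct h2) (pc_isPs h2), pc_ord h2⟩
  have hClx : ZFSet.prod Tk (ZFSet.prod p₀ o) ∈ V := hM.prod_mem hTkV (hM.prod_mem hp₀ hoV)
  have hClR : Dfn V V fun w : Fin 2 → ZFSet.{0} => sn (sn (w 0)) ∈ w 1 ∧
      ∀ j ∈ w 1, ∀ r ∈ V, ∀ c' ∈ V, pair j r ∈ B →
        Vf Ch (pair (fs (w 0)) (pair (fs (sn (w 0))) r)) c' → ln c' ∈ w 1 := by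
    apply Dfn.and (Dfn.mem (hM.sn' (hM.sn' (DfnF.proj 0))) (DfnF.proj 1))
    apply hB'.ball (DfnF.proj 1)
    apply Dfn.all
    apply Dfn.all
    apply Dfn.imp (Dfn.mem (hB'.pair' (DfnF.proj 2) (DfnF.proj 1)) (DfnF.const hB))
    apply Dfn.imp
    · exact dfn_Vf hG hM (DfnF.const hChV) (hB'.pair' (hM.fs' (DfnF.proj 3))
        (hB'.pair' (hM.fs' (hM.sn' (DfnF.proj 3))) (DfnF.proj 1))) (DfnF.proj 0)
    · exact Dfn.mem (dfn_ln hM (DfnF.proj 0)) (DfnF.proj 4)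
  obtain ⟨Cl, hClV, hCl⟩ := choice_fun hV hClx hoV (R := fun a b => sn (sn a) ∈ b ∧
      ∀ j ∈ b, ∀ r ∈ V, ∀ c' ∈ V, pair j r ∈ B →
        Vf Ch (pair (fs a) (pair (fs (sn a)) r)) c' → ln c' ∈ b) hClR (by
    intro a ha
    obtain ⟨t, ht, b, hb, rfl⟩ := ZFSet.mem_prod.1 ha
    obtain ⟨c, hc, ζ, hζ, rfl⟩ := ZFSet.mem_prod.1 hb
    simp only [fs_pair, sn_pair]
    have hcV := hM.trans _ hp₀ _ hc
    have htV := hM.trans _ hTkV _ ht
    -- the function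
    obtain ⟨ζ', h2, h3, h4⟩ := exists_close hV hC2 (f := fun j => ln (ap Ch (pair t
        (pair c (ap B j))))) ho hζ (by
      refine dfn_ln hM (hM.ap' (DfnF.const hChV) (hB'.pair' (DfnF.const htV)
        (hB'.pair' (DfnF.const hcV) (hM.ap' (DfnF.const hB) (DfnF.proj 0)))))) (by
      intro j hj
      obtain ⟨r, hr, h5⟩ := fun_exists hBf hj
      obtain ⟨c', h6, h7, h8⟩ := hCh' t ht c hc r hr
      have h9 : ap Ch (pair t (pair c (ap B j))) = c' := by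
        rw [ap_func hBf h5]
        ext u
        unfold ap
        rw [ZFSet.mem_sUnion]
        constructor
        · rintro ⟨x, hx, hu⟩
          obtain ⟨q, hq, rfl⟩ := mem_im.1 hx
          obtain ⟨h10, h11⟩ := ZFSet.mem_sep.1 hq
          by_cases h12 : ∃ a b, q = pair a b
          · obtain ⟨a', b', rfl⟩ := h12
            rw [fs_pair] at h11
            rw [sn_pair] at hu
            rw [h11] at h10
            rw [h7.2 b' h10] at hu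
            exact hu
          · exfalso
            have h13 : sn q = ∅ := by
              unfold sn
              rw [dif_neg h12]
            rw [h13] at hu
            exact ZFSet.notMem_empty _ hu
        · intro hu
          exact ⟨c', mem_im.2 ⟨_, ZFSet.mem_sep.2 ⟨h7.1, fs_pair _ _⟩, (sn_pair _ _).symm⟩, hu⟩
      show ln (ap Ch (pair t (pair c (ap B j)))) ∈ o
      rw [h9]
      exact hlno c' h6)
    refine ⟨ζ', h2, h3, fun j hj r _ c' _ h5 h6 => ?_⟩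
    have h7 := h4 j hj
    have h8 : ap Ch (pair t (pair c (ap B j))) = c' := by
      rw [ap_func hBf h5]
      ext u
      unfold ap
      rw [ZFSet.mem_sUnion]
      constructor
      · rintro ⟨x, hx, hu⟩
        obtain ⟨q, hq, rfl⟩ := mem_im.1 hx
        obtain ⟨h10, h11⟩ := ZFSet.mem_sep.1 hq
        by_cases h12 : ∃ a b, q = pair a b
        · obtain ⟨a', b', rfl⟩ := h12
          rw [fs_pair] at h11
          rw [sn_pair] at hu
          rw [h11] at h10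
          rw [h6.2 b' h10] at hu
          exact hu
        · exfalso
          have h13 : sn q = ∅ := by
            unfold sn
            rw [dif_neg h12]
          rw [h13] at hu
          exact ZFSet.notMem_empty _ hu
      · intro hu
        exact ⟨c', mem_im.2 ⟨_, ZFSet.mem_sep.2 ⟨h6.1, fs_pair _ _⟩, (sn_pair _ _).symm⟩, hu⟩
    rw [h8] at h7
    exact h7)
  -- inverse of `B`
  obtain ⟨Bi, hBiV, hBi⟩ := choice_fun hV hPW hoV (R := fun r j => pair j r ∈ B)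
    (Dfn.mem (hB'.pair' (DfnF.proj 1) (DfnF.proj 0)) (DfnF.const hB)) hBs
  -- injections
  have hYV : (insert QF (insert Q o) : ZFSet.{0}) ∈ V :=
    hM.insert_mem hQFV (hM.insert_mem hQV hoV)
  obtain ⟨W, hWV, hWW⟩ := hM.power _ (hM.prod_mem (hM.union _ hYV) hM.infinity)
  obtain ⟨J, hJV, hJ⟩ := choice_fun hV hYV hWV (R := fun z f => IsInj z ZFSet.omega f)
    (hB'.isInj' (DfnF.proj 0) (DfnF.const hM.infinity) (DfnF.proj 1)) (by
    intro z hz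
    have h2 : HCt V z := by
      rcases ZFSet.mem_insert_iff.1 hz with rfl | hz
      · exact hQFh
      · rcases ZFSet.mem_insert_iff.1 hz with rfl | hz
        · exact hQh
        · exact ((ho z).1 hz).1
    obtain ⟨f, hf, h3⟩ := ((hC2.1 V hM).2.2.1 z h2).2.1
    refine ⟨f, (hWW f).2 ⟨hf, fun p hp => ?_⟩, h3⟩
    obtain ⟨a, ha, b, hb, rfl⟩ := ZFSet.mem_prod.1 (h3.1.1 hp)
    exact ZFSet.pair_mem_prod.2 ⟨ZFSet.mem_sUnion.2 ⟨z, hz, ha⟩, hb⟩)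
  refine ⟨o, hoV, B, hB, p₀, hp₀, Dc, hDc, Tk, hTkV, E, hEV, Ch, hChV, Cl, hClV, Bi, hBiV, J, hJV,
    Q, hQV, QF, hQFV, PP, hPPV, ho, hBf, hBp, hp, hD, hPP, hTk, hE, hCh', ?_, hBi, ?_, hQ, hQF⟩
  · intro t ht c hc ζ hζ
    obtain ⟨ζ', h2, h3, h4, h5⟩ := hCl (pair t (pair c ζ))
      (ZFSet.pair_mem_prod.2 ⟨ht, ZFSet.pair_mem_prod.2 ⟨hc, hζ⟩⟩)
    simp only [fs_pair, sn_pair] at h4 h5
    refine ⟨ζ', h2, h3, h4, fun j hj r c' h6 h7 => ?_⟩
    exact h5 j hj r (hM.of_pair_mem (hM.trans _ hB _ h6)).2 c'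
      (hM.of_pair_mem (hM.trans _ hChV _ h7.1)).2 h6 h7
  · intro z hz
    obtain ⟨f, -, h2, h3⟩ := hJ z hz
    exact ⟨f, h2, h3⟩

end

end Pool.Agent.H637_NO
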