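import Pool.Agent.H637_NO.FUS

/-!
# New orbits: compatibility of conditions (blueprint section 4)
-/

set_option autoImplicit false
set_option linter.unreachableTactic false
set_option linter.unusedTactic false

namespace Pool.Agent.H637_NO

open Pool.Agent.W868 Pool.Agent.W868.GM Pool.Agent.R597
open ZFSet (pair)

namespace CP

theorem inj_dom_mem {M : Set ZFSet.{0}} (hZ : IsZF M) {s n f : ZFSet.{0}} (hf : f ∈ M)
    (hfi : IsInj s n f) : s ∈ M := by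
  have h1 : ln f = s := FUS.ln_of_func hfi.1
  rw [← h1]
  exact hZ.im_mem hf (hZ.fs' (DfnF.proj 0))

theorem fi_mem {M : Set ZFSet.{0}} (hZ : IsZF M) {s : ZFSet.{0}} (h : Fi M s) : s ∈ M := by
  obtain ⟨n, hn, f, hf, hfi⟩ := h
  exact inj_dom_mem hZ hf hfi

theorem fi_insert {M : Set ZFSet.{0}} (hZ : IsZF M) {s a : ZFSet.{0}} (h : Fi M s) (ha : a ∈ M) :
    Fi M (insert a s) := by
  by_cases has : a ∈ s
  · have : (insert a s : ZFSet.{0}) = s := by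
      ext x
      rw [ZFSet.mem_insert_iff]
      exact ⟨fun h => h.elim (fun h => h ▸ has) id, Or.inr⟩
    rwa [this]
  obtain ⟨n, hn, f, hf, hfi⟩ := h
  have hnM := hZ.trans _ hZ.infinity _ hn
  refine ⟨sc n, ZFSet.omega_succ hn, insert (pair a n) f,
    hZ.insert_mem (hZ.pair_mem ha hnM) hf, ⟨?_, ?_⟩, ?_⟩
  · intro p hp
    rcases ZFSet.mem_insert_iff.1 hp with rfl | hp
    · exact ZFSet.pair_mem_prod.2 ⟨ZFSet.mem_insert _ _, ZFSet.mem_insert _ _⟩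
    · obtain ⟨x, hx, y, hy, rfl⟩ := ZFSet.mem_prod.1 (hfi.1.1 hp)
      exact ZFSet.pair_mem_prod.2
        ⟨ZFSet.mem_insert_iff.2 (Or.inr hx), ZFSet.mem_insert_iff.2 (Or.inr hy)⟩
  · intro z hz
    rcases ZFSet.mem_insert_iff.1 hz with rfl | hz
    · refine ⟨n, ZFSet.mem_insert _ _, fun y hy => ?_⟩
      rcases ZFSet.mem_insert_iff.1 hy with h | h
      · exact (ZFSet.pair_inj.1 h).2
      · exact absurd (ZFSet.pair_mem_prod.1 (hfi.1.1 h)).1 has
    · obtain ⟨w, hw, hw'⟩ := hfi.1.2 z hz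
      refine ⟨w, ZFSet.mem_insert_iff.2 (Or.inr hw), fun y hy => ?_⟩
      rcases ZFSet.mem_insert_iff.1 hy with h | h
      · exact absurd ((ZFSet.pair_inj.1 h).1 ▸ hz) has
      · exact hw' y h
  · intro x y z hx hy
    rcases ZFSet.mem_insert_iff.1 hx with h | h
    · rcases ZFSet.mem_insert_iff.1 hy with h' | h'
      · rw [(ZFSet.pair_inj.1 h).1, (ZFSet.pair_inj.1 h').1]
      · have h1 := (ZFSet.pair_mem_prod.1 (hfi.1.1 h')).2
        rw [(ZFSet.pair_inj.1 h).2] at h1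
        exact absurd h1 (ZFSet.mem_irrefl _)
    · rcases ZFSet.mem_insert_iff.1 hy with h' | h'
      · have h1 := (ZFSet.pair_mem_prod.1 (hfi.1.1 h)).2
        rw [(ZFSet.pair_inj.1 h').2] at h1
        exact absurd h1 (ZFSet.mem_irrefl _)
      · exact hfi.2 x y z h h'

theorem mem_nat_iff {n : ℕ} {x : ZFSet.{0}} : x ∈ nat n ↔ ∃ k < n, x = nat k := by
  induction n with
  | zero =>
    constructor
    · intro h
      exact absurd h (ZFSet.notMem_empty _)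
    · rintro ⟨k, hk, -⟩
      omega
  | succ n ih =>
    have : x ∈ nat (n + 1) ↔ x = nat n ∨ x ∈ nat n := ZFSet.mem_insert_iff
    rw [this, ih]
    constructor
    · rintro (rfl | ⟨k, hk, rfl⟩)
      · exact ⟨n, by omega, rfl⟩
      · exact ⟨k, by omega, rfl⟩
    · rintro ⟨k, hk, rfl⟩
      rcases Nat.lt_succ_iff_lt_or_eq.1 hk with h | rfl
      · exact Or.inr ⟨k, h, rfl⟩
      · exact Or.inl rfl

theorem fi_finite {M : Set ZFSet.{0}} {s : ZFSet.{0}} (h : Fi M s) : {x | x ∈ s}.Finite := by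
  obtain ⟨n, hn, f, hf, hfi⟩ := h
  obtain ⟨k, rfl⟩ := mem_omega_iff.1 hn
  have h1 : ∀ x : ZFSet.{0}, ∃ j : ℕ, x ∈ s → j < k ∧ pair x (nat j) ∈ f := by
    intro x
    by_cases hx : x ∈ s
    · obtain ⟨b, hb, hp⟩ := fun_exists hfi.1 hx
      obtain ⟨j, hj, rfl⟩ := mem_nat_iff.1 hb
      exact ⟨j, fun _ => ⟨hj, hp⟩⟩
    · exact ⟨0, fun h => absurd h hx⟩
  choose g hg using h1
  refine Set.Finite.of_injOn (f := g) (t := Set.Iio k) (fun x hx => (hg x hx).1) ?_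
    (Set.finite_Iio k)
  intro x hx y hy hxy
  have h2 := (hg x hx).2
  have h3 := (hg y hy).2
  rw [← hxy] at h3
  exact hfi.2 _ _ _ h2 h3

theorem fi_union {M : Set ZFSet.{0}} (hZ : IsZF M) {s t : ZFSet.{0}} (h : Fi M s) (h' : Fi M t) :
    Fi M (s ∪ t) := by
  have hsM := fi_mem hZ h
  have key : ∀ A : Set ZFSet.{0}, A.Finite → (∀ x ∈ A, x ∈ s) →
      ∃ z, (∀ x, x ∈ z ↔ x ∈ A ∨ x ∈ t) ∧ Fi M z := by
    intro A hA
    refine Set.Finite.induction_on A hA ?_ ?_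
    · intro _
      exact ⟨t, fun x => by simp, h'⟩
    · intro a S _ _ ih hs
      obtain ⟨z, hz, hzf⟩ := ih fun x hx => hs x (Set.mem_insert_of_mem _ hx)
      refine ⟨insert a z, fun x => ?_, fi_insert hZ hzf
        (hZ.trans _ hsM _ (hs a (Set.mem_insert _ _)))⟩
      rw [ZFSet.mem_insert_iff, hz, Set.mem_insert_iff]
      tauto
  obtain ⟨z, hz, hzf⟩ := key {x | x ∈ s} (fi_finite h) fun x hx => hx
  have : s ∪ t = z := by
    ext x
    rw [hz, ZFSet.mem_union]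
    rfl
  rwa [this]

/-- The second part of a condition goes over to longer sequences. -/
theorem side_ext {M : Set ZFSet.{0}} (hZ : IsZF M) (hPC : S_PC) {c d v : ZFSet.{0}}
    (hc : Pc M c) (hd : Pc M d) (hcd : c ⊆ d)
    (h : ∃ r ∈ PW M, ∃ q ∈ oo, v = pair r q ∧ ∃ j ∈ ln c, Cod r (rs c j) ∧
      ∃ X, pair j X ∈ c ∧ q ∈ X) :
    ∃ r ∈ PW M, ∃ q ∈ oo, v = pair r q ∧ ∃ j ∈ ln d, Cod r (rs d j) ∧
      ∃ X, pair j X ∈ d ∧ q ∈ X := by
  obtain ⟨-, -, pc1, pc2, -, pc4, -⟩ := hPC M hZ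
  obtain ⟨r, hr, q, hq, rfl, j, hj, h1, X, h2, h3⟩ := h
  obtain ⟨h4, h5⟩ := pc4 c d hc hd hcd
  obtain ⟨o1, -, -⟩ := pc1 c hc
  obtain ⟨o2, -, -⟩ := pc1 d hd
  have hjd : j ∈ ln d := by
    rcases ZFSet.mem_insert_iff.1 h4 with h | h
    · rwa [← h]
    · exact o2.mem_trans hj h
  have h6 : rs d j = rs c j := by
    ext p
    rw [rs, rs, ZFSet.mem_sep, ZFSet.mem_sep]
    constructor
    · rintro ⟨h7, h8⟩
      refine ⟨?_, h8⟩
      have h9 : p ∈ rs d (ln c) := ZFSet.mem_sep.2 ⟨h7, o1.mem_trans h8 hj⟩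
      rwa [h5] at h9
    · rintro ⟨h7, h8⟩
      exact ⟨hcd h7, h8⟩
  exact ⟨r, hr, q, hq, rfl, j, hjd, by rwa [h6], X, hcd h2, h3⟩

end CP

open CP

theorem cP : S_HC2 → S_PC → S_CP := by
  intro _ hPC V hV c s F c' s' F' hC hC'
  have hZ := hV.zfc.toIsZF
  have pc5 := (hPC V hZ).2.2.2.2.2.2
  obtain ⟨c1, c2, c3, c4, c5⟩ := hC
  obtain ⟨d1, d2, d3, d4, d5⟩ := hC'
  constructor
  · rintro ⟨c'', s'', F'', ⟨e1, -⟩, ⟨h1, h2, h3, h4⟩, ⟨h5, h6, h7, h8⟩⟩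
    exact ⟨pc5 c c' c'' c1 d1 e1 h1 h5, fun u hu hus => h4 u (h6 hu) hus,
      fun u hu hus => h8 u (h2 hu) hus⟩
  · rintro ⟨hcc, h1, h2⟩
    obtain ⟨d, hd, hcd, hcd'⟩ : ∃ d, Pc V d ∧ c ⊆ d ∧ c' ⊆ d := by
      rcases hcc with h | h
      · exact ⟨c', d1, h, fun _ h => h⟩
      · exact ⟨c, c1, fun _ h => h, h⟩
    refine ⟨d, s ∪ s', F ∪ F', ⟨hd, fi_union hZ c2 d2, fi_union hZ c3 d3, ?_, ?_⟩,
      ⟨hcd, ?_, ?_, ?_⟩, ⟨hcd', ?_, ?_, ?_⟩⟩
    · intro u hu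
      rcases ZFSet.mem_union.1 hu with h | h
      · exact c4 u h
      · exact d4 u h
    · intro v hv
      rcases ZFSet.mem_union.1 hv with h | h
      · exact side_ext hZ hPC c1 hd hcd (c5 v h)
      · exact side_ext hZ hPC d1 hd hcd' (d5 v h)
    · exact fun _ h => ZFSet.mem_union.2 (Or.inl h)
    · exact fun _ h => ZFSet.mem_union.2 (Or.inl h)
    · intro u hu hus
      rcases ZFSet.mem_union.1 hu with h | h
      · exact absurd h hus
      · exact h1 u h hus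
    · exact fun _ h => ZFSet.mem_union.2 (Or.inr h)
    · exact fun _ h => ZFSet.mem_union.2 (Or.inr h)
    · intro u hu hus
      rcases ZFSet.mem_union.1 hu with h | h
      · exact h2 u h hus
      · exact absurd h hus

end Pool.Agent.H637_NO
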