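import Pool.Agent.H637_NO.DF
import Pool.Agent.R597.Fold

/-!
# New orbits: the set `Q0` and the set of its finite subsets are countable
-/

set_option autoImplicit false

namespace Pool.Agent.H637_NO

open Pool.Agent.W868 Pool.Agent.W868.GM Pool.Agent.R597
open ZFSet (pair)

/-- The set of the members of a finite sequence. -/
noncomputable def sqSet : ZFSet.{0} → ZFSet.{0} := fold (fun r a => insert a r) ∅

theorem sqSet_empty : sqSet ∅ = ∅ := fold_empty _ _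

theorem sqSet_pair (t a : ZFSet.{0}) : sqSet (pair t a) = insert a (sqSet t) := fold_pair _ _ _ _

/-- The set of the finite subsets of `W`. -/
noncomputable def FS (W : ZFSet.{0}) : ZFSet.{0} := im sqSet (R597.Sq W)

theorem finite_nat (n : ℕ) : {y : ZFSet.{0} | y ∈ nat n}.Finite := by
  induction n with
  | zero =>
    have h : {y : ZFSet.{0} | y ∈ nat 0} = ∅ := by
      ext y
      simp only [Set.mem_ofPred_eq, Set.mem_empty_iff_false, iff_false]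
      exact ZFSet.notMem_empty y
    rw [h]
    exact Set.finite_empty
  | succ n ih =>
    have h : {y : ZFSet.{0} | y ∈ nat (n + 1)} = insert (nat n) {y : ZFSet.{0} | y ∈ nat n} := by
      ext y
      simp only [Set.mem_ofPred_eq, Set.mem_insert_iff]
      exact ZFSet.mem_insert_iff
    rw [h]
    exact ih.insert _

theorem finite_of_isInj {s f : ZFSet.{0}} {n : ℕ} (h : IsInj s (nat n) f) :
    {y : ZFSet.{0} | y ∈ s}.Finite := by
  have h1 : ∀ a : ZFSet.{0}, a ∈ s → ∃ b ∈ nat n, pair a b ∈ f := fun a ha => fun_exists h.1 ha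
  choose! e he1 he2 using h1
  refine Set.Finite.of_finite_image (f := e) ((finite_nat n).subset ?_) ?_
  · rintro _ ⟨a, ha, rfl⟩
    exact he1 a ha
  · intro a ha b hb hab
    have h2 := he2 a ha
    rw [hab] at h2
    exact h.2 _ _ _ h2 (he2 b hb)

theorem mem_FS_of_finite {W s : ZFSet.{0}} (hs : s ⊆ W) (hf : {y : ZFSet.{0} | y ∈ s}.Finite) :
    s ∈ FS W := by
  have key : ∀ T : Set ZFSet.{0}, T.Finite → (∀ y ∈ T, y ∈ W) →
      ∃ t ∈ R597.Sq W, ∀ y, y ∈ sqSet t ↔ y ∈ T := by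
    intro T hT
    induction T, hT using Set.Finite.induction_on with
    | empty =>
      intro _
      refine ⟨∅, empty_mem_Sq, fun y => ?_⟩
      rw [sqSet_empty]
      simp
    | insert _ _ ih =>
      rename_i a T _ _
      intro hW
      obtain ⟨t, ht, h1⟩ := ih fun y hy => hW y (Set.mem_insert_of_mem _ hy)
      refine ⟨pair t a, pair_mem_Sq ht (hW a (Set.mem_insert _ _)), fun y => ?_⟩
      rw [sqSet_pair, ZFSet.mem_insert_iff, h1, Set.mem_insert_iff]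
  obtain ⟨t, ht, h1⟩ := key _ hf fun y hy => hs hy
  refine mem_im.2 ⟨t, ht, ?_⟩
  ext y
  rw [h1]
  rfl

theorem subset_of_mem_FS {W s : ZFSet.{0}} (hs : s ∈ FS W) : s ⊆ W := by
  obtain ⟨t, ht, rfl⟩ := mem_im.1 hs
  clear hs
  revert t
  refine Sq_ind ?_ ?_
  · rw [sqSet_empty]
    intro y hy
    exact absurd hy (ZFSet.notMem_empty _)
  · intro t _ a ha ih
    rw [sqSet_pair]
    intro y hy
    rcases ZFSet.mem_insert_iff.1 hy with rfl | hy
    · exact ha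
    · exact ih hy

section

variable {M : Set ZFSet.{0}} (hM : IsZF M)

include hM

theorem dfn_sqSet : DfnF M M fun w : Fin 1 → ZFSet.{0} => sqSet (w 0) :=
  dfn_fold hM hM.empty_mem (hM.base.insert' (DfnF.proj 1) (DfnF.proj 0))

theorem FS_mem {W : ZFSet.{0}} (hW : W ∈ M) : FS W ∈ M :=
  hM.im_mem (R597.Sq_mem hM hW) (dfn_sqSet hM)

theorem FS_inj {W : ZFSet.{0}} (hW : W ∈ M) (h : Inj M W ZFSet.omega) :
    Inj M (FS W) ZFSet.omega :=
  Inj.image hM (R597.Sq_mem hM hW) hM.infinity isOrdinal_omega (Sq_countable hM hW h) (dfn_sqSet hM)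

theorem Fi_empty : Fi M ∅ := by
  refine ⟨nat 0, nat_mem_omega 0, ?_⟩
  exact Inj.of_subset hM hM.empty_mem (hM.nat_mem 0) fun y hy => absurd hy (ZFSet.notMem_empty _)

theorem Fi_insert {a s : ZFSet.{0}} (ha : a ∈ M) (hs : s ∈ M) (h : Fi M s) :
    Fi M (insert a s) := by
  by_cases has : a ∈ s
  · have h1 : (insert a s : ZFSet.{0}) = s := by
      ext y
      rw [ZFSet.mem_insert_iff]
      exact ⟨fun h => h.elim (fun h => h ▸ has) id, Or.inr⟩
    rw [h1]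
    exact h
  · obtain ⟨m, hm, f, hf, hfi⟩ := h
    obtain ⟨n, rfl⟩ := mem_omega_iff.1 hm
    refine ⟨nat (n + 1), nat_mem_omega _, ?_⟩
    have hB := hM.base
    have hn := hM.nat_mem n
    have hR : Dfn M M fun w : Fin 2 → ZFSet.{0} =>
        (w 0 = a ∧ w 1 = nat n) ∨ pair (w 0) (w 1) ∈ f := by
      apply Dfn.or
      · exact Dfn.and (Dfn.eq (DfnF.proj 0) (DfnF.const ha))
          (Dfn.eq (DfnF.proj 1) (DfnF.const hn))
      · exact Dfn.mem (hB.pair' (DfnF.proj 0) (DfnF.proj 1)) (DfnF.const hf)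
    have hnn : nat n ∉ nat n := ZFSet.mem_irrefl _
    refine Inj.of_rel hM (hM.insert_mem ha hs) (hM.nat_mem (n + 1))
      (R := fun x y => (x = a ∧ y = nat n) ∨ pair x y ∈ f) hR ?_ ?_ ?_
    · intro x hx
      rcases ZFSet.mem_insert_iff.1 hx with rfl | hx
      · exact ⟨nat n, ZFSet.mem_insert _ _, Or.inl ⟨rfl, rfl⟩⟩
      · obtain ⟨b, hb, h1⟩ := fun_exists hfi.1 hx
        exact ⟨b, ZFSet.mem_insert_iff.2 (Or.inr hb), Or.inr h1⟩
    · rintro x - b - b' - (⟨rfl, rfl⟩ | h1) (⟨h2, h3⟩ | h2)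
      · exact h3.symm
      · exact absurd (ZFSet.pair_mem_prod.1 (hfi.1.1 h2)).1 has
      · exact absurd (h2 ▸ (ZFSet.pair_mem_prod.1 (hfi.1.1 h1)).1) has
      · exact fun_unique hfi.1 h1 h2
    · rintro x - x' - b - (⟨rfl, rfl⟩ | h1) (⟨h2, h3⟩ | h2)
      · exact h2.symm
      · exact absurd (ZFSet.pair_mem_prod.1 (hfi.1.1 h2)).2 hnn
      · exact absurd (h3 ▸ (ZFSet.pair_mem_prod.1 (hfi.1.1 h1)).2) hnn
      · exact hfi.2 _ _ _ h1 h2

theorem sqSet_mem {t : ZFSet.{0}} (ht : t ∈ M) : sqSet t ∈ M :=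
  (dfn_sqSet hM).1 (fun _ => t) fun _ => ht

theorem Fi_of_mem_FS {W s : ZFSet.{0}} (hW : W ∈ M) (hs : s ∈ FS W) : Fi M s := by
  obtain ⟨t, ht, rfl⟩ := mem_im.1 hs
  clear hs
  revert t
  refine Sq_ind ?_ ?_
  · rw [sqSet_empty]
    exact Fi_empty hM
  · intro t ht a ha ih
    rw [sqSet_pair]
    exact Fi_insert hM (hM.trans _ hW _ ha) (sqSet_mem hM (hM.trans _ (R597.Sq_mem hM hW) _ ht)) ih

theorem mem_FS_iff {W s : ZFSet.{0}} (hW : W ∈ M) : s ∈ FS W ↔ s ⊆ W ∧ Fi M s := by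
  constructor
  · intro h
    exact ⟨subset_of_mem_FS h, Fi_of_mem_FS hM hW h⟩
  · rintro ⟨h1, m, hm, f, -, hf⟩
    obtain ⟨n, rfl⟩ := mem_omega_iff.1 hm
    exact mem_FS_of_finite h1 (finite_of_isInj hf)

end

theorem finite_prod_nat {a : ZFSet.{0}} {n : ℕ} (ha : a ⊆ ZFSet.prod (nat n) (nat n)) :
    {y : ZFSet.{0} | y ∈ a}.Finite := by
  refine (((finite_nat n).prod (finite_nat n)).image fun p => pair p.1 p.2).subset ?_
  intro y hy
  obtain ⟨b, hb, c, hc, rfl⟩ := ZFSet.mem_prod.1 (ha hy)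
  exact ⟨(b, c), ⟨hb, hc⟩, rfl⟩

/-- The piece `S_Q0`. -/
theorem q0 (hHC : S_HC2) : S_Q0 := by
  intro M hM
  have hZ := hM.toIsZF
  obtain ⟨⟨hpair, hsub, hct, hω, hoo⟩, -⟩ := And.intro (hHC.1 M hZ) trivial
  have hZC := hHC.2 M hM
  have hooM := oo_mem hZ
  have hωM := hZ.infinity
  have hB := hZ.base
  have hA := FS_mem hZ hooM
  have hsetM : ∀ {W : ZFSet.{0}}, HCt M W → HCt M (FS W) := by
    intro W hW
    obtain ⟨h1, h2, -⟩ := hct W hW
    refine hZC _ (FS_mem hZ h1) (fun s hs => ?_) (FS_inj hZ h1 h2)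
    exact hsub _ _ hW (hZ.trans _ (FS_mem hZ h1) _ hs) (subset_of_mem_FS hs)
  have hAH := hsetM hoo
  obtain ⟨hAM, hAi, hAe⟩ := hct _ hAH
  obtain ⟨-, hooi, hooe⟩ := hct _ hoo
  obtain ⟨-, hωi, hωe⟩ := hct _ hω
  have hωω : Inj M (ZFSet.prod ZFSet.omega ZFSet.omega) ZFSet.omega :=
    sq_inj hZ hωM isOrdinal_omega fun _ h => h
  have hprod : ∀ {x y : ZFSet.{0}}, HCt M x → HCt M y → HCt M (ZFSet.prod x y) := by
    intro x y hx hy
    obtain ⟨h1, h2, h3⟩ := hct _ hx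
    obtain ⟨h4, h5, h6⟩ := hct _ hy
    refine hZC _ (hZ.prod_mem h1 h4) (fun p hp => ?_) ?_
    · obtain ⟨a, ha, b, hb, rfl⟩ := ZFSet.mem_prod.1 hp
      exact (hpair _ _ (h3 a ha) (h6 b hb)).1
    · exact Inj.trans hZ (hZ.prod_mem h1 h4) hωM (Inj.prod hZ h1 h4 hωM hωM h2 h5) hωω
  set B : ZFSet.{0} := ZFSet.prod oo (ZFSet.prod ZFSet.omega (FS oo)) with hBdef
  have hBH : HCt M B := hprod hoo (hprod hω hAH)
  set Q : ZFSet.{0} := ZFSet.sep IsQ B with hQ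
  have hQM : Q ∈ M := hZ.sep_mem (Q := IsQ) (dfn_IsQ hZ (DfnF.proj 0)) (hct _ hBH).1
  have hQmem : ∀ u, u ∈ Q ↔ IsQ u := by
    intro u
    rw [hQ, ZFSet.mem_sep]
    refine ⟨fun h => h.2, fun h => ⟨?_, h⟩⟩
    obtain ⟨q, hq, m, hm, a, ha, rfl⟩ := h
    obtain ⟨n, rfl⟩ := mem_omega_iff.1 hm
    refine ZFSet.pair_mem_prod.2 ⟨hq, ZFSet.pair_mem_prod.2 ⟨hm, ?_⟩⟩
    refine mem_FS_of_finite (fun y hy => ?_) (finite_prod_nat ha)
    obtain ⟨b, hb, c, hc, rfl⟩ := ZFSet.mem_prod.1 (ha hy)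
    exact ZFSet.pair_mem_prod.2 ⟨nat_subset_omega hb, nat_subset_omega hc⟩
  have hQH : HCt M Q := hsub _ _ hBH hQM fun y hy => (ZFSet.mem_sep.1 hy).1
  exact ⟨Q, FS Q, hQH, hsetM hQH, hQmem, fun s => mem_FS_iff hZ hQM⟩

end Pool.Agent.H637_NO
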