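import Pool.Agent.H637_NO.Stm

/-!
# New orbits: more pieces
-/

set_option autoImplicit false

namespace Pool.Agent.H637_NO

open Pool.Agent.W868 Pool.Agent.W868.GM
open ZFSet (pair)

/-- The map `rl z ↦ rw' z` is definable. -/
def S_RWd : Prop := ∀ M : Set ZFSet.{0}, IsZF M →
  Dfn M M fun w : Fin 2 → ZFSet.{0} => ∃ z ∈ Reals M, w 0 = rl z ∧ w 1 = rw' z

/-- The set `Q0` and the set of its finite subsets are countable. -/
def S_Q0 : Prop := ∀ M : Set ZFSet.{0}, IsZFC M → ∃ Q QF : ZFSet.{0}, HCt M Q ∧ HCt M QF ∧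
  (∀ u, u ∈ Q ↔ IsQ u) ∧ ∀ s, s ∈ QF ↔ s ⊆ Q ∧ Fi M s

end Pool.Agent.H637_NO
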