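import Pool.Agent.H637_NO.Ar
import Pool.Agent.H637_NO.Stm2

/-!
# Reals as subsets of `ω × ω`
-/

set_option autoImplicit false

namespace Pool.Agent.H637_NO.AR

open Pool.Agent.W868 Pool.Agent.W868.GM
open ZFSet (pair)

theorem mem_rw' {z : ℕ → ℕ} {p : ZFSet.{0}} :
    p ∈ rw' z ↔ ∃ m n : ℕ, p = pair (nat m) (nat n) ∧ z (Nat.pair m n) = 0 := by
  rw [rw', ZFSet.mem_sep]
  refine and_iff_right_of_imp ?_
  rintro ⟨m, n, rfl, -⟩
  exact ZFSet.pair_mem_prod.2 ⟨nat_mem_omega _, nat_mem_omega _⟩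

theorem pair_mem_rw' {z : ℕ → ℕ} {m n : ℕ} :
    pair (nat m) (nat n) ∈ rw' z ↔ z (Nat.pair m n) = 0 := by
  rw [mem_rw']
  constructor
  · rintro ⟨m', n', h, h'⟩
    obtain ⟨h1, h2⟩ := ZFSet.pair_inj.1 h
    rw [nat_inj'] at h1 h2
    rw [h1, h2]
    exact h'
  · exact fun h => ⟨m, n, rfl, h⟩

theorem rw'_subset (z : ℕ → ℕ) : rw' z ⊆ oo := fun _ hp => (ZFSet.mem_sep.1 hp).1

theorem mem_PW {M : Set ZFSet.{0}} {r : ZFSet.{0}} : r ∈ PW M ↔ r ⊆ oo ∧ r ∈ M := by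
  rw [PW, ZFSet.mem_sep, ZFSet.mem_powerset]

/-- Two subsets of `oo` with the same pairs of numbers are equal. -/
theorem oo_ext {r r' : ZFSet.{0}} (h : r ⊆ oo) (h' : r' ⊆ oo)
    (H : ∀ m n : ℕ, pair (nat m) (nat n) ∈ r ↔ pair (nat m) (nat n) ∈ r') : r = r' := by
  have key : ∀ {s s' : ZFSet.{0}}, s ⊆ oo →
      (∀ m n : ℕ, pair (nat m) (nat n) ∈ s → pair (nat m) (nat n) ∈ s') → s ⊆ s' := by
    intro s s' hs H p hp
    obtain ⟨a, ha, b, hb, rfl⟩ := ZFSet.mem_prod.1 (hs hp)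
    obtain ⟨m, rfl⟩ := mem_omega_iff.1 ha
    obtain ⟨n, rfl⟩ := mem_omega_iff.1 hb
    exact H m n hp
  ext p
  exact ⟨fun hp => key h (fun m n => (H m n).1) hp, fun hp => key h' (fun m n => (H m n).2) hp⟩

theorem rW' : S_RW := by
  intro M hM
  constructor
  · intro z hz
    rw [mem_PW]
    refine ⟨rw'_subset z, ?_⟩
    obtain ⟨r, hr, h1, h2⟩ := NR.set2 hM (P := fun m n => z (Nat.pair m n) = 0)
      (NR.eq (NFn.app hM hz (NFn.pair hM (NFn.proj 0) (NFn.proj 1))) (NFn.const hM 0))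
    have h3 : rw' z = r := oo_ext (rw'_subset z) h1 fun m n => by rw [pair_mem_rw', h2]
    rw [h3]
    exact hr
  · intro r hr
    rw [mem_PW] at hr
    classical
    refine ⟨fun k => if pair (nat (Nat.unpair k).1) (nat (Nat.unpair k).2) ∈ r then 0 else 1,
      ?_, ?_⟩
    · rw [mem_reals_iff hM]
      refine NFn.congr (NFn.ite (P := fun a : Fin 1 → ℕ =>
        pair (nat (Nat.unpair (a 0)).1) (nat (Nat.unpair (a 0)).2) ∈ r)
        (NR.pairMem hM hr.2 (NFn.fst hM (NFn.proj 0)) (NFn.snd hM (NFn.proj 0)))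
        (NFn.const hM 0) (NFn.const hM 1)) fun a => ?_
      congr
    · refine oo_ext (rw'_subset _) hr.1 fun m n => ?_
      rw [pair_mem_rw', Nat.unpair_pair]
      by_cases h : pair (nat m) (nat n) ∈ r
      · simp [h]
      · simp [h]

/-- The graph of `Nat.pair` is in all models. -/
theorem np_mem {M : Set ZFSet.{0}} (hM : IsZF M) :
    ∃ g ∈ M, g ⊆ ZFSet.prod oo ZFSet.omega ∧
      ∀ m n k : ℕ, pair (pair (nat m) (nat n)) (nat k) ∈ g ↔ k = Nat.pair m n := by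
  obtain ⟨F, h1, h2⟩ := NFn.pair hM (m := 2) (NFn.proj 0) (NFn.proj 1)
  have h1' : DfnF M M fun w : Fin 2 → ZFSet.{0} => F ![w 0, w 1] := by
    refine h1.congr fun v _ => ?_
    congr 1
    funext i
    fin_cases i <;> rfl
  have h2' : ∀ m n : ℕ, F ![nat m, nat n] = nat (Nat.pair m n) := by
    intro m n
    have h3 := h2 ![m, n]
    rw [show (fun i => nat ((![m, n] : Fin 2 → ℕ) i)) = ![nat m, nat n] by
      funext i; fin_cases i <;> rfl] at h3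
    exact h3
  obtain ⟨g, hg, h3, h4⟩ := hM.rel_mem (hM.prod_mem hM.infinity hM.infinity) hM.infinity
    (Q := fun p c => c = F ![fs p, sn p])
    (Dfn.eq (DfnF.proj 1) (DfnF.comp2 (f := fun a b => F ![a, b]) h1' (hM.fs' (DfnF.proj 0))
      (hM.sn' (DfnF.proj 0))))
  refine ⟨g, hg, h3, fun m n k => ?_⟩
  rw [h4, fs_pair, sn_pair, h2', nat_inj']
  exact ⟨fun h => h.2.2, fun h => ⟨ZFSet.pair_mem_prod.2 ⟨nat_mem_omega _, nat_mem_omega _⟩,
    nat_mem_omega _, h⟩⟩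

theorem rWd' : S_RWd := by
  intro M hM
  have hB := hM.base
  have hω := hM.infinity
  have h0 := hM.empty_mem
  obtain ⟨g, hg, -, hg2⟩ := np_mem hM
  have hoo : oo ∈ M := hM.prod_mem hω hω
  have h1 : Dfn M M fun w : Fin 2 → ZFSet.{0} =>
      ZFSet.IsFunc ZFSet.omega ZFSet.omega (w 0) ∧ w 1 ⊆ oo ∧
      ∀ a ∈ ZFSet.omega, ∀ b ∈ ZFSet.omega, (pair a b ∈ w 1 ↔
        ∃ c ∈ ZFSet.omega, pair (pair a b) c ∈ g ∧ pair c ∅ ∈ w 0) := by
    refine Dfn.and (hB.isFunc' (DfnF.const hω) (DfnF.const hω) (DfnF.proj 0))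
      (Dfn.and (hB.subset' (DfnF.proj 1) (DfnF.const hoo)) ?_)
    apply hB.ball (DfnF.const hω)
    apply hB.ball (DfnF.const hω)
    refine Dfn.iff (Dfn.mem (hB.pair' (DfnF.proj 1) (DfnF.proj 0)) (DfnF.proj 3)) ?_
    apply hB.bex (DfnF.const hω)
    exact Dfn.and (Dfn.mem (hB.pair' (hB.pair' (DfnF.proj 2) (DfnF.proj 1)) (DfnF.proj 0))
      (DfnF.const hg)) (Dfn.mem (hB.pair' (DfnF.proj 0) (DfnF.const h0)) (DfnF.proj 3))
  have key : ∀ (z : ℕ → ℕ) (a b : ℕ), (∃ c ∈ ZFSet.omega,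
      pair (pair (nat a) (nat b)) c ∈ g ∧ pair c ∅ ∈ rl z) ↔ z (Nat.pair a b) = 0 := by
    intro z a b
    constructor
    · rintro ⟨c, hc, h2, h3⟩
      obtain ⟨k, rfl⟩ := mem_omega_iff.1 hc
      rw [hg2] at h2
      rw [show (∅ : ZFSet.{0}) = nat 0 from rfl, pair_mem_rl] at h3
      rw [← h2, ← h3]
    · intro h
      refine ⟨nat (Nat.pair a b), nat_mem_omega _, (hg2 _ _ _).2 rfl, ?_⟩
      rw [show (∅ : ZFSet.{0}) = nat 0 from rfl, pair_mem_rl, h]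
  refine h1.congr fun w hw => ?_
  constructor
  · rintro ⟨h2, h3, h4⟩
    obtain ⟨z, hz, h5⟩ := (isFunc_iff (hw 0)).1 h2
    refine ⟨z, hz, h5, oo_ext h3 (rw'_subset z) fun m n => ?_⟩
    rw [h4 _ (nat_mem_omega m) _ (nat_mem_omega n), h5, key, pair_mem_rw']
  · rintro ⟨z, hz, h5, h6⟩
    refine ⟨(isFunc_iff (hw 0)).2 ⟨z, hz, h5⟩, ?_, ?_⟩
    · rw [h6]
      exact rw'_subset z
    · intro a ha b hb
      obtain ⟨m, rfl⟩ := mem_omega_iff.1 ha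
      obtain ⟨n, rfl⟩ := mem_omega_iff.1 hb
      rw [h5, h6, key, pair_mem_rw']

end Pool.Agent.H637_NO.AR

namespace Pool.Agent.H637_NO

theorem rW : S_RW := AR.rW'

theorem rWd : S_RWd := AR.rWd'

end Pool.Agent.H637_NO
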