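import Pool.Agent.H637_NO.C3
import Pool.Agent.H637_NO.CP
import Pool.Agent.H637_NO.Q0
import Pool.Agent.H637_NO.RW
import Pool.Agent.H637_NO.C1
import Pool.Agent.R597.Wo

/-!
# New orbits: the generic object
-/

set_option autoImplicit false
set_option linter.unreachableTactic false
set_option linter.unusedTactic false
set_option linter.unusedSectionVars false

namespace Pool.Agent.H637_NO.C4f

open Pool.Agent.W868 Pool.Agent.W868.GM Pool.Agent.Y588 Pool.Agent.R597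
open ZFSet (pair)

/-- The condition with the components c, s, F is in the generic filter. -/
def InG (Dc G c s F : ZFSet.{0}) : Prop := ∃ p ∈ G, pair p (pair c (pair s F)) ∈ Dc

theorem hct_up {V W : Set ZFSet.{0}} (h : V ⊆ W) {z : ZFSet.{0}} (hz : HCt V z) : HCt W z := by
  obtain ⟨T, hT, h1, h2, f, hf, h3⟩ := hz
  exact ⟨T, h hT, h1, h2, f, h hf, h3⟩

/-- The property `IsDc` says that `Dc` decodes the conditions. -/
def IsDc (V : Set ZFSet.{0}) (Dc : ZFSet.{0}) : Prop := ∀ p a, pair p a ∈ Dc ↔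
  ∃ z c s F, p = rl z ∧ Cz V z c s F ∧ a = pair c (pair s F)

section

variable {V : Set ZFSet.{0}} (hV : GoodV V) (HC2 : S_HC2) (C1 : S_C1)
  {G : ZFSet.{0}} (hG : IsGeneric V (Pf V) (Lf V) G) {Dc : ZFSet.{0}} (hDcV : Dc ∈ V)
  (hDc : IsDc V Dc)

include hV hG hDc C1

theorem inG_iff {c s F : ZFSet.{0}} : InG Dc G c s F ↔ ∃ z, rl z ∈ G ∧ Cz V z c s F := by
  constructor
  · rintro ⟨p, hp, h⟩
    obtain ⟨z, c', s', F', rfl, h1, h2⟩ := (hDc _ _).1 h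
    obtain ⟨rfl, h3⟩ := ZFSet.pair_inj.1 h2
    obtain ⟨rfl, rfl⟩ := ZFSet.pair_inj.1 h3
    exact ⟨z, hp, h1⟩
  · rintro ⟨z, hz, h⟩
    exact ⟨rl z, hz, (hDc _ _).2 ⟨z, c, s, F, rfl, h, rfl⟩⟩

theorem inG_cd {c s F : ZFSet.{0}} (h : InG Dc G c s F) : Cd V c s F := by
  obtain ⟨z, -, h1⟩ := (inG_iff hV C1 hG hDc).1 h
  exact h1.2.2

/-- Two conditions in the filter have a common extension in the filter. -/
theorem inG_dir {c s F c' s' F' : ZFSet.{0}} (h : InG Dc G c s F) (h' : InG Dc G c' s' F') :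
    ∃ c'' s'' F'', InG Dc G c'' s'' F'' ∧ Stronger c s F c'' s'' F'' ∧
      Stronger c' s' F' c'' s'' F'' := by
  obtain ⟨z, hz, h1⟩ := (inG_iff hV C1 hG hDc).1 h
  obtain ⟨z', hz', h2⟩ := (inG_iff hV C1 hG hDc).1 h'
  obtain ⟨p, hp, h3, h4⟩ := hG.dir _ hz _ hz'
  obtain ⟨y, c'', s'', F'', rfl, h5⟩ := (C1f.mem_Pf hV.zfc).1 (hG.sub hp)
  have h6 := (C1 V hV).2.2.2
  exact ⟨c'', s'', F'', (inG_iff hV C1 hG hDc).2 ⟨y, hp, h5⟩,
    (h6 _ _ _ _ _ _ _ _ h1 h5).1 h3, (h6 _ _ _ _ _ _ _ _ h2 h5).1 h4⟩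

include hDcV HC2

/-- Genericity below a condition of the filter. -/
theorem inG_below {Q : ZFSet.{0} → ZFSet.{0} → ZFSet.{0} → Prop}
    (hQ : Dfn V V fun w : Fin 3 → ZFSet.{0} => Q (w 0) (w 1) (w 2))
    {c₀ s₀ F₀ : ZFSet.{0}} (h₀ : InG Dc G c₀ s₀ F₀)
    (h : ∀ c s F, Cd V c s F → Stronger c₀ s₀ F₀ c s F →
      ∃ c' s' F', Cd V c' s' F' ∧ Stronger c s F c' s' F' ∧ Q c' s' F') :
    ∃ c s F, InG Dc G c s F ∧ Q c s F := by
  have hM := hV.zfc.toIsZF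
  have hB := hM.base
  obtain ⟨hF, hex, hPf, hLf⟩ := C1 V hV
  obtain ⟨z₀, hz₀, h1⟩ := (inG_iff hV C1 hG hDc).1 h₀
  have hd : Dfn V V fun w : Fin 1 → ZFSet.{0} => ∃ c ∈ V, ∃ s ∈ V, ∃ F ∈ V,
      pair (w 0) (pair c (pair s F)) ∈ Dc ∧ Q c s F := by
    apply Dfn.ex
    apply Dfn.ex
    apply Dfn.ex
    apply Dfn.and
    · exact Dfn.mem (hB.pair' (DfnF.proj 3) (hB.pair' (DfnF.proj 2) (hB.pair' (DfnF.proj 1)
        (DfnF.proj 0)))) (DfnF.const hDcV)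
    · exact Dfn.comp3 (Q := Q) hQ (DfnF.proj 2) (DfnF.proj 1) (DfnF.proj 0)
  obtain ⟨r, hr, -, c, -, s, -, F, -, h2, h3⟩ := gen_below hM hF hG
    (Q := fun p => ∃ c ∈ V, ∃ s ∈ V, ∃ F ∈ V, pair p (pair c (pair s F)) ∈ Dc ∧ Q c s F) hd hz₀ (by
      intro q hq hqp
      obtain ⟨y, c, s, F, rfl, h4⟩ := (C1f.mem_Pf hV.zfc).1 hq
      have h5 := (hLf _ _ _ _ _ _ _ _ h1 h4).1 hqp
      obtain ⟨c', s', F', h6, h7, h8⟩ := h c s F h4.2.2 h5
      obtain ⟨y', h9⟩ := (hex c' s' F' h6).2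
      have h10 := C1f.mem_V_of_Cd hV.zfc HC2 h6
      refine ⟨rl y', (C1f.mem_Pf hV.zfc).2 ⟨y', c', s', F', rfl, h9⟩, (hLf _ _ _ _ _ _ _ _ h4 h9).2 h7,
        c', hct_mem hM h10.1, s', hct_mem hM h10.2.1, F', hct_mem hM h10.2.2,
        (hDc _ _).2 ⟨y', c', s', F', rfl, h9, rfl⟩, h8⟩)
  exact ⟨c, s, F, ⟨r, hr, h2⟩, h3⟩

/-- Genericity. -/
theorem inG_dense {Q : ZFSet.{0} → ZFSet.{0} → ZFSet.{0} → Prop}
    (hQ : Dfn V V fun w : Fin 3 → ZFSet.{0} => Q (w 0) (w 1) (w 2))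
    (h : ∀ c s F, Cd V c s F →
      ∃ c' s' F', Cd V c' s' F' ∧ Stronger c s F c' s' F' ∧ Q c' s' F') :
    ∃ c s F, InG Dc G c s F ∧ Q c s F := by
  obtain ⟨p, hp⟩ := hG.nonempty
  obtain ⟨z, c, s, F, rfl, h1⟩ := (C1f.mem_Pf hV.zfc).1 (hG.sub hp)
  exact inG_below hV HC2 C1 hG hDcV hDc hQ ((inG_iff hV C1 hG hDc).2 ⟨z, hp, h1⟩)
    fun c s F hc _ => h c s F hc

end

theorem rs_eq {V : Set ZFSet.{0}} {c c' j : ZFSet.{0}} (h1 : Pc V c) (hc' : Pc V c')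
    (hcc : c ⊆ c') (hj : j ∈ ln c) : rs c' j = rs c j := by
  have h10 := (pc_rs_eq h1 hc' hcc).2
  rw [← h10, pc_rs_rs ((pc_ord h1).isTransitive _ hj)]

theorem ext_cond {V : Set ZFSet.{0}} {c c' s F : ZFSet.{0}} (h : Cd V c s F) (hc' : Pc V c')
    (hcc : c ⊆ c') : Cd V c' s F ∧ Stronger c s F c' s F :=
  ⟨h.mono hc' hcc, hcc, fun _ h => h, fun _ h => h, fun _ h h' => absurd h h'⟩

/-- Adding a pair to the side condition. -/
theorem add_side {V : Set ZFSet.{0}} (hM : IsZF V) {c s F c₀ j X r q : ZFSet.{0}}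
    (h : Cd V c s F) (h₀ : Pc V c₀) (hcc : c₀ ⊆ c) (hjX : pair j X ∈ c₀) (hr : r ∈ PW V)
    (hrj : Cod r (rs c₀ j)) (hq : q ∈ oo) (hqX : q ∈ X) :
    Cd V c s (insert (pair r q) F) ∧ Stronger c s F c s (insert (pair r q) F) := by
  obtain ⟨h1, h2, h3, h4, h5⟩ := h
  have hrV : r ∈ V := (C1f.mem_PW.1 hr).2
  have hqV : q ∈ V := hM.trans _ (C1f.oo_mem hM) _ hq
  refine ⟨⟨h1, h2, CP.fi_insert hM h3 (hM.pair_mem hrV hqV), h4, fun v hv => ?_⟩,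
    fun _ h => h, fun _ h => h, fun _ h => ZFSet.mem_insert_of_mem _ h,
    fun _ h h' => absurd h h'⟩
  rcases ZFSet.mem_insert_iff.1 hv with rfl | hv
  · have hj := (pc_dom h₀ hjX).1
    refine ⟨r, hr, q, hq, rfl, j, pc_ln_mono hcc hj, ?_, X, hcc hjX, hqX⟩
    rw [rs_eq h₀ h1 hcc hj]
    exact hrj
  · exact h5 v hv

/-- Two different subsets of `ω × ω` have different restrictions to all large numbers. -/
theorem exists_diff {r r' : ZFSet.{0}} (hr : r ⊆ oo) (hr' : r' ⊆ oo) (h : r ≠ r') :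
    ∃ N : ℕ, ∀ k ≥ N, r ∩ ZFSet.prod (nat k) (nat k) ≠ r' ∩ ZFSet.prod (nat k) (nat k) := by
  have h1 : ∃ x ∈ oo, ¬ (x ∈ r ↔ x ∈ r') := by
    by_contra hcon
    push Not at hcon
    apply h
    ext x
    constructor
    · intro hx
      exact (hcon x (hr hx)).1 hx
    · intro hx
      exact (hcon x (hr' hx)).2 hx
  obtain ⟨x, hx, h2⟩ := h1
  obtain ⟨a, ha, b, hb, rfl⟩ := ZFSet.mem_prod.1 hx
  obtain ⟨m, rfl⟩ := mem_omega_iff.1 ha
  obtain ⟨n, rfl⟩ := mem_omega_iff.1 hb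
  refine ⟨max m n + 1, fun k hk heq => h2 ?_⟩
  have h3 : pair (nat m) (nat n) ∈ ZFSet.prod (nat k) (nat k) :=
    ZFSet.pair_mem_prod.2 ⟨CP.mem_nat_iff.2 ⟨m, by omega, rfl⟩, CP.mem_nat_iff.2 ⟨n, by omega, rfl⟩⟩
  constructor
  · intro h4
    have h5 : pair (nat m) (nat n) ∈ r ∩ ZFSet.prod (nat k) (nat k) := ZFSet.mem_inter.2 ⟨h4, h3⟩
    rw [heq] at h5
    exact (ZFSet.mem_inter.1 h5).1
  · intro h4
    have h5 : pair (nat m) (nat n) ∈ r' ∩ ZFSet.prod (nat k) (nat k) := ZFSet.mem_inter.2 ⟨h4, h3⟩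
    rw [← heq] at h5
    exact (ZFSet.mem_inter.1 h5).1

/-- A common bound for a finite set. -/
theorem exists_bound {F : ZFSet.{0}} (hF : {x | x ∈ F}.Finite) {R : ZFSet.{0} → ℕ → Prop}
    (h : ∀ v ∈ F, ∃ N : ℕ, ∀ k ≥ N, R v k) : ∃ N : ℕ, ∀ v ∈ F, ∀ k ≥ N, R v k := by
  choose! f hf using h
  obtain ⟨N, hN⟩ := (hF.image f).bddAbove
  refine ⟨N, fun v hv k hk => hf v hv k (le_trans (hN ⟨v, hv, rfl⟩) hk)⟩

/-- Adding an element to the working part. -/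
theorem add_work {V : Set ZFSet.{0}} (hM : IsZF V) {c s F j X r q : ZFSet.{0}}
    (h : Cd V c s F) (hjX : pair j X ∈ c) (hr : r ∈ PW V) (HC : S_HC)
    (hrj : Cod r (rs c j)) (hq : q ∈ oo) (hqX : q ∉ X) (m : ℕ) :
    ∃ k > m, Cd V c (insert (pair q (pair (nat k) (r ∩ ZFSet.prod (nat k) (nat k)))) s) F ∧
      Stronger c s F c (insert (pair q (pair (nat k) (r ∩ ZFSet.prod (nat k) (nat k)))) s) F := by
  obtain ⟨h1, h2, h3, h4, h5⟩ := h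
  have hrV := C1f.mem_PW.1 hr
  have hoV := C1f.oo_mem hM
  have hqV : q ∈ V := hM.trans _ hoV _ hq
  have hj := (pc_dom h1 hjX).1
  -- the pair r, q is not in F
  have hne : ∀ v ∈ F, ∀ r', v = pair r' q → r' ⊆ oo ∧ r ≠ r' := by
    intro v hv r' hvr
    obtain ⟨r1, hr1, q1, hq1, hv1, j1, hj1, h6, X1, h7, h8⟩ := h5 v hv
    rw [hvr] at hv1
    obtain ⟨rfl, rfl⟩ := ZFSet.pair_inj.1 hv1
    refine ⟨(C1f.mem_PW.1 hr1).1, ?_⟩
    rintro rfl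
    have h9 := (HC V hM).2.2.2.2 _ _ _ hrj h6
    have h10 : ∀ i ∈ ln c, ln (rs c i) = i := fun i hi =>
      (pc_rs hM h1 (pc_mem_sc.2 (Or.inr hi))).2
    have h11 : j = j1 := by rw [← h10 j hj, ← h10 j1 hj1, h9]
    subst h11
    exact hqX (pc_unique h1 hjX h7 ▸ h8)
  obtain ⟨N, hN⟩ := exists_bound (CP.fi_finite h3) (R := fun v k => ∀ r', v = pair r' q →
    r ∩ ZFSet.prod (nat k) (nat k) ≠ r' ∩ ZFSet.prod (nat k) (nat k)) (by
      intro v hv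
      by_cases hex : ∃ r', v = pair r' q
      · obtain ⟨r', rfl⟩ := hex
        obtain ⟨h6, h7⟩ := hne _ hv r' rfl
        obtain ⟨N, hN⟩ := exists_diff hrV.1 h6 h7
        refine ⟨N, fun k hk r'' h8 => ?_⟩
        obtain ⟨rfl, -⟩ := ZFSet.pair_inj.1 h8
        exact hN k hk
      · exact ⟨0, fun k _ r' h8 => absurd ⟨r', h8⟩ hex⟩)
  set k := max N (m + 1) with hk
  have hnk : nat k ∈ V := hM.nat_mem k
  have hint : r ∩ ZFSet.prod (nat k) (nat k) ∈ V := by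
    have : r ∩ ZFSet.prod (nat k) (nat k) =
        ZFSet.sep (fun z => z ∈ ZFSet.prod (nat k) (nat k)) r := by
      ext z
      rw [ZFSet.mem_inter, ZFSet.mem_sep]
    rw [this]
    exact hM.sep_mem (Dfn.mem (DfnF.proj 0) (DfnF.const (hM.prod_mem hnk hnk))) hrV.2
  have huV : pair q (pair (nat k) (r ∩ ZFSet.prod (nat k) (nat k))) ∈ V :=
    hM.pair_mem hqV (hM.pair_mem hnk hint)
  refine ⟨k, by omega, ⟨h1, CP.fi_insert hM h2 huV, h3, fun u hu => ?_, h5⟩, fun _ h => h,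
    fun _ h => ZFSet.mem_insert_of_mem _ h, fun _ h => h, fun u hu hus v hv hhit => ?_⟩
  · rcases ZFSet.mem_insert_iff.1 hu with rfl | hu
    · exact ⟨q, hq, nat k, nat_mem_omega k, _, fun z hz => (ZFSet.mem_inter.1 hz).2, rfl⟩
    · exact h4 u hu
  · rcases ZFSet.mem_insert_iff.1 hu with rfl | hu
    · obtain ⟨q1, m1, r1, h6, h7⟩ := hhit
      obtain ⟨rfl, h8⟩ := ZFSet.pair_inj.1 h6
      obtain ⟨rfl, h9⟩ := ZFSet.pair_inj.1 h8
      exact hN v hv k (by omega) r1 h7 h9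
    · exact hus hu

/-- The main part. -/
theorem c4_main (HC : S_HC) (HC2 : S_HC2) (RWh : S_RW) (WD : S_WD) (C1 : S_C1) : S_C4 := by
  intro V hV G hG
  have hZC := hV.zfc
  have hM := hZC.toIsZF
  have hB := hM.base
  obtain ⟨hF, hex, hPf, hLf⟩ := C1 V hV
  obtain ⟨Dc, hDcV, hDc⟩ := exists_Dc hV HC RWh rWd WD C1
  obtain ⟨p₀, hp₀V, hp₀⟩ := exists_p hV HC WD
  obtain ⟨Q, -, hQH, -, hQ, -⟩ := q0 HC2 V hZC
  have hW : IsZF (ext V G) := isZF_ext' hM hF hG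
  have hVW : V ⊆ ext V G := sub_ext hM hF hG
  have hGW : G ∈ ext V G := gen_mem_ext hM hF hG
  have hdir := fun {c s F c' s' F'} => inG_dir (c := c) (s := s) (F := F) (c' := c') (s' := s')
    (F' := F') hV C1 hG hDc
  have hcd := fun {c s F} => inG_cd (c := c) (s := s) (F := F) hV C1 hG hDc
  obtain ⟨C, hC⟩ : ∃ C : ZFSet.{0}, C = ZFSet.sUnion (ZFSet.sep (fun c => ∃ s F, InG Dc G c s F) p₀) :=
    ⟨_, rfl⟩
  obtain ⟨S, hS⟩ : ∃ S : ZFSet.{0}, S = ZFSet.sep (fun u => ∃ c s F, InG Dc G c s F ∧ u ∈ s) Q :=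
    ⟨_, rfl⟩
  have memC : ∀ x, x ∈ C ↔ ∃ c s F, InG Dc G c s F ∧ x ∈ c := by
    intro x
    rw [hC, ZFSet.mem_sUnion]
    constructor
    · rintro ⟨c, hc, hx⟩
      obtain ⟨-, s, F, h⟩ := ZFSet.mem_sep.1 hc
      exact ⟨c, s, F, h, hx⟩
    · rintro ⟨c, s, F, h, hx⟩
      exact ⟨c, ZFSet.mem_sep.2 ⟨(hp₀ c).2 (hcd h).1, s, F, h⟩, hx⟩
  have memS : ∀ u, u ∈ S ↔ ∃ c s F, InG Dc G c s F ∧ u ∈ s := by
    intro u
    rw [hS, ZFSet.mem_sep]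
    constructor
    · exact fun h => h.2
    · rintro ⟨c, s, F, h, hu⟩
      exact ⟨(hQ u).2 ((hcd h).2.2.2.1 u hu), c, s, F, h, hu⟩
  -- `C` is a function
  have huniq : ∀ j X X', pair j X ∈ C → pair j X' ∈ C → X = X' := by
    intro j X X' h h'
    obtain ⟨c, s, F, h1, h2⟩ := (memC _).1 h
    obtain ⟨c', s', F', h3, h4⟩ := (memC _).1 h'
    obtain ⟨c'', s'', F'', h5, h6, h7⟩ := hdir h1 h3
    exact pc_unique (hcd h5).1 (h6.1 h2) (h7.1 h4)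
  -- restrictions
  have hrs : ∀ c s F, InG Dc G c s F → ∀ j ∈ sc (ln c), rs C j = rs c j := by
    intro c s F h j hj
    have hc := (hcd h).1
    have hjsub := pc_sc_subset (pc_ord hc) hj
    ext x
    rw [pc_mem_rs, pc_mem_rs]
    constructor
    · rintro ⟨h1, h2⟩
      obtain ⟨c', s', F', h3, h4⟩ := (memC _).1 h1
      obtain ⟨i, X, rfl⟩ := pc_isPs (hcd h3).1 _ h4
      rw [fs_pair] at h2
      obtain ⟨X', -, h5⟩ := pc_exists hc (hjsub h2)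
      have h6 : X = X' := huniq i X X' h1 ((memC _).2 ⟨c, s, F, h, h5⟩)
      subst h6
      rw [fs_pair]
      exact ⟨h5, h2⟩
    · rintro ⟨h1, h2⟩
      exact ⟨(memC _).2 ⟨c, s, F, h, h1⟩, h2⟩
  -- lengths
  have hlen : ∀ ζ, HCt V ζ → ζ.IsOrdinal → ∃ c s F, InG Dc G c s F ∧ ζ ∈ ln c := by
    intro ζ h1 h2
    refine inG_dense hV HC2 C1 hG hDcV hDc (Q := fun c _ _ => ζ ∈ ln c) ?_ ?_
    · exact Dfn.mem (DfnF.const (hct_mem hM h1)) (dfn_ln hM (DfnF.proj 0))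
    · intro c s F h
      obtain ⟨c', h3, h4, h5⟩ := hV.ext c h.1 ζ h1 h2
      exact ⟨c', s, F, (ext_cond h h3 h4).1, (ext_cond h h3 h4).2, h5⟩
  obtain ⟨B, -, o, -, ho, -⟩ := hV.seq
  refine ⟨C, S, ?_, ⟨o, ho, ?_, ?_⟩, ?_, ?_, ?_, ?_⟩
  · -- `S` is hereditarily countable
    refine pc_hct_sub hW (hct_up hVW hQH) ?_ fun u hu => by
      rw [hS] at hu
      exact (ZFSet.mem_sep.1 hu).1
    have h1 : S = ZFSet.sep (fun u => ∃ c ∈ ext V G, ∃ s ∈ ext V G, ∃ F ∈ ext V G, ∃ p ∈ G,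
        pair p (pair c (pair s F)) ∈ Dc ∧ u ∈ s) Q := by
      rw [hS]
      ext u
      rw [ZFSet.mem_sep, ZFSet.mem_sep]
      refine and_congr_right fun _ => ?_
      constructor
      · rintro ⟨c, s, F, ⟨p, h1, h2⟩, h3⟩
        have h4 := hM.of_pair_mem (hM.trans _ hDcV _ h2)
        have h5 := hM.of_pair_mem h4.2
        have h6 := hM.of_pair_mem h5.2
        exact ⟨c, hVW h5.1, s, hVW h6.1, F, hVW h6.2, p, h1, h2, h3⟩
      · rintro ⟨c, -, s, -, F, -, p, h1, h2, h3⟩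
        exact ⟨c, s, F, ⟨p, h1, h2⟩, h3⟩
    rw [h1]
    refine hW.sep_mem ?_ (hVW (hct_mem hM hQH))
    apply Dfn.ex
    apply Dfn.ex
    apply Dfn.ex
    apply hW.base.bex (DfnF.const hGW)
    apply Dfn.and
    · exact Dfn.mem (hW.base.pair' (DfnF.proj 0) (hW.base.pair' (DfnF.proj 3)
        (hW.base.pair' (DfnF.proj 2) (DfnF.proj 1)))) (DfnF.const (hVW hDcV))
    · exact Dfn.mem (DfnF.proj 4) (DfnF.proj 2)
  · -- `C` is a relation
    intro x hx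
    obtain ⟨c, s, F, h1, h2⟩ := (memC _).1 hx
    have hc := (hcd h1).1
    obtain ⟨j, X, rfl⟩ := pc_isPs hc _ h2
    obtain ⟨h3, h4⟩ := pc_dom hc h2
    refine ZFSet.pair_mem_prod.2 ⟨(ho j).2 ⟨?_, (pc_ord hc).mem h3⟩, h4⟩
    exact ((HC2.1 V hM).2.2.1 _ (pc_hct_ln hM (pc_hct hc) (pc_isPs hc))).2.2 j h3
  · intro ζ hζ
    obtain ⟨h1, h2⟩ := (ho ζ).1 hζ
    obtain ⟨c, s, F, h3, h4⟩ := hlen ζ h1 h2
    obtain ⟨X, -, h5⟩ := pc_exists (hcd h3).1 h4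
    have h6 : pair ζ X ∈ C := (memC _).2 ⟨c, s, F, h3, h5⟩
    exact ⟨X, h6, fun X' h7 => huniq ζ X' X h7 h6⟩
  · -- onto
    intro r hr
    have hrV := (C1f.mem_PW.1 hr).2
    obtain ⟨c, s, F, h1, j, -, h2⟩ := inG_dense hV HC2 C1 hG hDcV hDc
      (Q := fun c _ _ => ∃ j ∈ V, pair j r ∈ c) (by
        apply Dfn.ex
        exact Dfn.mem (hB.pair' (DfnF.proj 0) (DfnF.const hrV)) (DfnF.proj 1)) (by
        intro c s F h
        obtain ⟨h3, h4, h5⟩ := pc_ad hM HC2 h.1 hr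
        exact ⟨ad c r, s, F, (ext_cond h h3 h5).1, (ext_cond h h3 h5).2, ln c,
          hct_mem hM (pc_hct_ln hM (pc_hct h.1) (pc_isPs h.1)), ZFSet.mem_insert _ _⟩)
    exact ⟨j, (memC _).2 ⟨c, s, F, h1, h2⟩⟩
  · -- restrictions are fast
    intro j h1 h2
    obtain ⟨c, s, F, h3, h4⟩ := hlen j h1 h2
    have h5 : j ∈ sc (ln c) := pc_mem_sc.2 (Or.inr h4)
    rw [hrs c s F h3 j h5]
    exact (pc_rs hM (hcd h3).1 h5).1
  · intro u hu
    obtain ⟨c, s, F, h1, h2⟩ := (memS u).1 hu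
    exact (hcd h1).2.2.2.1 u h2
  · -- decisions
    intro j X hjX r hr hrj q hq
    obtain ⟨c₀, s₀, F₀, h₀, hjX₀⟩ := (memC _).1 hjX
    have hc₀ := (hcd h₀).1
    have hj₀ := (pc_dom hc₀ hjX₀).1
    have hrj₀ : Cod r (rs c₀ j) := by
      rw [← hrs c₀ s₀ F₀ h₀ j (pc_mem_sc.2 (Or.inr hj₀))]
      exact hrj
    have hrV := (C1f.mem_PW.1 hr).2
    have hqV : q ∈ V := hM.trans _ (C1f.oo_mem hM) _ hq
    constructor
    · intro hqX
      obtain ⟨c, s, F, h1, h2⟩ := inG_below hV HC2 C1 hG hDcV hDc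
        (Q := fun _ _ F => pair r q ∈ F)
        (Dfn.mem (DfnF.const (hM.pair_mem hrV hqV)) (DfnF.proj 2)) h₀ (by
          intro c s F h3 h4
          obtain ⟨h5, h6⟩ := add_side hM h3 hc₀ h4.1 hjX₀ hr hrj₀ hq hqX
          exact ⟨c, s, _, h5, h6, ZFSet.mem_insert _ _⟩)
      have hfin := CP.fi_finite (hcd h1).2.1
      have hbd : {k : ℕ | pair q (pair (nat k) (r ∩ ZFSet.prod (nat k) (nat k))) ∈ s}.Finite := by
        refine Set.Finite.preimage ?_ hfin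
        intro a _ b _ hab
        have h3 := (ZFSet.pair_inj.1 hab).2
        exact nat_injective (ZFSet.pair_inj.1 h3).1
      obtain ⟨N, hN⟩ := hbd.bddAbove
      refine ⟨nat N, nat_mem_omega N, fun k hk hNk hu => ?_⟩
      obtain ⟨k, rfl⟩ := mem_omega_iff.1 hk
      obtain ⟨c', s', F', h3, h4⟩ := (memS _).1 hu
      obtain ⟨c'', s'', F'', h5, h6, h7⟩ := hdir h1 h3
      have h8 : pair q (pair (nat k) (r ∩ ZFSet.prod (nat k) (nat k))) ∈ s := by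
        by_contra hcon
        exact h6.2.2.2 _ (h7.2.1 h4) hcon _ h2 ⟨q, nat k, r, rfl, rfl⟩
      have h9 : k ≤ N := hN h8
      obtain ⟨i, hi, hi'⟩ := CP.mem_nat_iff.1 hNk
      have := nat_injective hi'
      omega
    · rintro ⟨m, hm, hbound⟩
      by_contra hqX
      obtain ⟨n, rfl⟩ := mem_omega_iff.1 hm
      obtain ⟨c, s, F, h1, k, hk, h2, h3⟩ := inG_below hV HC2 C1 hG hDcV hDc
        (Q := fun _ s _ => ∃ k ∈ ZFSet.omega, nat n ∈ k ∧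
          pair q (pair k (ZFSet.sep (fun z => z ∈ ZFSet.prod k k) r)) ∈ s) (by
          apply hB.bex (DfnF.const hM.infinity)
          apply Dfn.and (Dfn.mem (DfnF.const (hM.nat_mem n)) (DfnF.proj 0))
          refine Dfn.mem (hB.pair' (DfnF.const hqV) (hB.pair' (DfnF.proj 0) ?_)) (DfnF.proj 2)
          exact hM.sep' (Q := fun z w => z ∈ ZFSet.prod (w 0) (w 0)) (DfnF.const hrV)
            (Dfn.mem (DfnF.proj 0) (hM.prod' (DfnF.proj 1) (DfnF.proj 1)))) h₀ (by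
          intro c s F h3 h4
          have h5 : Cod r (rs c j) := by
            rw [rs_eq hc₀ h3.1 h4.1 hj₀]
            exact hrj₀
          obtain ⟨k, hk, h6, h7⟩ := add_work hM h3 (h4.1 hjX₀) hr HC h5 hq hqX n
          refine ⟨c, _, F, h6, h7, nat k, nat_mem_omega k, CP.mem_nat_iff.2 ⟨n, hk, rfl⟩, ?_⟩
          exact ZFSet.mem_insert _ _)
      refine hbound k hk h2 ((memS _).2 ⟨c, s, F, h1, ?_⟩)
      exact h3

end Pool.Agent.H637_NO.C4f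

namespace Pool.Agent.H637_NO

/-- The generic object. -/
theorem c4 : S_HC → S_HC2 → S_RW → S_WD → S_PC → S_C1 → S_CP → S_C4 :=
  fun HC HC2 RWh WD _ C1 _ => C4f.c4_main HC HC2 RWh WD C1

end Pool.Agent.H637_NO
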