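import Pool.Agent.H637_NO.LZF
import Pool.Agent.W868.Hart

/-!
# New orbits: no transitive model of ZF contains the generic set
-/

set_option autoImplicit false
set_option linter.unreachableTactic false
set_option linter.unusedTactic false

namespace Pool.Agent.H637_NO

open Pool.Agent.W868 Pool.Agent.W868.GM
open ZFSet (pair)

namespace C5

/-! ### Base sets -/

theorem tra_T0b : Tra T0b := by
  intro x hx y hy
  unfold T0b at hx ⊢
  rw [ZFSet.mem_union, ZFSet.mem_union] at hx ⊢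
  rcases hx with hx | hx | hx
  · exact Or.inl (isOrdinal_omega.mem_trans hy hx)
  · obtain ⟨p, hp, rfl⟩ := mem_im.1 hx
    obtain ⟨m, hm, n, hn, rfl⟩ := ZFSet.mem_prod.1 hp
    rw [fs_pair, sn_pair, ZFSet.mem_pair] at hy
    left
    rcases hy with rfl | rfl <;> assumption
  · obtain ⟨m, hm, n, hn, rfl⟩ := ZFSet.mem_prod.1 hx
    right
    left
    rw [pair, ZFSet.mem_pair] at hy
    rcases hy with rfl | rfl
    · refine mem_im.2 ⟨pair m m, ZFSet.mem_prod.2 ⟨m, hm, m, hm, rfl⟩, ?_⟩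
      rw [fs_pair, sn_pair, ZFSet.pair_eq_singleton]
    · refine mem_im.2 ⟨pair m n, ZFSet.mem_prod.2 ⟨m, hm, n, hn, rfl⟩, ?_⟩
      rw [fs_pair, sn_pair]

theorem oo_sub_T0b {x : ZFSet.{0}} (h : x ∈ oo) : x ∈ T0b := by
  unfold T0b
  rw [ZFSet.mem_union, ZFSet.mem_union]
  exact Or.inr (Or.inr h)

theorem oo_mem {M : Set ZFSet.{0}} (hM : IsZF M) : oo ∈ M := hM.prod_mem hM.infinity hM.infinity

theorem T0b_mem {M : Set ZFSet.{0}} (hM : IsZF M) : T0b ∈ M := by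
  have hB := hM.base
  refine hM.union_mem hM.infinity (hM.union_mem (hM.im_mem (oo_mem hM) ?_) (oo_mem hM))
  exact hB.upair' (hM.fs' (DfnF.proj 0)) (hM.sn' (DfnF.proj 0))

theorem tra_SB {H : ZFSet.{0}} (h : ∀ x ∈ H, x ⊆ oo) : Tra (SB H) := by
  intro x hx y hy
  unfold SB at hx ⊢
  rw [ZFSet.mem_union, ZFSet.mem_insert_iff] at hx ⊢
  rcases hx with hx | rfl | hx
  · exact Or.inl (tra_T0b x hx y hy)
  · exact Or.inr (Or.inr hy)
  · exact Or.inl (oo_sub_T0b (h x hx hy))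

theorem SB_mem {M : Set ZFSet.{0}} (hM : IsZF M) {H : ZFSet.{0}} (h : H ∈ M) : SB H ∈ M :=
  hM.union_mem (T0b_mem hM) (hM.insert_mem h h)

/-- A transitive set that contains the sequence `g`. -/
noncomputable def Tg (g : ZFSet.{0}) : ZFSet.{0} :=
  insert g (g ∪ (ZFSet.sUnion g ∪ (ZFSet.sUnion (ZFSet.sUnion g) ∪ T0b)))

theorem mem_Tg {g x : ZFSet.{0}} : x ∈ Tg g ↔ x = g ∨ x ∈ g ∨ x ∈ (ZFSet.sUnion g : ZFSet.{0}) ∨
    x ∈ (ZFSet.sUnion (ZFSet.sUnion g) : ZFSet.{0}) ∨ x ∈ T0b := by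
  unfold Tg
  rw [ZFSet.mem_insert_iff, ZFSet.mem_union, ZFSet.mem_union, ZFSet.mem_union]

theorem self_Tg (g : ZFSet.{0}) : g ∈ Tg g := mem_Tg.2 (Or.inl rfl)

theorem fst_mem_uu {g j X : ZFSet.{0}} (h : pair j X ∈ g) :
    j ∈ (ZFSet.sUnion (ZFSet.sUnion g) : ZFSet.{0}) := by
  refine ZFSet.mem_sUnion.2 ⟨{j}, ZFSet.mem_sUnion.2 ⟨pair j X, h, ?_⟩,
    ZFSet.mem_singleton.2 rfl⟩
  rw [pair, ZFSet.mem_pair]
  exact Or.inl rfl

theorem tra_Tg {g : ZFSet.{0}} (h : ∀ p ∈ g, ∃ j X, p = pair j X ∧ X ⊆ oo ∧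
    ∀ k ∈ j, ∃ Y, pair k Y ∈ g) : Tra (Tg g) := by
  intro x hx y hy
  rw [mem_Tg] at hx ⊢
  rcases hx with rfl | hx | hx | hx | hx
  · exact Or.inr (Or.inl hy)
  · exact Or.inr (Or.inr (Or.inl (ZFSet.mem_sUnion.2 ⟨x, hx, hy⟩)))
  · exact Or.inr (Or.inr (Or.inr (Or.inl (ZFSet.mem_sUnion.2 ⟨x, hx, hy⟩))))
  · obtain ⟨u, hu, hxu⟩ := ZFSet.mem_sUnion.1 hx
    obtain ⟨p, hp, hup⟩ := ZFSet.mem_sUnion.1 hu
    obtain ⟨j, X, rfl, hX, hj⟩ := h p hp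
    have key : x = j ∨ x = X := by
      rw [pair, ZFSet.mem_pair] at hup
      rcases hup with rfl | rfl
      · exact Or.inl (ZFSet.mem_singleton.1 hxu)
      · exact ZFSet.mem_pair.1 hxu
    rcases key with rfl | rfl
    · obtain ⟨Y, hY⟩ := hj y hy
      exact Or.inr (Or.inr (Or.inr (Or.inl (fst_mem_uu hY))))
    · exact Or.inr (Or.inr (Or.inr (Or.inr (oo_sub_T0b (hX hy)))))
  · exact Or.inr (Or.inr (Or.inr (Or.inr (tra_T0b x hx y hy))))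

theorem dfn_Tg {M : Set ZFSet.{0}} (hM : IsZF M) {n : ℕ} {F : (Fin n → ZFSet.{0}) → ZFSet.{0}}
    (hF : DfnF M M F) : DfnF M M fun v => Tg (F v) := by
  have hB := hM.base
  exact hB.insert' hF (hB.union' hF (hB.union' (hB.sUnion' hF)
    (hB.union' (hB.sUnion' (hB.sUnion' hF)) (DfnF.const (T0b_mem hM)))))

theorem Tg_mem {M : Set ZFSet.{0}} (hM : IsZF M) {g : ZFSet.{0}} (hg : g ∈ M) : Tg g ∈ M :=
  (dfn_Tg hM (DfnF.const hg)).1 Fin.elim0 fun i => i.elim0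

/-! ### Definability of the codes -/

theorem dfn_Clp {M : Set ZFSet.{0}} (hM : IsZF M) :
    Dfn M M fun w : Fin 2 → ZFSet.{0} => Clp (w 0) (w 1) := by
  have hB := hM.base
  have ho := hM.infinity
  have h : Dfn M M fun w : Fin 2 → ZFSet.{0} =>
      (∀ q ∈ w 1, ∃ n ∈ M, ∃ x ∈ M, q = pair n x ∧ n ∈ ZFSet.omega ∧
        (∀ y ∈ x, ∃ m ∈ ZFSet.omega, pair m n ∈ w 0 ∧ pair m y ∈ w 1) ∧
        ∀ m ∈ ZFSet.omega, pair m n ∈ w 0 → ∃ y ∈ x, pair m y ∈ w 1) ∧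
      ∀ n ∈ ZFSet.omega, ∃ x ∈ M, pair n x ∈ w 1 := by
    (repeat' first
      | assumption
      | exact DfnF.proj _
      | exact DfnF.const (by assumption)
      | apply Dfn.not | apply Dfn.and | apply Dfn.or | apply Dfn.imp | apply Dfn.iff
      | apply hB.bex | apply hB.ball | apply Dfn.ex | apply Dfn.all
      | apply Dfn.eq | apply Dfn.mem | apply hB.pair')
  refine h.congr fun v hv => ?_
  unfold Clp
  constructor
  · rintro ⟨h1, h2⟩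
    refine ⟨fun q hq => ?_, fun n hn => ?_⟩
    · obtain ⟨n, -, x, -, h3⟩ := h1 q hq
      exact ⟨n, x, h3⟩
    · obtain ⟨x, -, hx⟩ := h2 n hn
      exact ⟨x, hx⟩
  · rintro ⟨h1, h2⟩
    refine ⟨fun q hq => ?_, fun n hn => ?_⟩
    · obtain ⟨n, x, h3, h4⟩ := h1 q hq
      have h5 := hM.of_pair_mem (h3 ▸ hM.trans _ (hv 1) _ hq)
      exact ⟨n, h5.1, x, h5.2, h3, h4⟩
    · obtain ⟨x, hx⟩ := h2 n hn
      exact ⟨x, (hM.of_pair_mem (hM.trans _ (hv 1) _ hx)).2, hx⟩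

theorem dfn_cut {M : Set ZFSet.{0}} (hM : IsZF M) {n : ℕ} {F G : (Fin n → ZFSet.{0}) → ZFSet.{0}}
    (hF : DfnF M M F) (hG : DfnF M M G) :
    DfnF M M fun v => F v ∩ ZFSet.prod (G v) (G v) := by
  have h := hM.sep' hF (Q := fun p v => p ∈ ZFSet.prod (G v) (G v))
    (Dfn.mem (DfnF.proj 0) (hM.prod' hG hG).tail)
  refine h.congr fun v _ => ?_
  ext z
  rw [ZFSet.mem_sep, ZFSet.mem_inter]

/-- The value of the generic sequence that is computed from `s` and the restriction `g`. -/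
def Qs (M : Set ZFSet.{0}) (s : ZFSet.{0}) (q g : ZFSet.{0}) : Prop :=
  ∃ r ∈ M, r ⊆ oo ∧ (∃ ξ ∈ M, ξ.IsOrdinal ∧ ∃ X ∈ M, (∃ f ∈ M, Hier (Tg g) f ∧ pair ξ X ∈ f) ∧
    r ∈ X) ∧ (∃ p ∈ M, Clp r p ∧ pair ∅ g ∈ p) ∧
    ∃ m ∈ ZFSet.omega, ∀ k ∈ ZFSet.omega, m ∈ k →
      ¬ pair q (pair k (r ∩ ZFSet.prod k k)) ∈ s

theorem dfn_Qs {M : Set ZFSet.{0}} (hM : IsZF M) {s : ZFSet.{0}} (hs : s ∈ M) :
    Dfn M M fun w : Fin 2 → ZFSet.{0} => Qs M s (w 0) (w 1) := by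
  have hB := hM.base
  have ho := hM.infinity
  have h0 := hM.empty_mem
  have hoo := oo_mem hM
  unfold Qs
  apply Dfn.ex
  apply Dfn.and (hB.subset' (DfnF.proj 0) (DfnF.const hoo))
  apply Dfn.and
  · apply Dfn.ex
    apply Dfn.and (hB.isOrdinal' (DfnF.proj 0))
    apply Dfn.ex
    apply Dfn.and
    · apply Dfn.ex
      apply Dfn.and
      · exact Dfn.comp2 (Q := Hier) (d0_Hier'.dfn hM.trans) (F := fun w => Tg (w 5))
          (G := fun w => w 0) (dfn_Tg hM (DfnF.proj 5)) (DfnF.proj 0)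
      · exact Dfn.mem (hB.pair' (DfnF.proj 2) (DfnF.proj 1)) (DfnF.proj 0)
    · exact Dfn.mem (DfnF.proj 2) (DfnF.proj 0)
  apply Dfn.and
  · apply Dfn.ex
    apply Dfn.and
    · exact Dfn.comp2 (Q := Clp) (dfn_Clp hM) (DfnF.proj 1) (DfnF.proj 0)
    · exact Dfn.mem (hB.pair' (DfnF.const h0) (DfnF.proj 3)) (DfnF.proj 0)
  · apply hB.bex (DfnF.const ho)
    apply hB.ball (DfnF.const ho)
    apply Dfn.imp (Dfn.mem (DfnF.proj 1) (DfnF.proj 0))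
    apply Dfn.not
    exact Dfn.mem (hB.pair' (DfnF.proj 3) (hB.pair' (DfnF.proj 0)
      (dfn_cut hM (DfnF.proj 2) (DfnF.proj 0)))) (DfnF.const hs)

/-- The recursive definition of the generic sequence. -/
noncomputable def Fs (M : Set ZFSet.{0}) (s : ZFSet.{0}) : ZFSet.{0} → ZFSet.{0} :=
  wfF (fun z => z) ZFSet.mem_wf fun _ g => ZFSet.sep (fun q => Qs M s q g) oo

theorem Fs_eq (M : Set ZFSet.{0}) (s z : ZFSet.{0}) :
    Fs M s z = ZFSet.sep (fun q => Qs M s q (gr (Fs M s) z)) oo := by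
  rw [Fs, wfF_eq]

theorem dfn_Fs {M : Set ZFSet.{0}} (hM : IsZF M) {s : ZFSet.{0}} (hs : s ∈ M) :
    DfnF M M fun w : Fin 1 → ZFSet.{0} => Fs M s (w 0) := by
  refine hM.memrec (G := fun _ g => ZFSet.sep (fun q => Qs M s q g) oo) ?_ (Fs_eq M s)
  refine hM.sep' (F := fun _ => oo) (Q := fun q v => Qs M s q (v 1)) (DfnF.const (oo_mem hM)) ?_
  exact Dfn.comp2 (Q := Qs M s) (dfn_Qs hM hs) (DfnF.proj 0) (DfnF.proj 2)

theorem gr_Fs_mem {M : Set ZFSet.{0}} (hM : IsZF M) {s : ZFSet.{0}} (hs : s ∈ M) {i : ZFSet.{0}}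
    (hi : i ∈ M) : gr (Fs M s) i ∈ M := by
  have hB := hM.base
  refine hM.im_mem hi (h := fun u => pair u (Fs M s u)) ?_
  exact hB.pair' (DfnF.proj 0) (DfnF.comp1 (f := Fs M s) (dfn_Fs hM hs) (DfnF.proj 0))

theorem HCt.mem {M : Set ZFSet.{0}} (hM : IsZF M) {a : ZFSet.{0}} (h : HCt M a) : a ∈ M := by
  obtain ⟨T, hT, -, h1, -⟩ := h
  exact hM.trans _ hT _ h1

theorem HCt.down {M : Set ZFSet.{0}} {a b : ZFSet.{0}} (h : HCt M a) (hb : b ∈ a) : HCt M b := by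
  obtain ⟨T, hT, h0, h1, h2⟩ := h
  exact ⟨T, hT, h0, h0 _ h1 _ hb, h2⟩

theorem mem_PW {M : Set ZFSet.{0}} {r : ZFSet.{0}} : r ∈ PW M ↔ r ∈ M ∧ r ⊆ oo := by
  unfold PW
  rw [ZFSet.mem_sep, ZFSet.mem_powerset]
  exact and_comm

theorem mem_rs {c ξ p : ZFSet.{0}} : p ∈ rs c ξ ↔ p ∈ c ∧ fs p ∈ ξ := by
  unfold rs
  rw [ZFSet.mem_sep]

end C5

open C5

theorem c5 : S_HC → S_HC2 → S_PC → S_CT → S_C5 := by
  intro hc _ _ ct V hV C s hG N hNt hN hs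
  rintro ⟨κ, hκ, hκo, hκN⟩
  have hVZ : IsZF V := hV.zfc.toIsZF
  set M : Set ZFSet.{0} := {x | x ∈ N} with hM'
  have hM : IsZF M := hN
  have hsM : s ∈ M := hs
  obtain ⟨o, ho, hC⟩ := hG.func
  have hord : ∀ ξ ∈ M, ξ.IsOrdinal → ξ ∈ V := fun ξ h1 h2 =>
    hVZ.trans _ hκ _ ((hκN ξ h2).1 h1)
  have hoo : o.IsOrdinal := by
    refine ⟨fun y hy z hz => ?_, fun {y z w} h1 h2 h3 => ?_⟩
    · rw [ho] at hy ⊢
      exact ⟨HCt.down hy.1 hz, hy.2.mem hz⟩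
    · exact ((ho w).1 h3).2.mem_trans h1 h2
  -- elements of `C`
  have hCp : ∀ p ∈ C, ∃ j X, p = pair j X ∧ j ∈ o ∧ X ∈ V ∧ X ⊆ oo := by
    intro p hp
    obtain ⟨j, hj, X, hX, rfl⟩ := ZFSet.mem_prod.1 (hC.1 hp)
    exact ⟨j, X, rfl, hj, (mem_PW.1 hX).1, (mem_PW.1 hX).2⟩
  -- agreement of the restrictions
  have hgr : ∀ i, (∀ j ∈ i, j ∈ o ∧ pair j (Fs M s j) ∈ C) → gr (Fs M s) i = rs C i := by
    intro i hi
    ext p
    rw [mem_gr, mem_rs]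
    constructor
    · rintro ⟨j, hj, rfl⟩
      rw [fs_pair]
      exact ⟨(hi j hj).2, hj⟩
    · rintro ⟨hp, hp'⟩
      obtain ⟨j, X, rfl, -, -, -⟩ := hCp p hp
      rw [fs_pair] at hp'
      exact ⟨j, hp', by rw [fun_unique hC hp (hi j hp').2]⟩
  have key : ∀ j, j ∈ M → j ∈ o → pair j (Fs M s j) ∈ C := by
    intro j
    induction j using ZFSet.inductionOn with
    | _ j ih =>
    intro hjM hjo
    have hij : ∀ k ∈ j, k ∈ o ∧ pair k (Fs M s k) ∈ C := fun k hk =>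
      have h1 := hoo.mem_trans hk hjo
      ⟨h1, ih k hk (hM.trans _ hjM _ hk) h1⟩
    have hg := hgr j hij
    obtain ⟨X, hX, hjX⟩ := fun_exists hC hjo
    have hjo' := (ho j).1 hjo
    have hPc : Pc V (rs C j) := hG.pc j hjo'.1 hjo'.2
    have hfM : rs C j ∈ M := hg ▸ gr_Fs_mem hM hsM hjM
    have hfV : rs C j ∈ V := HCt.mem hVZ hPc.1
    have hT : Tra (Tg (rs C j)) := by
      apply tra_Tg
      intro p hp
      obtain ⟨hp1, hp2⟩ := mem_rs.1 hp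
      obtain ⟨i, Y, rfl, -, -, hY⟩ := hCp p hp1
      rw [fs_pair] at hp2
      refine ⟨i, Y, rfl, hY, fun k hk => ?_⟩
      have hkj := hjo'.2.mem_trans hk hp2
      refine ⟨Fs M s k, mem_rs.2 ⟨(hij k hkj).2, ?_⟩⟩
      rw [fs_pair]
      exact hkj
    obtain ⟨hQ, hSQ, hQM, -⟩ := lZF M _ hM (Tg_mem hM hfM) hT
    have hQV : LCb M (Tg (rs C j)) ⊆ V := by
      rintro x ⟨ξ, h1, h2, h3⟩
      exact hVZ.trans _ (Lb_mem_M hVZ (Tg_mem hVZ hfV) (hord ξ h1 h2)) _ h3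
    have hfQ : rs C j ∈ LCb M (Tg (rs C j)) := hQ.trans _ hSQ _ (self_Tg _)
    have hHQ : HCt (LCb M (Tg (rs C j))) (rs C j) := ct _ hQ V _ hfQ hPc
    obtain ⟨r₀, hr₀, hr₀c⟩ := (hc _ hQ).2.1 _ hHQ
    have hXe : Fs M s j = X := by
      rw [Fs_eq, hg]
      ext q
      rw [ZFSet.mem_sep]
      constructor
      · rintro ⟨hq, r, hrM, hro, ⟨ξ, hξ, hξo, Y, hY, hf, hrY⟩, ⟨p, hp, hp1, hp2⟩, hb⟩
        have hYe : Y = Lb (Tg (rs C j)) ξ := (Lb_iff hM (Tg_mem hM hfM) hξ hξo).2 hf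
        have hrQ : r ∈ LCb M (Tg (rs C j)) := ⟨ξ, hξ, hξo, hYe ▸ hrY⟩
        exact (hG.dec j X hjX r (mem_PW.2 ⟨hQV hrQ, hro⟩) ⟨p, hp1, hp2⟩ q hq).2 hb
      · intro hq
        have hqo : q ∈ oo := (mem_PW.1 hX).2 hq
        obtain ⟨hr1, hr2⟩ := mem_PW.1 hr₀
        obtain ⟨p, hp1, hp2⟩ := hr₀c
        obtain ⟨ξ, hξ, hξo, hrξ⟩ := hr1
        refine ⟨hqo, r₀, hQM ⟨ξ, hξ, hξo, hrξ⟩, hr2, ⟨ξ, hξ, hξo, _,
          Lb_mem_M hM (Tg_mem hM hfM) hξ, (Lb_iff hM (Tg_mem hM hfM) hξ hξo).1 rfl, hrξ⟩,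
          ⟨p, ?_, hp1, hp2⟩, ?_⟩
        · exact HCt.mem hM ((hc M hM).2.2.1 r₀ (hQM ⟨ξ, hξ, hξo, hrξ⟩) hr2 p hp1)
        · exact (hG.dec j X hjX r₀ (mem_PW.2 ⟨hQV ⟨ξ, hξ, hξo, hrξ⟩, hr2⟩) ⟨p, hp1, hp2⟩ q hqo).1 hq
    rw [hXe]
    exact hjX
  have hgr' : ∀ i ∈ M, (∀ j ∈ i, j ∈ o) → gr (Fs M s) i = rs C i := fun i hi hi' =>
    hgr i fun j hj => ⟨hi' j hj, key j (hM.trans _ hi _ hj) (hi' j hj)⟩
  by_cases hcase : ∀ i ∈ M, i.IsOrdinal → i ∈ o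
  · -- all ordinals of `M` are countable
    obtain ⟨S, hS, hSo, hSn⟩ := hartogs hM hM.infinity
    have hSo' := hcase S hS hSo
    have h1 := hgr' S hS fun j hj => hoo.mem_trans hj hSo'
    have h2 : rs C S ∈ M := h1 ▸ gr_Fs_mem hM hsM hS
    have h3 : Pc V (rs C S) := hG.pc S ((ho S).1 hSo').1 hSo
    obtain ⟨T, hT, hTt, hST, hTi⟩ := ct M hM V _ h2 h3
    refine hSn (inj_mono hM hS hT hM.infinity ?_ hTi)
    intro j hj
    obtain ⟨X, -, hjX⟩ := fun_exists hC (hoo.mem_trans hj hSo')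
    have h4 : pair j X ∈ rs C S := mem_rs.2 ⟨hjX, by rw [fs_pair]; exact hj⟩
    have h5 : pair j X ∈ T := hTt _ hST _ h4
    refine hTt {j} (hTt _ h5 _ ?_) j (ZFSet.mem_singleton.2 rfl)
    rw [pair, ZFSet.mem_pair]
    exact Or.inl rfl
  · push Not at hcase
    obtain ⟨i, hiM, hio, hin⟩ := hcase
    have hoi : o ⊆ i := by
      rcases hio.mem_or_subset hoo with h | h
      · exact absurd h hin
      · exact h
    have hoM : o ∈ M := by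
      rcases (hoo.subset_iff_eq_or_mem hio).1 hoi with h | h
      · exact h ▸ hiM
      · exact hM.trans _ hiM _ h
    have h1 := hgr' o hoM fun j hj => hj
    have h2 : rs C o = C := by
      ext p
      rw [mem_rs]
      refine ⟨fun h => h.1, fun h => ⟨h, ?_⟩⟩
      obtain ⟨j, X, rfl, hj, -, -⟩ := hCp p h
      rw [fs_pair]
      exact hj
    have hCM : C ∈ M := by
      rw [← h2, ← h1]
      exact gr_Fs_mem hM hsM hoM
    have hR : PW V = im sn C := by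
      ext r
      rw [mem_im]
      constructor
      · intro hr
        obtain ⟨j, hj⟩ := hG.onto r hr
        exact ⟨_, hj, by rw [sn_pair]⟩
      · rintro ⟨p, hp, rfl⟩
        obtain ⟨j, X, rfl, -, h3, h4⟩ := hCp p hp
        rw [sn_pair]
        exact mem_PW.2 ⟨h3, h4⟩
    have hRM : PW V ∈ M := by
      rw [hR]
      exact hM.im_mem hCM (hM.sn' (DfnF.proj 0))
    have hTS : Tra (SB (PW V)) := tra_SB fun x hx => (mem_PW.1 hx).2
    obtain ⟨hL, -, -, -⟩ := lZF M _ hM (SB_mem hM hRM) hTS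
    refine hV.min κ hκ hκo ?_
    have hE : {x | x ∈ Lb (SB (PW V)) κ} = LCb M (SB (PW V)) := by
      ext x
      constructor
      · intro hx
        rcases mem_Lb.1 hx with h | ⟨u, hu, h⟩
        · exact ⟨∅, hM.empty_mem, ZFSet.isOrdinal_empty, Lb_base h⟩
        · have huo := hκo.mem hu
          have huM : u ∈ M := (hκN u huo).2 hu
          refine ⟨sc u, hM.sc_mem huM, isOrdinal_sc huo, ?_⟩
          rw [Lb_sc]
          exact h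
      · rintro ⟨ξ, h3, h4, h5⟩
        exact Lb_subset ((hκN ξ h4).1 h3) h5
    rw [hE]
    exact hL

end Pool.Agent.H637_NO
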