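import Pool.Agent.H637_NO.LZF
import Pool.Agent.R597.Fold
import Pool.Agent.R597.LS

/-!
# New orbits: fast sequences are countable in all models of ZF that contain them
-/

set_option autoImplicit false
set_option linter.unreachableTactic false
set_option linter.unusedTactic false

namespace Pool.Agent.H637_NO

open Pool.Agent.W868 Pool.Agent.W868.GM Pool.Agent.R597
open ZFSet (pair)

/-! ### Unions of two countable sets -/

theorem CT_union {M : Set ZFSet.{0}} (hM : IsZF M) {x y : ZFSet.{0}} (hx : x ∈ M) (hy : y ∈ M)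
    (h1 : Inj M x ZFSet.omega) (h2 : Inj M y ZFSet.omega) : Inj M (x ∪ y) ZFSet.omega := by
  have hB := hM.base
  have hω := hM.infinity
  obtain ⟨f, hf, h1⟩ := h1
  obtain ⟨g, hg, h2⟩ := h2
  have h0M := hM.nat_mem 0
  have h1M := hM.nat_mem 1
  have h01 : nat 0 ≠ nat 1 := fun h => by
    have := nat_injective h
    omega
  have hR : Dfn M M fun w : Fin 2 → ZFSet.{0} =>
      (w 0 ∈ x ∧ ∃ n ∈ ZFSet.omega, pair (w 0) n ∈ f ∧ w 1 = pair (nat 0) n) ∨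
      (¬ w 0 ∈ x ∧ ∃ n ∈ ZFSet.omega, pair (w 0) n ∈ g ∧ w 1 = pair (nat 1) n) := by
    (repeat' first
      | assumption
      | exact DfnF.proj _
      | exact DfnF.const (by assumption)
      | exact DfnF.const' (by first | assumption | trivial) (by first | assumption | trivial)
      | exact Dfn.prop _
      | apply Dfn.not | apply Dfn.and | apply Dfn.or | apply Dfn.imp | apply Dfn.iff
      | apply hB.bex | apply hB.ball | apply Dfn.ex | apply Dfn.all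
      | apply Dfn.eq | apply Dfn.mem | apply hB.pair')
  have h3 : Inj M (x ∪ y) (ZFSet.prod ZFSet.omega ZFSet.omega) := by
    refine Inj.of_rel hM (hM.union_mem hx hy) (hM.prod_mem hω hω)
      (R := fun a b => (a ∈ x ∧ ∃ n ∈ ZFSet.omega, pair a n ∈ f ∧ b = pair (nat 0) n) ∨
        (¬ a ∈ x ∧ ∃ n ∈ ZFSet.omega, pair a n ∈ g ∧ b = pair (nat 1) n)) hR ?_ ?_ ?_
    · intro a ha
      by_cases hax : a ∈ x
      · obtain ⟨n, hn, h3⟩ := fun_exists h1.1 hax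
        exact ⟨_, ZFSet.pair_mem_prod.2 ⟨nat_mem_omega 0, hn⟩, Or.inl ⟨hax, n, hn, h3, rfl⟩⟩
      · have hay : a ∈ y := (ZFSet.mem_union.1 ha).resolve_left hax
        obtain ⟨n, hn, h3⟩ := fun_exists h2.1 hay
        exact ⟨_, ZFSet.pair_mem_prod.2 ⟨nat_mem_omega 1, hn⟩, Or.inr ⟨hax, n, hn, h3, rfl⟩⟩
    · rintro a - b - b' - (⟨h3, n, -, h4, rfl⟩ | ⟨h3, n, -, h4, rfl⟩)
        (⟨h5, n', -, h6, rfl⟩ | ⟨h5, n', -, h6, rfl⟩)
      · rw [fun_unique h1.1 h4 h6]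
      · exact absurd h3 h5
      · exact absurd h5 h3
      · rw [fun_unique h2.1 h4 h6]
    · rintro a - a' - b - (⟨-, n, -, h4, rfl⟩ | ⟨-, n, -, h4, rfl⟩)
        (⟨-, n', -, h6, h7⟩ | ⟨-, n', -, h6, h7⟩)
      · obtain ⟨-, rfl⟩ := ZFSet.pair_inj.1 h7
        exact h1.2 _ _ _ h4 h6
      · exact absurd (ZFSet.pair_inj.1 h7).1 h01
      · exact absurd (ZFSet.pair_inj.1 h7).1.symm h01
      · obtain ⟨-, rfl⟩ := ZFSet.pair_inj.1 h7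
        exact h2.2 _ _ _ h4 h6
  exact Inj.trans hM (hM.union_mem hx hy) hω h3
    (sq_inj hM hω isOrdinal_omega fun _ h => h)

theorem CT_single {M : Set ZFSet.{0}} (hM : IsZF M) {x : ZFSet.{0}} (hx : x ∈ M) :
    Inj M {x} ZFSet.omega := by
  have h := upair_countable hM hx hx
  rw [ZFSet.pair_eq_singleton] at h
  exact h

theorem CT_insert {M : Set ZFSet.{0}} (hM : IsZF M) {x y : ZFSet.{0}} (hx : x ∈ M) (hy : y ∈ M)
    (h : Inj M y ZFSet.omega) : Inj M (insert x y) ZFSet.omega := by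
  have h1 : (insert x y : ZFSet.{0}) = {x} ∪ y := by
    ext z
    simp
  rw [h1]
  exact CT_union hM (hM.single_mem hx) hy (CT_single hM hx) h

/-! ### The base sets -/

theorem CT_mem_rg {c ξ r : ZFSet.{0}} : r ∈ rg c ξ ↔ ∃ q ∈ c, fs q ∈ ξ ∧ r = sn q := by
  rw [rg, mem_im]
  constructor
  · rintro ⟨q, hq, rfl⟩
    obtain ⟨h1, h2⟩ := ZFSet.mem_sep.1 hq
    exact ⟨q, h1, h2, rfl⟩
  · rintro ⟨q, h1, h2, rfl⟩
    exact ⟨q, ZFSet.mem_sep.2 ⟨h1, h2⟩, rfl⟩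

theorem CT_rg_mem {M : Set ZFSet.{0}} (hM : IsZF M) {c ξ : ZFSet.{0}} (hc : c ∈ M)
    (hξ : ξ ∈ M) : rg c ξ ∈ M := by
  refine hM.im_mem (hM.sep_mem (Q := fun p => fs p ∈ ξ) ?_ hc) (hM.sn' (DfnF.proj 0))
  exact Dfn.mem (hM.fs' (DfnF.proj 0)) (DfnF.const hξ)

theorem CT_oo_mem {M : Set ZFSet.{0}} (hM : IsZF M) : oo ∈ M := hM.prod_mem hM.infinity hM.infinity

theorem CT_T0b_mem {M : Set ZFSet.{0}} (hM : IsZF M) : T0b ∈ M := by
  refine hM.union_mem hM.infinity (hM.union_mem (hM.im_mem (CT_oo_mem hM) ?_) (CT_oo_mem hM))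
  exact hM.base.upair' (hM.fs' (DfnF.proj 0)) (hM.sn' (DfnF.proj 0))

theorem CT_T0b_tra : Tra T0b := by
  have hω : Tra ZFSet.omega := fun x hx y hy => isOrdinal_omega.mem_trans hy hx
  intro x hx y hy
  rcases ZFSet.mem_union.1 hx with h | h
  · exact ZFSet.mem_union.2 (Or.inl (hω x h y hy))
  rcases ZFSet.mem_union.1 h with h | h
  · obtain ⟨p, hp, rfl⟩ := mem_im.1 h
    obtain ⟨m, hm, n, hn, rfl⟩ := ZFSet.mem_prod.1 hp
    rw [fs_pair, sn_pair, ZFSet.mem_pair] at hy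
    refine ZFSet.mem_union.2 (Or.inl ?_)
    rcases hy with rfl | rfl
    · exact hm
    · exact hn
  · obtain ⟨m, hm, n, hn, rfl⟩ := ZFSet.mem_prod.1 h
    rw [pair, ZFSet.mem_pair] at hy
    refine ZFSet.mem_union.2 (Or.inr (ZFSet.mem_union.2 (Or.inl ?_)))
    rcases hy with rfl | rfl
    · exact mem_im.2 ⟨pair m m, ZFSet.pair_mem_prod.2 ⟨hm, hm⟩, by
        rw [fs_pair, sn_pair, ZFSet.pair_eq_singleton]⟩
    · exact mem_im.2 ⟨pair m n, ZFSet.pair_mem_prod.2 ⟨hm, hn⟩, by rw [fs_pair, sn_pair]⟩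

theorem CT_oo_sub : oo ⊆ T0b := fun _ h =>
  ZFSet.mem_union.2 (Or.inr (ZFSet.mem_union.2 (Or.inr h)))

theorem CT_SB_tra {H : ZFSet.{0}} (hH : ∀ r ∈ H, r ⊆ oo) : Tra (SB H) := by
  intro x hx y hy
  rcases ZFSet.mem_union.1 hx with h | h
  · exact ZFSet.mem_union.2 (Or.inl (CT_T0b_tra x h y hy))
  rcases ZFSet.mem_insert_iff.1 h with rfl | h
  · exact ZFSet.mem_union.2 (Or.inr (ZFSet.mem_insert_iff.2 (Or.inr hy)))
  · exact ZFSet.mem_union.2 (Or.inl (CT_oo_sub (hH x h hy)))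

theorem CT_SB_mem {M : Set ZFSet.{0}} (hM : IsZF M) {H : ZFSet.{0}} (hH : H ∈ M) : SB H ∈ M :=
  hM.union_mem (CT_T0b_mem hM) (hM.insert_mem hH hH)

/-! ### Collapses -/

theorem CT_clp_val {r p p' : ZFSet.{0}} (h : Clp r p) (h' : Clp r p') :
    ∀ x n x', pair n x ∈ p → pair n x' ∈ p' → x = x' := by
  intro x
  induction x using ZFSet.inductionOn with
  | _ x ih =>
  intro n x' hx hx'
  obtain ⟨n1, x1, e1, hn, a1, a2⟩ := h.1 _ hx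
  obtain ⟨rfl, rfl⟩ := ZFSet.pair_inj.1 e1
  obtain ⟨n2, x2, e2, -, b1, b2⟩ := h'.1 _ hx'
  obtain ⟨rfl, rfl⟩ := ZFSet.pair_inj.1 e2
  ext y
  constructor
  · intro hy
    obtain ⟨m, hm, hmn, hmy⟩ := a1 y hy
    obtain ⟨y', hy', h3⟩ := b2 m hm hmn
    rw [ih y hy m y' hmy h3]
    exact hy'
  · intro hy
    obtain ⟨m, hm, hmn, hmy⟩ := b1 y hy
    obtain ⟨y', hy', h3⟩ := a2 m hm hmn
    rw [← ih y' hy' m y h3 hmy]
    exact hy'

theorem CT_clp_unique {r p p' : ZFSet.{0}} (h : Clp r p) (h' : Clp r p') : p = p' := by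
  have key : ∀ {p p' : ZFSet.{0}}, Clp r p → Clp r p' → p ⊆ p' := by
    intro p p' h h' q hq
    obtain ⟨n, x, rfl, hn, -, -⟩ := h.1 q hq
    obtain ⟨x', hx'⟩ := h'.2 n hn
    rw [CT_clp_val h h' x n x' hq hx']
    exact hx'
  apply ZFSet.ext
  intro q
  exact ⟨fun hq => key h h' hq, fun hq => key h' h hq⟩

theorem CT_dfn_clp {M : Set ZFSet.{0}} (hM : IsZF M) :
    Dfn M M fun w : Fin 2 → ZFSet.{0} => Clp (w 0) (w 1) := by
  have hB := hM.base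
  have hω := hM.infinity
  have h : Dfn M M fun w : Fin 2 → ZFSet.{0} =>
      (∀ q ∈ w 1, ∃ n ∈ M, ∃ x ∈ M, q = pair n x ∧ n ∈ ZFSet.omega ∧
        (∀ y ∈ x, ∃ m ∈ ZFSet.omega, pair m n ∈ w 0 ∧ pair m y ∈ w 1) ∧
        ∀ m ∈ ZFSet.omega, pair m n ∈ w 0 → ∃ y ∈ x, pair m y ∈ w 1) ∧
      ∀ n ∈ ZFSet.omega, ∃ x ∈ M, pair n x ∈ w 1 := by
    (repeat' first
      | assumption
      | exact DfnF.proj _
      | exact DfnF.const (by assumption)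
      | exact DfnF.const' (by first | assumption | trivial) (by first | assumption | trivial)
      | exact Dfn.prop _
      | apply Dfn.not | apply Dfn.and | apply Dfn.or | apply Dfn.imp | apply Dfn.iff
      | apply hB.bex | apply hB.ball | apply Dfn.ex | apply Dfn.all
      | apply Dfn.eq | apply Dfn.mem | apply hB.pair')
  refine h.congr fun v hv => ?_
  constructor
  · rintro ⟨h1, h2⟩
    refine ⟨fun q hq => ?_, fun n hn => ?_⟩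
    · obtain ⟨n, -, x, -, h3⟩ := h1 q hq
      exact ⟨n, x, h3⟩
    · obtain ⟨x, -, h3⟩ := h2 n hn
      exact ⟨x, h3⟩
  · rintro ⟨h1, h2⟩
    refine ⟨fun q hq => ?_, fun n hn => ?_⟩
    · obtain ⟨n, x, rfl, h3⟩ := h1 q hq
      have h4 := hM.of_pair_mem (hM.trans _ (hv 1) _ hq)
      exact ⟨n, h4.1, x, h4.2, rfl, h3⟩
    · obtain ⟨x, h3⟩ := h2 n hn
      exact ⟨x, (hM.of_pair_mem (hM.trans _ (hv 1) _ h3)).2, h3⟩

/-! ### The function of the witness is in the model -/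

theorem CT_G_mem {Q : Set ZFSet.{0}} (hQ : IsZF Q) {S ξ η G : ZFSet.{0}} (hS : S ∈ Q)
    (hT : Tra S) (hη : η.IsOrdinal) (hξ : ξ ∈ Q) (hξo : ξ.IsOrdinal) (hG : G ∈ Lb S η)
    (hmin : ∀ α ∈ η, ξ ∈ α → ¬ IsZF {x | x ∈ Lb S α}) : G ∈ Q := by
  by_cases h : η ∈ Q
  · exact hQ.trans _ (Lb_mem_M hQ hS h) _ hG
  obtain ⟨κ, hk⟩ : ∃ κ : ZFSet.{0}, ∀ z, z ∈ κ ↔ z ∈ η ∧ z ∈ Q :=
    ⟨ZFSet.sep (fun z => z ∈ Q) η, fun z => ZFSet.mem_sep⟩
  have hκo : κ.IsOrdinal := by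
    refine ⟨?_, ?_⟩
    · intro x hx y hy
      have hx' := (hk x).1 hx
      exact (hk y).2 ⟨hη.isTransitive.mem_trans hy hx'.1, hQ.trans _ hx'.2 _ hy⟩
    · intro x y z hx hy hz
      exact (hη.mem ((hk z).1 hz).1).mem_trans hx hy
  have hall : ∀ ζ ∈ Q, ζ.IsOrdinal → ζ ∈ κ := by
    intro ζ hζ hζo
    rcases hζo.mem_trichotomous hη with h1 | rfl | h1
    · exact (hk ζ).2 ⟨h1, hζ⟩
    · exact absurd hζ h
    · exact absurd (hQ.trans _ hζ _ h1) h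
  have heq : {x | x ∈ Lb S κ} = LCb Q S := by
    ext x
    constructor
    · intro hx
      rcases mem_Lb.1 hx with h1 | ⟨u, hu, h1⟩
      · exact ⟨∅, hQ.empty_mem, ZFSet.isOrdinal_empty, Lb_base h1⟩
      · exact ⟨sc u, hQ.sc_mem ((hk u).1 hu).2, isOrdinal_sc (hη.mem ((hk u).1 hu).1),
          by rw [Lb_sc]; exact h1⟩
    · rintro ⟨ξ', h1, h2, h3⟩
      exact Lb_subset (hall ξ' h1 h2) h3
  have hZ : IsZF {x | x ∈ Lb S κ} := by
    rw [heq]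
    exact (lZF Q S hQ hS hT).1
  have hsub : κ ⊆ η := fun z hz => ((hk z).1 hz).1
  have hκη : κ = η := by
    rcases (hκo.subset_iff_eq_or_mem hη).1 hsub with h1 | h1
    · exact h1
    · exact absurd hZ (hmin κ h1 (hall ξ hξ hξo))
  have h2 : G ∈ LCb Q S := by
    rw [← heq, hκη]
    exact hG
  exact (lZF Q S hQ hS hT).2.2.1 h2

/-! ### Limit lengths are countable -/

/-- The relation of the first kind of steps: from `x` with the number `n` to the value at `n` of the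
collapse of the first value of `c` whose collapse has `x` in its range. -/
def CTA (Q : Set ZFSet.{0}) (c ξ u y : ZFSet.{0}) : Prop :=
  ∃ j ∈ ξ, ∃ r ∈ Q, ∃ p ∈ Q, pair j r ∈ c ∧ Clp r p ∧ (∃ n ∈ ZFSet.omega, pair n (fs u) ∈ p) ∧
    pair (sn u) y ∈ p ∧ ∀ j' ∈ j, ¬ ∃ r' ∈ Q, ∃ p' ∈ Q, pair j' r' ∈ c ∧ Clp r' p' ∧
      ∃ n ∈ ZFSet.omega, pair n (fs u) ∈ p'

/-- The relation of the second kind of steps. -/
def CTB (Q : Set ZFSet.{0}) (c G ξ x y : ZFSet.{0}) : Prop :=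
  ∃ r ∈ Q, ∃ g ∈ Q, pair x r ∈ c ∧ pair r g ∈ G ∧ g ∈ ξ ∧ y = sc g

theorem CT_dfnA {Q : Set ZFSet.{0}} (hQ : IsZF Q) {c ξ : ZFSet.{0}} (hc : c ∈ Q) (hξ : ξ ∈ Q) :
    Dfn Q Q fun w : Fin 2 → ZFSet.{0} => CTA Q c ξ (w 0) (w 1) := by
  have hB := hQ.base
  have hω := hQ.infinity
  unfold CTA
  (repeat' first
      | assumption
      | exact DfnF.proj _
      | exact DfnF.const (by assumption)
      | exact DfnF.const' (by first | assumption | trivial) (by first | assumption | trivial)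
      | exact Dfn.prop _
      | exact Dfn.comp2 (Q := Clp) (CT_dfn_clp hQ) (DfnF.proj _) (DfnF.proj _)
      | apply Dfn.not | apply Dfn.and | apply Dfn.or | apply Dfn.imp | apply Dfn.iff
      | apply hB.bex | apply hB.ball | apply Dfn.ex | apply Dfn.all
      | apply Dfn.eq | apply Dfn.mem | apply hB.pair' | apply hQ.fs' | apply hQ.sn')

theorem CT_dfnB {Q : Set ZFSet.{0}} (hQ : IsZF Q) {c G ξ : ZFSet.{0}} (hc : c ∈ Q) (hG : G ∈ Q)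
    (hξ : ξ ∈ Q) : Dfn Q Q fun w : Fin 2 → ZFSet.{0} => CTB Q c G ξ (w 0) (w 1) := by
  have hB := hQ.base
  unfold CTB sc
  (repeat' first
      | assumption
      | exact DfnF.proj _
      | exact DfnF.const (by assumption)
      | exact DfnF.const' (by first | assumption | trivial) (by first | assumption | trivial)
      | exact Dfn.prop _
      | apply Dfn.not | apply Dfn.and | apply Dfn.or | apply Dfn.imp | apply Dfn.iff
      | apply hB.bex | apply hB.ball | apply Dfn.ex | apply Dfn.all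
      | apply Dfn.eq | apply Dfn.mem | apply hB.pair' | apply hB.insert')

open Classical in
/-- The steps. -/
noncomputable def CTS (fA fB : ZFSet.{0}) (x a : ZFSet.{0}) : ZFSet.{0} :=
  if fs a = nat 0 then ap fA (pair x (sn a)) else if fs a = nat 1 then ap fB x else sn a

theorem CT_dfnS {Q : Set ZFSet.{0}} (hQ : IsZF Q) {fA fB : ZFSet.{0}} (hA : fA ∈ Q)
    (hB' : fB ∈ Q) : DfnF Q Q fun w : Fin 2 → ZFSet.{0} => CTS fA fB (w 0) (w 1) := by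
  have hB := hQ.base
  have h0 := hQ.nat_mem 0
  have h1 := hQ.nat_mem 1
  unfold CTS
  refine DfnF.ite (Dfn.eq (hQ.fs' (DfnF.proj 1)) (DfnF.const h0))
    (hQ.ap' (DfnF.const hA) (hB.pair' (DfnF.proj 0) (hQ.sn' (DfnF.proj 1)))) ?_
  exact DfnF.ite (Dfn.eq (hQ.fs' (DfnF.proj 1)) (DfnF.const h1))
    (hQ.ap' (DfnF.const hB') (DfnF.proj 0)) (hQ.sn' (DfnF.proj 1))

theorem CT_nat_ne {m n : ℕ} (h : m ≠ n) : nat m ≠ nat n := fun h' => h (nat_injective h')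

theorem CT_lim {Q : Set ZFSet.{0}} (hQ : IsZF Q)
    (hcl : ∀ r ∈ Q, r ⊆ oo → ∀ p, Clp r p → p ∈ Q) {c ξ δ P η G ζ₀ : ZFSet.{0}}
    (hc : c ∈ Q) (hξ : ξ ∈ Q) (hlim : Lim ξ) (hδ : δ.IsOrdinal)
    (hfun : ZFSet.IsFunc δ P c) (hP : ∀ r ∈ P, r ⊆ oo)
    (hG : G ∈ Q) (hW : Wt c ξ η G ζ₀) (h0 : Inj Q (sc ζ₀) ZFSet.omega) :
    Inj Q ξ ZFSet.omega := by
  have hB := hQ.base
  have hω := hQ.infinity
  obtain ⟨hξo, hξ0, hξs⟩ := hlim
  obtain ⟨-, -, hFu, hζ₀, hW2, -, hW4⟩ := hW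
  have hζQ : sc ζ₀ ∈ Q := hQ.sc_mem (hQ.trans _ hξ _ hζ₀)
  have hcr : ∀ {j r : ZFSet.{0}}, pair j r ∈ c → r ∈ Q ∧ r ⊆ oo := by
    intro j r h
    exact ⟨(hQ.of_pair_mem (hQ.trans _ hc _ h)).2, hP r (ZFSet.pair_mem_prod.1 (hfun.1 h)).2⟩
  have hcp : ∀ {j r p : ZFSet.{0}}, pair j r ∈ c → Clp r p → p ∈ Q := by
    intro j r p h h'
    exact hcl r (hcr h).1 (hcr h).2 p h'
  -- the tables of the steps
  obtain ⟨fA, hfA, hfA1, hfA2⟩ := hQ.rel_mem (hQ.prod_mem hξ hω) hξ (Q := CTA Q c ξ)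
    (CT_dfnA hQ hc hξ)
  obtain ⟨fB, hfB, hfB1, hfB2⟩ := hQ.rel_mem hξ hξ (Q := CTB Q c G ξ) (CT_dfnB hQ hc hG hξ)
  have hA1 : ∀ {u y y' : ZFSet.{0}}, CTA Q c ξ u y → CTA Q c ξ u y' → y = y' := by
    rintro u y y' ⟨j, hj, r, hr, p, hp, h1, h2, h3, h4, h5⟩
      ⟨j', hj', r', hr', p', hp', h1', h2', h3', h4', h5'⟩
    have hjj : j = j' := by
      rcases (hξo.mem hj).mem_trichotomous (hξo.mem hj') with h | h | h
      · exact absurd ⟨r, hr, p, hp, h1, h2, h3⟩ (h5' j h)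
      · exact h
      · exact absurd ⟨r', hr', p', hp', h1', h2', h3'⟩ (h5 j' h)
    subst hjj
    obtain rfl := fun_unique hfun h1 h1'
    obtain rfl := CT_clp_unique h2 h2'
    exact CT_clp_val h2 h2 _ _ _ h4 h4'
  have hB1 : ∀ {u y y' : ZFSet.{0}}, CTB Q c G ξ u y → CTB Q c G ξ u y' → y = y' := by
    rintro u y y' ⟨r, hr, g, hg, h1, h2, h3, rfl⟩ ⟨r', hr', g', hg', h1', h2', h3', rfl⟩
    obtain rfl := fun_unique hfun h1 h1'
    obtain ⟨r1, g1, e1, h4⟩ := hFu _ h2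
    obtain ⟨rfl, rfl⟩ := ZFSet.pair_inj.1 e1
    rw [h4 g' h2']
  have hapA : ∀ {x n y : ZFSet.{0}}, x ∈ ξ → n ∈ ZFSet.omega → y ∈ ξ →
      CTA Q c ξ (pair x n) y → ap fA (pair x n) = y := by
    intro x n y hx hn hy h
    refine ap_unique ((hfA2 _ _).2 ⟨ZFSet.pair_mem_prod.2 ⟨hx, hn⟩, hy, h⟩) fun q hq hq' => ?_
    obtain ⟨a, ha, b, hb, rfl⟩ := ZFSet.mem_prod.1 (hfA1 hq)
    rw [fs_pair] at hq'
    subst hq'
    rw [sn_pair]
    exact hA1 ((hfA2 _ _).1 hq).2.2 h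
  have hapB : ∀ {x y : ZFSet.{0}}, x ∈ ξ → y ∈ ξ → CTB Q c G ξ x y → ap fB x = y := by
    intro x y hx hy h
    refine ap_unique ((hfB2 _ _).2 ⟨hx, hy, h⟩) fun q hq hq' => ?_
    obtain ⟨a, ha, b, hb, rfl⟩ := ZFSet.mem_prod.1 (hfB1 hq)
    rw [fs_pair] at hq'
    subst hq'
    rw [sn_pair]
    exact hB1 ((hfB2 _ _).1 hq).2.2 h
  -- the letters
  set W : ZFSet.{0} := ZFSet.prod ZFSet.omega (ZFSet.omega ∪ sc ζ₀) with hWdef
  have hU : ZFSet.omega ∪ sc ζ₀ ∈ Q := hQ.union_mem hω hζQ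
  have hWQ : W ∈ Q := hQ.prod_mem hω hU
  have hωω : Inj Q ZFSet.omega ZFSet.omega := Inj.of_subset hQ hω hω fun _ h => h
  have hWc : Inj Q W ZFSet.omega :=
    Inj.trans hQ hWQ hω (Inj.prod hQ hω hU hω hω hωω (CT_union hQ hω hζQ hωω h0))
      (sq_inj hQ hω isOrdinal_omega fun _ h => h)
  have hd := dfn_fold hQ (G := CTS fA fB) hQ.empty_mem (CT_dfnS hQ hfA hfB)
  set F := fold (CTS fA fB) ∅ with hF
  have hFp : ∀ u a, F (pair u a) = CTS fA fB (F u) a := fun u a => fold_pair _ _ _ _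
  have hF0 : ∀ u n, F (pair u (pair (nat 0) n)) = ap fA (pair (F u) n) := by
    intro u n
    rw [hFp, CTS, fs_pair, sn_pair, if_pos rfl]
  have hF1 : ∀ u n, F (pair u (pair (nat 1) n)) = ap fB (F u) := by
    intro u n
    rw [hFp, CTS, fs_pair, if_neg (CT_nat_ne (by norm_num)), if_pos rfl]
  have hF2 : ∀ u n, F (pair u (pair (nat 2) n)) = n := by
    intro u n
    rw [hFp, CTS, fs_pair, sn_pair, if_neg (CT_nat_ne (by norm_num)),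
      if_neg (CT_nat_ne (by norm_num))]
  -- the closure
  obtain ⟨X, hX⟩ : ∃ X : ZFSet.{0}, ∀ y, y ∈ X ↔ y ∈ ξ ∧ ∃ t ∈ R597.Sq W, F t = y :=
    ⟨ZFSet.sep (fun y => ∃ t ∈ R597.Sq W, F t = y) ξ, fun y => ZFSet.mem_sep⟩
  have hXb : ∀ β ∈ sc ζ₀, β ∈ X := by
    intro β hβ
    have h1 : β ∈ ξ := by
      rcases ZFSet.mem_insert_iff.1 hβ with rfl | h
      · exact hζ₀
      · exact hξo.mem_trans h hζ₀
    refine (hX β).2 ⟨h1, pair ∅ (pair (nat 2) β), pair_mem_Sq empty_mem_Sq ?_, hF2 _ _⟩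
    exact ZFSet.pair_mem_prod.2 ⟨nat_mem_omega 2, ZFSet.mem_union.2 (Or.inr hβ)⟩
  have hXt : ∀ x ∈ X, ∀ α ∈ x, α ∈ X := by
    intro x hx α hα
    obtain ⟨hxξ, t, ht, rfl⟩ := (hX x).1 hx
    have hαξ : α ∈ ξ := hξo.mem_trans hα hxξ
    obtain ⟨j0, hj0, r0, p0, h1, h2, h3⟩ := hW4 _ hxξ
    have hne : {j : ZFSet.{0} | ∃ r ∈ Q, ∃ p ∈ Q, pair j r ∈ c ∧ Clp r p ∧
        ∃ n ∈ ZFSet.omega, pair n (F t) ∈ p}.Nonempty :=
      ⟨j0, r0, (hcr h1).1, p0, hcp h1 h2, h1, h2, h3⟩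
    obtain ⟨r, hr, p, hp, h4, h5, n, hn, h6⟩ := ZFSet.mem_wf.min_mem _ hne
    have hmin : ∀ j' ∈ ZFSet.mem_wf.min _ hne, ¬ ∃ r' ∈ Q, ∃ p' ∈ Q, pair j' r' ∈ c ∧
        Clp r' p' ∧ ∃ n ∈ ZFSet.omega, pair n (F t) ∈ p' := by
      intro j' hj' h7
      exact ZFSet.mem_wf.not_lt_min {j : ZFSet.{0} | ∃ r ∈ Q, ∃ p ∈ Q, pair j r ∈ c ∧ Clp r p ∧
        ∃ n ∈ ZFSet.omega, pair n (F t) ∈ p} h7 hj'
    set j := ZFSet.mem_wf.min _ hne with hj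
    have hjδ : j ∈ δ := (ZFSet.pair_mem_prod.1 (hfun.1 h4)).1
    have hjξ : j ∈ ξ := by
      rcases (hδ.mem hjδ).mem_trichotomous (hξo.mem hj0) with h | h | h
      · exact hξo.mem_trans h hj0
      · rw [h]; exact hj0
      · exact absurd ⟨r0, (hcr h1).1, p0, hcp h1 h2, h1, h2, h3⟩ (hmin j0 h)
    obtain ⟨n1, x1, e1, -, h7, -⟩ := h5.1 _ h6
    obtain ⟨rfl, rfl⟩ := ZFSet.pair_inj.1 e1
    obtain ⟨m, hm, -, h8⟩ := h7 α hα
    have h9 : CTA Q c ξ (pair (F t) m) α := by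
      refine ⟨j, hjξ, r, hr, p, hp, h4, h5, ?_, ?_, ?_⟩
      · rw [fs_pair]; exact ⟨n, hn, h6⟩
      · rw [sn_pair]; exact h8
      · intro j' hj'
        rw [fs_pair]
        exact hmin j' hj'
    refine (hX α).2 ⟨hαξ, pair t (pair (nat 0) m), pair_mem_Sq ht ?_, ?_⟩
    · exact ZFSet.pair_mem_prod.2 ⟨nat_mem_omega 0, ZFSet.mem_union.2 (Or.inl hm)⟩
    · rw [hF0]
      exact hapA hxξ hm hαξ h9
  have hXo : X.IsOrdinal := by
    refine ⟨fun x hx y hy => hXt x hx y hy, ?_⟩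
    intro x y z hx hy hz
    exact (hξo.mem ((hX z).1 hz).1).mem_trans hx hy
  have hXξ : X ⊆ ξ := fun y hy => ((hX y).1 hy).1
  have hXeq : X = ξ := by
    rcases (hXo.subset_iff_eq_or_mem hξo).1 hXξ with h | h
    · exact h
    · exfalso
      obtain ⟨j, hj, r, g, h1, h2, h3, h4⟩ := hW2 X h (hXb ζ₀ (ZFSet.mem_insert _ _))
      obtain ⟨hjξ, t, ht, rfl⟩ := (hX j).1 hj
      have h5 : sc g ∈ ξ := hξs g h3
      have h6 : CTB Q c G ξ (F t) (sc g) :=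
        ⟨r, (hcr h1).1, g, (hQ.of_pair_mem (hQ.trans _ hG _ h2)).2, h1, h2, h3, rfl⟩
      have h7 : sc g ∈ X := by
        refine (hX _).2 ⟨h5, pair t (pair (nat 1) ∅), pair_mem_Sq ht ?_, ?_⟩
        · exact ZFSet.pair_mem_prod.2 ⟨nat_mem_omega 1,
            ZFSet.mem_union.2 (Or.inl (nat_mem_omega 0))⟩
        · rw [hF1]
          exact hapB hjξ h5 h6
      exact ZFSet.mem_asymm (h4 h7) (ZFSet.mem_insert _ _)
  -- the injection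
  have hSq := Sq_mem hQ hWQ
  have h1 : Inj Q (im F (R597.Sq W)) ZFSet.omega :=
    Inj.image hQ hSq hω isOrdinal_omega (Sq_countable hQ hWQ hWc) hd
  have h2 : ξ ⊆ im F (R597.Sq W) := by
    intro y hy
    rw [← hXeq] at hy
    obtain ⟨-, t, ht, h3⟩ := (hX y).1 hy
    exact mem_im.2 ⟨t, ht, h3.symm⟩
  exact Inj.trans hQ hξ hω (Inj.of_subset hQ hξ (hQ.im_mem hSq hd) h2) h1

/-! ### The piece -/

theorem CT_mem_sc {δ : ZFSet.{0}} (hδ : δ.IsOrdinal) {ξ : ZFSet.{0}} (h : ξ ∈ sc δ) :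
    ξ.IsOrdinal ∧ ξ ⊆ δ := by
  refine ⟨(isOrdinal_sc hδ).mem h, ?_⟩
  rcases ZFSet.mem_insert_iff.1 h with rfl | h
  · exact fun _ h => h
  · exact hδ.subset_of_mem h

theorem CT_ctb {Q : Set ZFSet.{0}} (hQ : IsZF Q)
    (hcl : ∀ r ∈ Q, r ⊆ oo → ∀ p, Clp r p → p ∈ Q) {c δ P : ZFSet.{0}}
    (hc : c ∈ Q) (hδQ : δ ∈ Q) (hδ : δ.IsOrdinal)
    (hfun : ZFSet.IsFunc δ P c) (hP : ∀ r ∈ P, r ⊆ oo)
    (hW : ∀ ξ ∈ sc δ, Lim ξ → ∃ η G ζ₀, Wt c ξ η G ζ₀) :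
    ∀ ξ ∈ sc δ, Inj Q ξ ZFSet.omega := by
  have hω := hQ.infinity
  intro ξ
  induction ξ using ZFSet.inductionOn with
  | _ ξ ih =>
  intro hξδ
  have hξQ : ξ ∈ Q := hQ.trans _ (hQ.sc_mem hδQ) _ hξδ
  obtain ⟨hξo, -⟩ := CT_mem_sc hδ hξδ
  have hih : ∀ ζ ∈ ξ, Inj Q (sc ζ) ZFSet.omega := by
    intro ζ hζ
    have h1 : ζ ∈ sc δ := (isOrdinal_sc hδ).mem_trans hζ hξδ
    have h2 := ih ζ hζ h1
    have h3 : ζ ∈ Q := hQ.trans _ hξQ _ hζ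
    exact CT_insert hQ h3 h3 h2
  by_cases h0 : ξ = ∅
  · subst h0
    exact Inj.of_subset hQ hξQ hω fun _ h => absurd h (ZFSet.notMem_empty _)
  by_cases hl : ∀ ζ ∈ ξ, sc ζ ∈ ξ
  · have hlim : Lim ξ := ⟨hξo, h0, hl⟩
    obtain ⟨η, G, ζ₀, hw⟩ := hW ξ hξδ hlim
    have hH : ∀ r ∈ rg c ξ, r ⊆ oo := by
      intro r hr
      obtain ⟨q, hq, -, rfl⟩ := CT_mem_rg.1 hr
      obtain ⟨a, ha, b, hb, rfl⟩ := ZFSet.mem_prod.1 (hfun.1 hq)
      rw [sn_pair]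
      exact hP b hb
    have hG : G ∈ Q := CT_G_mem hQ (CT_SB_mem hQ (CT_rg_mem hQ hc hξQ)) (CT_SB_tra hH) hw.1 hξQ
      hξo hw.2.1 hw.2.2.2.2.2.1
    exact CT_lim hQ hcl hc hξQ hlim hδ hfun hP hG hw (hih ζ₀ hw.2.2.2.1)
  · push Not at hl
    obtain ⟨ζ, hζ, h1⟩ := hl
    have h2 : sc ζ = ξ := by
      rcases (isOrdinal_sc (hξo.mem hζ)).mem_trichotomous hξo with h | h | h
      · exact absurd h h1
      · exact h
      · rcases ZFSet.mem_insert_iff.1 h with h | h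
        · exact absurd (h ▸ hζ) (ZFSet.mem_irrefl _)
        · exact absurd hζ (ZFSet.mem_asymm h)
    rw [← h2]
    exact hih ζ hζ

theorem cT : S_HC → S_HC2 → S_CT := by
  intro hHC hHC2 Q hQ M c hc hP
  obtain ⟨-, δ, hδ, hfun, hW⟩ := hP
  have hB := hQ.base
  have hω := hQ.infinity
  obtain ⟨-, -, h3, -, -⟩ := hHC Q hQ
  have hcl : ∀ r ∈ Q, r ⊆ oo → ∀ p, Clp r p → p ∈ Q := by
    intro r hr hro p hp
    exact ((hHC2.1 Q hQ).2.2.1 p (h3 r hr hro p hp)).1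
  have hPW : ∀ r ∈ PW M, r ⊆ oo := fun r hr => ZFSet.mem_powerset.1 (ZFSet.mem_sep.1 hr).1
  have hdom : δ = im fs c := by
    ext j
    rw [mem_im]
    constructor
    · intro hj
      obtain ⟨b, -, h⟩ := fun_exists hfun hj
      exact ⟨_, h, (fs_pair _ _).symm⟩
    · rintro ⟨q, hq, rfl⟩
      obtain ⟨a, ha, b, hb, rfl⟩ := ZFSet.mem_prod.1 (hfun.1 hq)
      rw [fs_pair]
      exact ha
  have hδQ : δ ∈ Q := by
    rw [hdom]
    exact hQ.im_mem hc (hQ.fs' (DfnF.proj 0))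
  have hctb := CT_ctb hQ hcl hc hδQ hδ hfun hPW (by
    intro ξ hξ hl
    obtain ⟨η, G, ζ₀, -, h⟩ := hW ξ hξ hl
    exact ⟨η, G, ζ₀, h⟩)
  have hδc := hctb δ (ZFSet.mem_insert _ _)
  -- the transitive set
  obtain ⟨T', hT', hT't, hT'o, hT'c⟩ := (hHC2.1 Q hQ).2.2.2.2
  have hfs : DfnF Q Q fun w : Fin 1 → ZFSet.{0} => fs (w 0) := hQ.fs' (DfnF.proj 0)
  have hsn : DfnF Q Q fun w : Fin 1 → ZFSet.{0} => sn (w 0) := hQ.sn' (DfnF.proj 0)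
  have hs1 : DfnF Q Q fun w : Fin 1 → ZFSet.{0} => ({fs (w 0)} : ZFSet.{0}) := hB.single' hfs
  have hs2 : DfnF Q Q fun w : Fin 1 → ZFSet.{0} => ({fs (w 0), sn (w 0)} : ZFSet.{0}) :=
    hB.upair' hfs hsn
  have hcc : Inj Q c ZFSet.omega := by
    have h1 : Inj Q c δ := by
      refine Inj.of_fun hQ hc hδQ (h := fs) hfs ?_ ?_
      · intro q hq
        obtain ⟨a, ha, b, hb, rfl⟩ := ZFSet.mem_prod.1 (hfun.1 hq)
        rw [fs_pair]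
        exact ha
      · intro q hq q' hq' h
        obtain ⟨a, ha, b, hb, rfl⟩ := ZFSet.mem_prod.1 (hfun.1 hq)
        obtain ⟨a', ha', b', hb', rfl⟩ := ZFSet.mem_prod.1 (hfun.1 hq')
        rw [fs_pair, fs_pair] at h
        subst h
        rw [fun_unique hfun hq hq']
    exact Inj.trans hQ hc hω h1 hδc
  have him : ∀ {h : ZFSet.{0} → ZFSet.{0}}, DfnF Q Q (fun w : Fin 1 → ZFSet.{0} => h (w 0)) →
      im h c ∈ Q ∧ Inj Q (im h c) ZFSet.omega := fun hh =>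
    ⟨hQ.im_mem hc hh, Inj.image hQ hc hω isOrdinal_omega hcc hh⟩
  obtain ⟨m1, i1⟩ := him (h := fun q => ({fs q} : ZFSet.{0})) hs1
  obtain ⟨m2, i2⟩ := him (h := fun q => ({fs q, sn q} : ZFSet.{0})) hs2
  obtain ⟨m3, i3⟩ := him (h := sn) hsn
  have hu : ∀ {x y : ZFSet.{0}}, x ∈ Q ∧ Inj Q x ZFSet.omega → y ∈ Q ∧ Inj Q y ZFSet.omega →
      (x ∪ y) ∈ Q ∧ Inj Q (x ∪ y) ZFSet.omega := fun h h' =>
    ⟨hQ.union_mem h.1 h'.1, CT_union hQ h.1 h'.1 h.2 h'.2⟩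
  obtain ⟨n1, n2⟩ := hu ⟨hc, hcc⟩ (hu ⟨m1, i1⟩ (hu ⟨m2, i2⟩ (hu ⟨m3, i3⟩
    (hu ⟨hδQ, hδc⟩ ⟨hT', hT'c⟩))))
  refine ⟨insert c (c ∪ (im (fun q => ({fs q} : ZFSet.{0})) c ∪
    (im (fun q => ({fs q, sn q} : ZFSet.{0})) c ∪ (im sn c ∪ (δ ∪ T'))))),
    hQ.insert_mem hc n1, ?_, ZFSet.mem_insert _ _, CT_insert hQ hc n1 n2⟩
  intro x hx y hy
  simp only [ZFSet.mem_insert_iff, ZFSet.mem_union] at hx ⊢
  have hcase : ∀ q ∈ c, ∃ a ∈ δ, ∃ b, b ⊆ oo ∧ q = pair a b := by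
    intro q hq
    obtain ⟨a, ha, b, hb, rfl⟩ := ZFSet.mem_prod.1 (hfun.1 hq)
    exact ⟨a, ha, b, hPW b hb, rfl⟩
  rcases hx with rfl | hx | hx | hx | hx | hx | hx
  · exact Or.inr (Or.inl hy)
  · obtain ⟨a, ha, b, hb, rfl⟩ := hcase x hx
    rw [pair, ZFSet.mem_pair] at hy
    rcases hy with rfl | rfl
    · exact Or.inr (Or.inr (Or.inl (mem_im.2 ⟨_, hx, by rw [fs_pair]⟩)))
    · exact Or.inr (Or.inr (Or.inr (Or.inl (mem_im.2 ⟨_, hx, by rw [fs_pair, sn_pair]⟩))))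
  · obtain ⟨q, hq, rfl⟩ := mem_im.1 hx
    obtain ⟨a, ha, b, hb, rfl⟩ := hcase q hq
    rw [fs_pair, ZFSet.mem_singleton] at hy
    subst hy
    exact Or.inr (Or.inr (Or.inr (Or.inr (Or.inr (Or.inl ha)))))
  · obtain ⟨q, hq, rfl⟩ := mem_im.1 hx
    obtain ⟨a, ha, b, hb, rfl⟩ := hcase q hq
    rw [fs_pair, sn_pair, ZFSet.mem_pair] at hy
    rcases hy with rfl | rfl
    · exact Or.inr (Or.inr (Or.inr (Or.inr (Or.inr (Or.inl ha)))))
    · exact Or.inr (Or.inr (Or.inr (Or.inr (Or.inl (mem_im.2 ⟨_, hq, by rw [sn_pair]⟩)))))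
  · obtain ⟨q, hq, rfl⟩ := mem_im.1 hx
    obtain ⟨a, ha, b, hb, rfl⟩ := hcase q hq
    rw [sn_pair] at hy
    exact Or.inr (Or.inr (Or.inr (Or.inr (Or.inr (Or.inr (hT't _ hT'o _ (hb hy)))))))
  · exact Or.inr (Or.inr (Or.inr (Or.inr (Or.inr (Or.inl (hδ.mem_trans hy hx))))))
  · exact Or.inr (Or.inr (Or.inr (Or.inr (Or.inr (Or.inr (hT't _ hx _ hy))))))

end Pool.Agent.H637_NO
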