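import Pool.Agent.H637_NO.LbB

/-!
# New orbits: `Σ_1` statements over the hereditarily countable sets are `Σ^1_2`
-/

set_option autoImplicit false

namespace Pool.Agent.H637_NO

open Pool.Agent.W868 Pool.Agent.W868.GM
open ZFSet (pair)

theorem d1 (ha : S_D1a) (hb : S_D1b) : S_D1 := by
  intro k R hR
  obtain ⟨φ, hφ⟩ := hR
  obtain ⟨θ, h1, h2⟩ := hb k φ
  refine ⟨θ, h1, fun M hM x => ?_⟩
  rw [h2]
  exact ha k (fun v => R (v 0) (Fin.tail v)) φ hφ M hM x

end Pool.Agent.H637_NO
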