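import Pool.Agent.H637_NO.D1aF
import Pool.Agent.R597.Fold

/-!
# New orbits: codes of countable transitive sets
-/

set_option autoImplicit false
set_option linter.unreachableTactic false
set_option linter.unusedTactic false

namespace Pool.Agent.H637_NO

open Pool.Agent.W868 Pool.Agent.W868.GM Pool.Agent.R597
open ZFSet (pair)

namespace DA

/-! ### Well-foundedness is absolute -/

/-- The derivatives of the relation `E` on `D`. -/
noncomputable def Dr (D E : ZFSet.{0}) : ZFSet.{0} → ZFSet.{0} :=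
  wfF (fun z => z) ZFSet.mem_wf fun _ g =>
    ZFSet.sep (fun t => ∀ p ∈ g, ∃ a ∈ sn p, pair a t ∈ E) D

theorem Dr_eq (D E z : ZFSet.{0}) :
    Dr D E z = ZFSet.sep (fun t => ∀ p ∈ gr (Dr D E) z, ∃ a ∈ sn p, pair a t ∈ E) D :=
  wfF_eq _ _ _ _

theorem mem_Dr {D E z t : ZFSet.{0}} :
    t ∈ Dr D E z ↔ t ∈ D ∧ ∀ u ∈ z, ∃ a ∈ Dr D E u, pair a t ∈ E := by
  rw [Dr_eq, ZFSet.mem_sep]
  refine and_congr_right fun _ => ?_
  constructor
  · intro h u hu
    obtain ⟨a, ha, h1⟩ := h _ (mem_gr.2 ⟨u, hu, rfl⟩)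
    rw [sn_pair] at ha
    exact ⟨a, ha, h1⟩
  · intro h p hp
    obtain ⟨u, hu, rfl⟩ := mem_gr.1 hp
    rw [sn_pair]
    exact h u hu

theorem Dr_anti {D E z z' : ZFSet.{0}} (h : z ⊆ z') : Dr D E z' ⊆ Dr D E z := by
  intro t ht
  obtain ⟨h1, h2⟩ := mem_Dr.1 ht
  exact mem_Dr.2 ⟨h1, fun u hu => h2 u (h hu)⟩

theorem dfn_Dr {M : Set ZFSet.{0}} (hM : IsZF M) {D E : ZFSet.{0}} (hD : D ∈ M) (hE : E ∈ M) :
    DfnF M M fun w : Fin 1 → ZFSet.{0} => Dr D E (w 0) := by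
  have hB := hM.base
  refine hM.memrec (G := fun _ g =>
    ZFSet.sep (fun t => ∀ p ∈ g, ∃ a ∈ sn p, pair a t ∈ E) D) ?_ (Dr_eq D E)
  refine hM.sep' (Q := fun t w => ∀ p ∈ w 1, ∃ a ∈ sn p, pair a t ∈ E) (DfnF.const hD) ?_
  apply hB.ball (DfnF.proj 2)
  apply hB.bex (hM.sn' (DfnF.proj 0))
  exact Dfn.mem (hB.pair' (DfnF.proj 0) (DfnF.proj 2)) (DfnF.const hE)

theorem chain_Dr {D E : ZFSet.{0}} {f : ℕ → ZFSet.{0}} (hf : ∀ n, f n ∈ D)
    (h : ∀ n, pair (f (n + 1)) (f n) ∈ E) (z : ZFSet.{0}) : ∀ n, f n ∈ Dr D E z := by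
  induction z using ZFSet.inductionOn with
  | _ z ih => exact fun n => mem_Dr.2 ⟨hf n, fun u hu => ⟨_, ih u hu (n + 1), h n⟩⟩

/-- If there is a descending sequence, then `M` contains a set without minimal elements. -/
theorem exists_stable {M : Set ZFSet.{0}} (hM : IsZF M) {D E : ZFSet.{0}} (hD : D ∈ M)
    (hE : E ∈ M) {f : ℕ → ZFSet.{0}} (hf : ∀ n, f n ∈ D)
    (h : ∀ n, pair (f (n + 1)) (f n) ∈ E) :
    ∃ S ∈ M, S ⊆ D ∧ f 0 ∈ S ∧ ∀ t ∈ S, ∃ a ∈ S, pair a t ∈ E := by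
  have hB := hM.base
  have hd := dfn_Dr hM hD hE
  have hl : DfnF M M fun w : Fin 1 → ZFSet.{0} => lo M fun ζ => w 0 ∉ Dr D E ζ := by
    refine hM.lo' (Q := fun ζ w => w 0 ∉ Dr D E ζ) ?_
    exact (Dfn.mem (DfnF.proj 1) (DfnF.comp1 (f := Dr D E) hd (DfnF.proj 0))).not
  set δ : ZFSet.{0} := ZFSet.sUnion (im (fun t => lo M fun ζ => t ∉ Dr D E ζ) D) with hδ
  have hδM : δ ∈ M := hM.union _ (hM.im_mem (h := fun t => lo M fun ζ => t ∉ Dr D E ζ) hD hl)
  have hδo : δ.IsOrdinal := by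
    refine isOrdinal_sUnion ?_
    intro x hx
    obtain ⟨t, -, rfl⟩ := mem_im.1 hx
    exact lo_isOrdinal
  have key : ∀ t ∈ Dr D E δ, ∀ ζ ∈ M, ζ.IsOrdinal → t ∈ Dr D E ζ := by
    intro t ht ζ hζ hζo
    by_contra hc
    obtain ⟨-, -, h2⟩ := lo_spec (M := M) (P := fun ζ => t ∉ Dr D E ζ) ⟨ζ, hζ, hζo, hc⟩
    apply h2
    refine Dr_anti ?_ ht
    intro z hz
    exact ZFSet.mem_sUnion.2 ⟨_, mem_im.2 ⟨t, (mem_Dr.1 ht).1, rfl⟩, hz⟩
  refine ⟨Dr D E δ, hd.1 (fun _ => δ) fun _ => hδM, fun t ht => (mem_Dr.1 ht).1,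
    chain_Dr hf h δ 0, fun t ht => ?_⟩
  have h1 := key t ht (sc δ) (hM.sc_mem hδM) (isOrdinal_sc hδo)
  exact (mem_Dr.1 h1).2 δ (ZFSet.mem_insert _ _)

theorem nat_isOrdinal (n : ℕ) : (nat n).IsOrdinal := by
  rw [nat_eq]
  exact ZFSet.isOrdinal_toZFSet _

/-- The relation coded by `y` as a set. -/
theorem exists_E {M : Set ZFSet.{0}} (hM : IsZF M) {y : ℕ → ℕ} (hy : y ∈ Reals M) :
    ∃ D ∈ M, ∃ E ∈ M, D ⊆ ZFSet.omega ∧ (∀ n, nat n ∈ D ↔ Dm y n) ∧
      (∀ a b, pair a b ∈ E → a ∈ ZFSet.omega ∧ b ∈ ZFSet.omega) ∧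
      ∀ m n, pair (nat m) (nat n) ∈ E ↔ Em y m n := by
  have hB := hM.base
  have hω := hM.infinity
  have hz := dfn_Zr hM hy
  have hD1 : Dfn M M fun w : Fin 1 → ZFSet.{0} => Zr y (w 0) (w 0) :=
    Dfn.comp2 (Q := Zr y) hz (DfnF.proj 0) (DfnF.proj 0)
  have hE1 : Dfn M M fun w : Fin 2 → ZFSet.{0} => w 0 ≠ w 1 ∧ Zr y (w 0) (w 1) ∧
      Zr y (w 0) (w 0) ∧ Zr y (w 1) (w 1) :=
    (Dfn.eq (DfnF.proj 0) (DfnF.proj 1)).not.and (hz.and
      ((Dfn.comp2 (Q := Zr y) hz (DfnF.proj 0) (DfnF.proj 0)).and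
        (Dfn.comp2 (Q := Zr y) hz (DfnF.proj 1) (DfnF.proj 1))))
  obtain ⟨E, hE, h1, h2⟩ := hM.rel_mem hω hω
    (Q := fun a b => a ≠ b ∧ Zr y a b ∧ Zr y a a ∧ Zr y b b) hE1
  refine ⟨ZFSet.sep (fun a => Zr y a a) ZFSet.omega, hM.sep_mem (Q := fun a => Zr y a a) hD1 hω,
    E, hE, fun a ha => (ZFSet.mem_sep.1 ha).1, fun n => ?_, fun a b h => ?_, fun m n => ?_⟩
  · rw [ZFSet.mem_sep, Zr_nat, Dm]
    exact ⟨fun h => h.2, fun h => ⟨nat_mem_omega n, h⟩⟩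
  · exact ⟨((h2 a b).1 h).1, ((h2 a b).1 h).2.1⟩
  · rw [h2, Zr_nat, Zr_nat, Zr_nat, Em, Dm, Dm]
    constructor
    · rintro ⟨-, -, h3, h4, h5, h6⟩
      exact ⟨fun h => h3 (by rw [h]), h4, h5, h6⟩
    · rintro ⟨h3, h4, h5, h6⟩
      exact ⟨nat_mem_omega m, nat_mem_omega n, fun h => h3 (nat_injective h), h4, h5, h6⟩

/-- The relation is well founded if the model contains no descending sequence. -/
theorem wf_of_no_desc {M : Set ZFSet.{0}} (hM : IsZF M) {y : ℕ → ℕ} (hy : y ∈ Reals M)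
    (h : ∀ z : Reals M, ¬ ∀ n, Em y (z.1 (n + 1)) (z.1 n)) : WellFounded (Em y) := by
  by_contra hc
  rw [wellFounded_iff_isEmpty_descending_chain, not_isEmpty_iff] at hc
  obtain ⟨f, hf⟩ := hc
  obtain ⟨D, hD, E, hE, hDω, h1, -, h2⟩ := exists_E hM hy
  have hB := hM.base
  have hω := hM.infinity
  obtain ⟨S, hS, hSD, hS0, hS1⟩ := exists_stable hM hD hE (f := fun n => nat (f n))
    (fun n => (h1 _).2 (hf n).2.2.2) (fun n => (h2 _ _).2 (hf n))
  have hF : DfnF M M fun w : Fin 1 → ZFSet.{0} => lo M fun ζ => ζ ∈ S ∧ pair ζ (w 0) ∈ E := by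
    refine hM.lo' (Q := fun ζ w => ζ ∈ S ∧ pair ζ (w 0) ∈ E) ?_
    exact (Dfn.mem (DfnF.proj 0) (DfnF.const hS)).and
      (Dfn.mem (hB.pair' (DfnF.proj 0) (DfnF.proj 1)) (DfnF.const hE))
  set F : ZFSet.{0} → ZFSet.{0} := fun t => lo M fun ζ => ζ ∈ S ∧ pair ζ t ∈ E with hFd
  have hFs : ∀ t ∈ S, F t ∈ S ∧ pair (F t) t ∈ E := by
    intro t ht
    obtain ⟨a, ha, h3⟩ := hS1 t ht
    obtain ⟨n, rfl⟩ := mem_omega_iff.1 (hDω (hSD ha))
    exact (lo_spec (M := M) (P := fun ζ => ζ ∈ S ∧ pair ζ t ∈ E)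
      ⟨nat n, hM.nat_mem n, nat_isOrdinal n, ha, h3⟩).2.2
  set c : ZFSet.{0} := gr (fun p => F (sn p)) (ZFSet.prod ZFSet.omega S) with hcd
  have hc : c ∈ M := by
    refine hM.im_mem (h := fun p => pair p (F (sn p))) (hM.prod_mem hω hS) ?_
    exact hB.pair' (DfnF.proj 0) (DfnF.comp1 (f := F) hF (hM.sn' (DfnF.proj 0)))
  set a0 : ZFSet.{0} := nat (f 0) with ha0
  have ha0M : a0 ∈ M := hM.nat_mem _
  have hR : ∀ n, Rc c a0 (nat n) ∈ S ∧ Rc c a0 (nat (n + 1)) = F (Rc c a0 (nat n)) := by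
    intro n
    induction n with
    | zero =>
      have h3 : Rc c a0 (nat 0) ∈ S := by
        rw [Rc_zero]
        exact hS0
      refine ⟨h3, ?_⟩
      rw [Rc_succ, hcd, ap_gr (ZFSet.pair_mem_prod.2 ⟨nat_mem_omega _, h3⟩), sn_pair]
    | succ n ih =>
      have h3 : Rc c a0 (nat (n + 1)) ∈ S := by
        rw [ih.2]
        exact (hFs _ ih.1).1
      refine ⟨h3, ?_⟩
      rw [Rc_succ, hcd, ap_gr (ZFSet.pair_mem_prod.2 ⟨nat_mem_omega _, h3⟩), sn_pair]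
  have hz : ∀ n, ∃ j : ℕ, Rc c a0 (nat n) = nat j := fun n =>
    mem_omega_iff.1 (hDω (hSD (hR n).1))
  choose z hz using hz
  have hzM : z ∈ Reals M := by
    refine reals_of_dfn hM (Q := fun a b => b = Rc c a0 a)
      (Dfn.eq (DfnF.proj 1) (DfnF.comp1 (f := Rc c a0) (dfn_Rc hM hc ha0M) (DfnF.proj 0))) ?_
    intro m n
    rw [hz]
    exact ⟨fun h => (nat_injective h).symm, fun h => by rw [h]⟩
  refine h ⟨z, hzM⟩ fun n => ?_
  have h3 := (hFs _ (hR n).1).2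
  rw [← (hR n).2, hz, hz] at h3
  exact (h2 _ _).1 h3

/-! ### The collapse -/

theorem d1a_bwd {k : ℕ} {R : (Fin (k + 1) → ZFSet.{0}) → Prop} {φ : Fml Empty (k + 1)}
    (hφ : ∀ M : Set ZFSet.{0}, (∀ x ∈ M, ∀ y ∈ x, y ∈ M) → ∀ v, (∀ i, v i ∈ M) →
      (Sat M Empty.elim φ v ↔ R v)) {M : Set ZFSet.{0}} (hM : IsZF M) (x : Fin k → Reals M)
    {y e s t p c : ℕ → ℕ} (hy : y ∈ Reals M) (hC : CodeC φ y e s t p c (fun i => (x i).1))
    (hw : ∀ z : Reals M, ¬ ∀ n, Em y (z.1 (n + 1)) (z.1 n)) :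
    ∃ a, HCt M a ∧ R (Fin.cons a fun i => rw' (x i).1) := by
  have hwf := wf_of_no_desc hM hy hw
  obtain ⟨D, hD, E, hE, hDω, h1, h2, h3⟩ := exists_E hM hy
  have hB := hM.base
  have hω := hM.infinity
  obtain ⟨c1, c2, c3, c4, c5, c6, c7, c8, a, ha, hEa⟩ := hC
  -- the collapse
  set pr : ZFSet.{0} → ZFSet.{0} := fun z => ZFSet.sep (fun a => pair a z ∈ E) ZFSet.omega
    with hpr
  have hprn : ∀ u z, u ∈ pr z → ∃ m n, u = nat m ∧ z = nat n ∧ Em y m n := by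
    intro u z hu
    have h4 := (ZFSet.mem_sep.1 hu).2
    obtain ⟨h5, h6⟩ := h2 _ _ h4
    obtain ⟨m, rfl⟩ := mem_omega_iff.1 h5
    obtain ⟨n, rfl⟩ := mem_omega_iff.1 h6
    exact ⟨m, n, rfl, rfl, (h3 _ _).1 h4⟩
  have hprm : ∀ m n, nat m ∈ pr (nat n) ↔ Em y m n := by
    intro m n
    rw [hpr]
    dsimp only
    rw [ZFSet.mem_sep, h3]
    exact ⟨fun h => h.2, fun h => ⟨nat_mem_omega m, h⟩⟩
  have hwf' : WellFounded fun u z => u ∈ pr z := by
    have h4 : ∀ n, Acc (fun u z => u ∈ pr z) (nat n) := by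
      intro n
      induction n using hwf.induction with
      | _ n ih =>
        refine Acc.intro _ fun u hu => ?_
        obtain ⟨m, n', rfl, h5, h6⟩ := hprn u _ hu
        rw [← nat_injective h5] at h6
        exact ih m h6
    refine ⟨fun z => Acc.intro _ fun u hu => ?_⟩
    obtain ⟨m, n', rfl, h5, h6⟩ := hprn u _ hu
    exact h4 m
  set F : ZFSet.{0} → ZFSet.{0} := wfF pr hwf' fun _ g => im sn g with hFd
  have hFe : ∀ z, F z = im sn (gr F (pr z)) := fun z => wfF_eq _ _ _ _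
  have hFM : DfnF M M fun w : Fin 1 → ZFSet.{0} => F (w 0) := by
    refine hM.wfrec (pr := pr) (G := fun _ g => im sn g) hwf' ?_ ?_ hFe
    · refine hM.sep' (Q := fun a w => pair a (w 0) ∈ E) (DfnF.const hω) ?_
      exact Dfn.mem (hB.pair' (DfnF.proj 0) (DfnF.proj 1)) (DfnF.const hE)
    · exact hM.im' (h := fun p _ => sn p) (DfnF.proj 1) (hM.sn' (DfnF.proj 0))
  have hFm : ∀ n w, w ∈ F (nat n) ↔ ∃ m, Em y m n ∧ w = F (nat m) := by
    intro n w
    rw [hFe, mem_im]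
    constructor
    · rintro ⟨q, hq, rfl⟩
      obtain ⟨u, hu, rfl⟩ := mem_gr.1 hq
      obtain ⟨m, n', rfl, h5, h6⟩ := hprn u _ hu
      rw [← nat_injective h5] at h6
      exact ⟨m, h6, sn_pair _ _⟩
    · rintro ⟨m, h4, rfl⟩
      exact ⟨_, mem_gr.2 ⟨_, (hprm m n).2 h4, rfl⟩, (sn_pair _ _).symm⟩
  have hinj : ∀ n, Dm y n → ∀ n', Dm y n' → F (nat n) = F (nat n') → n = n' := by
    intro n
    induction n using hwf.induction with
    | _ n ih =>
      intro hn n' hn' h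
      refine c1 n n' hn hn' fun l => ?_
      constructor
      · intro hl
        have h4 : F (nat l) ∈ F (nat n') := h ▸ (hFm _ _).2 ⟨l, hl, rfl⟩
        obtain ⟨l', hl', h5⟩ := (hFm _ _).1 h4
        rw [ih l hl hl.2.2.1 l' hl'.2.2.1 h5]
        exact hl'
      · intro hl
        have h4 : F (nat l) ∈ F (nat n) := h ▸ (hFm _ _).2 ⟨l, hl, rfl⟩
        obtain ⟨l', hl', h5⟩ := (hFm _ _).1 h4
        rw [← ih l' hl' hl'.2.2.1 l hl.2.2.1 h5.symm]
        exact hl'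
  have hmem : ∀ l n, Dm y l → Dm y n → (F (nat l) ∈ F (nat n) ↔ Em y l n) := by
    intro l n hl hn
    constructor
    · intro h
      obtain ⟨l', hl', h5⟩ := (hFm _ _).1 h
      rw [hinj l hl l' hl'.2.2.1 h5]
      exact hl'
    · exact fun h => (hFm _ _).2 ⟨l, h, rfl⟩
  set T : ZFSet.{0} := im F D with hTd
  have hT : T ∈ M := hM.im_mem (h := F) hD hFM
  have hTm : ∀ w, w ∈ T ↔ ∃ n, Dm y n ∧ w = F (nat n) := by
    intro w
    rw [hTd, mem_im]
    constructor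
    · rintro ⟨u, hu, rfl⟩
      obtain ⟨n, rfl⟩ := mem_omega_iff.1 (hDω hu)
      exact ⟨n, (h1 n).1 hu, rfl⟩
    · rintro ⟨n, hn, rfl⟩
      exact ⟨_, (h1 n).2 hn, rfl⟩
  have hTt : Tra T := by
    intro w hw' u hu
    obtain ⟨n, hn, rfl⟩ := (hTm w).1 hw'
    obtain ⟨m, hm, rfl⟩ := (hFm _ _).1 hu
    exact (hTm _).2 ⟨m, hm.2.2.1, rfl⟩
  have hTi : Inj M T ZFSet.omega :=
    Inj.image hM hD hω isOrdinal_omega (Inj.of_subset hM hD hω hDω) (h := F) hFM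
  -- the values of the collapse
  have he : ∀ m, F (nat (e m)) = nat m := by
    intro m
    induction m with
    | zero =>
      apply ZFSet.ext
      intro w
      rw [hFm]
      constructor
      · rintro ⟨l, hl, -⟩
        exact absurd hl (c3 l)
      · exact fun h => absurd h (ZFSet.notMem_empty _)
    | succ m ih =>
      apply ZFSet.ext
      intro w
      rw [hFm, nat, ZFSet.mem_insert_iff]
      constructor
      · rintro ⟨l, hl, rfl⟩
        rcases (c4 m l).1 hl with h | rfl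
        · right
          rw [← ih]
          exact (hFm _ _).2 ⟨l, h, rfl⟩
        · exact Or.inl ih
      · rintro (rfl | h)
        · exact ⟨e m, (c4 m _).2 (Or.inr rfl), ih.symm⟩
        · rw [← ih] at h
          obtain ⟨l, hl, rfl⟩ := (hFm _ _).1 h
          exact ⟨l, (c4 m _).2 (Or.inl hl), rfl⟩
  have hs : ∀ m, F (nat (s m)) = {nat m} := by
    intro m
    apply ZFSet.ext
    intro w
    rw [hFm, ZFSet.mem_singleton]
    constructor
    · rintro ⟨l, hl, rfl⟩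
      rw [((c5 m).2 l).1 hl, he]
    · rintro rfl
      exact ⟨e m, ((c5 m).2 _).2 rfl, (he m).symm⟩
  have ht : ∀ m n, F (nat (t (Nat.pair m n))) = {nat m, nat n} := by
    intro m n
    apply ZFSet.ext
    intro w
    rw [hFm, ZFSet.mem_pair]
    constructor
    · rintro ⟨l, hl, rfl⟩
      rcases ((c6 m n).2 l).1 hl with rfl | rfl
      · exact Or.inl (he m)
      · exact Or.inr (he n)
    · rintro (rfl | rfl)
      · exact ⟨e m, ((c6 m n).2 _).2 (Or.inl rfl), (he m).symm⟩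
      · exact ⟨e n, ((c6 m n).2 _).2 (Or.inr rfl), (he n).symm⟩
  have hp : ∀ m n, F (nat (p (Nat.pair m n))) = pair (nat m) (nat n) := by
    intro m n
    apply ZFSet.ext
    intro w
    rw [hFm, pair, ZFSet.mem_pair]
    constructor
    · rintro ⟨l, hl, rfl⟩
      rcases ((c7 m n).2 l).1 hl with rfl | rfl
      · exact Or.inl (hs m)
      · exact Or.inr (ht m n)
    · rintro (rfl | rfl)
      · exact ⟨s m, ((c7 m n).2 _).2 (Or.inl rfl), (hs m).symm⟩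
      · exact ⟨t (Nat.pair m n), ((c7 m n).2 _).2 (Or.inr rfl), (ht m n).symm⟩
  have hx : ∀ i : Fin k, F (nat (c i)) = rw' (x i).1 := by
    intro i
    apply ZFSet.ext
    intro w
    rw [hFm, mem_rw']
    constructor
    · rintro ⟨l, hl, rfl⟩
      obtain ⟨m, n, h4, rfl⟩ := ((c8 i).2 l).1 hl
      exact ⟨m, n, h4, hp m n⟩
    · rintro ⟨m, n, h4, rfl⟩
      exact ⟨_, ((c8 i).2 _).2 ⟨m, n, h4, rfl⟩, (hp m n).symm⟩
  -- truth
  have hEv : ∀ {n : ℕ} (ψ : Fml Empty n) (v : Fin n → ℕ), (∀ i, Dm y (v i)) →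
      (Ev (Dm y) (Em y) ψ v ↔ Sat {x | x ∈ T} Empty.elim ψ (fun i => F (nat (v i)))) := by
    intro n ψ
    induction ψ with
    | mem s t =>
      intro v hv
      rcases s with s | s
      · rcases t with t | t
        · simp only [Ev, Sat, Sum.elim_inl]
          exact (hmem _ _ (hv s) (hv t)).symm
        · exact t.elim
      · exact s.elim
    | eq s t =>
      intro v hv
      rcases s with s | s
      · rcases t with t | t
        · simp only [Ev, Sat, Sum.elim_inl]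
          exact ⟨fun h => by rw [h], hinj _ (hv s) _ (hv t)⟩
        · exact t.elim
      · exact s.elim
    | neg ψ ih =>
      intro v hv
      simp only [Ev, Sat]
      rw [ih v hv]
    | and ψ χ ih1 ih2 =>
      intro v hv
      simp only [Ev, Sat]
      rw [ih1 v hv, ih2 v hv]
    | ex ψ ih =>
      intro v hv
      simp only [Ev, Sat]
      have h4 : ∀ b, (Fin.cons (F (nat b)) (fun i => F (nat (v i))) : Fin _ → ZFSet.{0}) =
          fun i => F (nat ((Fin.cons b v : Fin _ → ℕ) i)) := by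
        intro b
        funext i
        refine Fin.cases ?_ (fun i => ?_) i
        · rfl
        · rfl
      have h5 : ∀ b, Dm y b → ∀ i, Dm y ((Fin.cons b v : Fin _ → ℕ) i) := by
        intro b hb i
        refine Fin.cases ?_ (fun i => ?_) i
        · exact hb
        · exact hv i
      constructor
      · rintro ⟨b, hb, h6⟩
        refine ⟨F (nat b), (hTm _).2 ⟨b, hb, rfl⟩, ?_⟩
        rw [h4, ← ih _ (h5 b hb)]
        exact h6
      · rintro ⟨w, hw', h6⟩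
        obtain ⟨b, hb, rfl⟩ := (hTm w).1 hw'
        refine ⟨b, hb, ?_⟩
        rw [h4, ← ih _ (h5 b hb)] at h6
        exact h6
  have hcons : ∀ i : Fin (k + 1), Dm y ((Fin.cons a fun i : Fin k => c i : Fin (k + 1) → ℕ) i) := by
    intro i
    refine Fin.cases ?_ (fun i => ?_) i
    · exact ha
    · exact (c8 i).1
  rw [hEv φ _ hcons] at hEa
  have heq : (fun i => F (nat ((Fin.cons a fun i : Fin k => c i : Fin (k + 1) → ℕ) i))) =
      (Fin.cons (F (nat a)) fun i => rw' (x i).1 : Fin (k + 1) → ZFSet.{0}) := by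
    funext i
    refine Fin.cases ?_ (fun i => ?_) i
    · rfl
    · exact hx i
  rw [heq] at hEa
  have haT : F (nat a) ∈ T := (hTm _).2 ⟨a, ha, rfl⟩
  refine ⟨F (nat a), ⟨T, hT, hTt, haT, hTi⟩, ?_⟩
  refine (hφ {x | x ∈ T} hTt _ fun i => ?_).1 hEa
  refine Fin.cases ?_ (fun i => ?_) i
  · exact haT
  · change rw' (x i).1 ∈ T
    rw [← hx i]
    exact (hTm _).2 ⟨_, (c8 i).1, rfl⟩

end DA

/-- Codes of countable transitive sets. -/
theorem d1a (_h1 : S_HC) (h2 : S_HC2) (h3 : S_RW) : S_D1a := by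
  intro k R φ hφ M hM x
  constructor
  · rintro ⟨a, ha, hR⟩
    exact DA.d1a_fwd h2 h3 hφ hM x ha hR
  · rintro ⟨y, e, s, t, p, c, hC, hw⟩
    exact DA.d1a_bwd hφ hM.toIsZF x y.2 hC hw

end Pool.Agent.H637_NO
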