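import Pool.Agent.H637_NO.D1aU

/-!
# New orbits: codes of countable transitive sets, from sets to codes
-/

set_option autoImplicit false
set_option linter.unreachableTactic false
set_option linter.unusedTactic false

namespace Pool.Agent.H637_NO.DA

open Pool.Agent.W868 Pool.Agent.W868.GM Pool.Agent.R597
open ZFSet (pair)

theorem mem_rw' {z : ℕ → ℕ} {w : ZFSet.{0}} :
    w ∈ rw' z ↔ ∃ m n, z (Nat.pair m n) = 0 ∧ w = pair (nat m) (nat n) := by
  rw [rw', ZFSet.mem_sep]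
  constructor
  · rintro ⟨-, m, n, rfl, h⟩
    exact ⟨m, n, h, rfl⟩
  · rintro ⟨m, n, h, rfl⟩
    exact ⟨ZFSet.pair_mem_prod.2 ⟨nat_mem_omega _, nat_mem_omega _⟩, m, n, rfl, h⟩

theorem of_pair_tra {T a b : ZFSet.{0}} (hT : Tra T) (h : pair a b ∈ T) :
    a ∈ T ∧ b ∈ T ∧ ({a} : ZFSet.{0}) ∈ T ∧ ({a, b} : ZFSet.{0}) ∈ T := by
  have h1 : ({a} : ZFSet.{0}) ∈ T := hT _ h _ (by simp [pair])
  have h2 : ({a, b} : ZFSet.{0}) ∈ T := hT _ h _ (by simp [pair])
  exact ⟨hT _ h2 _ (by simp), hT _ h2 _ (by simp), h1, h2⟩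

theorem of_tup_tra {T : ZFSet.{0}} (hT : Tra T) : ∀ {n : ℕ} (v : Fin n → ZFSet.{0}),
    tup v ∈ T → ∀ i, v i ∈ T
  | 0, _, _, i => i.elim0
  | n + 1, v, h, i => by
    have h1 := of_pair_tra hT (show pair (v 0) (tup (Fin.tail v)) ∈ T from h)
    refine Fin.cases ?_ (fun i => ?_) i
    · exact h1.1
    · exact of_tup_tra hT (Fin.tail v) h1.2.1 i

theorem hct_tup {M : Set ZFSet.{0}} (h0 : HCt M ∅)
    (h1 : ∀ a b, HCt M a → HCt M b → HCt M (pair a b)) : ∀ {n : ℕ} (v : Fin n → ZFSet.{0}),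
    (∀ i, HCt M (v i)) → HCt M (tup v)
  | 0, _, _ => h0
  | _ + 1, v, h => h1 _ _ (h 0) (hct_tup h0 h1 (Fin.tail v) fun i => h i.succ)

/-- No descending sequences for the membership relation. -/
theorem no_desc {w : ℕ → ZFSet.{0}} (h : ∀ n, w (n + 1) ∈ w n) : False :=
  (wellFounded_iff_isEmpty_descending_chain.1 ZFSet.mem_wf).false ⟨w, h⟩

theorem d1a_fwd (H2 : S_HC2) (H3 : S_RW) {k : ℕ} {R : (Fin (k + 1) → ZFSet.{0}) → Prop}
    {φ : Fml Empty (k + 1)}
    (hφ : ∀ M : Set ZFSet.{0}, (∀ x ∈ M, ∀ y ∈ x, y ∈ M) → ∀ v, (∀ i, v i ∈ M) →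
      (Sat M Empty.elim φ v ↔ R v)) {M : Set ZFSet.{0}} (hM : IsZFC M) (x : Fin k → Reals M)
    {a : ZFSet.{0}} (ha : HCt M a) (hR : R (Fin.cons a fun i => rw' (x i).1)) :
    ∃ y e s t p c : Reals M, CodeC φ y.1 e.1 s.1 t.1 p.1 c.1 (fun i => (x i).1) ∧
      ∀ z : Reals M, ¬ ∀ n, Em y.1 (z.1 (n + 1)) (z.1 n) := by
  classical
  have hZ := hM.toIsZF
  have hB := hZ.base
  have hω := hZ.infinity
  obtain ⟨hpair, hsub, hmem, hcω, hcoo⟩ := H2.1 M hZ
  have hc0 : HCt M ∅ := (hmem _ hcω).2.2 ∅ ZFSet.omega_zero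
  have hcx : ∀ i, HCt M (rw' (x i).1) := by
    intro i
    have h1 := (H3 M hZ).1 (x i).1 (x i).2
    have h2 := ZFSet.mem_sep.1 h1
    exact hsub _ _ hcoo h2.2 (ZFSet.mem_powerset.1 h2.1)
  -- the transitive set
  obtain ⟨T, hT, hTt, hu, f, hf, hfi⟩ := (hpair _ _ ha (hpair _ _ hcoo (hct_tup hc0
    (fun a b h h' => (hpair a b h h').1) _ hcx)).1).1
  have haT : a ∈ T := (of_pair_tra hTt hu).1
  have hooT : oo ∈ T := (of_pair_tra hTt (of_pair_tra hTt hu).2.1).1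
  have hxT : ∀ i, rw' (x i).1 ∈ T :=
    of_tup_tra hTt _ (of_pair_tra hTt (of_pair_tra hTt hu).2.1).2.1
  have hpT : ∀ m n, pair (nat m) (nat n) ∈ T := fun m n => hTt _ hooT _
    (ZFSet.pair_mem_prod.2 ⟨nat_mem_omega _, nat_mem_omega _⟩)
  have hnT : ∀ m, nat m ∈ T := fun m => (of_pair_tra hTt (hpT m m)).1
  have hsT : ∀ m, ({nat m} : ZFSet.{0}) ∈ T := fun m => (of_pair_tra hTt (hpT m m)).2.2.1
  have htT : ∀ m n, ({nat m, nat n} : ZFSet.{0}) ∈ T := fun m n =>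
    (of_pair_tra hTt (hpT m n)).2.2.2
  -- the index function
  have hex : ∀ z, ∃ n : ℕ, z ∈ T → pair z (nat n) ∈ f := by
    intro z
    by_cases hz : z ∈ T
    · obtain ⟨b, hb, h1⟩ := fun_exists hfi.1 hz
      obtain ⟨n, rfl⟩ := mem_omega_iff.1 hb
      exact ⟨n, fun _ => h1⟩
    · exact ⟨0, fun h => absurd h hz⟩
  choose idx hidx using hex
  have hpf : ∀ z ∈ T, ∀ n, pair z (nat n) ∈ f ↔ idx z = n := by
    intro z hz n
    constructor
    · intro h
      exact nat_injective (fun_unique hfi.1 (hidx z hz) h)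
    · rintro rfl
      exact hidx z hz
  have hinj : ∀ z ∈ T, ∀ w ∈ T, idx z = idx w → z = w := by
    intro z hz w hw h
    have h1 := hidx z hz
    rw [h] at h1
    exact hfi.2 _ _ _ h1 (hidx w hw)
  -- the structure
  set y : ℕ → ℕ := fun k => if ∃ z ∈ T, ∃ w ∈ T, k = Nat.pair (idx z) (idx w) ∧ (z = w ∨ z ∈ w)
    then 0 else 1 with hy
  have hy0 : ∀ m n, y (Nat.pair m n) = 0 ↔
      ∃ z ∈ T, ∃ w ∈ T, idx z = m ∧ idx w = n ∧ (z = w ∨ z ∈ w) := by
    intro m n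
    rw [hy]
    dsimp only
    constructor
    · intro h
      split_ifs at h with h1
      obtain ⟨z, hz, w, hw, h2, h3⟩ := h1
      obtain ⟨h4, h5⟩ := Nat.pair_eq_pair.1 h2
      exact ⟨z, hz, w, hw, h4.symm, h5.symm, h3⟩
    · rintro ⟨z, hz, w, hw, rfl, rfl, h⟩
      rw [if_pos ⟨z, hz, w, hw, rfl, h⟩]
  have hD : ∀ n, Dm y n ↔ ∃ z ∈ T, idx z = n := by
    intro n
    rw [Dm, hy0]
    constructor
    · rintro ⟨z, hz, w, hw, h1, h2, h3⟩
      exact ⟨z, hz, h1⟩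
    · rintro ⟨z, hz, h⟩
      exact ⟨z, hz, z, hz, h, h, Or.inl rfl⟩
  have hE : ∀ m n, Em y m n ↔ ∃ z ∈ T, ∃ w ∈ T, idx z = m ∧ idx w = n ∧ z ∈ w := by
    intro m n
    rw [Em, hy0, hD, hD]
    constructor
    · rintro ⟨h1, ⟨z, hz, w, hw, rfl, rfl, h3⟩, -, -⟩
      rcases h3 with rfl | h3
      · exact absurd rfl h1
      · exact ⟨z, hz, w, hw, rfl, rfl, h3⟩
    · rintro ⟨z, hz, w, hw, rfl, rfl, h3⟩
      refine ⟨fun h => ?_, ⟨z, hz, w, hw, rfl, rfl, Or.inr h3⟩, ⟨z, hz, rfl⟩, ⟨w, hw, rfl⟩⟩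
      have h4 := hinj z hz w hw h
      rw [h4] at h3
      exact ZFSet.mem_irrefl _ h3
  have hEz : ∀ z ∈ T, ∀ l, Em y l (idx z) ↔ ∃ w ∈ z, l = idx w := by
    intro z hz l
    rw [hE]
    constructor
    · rintro ⟨w, hw, z', hz', rfl, h1, h2⟩
      rw [hinj z' hz' z hz h1] at h2
      exact ⟨w, h2, rfl⟩
    · rintro ⟨w, hw, rfl⟩
      exact ⟨w, hTt z hz w hw, z, hz, rfl, rfl, hw⟩
  -- the reals
  have hyM : y ∈ Reals M := by
    have h0 := hZ.nat_mem 0
    have h1 := hZ.nat_mem 1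
    have hU := dfn_Up hZ
    have hP : Dfn M M fun w : Fin 1 → ZFSet.{0} => ∃ z ∈ T, ∃ w' ∈ T, ∃ i ∈ ZFSet.omega,
        ∃ j ∈ ZFSet.omega, pair z i ∈ f ∧ pair w' j ∈ f ∧ Up (w 0) = pair i j ∧
          (z = w' ∨ z ∈ w') := by
      (repeat' first
        | assumption
        | exact DfnF.proj _
        | exact DfnF.const (by assumption)
        | exact DfnF.comp1 (f := Up) hU (DfnF.proj _)
        | apply Dfn.not | apply Dfn.and | apply Dfn.or | apply Dfn.imp | apply Dfn.iff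
        | apply hB.bex | apply hB.ball | apply Dfn.ex | apply Dfn.all
        | apply Dfn.eq | apply Dfn.mem | apply hB.pair')
    set P : ZFSet.{0} → Prop := fun u => ∃ z ∈ T, ∃ w' ∈ T, ∃ i ∈ ZFSet.omega,
        ∃ j ∈ ZFSet.omega, pair z i ∈ f ∧ pair w' j ∈ f ∧ Up u = pair i j ∧
          (z = w' ∨ z ∈ w') with hPd
    have hP2 : ∀ j : Fin 2, Dfn M M fun w : Fin 2 → ZFSet.{0} => P (w j) := fun j =>
      Dfn.comp1 (Q := P) hP (DfnF.proj j)
    have hPn : ∀ m, P (nat m) ↔ ∃ z ∈ T, ∃ w ∈ T, m = Nat.pair (idx z) (idx w) ∧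
        (z = w ∨ z ∈ w) := by
      intro m
      constructor
      · rintro ⟨z, hz, w, hw, i, hi, j, hj, h3, h4, h5, h6⟩
        obtain ⟨i, rfl⟩ := mem_omega_iff.1 hi
        obtain ⟨j, rfl⟩ := mem_omega_iff.1 hj
        rw [hpf z hz] at h3
        rw [hpf w hw] at h4
        rw [Up_nat] at h5
        obtain ⟨h7, h8⟩ := ZFSet.pair_inj.1 h5
        refine ⟨z, hz, w, hw, ?_, h6⟩
        rw [h3, h4, ← nat_injective h7, ← nat_injective h8, Nat.pair_unpair]
      · rintro ⟨z, hz, w, hw, rfl, h6⟩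
        exact ⟨z, hz, w, hw, _, nat_mem_omega _, _, nat_mem_omega _, hidx z hz, hidx w hw,
          Up_pair _ _, h6⟩
    have hQ : Dfn M M fun w : Fin 2 → ZFSet.{0} => (P (w 0) ∧ w 1 = nat 0) ∨
        (¬ P (w 0) ∧ w 1 = nat 1) :=
      ((hP2 0).and (Dfn.eq (DfnF.proj 1) (DfnF.const h0))).or
        ((hP2 0).not.and (Dfn.eq (DfnF.proj 1) (DfnF.const h1)))
    refine reals_of_dfn hZ (Q := fun u v => (P u ∧ v = nat 0) ∨ (¬ P u ∧ v = nat 1)) hQ ?_
    intro m n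
    rw [hPn, hy]
    dsimp only
    constructor
    · rintro (⟨h3, h4⟩ | ⟨h3, h4⟩)
      · rw [if_pos h3, nat_injective h4]
      · rw [if_neg h3, nat_injective h4]
    · rintro rfl
      split_ifs with h3
      · exact Or.inl ⟨h3, rfl⟩
      · exact Or.inr ⟨h3, rfl⟩
  have hU2 : DfnF M M fun w : Fin 2 → ZFSet.{0} => Up (w 0) :=
    DfnF.comp1 (f := Up) (dfn_Up hZ) (DfnF.proj 0)
  have hfM : DfnF M M fun _ : Fin 2 → ZFSet.{0} => f := DfnF.const hf
  have heM : (fun m => idx (nat m)) ∈ Reals M := by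
    refine reals_of_dfn hZ (Q := fun u v => pair u v ∈ f)
      (Dfn.mem (hB.pair' (DfnF.proj 0) (DfnF.proj 1)) hfM) ?_
    exact fun m n => hpf _ (hnT m) n
  have hsM : (fun m => idx {nat m}) ∈ Reals M := by
    refine reals_of_dfn hZ (Q := fun u v => pair {u} v ∈ f)
      (Dfn.mem (hB.pair' (hB.single' (DfnF.proj 0)) (DfnF.proj 1)) hfM) ?_
    exact fun m n => hpf _ (hsT m) n
  have htM : (fun m : ℕ => idx {nat m.unpair.1, nat m.unpair.2}) ∈ Reals M := by
    refine reals_of_dfn hZ (Q := fun u v => pair {fs (Up u), sn (Up u)} v ∈ f)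
      (Dfn.mem (hB.pair' (hB.upair' (hZ.fs' hU2) (hZ.sn' hU2)) (DfnF.proj 1)) hfM) ?_
    intro m n
    rw [Up_nat, fs_pair, sn_pair]
    exact hpf _ (htT _ _) n
  have hpM : (fun m : ℕ => idx (pair (nat m.unpair.1) (nat m.unpair.2))) ∈ Reals M := by
    refine reals_of_dfn hZ (Q := fun u v => pair (Up u) v ∈ f)
      (Dfn.mem (hB.pair' hU2 (DfnF.proj 1)) hfM) ?_
    intro m n
    rw [Up_nat]
    exact hpf _ (hpT _ _) n
  have hcM : (fun i : ℕ => if h : i < k then idx (rw' (x ⟨i, h⟩).1) else 0) ∈ Reals M :=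
    reals_fin hZ k _ fun i hi => dif_neg (by omega)
  -- truth
  have hEv : ∀ {n : ℕ} (ψ : Fml Empty n) (v : Fin n → ZFSet.{0}), (∀ i, v i ∈ T) →
      (Ev (Dm y) (Em y) ψ (fun i => idx (v i)) ↔ Sat {x | x ∈ T} Empty.elim ψ v) := by
    intro n ψ
    induction ψ with
    | mem s t =>
      intro v hv
      rcases s with s | s
      · rcases t with t | t
        · simp only [Ev, Sat, Sum.elim_inl]
          rw [hEz _ (hv t)]
          constructor
          · rintro ⟨w, hw, h⟩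
            rw [hinj _ (hv s) w (hTt _ (hv t) w hw) h]
            exact hw
          · intro h
            exact ⟨_, h, rfl⟩
        · exact t.elim
      · exact s.elim
    | eq s t =>
      intro v hv
      rcases s with s | s
      · rcases t with t | t
        · simp only [Ev, Sat, Sum.elim_inl]
          exact ⟨hinj _ (hv s) _ (hv t), fun h => by rw [h]⟩
        · exact t.elim
      · exact s.elim
    | neg ψ ih =>
      intro v hv
      simp only [Ev, Sat]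
      rw [ih v hv]
    | and ψ χ ih1 ih2 =>
      intro v hv
      simp only [Ev, Sat]
      rw [ih1 v hv, ih2 v hv]
    | ex ψ ih =>
      intro v hv
      simp only [Ev, Sat]
      have h1 : ∀ b, (Fin.cons (idx b) (fun i => idx (v i)) : Fin _ → ℕ) =
          fun i => idx ((Fin.cons b v : Fin _ → ZFSet.{0}) i) := by
        intro b
        funext i
        refine Fin.cases ?_ (fun i => ?_) i
        · rfl
        · rfl
      have h2 : ∀ b ∈ T, ∀ i, (Fin.cons b v : Fin _ → ZFSet.{0}) i ∈ T := by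
        intro b hb i
        refine Fin.cases ?_ (fun i => ?_) i
        · exact hb
        · exact hv i
      constructor
      · rintro ⟨b, hb, h3⟩
        obtain ⟨z, hz, rfl⟩ := (hD b).1 hb
        rw [h1, ih _ (h2 z hz)] at h3
        exact ⟨z, hz, h3⟩
      · rintro ⟨z, hz, h3⟩
        refine ⟨idx z, (hD _).2 ⟨z, hz, rfl⟩, ?_⟩
        rw [h1, ih _ (h2 z hz)]
        exact h3
  refine ⟨⟨y, hyM⟩, ⟨_, heM⟩, ⟨_, hsM⟩, ⟨_, htM⟩, ⟨_, hpM⟩, ⟨_, hcM⟩, ?_, ?_⟩
  · refine ⟨?_, ?_, ?_, ?_, ?_, ?_, ?_, ?_, ?_⟩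
    · intro m n hm hn h
      obtain ⟨z, hz, rfl⟩ := (hD _).1 hm
      obtain ⟨w, hw, rfl⟩ := (hD _).1 hn
      have h1 : z = w := by
        ext u
        constructor
        · intro hu
          obtain ⟨u', hu', h2⟩ := (hEz w hw _).1 ((h (idx u)).1 ((hEz z hz _).2 ⟨u, hu, rfl⟩))
          rw [hinj u (hTt z hz u hu) u' (hTt w hw u' hu') h2]
          exact hu'
        · intro hu
          obtain ⟨u', hu', h2⟩ := (hEz z hz _).1 ((h (idx u)).2 ((hEz w hw _).2 ⟨u, hu, rfl⟩))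
          rw [hinj u (hTt w hw u hu) u' (hTt z hz u' hu') h2]
          exact hu'
      rw [h1]
    · exact fun m => (hD _).2 ⟨_, hnT m, rfl⟩
    · intro l h
      obtain ⟨w, hw, -⟩ := (hEz _ (hnT 0) l).1 h
      exact ZFSet.notMem_empty _ hw
    · intro m l
      change Em y l (idx (nat (m + 1))) ↔ Em y l (idx (nat m)) ∨ l = idx (nat m)
      rw [hEz _ (hnT (m + 1)), hEz _ (hnT m)]
      constructor
      · rintro ⟨w, hw, rfl⟩
        rcases ZFSet.mem_insert_iff.1 hw with rfl | hw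
        · exact Or.inr rfl
        · exact Or.inl ⟨w, hw, rfl⟩
      · rintro (⟨w, hw, rfl⟩ | rfl)
        · exact ⟨w, ZFSet.mem_insert_iff.2 (Or.inr hw), rfl⟩
        · exact ⟨_, ZFSet.mem_insert_iff.2 (Or.inl rfl), rfl⟩
    · intro m
      refine ⟨(hD _).2 ⟨_, hsT m, rfl⟩, fun l => ?_⟩
      change Em y l (idx {nat m}) ↔ l = idx (nat m)
      rw [hEz _ (hsT m)]
      constructor
      · rintro ⟨w, hw, rfl⟩
        rw [ZFSet.mem_singleton.1 hw]
      · rintro rfl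
        exact ⟨_, ZFSet.mem_singleton.2 rfl, rfl⟩
    · intro m n
      refine ⟨(hD _).2 ⟨_, htT _ _, rfl⟩, fun l => ?_⟩
      dsimp only
      rw [Nat.unpair_pair]
      dsimp only
      rw [hEz _ (htT m n)]
      constructor
      · rintro ⟨w, hw, rfl⟩
        rcases ZFSet.mem_pair.1 hw with rfl | rfl
        · exact Or.inl rfl
        · exact Or.inr rfl
      · rintro (rfl | rfl)
        · exact ⟨_, ZFSet.mem_pair.2 (Or.inl rfl), rfl⟩
        · exact ⟨_, ZFSet.mem_pair.2 (Or.inr rfl), rfl⟩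
    · intro m n
      refine ⟨(hD _).2 ⟨_, hpT _ _, rfl⟩, fun l => ?_⟩
      dsimp only
      rw [Nat.unpair_pair]
      dsimp only
      rw [hEz _ (hpT m n)]
      constructor
      · rintro ⟨w, hw, rfl⟩
        rw [pair] at hw
        rcases ZFSet.mem_pair.1 hw with rfl | rfl
        · exact Or.inl rfl
        · exact Or.inr rfl
      · rintro (rfl | rfl)
        · exact ⟨_, by rw [pair]; exact ZFSet.mem_pair.2 (Or.inl rfl), rfl⟩
        · exact ⟨_, by rw [pair]; exact ZFSet.mem_pair.2 (Or.inr rfl), rfl⟩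
    · intro i
      dsimp only
      rw [dif_pos i.2]
      refine ⟨(hD _).2 ⟨_, hxT i, rfl⟩, fun l => ?_⟩
      rw [hEz _ (hxT i)]
      constructor
      · rintro ⟨w, hw, rfl⟩
        obtain ⟨m, n, h1, rfl⟩ := mem_rw'.1 hw
        refine ⟨m, n, h1, ?_⟩
        rw [Nat.unpair_pair]
      · rintro ⟨m, n, h1, rfl⟩
        refine ⟨_, mem_rw'.2 ⟨m, n, h1, rfl⟩, ?_⟩
        rw [Nat.unpair_pair]
    · refine ⟨idx a, (hD _).2 ⟨a, haT, rfl⟩, ?_⟩
      have h1 : (Fin.cons (idx a) (fun i : Fin k => (fun i : ℕ => if h : i < k then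
          idx (rw' (x ⟨i, h⟩).1) else 0) i) : Fin (k + 1) → ℕ) =
          fun i => idx ((Fin.cons a fun i => rw' (x i).1 : Fin (k + 1) → ZFSet.{0}) i) := by
        funext i
        refine Fin.cases ?_ (fun i => ?_) i
        · rfl
        · simp only [Fin.cons_succ]
          rw [dif_pos i.2]
      have h2 : ∀ i, (Fin.cons a fun i => rw' (x i).1 : Fin (k + 1) → ZFSet.{0}) i ∈ T := by
        intro i
        refine Fin.cases ?_ (fun i => ?_) i
        · exact haT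
        · exact hxT i
      change Ev (Dm y) (Em y) φ (Fin.cons (idx a) (fun i : Fin k => (fun i : ℕ =>
        if h : i < k then idx (rw' (x ⟨i, h⟩).1) else 0) i))
      rw [h1, hEv φ _ h2]
      exact (hφ {x | x ∈ T} hTt _ h2).2 hR
  · intro z hz
    have h1 : ∀ n, ∃ w ∈ T, idx w = z.1 n := by
      intro n
      obtain ⟨-, -, w, hw, -, h, -⟩ := (hE _ _).1 (hz n)
      exact ⟨w, hw, h⟩
    choose w hw hw' using h1
    refine no_desc (w := w) fun n => ?_
    obtain ⟨z1, hz1, w1, hw1, h2, h3, h4⟩ := (hE _ _).1 (hz n)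
    rw [hinj _ (hw (n + 1)) z1 hz1 ((hw' _).trans h2.symm),
      hinj _ (hw n) w1 hw1 ((hw' _).trans h3.symm)]
    exact h4

end Pool.Agent.H637_NO.DA
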