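import Pool.Agent.H637_NO.Stm
import Pool.Agent.R597.Tree

/-!
# New orbits: the unpairing function in a model of ZF, and reals with a definable graph
-/

set_option autoImplicit false
set_option linter.unreachableTactic false
set_option linter.unusedTactic false

namespace Pool.Agent.H637_NO.DA

open Pool.Agent.W868 Pool.Agent.W868.GM Pool.Agent.R597
open ZFSet (pair)

/-! ### The graph of a real -/

theorem mem_rl {x : ℕ → ℕ} {p : ZFSet.{0}} : p ∈ rl x ↔ ∃ n, p = pair (nat n) (nat (x n)) := by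
  rw [rl, ZFSet.mem_range]
  exact ⟨fun ⟨n, h⟩ => ⟨n, h.symm⟩, fun ⟨n, h⟩ => ⟨n, h.symm⟩⟩

theorem pair_mem_rl {x : ℕ → ℕ} {m n : ℕ} : pair (nat m) (nat n) ∈ rl x ↔ x m = n := by
  rw [mem_rl]
  constructor
  · rintro ⟨k, h⟩
    obtain ⟨h1, h2⟩ := ZFSet.pair_inj.1 h
    obtain rfl := nat_injective h1
    exact (nat_injective h2).symm
  · rintro rfl
    exact ⟨m, rfl⟩

/-- A real with a definable graph is in the model. -/
theorem reals_of_dfn {M : Set ZFSet.{0}} (hM : IsZF M) {x : ℕ → ℕ}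
    {Q : ZFSet.{0} → ZFSet.{0} → Prop} (hQ : Dfn M M fun w : Fin 2 → ZFSet.{0} => Q (w 0) (w 1))
    (h : ∀ m n, Q (nat m) (nat n) ↔ x m = n) : x ∈ Reals M := by
  obtain ⟨f, hf, h1, h2⟩ := hM.rel_mem hM.infinity hM.infinity hQ
  have h3 : f = rl x := by
    ext p
    constructor
    · intro hp
      obtain ⟨a, ha, b, hb, rfl⟩ := ZFSet.mem_prod.1 (h1 hp)
      obtain ⟨m, rfl⟩ := mem_omega_iff.1 ha
      obtain ⟨n, rfl⟩ := mem_omega_iff.1 hb
      exact pair_mem_rl.2 ((h _ _).1 ((h2 _ _).1 hp).2.2)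
    · intro hp
      obtain ⟨n, rfl⟩ := mem_rl.1 hp
      exact (h2 _ _).2 ⟨nat_mem_omega _, nat_mem_omega _, (h _ _).2 rfl⟩
  change rl x ∈ M
  exact h3 ▸ hf

/-- The constant function zero. -/
theorem reals_zero {M : Set ZFSet.{0}} (hM : IsZF M) : (fun _ : ℕ => 0) ∈ Reals M := by
  have h0 := hM.empty_mem
  refine reals_of_dfn hM (Q := fun _ b => b = ∅) (Dfn.eq (DfnF.proj 1) (DfnF.const h0)) ?_
  intro m n
  constructor
  · intro h
    exact (nat_injective (show nat n = nat 0 from h)).symm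
  · rintro rfl
    rfl

/-- Changing one value. -/
theorem reals_update {M : Set ZFSet.{0}} (hM : IsZF M) {x : ℕ → ℕ} (hx : x ∈ Reals M)
    (k a : ℕ) : Function.update x k a ∈ Reals M := by
  have hB := hM.base
  have hx' : rl x ∈ M := hx
  have hk := hM.nat_mem k
  have ha := hM.nat_mem a
  have hQ : Dfn M M fun w : Fin 2 → ZFSet.{0} => (w 0 = nat k ∧ w 1 = nat a) ∨
      (w 0 ≠ nat k ∧ pair (w 0) (w 1) ∈ rl x) := by
    (repeat' first
      | assumption
      | exact DfnF.proj _
      | exact DfnF.const (by assumption)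
      | apply Dfn.not | apply Dfn.and | apply Dfn.or | apply Dfn.imp | apply Dfn.iff
      | apply hB.bex | apply hB.ball | apply Dfn.ex | apply Dfn.all
      | apply Dfn.eq | apply Dfn.mem | apply hB.pair')
  refine reals_of_dfn hM (Q := fun u v => (u = nat k ∧ v = nat a) ∨
      (u ≠ nat k ∧ pair u v ∈ rl x)) hQ ?_
  intro m n
  rw [pair_mem_rl]
  by_cases h : m = k
  · subst h
    rw [Function.update_self]
    constructor
    · rintro (⟨-, h1⟩ | ⟨h1, -⟩)
      · exact (nat_injective h1).symm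
      · exact absurd rfl h1
    · rintro rfl
      exact Or.inl ⟨rfl, rfl⟩
  · rw [Function.update_of_ne h]
    constructor
    · rintro (⟨h1, -⟩ | ⟨-, h1⟩)
      · exact absurd (nat_injective h1) h
      · exact h1
    · intro h1
      exact Or.inr ⟨fun h2 => h (nat_injective h2), h1⟩

/-- Functions that are zero from some place on. -/
theorem reals_fin {M : Set ZFSet.{0}} (hM : IsZF M) : ∀ (k : ℕ) (x : ℕ → ℕ),
    (∀ i, k ≤ i → x i = 0) → x ∈ Reals M := by
  intro k
  induction k with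
  | zero =>
    intro x hx
    have h : x = fun _ => 0 := funext fun i => hx i (Nat.zero_le i)
    rw [h]
    exact reals_zero hM
  | succ k ih =>
    intro x hx
    have h1 := ih (Function.update x k 0) (by
      intro i hi
      by_cases h : i = k
      · rw [h, Function.update_self]
      · rw [Function.update_of_ne h]
        exact hx i (by omega))
    have h2 := reals_update hM h1 k (x k)
    rwa [Function.update_idem, Function.update_eq_self] at h2

/-! ### The unpairing function -/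

/-- The successor of a pair in the enumeration of the pairs. -/
def stn (p : ℕ × ℕ) : ℕ × ℕ :=
  if p.1 < p.2 then (if p.1 + 1 < p.2 then (p.1 + 1, p.2) else (p.2, 0))
  else (if p.2 < p.1 then (p.1, p.2 + 1) else (0, p.2 + 1))

theorem pair_stn (m n : ℕ) :
    Nat.pair (stn (m, n)).1 (stn (m, n)).2 = Nat.pair m n + 1 := by
  unfold stn
  dsimp only
  by_cases h1 : m < n
  · rw [if_pos h1]
    by_cases h2 : m + 1 < n
    · rw [if_pos h2]
      dsimp only
      rw [Nat.pair, Nat.pair, if_pos h2, if_pos h1]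
      omega
    · rw [if_neg h2]
      dsimp only
      have h3 : ¬ n < 0 := by omega
      rw [Nat.pair, Nat.pair, if_neg h3, if_pos h1]
      omega
  · rw [if_neg h1]
    by_cases h2 : n < m
    · rw [if_pos h2]
      dsimp only
      have h3 : ¬ m < n + 1 := by omega
      rw [Nat.pair, Nat.pair, if_neg h3, if_neg h1]
      omega
    · rw [if_neg h2]
      dsimp only
      have h3 : m = n := by omega
      subst h3
      rw [Nat.pair, Nat.pair, if_pos (Nat.succ_pos m), if_neg h1]
      ring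

theorem unpair_succ (k : ℕ) : Nat.unpair (k + 1) = stn (Nat.unpair k) := by
  have h := pair_stn (Nat.unpair k).1 (Nat.unpair k).2
  rw [Nat.pair_unpair] at h
  rw [← h, Nat.unpair_pair]

theorem unpair_zero' : Nat.unpair 0 = (0, 0) := by decide

open Classical in
/-- The successor of a pair, for sets. -/
noncomputable def sts (p : ZFSet.{0}) : ZFSet.{0} :=
  if fs p ∈ sn p then (if sc (fs p) ∈ sn p then pair (sc (fs p)) (sn p) else pair (sn p) ∅)
  else (if sn p ∈ fs p then pair (fs p) (sc (sn p)) else pair ∅ (sc (sn p)))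

theorem nat_mem_nat {m n : ℕ} : nat m ∈ nat n ↔ m < n := by
  rw [nat_eq, nat_eq, Ordinal.toZFSet_mem_toZFSet_iff]
  exact_mod_cast Iff.rfl

theorem sts_nat (m n : ℕ) :
    sts (pair (nat m) (nat n)) = pair (nat (stn (m, n)).1) (nat (stn (m, n)).2) := by
  have hs : ∀ k, sc (nat k) = nat (k + 1) := fun k => rfl
  unfold sts stn
  simp only [fs_pair, sn_pair, hs, nat_mem_nat]
  by_cases h1 : m < n
  · simp only [h1, if_true]
    by_cases h2 : m + 1 < n
    · simp only [h2, if_true]
    · simp only [h2, if_false]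
      rfl
  · simp only [h1, if_false]
    by_cases h2 : n < m
    · simp only [h2, if_true]
    · simp only [h2, if_false]
      rfl

theorem dfn_sts {M : Set ZFSet.{0}} (hM : IsZF M) :
    DfnF M M fun w : Fin 1 → ZFSet.{0} => sts (w 0) := by
  have hB := hM.base
  have h0 := hM.empty_mem
  have hf : DfnF M M fun w : Fin 1 → ZFSet.{0} => fs (w 0) := hM.fs' (DfnF.proj 0)
  have hs : DfnF M M fun w : Fin 1 → ZFSet.{0} => sn (w 0) := hM.sn' (DfnF.proj 0)
  have hcf : DfnF M M fun w : Fin 1 → ZFSet.{0} => sc (fs (w 0)) := hB.insert' hf hf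
  have hcs : DfnF M M fun w : Fin 1 → ZFSet.{0} => sc (sn (w 0)) := hB.insert' hs hs
  unfold sts
  exact DfnF.ite (Dfn.mem hf hs)
    (DfnF.ite (Dfn.mem hcf hs) (hB.pair' hcf hs) (hB.pair' hs (DfnF.const h0)))
    (DfnF.ite (Dfn.mem hs hf) (hB.pair' hf hcs) (hB.pair' (DfnF.const h0) hcs))

open Classical in
/-- The unpairing function, for sets. -/
noncomputable def Up : ZFSet.{0} → ZFSet.{0} :=
  wfF (fun z => z) ZFSet.mem_wf fun z g =>
    if z = ∅ then pair ∅ ∅ else sts (ap g (ZFSet.sUnion z))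

open Classical in
theorem Up_eq (z : ZFSet.{0}) : Up z =
    if z = ∅ then pair ∅ ∅ else sts (ap (gr Up z) (ZFSet.sUnion z)) := wfF_eq _ _ _ _

theorem Up_nat (k : ℕ) : Up (nat k) = pair (nat (Nat.unpair k).1) (nat (Nat.unpair k).2) := by
  induction k with
  | zero =>
    rw [Up_eq, if_pos (show nat 0 = ∅ from rfl), unpair_zero']
    rfl
  | succ k ih =>
    rw [Up_eq, if_neg (nat_succ_ne k), sUnion_nat_succ,
      ap_gr (show nat k ∈ nat (k + 1) from ZFSet.mem_insert _ _), ih, sts_nat, unpair_succ]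

theorem Up_pair (m n : ℕ) : Up (nat (Nat.pair m n)) = pair (nat m) (nat n) := by
  rw [Up_nat, Nat.unpair_pair]

theorem dfn_Up {M : Set ZFSet.{0}} (hM : IsZF M) :
    DfnF M M fun w : Fin 1 → ZFSet.{0} => Up (w 0) := by
  have hB := hM.base
  have h0 := hM.empty_mem
  have h00 := hM.pair_mem h0 h0
  refine hM.memrec (G := fun z g => open Classical in
    if z = ∅ then pair ∅ ∅ else sts (ap g (ZFSet.sUnion z))) ?_ Up_eq
  refine DfnF.ite (Dfn.eq (DfnF.proj 0) (DfnF.const h0)) (DfnF.const h00) ?_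
  exact DfnF.comp1 (f := sts) (dfn_sts hM)
    (hM.ap' (DfnF.proj 1) (hB.sUnion' (DfnF.proj 0)))

/-! ### The zeros of a real as a relation -/

/-- The value of the real at the pair is zero. -/
def Zr (x : ℕ → ℕ) (a b : ZFSet.{0}) : Prop :=
  ∃ k ∈ ZFSet.omega, Up k = pair a b ∧ pair k ∅ ∈ rl x

theorem Zr_nat {x : ℕ → ℕ} {m n : ℕ} : Zr x (nat m) (nat n) ↔ x (Nat.pair m n) = 0 := by
  constructor
  · rintro ⟨k, hk, h1, h2⟩
    obtain ⟨k, rfl⟩ := mem_omega_iff.1 hk
    rw [Up_nat] at h1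
    obtain ⟨h3, h4⟩ := ZFSet.pair_inj.1 h1
    rw [← nat_injective h3, ← nat_injective h4, Nat.pair_unpair]
    exact pair_mem_rl.1 (show pair (nat k) (nat 0) ∈ rl x from h2)
  · intro h
    exact ⟨_, nat_mem_omega _, Up_pair m n, (show pair (nat (Nat.pair m n)) (nat 0) ∈ rl x from
      pair_mem_rl.2 h)⟩

theorem dfn_Zr {M : Set ZFSet.{0}} (hM : IsZF M) {x : ℕ → ℕ} (hx : x ∈ Reals M) :
    Dfn M M fun w : Fin 2 → ZFSet.{0} => Zr x (w 0) (w 1) := by
  have hB := hM.base
  have h0 := hM.empty_mem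
  have hω := hM.infinity
  have hx' : rl x ∈ M := hx
  unfold Zr
  apply hB.bex (DfnF.const hω)
  apply Dfn.and
  · exact Dfn.eq (DfnF.comp1 (f := Up) (dfn_Up hM) (DfnF.proj 0))
      (hB.pair' (DfnF.proj 1) (DfnF.proj 2))
  · exact Dfn.mem (hB.pair' (DfnF.proj 0) (DfnF.const h0)) (DfnF.const hx')

end Pool.Agent.H637_NO.DA
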