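import Pool.Agent.H637_NO.Stm

/-!
# New orbits: the second order formula for `CodeC`
-/

set_option autoImplicit false

namespace Pool.Agent.H637_NO

open Pool.Agent.W868 Pool.Agent.W868.GM

namespace DOb

/-! ### Renaming of the number variables -/

/-- Renaming of number variables in a term. -/
def tren {m : ℕ} {k k' : ℕ} (ρ : Fin k → Fin k') : Tm m k → Tm m k'
  | .var i => .var (ρ i)
  | .zero => .zero
  | .succ t => .succ (tren ρ t)
  | .add s t => .add (tren ρ s) (tren ρ t)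
  | .mul s t => .mul (tren ρ s) (tren ρ t)
  | .app i t => .app i (tren ρ t)

/-- The renaming below a quantifier. -/
def lft {k k' : ℕ} (ρ : Fin k → Fin k') : Fin (k + 1) → Fin (k' + 1) :=
  Fin.cons 0 fun i => (ρ i).succ

/-- Renaming of number variables in a formula. -/
def fren : {m k : ℕ} → Fm m k → {k' : ℕ} → (Fin k → Fin k') → Fm m k'
  | _, _, .eq s t, _, ρ => .eq (tren ρ s) (tren ρ t)
  | _, _, .neg φ, _, ρ => .neg (fren φ ρ)
  | _, _, .and φ ψ, _, ρ => .and (fren φ ρ) (fren ψ ρ)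
  | _, _, .exN φ, _, ρ => .exN (fren φ (lft ρ))
  | _, _, .exR φ, _, ρ => .exR (fren φ ρ)

theorem tren_val (𝔐 : Str) {m k k' : ℕ} (ρ : Fin k → Fin k') (x : Fin m → 𝔐.R)
    (v : Fin k' → 𝔐.N) (t : Tm m k) :
    (tren ρ t).val 𝔐 x v = t.val 𝔐 x (fun i => v (ρ i)) := by
  induction t with
  | var i => rfl
  | zero => rfl
  | succ t ih => simp only [tren, Tm.val, ih]
  | add s t ihs iht => simp only [tren, Tm.val, ihs, iht]
  | mul s t ihs iht => simp only [tren, Tm.val, ihs, iht]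
  | app i t ih => simp only [tren, Tm.val, ih]

theorem lft_cons {α : Type} {k k' : ℕ} (ρ : Fin k → Fin k') (a : α) (v : Fin k' → α) :
    (fun i => (Fin.cons a v : Fin (k' + 1) → α) (lft ρ i)) = Fin.cons a fun i => v (ρ i) := by
  funext i
  refine Fin.cases ?_ (fun j => ?_) i
  · simp [lft]
  · simp [lft]

theorem fren_holds (𝔐 : Str) {m k : ℕ} (φ : Fm m k) : ∀ {k' : ℕ} (ρ : Fin k → Fin k')
    (x : Fin m → 𝔐.R) (v : Fin k' → 𝔐.N),
    Holds 𝔐 (fren φ ρ) x v ↔ Holds 𝔐 φ x (fun i => v (ρ i)) := by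
  induction φ with
  | eq s t =>
    intro k' ρ x v
    simp only [fren, Holds, tren_val]
  | neg φ ih =>
    intro k' ρ x v
    simp only [fren, Holds, ih]
  | and φ ψ ih1 ih2 =>
    intro k' ρ x v
    simp only [fren, Holds, ih1, ih2]
  | exN φ ih =>
    intro k' ρ x v
    simp only [fren, Holds, ih, lft_cons]
  | exR φ ih =>
    intro k' ρ x v
    simp only [fren, Holds, ih]

theorem fren_arith {m k : ℕ} (φ : Fm m k) : ∀ {k' : ℕ} (ρ : Fin k → Fin k'),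
    φ.Arith → (fren φ ρ).Arith := by
  induction φ with
  | eq s t => intro k' ρ h; trivial
  | neg φ ih => intro k' ρ h; exact ih ρ h
  | and φ ψ ih1 ih2 => intro k' ρ h; exact ⟨ih1 ρ h.1, ih2 ρ h.2⟩
  | exN φ ih => intro k' ρ h; exact ih (lft ρ) h
  | exR φ ih => intro k' ρ h; exact h.elim

/-! ### Arithmetical relations and functions -/

/-- The relation `R` of reals and numbers is arithmetical. -/
def Ar {m k : ℕ} (R : (Fin m → ℕ → ℕ) → (Fin k → ℕ) → Prop) : Prop :=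
  ∃ φ : Fm m k, φ.Arith ∧ ∀ (𝓡 : Set (ℕ → ℕ)) (x : Fin m → 𝓡) (v : Fin k → ℕ),
    Holds (std 𝓡) φ x v ↔ R (fun i => (x i).1) v

/-- The function `f` of reals and numbers is arithmetical. -/
def AF {m k : ℕ} (f : (Fin m → ℕ → ℕ) → (Fin k → ℕ) → ℕ) : Prop :=
  Ar fun x (v : Fin (k + 1) → ℕ) => v 0 = f x (Fin.tail v)

/-- The function `f` is given by a term. -/
def Te {m k : ℕ} (f : (Fin m → ℕ → ℕ) → (Fin k → ℕ) → ℕ) : Prop :=
  ∃ t : Tm m k, ∀ (𝓡 : Set (ℕ → ℕ)) (x : Fin m → 𝓡) (v : Fin k → ℕ),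
    t.val (std 𝓡) x v = f (fun i => (x i).1) v

section
variable {m k : ℕ}

theorem Ar.congr {R S : (Fin m → ℕ → ℕ) → (Fin k → ℕ) → Prop} (h : Ar R)
    (e : ∀ x v, R x v ↔ S x v) : Ar S := by
  obtain ⟨φ, h1, h2⟩ := h
  exact ⟨φ, h1, fun 𝓡 x v => (h2 𝓡 x v).trans (e _ _)⟩

theorem Ar.not {R : (Fin m → ℕ → ℕ) → (Fin k → ℕ) → Prop} (h : Ar R) :
    Ar fun x v => ¬ R x v := by
  obtain ⟨φ, h1, h2⟩ := h
  exact ⟨.neg φ, h1, fun 𝓡 x v => not_congr (h2 𝓡 x v)⟩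

theorem Ar.and {R S : (Fin m → ℕ → ℕ) → (Fin k → ℕ) → Prop} (h : Ar R) (h' : Ar S) :
    Ar fun x v => R x v ∧ S x v := by
  obtain ⟨φ, h1, h2⟩ := h
  obtain ⟨ψ, h3, h4⟩ := h'
  exact ⟨.and φ ψ, ⟨h1, h3⟩, fun 𝓡 x v => and_congr (h2 𝓡 x v) (h4 𝓡 x v)⟩

theorem Ar.or {R S : (Fin m → ℕ → ℕ) → (Fin k → ℕ) → Prop} (h : Ar R) (h' : Ar S) :
    Ar fun x v => R x v ∨ S x v :=
  (h.not.and h'.not).not.congr fun x v => by tauto

theorem Ar.imp {R S : (Fin m → ℕ → ℕ) → (Fin k → ℕ) → Prop} (h : Ar R) (h' : Ar S) :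
    Ar fun x v => R x v → S x v :=
  (h.and h'.not).not.congr fun x v => by tauto

theorem Ar.iff {R S : (Fin m → ℕ → ℕ) → (Fin k → ℕ) → Prop} (h : Ar R) (h' : Ar S) :
    Ar fun x v => (R x v ↔ S x v) :=
  ((h.imp h').and (h'.imp h)).congr fun x v => by tauto

theorem Ar.ex {R : (Fin m → ℕ → ℕ) → (Fin k → ℕ) → ℕ → Prop}
    (h : Ar fun x (v : Fin (k + 1) → ℕ) => R x (Fin.tail v) (v 0)) :
    Ar fun x v => ∃ a, R x v a := by
  obtain ⟨φ, h1, h2⟩ := h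
  refine ⟨.exN φ, h1, fun 𝓡 x v => ?_⟩
  have h3 : ∀ a : ℕ, Holds (std 𝓡) φ x (Fin.cons a v : Fin (k + 1) → ℕ) ↔
      R (fun i => (x i).1) v a := by
    intro a
    have := h2 𝓡 x (Fin.cons a v)
    simpa using this
  exact exists_congr h3

theorem Ar.all {R : (Fin m → ℕ → ℕ) → (Fin k → ℕ) → ℕ → Prop}
    (h : Ar fun x (v : Fin (k + 1) → ℕ) => R x (Fin.tail v) (v 0)) :
    Ar fun x v => ∀ a, R x v a :=
  (Ar.ex (R := fun x v a => ¬ R x v a) h.not).not.congr fun _ _ => not_exists_not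

theorem Ar.ren {k' : ℕ} {R : (Fin m → ℕ → ℕ) → (Fin k → ℕ) → Prop} (h : Ar R)
    (ρ : Fin k → Fin k') : Ar fun x (v : Fin k' → ℕ) => R x fun i => v (ρ i) := by
  obtain ⟨φ, h1, h2⟩ := h
  exact ⟨fren φ ρ, fren_arith φ ρ h1, fun 𝓡 x v =>
    (fren_holds (std 𝓡) φ ρ x v).trans (h2 𝓡 x fun i => v (ρ i))⟩

theorem Te.eq {f g : (Fin m → ℕ → ℕ) → (Fin k → ℕ) → ℕ} (hf : Te f) (hg : Te g) :
    Ar fun x v => f x v = g x v := by
  obtain ⟨s, hs⟩ := hf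
  obtain ⟨t, ht⟩ := hg
  exact ⟨.eq s t, trivial, fun 𝓡 x v =>
    ⟨fun h => (hs 𝓡 x v).symm.trans (Eq.trans h (ht 𝓡 x v)),
      fun h => (hs 𝓡 x v).trans (Eq.trans h (ht 𝓡 x v).symm)⟩⟩

theorem Te.var (i : Fin k) : Te (m := m) fun _ v => v i := ⟨.var i, fun _ _ _ => rfl⟩

theorem Te.zero : Te (m := m) (k := k) fun _ _ => 0 := ⟨.zero, fun _ _ _ => rfl⟩

theorem Te.succ {f : (Fin m → ℕ → ℕ) → (Fin k → ℕ) → ℕ} (hf : Te f) :
    Te fun x v => f x v + 1 := by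
  obtain ⟨s, hs⟩ := hf
  exact ⟨.succ s, fun 𝓡 x v => congrArg Nat.succ (hs 𝓡 x v)⟩

theorem Te.const (n : ℕ) : Te (m := m) (k := k) fun _ _ => n := by
  induction n with
  | zero => exact Te.zero
  | succ n ih => exact ih.succ

theorem Te.add {f g : (Fin m → ℕ → ℕ) → (Fin k → ℕ) → ℕ} (hf : Te f) (hg : Te g) :
    Te fun x v => f x v + g x v := by
  obtain ⟨s, hs⟩ := hf
  obtain ⟨t, ht⟩ := hg
  exact ⟨.add s t, fun 𝓡 x v => congrArg₂ (fun a b : ℕ => a + b) (hs 𝓡 x v) (ht 𝓡 x v)⟩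

theorem Te.mul {f g : (Fin m → ℕ → ℕ) → (Fin k → ℕ) → ℕ} (hf : Te f) (hg : Te g) :
    Te fun x v => f x v * g x v := by
  obtain ⟨s, hs⟩ := hf
  obtain ⟨t, ht⟩ := hg
  exact ⟨.mul s t, fun 𝓡 x v => congrArg₂ (fun a b : ℕ => a * b) (hs 𝓡 x v) (ht 𝓡 x v)⟩

theorem Te.app {f : (Fin m → ℕ → ℕ) → (Fin k → ℕ) → ℕ} (i : Fin m) (hf : Te f) :
    Te fun x v => x i (f x v) := by
  obtain ⟨s, hs⟩ := hf
  exact ⟨.app i s, fun 𝓡 x v => congrArg (fun a : ℕ => (x i).1 a) (hs 𝓡 x v)⟩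

/-- renaming of the number variables in a function -/
theorem AF.ren {k' : ℕ} {f : (Fin m → ℕ → ℕ) → (Fin k → ℕ) → ℕ} (h : AF f)
    (ρ : Fin k → Fin k') : AF fun x (v : Fin k' → ℕ) => f x fun i => v (ρ i) := by
  have h1 := Ar.ren h (lft ρ)
  refine h1.congr fun x v => ?_
  have e : (Fin.tail fun i => v (lft ρ i)) = fun i => Fin.tail v (ρ i) := by
    funext i
    simp [Fin.tail, lft]
  have e0 : v (lft ρ 0) = v 0 := by simp [lft]
  show (v (lft ρ 0) = f x (Fin.tail fun i => v (lft ρ i))) ↔ v 0 = f x fun i => Fin.tail v (ρ i)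
  rw [e, e0]

/-- weakening -/
theorem AF.wk {f : (Fin m → ℕ → ℕ) → (Fin k → ℕ) → ℕ} (h : AF f) :
    AF fun x (v : Fin (k + 1) → ℕ) => f x (Fin.tail v) := h.ren Fin.succ

/-- substitution of a function for a variable -/
theorem Ar.sub {R : (Fin m → ℕ → ℕ) → (Fin k → ℕ) → ℕ → Prop}
    (h : Ar fun x (v : Fin (k + 1) → ℕ) => R x (Fin.tail v) (v 0))
    {f : (Fin m → ℕ → ℕ) → (Fin k → ℕ) → ℕ} (hf : AF f) : Ar fun x v => R x v (f x v) := by
  have h1 : Ar fun x (v : Fin (k + 1) → ℕ) => v 0 = f x (Fin.tail v) ∧ R x (Fin.tail v) (v 0) :=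
    hf.and h
  exact (Ar.ex (R := fun x v a => a = f x v ∧ R x v a) h1).congr fun x v => by simp

theorem Te.af {f : (Fin m → ℕ → ℕ) → (Fin k → ℕ) → ℕ} (h : Te f) : AF f := by
  obtain ⟨t, ht⟩ := h
  exact Te.eq (Te.var 0) ⟨tren Fin.succ t, fun 𝓡 x v =>
    (tren_val (std 𝓡) Fin.succ x v t).trans (ht 𝓡 x fun i => v i.succ)⟩

theorem Ar.comp1 {Q : (Fin m → ℕ → ℕ) → ℕ → Prop}
    (h : Ar fun x (v : Fin 1 → ℕ) => Q x (v 0))
    {f : (Fin m → ℕ → ℕ) → (Fin k → ℕ) → ℕ} (hf : AF f) : Ar fun x v => Q x (f x v) :=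
  Ar.sub (R := fun x _ a => Q x a) (h.ren (k' := k + 1) fun _ => 0) hf

theorem Ar.comp2 {Q : (Fin m → ℕ → ℕ) → ℕ → ℕ → Prop}
    (h : Ar fun x (v : Fin 2 → ℕ) => Q x (v 0) (v 1))
    {f g : (Fin m → ℕ → ℕ) → (Fin k → ℕ) → ℕ} (hf : AF f) (hg : AF g) :
    Ar fun x v => Q x (f x v) (g x v) := by
  refine Ar.sub (R := fun x v a => Q x a (g x v)) ?_ hf
  refine Ar.sub (R := fun x (v : Fin (k + 1) → ℕ) a => Q x (v 0) a) ?_ hg.wk
  exact h.ren (k' := k + 2) ![Fin.succ 0, 0]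

theorem Ar.comp3 {Q : (Fin m → ℕ → ℕ) → ℕ → ℕ → ℕ → Prop}
    (h : Ar fun x (v : Fin 3 → ℕ) => Q x (v 0) (v 1) (v 2))
    {f g l : (Fin m → ℕ → ℕ) → (Fin k → ℕ) → ℕ} (hf : AF f) (hg : AF g) (hl : AF l) :
    Ar fun x v => Q x (f x v) (g x v) (l x v) := by
  refine Ar.sub (R := fun x v a => Q x a (g x v) (l x v)) ?_ hf
  refine Ar.sub (R := fun x (v : Fin (k + 1) → ℕ) a => Q x (v 0) a (l x (Fin.tail v))) ?_ hg.wk
  refine Ar.sub (R := fun x (v : Fin (k + 2) → ℕ) a => Q x (Fin.tail v 0) (v 0) a) ?_ hl.wk.wk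
  exact h.ren (k' := k + 3) ![Fin.succ (Fin.succ 0), Fin.succ 0, 0]

theorem Ar.eq {f g : (Fin m → ℕ → ℕ) → (Fin k → ℕ) → ℕ} (hf : AF f) (hg : AF g) :
    Ar fun x v => f x v = g x v :=
  Ar.comp2 (Q := fun _ a b => a = b) (Te.eq (Te.var 0) (Te.var 1)) hf hg

theorem Ar.lt {f g : (Fin m → ℕ → ℕ) → (Fin k → ℕ) → ℕ} (hf : AF f) (hg : AF g) :
    Ar fun x v => f x v < g x v := by
  refine Ar.comp2 (Q := fun _ a b => a < b) ?_ hf hg
  refine (Ar.ex (R := fun _ v d => v 0 + d + 1 = v 1) ?_).congr fun x v => ?_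
  · exact Te.eq ((Te.add (Te.var (Fin.succ 0)) (Te.var 0)).succ) (Te.var (Fin.succ 1))
  · constructor
    · rintro ⟨d, hd⟩; omega
    · intro h; exact ⟨v 1 - v 0 - 1, by omega⟩

theorem AF.var (i : Fin k) : AF (m := m) fun _ v => v i := (Te.var i).af

theorem AF.const (n : ℕ) : AF (m := m) (k := k) fun _ _ => n := (Te.const n).af

theorem AF.app {f : (Fin m → ℕ → ℕ) → (Fin k → ℕ) → ℕ} (i : Fin m) (hf : AF f) :
    AF fun x v => x i (f x v) :=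
  Ar.comp2 (Q := fun x a b => a = x i b) (Te.eq (Te.var 0) (Te.app i (Te.var 1)))
    (AF.var 0) hf.wk

theorem AF.succ {f : (Fin m → ℕ → ℕ) → (Fin k → ℕ) → ℕ} (hf : AF f) :
    AF fun x v => f x v + 1 :=
  Ar.comp2 (Q := fun _ a b => a = b + 1) (Te.eq (Te.var 0) (Te.var 1).succ)
    (AF.var 0) hf.wk

theorem AF.pair {f g : (Fin m → ℕ → ℕ) → (Fin k → ℕ) → ℕ} (hf : AF f) (hg : AF g) :
    AF fun x v => Nat.pair (f x v) (g x v) := by
  refine Ar.comp3 (Q := fun _ c a b => c = Nat.pair a b) ?_ (AF.var 0) hf.wk hg.wk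
  have h1 : Ar (m := m) fun _ (v : Fin 3 → ℕ) => v 1 < v 2 := Ar.lt (AF.var 1) (AF.var 2)
  have h2 : Ar (m := m) fun _ (v : Fin 3 → ℕ) => v 0 = v 2 * v 2 + v 1 :=
    Te.eq (Te.var 0) (((Te.var 2).mul (Te.var 2)).add (Te.var 1))
  have h3 : Ar (m := m) fun _ (v : Fin 3 → ℕ) => v 0 = v 1 * v 1 + v 1 + v 2 :=
    Te.eq (Te.var 0) ((((Te.var 1).mul (Te.var 1)).add (Te.var 1)).add (Te.var 2))
  refine ((h1.imp h2).and (h1.not.imp h3)).congr fun x v => ?_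
  by_cases h : v 1 < v 2
  · simp [Nat.pair, h]
  · simp [Nat.pair, h]

theorem Ar.fin (n : ℕ) {R : Fin n → (Fin m → ℕ → ℕ) → (Fin k → ℕ) → Prop}
    (h : ∀ i, Ar (R i)) : Ar fun x v => ∀ i, R i x v := by
  induction n with
  | zero => exact (Te.eq Te.zero Te.zero).congr fun x v => by simp
  | succ n ih =>
    exact ((h 0).and (ih fun i => h i.succ)).congr fun x v => by rw [Fin.forall_fin_succ]

theorem Ar.dm {f : (Fin m → ℕ → ℕ) → (Fin k → ℕ) → ℕ} (y : Fin m) (hf : AF f) :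
    Ar fun x v => Dm (x y) (f x v) := Ar.eq ((hf.pair hf).app y) (AF.const 0)

theorem Ar.em {f g : (Fin m → ℕ → ℕ) → (Fin k → ℕ) → ℕ} (y : Fin m) (hf : AF f) (hg : AF g) :
    Ar fun x v => Em (x y) (f x v) (g x v) :=
  (Ar.eq hf hg).not.and ((Ar.eq ((hf.pair hg).app y) (AF.const 0)).and
    ((Ar.dm y hf).and (Ar.dm y hg)))

theorem elim_af {n : ℕ} (s : Fin n ⊕ Empty) (τ : Fin n → (Fin m → ℕ → ℕ) → (Fin k → ℕ) → ℕ)
    (hτ : ∀ j, AF (τ j)) : AF fun x v => Sum.elim (fun j => τ j x v) Empty.elim s := by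
  cases s with
  | inl j => exact hτ j
  | inr e => exact e.elim

end

/-- Truth in the coded structure is arithmetical. -/
theorem ev_ar {m n : ℕ} (y : Fin m) (φ : Fml Empty n) :
    ∀ {k : ℕ} (τ : Fin n → (Fin m → ℕ → ℕ) → (Fin k → ℕ) → ℕ), (∀ j, AF (τ j)) →
      Ar fun x v => Ev (Dm (x y)) (Em (x y)) φ (fun j => τ j x v) := by
  induction φ with
  | mem s t =>
    intro k τ hτ
    exact Ar.em y (elim_af s τ hτ) (elim_af t τ hτ)
  | eq s t =>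
    intro k τ hτ
    exact Ar.eq (elim_af s τ hτ) (elim_af t τ hτ)
  | neg φ ih =>
    intro k τ hτ
    exact (ih τ hτ).not
  | and φ ψ ih1 ih2 =>
    intro k τ hτ
    exact (ih1 τ hτ).and (ih2 τ hτ)
  | @ex n φ ih =>
    intro k τ hτ
    refine Ar.ex (R := fun x v a => Dm (x y) a ∧
      Ev (Dm (x y)) (Em (x y)) φ (Fin.cons a fun j => τ j x v)) ?_
    refine (Ar.dm y (AF.var 0)).and ?_
    refine (ih (Fin.cons (fun _ v => v 0) fun j x v => τ j x (Fin.tail v)) ?_).congr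
      fun x v => ?_
    · intro j
      refine Fin.cases ?_ (fun i => ?_) j
      · exact AF.var 0
      · exact (hτ i).wk
    · have e : (fun j => (Fin.cons (fun _ v => v 0) fun j x v => τ j x (Fin.tail v) :
          Fin (n + 1) → (Fin m → ℕ → ℕ) → (Fin (k + 1) → ℕ) → ℕ) j x v) =
          Fin.cons (v 0) fun j => τ j x (Fin.tail v) := by
        funext j
        refine Fin.cases ?_ (fun i => ?_) j
        · simp
        · simp
      rw [e]

section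
variable {m k : ℕ}

theorem AF.t1 (i : Fin k) : AF (m := m) fun _ (v : Fin (k + 1) → ℕ) => Fin.tail v i :=
  AF.var i.succ

theorem AF.t2 (i : Fin k) : AF (m := m) fun _ (v : Fin (k + 2) → ℕ) => Fin.tail (Fin.tail v) i :=
  AF.var i.succ.succ

theorem AF.t3 (i : Fin k) :
    AF (m := m) fun _ (v : Fin (k + 3) → ℕ) => Fin.tail (Fin.tail (Fin.tail v)) i :=
  AF.var i.succ.succ.succ

end

/-- `CodeC` is arithmetical. -/
theorem codeC_ar {k m : ℕ} (φ : Fml Empty (k + 1)) (y e s t p c : Fin m) (ix : Fin k → Fin m) :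
    Ar fun (X : Fin m → ℕ → ℕ) (_ : Fin 0 → ℕ) =>
      CodeC φ (X y) (X e) (X s) (X t) (X p) (X c) (fun i => X (ix i)) := by
  unfold CodeC
  refine Ar.and ?_ (Ar.and ?_ (Ar.and ?_ (Ar.and ?_ (Ar.and ?_ (Ar.and ?_ (Ar.and ?_
    (Ar.and ?_ ?_)))))))
  · refine Ar.all (Ar.all (Ar.imp (Ar.dm y (AF.t1 0)) (Ar.imp (Ar.dm y (AF.var 0))
      (Ar.imp (Ar.all (Ar.iff (Ar.em y (AF.var 0) (AF.t2 0)) (Ar.em y (AF.var 0) (AF.t1 0))))
        (Ar.eq (AF.t1 0) (AF.var 0))))))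
  · exact Ar.all (Ar.dm y (AF.app e (AF.var 0)))
  · exact Ar.all (Ar.not (Ar.em y (AF.var 0) (AF.app e (AF.const 0))))
  · exact Ar.all (Ar.all (Ar.iff (Ar.em y (AF.var 0) (AF.app e (AF.succ (AF.t1 0))))
      (Ar.or (Ar.em y (AF.var 0) (AF.app e (AF.t1 0)))
        (Ar.eq (AF.var 0) (AF.app e (AF.t1 0))))))
  · exact Ar.all (Ar.and (Ar.dm y (AF.app s (AF.var 0)))
      (Ar.all (Ar.iff (Ar.em y (AF.var 0) (AF.app s (AF.t1 0)))
        (Ar.eq (AF.var 0) (AF.app e (AF.t1 0))))))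
  · exact Ar.all (Ar.all (Ar.and (Ar.dm y (AF.app t (AF.pair (AF.t1 0) (AF.var 0))))
      (Ar.all (Ar.iff (Ar.em y (AF.var 0) (AF.app t (AF.pair (AF.t2 0) (AF.t1 0))))
        (Ar.or (Ar.eq (AF.var 0) (AF.app e (AF.t2 0)))
          (Ar.eq (AF.var 0) (AF.app e (AF.t1 0))))))))
  · exact Ar.all (Ar.all (Ar.and (Ar.dm y (AF.app p (AF.pair (AF.t1 0) (AF.var 0))))
      (Ar.all (Ar.iff (Ar.em y (AF.var 0) (AF.app p (AF.pair (AF.t2 0) (AF.t1 0))))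
        (Ar.or (Ar.eq (AF.var 0) (AF.app s (AF.t2 0)))
          (Ar.eq (AF.var 0) (AF.app t (AF.pair (AF.t2 0) (AF.t1 0)))))))))
  · refine Ar.fin k fun i => ?_
    exact Ar.and (Ar.dm y (AF.app c (AF.const i)))
      (Ar.all (Ar.iff (Ar.em y (AF.var 0) (AF.app c (AF.const i)))
        (Ar.ex (Ar.ex (Ar.and
          (Ar.eq (AF.app (ix i) (AF.pair (AF.t1 0) (AF.var 0))) (AF.const 0))
          (Ar.eq (AF.t2 0) (AF.app p (AF.pair (AF.t1 0) (AF.var 0)))))))))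
  · refine Ar.ex (Ar.and (Ar.dm y (AF.var 0)) ?_)
    refine (ev_ar y φ (Fin.cons (fun _ v => v 0) fun (j : Fin k) x _ => x c j) ?_).congr
      fun x v => ?_
    · intro j
      refine Fin.cases ?_ (fun i => ?_) j
      · exact AF.var 0
      · exact AF.app c (AF.const i)
    · have e : (fun j => (Fin.cons (fun _ v => v 0) fun (j : Fin k) x _ => x c j :
          Fin (k + 1) → (Fin m → ℕ → ℕ) → (Fin (0 + 1) → ℕ) → ℕ) j x v) =
          Fin.cons (v 0) fun j : Fin k => x c j := by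
        funext j
        refine Fin.cases ?_ (fun i => ?_) j
        · simp
        · simp
      rw [e]

end DOb

open DOb in
/-- The formula for `CodeC`. -/
theorem d1b : S_D1b := by
  intro k φ
  have h1 : Ar fun (X : Fin (k + 7) → ℕ → ℕ) (_ : Fin 0 → ℕ) =>
      CodeC φ (X 6) (X 5) (X 4) (X 3) (X 2) (X 1) (fun i => X (i.addNat 7)) :=
    codeC_ar φ 6 5 4 3 2 1 fun i => i.addNat 7
  have h2 : Ar fun (X : Fin (k + 7) → ℕ → ℕ) (_ : Fin 0 → ℕ) =>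
      ¬ ∀ n, Em (X 6) (X 0 (n + 1)) (X 0 n) :=
    Ar.not (Ar.all (Ar.em 6 (AF.app 0 (AF.succ (AF.var 0))) (AF.app 0 (AF.var 0))))
  obtain ⟨χ, hχ, hχ2⟩ := h1.and h2
  refine ⟨.exR (.exR (.exR (.exR (.exR (.exR (Fm.allR χ)))))), ?_, ?_⟩
  · refine .ex (.ex (.ex (.ex (.ex (.ex' (.all (.arith hχ)))))))
  · intro 𝓡 x
    have h3 : ∀ y e s t p c z : 𝓡,
        Holds (std 𝓡) χ (Fin.cons z (Fin.cons c (Fin.cons p (Fin.cons t (Fin.cons s
          (Fin.cons e (Fin.cons y x)))))) : Fin (k + 7) → 𝓡) (Fin.elim0 : Fin 0 → ℕ) ↔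
        CodeC φ y.1 e.1 s.1 t.1 p.1 c.1 (fun i => (x i).1) ∧
          ¬ ∀ n, Em y.1 (z.1 (n + 1)) (z.1 n) := by
      intro y e s t p c z
      exact hχ2 𝓡 _ _
    have h4 : Tr 𝓡 (.exR (.exR (.exR (.exR (.exR (.exR (Fm.allR χ))))))) x ↔
        ∃ y e s t p c : 𝓡, ¬ ∃ z : 𝓡, ¬ (CodeC φ y.1 e.1 s.1 t.1 p.1 c.1 (fun i => (x i).1) ∧
          ¬ ∀ n, Em y.1 (z.1 (n + 1)) (z.1 n)) := by
      refine exists_congr fun y => exists_congr fun e => exists_congr fun s =>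
        exists_congr fun t => exists_congr fun p => exists_congr fun c => not_congr
        (exists_congr fun z => not_congr (h3 y e s t p c z))
    rw [h4]
    refine exists_congr fun y => exists_congr fun e => exists_congr fun s =>
        exists_congr fun t => exists_congr fun p => exists_congr fun c => ?_
    constructor
    · intro h
      rw [not_exists_not] at h
      exact ⟨(h y).1, fun z => (h z).2⟩
    · rintro ⟨h5, h6⟩
      rw [not_exists_not]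
      exact fun z => ⟨h5, h6 z⟩

end Pool.Agent.H637_NO
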