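import Pool.Agent.H637_NO.Stm

/-!
# The equivalence relation with two classes

Renaming of the real variables, negations, conjunctions and dummy quantifiers for `Σ^1_n` and
`Π^1_n` formulas, in arbitrary structures.
-/

set_option autoImplicit false

namespace Pool.Agent.H637_NO

/-- Renaming of the real variables of a term. -/
def Tm.d2r {m m' k : ℕ} (ρ : Fin m → Fin m') : Tm m k → Tm m' k
  | .var i => .var i
  | .zero => .zero
  | .succ t => .succ (t.d2r ρ)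
  | .add s t => .add (s.d2r ρ) (t.d2r ρ)
  | .mul s t => .mul (s.d2r ρ) (t.d2r ρ)
  | .app i t => .app (ρ i) (t.d2r ρ)

/-- The renaming under a quantifier. -/
def d2_lift {m m' : ℕ} (ρ : Fin m → Fin m') : Fin (m + 1) → Fin (m' + 1) :=
  Fin.cons 0 (fun i => (ρ i).succ)

/-- Renaming of the real variables of a formula. -/
def Fm.d2r : {m k m' : ℕ} → (Fin m → Fin m') → Fm m k → Fm m' k
  | _, _, _, ρ, .eq s t => .eq (s.d2r ρ) (t.d2r ρ)
  | _, _, _, ρ, .neg φ => .neg (φ.d2r ρ)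
  | _, _, _, ρ, .and φ ψ => .and (φ.d2r ρ) (ψ.d2r ρ)
  | _, _, _, ρ, .exN φ => .exN (φ.d2r ρ)
  | _, _, _, ρ, .exR φ => .exR (φ.d2r (d2_lift ρ))

lemma d2_val (𝔐 : Str) {m m' k : ℕ} (ρ : Fin m → Fin m') (x : Fin m' → 𝔐.R) (v : Fin k → 𝔐.N)
    (t : Tm m k) : (t.d2r ρ).val 𝔐 x v = t.val 𝔐 (fun i => x (ρ i)) v := by
  induction t with
  | var i => rfl
  | zero => rfl
  | succ t ih => simp only [Tm.d2r, Tm.val, ih]
  | add s t ih1 ih2 => simp only [Tm.d2r, Tm.val, ih1, ih2]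
  | mul s t ih1 ih2 => simp only [Tm.d2r, Tm.val, ih1, ih2]
  | app i t ih => simp only [Tm.d2r, Tm.val, ih]

lemma d2_cons (𝔐 : Str) {m m' : ℕ} (ρ : Fin m → Fin m') (x : Fin m' → 𝔐.R) (a : 𝔐.R) :
    (fun i => (Fin.cons a x : Fin (m' + 1) → 𝔐.R) (d2_lift ρ i)) =
      Fin.cons a (fun i => x (ρ i)) := by
  funext i
  refine Fin.cases ?_ (fun i => ?_) i
  · simp [d2_lift]
  · simp [d2_lift]

lemma d2_holds (𝔐 : Str) {m k : ℕ} (φ : Fm m k) : ∀ {m' : ℕ} (ρ : Fin m → Fin m')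
    (x : Fin m' → 𝔐.R) (v : Fin k → 𝔐.N),
    Holds 𝔐 (φ.d2r ρ) x v ↔ Holds 𝔐 φ (fun i => x (ρ i)) v := by
  induction φ with
  | eq s t => intro m' ρ x v; simp only [Fm.d2r, Holds, d2_val]
  | neg φ ih => intro m' ρ x v; simp only [Fm.d2r, Holds, ih]
  | and φ ψ ih1 ih2 => intro m' ρ x v; simp only [Fm.d2r, Holds, ih1, ih2]
  | exN φ ih => intro m' ρ x v; simp only [Fm.d2r, Holds, ih]
  | exR φ ih => intro m' ρ x v; simp only [Fm.d2r, Holds, ih, d2_cons]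

lemma d2_arith {m k : ℕ} (φ : Fm m k) : ∀ {m' : ℕ} (ρ : Fin m → Fin m'),
    φ.Arith → (φ.d2r ρ).Arith := by
  induction φ with
  | eq s t => intro m' ρ _; trivial
  | neg φ ih => intro m' ρ h; exact ih ρ h
  | and φ ψ ih1 ih2 => intro m' ρ h; exact ⟨ih1 ρ h.1, ih2 ρ h.2⟩
  | exN φ ih => intro m' ρ h; exact ih ρ h
  | exR φ ih => intro m' ρ h; exact h.elim

lemma d2_cls {b : Bool} {n m k : ℕ} {φ : Fm m k} (h : Cls b n φ) :
    ∀ {m' : ℕ} (ρ : Fin m → Fin m'), Cls b n (φ.d2r ρ) := by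
  induction h with
  | arith h => intro m' ρ; exact .arith (d2_arith _ ρ h)
  | ex _ ih => intro m' ρ; exact .ex (ih _)
  | ex' _ ih => intro m' ρ; exact .ex' (ih _)
  | all _ ih => intro m' ρ; exact .all (ih _)
  | all' _ ih => intro m' ρ; exact .all' (ih _)

lemma d2_mono {b : Bool} {n m k : ℕ} {φ : Fm m k} (h : Cls b n φ) : Cls b (n + 1) φ := by
  induction h with
  | arith h => exact .arith h
  | ex _ ih => exact .ex ih
  | ex' _ ih => exact .ex' ih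
  | all _ ih => exact .all ih
  | all' _ ih => exact .all' ih

lemma d2_mono' {b : Bool} {n m k : ℕ} {φ : Fm m k} (h : Cls b n φ) (l : ℕ) : Cls b (n + l) φ := by
  induction l with
  | zero => exact h
  | succ l ih => exact d2_mono ih

/-- Equivalence in all structures with at least one real. -/
def D2E {m k : ℕ} (φ ψ : Fm m k) : Prop :=
  ∀ 𝔐 : Str, Nonempty 𝔐.R → ∀ (x : Fin m → 𝔐.R) (v : Fin k → 𝔐.N),
    Holds 𝔐 φ x v ↔ Holds 𝔐 ψ x v

/-- The formula is equivalent to a formula in the class. -/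
def D2C (b : Bool) (n : ℕ) {m k : ℕ} (φ : Fm m k) : Prop := ∃ ψ, Cls b n ψ ∧ D2E φ ψ

lemma D2C.of {b : Bool} {n m k : ℕ} {φ : Fm m k} (h : Cls b n φ) : D2C b n φ :=
  ⟨φ, h, fun _ _ _ _ => Iff.rfl⟩

lemma D2C.congr {b : Bool} {n m k : ℕ} {φ ψ : Fm m k} (h : D2C b n ψ) (e : D2E φ ψ) :
    D2C b n φ := by
  obtain ⟨χ, h1, h2⟩ := h
  exact ⟨χ, h1, fun 𝔐 hR x v => (e 𝔐 hR x v).trans (h2 𝔐 hR x v)⟩

lemma D2C.mono {b : Bool} {n m k : ℕ} {φ : Fm m k} (h : D2C b n φ) : D2C b (n + 1) φ := by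
  obtain ⟨χ, h1, h2⟩ := h
  exact ⟨χ, d2_mono h1, h2⟩

lemma d2_allR (𝔐 : Str) {m k : ℕ} (φ : Fm (m + 1) k) (x : Fin m → 𝔐.R) (v : Fin k → 𝔐.N) :
    Holds 𝔐 φ.allR x v ↔ ∀ a : 𝔐.R, Holds 𝔐 φ (Fin.cons a x) v := by
  simp only [Fm.allR, Holds, not_exists, not_not]

/-- Negation. -/
lemma d2_neg {b : Bool} {n m k : ℕ} {φ : Fm m k} (h : Cls b n φ) : D2C (!b) n φ.neg := by
  induction h with
  | arith h => exact .of (.arith h)
  | ex _ ih =>
    obtain ⟨χ, h1, h2⟩ := ih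
    refine ⟨χ.allR, .all h1, fun 𝔐 hR x v => ?_⟩
    rw [d2_allR]
    simp only [Holds, not_exists]
    exact forall_congr' fun a => h2 𝔐 hR _ v
  | ex' _ ih =>
    obtain ⟨χ, h1, h2⟩ := ih
    refine ⟨χ.allR, .all' h1, fun 𝔐 hR x v => ?_⟩
    rw [d2_allR]
    simp only [Holds, not_exists]
    exact forall_congr' fun a => h2 𝔐 hR _ v
  | all _ ih =>
    obtain ⟨χ, h1, h2⟩ := ih
    refine ⟨χ.exR, .ex h1, fun 𝔐 hR x v => ?_⟩
    change ¬ Holds 𝔐 (Fm.allR _) x v ↔ _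
    rw [d2_allR, not_forall]
    exact exists_congr fun a => h2 𝔐 hR _ v
  | all' _ ih =>
    obtain ⟨χ, h1, h2⟩ := ih
    refine ⟨χ.exR, .ex' h1, fun 𝔐 hR x v => ?_⟩
    change ¬ Holds 𝔐 (Fm.allR _) x v ↔ _
    rw [d2_allR, not_forall]
    exact exists_congr fun a => h2 𝔐 hR _ v

lemma D2C.neg {b : Bool} {n m k : ℕ} {φ : Fm m k} (h : D2C b n φ) : D2C (!b) n φ.neg := by
  obtain ⟨χ, h1, h2⟩ := h
  exact (d2_neg h1).congr fun 𝔐 hR x v => not_congr (h2 𝔐 hR x v)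

/-- Dummy quantifiers. -/
lemma D2C.dummy {b : Bool} {n m k : ℕ} {φ : Fm m k} (h : D2C b n φ) : D2C (!b) (n + 1) φ := by
  obtain ⟨χ, h1, h2⟩ := h
  cases b with
  | true =>
    refine ⟨(χ.d2r Fin.succ).allR, .all' (d2_cls h1 _), fun 𝔐 hR x v => ?_⟩
    rw [d2_allR, h2 𝔐 hR x v]
    simp only [d2_holds, Fin.cons_succ]
    exact ⟨fun h _ => h, fun h => h hR.some⟩
  | false =>
    refine ⟨(χ.d2r Fin.succ).exR, .ex' (d2_cls h1 _), fun 𝔐 hR x v => ?_⟩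
    rw [h2 𝔐 hR x v]
    simp only [Holds, d2_holds, Fin.cons_succ]
    exact ⟨fun h => ⟨hR.some, h⟩, fun ⟨_, h⟩ => h⟩

lemma D2C.ex {n m k : ℕ} {φ : Fm (m + 1) k} (h : D2C true (n + 1) φ) :
    D2C true (n + 1) φ.exR := by
  obtain ⟨χ, h1, h2⟩ := h
  exact ⟨χ.exR, .ex h1, fun 𝔐 hR x v => exists_congr fun a => h2 𝔐 hR _ v⟩

lemma D2C.ex' {n m k : ℕ} {φ : Fm (m + 1) k} (h : D2C false n φ) :
    D2C true (n + 1) φ.exR := by
  obtain ⟨χ, h1, h2⟩ := h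
  exact ⟨χ.exR, .ex' h1, fun 𝔐 hR x v => exists_congr fun a => h2 𝔐 hR _ v⟩

lemma D2C.all {n m k : ℕ} {φ : Fm (m + 1) k} (h : D2C false (n + 1) φ) :
    D2C false (n + 1) φ.allR := by
  obtain ⟨χ, h1, h2⟩ := h
  exact ⟨χ.allR, .all h1, fun 𝔐 hR x v => by
    rw [d2_allR, d2_allR]; exact forall_congr' fun a => h2 𝔐 hR _ v⟩

lemma D2C.all' {n m k : ℕ} {φ : Fm (m + 1) k} (h : D2C true n φ) :
    D2C false (n + 1) φ.allR := by
  obtain ⟨χ, h1, h2⟩ := h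
  exact ⟨χ.allR, .all' h1, fun 𝔐 hR x v => by
    rw [d2_allR, d2_allR]; exact forall_congr' fun a => h2 𝔐 hR _ v⟩

/-- `(∃ a, φ a) ∧ ψ ↔ ∃ a, φ a ∧ ψ`. -/
lemma d2_exl {m k : ℕ} (φ : Fm (m + 1) k) (ψ : Fm m k) :
    D2E (.and φ.exR ψ) (.exR (.and φ (ψ.d2r Fin.succ))) := by
  intro 𝔐 hR x v
  simp only [Holds, d2_holds, Fin.cons_succ]
  exact exists_and_right.symm

lemma d2_exr {m k : ℕ} (φ : Fm m k) (ψ : Fm (m + 1) k) :
    D2E (.and φ ψ.exR) (.exR (.and (φ.d2r Fin.succ) ψ)) := by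
  intro 𝔐 hR x v
  simp only [Holds, d2_holds, Fin.cons_succ]
  exact exists_and_left.symm

lemma d2_alll {m k : ℕ} (φ : Fm (m + 1) k) (ψ : Fm m k) :
    D2E (.and φ.allR ψ) (.allR (.and φ (ψ.d2r Fin.succ))) := by
  intro 𝔐 hR x v
  rw [d2_allR]
  change Holds 𝔐 φ.allR x v ∧ Holds 𝔐 ψ x v ↔ _
  rw [d2_allR]
  simp only [Holds, d2_holds, Fin.cons_succ]
  exact ⟨fun h a => ⟨h.1 a, h.2⟩, fun h => ⟨fun a => (h a).1, (h hR.some).2⟩⟩

lemma d2_allr {m k : ℕ} (φ : Fm m k) (ψ : Fm (m + 1) k) :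
    D2E (.and φ ψ.allR) (.allR (.and (φ.d2r Fin.succ) ψ)) := by
  intro 𝔐 hR x v
  rw [d2_allR]
  change Holds 𝔐 φ x v ∧ Holds 𝔐 ψ.allR x v ↔ _
  rw [d2_allR]
  simp only [Holds, d2_holds, Fin.cons_succ]
  exact ⟨fun h a => ⟨h.1, h.2 a⟩, fun h => ⟨(h hR.some).1, fun a => (h a).2⟩⟩

/-- Conjunctions. -/
lemma d2_and (n : ℕ) : ∀ (b : Bool) {m k : ℕ} (φ ψ : Fm m k), Cls b n φ → Cls b n ψ →
    D2C b n (.and φ ψ) := by
  induction n with
  | zero =>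
    intro b m k φ ψ h1 h2
    cases h1 with
    | arith h1 => cases h2 with
      | arith h2 => exact .of (.arith ⟨h1, h2⟩)
  | succ n IH =>
    -- the second formula has more quantifiers
    have A : ∀ {b : Bool} {l m k : ℕ} {ψ : Fm m k}, Cls b l ψ → l = n + 1 →
        ∀ φ : Fm m k, Cls (!b) n φ → D2C b (n + 1) (.and φ ψ) := by
      intro b l m k ψ h
      induction h with
      | @arith b _ _ _ ψ h =>
        intro _ φ hφ
        have := (IH _ φ ψ hφ (.arith h)).dummy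
        rwa [Bool.not_not] at this
      | ex _ ih =>
        intro hl φ hφ
        obtain rfl := Nat.succ.inj hl
        exact (D2C.ex (ih rfl _ (d2_cls hφ _))).congr (d2_exr _ _)
      | @ex' l' _ _ _ h _ =>
        intro hl φ hφ
        obtain rfl := Nat.succ.inj hl
        exact (D2C.ex' (IH _ _ _ (d2_cls hφ _) h)).congr (d2_exr _ _)
      | all _ ih =>
        intro hl φ hφ
        obtain rfl := Nat.succ.inj hl
        exact (D2C.all (ih rfl _ (d2_cls hφ _))).congr (d2_allr _ _)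
      | all' h _ =>
        intro hl φ hφ
        obtain rfl := Nat.succ.inj hl
        exact (D2C.all' (IH _ _ _ (d2_cls hφ _) h)).congr (d2_allr _ _)
    have B : ∀ {b : Bool} {l m k : ℕ} {φ : Fm m k}, Cls b l φ → l = n + 1 →
        ∀ ψ : Fm m k, Cls b (n + 1) ψ → D2C b (n + 1) (.and φ ψ) := by
      intro b l m k φ h
      induction h with
      | arith h =>
        intro _ ψ hψ
        exact A hψ rfl _ (.arith h)
      | ex _ ih =>
        intro hl ψ hψ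
        obtain rfl := Nat.succ.inj hl
        exact (D2C.ex (ih rfl _ (d2_cls hψ _))).congr (d2_exl _ _)
      | ex' h _ =>
        intro hl ψ hψ
        obtain rfl := Nat.succ.inj hl
        exact (D2C.ex (A (d2_cls hψ _) rfl _ h)).congr (d2_exl _ _)
      | all _ ih =>
        intro hl ψ hψ
        obtain rfl := Nat.succ.inj hl
        exact (D2C.all (ih rfl _ (d2_cls hψ _))).congr (d2_alll _ _)
      | all' h _ =>
        intro hl ψ hψ
        obtain rfl := Nat.succ.inj hl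
        exact (D2C.all (A (d2_cls hψ _) rfl _ h)).congr (d2_alll _ _)
    intro b m k φ ψ h1 h2
    exact B h1 rfl ψ h2

lemma D2C.and {b : Bool} {n m k : ℕ} {φ ψ : Fm m k} (h1 : D2C b n φ) (h2 : D2C b n ψ) :
    D2C b n (.and φ ψ) := by
  obtain ⟨φ', h3, h4⟩ := h1
  obtain ⟨ψ', h5, h6⟩ := h2
  exact (d2_and n b φ' ψ' h3 h5).congr fun 𝔐 hR x v => and_congr (h4 𝔐 hR x v) (h6 𝔐 hR x v)

/-- `¬ (¬ φ ∧ ¬ ψ)`. -/
lemma D2C.or {b : Bool} {n m k : ℕ} {φ ψ : Fm m k} (h1 : D2C b n φ) (h2 : D2C b n ψ) :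
    D2C b n (.neg (.and (.neg φ) (.neg ψ))) := by
  have := (h1.neg.and h2.neg).neg
  rwa [Bool.not_not] at this

/-- `Σ^1_n` formulas and `Π^1_n` formulas are equivalent to formulas in both classes of the next
level. -/
lemma d2_up {b : Bool} {n m k : ℕ} {φ : Fm m k} (h : D2C b n φ) (b' : Bool) :
    D2C b' (n + 1) φ := by
  cases b <;> cases b'
  · exact h.mono
  · exact h.dummy
  · exact h.dummy
  · exact h.mono

/-- The equivalence relation with two classes. -/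
theorem d2 : S_D2 := by
  intro ψ hψ n
  set ψx : Fm 2 0 := ψ.d2r ![0] with hx
  set ψy : Fm 2 0 := ψ.d2r ![1] with hy
  have cx : Cls true 2 ψx := d2_cls hψ _
  have cy : Cls true 2 ψy := d2_cls hψ _
  set A : Fm 2 0 := .and ψx ψy with hA
  set B : Fm 2 0 := .and (.neg ψx) (.neg ψy) with hB
  have cA : D2C true 2 A := (D2C.of cx).and (.of cy)
  have cB : D2C false 2 B := (D2C.of cx).neg.and (D2C.of cy).neg
  set C : Fm 2 0 := .neg (.and (.neg A) (.neg B)) with hC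
  have cC : ∀ b, D2C b 3 C := fun b => (d2_up cA b).or (d2_up cB b)
  obtain ⟨φ, h1, h2⟩ := cC true
  obtain ⟨φ', h3, h4⟩ := cC false
  have sem : ∀ (𝔐 : Str) (x y : 𝔐.R), Holds 𝔐 C ![x, y] (fun i => i.elim0) ↔
      (Holds 𝔐 ψ ![x] (fun i => i.elim0) ↔ Holds 𝔐 ψ ![y] (fun i => i.elim0)) := by
    intro 𝔐 x y
    have e1 : (fun i : Fin 1 => (![x, y] : Fin 2 → 𝔐.R) ((![0] : Fin 1 → Fin 2) i)) = ![x] := by
      funext i; fin_cases i; rfl
    have e2 : (fun i : Fin 1 => (![x, y] : Fin 2 → 𝔐.R) ((![1] : Fin 1 → Fin 2) i)) = ![y] := by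
      funext i; fin_cases i; rfl
    simp only [hC, hA, hB, hx, hy, Holds, d2_holds, e1, e2]
    tauto
  refine ⟨φ, φ', ⟨?_, ?_, ?_⟩, ?_⟩
  · have := d2_mono' h1 n
    rwa [Nat.add_comm 3 n] at this
  · have := d2_mono' h3 n
    rwa [Nat.add_comm 3 n] at this
  · intro 𝔐 hR x
    exact (h2 𝔐 hR x _).symm.trans (h4 𝔐 hR x _)
  · intro 𝔐 hR x y
    exact (h2 𝔐 hR _ _).symm.trans (sem 𝔐 x y)

end Pool.Agent.H637_NO
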