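import Pool.Agent.H637_NO.LbB
import Pool.Agent.H637_NO.Stm2
import Pool.Agent.Y588.Gen

/-!
# New orbits: definability over a model of the notions used in the proof
-/

set_option autoImplicit false
set_option linter.unreachableTactic false
set_option linter.unusedTactic false

namespace Pool.Agent.H637_NO

open Pool.Agent.W868 Pool.Agent.W868.GM
open ZFSet (pair)

/-! ### Bounded relations -/

/-- `Clp` with a parameter for `ω`. -/
def ClpW (w r p : ZFSet.{0}) : Prop :=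
  (∀ q ∈ p, ∃ n x, q = pair n x ∧ n ∈ w ∧
    (∀ y ∈ x, ∃ m ∈ w, pair m n ∈ r ∧ pair m y ∈ p) ∧
    ∀ m ∈ w, pair m n ∈ r → ∃ y ∈ x, pair m y ∈ p) ∧
  ∀ n ∈ w, ∃ q ∈ p, ∃ n' x, q = pair n' x ∧ n' = n

theorem clpW_iff {r p : ZFSet.{0}} : ClpW ZFSet.omega r p ↔ Clp r p := by
  unfold ClpW Clp
  refine and_congr Iff.rfl ⟨fun h n hn => ?_, fun h n hn => ?_⟩
  · obtain ⟨q, hq, n', x, rfl, rfl⟩ := h n hn
    exact ⟨x, hq⟩
  · obtain ⟨x, hx⟩ := h n hn
    exact ⟨_, hx, n, x, rfl, rfl⟩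

theorem d0_ClpW : D0 fun v : Fin 3 → ZFSet.{0} => ClpW (v 0) (v 1) (v 2) := by
  unfold ClpW
  (repeat' first
      | assumption
      | exact D0v.proj _
      | apply D0.and | apply D0.pairMem | apply D0.expair
      | apply D0.bex | apply D0.ball | apply D0.imp
      | apply D0.eq | apply D0.mem)

/-- `x` is a pair with the second component `y`, for some first component. -/
theorem d0_Tra : D0 fun v : Fin 1 → ZFSet.{0} => Tra (v 0) := by
  unfold Tra
  (repeat' first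
      | assumption
      | exact D0v.proj _
      | apply D0.and
      | apply D0.bex | apply D0.ball | apply D0.imp
      | apply D0.eq | apply D0.mem)

/-! ### Sets in a model -/

section

variable {M : Set ZFSet.{0}} (hM : IsZF M)

include hM

theorem oo_mem : oo ∈ M := hM.prod_mem hM.infinity hM.infinity

omit hM in
theorem mem_PW {r : ZFSet.{0}} : r ∈ PW M ↔ r ∈ M ∧ r ⊆ oo := by
  unfold PW
  rw [ZFSet.mem_sep, ZFSet.mem_powerset]
  exact and_comm

theorem PW_mem : PW M ∈ M := by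
  obtain ⟨y, hy, h⟩ := hM.power oo (oo_mem hM)
  have h1 : y = PW M := by
    ext z
    rw [h, mem_PW]
  exact h1 ▸ hy

variable {n : ℕ} {F G H : (Fin n → ZFSet.{0}) → ZFSet.{0}}

theorem dfn_Tra (hF : DfnF M M F) : Dfn M M fun v => Tra (F v) :=
  Dfn.comp1 (Q := Tra) (d0_Tra.dfn hM.trans) hF

theorem dfn_Inj (hF : DfnF M M F) (hG : DfnF M M G) : Dfn M M fun v => Inj M (F v) (G v) := by
  have hB := hM.base
  apply Dfn.ex
  exact hB.isInj' hF.tail hG.tail (DfnF.proj 0)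

theorem dfn_HCt (hF : DfnF M M F) : Dfn M M fun v => HCt M (F v) := by
  have hB := hM.base
  apply Dfn.ex
  apply Dfn.and (dfn_Tra hM (DfnF.proj 0))
  apply Dfn.and (Dfn.mem hF.tail (DfnF.proj 0))
  exact dfn_Inj hM (DfnF.proj 0) (DfnF.const hM.infinity)

theorem dfn_Fi (hF : DfnF M M F) : Dfn M M fun v => Fi M (F v) := by
  have hB := hM.base
  apply hB.bex (DfnF.const hM.infinity)
  exact dfn_Inj hM hF.tail (DfnF.proj 0)

theorem dfn_Clp (hF : DfnF M M F) (hG : DfnF M M G) : Dfn M M fun v => Clp (F v) (G v) := by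
  have h1 : Dfn M M fun v => ClpW ZFSet.omega (F v) (G v) :=
    Dfn.comp3 (Q := ClpW) (d0_ClpW.dfn hM.trans) (DfnF.const hM.infinity) hF hG
  exact h1.congr fun v _ => clpW_iff

theorem dfn_rs (hF : DfnF M M F) (hG : DfnF M M G) : DfnF M M fun v => rs (F v) (G v) := by
  unfold rs
  exact hM.sep' (Q := fun p v => fs p ∈ G v) hF
    (Dfn.mem (hM.fs' (DfnF.proj 0)) hG.tail)

theorem dfn_rg (hF : DfnF M M F) (hG : DfnF M M G) : DfnF M M fun v => rg (F v) (G v) := by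
  unfold rg
  exact hM.im' (h := fun p _ => sn p) (dfn_rs hM hF hG) (hM.sn' (DfnF.proj 0))

theorem dfn_ln (hF : DfnF M M F) : DfnF M M fun v => ln (F v) := by
  unfold ln
  exact hM.im' (h := fun p _ => fs p) hF (hM.fs' (DfnF.proj 0))

theorem dfn_ad (hF : DfnF M M F) (hG : DfnF M M G) : DfnF M M fun v => ad (F v) (G v) := by
  unfold ad
  exact hM.base.insert' (hM.base.pair' (dfn_ln hM hF) hG) hF

omit hM in
/-- The value of a definable function at elements of the model. -/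
theorem DfnF.val {F : (Fin n → ZFSet.{0}) → ZFSet.{0}} (hF : DfnF M M F)
    {v : Fin n → ZFSet.{0}} (hv : ∀ i, v i ∈ M) : F v ∈ M := hF.1 v hv

theorem rs_mem_M {c ξ : ZFSet.{0}} (hc : c ∈ M) (hξ : ξ ∈ M) : rs c ξ ∈ M :=
  (dfn_rs hM (DfnF.const hc) (DfnF.const hξ) (n := 0)).1 (fun i => i.elim0) fun i => i.elim0

theorem rg_mem_M {c ξ : ZFSet.{0}} (hc : c ∈ M) (hξ : ξ ∈ M) : rg c ξ ∈ M :=
  (dfn_rg hM (DfnF.const hc) (DfnF.const hξ) (n := 0)).1 (fun i => i.elim0) fun i => i.elim0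

theorem ln_mem_M {c : ZFSet.{0}} (hc : c ∈ M) : ln c ∈ M :=
  (dfn_ln hM (DfnF.const hc) (n := 0)).1 (fun i => i.elim0) fun i => i.elim0

theorem ad_mem_M {c r : ZFSet.{0}} (hc : c ∈ M) (hr : r ∈ M) : ad c r ∈ M :=
  (dfn_ad hM (DfnF.const hc) (DfnF.const hr) (n := 0)).1 (fun i => i.elim0) fun i => i.elim0

/-- Codes, for relations in the model. -/
theorem cod_iff (hC : S_HC) {r a : ZFSet.{0}} (hr : r ∈ PW M) :
    Cod r a ↔ ∃ p ∈ M, Clp r p ∧ pair ∅ a ∈ p := by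
  constructor
  · rintro ⟨p, h1, h2⟩
    rw [mem_PW] at hr
    obtain ⟨T, hT, -, h3, -⟩ := (hC M hM).2.2.1 r hr.1 hr.2 p h1
    exact ⟨p, hM.trans _ hT _ h3, h1, h2⟩
  · rintro ⟨p, -, h1, h2⟩
    exact ⟨p, h1, h2⟩

theorem dfn_Cod (hC : S_HC) (hF : DfnF M M F) (hG : DfnF M M G) :
    Dfn M M fun v => F v ∈ PW M ∧ Cod (F v) (G v) := by
  have h1 : Dfn M M fun v => F v ∈ PW M ∧ ∃ p ∈ M, Clp (F v) p ∧ pair ∅ (G v) ∈ p := by
    apply Dfn.and (Dfn.mem hF (DfnF.const (PW_mem hM)))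
    apply Dfn.ex
    apply Dfn.and (dfn_Clp hM hF.tail (DfnF.proj 0))
    exact Dfn.mem (hM.base.pair' (DfnF.const hM.empty_mem) hG.tail) (DfnF.proj 0)
  refine h1.congr fun v _ => and_congr_right fun h2 => ?_
  exact (cod_iff hM hC h2).symm

theorem dfn_IsQ (hF : DfnF M M F) : Dfn M M fun v => IsQ (F v) := by
  have hB := hM.base
  have h1 : Dfn M M fun v => ∃ q ∈ oo, ∃ m ∈ ZFSet.omega, ∃ a ∈ M, a ⊆ ZFSet.prod m m ∧
      F v = pair q (pair m a) := by
    apply hB.bex (DfnF.const (oo_mem hM))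
    apply hB.bex (DfnF.const hM.infinity)
    apply Dfn.ex
    apply Dfn.and
    · exact hB.subset' (DfnF.proj 0) (hM.prod' (DfnF.proj 1) (DfnF.proj 1))
    · exact Dfn.eq hF.tail.tail.tail (hB.pair' (DfnF.proj 2) (hB.pair' (DfnF.proj 1)
        (DfnF.proj 0)))
  refine h1.congr fun v hv => ?_
  constructor
  · rintro ⟨q, hq, m, hm, a, -, h⟩
    exact ⟨q, hq, m, hm, a, h⟩
  · rintro ⟨q, hq, m, hm, a, h2, h3⟩
    refine ⟨q, hq, m, hm, a, ?_, h2, h3⟩
    have h4 := hF.1 v hv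
    rw [h3] at h4
    exact (hM.of_pair_mem (hM.of_pair_mem h4).2).2

end

section

variable {V : Set ZFSet.{0}} (hV : IsZFC V) (hC : S_HC) (hW : S_WD)
variable {n : ℕ} {F G H : (Fin n → ZFSet.{0}) → ZFSet.{0}}

include hV hW

theorem dfn_Pc (hF : DfnF V V F) : Dfn V V fun v => Pc V (F v) := by
  have hM := hV.toIsZF
  obtain ⟨PD, h1, h2⟩ := hW
  have h3 : Dfn V V fun v => ∃ b ∈ V, HCt V b ∧ HCt V (F v) ∧ PD b (F v) := by
    apply Dfn.ex
    apply Dfn.and (dfn_HCt hM (DfnF.proj 0))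
    apply Dfn.and (dfn_HCt hM hF.tail)
    exact Dfn.comp2 (Q := PD) (h1.dfn hM.trans) (DfnF.proj 0) hF.tail
  refine h3.congr fun v _ => ?_
  rw [h2 V hV]
  constructor
  · rintro ⟨b, -, h⟩
    exact ⟨b, h⟩
  · rintro ⟨b, h⟩
    obtain ⟨T, hT, -, h4, -⟩ := h.1
    exact ⟨b, hM.trans _ hT _ h4, h⟩

include hC

theorem dfn_Cd (hF : DfnF V V F) (hG : DfnF V V G) (hH : DfnF V V H) :
    Dfn V V fun v => Cd V (F v) (G v) (H v) := by
  have hM := hV.toIsZF
  have hB := hM.base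
  unfold Cd
  apply Dfn.and (dfn_Pc hV hW hF)
  apply Dfn.and (dfn_Fi hM hG)
  apply Dfn.and (dfn_Fi hM hH)
  apply Dfn.and
  · apply hB.ball (Q := fun u _ => IsQ u) hG
    exact dfn_IsQ hM (DfnF.proj 0)
  · have h1 : Dfn V V fun v => ∀ x ∈ H v, ∃ r ∈ PW V, ∃ q ∈ oo, x = pair r q ∧
        ∃ j ∈ ln (F v), (r ∈ PW V ∧ Cod r (rs (F v) j)) ∧ ∃ X ∈ V, pair j X ∈ F v ∧ q ∈ X := by
      apply hB.ball hH
      apply hB.bex (DfnF.const (PW_mem hM))
      apply hB.bex (DfnF.const (oo_mem hM))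
      apply Dfn.and (Dfn.eq (DfnF.proj 2) (hB.pair' (DfnF.proj 1) (DfnF.proj 0)))
      apply hB.bex (dfn_ln hM hF.tail.tail.tail)
      apply Dfn.and
      · exact dfn_Cod hM hC (DfnF.proj 2) (dfn_rs hM hF.tail.tail.tail.tail (DfnF.proj 0))
      · apply Dfn.ex
        apply Dfn.and
        · exact Dfn.mem (hB.pair' (DfnF.proj 1) (DfnF.proj 0)) hF.tail.tail.tail.tail.tail
        · exact Dfn.mem (DfnF.proj 2) (DfnF.proj 0)
    refine h1.congr fun v hv => ?_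
    constructor
    · intro h x hx
      obtain ⟨r, hr, q, hq, h2, j, hj, h3, X, -, h4⟩ := h x hx
      exact ⟨r, hr, q, hq, h2, j, hj, h3.2, X, h4⟩
    · intro h x hx
      obtain ⟨r, hr, q, hq, h2, j, hj, h3, X, h4⟩ := h x hx
      exact ⟨r, hr, q, hq, h2, j, hj, ⟨hr, h3⟩, X,
        (hM.of_pair_mem (hM.trans _ (hF.1 v hv) _ h4.1)).2, h4⟩

end

end Pool.Agent.H637_NO
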