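import Pool.Agent.H637_NO.LbB

/-!
# New orbits: being a model of ZF is a bounded statement about `W` and `Lb W ω`
-/

set_option autoImplicit false
set_option linter.unreachableTactic false
set_option linter.unusedTactic false

namespace Pool.Agent.H637_NO

open Pool.Agent.W868 Pool.Agent.W868.GM
open ZFSet (pair)

/-! ### Interpretations -/

theorem Dfn.exList {S M : Set ZFSet.{0}} {n : ℕ} {T : Type} (l : List T)
    {R : T → (Fin n → ZFSet.{0}) → Prop} (h : ∀ t, Dfn S M (R t)) :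
    Dfn S M fun v => ∃ t ∈ l, R t v := by
  induction l with
  | nil => exact (Dfn.prop False).congr fun v _ => by simp
  | cons t l ih => exact ((h t).or ih).congr fun v _ => by simp

theorem Dfn.exFin {S M : Set ZFSet.{0}} {n : ℕ} {T : Type} [Fintype T]
    {R : T → (Fin n → ZFSet.{0}) → Prop} (h : ∀ t, Dfn S M (R t)) :
    Dfn S M fun v => ∃ t, R t v :=
  (Dfn.exList Finset.univ.toList h).congr fun v _ => by simp

theorem mem_of_val {X : Set ZFSet.{0}} {m : ℕ} {F : (Fin m → ZFSet.{0}) → ZFSet.{0}}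
    (hF : DfnF X X F) {v : Fin m → ZFSet.{0}} (hv : ∀ i, v i ∈ X) : F v ∈ X := hF.1 v hv

/-- The structure `Y` is interpreted in `X`: the elements of `Y` are given by a type and two
elements of `X`. -/
theorem interp {X Y : Set ZFSet.{0}} {T : Type} [Fintype T]
    (ev : T → ZFSet.{0} → ZFSet.{0} → ZFSet.{0})
    (h1 : ∀ t, ∀ a ∈ X, ∀ b ∈ X, ev t a b ∈ Y)
    (h2 : ∀ y ∈ Y, ∃ t, ∃ a ∈ X, ∃ b ∈ X, y = ev t a b)
    (hm : ∀ t t', Dfn X X fun w : Fin 4 → ZFSet.{0} => ev t (w 0) (w 1) ∈ ev t' (w 2) (w 3))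
    (he : ∀ t t', Dfn X X fun w : Fin 4 → ZFSet.{0} => ev t (w 0) (w 1) = ev t' (w 2) (w 3)) :
    {n : ℕ} → (φ : Fml ZFSet.{0} n) → φ.Over Y → {m : ℕ} → (t : Fin n → T) →
    (G H : Fin n → (Fin m → ZFSet.{0}) → ZFSet.{0}) → (∀ j, DfnF X X (G j)) →
    (∀ j, DfnF X X (H j)) →
    Dfn X X fun w : Fin m → ZFSet.{0} => Sat Y id φ fun j => ev (t j) (G j w) (H j w)
  | n, .mem s u, h, m, t, G, H, hG, hH => by
    have h3 : ∀ s : Fin n ⊕ ZFSet.{0}, TOver Y s → ∃ (t' : T)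
        (G' H' : (Fin m → ZFSet.{0}) → ZFSet.{0}), DfnF X X G' ∧ DfnF X X H' ∧
        ∀ w, Sum.elim (fun j => ev (t j) (G j w) (H j w)) id s = ev t' (G' w) (H' w) := by
      intro s hs
      cases s with
      | inl j => exact ⟨t j, G j, H j, hG j, hH j, fun w => rfl⟩
      | inr y =>
        obtain ⟨t', a, ha, b, hb, rfl⟩ := h2 y (hs y rfl)
        exact ⟨t', fun _ => a, fun _ => b, DfnF.const ha, DfnF.const hb, fun w => rfl⟩
    obtain ⟨t1, G1, H1, hG1, hH1, e1⟩ := h3 s h.1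
    obtain ⟨t2, G2, H2, hG2, hH2, e2⟩ := h3 u h.2
    refine (Dfn.comp4 (Q := fun a b c d => ev t1 a b ∈ ev t2 c d) (hm t1 t2) hG1 hH1 hG2
      hH2).congr fun w _ => ?_
    show _ ↔ _ ∈ _
    rw [e1, e2]
  | n, .eq s u, h, m, t, G, H, hG, hH => by
    have h3 : ∀ s : Fin n ⊕ ZFSet.{0}, TOver Y s → ∃ (t' : T)
        (G' H' : (Fin m → ZFSet.{0}) → ZFSet.{0}), DfnF X X G' ∧ DfnF X X H' ∧
        ∀ w, Sum.elim (fun j => ev (t j) (G j w) (H j w)) id s = ev t' (G' w) (H' w) := by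
      intro s hs
      cases s with
      | inl j => exact ⟨t j, G j, H j, hG j, hH j, fun w => rfl⟩
      | inr y =>
        obtain ⟨t', a, ha, b, hb, rfl⟩ := h2 y (hs y rfl)
        exact ⟨t', fun _ => a, fun _ => b, DfnF.const ha, DfnF.const hb, fun w => rfl⟩
    obtain ⟨t1, G1, H1, hG1, hH1, e1⟩ := h3 s h.1
    obtain ⟨t2, G2, H2, hG2, hH2, e2⟩ := h3 u h.2
    refine (Dfn.comp4 (Q := fun a b c d => ev t1 a b = ev t2 c d) (he t1 t2) hG1 hH1 hG2
      hH2).congr fun w _ => ?_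
    show _ ↔ _ = _
    rw [e1, e2]
  | n, .neg φ, h, m, t, G, H, hG, hH => (interp ev h1 h2 hm he φ h t G H hG hH).not
  | n, .and φ ψ, h, m, t, G, H, hG, hH =>
    (interp ev h1 h2 hm he φ h.1 t G H hG hH).and (interp ev h1 h2 hm he ψ h.2 t G H hG hH)
  | n, .ex φ, h, m, t, G, H, hG, hH => by
    have h3 : ∀ t0 : T, Dfn X X fun w : Fin m → ZFSet.{0} => ∃ a ∈ X, ∃ b ∈ X,
        Sat Y id φ (Fin.cons (ev t0 a b) fun j => ev (t j) (G j w) (H j w)) := by
      intro t0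
      apply Dfn.ex
      apply Dfn.ex
      refine (interp ev h1 h2 hm he φ h (m := m + 2) (Fin.cons t0 t)
        (Fin.cons (fun w => w 1) fun j w => G j (Fin.tail (Fin.tail w)))
        (Fin.cons (fun w => w 0) fun j w => H j (Fin.tail (Fin.tail w))) ?_ ?_).congr
        fun w _ => ?_
      · intro j
        refine Fin.cases ?_ (fun j => ?_) j
        · exact DfnF.proj 1
        · exact (hG j).tail.tail
      · intro j
        refine Fin.cases ?_ (fun j => ?_) j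
        · exact DfnF.proj 0
        · exact (hH j).tail.tail
      · have h4 : (fun j => ev ((Fin.cons t0 t : Fin (n + 1) → T) j)
            ((Fin.cons (fun w => w 1) fun j w => G j (Fin.tail (Fin.tail w)) :
              Fin (n + 1) → (Fin (m + 2) → ZFSet.{0}) → ZFSet.{0}) j w)
            ((Fin.cons (fun w => w 0) fun j w => H j (Fin.tail (Fin.tail w)) :
              Fin (n + 1) → (Fin (m + 2) → ZFSet.{0}) → ZFSet.{0}) j w)) =
            Fin.cons (ev t0 (w 1) (w 0)) fun j => ev (t j) (G j (Fin.tail (Fin.tail w)))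
              (H j (Fin.tail (Fin.tail w))) := by
          funext j
          refine Fin.cases ?_ (fun j => ?_) j
          · rfl
          · rfl
        rw [h4]
        rfl
    refine (Dfn.exFin h3).congr fun w hw => ?_
    constructor
    · rintro ⟨t0, a, ha, b, hb, h4⟩
      exact ⟨_, h1 t0 a ha b hb, h4⟩
    · rintro ⟨y, hy, h4⟩
      obtain ⟨t0, a, ha, b, hb, rfl⟩ := h2 y hy
      exact ⟨t0, a, ha, b, hb, h4⟩

/-! ### Adding the set itself -/

/-- The elements of `X ∪ {X}`. -/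
noncomputable def ev1 (X : ZFSet.{0}) (t : Bool) (a _b : ZFSet.{0}) : ZFSet.{0} :=
  if t then X else a

theorem interp1 {X : ZFSet.{0}} (hne : ∃ a, a ∈ X) {n m : ℕ}
    (φ : Fml ZFSet.{0} n) (hφ : φ.Over {x | x ∈ (insert X X : ZFSet.{0})}) (t : Fin n → Bool)
    (G : Fin n → (Fin m → ZFSet.{0}) → ZFSet.{0})
    (hG : ∀ j, DfnF {x | x ∈ X} {x | x ∈ X} (G j)) (hT : Tra X) :
    Dfn {x | x ∈ X} {x | x ∈ X} fun w : Fin m → ZFSet.{0} =>
      Sat {x | x ∈ (insert X X : ZFSet.{0})} id φ fun j => ev1 X (t j) (G j w) (G j w) := by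
  obtain ⟨e, he⟩ := hne
  refine interp (ev1 X) ?_ ?_ ?_ ?_ φ hφ t G G hG hG
  · intro t a ha b hb
    cases t
    · exact ZFSet.mem_insert_of_mem _ ha
    · exact ZFSet.mem_insert _ _
  · intro y hy
    rcases ZFSet.mem_insert_iff.1 hy with rfl | hy
    · exact ⟨true, e, he, e, he, rfl⟩
    · exact ⟨false, y, hy, e, he, rfl⟩
  · intro t t'
    cases t <;> cases t'
    · exact Dfn.mem (DfnF.proj 0) (DfnF.proj 2)
    · exact Dfn.tt.congr fun w hw => ⟨fun _ => hw 0, fun _ => trivial⟩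
    · refine (Dfn.prop False).congr fun w hw => ⟨fun h => h.elim, fun h => ?_⟩
      exact ZFSet.mem_asymm (hw 2) h
    · exact (Dfn.prop False).congr fun w hw => ⟨fun h => h.elim, fun h =>
        ZFSet.mem_irrefl _ h⟩
  · intro t t'
    cases t <;> cases t'
    · exact Dfn.eq (DfnF.proj 0) (DfnF.proj 2)
    · refine (Dfn.prop False).congr fun w hw => ⟨fun h => h.elim, fun h => ?_⟩
      have h1 : w 0 = X := h
      have h2 : w 0 ∈ X := hw 0
      rw [h1] at h2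
      exact ZFSet.mem_irrefl _ h2
    · refine (Dfn.prop False).congr fun w hw => ⟨fun h => h.elim, fun h => ?_⟩
      have h1 : X = w 2 := h
      have h2 : w 2 ∈ X := hw 2
      rw [← h1] at h2
      exact ZFSet.mem_irrefl _ h2
    · exact Dfn.tt.congr fun w hw => ⟨fun _ => rfl, fun _ => trivial⟩

theorem over_empty {A : Type*} {S : Set A} (f : Empty → A) {n : ℕ} (φ : Fml Empty n) :
    (φ.map f).Over S := by
  rw [over_map]
  induction φ with
  | mem s t => exact ⟨fun a => a.elim, fun a => a.elim⟩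
  | eq s t => exact ⟨fun a => a.elim, fun a => a.elim⟩
  | neg φ ih => exact ih
  | and φ ψ ih1 ih2 => exact ⟨ih1, ih2⟩
  | ex φ ih => exact ih

/-- Bounded relations with the parameter `X` are definable over `X`. -/
theorem dfn_top {X : ZFSet.{0}} (hne : ∃ a, a ∈ X) (hT : Tra X) {n m : ℕ}
    {R : (Fin n → ZFSet.{0}) → Prop} (hR : D0 R) (t : Fin n → Bool)
    (G : Fin n → (Fin m → ZFSet.{0}) → ZFSet.{0})
    (hG : ∀ j, DfnF {x | x ∈ X} {x | x ∈ X} (G j)) :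
    Dfn {x | x ∈ X} {x | x ∈ X} fun w : Fin m → ZFSet.{0} =>
      R fun j => ev1 X (t j) (G j w) (G j w) := by
  obtain ⟨φ, hφ⟩ := hR
  have h1 := interp1 hne (φ.map Empty.elim) (over_empty _ φ) t G hG hT
  refine h1.congr fun w hw => ?_
  rw [sat_map]
  have h2 : (id ∘ Empty.elim : Empty → ZFSet.{0}) = Empty.elim := funext fun a => a.elim
  rw [h2]
  apply hφ
  · intro x hx y hy
    rcases ZFSet.mem_insert_iff.1 hx with rfl | hx
    · exact ZFSet.mem_insert_of_mem _ hy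
    · exact ZFSet.mem_insert_of_mem _ (hT x hx y hy)
  · intro j
    show ev1 X (t j) (G j w) (G j w) ∈ (insert X X : ZFSet.{0})
    unfold ev1
    split
    · exact ZFSet.mem_insert _ _
    · exact ZFSet.mem_insert_of_mem _ ((hG j).1 w hw)

/-! ### One step -/

/-- The elements of `step ∅ X`. -/
noncomputable def ev2 (X : ZFSet.{0}) (t : Option (Fin 11 × Bool × Bool)) (a b : ZFSet.{0}) :
    ZFSet.{0} :=
  match t with
  | none => a
  | some (i, s, s') => ZFSet.sep (fun u => GR ∅ i u (ev1 X s a a) (ev1 X s' b b)) X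

theorem mem_ev2 {X a b u : ZFSet.{0}} {i : Fin 11} {s s' : Bool} :
    u ∈ ev2 X (some (i, s, s')) a b ↔ u ∈ X ∧ GR ∅ i u (ev1 X s a a) (ev1 X s' b b) := by
  unfold ev2
  exact ZFSet.mem_sep

theorem ev2_sub {X a b : ZFSet.{0}} (hT : Tra X) (ha : a ∈ X) :
    ∀ t, ∀ u ∈ ev2 X t a b, u ∈ X
  | none, _, hu => hT a ha _ hu
  | some (_, _, _), _, hu => (mem_ev2.1 hu).1

theorem dfn_ev2 {X : ZFSet.{0}} (hne : ∃ a, a ∈ X) (hT : Tra X)
    (t : Option (Fin 11 × Bool × Bool)) :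
    Dfn {x | x ∈ X} {x | x ∈ X} fun w : Fin 3 → ZFSet.{0} => w 0 ∈ ev2 X t (w 1) (w 2) := by
  match t with
  | none => exact Dfn.mem (DfnF.proj 0) (DfnF.proj 1)
  | some (i, s, s') =>
    by_cases hi : (i : ℕ) < 10
    · have h1 : D0 fun v : Fin 3 → ZFSet.{0} => GR ∅ i (v 0) (v 1) (v 2) := by
        refine (d0_GR' (i : ℕ) (F := fun v : Fin 3 → ZFSet.{0} => v 0) (D0v.proj 0) (D0v.proj 0)
          (D0v.proj 1) (D0v.proj 2)).congr fun v => ?_
        exact GR_congr hi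
      refine (dfn_top hne hT h1 ![false, s, s'] ![fun w : Fin 3 → ZFSet.{0} => w 0,
        fun w => w 1, fun w => w 2] ?_).congr fun w hw => ?_
      · intro j
        fin_cases j
        · exact DfnF.proj 0
        · exact DfnF.proj 1
        · exact DfnF.proj 2
      · rw [mem_ev2]
        constructor
        · exact fun h => ⟨hw 0, h⟩
        · exact fun h => h.2
    · refine (Dfn.prop False).congr fun w hw => ⟨fun h => h.elim, fun h => ?_⟩
      have h1 := (mem_ev2.1 h).2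
      have h2 : (i : ℕ) = 10 := by omega
      rw [h2] at h1
      exact ZFSet.notMem_empty _ h1

/-- The structure `step ∅ X` is interpreted in `X`. -/
theorem interp2 {X : ZFSet.{0}} (hne : ∃ a, a ∈ X) (hT : Tra X) {n : ℕ}
    (φ : Fml ZFSet.{0} n) (hφ : φ.Over {x | x ∈ step ∅ X}) :
    Dfn {x | x ∈ X} {x | x ∈ X} fun w : Fin n → ZFSet.{0} => Sat {x | x ∈ step ∅ X} id φ w := by
  obtain ⟨e, he⟩ := hne
  have hd := dfn_ev2 ⟨e, he⟩ hT
  have h3 : ∀ t, ∀ a ∈ {x | x ∈ X}, ∀ b ∈ {x | x ∈ X}, ev2 X t a b ∈ {x | x ∈ step ∅ X} := by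
    intro t a ha b hb
    match t with
    | none => exact subset_step ha
    | some (i, s, s') =>
      refine mem_step.2 (Or.inr ⟨i, i.2, ev1 X s a a, ?_, ev1 X s' b b, ?_, fun u => ?_⟩)
      · unfold ev1
        split
        · exact ZFSet.mem_insert _ _
        · exact ZFSet.mem_insert_of_mem _ ha
      · unfold ev1
        split
        · exact ZFSet.mem_insert _ _
        · exact ZFSet.mem_insert_of_mem _ hb
      · exact mem_ev2
  refine (interp (ev2 X) h3 ?_ ?_ ?_ φ hφ (fun _ => none) (fun j w => w j) (fun j w => w j)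
    (fun j => DfnF.proj j) (fun j => DfnF.proj j)).congr fun w _ => Iff.rfl
  · intro y hy
    rcases mem_step.1 hy with h | ⟨i, hi, a, ha, b, hb, h⟩
    · exact ⟨none, y, h, e, he, rfl⟩
    · have h4 : ∀ c ∈ (insert X X : ZFSet.{0}), ∃ (s : Bool), ∃ c' ∈ X, ev1 X s c' c' = c := by
        intro c hc
        rcases ZFSet.mem_insert_iff.1 hc with rfl | hc
        · exact ⟨true, e, he, rfl⟩
        · exact ⟨false, c, hc, rfl⟩
      obtain ⟨s, a', ha', e1⟩ := h4 a ha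
      obtain ⟨s', b', hb', e2⟩ := h4 b hb
      refine ⟨some (⟨i, hi⟩, s, s'), a', ha', b', hb', ?_⟩
      ext u
      rw [h, mem_ev2, e1, e2]
  · intro t t'
    have h5 : Dfn {x | x ∈ X} {x | x ∈ X} fun w : Fin 4 → ZFSet.{0} => ∃ x ∈ {x | x ∈ X},
        x ∈ ev2 X t' (w 2) (w 3) ∧ ∀ y ∈ {x | x ∈ X}, (y ∈ x ↔ y ∈ ev2 X t (w 0) (w 1)) := by
      apply Dfn.ex
      apply Dfn.and
      · exact Dfn.comp3 (Q := fun a b c => a ∈ ev2 X t' b c) (hd t') (DfnF.proj 0)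
          (DfnF.proj 3) (DfnF.proj 4)
      · apply Dfn.all
        apply Dfn.iff
        · exact Dfn.mem (DfnF.proj 0) (DfnF.proj 1)
        · exact Dfn.comp3 (Q := fun a b c => a ∈ ev2 X t b c) (hd t) (DfnF.proj 0)
            (DfnF.proj 2) (DfnF.proj 3)
    refine h5.congr fun w hw => ?_
    constructor
    · rintro ⟨x, hx, h6, h7⟩
      have h8 : x = ev2 X t (w 0) (w 1) := by
        ext y
        exact ⟨fun hy => (h7 y (hT x hx y hy)).1 hy, fun hy =>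
          (h7 y (ev2_sub hT (hw 0) t y hy)).2 hy⟩
      exact h8 ▸ h6
    · intro h6
      exact ⟨_, ev2_sub hT (hw 2) t' _ h6, h6, fun y _ => Iff.rfl⟩
  · intro t t'
    have h5 : Dfn {x | x ∈ X} {x | x ∈ X} fun w : Fin 4 → ZFSet.{0} =>
        ∀ y ∈ {x | x ∈ X}, (y ∈ ev2 X t (w 0) (w 1) ↔ y ∈ ev2 X t' (w 2) (w 3)) := by
      apply Dfn.all
      apply Dfn.iff
      · exact Dfn.comp3 (Q := fun a b c => a ∈ ev2 X t b c) (hd t) (DfnF.proj 0)
          (DfnF.proj 1) (DfnF.proj 2)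
      · exact Dfn.comp3 (Q := fun a b c => a ∈ ev2 X t' b c) (hd t') (DfnF.proj 0)
          (DfnF.proj 3) (DfnF.proj 4)
    refine h5.congr fun w hw => ?_
    constructor
    · intro h6
      ext y
      exact ⟨fun hy => (h6 y (ev2_sub hT (hw 0) t y hy)).1 hy, fun hy =>
        (h6 y (ev2_sub hT (hw 2) t' y hy)).2 hy⟩
    · intro h6 y _
      rw [h6]

theorem tra_step {X : ZFSet.{0}} (hT : Tra X) : Tra (step ∅ X) := by
  intro x hx y hy
  rcases step_cases hx with h | h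
  · exact subset_step (hT x h y hy)
  · exact subset_step (h hy)

/-- Finitely many steps. -/
theorem interpN {W : ZFSet.{0}} (hne : ∃ a, a ∈ W) (hT : Tra W) : ∀ (k : ℕ) {n : ℕ}
    (φ : Fml ZFSet.{0} n), φ.Over {x | x ∈ Lb W (nat k)} →
    Dfn {x | x ∈ W} {x | x ∈ W} fun w : Fin n → ZFSet.{0} =>
      Sat {x | x ∈ Lb W (nat k)} id φ w
  | 0, n, φ, h => by
    have h1 : Lb W (nat 0) = W := Lb_empty
    rw [h1] at h ⊢
    exact ⟨φ, h, fun v _ => Iff.rfl⟩
  | k + 1, n, φ, h => by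
    have h1 : Lb W (nat (k + 1)) = step ∅ (Lb W (nat k)) := Lb_sc
    rw [h1] at h ⊢
    obtain ⟨a, ha⟩ := hne
    obtain ⟨ψ, hψ, h2⟩ := interp2 (X := Lb W (nat k)) ⟨a, Lb_base ha⟩ (Lb_tra hT _) φ h
    obtain ⟨χ, hχ, h3⟩ := interpN ⟨a, ha⟩ hT k ψ hψ
    exact ⟨χ, hχ, fun v hv => (h3 v hv).trans (h2 v fun i => Lb_base (hv i))⟩

theorem Lb_mem_omega {W D : ZFSet.{0}} (h : D ∈ Lb W ZFSet.omega) :
    ∃ k : ℕ, D ∈ Lb W (nat k) := mem_itr_omega h

/-- The elements of `Lb W ω` are definable over `W`. -/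
theorem dfn_of_mem {W D : ZFSet.{0}} (hne : ∃ a, a ∈ W) (hT : Tra W)
    (h : D ∈ Lb W ZFSet.omega) :
    Dfn {x | x ∈ W} {x | x ∈ W} fun w : Fin 1 → ZFSet.{0} => w 0 ∈ D := by
  obtain ⟨k, hk⟩ := Lb_mem_omega h
  have h1 := interpN hne hT k (.mem (Sum.inl (0 : Fin 1)) (Sum.inr D))
    ⟨TOver.inl _, tOver_inr.2 hk⟩
  exact h1

/-- The set `Lb W ω` is closed under the basic operations. -/
theorem gd_omega {W : ZFSet.{0}} (hT : Tra W) : Gd ∅ {x | x ∈ Lb W ZFSet.omega} := by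
  refine ⟨Lb_trans hT _, ⟨W, self_mem_Lb ZFSet.omega_zero⟩, ?_⟩
  intro i hi a ha b hb
  obtain ⟨k, hk⟩ := Lb_mem_omega ha
  obtain ⟨l, hl⟩ := Lb_mem_omega hb
  have ha' : a ∈ Lb W (nat (k + l)) := Lb_mono (nat_subset (by omega)) hk
  have hb' : b ∈ Lb W (nat (k + l)) := Lb_mono (nat_subset (by omega)) hl
  set ζ := nat (k + l)
  have hδ : sc (sc (sc (sc ζ))) = nat (k + l + 4) := rfl
  have up : ∀ {x : ZFSet.{0}}, x ∈ Lb W ζ → x ∈ Lb W (sc (sc (sc (sc ζ)))) := fun hx =>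
    Lb_sub_sc2 (Lb_sub_sc2 hx)
  refine ⟨ZFSet.sep (fun u => GR ∅ i u a b) (Lb W (sc (sc (sc (sc ζ))))), ?_, ?_⟩
  · have h1 : ZFSet.sep (fun u => GR ∅ i u a b) (Lb W (sc (sc (sc (sc ζ))))) ∈
        Lb W (sc (sc (sc (sc (sc ζ))))) := by
      rw [Lb_sc (z := sc (sc (sc (sc ζ))))]
      refine mem_step.2 (Or.inr ⟨i, by omega, a, ZFSet.mem_insert_of_mem _ (up ha'), b,
        ZFSet.mem_insert_of_mem _ (up hb'), fun u => ?_⟩)
      rw [ZFSet.mem_sep]
    have h2 : sc (sc (sc (sc (sc ζ)))) = nat (k + l + 5) := rfl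
    rw [h2] at h1
    exact Lb_mono nat_subset_omega h1
  · intro u
    rw [ZFSet.mem_sep]
    exact ⟨fun h => h.2, fun h => ⟨GR_boundb hT ha' hb' i hi h, h⟩⟩

/-! ### The natural numbers -/

theorem omega_of {w : ZFSet.{0}} (h1 : w.IsOrdinal) (h2 : ∃ z ∈ w, ∀ u ∈ z, u ≠ u)
    (h3 : ∀ z ∈ w, ∃ u ∈ w, z ∈ u)
    (h4 : ∀ z ∈ w, (∀ u ∈ z, u ≠ u) ∨ ∃ u ∈ z, ∀ x ∈ z, x = u ∨ x ∈ u) : w = ZFSet.omega := by
  have he : ∀ z : ZFSet.{0}, (∀ u ∈ z, u ≠ u) → z = ∅ := fun z hz => by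
    rw [ZFSet.eq_empty]
    exact fun u hu => hz u hu rfl
  have h5 : ∀ n : ℕ, nat n ∈ w := by
    intro n
    induction n with
    | zero =>
      obtain ⟨z, hz, h6⟩ := h2
      rw [he z h6] at hz
      exact hz
    | succ n ih =>
      obtain ⟨u, hu, h6⟩ := h3 _ ih
      have h7 : (sc (nat n)).IsOrdinal := isOrdinal_sc (h1.mem ih)
      show sc (nat n) ∈ w
      rcases h7.mem_trichotomous (h1.mem hu) with h8 | h8 | h8
      · exact h1.isTransitive.mem_trans h8 hu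
      · rw [h8]
        exact hu
      · rcases ZFSet.mem_insert_iff.1 h8 with h9 | h9
        · rw [h9] at h6
          exact absurd h6 (ZFSet.mem_irrefl _)
        · exact absurd h9 (ZFSet.mem_asymm h6)
  ext z
  rw [mem_omega_iff]
  constructor
  · intro hz
    by_contra h6
    have h7 : {z : ZFSet.{0} | z ∈ w ∧ ¬ ∃ n, z = nat n}.Nonempty := ⟨z, hz, h6⟩
    set y := ZFSet.mem_wf.min _ h7 with hy
    have h8 := ZFSet.mem_wf.min_mem _ h7
    rw [← hy] at h8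
    rcases h4 y h8.1 with h9 | ⟨u, hu, h9⟩
    · exact h8.2 ⟨0, he y h9⟩
    · have hyo := h1.mem h8.1
      have huw := h1.isTransitive.mem_trans hu h8.1
      by_cases h10 : ∃ n, u = nat n
      · obtain ⟨n, rfl⟩ := h10
        apply h8.2
        refine ⟨n + 1, ?_⟩
        ext x
        show _ ↔ x ∈ sc (nat n)
        constructor
        · intro hx
          rcases h9 x hx with rfl | h11
          · exact ZFSet.mem_insert _ _
          · exact ZFSet.mem_insert_of_mem _ h11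
        · intro hx
          rcases ZFSet.mem_insert_iff.1 hx with rfl | h11
          · exact hu
          · exact hyo.isTransitive.mem_trans h11 hu
      · have h12 : u ∈ {z : ZFSet.{0} | z ∈ w ∧ ¬ ∃ n, z = nat n} := ⟨huw, h10⟩
        exact ZFSet.mem_wf.not_lt_min _ h12 hu
  · rintro ⟨n, rfl⟩
    exact h5 n

/-! ### The theorem -/

theorem zc_of_isZF {W : ZFSet.{0}} (hT : Tra W) (hM : IsZF {x | x ∈ W}) :
    Zc W (Lb W ZFSet.omega) := by
  have hne : ∃ a, a ∈ W := ⟨ZFSet.omega, hM.infinity⟩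
  refine ⟨⟨ZFSet.omega, hM.infinity, isOrdinal_omega, ⟨∅, ZFSet.omega_zero, fun u hu =>
    absurd hu (ZFSet.notMem_empty u)⟩, fun z hz => ⟨sc z, ?_, ZFSet.mem_insert _ _⟩,
    fun z hz => ?_⟩, ?_, ?_, ?_, ?_, ?_⟩
  · obtain ⟨n, rfl⟩ := mem_omega_iff.1 hz
    exact nat_mem_omega (n + 1)
  · obtain ⟨n, rfl⟩ := mem_omega_iff.1 hz
    cases n with
    | zero => exact Or.inl fun u hu => absurd hu (ZFSet.notMem_empty u)
    | succ n =>
      refine Or.inr ⟨nat n, ZFSet.mem_insert _ _, fun x hx => ?_⟩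
      exact ZFSet.mem_insert_iff.1 hx
  · intro x hx y hy
    refine ⟨{x, y}, hM.pairing x hx y hy, by simp, by simp, fun u hu => ?_⟩
    exact ZFSet.mem_pair.1 hu
  · intro x hx
    refine ⟨ZFSet.sUnion x, hM.union x hx, fun u hu => ?_, fun y hy u hu => ?_⟩
    · obtain ⟨y, hy, h⟩ := ZFSet.mem_sUnion.1 hu
      exact ⟨y, hy, h⟩
    · exact ZFSet.mem_sUnion.2 ⟨y, hy, hu⟩
  · intro x hx
    obtain ⟨y, hy, h⟩ := hM.power x hx
    exact ⟨y, hy, fun z hz => ((h z).1 hz).2, fun z hz h' => (h z).2 ⟨hz, h'⟩⟩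
  · intro x hx D hD
    refine ⟨ZFSet.sep (fun z => z ∈ D) x, hM.sep_mem (dfn_of_mem hne hT hD) hx,
      fun z hz => ZFSet.mem_sep.1 hz, fun z hz h => ZFSet.mem_sep.2 ⟨hz, h⟩⟩
  · intro x hx g hg h
    have hB := hM.base
    have h1 : Dfn {x | x ∈ W} {x | x ∈ W} fun w : Fin 2 → ZFSet.{0} => pair (w 0) (w 1) ∈ g :=
      Dfn.comp1 (Q := fun q => q ∈ g) (dfn_of_mem hne hT hg)
        (hB.pair' (DfnF.proj 0) (DfnF.proj 1))
    obtain ⟨φ, h2, h3⟩ := h1
    have h4 : ∀ z ∈ W, ∀ u ∈ W, (Sat {x | x ∈ W} id φ ![z, u] ↔ pair z u ∈ g) := by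
      intro z hz u hu
      refine h3 ![z, u] fun i => ?_
      fin_cases i
      exacts [hz, hu]
    obtain ⟨y, hy, h5⟩ := hM.replacement φ h2 x hx (by
      intro z hz
      have hzW := hT x hx z hz
      obtain ⟨u, hu, h6, h7⟩ := h z hz
      refine ⟨u, ⟨hu, (h4 z hzW u hu).2 h6⟩, ?_⟩
      rintro u' ⟨hu', h8⟩
      exact h7 u' hu' ((h4 z hzW u' hu').1 h8))
    refine ⟨y, hy, fun u hu => ?_, fun z hz u hu h6 => ?_⟩
    · obtain ⟨h6, z, hz, h7⟩ := (h5 u).1 hu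
      exact ⟨z, hz, (h4 z (hT x hx z hz) u h6).1 h7⟩
    · exact (h5 u).2 ⟨hu, z, hz, (h4 z (hT x hx z hz) u hu).2 h6⟩

theorem isZF_of_zc {W : ZFSet.{0}} (hT : Tra W) (h : Zc W (Lb W ZFSet.omega)) :
    IsZF {x | x ∈ W} := by
  have hC := gd_omega hT
  have hWC : W ∈ {x | x ∈ Lb W ZFSet.omega} := self_mem_Lb ZFSet.omega_zero
  obtain ⟨⟨w, hw, h1, h2, h3, h4⟩, hp, hu, hpw, hs, hr⟩ := h
  have hpair : ∀ x ∈ W, ∀ y ∈ W, ({x, y} : ZFSet.{0}) ∈ W := by
    intro x hx y hy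
    obtain ⟨z, hz, h5, h6, h7⟩ := hp x hx y hy
    have h8 : z = {x, y} := by
      ext u
      rw [ZFSet.mem_pair]
      constructor
      · exact h7 u
      · rintro (rfl | rfl)
        exacts [h5, h6]
    exact h8 ▸ hz
  have hunion : ∀ x ∈ W, ZFSet.sUnion x ∈ W := by
    intro x hx
    obtain ⟨z, hz, h5, h6⟩ := hu x hx
    have h8 : z = ZFSet.sUnion x := by
      ext u
      rw [ZFSet.mem_sUnion]
      constructor
      · intro hu
        obtain ⟨y, hy, h⟩ := h5 u hu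
        exact ⟨y, hy, h⟩
      · rintro ⟨y, hy, h⟩
        exact h6 y hy u h
    exact h8 ▸ hz
  have hB : IsBase {x | x ∈ W} := ⟨hT, hpair, hunion⟩
  refine ⟨hT, hpair, hunion, ?_, ?_, ?_, ?_⟩
  · have h5 := omega_of h1 h2 h3 h4
    exact h5 ▸ hw
  · intro x hx
    obtain ⟨y, hy, h5, h6⟩ := hpw x hx
    exact ⟨y, hy, fun z => ⟨fun hz => ⟨hT y hy z hz, h5 z hz⟩, fun hz => h6 z hz.1 hz.2⟩⟩
  · intro φ hφ x hx
    obtain ⟨D, hD, h5⟩ := hC.sep hWC φ hφ
    obtain ⟨y, hy, h6, h7⟩ := hs x hx D hD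
    refine ⟨y, hy, fun z => ⟨fun hz => ⟨(h6 z hz).1, ((h5 z).1 (h6 z hz).2).2⟩, fun hz => ?_⟩⟩
    exact h7 z hz.1 ((h5 z).2 ⟨hT x hx z hz.1, hz.2⟩)
  · intro φ hφ x hx hfun
    have hQ : Dfn {x | x ∈ W} {x | x ∈ W} fun w : Fin 1 → ZFSet.{0} =>
        ∃ z ∈ {x | x ∈ W}, ∃ u ∈ {x | x ∈ W}, w 0 = pair z u ∧ Sat {x | x ∈ W} id φ ![z, u] := by
      apply Dfn.ex
      apply Dfn.ex
      apply Dfn.and
      · exact Dfn.eq (DfnF.proj 2) (hB.pair' (DfnF.proj 1) (DfnF.proj 0))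
      · have h5 : Dfn {x | x ∈ W} {x | x ∈ W} fun w : Fin 2 → ZFSet.{0} =>
            Sat {x | x ∈ W} id φ w := ⟨φ, hφ, fun v _ => Iff.rfl⟩
        refine (h5.comp ![(1 : Fin 3), 0]).congr fun w _ => ?_
        have h6 : (fun i => w ((![(1 : Fin 3), 0] : Fin 2 → Fin 3) i)) = ![w 1, w 0] := by
          funext i
          fin_cases i <;> rfl
        rw [h6]
        exact Iff.rfl
    have hg := hC.sepD hWC (Q := fun q => ∃ z ∈ {x | x ∈ W}, ∃ u ∈ {x | x ∈ W}, q = pair z u ∧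
      Sat {x | x ∈ W} id φ ![z, u]) hQ
    set g := ZFSet.sep (fun q => ∃ z ∈ {x | x ∈ W}, ∃ u ∈ {x | x ∈ W}, q = pair z u ∧
      Sat {x | x ∈ W} id φ ![z, u]) W with hgdef
    have hpW : ∀ z ∈ W, ∀ u ∈ W, pair z u ∈ W := fun z hz u hu =>
      hpair _ (by simpa using hpair z hz z hz) _ (hpair z hz u hu)
    have h6 : ∀ z ∈ W, ∀ u ∈ W, (pair z u ∈ g ↔ Sat {x | x ∈ W} id φ ![z, u]) := by
      intro z hz u hu
      rw [hgdef, ZFSet.mem_sep]
      constructor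
      · rintro ⟨-, z', -, u', -, h7, h8⟩
        obtain ⟨rfl, rfl⟩ := ZFSet.pair_inj.1 h7
        exact h8
      · exact fun h7 => ⟨hpW z hz u hu, z, hz, u, hu, rfl, h7⟩
    obtain ⟨y, hy, h7, h8⟩ := hr x hx g hg (by
      intro z hz
      have hzW := hT x hx z hz
      obtain ⟨u, ⟨hu1, hu2⟩, hu3⟩ := hfun z hz
      refine ⟨u, hu1, (h6 z hzW u hu1).2 hu2, fun u' hu' h9 => ?_⟩
      exact hu3 u' ⟨hu', (h6 z hzW u' hu').1 h9⟩)
    refine ⟨y, hy, fun u => ⟨fun hu => ?_, ?_⟩⟩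
    · have huW := hT y hy u hu
      obtain ⟨z, hz, h9⟩ := h7 u hu
      exact ⟨huW, z, hz, (h6 z (hT x hx z hz) u huW).1 h9⟩
    · rintro ⟨huW, z, hz, h9⟩
      exact h8 z hz u huW ((h6 z (hT x hx z hz) u huW).2 h9)

theorem zC : S_ZC := fun _ hT => ⟨zc_of_isZF hT, isZF_of_zc hT⟩

/-- The statement `Zc` is bounded. -/
theorem d0_Zc' : D0 fun v : Fin 2 → ZFSet.{0} => Zc (v 0) (v 1) := by
  unfold Zc
  (repeat' first
      | assumption
      | exact D0v.proj _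
      | apply D0.not
      | apply D0.or
      | apply D0.and | apply D0.pairMem
      | apply D0.bex | apply D0.ball | apply D0.imp | apply D0.subset
      | apply D0.eq | apply D0.mem | apply D0.isOrdinal)

theorem d0_Zc {n : ℕ} {F G : (Fin n → ZFSet.{0}) → ZFSet.{0}} (hF : D0v F) (hG : D0v G) :
    D0 fun v => Zc (F v) (G v) := D0.comp2 d0_Zc' hF hG

end Pool.Agent.H637_NO
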