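import Pool.Agent.H637_NO.HCL
import Pool.Agent.H637_NO.ZC
import Pool.Agent.H637_NO.DF

/-!
# Being an element of a countable transitive model of ZF
-/

set_option autoImplicit false

namespace Pool.Agent.H637_NO

open Pool.Agent.W868 Pool.Agent.W868.GM
open ZFSet (pair)

/-- Bounded description of `ω`. -/
def d3_Om (w : ZFSet.{0}) : Prop :=
  w.IsOrdinal ∧ (∃ z ∈ w, ∀ u ∈ z, u ≠ u) ∧ (∀ z ∈ w, ∃ u ∈ w, z ∈ u) ∧
    ∀ z ∈ w, (∀ u ∈ z, u ≠ u) ∨ ∃ u ∈ z, ∀ x ∈ z, x = u ∨ x ∈ u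

theorem d3_om_iff {w : ZFSet.{0}} : d3_Om w ↔ w = ZFSet.omega := by
  constructor
  · rintro ⟨h1, h2, h3, h4⟩
    exact omega_of h1 h2 h3 h4
  · rintro rfl
    refine ⟨isOrdinal_omega, ⟨∅, ZFSet.omega_zero, fun u hu => absurd hu (ZFSet.notMem_empty u)⟩,
      fun z hz => ⟨_, ZFSet.omega_succ hz, ZFSet.mem_insert _ _⟩, fun z hz => ?_⟩
    obtain ⟨n, rfl⟩ := mem_omega_iff.1 hz
    cases n with
    | zero => exact Or.inl fun u hu => absurd hu (ZFSet.notMem_empty u)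
    | succ n => exact Or.inr ⟨nat n, ZFSet.mem_insert _ _, fun x hx => ZFSet.mem_insert_iff.1 hx⟩

theorem d3_d0_Om : D0 fun v : Fin 1 → ZFSet.{0} => d3_Om (v 0) := by
  unfold d3_Om
  (repeat' first
      | assumption
      | exact D0v.proj _
      | apply D0.not
      | apply D0.or
      | apply D0.and | apply D0.pairMem
      | apply D0.bex | apply D0.ball | apply D0.imp | apply D0.subset
      | apply D0.eq | apply D0.mem | apply D0.isOrdinal)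

/-- `a = (N, f)`, where `N` is a transitive model of ZF with `r ∈ N`, and `f` is the hierarchy
over `N` up to `ω`. -/
def d3_RZ (a r : ZFSet.{0}) : Prop :=
  ∃ N f, a = pair N f ∧ Tra N ∧ r ∈ N ∧ Hier N f ∧ ∃ q ∈ f, ∃ w W', q = pair w W' ∧ d3_Om w ∧
    Zc N W'

theorem d3_d0_RZ : D0 fun v : Fin 2 → ZFSet.{0} => d3_RZ (v 0) (v 1) := by
  unfold d3_RZ
  refine D0.expair (Q := fun N f v => Tra N ∧ v 1 ∈ N ∧ Hier N f ∧ ∃ q ∈ f, ∃ w W',
    q = pair w W' ∧ d3_Om w ∧ Zc N W') (D0v.proj 0) ?_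
  refine (D0.comp1 (R := Tra) d0_Tra (D0v.proj 1)).and ?_
  refine (D0.mem (D0v.proj 3) (D0v.proj 1)).and ?_
  refine (d0_Hier (D0v.proj 1) (D0v.proj 0)).and ?_
  refine D0.bex (Q := fun q v => ∃ w W', q = pair w W' ∧ d3_Om w ∧ Zc (v 1) W') (D0v.proj 0) ?_
  refine D0.expair (Q := fun w W' v => d3_Om w ∧ Zc (v 2) W') (D0v.proj 0) ?_
  exact (D0.comp1 (R := d3_Om) d3_d0_Om (D0v.proj 1)).and (d0_Zc (D0v.proj 4) (D0v.proj 0))

theorem d3 : S_HC → S_HC2 → S_D3 := by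
  intro _ h2
  refine ⟨d3_RZ, d3_d0_RZ, fun M hM r hr => ?_⟩
  have hZ := hM.toIsZF
  constructor
  · rintro ⟨a, ha, N, f, rfl, hT, hrN, hH, q, hq, w, W', rfl, hw, hZc⟩
    rw [d3_om_iff] at hw
    subst hw
    have h3 := hH.eq _ _ hq
    subst h3
    have h4 : ({N} : ZFSet.{0}) ∈ pair N f := by simp [pair]
    have h5 := (h2.1 M hZ).2.2.1
    refine ⟨N, (h5 _ ((h5 _ ha).2.2 _ h4)).2.2 _ (ZFSet.mem_singleton.2 rfl), hT, ?_, hrN⟩
    exact (zC N hT).2 hZc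
  · rintro ⟨N, hN, hT, hNZ, hrN⟩
    have hω := (h2.1 M hZ).2.2.2.1
    have hω' : HCt M (sc ZFSet.omega) := ((h2.1 M hZ).1 _ _ hω hω).2.2.1
    refine ⟨pair N (gr (Lb N) (sc ZFSet.omega)),
      ((h2.1 M hZ).1 _ _ hN (hct_gr hM h2 hN hω')).1, N, _, rfl, hT, hrN,
      hier_gr (isOrdinal_sc isOrdinal_omega), _, mem_gr.2 ⟨ZFSet.omega, ZFSet.mem_insert _ _, rfl⟩,
      _, _, rfl, d3_om_iff.2 rfl, (zC N hT).1 hNZ⟩

end Pool.Agent.H637_NO
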