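import Pool.Agent.H637_NO.LbB
import Pool.Agent.R597.Univ

/-!
# New orbits: distributivity of the fast sequences in the universe
-/

set_option autoImplicit false
set_option linter.unreachableTactic false
set_option linter.unusedTactic false

namespace Pool.Agent.H637_NO

open Pool.Agent.W868 Pool.Agent.W868.GM Pool.Agent.R597
open ZFSet (pair)

/-! ### Definability of codes -/

section dfn

variable {S M : Set ZFSet.{0}}

theorem of_pair_mem_base (hB : IsBase M) {x y : ZFSet.{0}} (h : pair x y ∈ M) :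
    x ∈ M ∧ y ∈ M := by
  have h1 : ({x, y} : ZFSet.{0}) ∈ M := hB.trans _ h _ (by simp [pair])
  exact ⟨hB.trans _ h1 _ (by simp), hB.trans _ h1 _ (by simp)⟩

theorem dis_dfn_Clp (hB : IsBase M) (hω : ZFSet.omega ∈ M) (hω' : ZFSet.omega ∈ S) {n : ℕ}
    {F G : (Fin n → ZFSet.{0}) → ZFSet.{0}} (hF : DfnF S M F) (hG : DfnF S M G) :
    Dfn S M fun v => Clp (F v) (G v) := by
  have h : Dfn S M fun w : Fin 2 → ZFSet.{0} =>
      (∀ q ∈ w 1, ∃ n ∈ M, ∃ x ∈ M, q = pair n x ∧ n ∈ ZFSet.omega ∧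
        (∀ y ∈ x, ∃ m ∈ ZFSet.omega, pair m n ∈ w 0 ∧ pair m y ∈ w 1) ∧
        ∀ m ∈ ZFSet.omega, pair m n ∈ w 0 → ∃ y ∈ x, pair m y ∈ w 1) ∧
      ∀ n ∈ ZFSet.omega, ∃ x ∈ M, pair n x ∈ w 1 := by
    (repeat' first
      | assumption
      | exact DfnF.proj _
      | exact DfnF.const' (by first | assumption | trivial) (by first | assumption | trivial)
      | apply Dfn.not | apply Dfn.and | apply Dfn.or | apply Dfn.imp | apply Dfn.iff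
      | apply hB.bex | apply hB.ball | apply Dfn.ex | apply Dfn.all
      | apply Dfn.eq | apply Dfn.mem | apply hB.pair')
  refine Dfn.comp2 (Q := Clp) (h.congr fun v hv => ?_) hF hG
  constructor
  · rintro ⟨h1, h2⟩
    refine ⟨fun q hq => ?_, fun n hn => ?_⟩
    · obtain ⟨n, -, x, -, h3⟩ := h1 q hq
      exact ⟨n, x, h3⟩
    · obtain ⟨x, -, h3⟩ := h2 n hn
      exact ⟨x, h3⟩
  · rintro ⟨h1, h2⟩
    refine ⟨fun q hq => ?_, fun n hn => ?_⟩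
    · obtain ⟨n, x, h3⟩ := h1 q hq
      have h4 := of_pair_mem_base hB (h3.1 ▸ hB.trans _ (hv 1) _ hq)
      exact ⟨n, h4.1, x, h4.2, h3⟩
    · obtain ⟨x, h3⟩ := h2 n hn
      have h4 := of_pair_mem_base hB (hB.trans _ (hv 1) _ h3)
      exact ⟨x, h4.2, h3⟩

/-- Codes with a collapse in `M`. -/
def Codm (M : Set ZFSet.{0}) (r a : ZFSet.{0}) : Prop := ∃ p ∈ M, Clp r p ∧ pair ∅ a ∈ p

theorem dfn_Codm (hB : IsBase M) (hω : ZFSet.omega ∈ M) (hω' : ZFSet.omega ∈ S)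
    (h0 : (∅ : ZFSet.{0}) ∈ M) (h0' : (∅ : ZFSet.{0}) ∈ S) {n : ℕ}
    {F G : (Fin n → ZFSet.{0}) → ZFSet.{0}} (hF : DfnF S M F) (hG : DfnF S M G) :
    Dfn S M fun v => Codm M (F v) (G v) := by
  refine Dfn.ex (Q := fun p v => Clp (F v) p ∧ pair ∅ (G v) ∈ p) ?_
  exact (dis_dfn_Clp hB hω hω' hF.tail (DfnF.proj 0)).and
    (Dfn.mem (hB.pair' (DfnF.const' h0 h0') hG.tail) (DfnF.proj 0))

theorem codm_univ {r a : ZFSet.{0}} : Codm Set.univ r a ↔ Cod r a :=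
  ⟨fun ⟨p, _, h⟩ => ⟨p, h⟩, fun ⟨p, h⟩ => ⟨p, trivial, h⟩⟩

theorem codm_iff (hHC : S_HC) (hHC2 : S_HC2) (hM : IsZF M) {r a : ZFSet.{0}} (hr : r ∈ M)
    (hr' : r ⊆ oo) : Codm M r a ↔ Cod r a := by
  constructor
  · rintro ⟨p, -, h⟩
    exact ⟨p, h⟩
  · rintro ⟨p, h1, h2⟩
    exact ⟨p, ((hHC2.1 M hM).2.2.1 p ((hHC M hM).2.2.1 r hr hr' p h1)).1, h1, h2⟩

end dfn

/-! ### Countable sets -/

theorem inj_of_countable {x : ZFSet.{0}} (h : {y | y ∈ x}.Countable) :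
    Inj Set.univ x ZFSet.omega := by
  obtain ⟨f, hf⟩ := Set.countable_iff_exists_injOn.1 h
  refine ⟨im (fun y => pair y (nat (f y))) x, trivial, ⟨fun q hq => ?_, fun z hz => ?_⟩, ?_⟩
  · obtain ⟨y, hy, rfl⟩ := mem_im.1 hq
    exact ZFSet.pair_mem_prod.2 ⟨hy, mem_omega_iff.2 ⟨_, rfl⟩⟩
  · refine ⟨nat (f z), mem_im.2 ⟨z, hz, rfl⟩, fun w hw => ?_⟩
    obtain ⟨y, hy, h1⟩ := mem_im.1 hw
    obtain ⟨rfl, rfl⟩ := ZFSet.pair_inj.1 h1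
    rfl
  · intro a b c ha hb
    obtain ⟨y, hy, h1⟩ := mem_im.1 ha
    obtain ⟨rfl, rfl⟩ := ZFSet.pair_inj.1 h1
    obtain ⟨z, hz, h2⟩ := mem_im.1 hb
    obtain ⟨rfl, h3⟩ := ZFSet.pair_inj.1 h2
    exact hf hy hz (nat_injective h3)

theorem hct_of_ord {x : ZFSet.{0}} (ho : x.IsOrdinal) (h : {y | y ∈ x}.Countable) :
    HCt Set.univ x := by
  refine ⟨sc x, trivial, (ZFSet.isOrdinal_succ ho).1, ZFSet.mem_insert _ _, inj_of_countable ?_⟩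
  have h1 : {y | y ∈ sc x} ⊆ insert x {y | y ∈ x} := fun y hy => ZFSet.mem_insert_iff.1 hy
  exact (h.insert x).mono h1

/-! ### The elementary submodel -/

section sub

variable (π : Pkg Unit)

theorem countable_Z : (π.Z).Countable := π.cnt.preimage check_injective

theorem ex_Z {Q : ZFSet.{0} → Prop} (hQ : Dfn π.Z Set.univ fun w : Fin 1 → ZFSet.{0} => Q (w 0))
    (h : ∃ a, Q a) : ∃ a ∈ π.Z, Q a := by
  obtain ⟨φ, h1, h2⟩ := hQ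
  obtain ⟨a, ha⟩ := h
  obtain ⟨b, hb, h3⟩ := π.wit_Z (n := 0) (φ := φ) (v := Fin.elim0) h1 (fun i => i.elim0)
    ⟨a, (h2 _ fun _ => trivial).2 ha⟩
  exact ⟨b, hb, (h2 _ fun _ => trivial).1 h3⟩

end sub

theorem sep_countable {x : ZFSet.{0}} {A : Set ZFSet.{0}} (hA : A.Countable)
    (h : ∀ y ∈ x, y ∈ A) : Inj Set.univ x ZFSet.omega :=
  inj_of_countable (hA.mono h)

theorem dis_tra_SB {H : ZFSet.{0}} (hH : ∀ r ∈ H, r ⊆ oo) : Tra (SB H) := by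
  intro x hx y hy
  have hT : ∀ x ∈ T0b, ∀ y ∈ x, y ∈ T0b := by
    intro x hx y hy
    rcases ZFSet.mem_union.1 hx with h | h
    · exact ZFSet.mem_union.2 (Or.inl (isOrdinal_omega.1 x h hy))
    · rcases ZFSet.mem_union.1 h with h | h
      · obtain ⟨q, hq, rfl⟩ := mem_im.1 h
        obtain ⟨m, hm, n, hn, rfl⟩ := ZFSet.mem_prod.1 hq
        rw [fs_pair, sn_pair, ZFSet.mem_pair] at hy
        rcases hy with rfl | rfl
        · exact ZFSet.mem_union.2 (Or.inl hm)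
        · exact ZFSet.mem_union.2 (Or.inl hn)
      · obtain ⟨m, hm, n, hn, rfl⟩ := ZFSet.mem_prod.1 h
        rw [pair, ZFSet.mem_pair] at hy
        refine ZFSet.mem_union.2 (Or.inr (ZFSet.mem_union.2 (Or.inl (mem_im.2 ?_))))
        rcases hy with rfl | rfl
        · refine ⟨pair m m, ZFSet.pair_mem_prod.2 ⟨hm, hm⟩, ?_⟩
          rw [fs_pair, sn_pair, ZFSet.pair_eq_singleton]
        · exact ⟨pair m n, h, by rw [fs_pair, sn_pair]⟩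
  have hoo : ∀ y ∈ oo, y ∈ SB H := fun y hy =>
    ZFSet.mem_union.2 (Or.inl (ZFSet.mem_union.2 (Or.inr (ZFSet.mem_union.2 (Or.inr hy)))))
  rcases ZFSet.mem_union.1 hx with h | h
  · exact ZFSet.mem_union.2 (Or.inl (hT x h y hy))
  · rcases ZFSet.mem_insert_iff.1 h with rfl | h
    · exact ZFSet.mem_union.2 (Or.inr (ZFSet.mem_insert_of_mem _ hy))
    · exact hoo y (hH x h hy)

theorem dis_mem_PW {r : ZFSet.{0}} : r ∈ PW Set.univ ↔ r ⊆ oo := by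
  rw [PW, ZFSet.mem_sep, ZFSet.mem_powerset]
  exact ⟨fun h => h.1, fun h => ⟨h, trivial⟩⟩

/-! ### The function on the reals -/

theorem dis_dfn_ln {M : Set ZFSet.{0}} (hM : IsZF M) {n : ℕ} {F : (Fin n → ZFSet.{0}) → ZFSet.{0}}
    (hF : DfnF M M F) : DfnF M M fun v => ln (F v) :=
  hM.im' (h := fun p _ => fs p) hF (hM.fs' (DfnF.proj 0))

theorem dis_dfn_ad {M : Set ZFSet.{0}} (hM : IsZF M) {n : ℕ} {F G : (Fin n → ZFSet.{0}) → ZFSet.{0}}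
    (hF : DfnF M M F) (hG : DfnF M M G) : DfnF M M fun v => ad (F v) (G v) :=
  hM.base.insert' (hM.base.pair' (dis_dfn_ln hM hF) hG) hF

/-- `o` is the length of an element of the member number `n` of the sequence `D` that extends `c`
by `r` and `h`, and is larger than the ordinal in `Ω` with the code `h`. -/
def Ax (M : Set ZFSet.{0}) (D Ω o n c h r : ZFSet.{0}) : Prop :=
  (∃ X ∈ M, pair n X ∈ D ∧ ∃ d ∈ X, ln d = o ∧ ad (ad c r) h ⊆ d) ∧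
    ∀ o' ∈ Ω, Codm M h o' → o' ∈ o

/-- `o` is the value at `r`. -/
def Gx (M : Set ZFSet.{0}) (p R D Ω r o : ZFSet.{0}) : Prop :=
  ∃ n ∈ ZFSet.omega, ∃ c ∈ p, ∃ h ∈ R, Codm M r (pair n (pair c h)) ∧
    Ax M D Ω o n c h r ∧ ∀ o₁ ∈ o, ¬ Ax M D Ω o₁ n c h r

theorem dfn_Ax {M : Set ZFSet.{0}} (hM : IsZF M) {D Ω : ZFSet.{0}} (hD : D ∈ M) (hΩ : Ω ∈ M)
    {n : ℕ} {F G H K L : (Fin n → ZFSet.{0}) → ZFSet.{0}} (hF : DfnF M M F) (hG : DfnF M M G)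
    (hH : DfnF M M H) (hK : DfnF M M K) (hL : DfnF M M L) :
    Dfn M M fun v => Ax M D Ω (F v) (G v) (H v) (K v) (L v) := by
  have hB := hM.base
  have h0 := hM.empty_mem
  have hω := hM.infinity
  refine Dfn.and ?_ ?_
  · refine Dfn.ex (Q := fun X v => pair (G v) X ∈ D ∧ ∃ d ∈ X, ln d = F v ∧
      ad (ad (H v) (L v)) (K v) ⊆ d) ?_
    refine (Dfn.mem (hB.pair' hG.tail (DfnF.proj 0)) (DfnF.const hD)).and ?_
    refine hB.bex (Q := fun d w => ln d = F (Fin.tail w) ∧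
      ad (ad (H (Fin.tail w)) (L (Fin.tail w))) (K (Fin.tail w)) ⊆ d) (DfnF.proj 0) ?_
    exact (Dfn.eq (dis_dfn_ln hM (DfnF.proj 0)) hF.tail.tail).and
      (hB.subset' (dis_dfn_ad hM (dis_dfn_ad hM hH.tail.tail hL.tail.tail) hK.tail.tail) (DfnF.proj 0))
  · refine hB.ball (Q := fun o' v => Codm M (K v) o' → o' ∈ F v) (DfnF.const hΩ) ?_
    exact (dfn_Codm hB hω hω h0 h0 hK.tail (DfnF.proj 0)).imp
      (Dfn.mem (DfnF.proj 0) hF.tail)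

theorem dfn_Gx {M : Set ZFSet.{0}} (hM : IsZF M) {p R D Ω : ZFSet.{0}} (hp : p ∈ M) (hR : R ∈ M)
    (hD : D ∈ M) (hΩ : Ω ∈ M) : Dfn M M fun w : Fin 2 → ZFSet.{0} => Gx M p R D Ω (w 0) (w 1) := by
  have hB := hM.base
  have h0 := hM.empty_mem
  have hω := hM.infinity
  unfold Gx
  apply hB.bex (DfnF.const hω)
  apply hB.bex (DfnF.const hp)
  apply hB.bex (DfnF.const hR)
  refine Dfn.and ?_ (Dfn.and ?_ ?_)
  · exact dfn_Codm hB hω hω h0 h0 (DfnF.proj 3)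
      (hB.pair' (DfnF.proj 2) (hB.pair' (DfnF.proj 1) (DfnF.proj 0)))
  · exact dfn_Ax hM hD hΩ (DfnF.proj 4) (DfnF.proj 2) (DfnF.proj 1) (DfnF.proj 0) (DfnF.proj 3)
  · apply hB.ball (DfnF.proj 4)
    apply Dfn.not
    exact dfn_Ax hM hD hΩ (DfnF.proj 0) (DfnF.proj 3) (DfnF.proj 2) (DfnF.proj 1) (DfnF.proj 4)

/-! ### The theorem -/

theorem rg_self {c : ZFSet.{0}} : rg c (ln c) = im sn c := by
  have h : rs c (ln c) = c := by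
    ext q
    rw [rs, ZFSet.mem_sep]
    exact ⟨fun h => h.1, fun h => ⟨h, mem_im.2 ⟨q, h, rfl⟩⟩⟩
  rw [rg, h]

theorem dis_core (hHC : S_HC) (hHC2 : S_HC2) (hPC : S_PC) (hFUS : S_FUS) (hTR : S_TR)
    (hEXT : S_EXT) {γ : ZFSet.{0}} (hγ : GoodS γ) {p : ZFSet.{0}}
    (hp : ∀ c, c ∈ p ↔ Pc Set.univ c) {D : ZFSet.{0}} (hD : D ∈ Lb (SB (PW Set.univ)) γ)
    (hD1 : ∀ n ∈ ZFSet.omega, ∃ X, pair n X ∈ D)
    (hD2 : ∀ q ∈ D, ∃ n X, q = pair n X ∧ n ∈ ZFSet.omega ∧ (∀ c ∈ X, c ∈ p) ∧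
      (∀ c ∈ p, ∃ c' ∈ X, c ⊆ c') ∧ ∀ c ∈ X, ∀ c' ∈ p, c ⊆ c' → c' ∈ X)
    (hDf : ∀ n X X', pair n X ∈ D → pair n X' ∈ D → X = X') : Dist p D := by
  have hU := isZFC_univ
  have hZ := hU.toIsZF
  obtain ⟨hC0, hC1, hC2, hC3, hC4⟩ := hHC Set.univ hZ
  obtain ⟨hH1, hH2, hH3, hHω, hHoo⟩ := hHC2.1 Set.univ hZ
  obtain ⟨hP0, hP0', hP1, hP2, hP3, hP4, hP5⟩ := hPC Set.univ hZ
  set R := PW Set.univ with hR
  set N : Set ZFSet.{0} := {x | x ∈ Lb (SB R) γ} with hN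
  have hNZ : IsZF N := hγ.zf
  -- members of N
  have hRN : R ∈ N := Lb_base (ZFSet.mem_union.2 (Or.inr (ZFSet.mem_insert _ _)))
  have hpN : p ∈ N := by
    obtain ⟨p', hp', h⟩ := hγ.p
    have : p = p' := ZFSet.ext fun z => by rw [hp, h]
    rw [this]
    exact hp'
  obtain ⟨hc, hhc, hhc'⟩ := hγ.hc
  set Ω := ZFSet.sep (fun z => z.IsOrdinal) hc with hΩ
  have hΩN : Ω ∈ N := hNZ.sep_mem (Q := fun z => z.IsOrdinal)
    (hNZ.base.isOrdinal' (DfnF.proj 0)) hhc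
  have memΩ : ∀ z, z ∈ Ω ↔ HCt Set.univ z ∧ z.IsOrdinal := by
    intro z
    rw [hΩ, ZFSet.mem_sep, hhc']
  have hΩo : Ω.IsOrdinal := by
    rw [ZFSet.isOrdinal_iff_forall_mem_isOrdinal]
    refine ⟨fun x hx y hy => ?_, fun x hx => ((memΩ x).1 hx).2⟩
    obtain ⟨h1, h2⟩ := (memΩ x).1 hx
    exact (memΩ y).2 ⟨(hH3 x h1).2.2 y hy, h2.mem hy⟩
  have hRoo : ∀ r ∈ R, r ⊆ oo := fun r hr => dis_mem_PW.1 hr
  have hRhc : ∀ r ∈ R, HCt Set.univ r := fun r hr => hH2 oo r hHoo trivial (hRoo r hr)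
  have hcod : ∀ r ∈ R, ∀ a, Codm N r a ↔ Cod r a := fun r hr a =>
    codm_iff hHC hHC2 hNZ (hNZ.trans _ hRN _ hr) (hRoo r hr)
  obtain ⟨g, hgN, hg1, hg2⟩ := hNZ.rel_mem hRN hΩN (Q := fun r o => Gx N p R D Ω r o)
    (dfn_Gx hNZ hpN hRN hD hΩN)
  -- uniqueness of the value
  have hgu : ∀ a b b', pair a b ∈ g → pair a b' ∈ g → b' = b := by
    intro a b b' h1 h2
    obtain ⟨ha, hb, n, hn, c, hcp, h, hh, h3, h4, h5⟩ := (hg2 a b).1 h1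
    obtain ⟨-, hb', n', hn', c', hcp', h', hh', h3', h4', h5'⟩ := (hg2 a b').1 h2
    have h6 := hC4 a _ _ ((hcod a ha _).1 h3) ((hcod a ha _).1 h3')
    obtain ⟨rfl, h7⟩ := ZFSet.pair_inj.1 h6
    obtain ⟨rfl, rfl⟩ := ZFSet.pair_inj.1 h7
    rcases (((memΩ b').1 hb').2).mem_trichotomous ((memΩ b).1 hb).2 with h8 | h8 | h8
    · exact absurd h4' (h5 _ h8)
    · exact h8
    · exact absurd h4 (h5' _ h8)
  -- existence of the value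
  have hex : ∀ n ∈ ZFSet.omega, ∀ c ∈ p, ∀ h ∈ R, ∀ r ∈ R, Cod r (pair n (pair c h)) →
      ∃ o, pair r o ∈ g ∧ Ax N D Ω o n c h r := by
    intro n hn c hcp h hh r hr hrc
    have hPc := (hp c).1 hcp
    obtain ⟨hPr, hPr', hPr''⟩ := hP3 c hPc r hr
    obtain ⟨hPh, hPh', hPh''⟩ := hP3 _ hPr h hh
    -- a large extension
    obtain ⟨c2, h1, h2, h3⟩ : ∃ c2, Pc Set.univ c2 ∧ ad (ad c r) h ⊆ c2 ∧
        ∀ o' ∈ Ω, Cod h o' → o' ∈ ln c2 := by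
      by_cases h4 : ∃ o' ∈ Ω, Cod h o'
      · obtain ⟨o', h4, h5⟩ := h4
        obtain ⟨c2, h6, h7, h8⟩ := hEXT _ hPh o' ((memΩ o').1 h4).1 ((memΩ o').1 h4).2
        refine ⟨c2, h6, h7, fun o'' _ h9 => ?_⟩
        rw [hC4 h _ _ h9 h5]
        exact h8
      · exact ⟨_, hPh, fun _ h => h, fun o' h5 h6 => absurd ⟨o', h5, h6⟩ h4⟩
    obtain ⟨X, hX⟩ := hD1 n hn
    obtain ⟨n', X', h4, -, h5, h6, h7⟩ := hD2 _ hX
    obtain ⟨rfl, rfl⟩ := ZFSet.pair_inj.1 h4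
    obtain ⟨d, hdX, hd⟩ := h6 c2 ((hp c2).2 h1)
    have hPd := (hp d).1 (h5 d hdX)
    obtain ⟨hd1, hd2, hd3⟩ := hP1 d hPd
    have hXN : X ∈ N := (hNZ.of_pair_mem (hNZ.trans _ hD _ hX)).2
    have hAx : Ax N D Ω (ln d) n c h r := by
      refine ⟨⟨X, hXN, hX, d, hdX, rfl, fun _ h => hd (h2 h)⟩, fun o' ho' h8 => ?_⟩
      have h9 := h3 o' ho' ((hcod h hh _).1 h8)
      have h10 := (hP4 c2 d h1 hPd hd).1
      rcases ZFSet.mem_insert_iff.1 h10 with h11 | h11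
      · exact h11 ▸ h9
      · exact hd1.mem_trans h9 h11
    have hne : {o : ZFSet.{0} | o ∈ Ω ∧ Ax N D Ω o n c h r}.Nonempty :=
      ⟨ln d, (memΩ _).2 ⟨hd2, hd1⟩, hAx⟩
    have h8 := ZFSet.mem_wf.min_mem _ hne
    refine ⟨ZFSet.mem_wf.min _ hne, (hg2 _ _).2 ⟨hr, h8.1, n, hn, c, hcp, h, hh,
      (hcod r hr _).2 hrc, h8.2, fun o₁ ho₁ h9 => ?_⟩, h8.2⟩
    exact ZFSet.mem_wf.not_lt_min {o : ZFSet.{0} | o ∈ Ω ∧ Ax N D Ω o n c h r}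
      ⟨hΩo.mem_trans ho₁ h8.1, h9⟩ ho₁
  -- the submodel
  intro c₀ hc₀
  obtain ⟨π, hA, -⟩ := exists_pkg' (P := Unit) {check γ, check D, check p, check g, check Ω,
    check c₀} (Set.toFinite _).countable ()
  have hγZ : γ ∈ π.Z := hA (by simp)
  have hDZ : D ∈ π.Z := hA (by simp)
  have hpZ : p ∈ π.Z := hA (by simp)
  have hgZ : g ∈ π.Z := hA (by simp)
  have hΩZ : Ω ∈ π.Z := hA (by simp)
  have hc₀Z : c₀ ∈ π.Z := hA (by simp)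
  obtain ⟨-, t2, t3, t4, ⟨hRZ, memH⟩, t6⟩ := hTR π
  set H := π.hat R with hH
  set δ := π.hat Ω with hδ
  set G := π.hat g with hG
  set η := π.hat γ with hη
  have hωZ := π.omega_Z
  have h0Z := π.empty_Z
  -- hereditarily countable sets in Z
  have memδ : ∀ z, z ∈ δ ↔ z ∈ Ω ∧ z ∈ π.Z := by
    intro z
    rw [hδ, π.mem_hat]
    constructor
    · rintro ⟨y, h1, h2, rfl⟩
      rw [(t4 y h2 ((memΩ y).1 h1).1).1]
      exact ⟨h1, h2⟩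
    · rintro ⟨h1, h2⟩
      exact ⟨z, h1, h2, (t4 z h2 ((memΩ z).1 h1).1).1⟩
  have hpairZ : ∀ a b, HCt Set.univ (pair a b) → pair a b ∈ π.Z → a ∈ π.Z ∧ b ∈ π.Z := by
    intro a b h1 h2
    have h3 : ({a, b} : ZFSet.{0}) ∈ pair a b := by simp [pair]
    have h4 := (t4 _ h2 h1).2 _ h3
    have h5 := (hH3 _ h1).2.2 _ h3
    exact ⟨(t4 _ h4 h5).2 a (by simp), (t4 _ h4 h5).2 b (by simp)⟩
  have memG : ∀ z, z ∈ G ↔ z ∈ g ∧ z ∈ π.Z := by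
    intro z
    have h3 : ∀ y ∈ g, HCt Set.univ y := by
      intro y hy
      obtain ⟨a, ha, b, hb, rfl⟩ := ZFSet.mem_prod.1 (hg1 hy)
      exact (hH1 a b (hRhc a ha) ((memΩ b).1 hb).1).1
    rw [hG, π.mem_hat]
    constructor
    · rintro ⟨y, h1, h2, rfl⟩
      rw [(t4 y h2 (h3 y h1)).1]
      exact ⟨h1, h2⟩
    · rintro ⟨h1, h2⟩
      exact ⟨z, h1, h2, (t4 z h2 (h3 z h1)).1⟩
  have hcZ := countable_Z π
  have hδo : δ.IsOrdinal := π.hat_isOrdinal hΩo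
  have hlim : Lim δ := by
    have h1 : (∅ : ZFSet.{0}) ∈ δ := (memδ _).2 ⟨(memΩ _).2 ⟨(hH3 _ hHω).2.2 _ ZFSet.omega_zero,
      ZFSet.isOrdinal_empty⟩, h0Z⟩
    refine ⟨hδo, fun h => ?_, fun ζ hζ => ?_⟩
    · rw [h] at h1
      exact ZFSet.notMem_empty _ h1
    · obtain ⟨h2, h3⟩ := (memδ ζ).1 hζ
      obtain ⟨h4, h5⟩ := (memΩ ζ).1 h2
      exact (memδ _).2 ⟨(memΩ _).2 ⟨(hH1 ζ ζ h4 h4).2.2.1, ZFSet.isOrdinal_succ h5⟩,
        π.insert_Z h3 h3⟩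
  have hδc : HCt Set.univ δ := hct_of_ord hδo (hcZ.mono fun z hz => ((memδ z).1 hz).2)
  have hηo : η.IsOrdinal := π.hat_isOrdinal hγ.ord
  have hηc : HCt Set.univ η := hct_of_ord hηo (π.countable_W.mono fun z hz => by
    obtain ⟨y, -, h1, rfl⟩ := π.mem_hat.1 hz
    exact π.V_subset_W (π.of_hat_mem_V h1))
  have hTra : Tra (SB R) := dis_tra_SB hRoo
  obtain ⟨hSZ, hSH⟩ := t6 R hRZ
  have hlev : ∀ ξ ∈ π.Z, ξ.IsOrdinal → Lb (SB R) ξ ∈ π.Z ∧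
      π.hat (Lb (SB R) ξ) = Lb (SB H) (π.hat ξ) := by
    intro ξ h1 h2
    have h3 := t2 (SB R) hSZ hTra ξ h1 h2
    rw [hSH] at h3
    exact h3
  -- the sets of the fusion
  set K := ZFSet.sep (fun c => c ∈ π.Z) p with hK
  have memK : ∀ c, c ∈ K ↔ Pc Set.univ c ∧ c ∈ π.Z := by
    intro c
    rw [hK, ZFSet.mem_sep, hp]
  set T := ZFSet.prod ZFSet.omega H with hT
  set E := ZFSet.sep (fun q => ∃ n h c' X, q = pair (pair n h) c' ∧ pair n X ∈ D ∧ c' ∈ X ∧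
    h ∈ im sn c' ∧ ∀ o ∈ δ, Cod h o → o ∈ ln c') (ZFSet.prod T K) with hE
  have memE : ∀ n h c', pair (pair n h) c' ∈ E ↔ n ∈ ZFSet.omega ∧ h ∈ H ∧ c' ∈ K ∧
      (∃ X, pair n X ∈ D ∧ c' ∈ X) ∧ h ∈ im sn c' ∧ ∀ o ∈ δ, Cod h o → o ∈ ln c' := by
    intro n h c'
    rw [hE, ZFSet.mem_sep, ZFSet.pair_mem_prod, hT, ZFSet.pair_mem_prod]
    constructor
    · rintro ⟨⟨⟨h1, h2⟩, h3⟩, n', h', c'', X, h4, h5, h6, h7, h8⟩
      obtain ⟨h9, rfl⟩ := ZFSet.pair_inj.1 h4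
      obtain ⟨rfl, rfl⟩ := ZFSet.pair_inj.1 h9
      exact ⟨h1, h2, h3, ⟨X, h5, h6⟩, h7, h8⟩
    · rintro ⟨h1, h2, h3, ⟨X, h5, h6⟩, h7, h8⟩
      exact ⟨⟨⟨h1, h2⟩, h3⟩, n, h, c', X, rfl, h5, h6, h7, h8⟩
  have hωn : ∀ n ∈ ZFSet.omega, n ∈ π.Z := by
    intro n hn
    obtain ⟨k, rfl⟩ := mem_omega_iff.1 hn
    exact π.nat_Z k
  have hlnZ : ∀ c ∈ K, ln c ∈ π.Z := by
    intro c hc
    obtain ⟨h1, h2⟩ := (memK c).1 hc
    obtain ⟨-, -, h3⟩ := hP1 c h1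
    have hB := isBase_univ
    obtain ⟨a, ha, h4⟩ := ex_Z π (Q := fun o => ∀ x ∈ (Set.univ : Set ZFSet.{0}),
        (x ∈ o ↔ ∃ y ∈ (Set.univ : Set ZFSet.{0}), pair x y ∈ c)) (by
      (repeat' first
      | assumption
      | exact DfnF.proj _
      | exact DfnF.const' (by first | assumption | trivial) (by first | assumption | trivial)
      | apply Dfn.not | apply Dfn.and | apply Dfn.or | apply Dfn.imp | apply Dfn.iff
      | apply hB.bex | apply hB.ball | apply Dfn.ex | apply Dfn.all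
      | apply Dfn.eq | apply Dfn.mem | apply hB.pair')) ⟨ln c, fun x _ => by
        rw [ln, mem_im]
        constructor
        · rintro ⟨q, hq, rfl⟩
          obtain ⟨a, ha, b, hb, rfl⟩ := ZFSet.mem_prod.1 (h3.1 hq)
          rw [fs_pair]
          exact ⟨b, trivial, hq⟩
        · rintro ⟨y, -, hy⟩
          exact ⟨_, hy, by rw [fs_pair]⟩⟩
    have h5 : a = ln c := by
      ext x
      rw [h4 x trivial, ln, mem_im]
      constructor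
      · rintro ⟨y, -, hy⟩
        exact ⟨_, hy, by rw [fs_pair]⟩
      · rintro ⟨q, hq, rfl⟩
        obtain ⟨a, ha, b, hb, rfl⟩ := ZFSet.mem_prod.1 (h3.1 hq)
        rw [fs_pair]
        exact ⟨b, trivial, hq⟩
    exact h5 ▸ ha
  have hlnδ : ∀ c ∈ K, ln c ∈ δ := by
    intro c hc
    obtain ⟨h1, h2⟩ := (memK c).1 hc
    obtain ⟨h3, h4, -⟩ := hP1 c h1
    exact (memδ _).2 ⟨(memΩ _).2 ⟨h4, h3⟩, hlnZ c hc⟩
  -- codes in Z
  have hcodZ : ∀ a ∈ π.Z, HCt Set.univ a → ∃ r ∈ H, Cod r a := by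
    intro a ha hac
    have hB := isBase_univ
    obtain ⟨r, hr, h1, h2⟩ := ex_Z π (Q := fun r => r ∈ R ∧ Codm Set.univ r a)
      ((Dfn.mem (DfnF.proj 0) (DfnF.const' (M := Set.univ) trivial hRZ)).and
        (dfn_Codm hB trivial hωZ trivial h0Z (DfnF.proj 0) (DfnF.const' trivial ha))) (by
      obtain ⟨r, hr, h1⟩ := hC1 a hac
      exact ⟨r, hr, codm_univ.2 h1⟩)
    exact ⟨r, (memH r).2 ⟨hRoo r h1, hr⟩, codm_univ.1 h2⟩
  have hHR : ∀ r ∈ H, r ∈ R := fun r hr => dis_mem_PW.2 ((memH r).1 hr).1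
  -- the fusion condition
  have hstep : ∀ c ∈ K, ∀ t ∈ T, ∃ c' ∈ K, ∃ r ∈ H, ∃ o ∈ δ, c ⊆ c' ∧ pair (ln c) r ∈ c' ∧
      pair r o ∈ G ∧ ln c' ⊆ o ∧ pair t c' ∈ E := by
    intro c hc t ht
    obtain ⟨n, hn, h, hh, rfl⟩ := ZFSet.mem_prod.1 ht
    obtain ⟨hPc, hcZ'⟩ := (memK c).1 hc
    have hcp := (hp c).2 hPc
    have hhR := hHR h hh
    have hhZ := ((memH h).1 hh).2
    have hnZ := hωn n hn
    have hcode : HCt Set.univ (pair n (pair c h)) :=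
      (hH1 _ _ ((hH3 _ hHω).2.2 n hn) (hH1 _ _ hPc.1 (hRhc h hhR)).1).1
    obtain ⟨r, hr, hrc⟩ := hcodZ _ (π.pair_mem_Z hnZ (π.pair_mem_Z hcZ' hhZ)) hcode
    have hrR := hHR r hr
    have hrZ := ((memH r).1 hr).2
    obtain ⟨o, ho, hAx⟩ := hex n hn c hcp h hhR r hrR hrc
    have hoΩ := ((hg2 _ _).1 ho).2.1
    have hB := isBase_univ
    -- the value is in Z
    have hoZ : o ∈ π.Z := by
      obtain ⟨o', h1, h2⟩ := ex_Z π (Q := fun o => pair r o ∈ g)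
        (Dfn.mem (hB.pair' (DfnF.const' trivial hrZ) (DfnF.proj 0)) (DfnF.const' trivial hgZ))
        ⟨o, ho⟩
      rw [← hgu r o o' ho h2]
      exact h1
    obtain ⟨⟨X, hXN, hX, d, hdX, hd1, hd2⟩, hAx2⟩ := hAx
    have hXZ : X ∈ π.Z := by
      obtain ⟨X', h1, h2⟩ := ex_Z π (Q := fun X => pair n X ∈ D)
        (Dfn.mem (hB.pair' (DfnF.const' trivial hnZ) (DfnF.proj 0)) (DfnF.const' trivial hDZ))
        ⟨X, hX⟩
      rw [hDf n X X' hX h2]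
      exact h1
    obtain ⟨n', X', h4, -, h5, -, -⟩ := hD2 _ hX
    obtain ⟨rfl, rfl⟩ := ZFSet.pair_inj.1 h4
    have hc1Z : ad (ad c r) h ∈ π.Z := by
      have h1 : ad c r ∈ π.Z := π.insert_Z (π.pair_mem_Z (hlnZ c hc) hrZ) hcZ'
      have h2 : ad c r ∈ K := (memK _).2 ⟨(hP3 c hPc r hrR).1, h1⟩
      exact π.insert_Z (π.pair_mem_Z (hlnZ _ h2) hhZ) h1
    obtain ⟨d', hd'Z, hd'X, hd'1, hd'2, hd'3⟩ := ex_Z π (Q := fun d => d ∈ X ∧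
        ad (ad c r) h ⊆ d ∧ (∀ x ∈ o, ∃ y ∈ (Set.univ : Set ZFSet.{0}), pair x y ∈ d) ∧
        ∀ q ∈ d, ∃ x ∈ o, ∃ y ∈ (Set.univ : Set ZFSet.{0}), q = pair x y) (by
      (repeat' first
      | assumption
      | exact DfnF.proj _
      | exact DfnF.const' (by first | assumption | trivial) (by first | assumption | trivial)
      | apply hB.subset'
      | apply Dfn.not | apply Dfn.and | apply Dfn.or | apply Dfn.imp | apply Dfn.iff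
      | apply hB.bex | apply hB.ball | apply Dfn.ex | apply Dfn.all
      | apply Dfn.eq | apply Dfn.mem | apply hB.pair')) ⟨d, hdX, hd2, by
        obtain ⟨-, -, h3⟩ := hP1 d ((hp d).1 (h5 d hdX))
        rw [hd1] at h3
        refine ⟨fun x hx => ?_, fun q hq => ?_⟩
        · obtain ⟨y, -, hy⟩ := fun_exists h3 hx
          exact ⟨y, trivial, hy⟩
        · obtain ⟨a, ha, b, hb, rfl⟩ := ZFSet.mem_prod.1 (h3.1 hq)
          exact ⟨a, ha, b, trivial, rfl⟩⟩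
    have hd'p := h5 d' hd'X
    have hPd' := (hp d').1 hd'p
    have hd'K : d' ∈ K := (memK d').2 ⟨hPd', hd'Z⟩
    have hln : ln d' = o := by
      ext x
      rw [ln, mem_im]
      constructor
      · rintro ⟨q, hq, rfl⟩
        obtain ⟨x, hx, y, -, rfl⟩ := hd'3 q hq
        rw [fs_pair]
        exact hx
      · intro hx
        obtain ⟨y, -, hy⟩ := hd'2 x hx
        exact ⟨_, hy, by rw [fs_pair]⟩
    obtain ⟨hQ1, hQ2, hQ3⟩ := hP3 c hPc r hrR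
    obtain ⟨hQ4, hQ5, hQ6⟩ := hP3 _ hQ1 h hhR
    refine ⟨d', hd'K, r, hr, o, (memδ o).2 ⟨hoΩ, hoZ⟩, fun x hx => hd'1 (hQ6 (hQ3 hx)),
      hd'1 (hQ6 (ZFSet.mem_insert _ _)), (memG _).2 ⟨ho, π.pair_mem_Z hrZ hoZ⟩, ?_, ?_⟩
    · rw [hln]
    · refine (memE _ _ _).2 ⟨hn, hh, hd'K, ⟨X, hX, hd'X⟩, ?_, fun o' ho' h6 => ?_⟩
      · exact mem_im.2 ⟨pair (ln (ad c r)) h, hd'1 (ZFSet.mem_insert _ _), by rw [sn_pair]⟩
      · rw [hln]
        exact hAx2 o' ((memδ o').1 ho').1 ((hcod h hhR _).2 h6)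
  have h0H : (∅ : ZFSet.{0}) ∈ H := (memH _).2 ⟨ZFSet.empty_subset _, h0Z⟩
  have h0ω : (∅ : ZFSet.{0}) ∈ ZFSet.omega := ZFSet.omega_zero
  obtain ⟨c, h1, h2, h3, h4⟩ := hFUS Set.univ hU K T E H G δ η trivial trivial trivial trivial
    trivial (sep_countable hcZ fun t ht => by
      obtain ⟨n, hn, h, hh, rfl⟩ := ZFSet.mem_prod.1 ht
      exact π.pair_mem_Z (hωn n hn) ((memH h).1 hh).2)
    (sep_countable hcZ fun c hc => ((memK c).1 hc).2)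
    (sep_countable hcZ fun r hr => ((memH r).1 hr).2) hlim hδc
    (fun c hc => ⟨((memK c).1 hc).1, hlnδ c hc, fun z hz => by
      obtain ⟨h1, h2⟩ := (memK c).1 hc
      rw [rg_self, mem_im] at hz
      obtain ⟨q, hq, rfl⟩ := hz
      obtain ⟨-, h3, h4⟩ := hP1 c h1
      obtain ⟨a, ha, b, hb, rfl⟩ := ZFSet.mem_prod.1 (h4.1 hq)
      rw [sn_pair]
      refine (memH b).2 ⟨hRoo b hb, ?_⟩
      exact (hpairZ a b ((hH3 c h1.1).2.2 _ hq) ((t4 c h2 h1.1).2 _ hq)).2⟩)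
    hHR hstep
    (fun h hh => ⟨pair ∅ h, ZFSet.pair_mem_prod.2 ⟨h0ω, hh⟩, fun c' hc' h1 => by
      rw [rg_self]
      exact ((memE _ _ _).1 h1).2.2.2.2.1⟩)
    (fun ζ hζ => by
      obtain ⟨h1, h2⟩ := (memδ ζ).1 hζ
      obtain ⟨h, hh, h3⟩ := hcodZ ζ h2 ((memΩ ζ).1 h1).1
      exact ⟨pair ∅ h, ZFSet.pair_mem_prod.2 ⟨h0ω, hh⟩, fun c' hc' h4 =>
        ((memE _ _ _).1 h4).2.2.2.2.2 ζ hζ h3⟩)
    (fun ζ hζ => by
      obtain ⟨h1, h2⟩ := (memδ ζ).1 hζ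
      obtain ⟨h, hh, q, h3, h4⟩ := hcodZ ζ h2 ((memΩ ζ).1 h1).1
      exact ⟨h, hh, q, h3, ∅, h0ω, h4⟩)
    hηc hηo (by
      have h1 := (hlev γ hγZ hγ.ord)
      rw [hη, ← h1.2]
      exact (π.hat_mem_hat hgZ h1.1).2 hgN)
    (fun q hq => by
      obtain ⟨h1, h2⟩ := (memG q).1 hq
      obtain ⟨a, ha, b, hb, rfl⟩ := ZFSet.mem_prod.1 (hg1 h1)
      exact ⟨a, b, rfl, fun g' hg' => hgu a b g' h1 ((memG _).1 hg').1⟩)
    (fun α hα _ h1 => by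
      obtain ⟨β, h2, h3, rfl⟩ := π.mem_hat.1 hα
      obtain ⟨h4, h5⟩ := hlev β h3 (hγ.ord.mem h2)
      rw [← h5] at h1
      exact hγ.min β h2 ((t3 _ h4 (Lb_tra hTra β)).1 h1))
    c₀ ((memK c₀).2 ⟨(hp c₀).1 hc₀, hc₀Z⟩)
  refine ⟨c, (hp c).2 h1, h3, fun q hq => ?_⟩
  obtain ⟨n, X, rfl, hn, h5, h6, h7⟩ := hD2 q hq
  obtain ⟨c', hc'K, h8, h9⟩ := h4 (pair n ∅) (ZFSet.pair_mem_prod.2 ⟨hn, h0H⟩)
  obtain ⟨-, -, -, ⟨X', h10, h11⟩, -, -⟩ := (memE _ _ _).1 h9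
  refine ⟨n, X, rfl, h7 c' ?_ c ((hp c).2 h1) h8⟩
  rw [hDf n X X' hq h10]
  exact h11

/-- Distributivity in the universe. -/
theorem dIS (hHC : S_HC) (hHC2 : S_HC2) (_ : S_RW) (hPC : S_PC) (hFUS : S_FUS) (hTR : S_TR)
    (hEXT : S_EXT) : S_DIS := by
  rintro γ hγ p hp D hD ⟨h1, h2, h3⟩
  refine dis_core hHC hHC2 hPC hFUS hTR hEXT hγ hp hD h2 h3 fun n X X' hX hX' => ?_
  obtain ⟨r, g, h4, h5⟩ := h1 _ hX
  obtain ⟨rfl, rfl⟩ := ZFSet.pair_inj.1 h4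
  exact (h5 X' hX').symm

end Pool.Agent.H637_NO
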