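import Pool.Agent.H637_NO.St
import Pool.Agent.W868.Cond
import Pool.Agent.W868.NDfn

/-!
# New orbits: definitions used in the proof

`Tra`, `Lb`, `LCb`: the constructible hierarchy over a transitive set.
`oo`, `T0b`, `SB`: the base sets. Internal reals are subsets of `oo = ω × ω`.
`Clp`, `Cod`: collapses and codes of hereditarily countable sets. `HCt M`: hereditarily countable
in `M`. `PW M`: the internal reals of `M`.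
`Zc`: the bounded statement that says that a transitive set is a model of ZF.
`Wt`, `Pc`: the fast sequences, that is, the forcing `P_0`.
-/

set_option autoImplicit false

namespace Pool.Agent.H637_NO

open Pool.Agent.W868 Pool.Agent.W868.GM
open ZFSet (pair)

/-- `S` is transitive. -/
def Tra (S : ZFSet.{0}) : Prop := ∀ x ∈ S, ∀ y ∈ x, y ∈ S

/-- The hierarchy over `S`: `Lb S ξ = S ∪ ⋃_{ζ ∈ ξ} step ∅ (Lb S ζ)`. -/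
noncomputable def Lb (S : ZFSet.{0}) : ZFSet.{0} → ZFSet.{0} := itr (step ∅) S

/-- The class `L(S)` of the model `M`. -/
def LCb (M : Set ZFSet.{0}) (S : ZFSet.{0}) : Set ZFSet.{0} :=
  {x | ∃ ξ ∈ M, ξ.IsOrdinal ∧ x ∈ Lb S ξ}

/-- `ω × ω`. -/
noncomputable def oo : ZFSet.{0} := ZFSet.prod ZFSet.omega ZFSet.omega

/-- The transitive closure of `ω × ω`. -/
noncomputable def T0b : ZFSet.{0} :=
  ZFSet.omega ∪ (im (fun p => ({fs p, sn p} : ZFSet.{0})) oo ∪ oo)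

/-- The base set for the set `H` of subsets of `ω × ω`. -/
noncomputable def SB (H : ZFSet.{0}) : ZFSet.{0} := T0b ∪ insert H H

/-- `ξ` is a limit ordinal. -/
def Lim (ξ : ZFSet.{0}) : Prop := ξ.IsOrdinal ∧ ξ ≠ ∅ ∧ ∀ ζ ∈ ξ, sc ζ ∈ ξ

/-- `p` is the collapse of the relation `r` on `ω`: a function on `ω` with
`p n = {p m | (m, n) ∈ r}`. -/
def Clp (r p : ZFSet.{0}) : Prop :=
  (∀ q ∈ p, ∃ n x, q = pair n x ∧ n ∈ ZFSet.omega ∧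
    (∀ y ∈ x, ∃ m ∈ ZFSet.omega, pair m n ∈ r ∧ pair m y ∈ p) ∧
    ∀ m ∈ ZFSet.omega, pair m n ∈ r → ∃ y ∈ x, pair m y ∈ p) ∧
  ∀ n ∈ ZFSet.omega, ∃ x, pair n x ∈ p

/-- The set `r` codes the set `a`. -/
def Cod (r a : ZFSet.{0}) : Prop := ∃ p, Clp r p ∧ pair ∅ a ∈ p

/-- `z` is hereditarily countable in `M`. -/
def HCt (M : Set ZFSet.{0}) (z : ZFSet.{0}) : Prop :=
  ∃ T ∈ M, Tra T ∧ z ∈ T ∧ Inj M T ZFSet.omega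

/-- The set of the subsets of `ω × ω` in `M`. -/
noncomputable def PW (M : Set ZFSet.{0}) : ZFSet.{0} :=
  ZFSet.sep (fun z => z ∈ M) (ZFSet.powerset oo)

/-- Bounded statement that says (for a transitive set `W` and `W' = Lb W ω`) that `W` is a model
of ZF. -/
def Zc (W W' : ZFSet.{0}) : Prop :=
  (∃ w ∈ W, w.IsOrdinal ∧ (∃ z ∈ w, ∀ u ∈ z, u ≠ u) ∧ (∀ z ∈ w, ∃ u ∈ w, z ∈ u) ∧
    ∀ z ∈ w, (∀ u ∈ z, u ≠ u) ∨ ∃ u ∈ z, ∀ x ∈ z, x = u ∨ x ∈ u) ∧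
  (∀ x ∈ W, ∀ y ∈ W, ∃ z ∈ W, x ∈ z ∧ y ∈ z ∧ ∀ u ∈ z, u = x ∨ u = y) ∧
  (∀ x ∈ W, ∃ z ∈ W, (∀ u ∈ z, ∃ y ∈ x, u ∈ y) ∧ ∀ y ∈ x, ∀ u ∈ y, u ∈ z) ∧
  (∀ x ∈ W, ∃ y ∈ W, (∀ z ∈ y, z ⊆ x) ∧ ∀ z ∈ W, z ⊆ x → z ∈ y) ∧
  (∀ x ∈ W, ∀ D ∈ W', ∃ y ∈ W, (∀ z ∈ y, z ∈ x ∧ z ∈ D) ∧ ∀ z ∈ x, z ∈ D → z ∈ y) ∧
  ∀ x ∈ W, ∀ g ∈ W', (∀ z ∈ x, ∃ u ∈ W, pair z u ∈ g ∧ ∀ u' ∈ W, pair z u' ∈ g → u' = u) →
    ∃ y ∈ W, (∀ u ∈ y, ∃ z ∈ x, pair z u ∈ g) ∧ ∀ z ∈ x, ∀ u ∈ W, pair z u ∈ g → u ∈ y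

/-- The restriction of the sequence `c` to `ξ`. -/
noncomputable def rs (c ξ : ZFSet.{0}) : ZFSet.{0} := ZFSet.sep (fun p => fs p ∈ ξ) c

/-- The set of the values of the sequence `c` at arguments in `ξ`. -/
noncomputable def rg (c ξ : ZFSet.{0}) : ZFSet.{0} := im sn (rs c ξ)

/-- The length of the sequence `c`. -/
noncomputable def ln (c : ZFSet.{0}) : ZFSet.{0} := im fs c

/-- The sequence `c` with the additional value `r`. -/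
noncomputable def ad (c r : ZFSet.{0}) : ZFSet.{0} := insert (pair (ln c) r) c

/-- `G` is a set of pairs that is a function. -/
def Fu (G : ZFSet.{0}) : Prop :=
  ∀ q ∈ G, ∃ r g, q = pair r g ∧ ∀ g', pair r g' ∈ G → g' = g

/-- `(η, G, ζ₀)` witnesses that `c` is fast at `ξ`. -/
def Wt (c ξ η G ζ₀ : ZFSet.{0}) : Prop :=
  η.IsOrdinal ∧ G ∈ Lb (SB (rg c ξ)) η ∧ Fu G ∧ ζ₀ ∈ ξ ∧
  (∀ ζ ∈ ξ, ζ₀ ∈ ζ → ∃ j ∈ ζ, ∃ r g, pair j r ∈ c ∧ pair r g ∈ G ∧ g ∈ ξ ∧ ζ ⊆ g) ∧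
  (∀ α ∈ η, ξ ∈ α → ¬ IsZF {x | x ∈ Lb (SB (rg c ξ)) α}) ∧
  ∀ ζ ∈ ξ, ∃ j ∈ ξ, ∃ r p, pair j r ∈ c ∧ Clp r p ∧ ∃ n ∈ ZFSet.omega, pair n ζ ∈ p

/-- `c` is an element of the forcing `P_0` of `M`. -/
def Pc (M : Set ZFSet.{0}) (c : ZFSet.{0}) : Prop :=
  HCt M c ∧ ∃ δ, δ.IsOrdinal ∧ ZFSet.IsFunc δ (PW M) c ∧
    ∀ ξ ∈ sc δ, Lim ξ → ∃ η G ζ₀, HCt M η ∧ Wt c ξ η G ζ₀

/-- `D` is a sequence of dense open subsets of `p`, ordered by reverse inclusion. -/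
def DSeq (p D : ZFSet.{0}) : Prop :=
  Fu D ∧ (∀ n ∈ ZFSet.omega, ∃ X, pair n X ∈ D) ∧
  ∀ q ∈ D, ∃ n X, q = pair n X ∧ n ∈ ZFSet.omega ∧ (∀ c ∈ X, c ∈ p) ∧
    (∀ c ∈ p, ∃ c' ∈ X, c ⊆ c') ∧ ∀ c ∈ X, ∀ c' ∈ p, c ⊆ c' → c' ∈ X

/-- The elements of `p` that are in all members of the sequence `D` are dense. -/
def Dist (p D : ZFSet.{0}) : Prop :=
  ∀ c ∈ p, ∃ c' ∈ p, c ⊆ c' ∧ ∀ q ∈ D, ∃ n X, q = pair n X ∧ c' ∈ X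

/-- Every real of the model `M` is in a countable transitive model of ZF in `M`. -/
def Ctms (M : Set ZFSet.{0}) : Prop :=
  ∀ r ∈ PW M, ∃ N, HCt M N ∧ Tra N ∧ IsZF {x | x ∈ N} ∧ r ∈ N

/-- The extension property of the fast sequences. -/
def ExtP (M : Set ZFSet.{0}) : Prop :=
  ∀ c, Pc M c → ∀ ζ, HCt M ζ → ζ.IsOrdinal → ∃ c', Pc M c' ∧ c ⊆ c' ∧ ζ ∈ ln c'

/-- The model `U`: the least model of the form `L(R)`. -/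
structure GoodU (U : Set ZFSet.{0}) : Prop where
  ctb : U.Countable
  zf : IsZF U
  lev : ∀ x ∈ U, ∃ ξ ∈ U, ξ.IsOrdinal ∧ x ∈ Lb (SB (PW U)) ξ
  min : ∀ α ∈ U, α.IsOrdinal → ¬ IsZF {x | x ∈ Lb (SB (PW U)) α}
  p : ∃ p ∈ U, ∀ c, c ∈ p ↔ Pc U c
  ext : ExtP U
  dist : ∀ p ∈ U, (∀ c, c ∈ p ↔ Pc U c) → ∀ D ∈ U, DSeq p D → Dist p D
  ctm : Ctms U

/-- The model `V`. -/
structure GoodV (V : Set ZFSet.{0}) : Prop where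
  ctb : V.Countable
  zfc : IsZFC V
  min : ∀ α ∈ V, α.IsOrdinal → ¬ IsZF {x | x ∈ Lb (SB (PW V)) α}
  ctm : Ctms V
  ext : ExtP V
  seq : ∃ B ∈ V, ∃ o ∈ V, (∀ z, z ∈ o ↔ HCt V z ∧ z.IsOrdinal) ∧ ZFSet.IsFunc o (PW V) B ∧
    (∀ r ∈ PW V, ∃ j ∈ o, pair j r ∈ B) ∧ ∀ ξ ∈ o, Pc V (rs B ξ)

/-! ### The forcing `P` -/

/-- The real `z` as a subset of `ω × ω`. -/
noncomputable def rw' (z : ℕ → ℕ) : ZFSet.{0} :=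
  ZFSet.sep (fun p => ∃ m n : ℕ, p = pair (nat m) (nat n) ∧ z (Nat.pair m n) = 0) oo

/-- `s` is finite in `M`. -/
def Fi (M : Set ZFSet.{0}) (s : ZFSet.{0}) : Prop := ∃ n ∈ ZFSet.omega, Inj M s n

/-- `u` is an element of `Q0`. -/
def IsQ (u : ZFSet.{0}) : Prop :=
  ∃ q ∈ oo, ∃ m ∈ ZFSet.omega, ∃ a, a ⊆ ZFSet.prod m m ∧ u = pair q (pair m a)

/-- The element `u` of `Q0` is in the set `a(r, q)`, for `v = (r, q)`. -/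
def Hit (u v : ZFSet.{0}) : Prop :=
  ∃ q m r, u = pair q (pair m (r ∩ ZFSet.prod m m)) ∧ v = pair r q

/-- `(c, (s, F))` is a condition. -/
def Cd (V : Set ZFSet.{0}) (c s F : ZFSet.{0}) : Prop :=
  Pc V c ∧ Fi V s ∧ Fi V F ∧ (∀ u ∈ s, IsQ u) ∧
    ∀ v ∈ F, ∃ r ∈ PW V, ∃ q ∈ oo, v = pair r q ∧ ∃ j ∈ ln c, Cod r (rs c j) ∧
      ∃ X, pair j X ∈ c ∧ q ∈ X

/-- `(c', (s', F'))` is stronger than `(c, (s, F))`. -/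
def Stronger (c s F c' s' F' : ZFSet.{0}) : Prop :=
  c ⊆ c' ∧ s ⊆ s' ∧ F ⊆ F' ∧ ∀ u ∈ s', u ∉ s → ∀ v ∈ F, ¬ Hit u v

/-- The real `z` codes the condition `(c, (s, F))`. -/
def Cz (V : Set ZFSet.{0}) (z : ℕ → ℕ) (c s F : ZFSet.{0}) : Prop :=
  z ∈ Reals V ∧ Cod (rw' z) (pair c (pair s F)) ∧ Cd V c s F

/-- The forcing `P`. -/
noncomputable def Pf (V : Set ZFSet.{0}) : ZFSet.{0} :=
  ZFSet.sep (fun p => ∃ z c s F, p = rl z ∧ Cz V z c s F) (ZFSet.powerset oo)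

/-- The order of `P`. -/
noncomputable def Lf (V : Set ZFSet.{0}) : ZFSet.{0} :=
  ZFSet.sep (fun p => ∃ z c s F z' c' s' F', p = pair (rl z') (rl z) ∧ Cz V z c s F ∧
    Cz V z' c' s' F' ∧ Stronger c s F c' s' F')
    (ZFSet.prod (ZFSet.powerset oo) (ZFSet.powerset oo))

/-- In the class `W` the sequence `C` and the set `s` are as in the generic extension of `V`. -/
structure Gen2 (V : Set ZFSet.{0}) (C s : ZFSet.{0}) : Prop where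
  func : ∃ o, (∀ z, z ∈ o ↔ HCt V z ∧ z.IsOrdinal) ∧ ZFSet.IsFunc o (PW V) C
  onto : ∀ r ∈ PW V, ∃ j, pair j r ∈ C
  pc : ∀ j, HCt V j → j.IsOrdinal → Pc V (rs C j)
  q : ∀ u ∈ s, IsQ u
  dec : ∀ j X, pair j X ∈ C → ∀ r ∈ PW V, Cod r (rs C j) → ∀ q ∈ oo,
    (q ∈ X ↔ ∃ m ∈ ZFSet.omega, ∀ k ∈ ZFSet.omega, m ∈ k →
      pair q (pair k (r ∩ ZFSet.prod k k)) ∉ s)

end Pool.Agent.H637_NO
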