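import Pool.Agent.H637_NO.LZF
import Pool.Agent.R597.Univ

/-!
# New orbits: the extension lemma for the fast sequences, in the universe
-/

set_option autoImplicit false
set_option linter.unreachableTactic false
set_option linter.unusedTactic false

namespace Pool.Agent.H637_NO

open Pool.Agent.W868 Pool.Agent.W868.GM
open ZFSet (pair)

namespace EX

/-! ### Countable sets -/

theorem inj_of_countable {x : ZFSet.{0}} (h : {z | z ∈ x}.Countable) :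
    Inj Set.univ x ZFSet.omega := by
  have h1 : x.card ≤ (ZFSet.omega : ZFSet.{0}).card := by
    rw [card_omega, ← Cardinal.lift_le.{1}, ← ZFSet.cardinalMk_coe_sort, Cardinal.lift_aleph0]
    exact Cardinal.mk_le_aleph0_iff.2 h.to_subtype
  obtain ⟨f, hf⟩ := exists_isInj h1
  exact ⟨f, trivial, hf⟩

theorem countable_of_inj {x : ZFSet.{0}} {M : Set ZFSet.{0}} (h : Inj M x ZFSet.omega) :
    {z | z ∈ x}.Countable := by
  obtain ⟨f, -, hf⟩ := h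
  have h1 := card_le_of_isInj hf
  rw [card_omega, ← Cardinal.lift_le.{1}, ← ZFSet.cardinalMk_coe_sort, Cardinal.lift_aleph0] at h1
  exact Set.countable_coe_iff.1 (Cardinal.mk_le_aleph0_iff.1 h1)

theorem hct_of (hHC2 : S_HC2) {x : ZFSet.{0}} (h : {z | z ∈ x}.Countable)
    (h' : ∀ y ∈ x, HCt Set.univ y) : HCt Set.univ x :=
  hHC2.2 _ Pool.Agent.R597.isZFC_univ x trivial h' (inj_of_countable h)

theorem hct_countable (hHC2 : S_HC2) {x : ZFSet.{0}} (h : HCt Set.univ x) :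
    {z | z ∈ x}.Countable :=
  countable_of_inj ((hHC2.1 _ Pool.Agent.R597.isZFC_univ.toIsZF).2.2.1 x h).2.1

/-- Countable transitive sets are hereditarily countable. -/
theorem hct_tra {x : ZFSet.{0}} (h : {z | z ∈ x}.Countable) (hT : Tra x) :
    HCt Set.univ x := by
  refine ⟨insert x x, trivial, ?_, ZFSet.mem_insert _ _, inj_of_countable ?_⟩
  · intro y hy z hz
    rcases ZFSet.mem_insert_iff.1 hy with rfl | hy
    · exact ZFSet.mem_insert_of_mem _ hz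
    · exact ZFSet.mem_insert_of_mem _ (hT y hy z hz)
  · refine ((Set.countable_singleton x).union h).mono fun z hz => ?_
    exact ZFSet.mem_insert_iff.1 hz

theorem hct_mem {M : Set ZFSet.{0}} (hM : IsZF M) {x : ZFSet.{0}} (h : HCt M x) : x ∈ M := by
  obtain ⟨T, hT, -, h1, -⟩ := h
  exact hM.trans _ hT _ h1

theorem exists_Z (A : Set ZFSet.{0}) (hA : A.Countable) : ∃ π : Pkg Unit, A ⊆ π.Z := by
  obtain ⟨π, h1, -⟩ := exists_pkg' (P := Unit) (check '' A) (hA.image _) ()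
  exact ⟨π, fun x hx => h1 ⟨x, hx, rfl⟩⟩

theorem countable_Z (π : Pkg Unit) : π.Z.Countable :=
  π.cnt.preimage check_injective

/-! ### Bounded definitions -/

/-- `Clp r p`, with `w` for the set of the natural numbers. -/
def Clp3 (w r p : ZFSet.{0}) : Prop :=
  (∀ q ∈ p, ∃ n x, q = pair n x ∧ n ∈ w ∧
    (∀ y ∈ x, ∃ m ∈ w, pair m n ∈ r ∧ pair m y ∈ p) ∧
    ∀ m ∈ w, pair m n ∈ r → ∃ y ∈ x, pair m y ∈ p) ∧
  ∀ n ∈ w, ∃ q ∈ p, ∃ a x, q = pair a x ∧ a = n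

theorem clp3_iff {r p : ZFSet.{0}} : Clp3 ZFSet.omega r p ↔ Clp r p := by
  refine and_congr Iff.rfl (forall₂_congr fun n _ => ?_)
  constructor
  · rintro ⟨q, hq, a, x, rfl, rfl⟩
    exact ⟨x, hq⟩
  · rintro ⟨x, hx⟩
    exact ⟨_, hx, n, x, rfl, rfl⟩

theorem d0_clp3 : D0 fun v : Fin 3 → ZFSet.{0} => Clp3 (v 0) (v 1) (v 2) := by
  unfold Clp3
  (repeat' first
      | assumption
      | exact D0v.proj _
      | apply D0.and | apply D0.expair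
      | apply D0.bex | apply D0.ball | apply D0.imp
      | apply D0.pairMem | apply D0.eq | apply D0.mem)

/-- The sequence `c` has the length `l`. -/
def Len (c l : ZFSet.{0}) : Prop :=
  (∀ q ∈ c, ∃ a x, q = pair a x ∧ a ∈ l) ∧ ∀ n ∈ l, ∃ q ∈ c, ∃ a x, q = pair a x ∧ a = n

theorem d0_len : D0 fun v : Fin 2 → ZFSet.{0} => Len (v 0) (v 1) := by
  unfold Len
  (repeat' first
      | assumption
      | exact D0v.proj _
      | apply D0.and | apply D0.expair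
      | apply D0.bex | apply D0.ball | apply D0.imp
      | apply D0.pairMem | apply D0.eq | apply D0.mem)

theorem Len.ln_eq {c l : ZFSet.{0}} (h : Len c l) : ln c = l := by
  ext n
  rw [ln, mem_im]
  constructor
  · rintro ⟨q, hq, rfl⟩
    obtain ⟨a, x, rfl, h1⟩ := h.1 q hq
    rwa [fs_pair]
  · intro hn
    obtain ⟨q, hq, a, x, rfl, rfl⟩ := h.2 n hn
    exact ⟨_, hq, (fs_pair _ _).symm⟩

theorem len_of_func {c l y : ZFSet.{0}} (h : ZFSet.IsFunc l y c) : Len c l := by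
  constructor
  · intro q hq
    obtain ⟨a, ha, x, -, rfl⟩ := ZFSet.mem_prod.1 (h.1 hq)
    exact ⟨a, x, rfl, ha⟩
  · intro n hn
    obtain ⟨x, -, hx⟩ := fun_exists h hn
    exact ⟨_, hx, n, x, rfl, rfl⟩

/-! ### The graph of the decoding -/

theorem G_mem (hHC : S_HC) {N : Set ZFSet.{0}} (hN : IsZF N) {H δ G : ZFSet.{0}} (hH : H ∈ N)
    (hδ : δ ∈ N) (hHs : ∀ r ∈ H, r ⊆ oo)
    (hG : ∀ q, q ∈ G ↔ ∃ r ∈ H, ∃ o ∈ δ, q = pair r o ∧ Cod r o) : G ∈ N := by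
  have hB := hN.base
  have hω := hN.infinity
  have h0 := hN.empty_mem
  have hd : Dfn N N fun w : Fin 2 → ZFSet.{0} =>
      ∃ p ∈ N, Clp3 ZFSet.omega (w 0) p ∧ pair ∅ (w 1) ∈ p := by
    apply Dfn.ex
    apply Dfn.and
    · exact Dfn.comp3 (Q := Clp3) (d0_clp3.dfn hN.trans) (DfnF.const hω) (DfnF.proj 1)
        (DfnF.proj 0)
    · exact Dfn.mem (hB.pair' (DfnF.const h0) (DfnF.proj 2)) (DfnF.proj 0)
  obtain ⟨f, hf, h1, h2⟩ := hN.rel_mem hH hδ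
    (Q := fun r o => ∃ p ∈ N, Clp3 ZFSet.omega r p ∧ pair ∅ o ∈ p) hd
  have h3 : G = f := by
    ext q
    rw [hG]
    constructor
    · rintro ⟨r, hr, o, ho, rfl, p, hp, hp'⟩
      exact (h2 r o).2 ⟨hr, ho, p, hct_mem hN ((hHC N hN).2.2.1 r (hN.trans _ hH _ hr)
        (hHs r hr) p hp), clp3_iff.2 hp, hp'⟩
    · intro hq
      obtain ⟨r, hr, o, ho, rfl⟩ := ZFSet.mem_prod.1 (h1 hq)
      obtain ⟨-, -, p, -, hp, hp'⟩ := (h2 r o).1 hq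
      exact ⟨r, hr, o, ho, rfl, p, clp3_iff.1 hp, hp'⟩
  exact h3 ▸ hf

theorem mem_oo {q : ZFSet.{0}} : q ∈ oo ↔ ∃ m ∈ ZFSet.omega, ∃ n ∈ ZFSet.omega, q = pair m n :=
  ZFSet.mem_prod

theorem tra_SB {H : ZFSet.{0}} (hH : ∀ r ∈ H, r ⊆ oo) : Tra (SB H) := by
  have hT : Tra T0b := by
    intro x hx y hy
    rw [T0b, ZFSet.mem_union, ZFSet.mem_union] at hx
    rcases hx with hx | hx | hx
    · rw [T0b, ZFSet.mem_union]
      exact Or.inl (isOrdinal_omega.isTransitive.mem_trans hy hx)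
    · obtain ⟨p, hp, rfl⟩ := mem_im.1 hx
      obtain ⟨m, hm, n, hn, rfl⟩ := mem_oo.1 hp
      rw [fs_pair, sn_pair, ZFSet.mem_pair] at hy
      rw [T0b, ZFSet.mem_union]
      rcases hy with rfl | rfl
      · exact Or.inl hm
      · exact Or.inl hn
    · obtain ⟨m, hm, n, hn, rfl⟩ := mem_oo.1 hx
      rw [T0b, ZFSet.mem_union, ZFSet.mem_union]
      refine Or.inr (Or.inl (mem_im.2 ?_))
      rw [pair, ZFSet.mem_pair] at hy
      rcases hy with rfl | rfl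
      · exact ⟨pair m m, mem_oo.2 ⟨m, hm, m, hm, rfl⟩, by
          rw [fs_pair, sn_pair, ZFSet.pair_eq_singleton]⟩
      · exact ⟨pair m n, mem_oo.2 ⟨m, hm, n, hn, rfl⟩, by rw [fs_pair, sn_pair]⟩
  intro x hx y hy
  rw [SB, ZFSet.mem_union] at hx ⊢
  rcases hx with hx | hx
  · exact Or.inl (hT x hx y hy)
  · rcases ZFSet.mem_insert_iff.1 hx with rfl | hx
    · exact Or.inr (ZFSet.mem_insert_of_mem _ hy)
    · refine Or.inl ?_
      rw [T0b, ZFSet.mem_union, ZFSet.mem_union]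
      exact Or.inr (Or.inr (hH x hx hy))

theorem H_mem_SB {H : ZFSet.{0}} : H ∈ SB H := by
  rw [SB, ZFSet.mem_union]
  exact Or.inr (ZFSet.mem_insert _ _)

theorem countable_union {x y : ZFSet.{0}} (hx : {z | z ∈ x}.Countable)
    (hy : {z | z ∈ y}.Countable) : {z | z ∈ x ∪ y}.Countable := by
  refine (hx.union hy).mono fun z hz => ?_
  exact ZFSet.mem_union.1 hz

theorem countable_prod {x y : ZFSet.{0}} (hx : {z | z ∈ x}.Countable)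
    (hy : {z | z ∈ y}.Countable) : {z | z ∈ ZFSet.prod x y}.Countable := by
  refine ((hx.prod hy).image fun p : ZFSet.{0} × ZFSet.{0} => pair p.1 p.2).mono fun z hz => ?_
  obtain ⟨a, ha, b, hb, rfl⟩ := ZFSet.mem_prod.1 hz
  exact ⟨(a, b), ⟨ha, hb⟩, rfl⟩

theorem countable_omega : {z | z ∈ (ZFSet.omega : ZFSet.{0})}.Countable := by
  refine (Set.countable_range nat).mono fun z hz => ?_
  obtain ⟨n, rfl⟩ := mem_omega_iff.1 hz
  exact ⟨n, rfl⟩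

theorem countable_im {h : ZFSet.{0} → ZFSet.{0}} {x : ZFSet.{0}} (hx : {z | z ∈ x}.Countable) :
    {z | z ∈ im h x}.Countable := by
  refine (hx.image h).mono fun z hz => ?_
  obtain ⟨p, hp, rfl⟩ := mem_im.1 hz
  exact ⟨p, hp, rfl⟩

/-- The set `SB H` is countable, for countable sets `H`. -/
theorem hct_SB (hHC2 : S_HC2) {H : ZFSet.{0}} (hH : ∀ r ∈ H, r ⊆ oo)
    (hHc : {z | z ∈ H}.Countable) : HCt Set.univ H ∧ HCt Set.univ (SB H) := by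
  have hU := Pool.Agent.R597.isZFC_univ.toIsZF
  have h2 := hHC2.1 _ hU
  have hoo := h2.2.2.2.2
  have hω := h2.2.2.2.1
  have h1 : HCt Set.univ H := hct_of hHC2 hHc fun y hy => h2.2.1 _ _ hoo trivial (hH y hy)
  refine ⟨h1, ?_⟩
  have h3 : HCt Set.univ T0b := by
    rw [T0b]
    refine (h2.1 _ _ hω ((h2.1 _ _ ?_ hoo).2.2.2)).2.2.2
    refine hct_of hHC2 (countable_im (countable_prod countable_omega countable_omega)) ?_
    intro y hy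
    obtain ⟨p, hp, rfl⟩ := mem_im.1 hy
    obtain ⟨m, hm, n, hn, rfl⟩ := mem_oo.1 hp
    rw [fs_pair, sn_pair]
    have h4 := (h2.2.2.1 _ hω).2.2
    exact (h2.1 _ _ (h4 m hm) (h4 n hn)).2.1
  exact (h2.1 _ _ h3 (h2.1 _ _ h1 h1).2.2.1).2.2.2

/-- The level at which the graph of the decoding appears. -/
theorem exists_eta (hHC : S_HC) (hHC2 : S_HC2) (hTR : S_TR) {δ H : ZFSet.{0}}
    (hδ : δ.IsOrdinal) (hδc : HCt Set.univ δ) (hH : ∀ r ∈ H, r ⊆ oo)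
    (hHc : {z | z ∈ H}.Countable) :
    ∃ G η, (∀ q, q ∈ G ↔ ∃ r ∈ H, ∃ o ∈ δ, q = pair r o ∧ Cod r o) ∧ HCt Set.univ η ∧
      η.IsOrdinal ∧ G ∈ Lb (SB H) η ∧ Fu G ∧
      ∀ α ∈ η, δ ∈ α → ¬ IsZF {x | x ∈ Lb (SB H) α} := by
  have hU := Pool.Agent.R597.isZFC_univ.toIsZF
  have h2 := hHC2.1 _ hU
  obtain ⟨hHh, hSBh⟩ := hct_SB hHC2 hH hHc
  have hTra := tra_SB hH
  obtain ⟨G, hG⟩ : ∃ G : ZFSet.{0}, ∀ q, q ∈ G ↔ ∃ r ∈ H, ∃ o ∈ δ, q = pair r o ∧ Cod r o := by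
    refine ⟨ZFSet.sep (fun q => ∃ r ∈ H, ∃ o ∈ δ, q = pair r o ∧ Cod r o) (ZFSet.prod H δ),
      fun q => ?_⟩
    rw [ZFSet.mem_sep]
    refine ⟨fun h => h.2, fun h => ⟨?_, h⟩⟩
    obtain ⟨r, hr, o, ho, rfl, -⟩ := h
    exact ZFSet.mem_prod.2 ⟨r, hr, o, ho, rfl⟩
  have hGh : HCt Set.univ G := by
    refine hct_of hHC2 ((countable_prod hHc (hct_countable hHC2 hδc)).mono fun q hq => ?_) ?_
    · obtain ⟨r, hr, o, ho, rfl, -⟩ := (hG q).1 hq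
      exact ZFSet.mem_prod.2 ⟨r, hr, o, ho, rfl⟩
    · intro q hq
      obtain ⟨r, hr, o, ho, rfl, -⟩ := (hG q).1 hq
      exact (h2.1 _ _ ((h2.2.2.1 _ hHh).2.2 r hr) ((h2.2.2.1 _ hδc).2.2 o ho)).1
  -- the least level
  obtain ⟨hL1, hL2, -, hL4⟩ := lZF Set.univ (SB H) hU trivial hTra
  have hGL : G ∈ LCb Set.univ (SB H) :=
    G_mem hHC hL1 (hL1.trans _ hL2 _ H_mem_SB) (hL4 δ trivial hδ).1 hH hG
  obtain ⟨ξ, -, hξ, hGξ⟩ := hGL
  obtain ⟨-, hη, hGη⟩ := lo_spec (M := Set.univ) (P := fun η => G ∈ Lb (SB H) η)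
    ⟨ξ, trivial, hξ, hGξ⟩
  have hmin : ∀ α : ZFSet.{0}, α.IsOrdinal → G ∈ Lb (SB H) α →
      α ∉ lo Set.univ (fun η => G ∈ Lb (SB H) η) := fun α h3 h4 =>
    lo_min (M := Set.univ) (P := fun η => G ∈ Lb (SB H) η) trivial h3 h4
  have hsub : ∀ α : ZFSet.{0}, α.IsOrdinal → G ∈ Lb (SB H) α →
      lo Set.univ (fun η => G ∈ Lb (SB H) η) ⊆ α := fun α h3 h4 =>
    lo_subset (M := Set.univ) (P := fun η => G ∈ Lb (SB H) η) trivial h3 h4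
  refine ⟨G, lo Set.univ (fun η => G ∈ Lb (SB H) η), hG, ?_, hη, hGη, ?_, ?_⟩
  · -- the level is countable
    obtain ⟨π, hπ⟩ := exists_Z {H, G, lo Set.univ (fun η => G ∈ Lb (SB H) η)}
      (Set.toFinite _).countable
    obtain ⟨-, t2, -, t4, -, t6⟩ := hTR π
    have hHZ : H ∈ π.Z := hπ (by simp)
    have hGZ : G ∈ π.Z := hπ (by simp)
    have hηZ : lo Set.univ (fun η => G ∈ Lb (SB H) η) ∈ π.Z := hπ (by simp)
    have hSZ : SB H ∈ π.Z := (t6 H hHZ).1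
    obtain ⟨h3, h4⟩ := t2 _ hSZ hTra _ hηZ hη
    rw [(t4 _ hSZ hSBh).1] at h4
    have h5 := (π.hat_mem_hat hGZ h3).2 hGη
    rw [(t4 _ hGZ hGh).1, h4] at h5
    have h6 := π.hat_isOrdinal hη
    have h7 := hsub _ h6 h5
    refine h2.2.1 (π.hat (lo Set.univ (fun η => G ∈ Lb (SB H) η))) _ ?_ trivial h7
    refine hct_tra ?_ fun y hy z hz => h6.mem_trans hz hy
    refine ((countable_Z π).image π.hat).mono fun z hz => ?_
    obtain ⟨y, -, hy, rfl⟩ := π.mem_hat.1 hz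
    exact ⟨y, hy, rfl⟩
  · intro q hq
    obtain ⟨r, hr, o, ho, rfl, h3⟩ := (hG q).1 hq
    refine ⟨r, o, rfl, fun g' hg' => ?_⟩
    obtain ⟨r', hr', o', ho', h4, h5⟩ := (hG _).1 hg'
    obtain ⟨rfl, rfl⟩ := ZFSet.pair_inj.1 h4
    exact (hHC _ hU).2.2.2.2 _ _ _ h5 h3
  · intro α hα hδα hZ
    have hαo := hη.mem hα
    have h0 : (∅ : ZFSet.{0}) ∈ α := by
      rcases hαo.mem_trichotomous ZFSet.isOrdinal_empty with h | rfl | h
      · exact absurd h (ZFSet.notMem_empty _)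
      · exact absurd hδα (ZFSet.notMem_empty _)
      · exact h
    have h3 := self_mem_Lb (S := SB H) h0
    have h4 := (ord_level hTra hαo hZ h3 hδ).2 hδα
    exact hmin α hαo (G_mem hHC hZ (hZ.trans _ h3 _ H_mem_SB) h4 hH hG) hα

/-! ### Elementarity -/

/-- The set of the fast sequences. -/
theorem exists_p0 (hHC : S_HC) : ∃ p : ZFSet.{0}, ∀ c, c ∈ p ↔ Pc Set.univ c := by
  obtain ⟨h, -, hh⟩ := (hHC Set.univ Pool.Agent.R597.isZFC_univ.toIsZF).1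
  refine ⟨ZFSet.sep (fun c => Pc Set.univ c) h, fun c => ?_⟩
  rw [ZFSet.mem_sep]
  exact ⟨fun h1 => h1.2, fun h1 => ⟨(hh c).2 h1.1, h1⟩⟩

theorem code_Z (hHC : S_HC) (hTR : S_TR) (π : Pkg Unit) {a : ZFSet.{0}} (ha : a ∈ π.Z)
    (hac : HCt Set.univ a) : ∃ r ∈ PW Set.univ, r ∈ π.Z ∧ Cod r a := by
  have hB := isBase_univ
  have hPZ : PW Set.univ ∈ π.Z := (hTR π).2.2.2.2.1.1
  have hω := π.omega_Z
  have h0 := π.empty_Z
  have hd : Dfn π.Z Set.univ fun w : Fin 1 → ZFSet.{0} => w 0 ∈ PW Set.univ ∧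
      ∃ p ∈ (Set.univ : Set ZFSet.{0}), Clp3 ZFSet.omega (w 0) p ∧ pair ∅ a ∈ p := by
    apply Dfn.and (Dfn.mem (DfnF.proj 0) (DfnF.const' (Set.mem_univ _) hPZ))
    apply Dfn.ex
    apply Dfn.and
    · exact Dfn.comp3 (Q := Clp3) (d0_clp3.dfn hB.trans) (DfnF.const' (Set.mem_univ _) hω) (DfnF.proj 1)
        (DfnF.proj 0)
    · exact Dfn.mem (hB.pair' (DfnF.const' (Set.mem_univ _) h0) (DfnF.const' (Set.mem_univ _) ha)) (DfnF.proj 0)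
  obtain ⟨r, hr, p, hp, hp'⟩ := (hHC _ Pool.Agent.R597.isZFC_univ.toIsZF).2.1 a hac
  obtain ⟨r', hr', h1, p', -, h2, h3⟩ := π.exists_Z (Q := fun r => r ∈ PW Set.univ ∧
      ∃ p ∈ (Set.univ : Set ZFSet.{0}), Clp3 ZFSet.omega r p ∧ pair ∅ a ∈ p) hd
    ⟨r, hr, p, trivial, clp3_iff.2 hp, hp'⟩
  exact ⟨r', h1, hr', p', clp3_iff.1 h2, h3⟩

theorem ext_Z (π : Pkg Unit) {p0 c l u v : ZFSet.{0}} (hp0 : ∀ c, c ∈ p0 ↔ Pc Set.univ c)
    (hp0Z : p0 ∈ π.Z) (hc : c ∈ π.Z) (hl : l ∈ π.Z) (hu : u ∈ π.Z) (hv : v ∈ π.Z)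
    (h : ∃ c', Pc Set.univ c' ∧ c ⊆ c' ∧ u ∈ c' ∧ v ∈ c' ∧ Len c' l) :
    ∃ c' ∈ π.Z, Pc Set.univ c' ∧ c ⊆ c' ∧ u ∈ c' ∧ v ∈ c' ∧ ln c' = l := by
  have hB := isBase_univ
  have hd : Dfn π.Z Set.univ fun w : Fin 1 → ZFSet.{0} => w 0 ∈ p0 ∧ c ⊆ w 0 ∧ u ∈ w 0 ∧
      v ∈ w 0 ∧ Len (w 0) l := by
    apply Dfn.and (Dfn.mem (DfnF.proj 0) (DfnF.const' (Set.mem_univ _) hp0Z))
    apply Dfn.and (hB.subset' (DfnF.const' (Set.mem_univ _) hc) (DfnF.proj 0))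
    apply Dfn.and (Dfn.mem (DfnF.const' (Set.mem_univ _) hu) (DfnF.proj 0))
    apply Dfn.and (Dfn.mem (DfnF.const' (Set.mem_univ _) hv) (DfnF.proj 0))
    exact Dfn.comp2 (Q := Len) (d0_len.dfn hB.trans) (DfnF.proj 0) (DfnF.const' (Set.mem_univ _) hl)
  obtain ⟨c1, h1, h2, h3, h4, h5⟩ := h
  obtain ⟨c', hc', h6, h7, h8, h9, h10⟩ := π.exists_Z (Q := fun c' => c' ∈ p0 ∧ c ⊆ c' ∧
      u ∈ c' ∧ v ∈ c' ∧ Len c' l) hd ⟨c1, (hp0 _).2 h1, h2, h3, h4, h5⟩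
  exact ⟨c', hc', (hp0 _).1 h6, h7, h8, h9, h10.ln_eq⟩

theorem pow_univ {r : ZFSet.{0}} : r ∈ PW Set.univ ↔ r ⊆ oo := by
  rw [PW, ZFSet.mem_sep, ZFSet.mem_powerset]
  exact ⟨fun h => h.1, fun h => ⟨h, trivial⟩⟩

theorem mem_rg {c l j r : ZFSet.{0}} (h : pair j r ∈ c) (hj : j ∈ l) : r ∈ rg c l := by
  rw [rg, mem_im]
  refine ⟨pair j r, ?_, (sn_pair _ _).symm⟩
  rw [rs, ZFSet.mem_sep, fs_pair]
  exact ⟨h, hj⟩

/-- The limit case. -/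
theorem lim_case (hHC : S_HC) (hHC2 : S_HC2) (hPC : S_PC) (hFUS : S_FUS) (hTR : S_TR)
    {δ : ZFSet.{0}} (hδ : Lim δ) (hδc : HCt Set.univ δ)
    (ih : ∀ l ∈ δ, ∀ c, Pc Set.univ c → ln c ⊆ l → ∃ c', Pc Set.univ c' ∧ c ⊆ c' ∧ ln c' = l)
    {c₀ : ZFSet.{0}} (hc₀ : Pc Set.univ c₀) (hl : ln c₀ ∈ δ) :
    ∃ c, Pc Set.univ c ∧ c₀ ⊆ c ∧ ln c = δ := by
  have hUC := Pool.Agent.R597.isZFC_univ
  have hU := hUC.toIsZF
  have h2 := hHC2.1 _ hU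
  obtain ⟨-, -, pc3, -, pc5, -, -⟩ := hPC _ hU
  obtain ⟨p0, hp0⟩ := exists_p0 hHC
  have hcod := (hHC _ hU).2.2.2.2
  -- the countable elementary submodel
  obtain ⟨π, hπ⟩ := exists_Z {δ, c₀, p0} (Set.toFinite _).countable
  have hδZ : δ ∈ π.Z := hπ (by simp)
  have hcZ : c₀ ∈ π.Z := hπ (by simp)
  have hpZ : p0 ∈ π.Z := hπ (by simp)
  have hZc := countable_Z π
  have t4 := (hTR π).2.2.2.1
  have hsub : ∀ o ∈ δ, o ∈ π.Z := (t4 δ hδZ hδc).2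
  have hoc : ∀ o ∈ δ, HCt Set.univ o := (h2.2.2.1 _ hδc).2.2
  -- the sets
  obtain ⟨H, hH⟩ : ∃ H : ZFSet.{0}, ∀ r, r ∈ H ↔ r ∈ PW Set.univ ∧ r ∈ π.Z :=
    ⟨ZFSet.sep (fun r => r ∈ π.Z) (PW Set.univ), fun r => ZFSet.mem_sep⟩
  obtain ⟨K, hK⟩ : ∃ K : ZFSet.{0}, ∀ c, c ∈ K ↔ Pc Set.univ c ∧ c ∈ π.Z ∧ ln c ∈ δ :=
    ⟨ZFSet.sep (fun c => c ∈ π.Z ∧ ln c ∈ δ) p0, fun c => by rw [ZFSet.mem_sep, hp0]⟩
  obtain ⟨E, hE⟩ : ∃ E : ZFSet.{0}, ∀ h c, pair h c ∈ E ↔ (h ∈ H ∧ c ∈ K) ∧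
      h ∈ rg c (ln c) ∧ ∀ o ∈ δ, Cod h o → o ∈ ln c := by
    refine ⟨ZFSet.sep (fun q => sn q |> fun c => fs q |> fun h => h ∈ rg c (ln c) ∧
      ∀ o ∈ δ, Cod h o → o ∈ ln c) (ZFSet.prod H K), fun h c => ?_⟩
    rw [ZFSet.mem_sep, ZFSet.pair_mem_prod, fs_pair, sn_pair]
  have hHc : {z | z ∈ H}.Countable := hZc.mono fun z hz => ((hH z).1 hz).2
  have hKc : {z | z ∈ K}.Countable := hZc.mono fun z hz => ((hK z).1 hz).2.1
  have hHs : ∀ r ∈ H, r ⊆ oo := fun r hr => pow_univ.1 ((hH r).1 hr).1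
  obtain ⟨G, η, hG, hηc, hη, hGη, hFu, hmin⟩ := exists_eta hHC hHC2 hTR hδ.1 hδc hHs hHc
  have hcode : ∀ o ∈ δ, ∃ r ∈ H, Cod r o := by
    intro o ho
    obtain ⟨r, h3, h4, h5⟩ := code_Z hHC hTR π (hsub o ho) (hoc o ho)
    exact ⟨r, (hH r).2 ⟨h3, h4⟩, h5⟩
  have hscδ : ∀ o ∈ δ, sc o ∈ δ := hδ.2.2
  suffices hs : ∃ c, Pc Set.univ c ∧ ln c = δ ∧ c₀ ⊆ c ∧
      ∀ t ∈ H, ∃ c' ∈ K, c' ⊆ c ∧ pair t c' ∈ E by
    obtain ⟨c, h3, h4, h5, -⟩ := hs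
    exact ⟨c, h3, h5, h4⟩
  refine hFUS Set.univ hUC K H E H G δ η trivial trivial trivial trivial
    trivial (inj_of_countable hHc) (inj_of_countable hKc) (inj_of_countable hHc) hδ hδc ?_ ?_
    ?_ ?_ ?_ ?_ hηc hη hGη hFu hmin c₀ ((hK _).2 ⟨hc₀, hcZ, hl⟩)
  · -- the elements of `K`
    intro c hc
    obtain ⟨h3, h4, h5⟩ := (hK c).1 hc
    refine ⟨h3, h5, fun r hr => ?_⟩
    rw [rg, mem_im] at hr
    obtain ⟨q, hq, rfl⟩ := hr
    have hq' := (ZFSet.mem_sep.1 hq).1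
    have h6 := (t4 c h4 h3.1).2 q hq'
    obtain ⟨j, hj, r, hr, rfl⟩ := ZFSet.mem_prod.1 ((pc3 c h3).2.2.1 hq')
    rw [sn_pair]
    exact (hH r).2 ⟨hr, (π.of_pair_Z h6).2⟩
  · exact fun r hr => ((hH r).1 hr).1
  · -- density
    intro c hc h hh
    obtain ⟨hc1, hc2, hc3⟩ := (hK c).1 hc
    obtain ⟨h3, h4⟩ := (hH h).1 hh
    -- the ordinal that is coded by `h`
    obtain ⟨o, ho, hco⟩ : ∃ o ∈ δ, ∀ o' ∈ δ, Cod h o' → o' = o := by
      by_cases hex : ∃ o ∈ δ, Cod h o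
      · obtain ⟨o, ho, h5⟩ := hex
        exact ⟨o, ho, fun o' _ h6 => hcod _ _ _ h6 h5⟩
      · exact ⟨ln c, hc3, fun o' h5 h6 => absurd ⟨o', h5, h6⟩ hex⟩
    have hμo : (ln c).IsOrdinal := (pc3 c hc1).1
    have hoo' : o.IsOrdinal := hδ.1.mem ho
    have hμs : (sc (ln c)).IsOrdinal := isOrdinal_sc hμo
    obtain ⟨m, hm, hm1, hm2⟩ : ∃ m ∈ δ, sc (ln c) ⊆ m ∧ o ⊆ m := by
      rcases hμs.subset_total hoo' with h5 | h5
      · exact ⟨o, ho, h5, fun _ h => h⟩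
      · exact ⟨_, hscδ _ hc3, fun _ h => h, h5⟩
    have hmo : m.IsOrdinal := hδ.1.mem hm
    obtain ⟨l, hl, hlo, hl1, hl2⟩ : ∃ l ∈ δ, l.IsOrdinal ∧ sc (ln c) ∈ l ∧ o ∈ l := by
      refine ⟨sc m, hscδ m hm, isOrdinal_sc hmo, ?_, ?_⟩
      · exact ZFSet.mem_insert_iff.2 ((ZFSet.IsOrdinal.subset_iff_eq_or_mem hμs hmo).1 hm1)
      · exact ZFSet.mem_insert_iff.2 ((ZFSet.IsOrdinal.subset_iff_eq_or_mem hoo' hmo).1 hm2)
    obtain ⟨r, hr, hrl⟩ := hcode l hl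
    have hr' := (hH r).1 hr
    obtain ⟨h5, h6, h7⟩ := pc5 c hc1 r hr'.1
    obtain ⟨h8, h9, h10⟩ := pc5 _ h5 h h3
    obtain ⟨c1, h11, h12, h13⟩ := ih l hl _ h8 (by
      rw [h9, h6]
      intro z hz
      rcases ZFSet.mem_insert_iff.1 hz with rfl | hz
      · exact hl1
      · exact hlo.mem_trans hz hl1)
    obtain ⟨c', h14, h15, h16, h17, h18, h19⟩ := ext_Z π (u := pair (ln c) r)
      (v := pair (sc (ln c)) h) hp0 hpZ hc2 (hsub l hl) (π.pair_mem_Z (hsub _ hc3) hr'.2)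
      (π.pair_mem_Z (hsub _ (hscδ _ hc3)) h4) ⟨c1, h11, fun z hz => h12 (h10 (h7 hz)),
        h12 (h10 (ZFSet.mem_insert _ _)), h12 (by
          rw [ad, h6]
          exact ZFSet.mem_insert _ _), by
        have h20 := len_of_func (pc3 _ h11).2.2
        rwa [h13] at h20⟩
    have hK' : c' ∈ K := (hK c').2 ⟨h15, h14, h19 ▸ hl⟩
    refine ⟨c', hK', r, hr, l, hl, h16, h17, (hG _).2 ⟨r, hr, l, hl, rfl, hrl⟩,
      fun z hz => h19 ▸ hz, (hE _ _).2 ⟨⟨hh, hK'⟩, mem_rg h18 (h19 ▸ hl1), fun o' ho' h20 => ?_⟩⟩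
    rw [h19, hco o' ho' h20]
    exact hl2
  · -- the sequence `c'` contains `h`
    intro h hh
    exact ⟨h, hh, fun c' _ h3 => ((hE _ _).1 h3).2.1⟩
  · intro o ho
    obtain ⟨r, hr, h3⟩ := hcode o ho
    exact ⟨r, hr, fun c' _ h4 => ((hE _ _).1 h4).2.2 o ho h3⟩
  · intro o ho
    obtain ⟨r, hr, p, h3, h4⟩ := hcode o ho
    exact ⟨r, hr, p, h3, ∅, ZFSet.omega_zero, h4⟩

end EX

open EX in
/-- The extension lemma in the universe. -/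
theorem eXT : S_HC → S_HC2 → S_RW → S_PC → S_CT → S_FUS → S_TR → S_EXT := by
  intro hHC hHC2 _ hPC _ hFUS hTR
  have hU := Pool.Agent.R597.isZFC_univ.toIsZF
  have h2 := hHC2.1 _ hU
  obtain ⟨-, -, pc3, -, pc5, -, -⟩ := hPC _ hU
  have main : ∀ δ : ZFSet.{0}, δ.IsOrdinal → HCt Set.univ δ → ∀ c, Pc Set.univ c → ln c ⊆ δ →
      ∃ c', Pc Set.univ c' ∧ c ⊆ c' ∧ ln c' = δ := by
    intro δ
    induction δ using ZFSet.inductionOn with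
    | _ δ ih =>
    intro hδ hδc c hc hcδ
    have hco := (pc3 c hc).1
    have hmem : ∀ o ∈ δ, HCt Set.univ o := (h2.2.2.1 _ hδc).2.2
    rcases (ZFSet.IsOrdinal.subset_iff_eq_or_mem hco hδ).1 hcδ with h | h
    · exact ⟨c, hc, fun _ h => h, h⟩
    by_cases hs : ∃ μ ∈ δ, sc μ ∉ δ
    · obtain ⟨μ, hμ, hμ'⟩ := hs
      have hμo := hδ.mem hμ
      have h3 : δ = sc μ := by
        rcases hδ.mem_trichotomous (isOrdinal_sc hμo) with h4 | h4 | h4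
        · rcases ZFSet.mem_insert_iff.1 h4 with rfl | h5
          · exact absurd hμ (ZFSet.mem_irrefl _)
          · exact absurd hμ (ZFSet.mem_asymm h5)
        · exact h4
        · exact absurd h4 hμ'
      have h4 : ln c ⊆ μ := by
        rw [h3] at h
        rcases ZFSet.mem_insert_iff.1 h with h5 | h5
        · exact h5 ▸ fun _ h => h
        · exact fun z hz => hμo.mem_trans hz h5
      obtain ⟨c1, h5, h6, h7⟩ := ih μ hμ hμo (hmem μ hμ) c hc h4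
      obtain ⟨h8, h9, h10⟩ := pc5 c1 h5 ∅ (pow_univ.2 fun z hz =>
        absurd hz (ZFSet.notMem_empty z))
      exact ⟨_, h8, fun z hz => h10 (h6 hz), by rw [h9, h7, h3]⟩
    · push Not at hs
      have hLim : Lim δ := ⟨hδ, fun h0 => ZFSet.notMem_empty _ (h0 ▸ h), hs⟩
      exact lim_case hHC hHC2 hPC hFUS hTR hLim hδc (fun l hl c hc h3 =>
        ih l hl (hδ.mem hl) (hmem l hl) c hc h3) hc h
  intro c hc ζ hζc hζ
  obtain ⟨hco, hcc, -⟩ := pc3 c hc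
  have h3 : HCt Set.univ (sc (ζ ∪ ln c)) := by
    have h4 := (h2.1 _ _ hζc hcc).2.2.2
    exact (h2.1 _ _ h4 h4).2.2.1
  obtain ⟨c', h4, h5, h6⟩ := main (sc (ζ ∪ ln c)) (isOrdinal_sc (isOrdinal_union hζ hco)) h3 c hc
    fun z hz => ZFSet.mem_insert_of_mem _ (ZFSet.mem_union.2 (Or.inr hz))
  refine ⟨c', h4, h5, ?_⟩
  rw [h6]
  refine ZFSet.mem_insert_iff.2 ((ZFSet.IsOrdinal.subset_iff_eq_or_mem hζ
    (isOrdinal_union hζ hco)).1 fun z hz => ZFSet.mem_union.2 (Or.inl hz))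

end Pool.Agent.H637_NO
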