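import Pool.Agent.H637_NO.Stm
import Pool.Agent.R597.Fold

/-!
# New orbits: fusion (blueprint Lemma 1.2)
-/

set_option autoImplicit false
set_option linter.unreachableTactic false
set_option linter.unusedTactic false

namespace Pool.Agent.H637_NO

open Pool.Agent.W868 Pool.Agent.W868.GM Pool.Agent.R597
open ZFSet (pair)

namespace FUS

theorem ln_of_func {δ X c : ZFSet.{0}} (h : ZFSet.IsFunc δ X c) : ln c = δ := by
  ext z
  rw [ln, mem_im]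
  constructor
  · rintro ⟨p, hp, rfl⟩
    obtain ⟨a, ha, b, hb, rfl⟩ := ZFSet.mem_prod.1 (h.1 hp)
    rwa [fs_pair]
  · intro hz
    obtain ⟨b, hb, hp⟩ := fun_exists h hz
    exact ⟨_, hp, (fs_pair _ _).symm⟩

theorem mem_rg {c ξ r : ZFSet.{0}} (hc : ∀ p ∈ c, ∃ a b, p = pair a b) :
    r ∈ rg c ξ ↔ ∃ j ∈ ξ, pair j r ∈ c := by
  rw [rg, mem_im]
  constructor
  · rintro ⟨p, hp, rfl⟩
    obtain ⟨h1, h2⟩ := ZFSet.mem_sep.1 hp
    obtain ⟨a, b, rfl⟩ := hc p h1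
    rw [fs_pair] at h2
    exact ⟨a, h2, by rwa [sn_pair]⟩
  · rintro ⟨j, hj, hp⟩
    exact ⟨pair j r, ZFSet.mem_sep.2 ⟨hp, by rwa [fs_pair]⟩, (sn_pair _ _).symm⟩

/-- Witnesses go over to longer sequences. -/
theorem Wt_ext {s c ξ η G z X δ δ' : ZFSet.{0}} (hs : ZFSet.IsFunc δ' X s)
    (hc : ZFSet.IsFunc δ X c) (hsc : s ⊆ c) (hξ : ∀ j ∈ ξ, j ∈ δ') (hξo : ξ.IsOrdinal)
    (h : Wt s ξ η G z) : Wt c ξ η G z := by
  have p1 : ∀ p ∈ s, ∃ a b, p = pair a b := fun p hp => by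
    obtain ⟨a, _, b, _, h⟩ := ZFSet.mem_prod.1 (hs.1 hp)
    exact ⟨a, b, h⟩
  have p2 : ∀ p ∈ c, ∃ a b, p = pair a b := fun p hp => by
    obtain ⟨a, _, b, _, h⟩ := ZFSet.mem_prod.1 (hc.1 hp)
    exact ⟨a, b, h⟩
  have hrg : rg c ξ = rg s ξ := by
    ext r
    rw [mem_rg p1, mem_rg p2]
    constructor
    · rintro ⟨j, hj, hp⟩
      obtain ⟨r', _, hr'⟩ := fun_exists hs (hξ j hj)
      rw [fun_unique hc hp (hsc hr')]
      exact ⟨j, hj, hr'⟩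
    · rintro ⟨j, hj, hp⟩
      exact ⟨j, hj, hsc hp⟩
  obtain ⟨h1, h2, h3, h4, h5, h6, h7⟩ := h
  refine ⟨h1, hrg ▸ h2, h3, h4, ?_, hrg ▸ h6, ?_⟩
  · intro ζ hζ hz
    obtain ⟨j, hj, r, g, h8, h9⟩ := h5 ζ hζ hz
    exact ⟨j, hj, r, g, hsc h8, h9⟩
  · intro ζ hζ
    obtain ⟨j, hj, r, p, h8, h9⟩ := h7 ζ hζ
    exact ⟨j, hj, r, p, hsc h8, h9⟩

end FUS

open FUS

theorem fUS : S_HC → S_HC2 → S_PC → S_FUS := by
  intro _ hHC2 hPC M hM K T E H G δ η hK hT hE hH hG iT iK iH hδ hδc hKp hHM hst tH tδ hcod hη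
    hηo hGη hFu hmin c₀ hc₀
  have hZ := hM.toIsZF
  have hB := hZ.base
  obtain ⟨hδo, hδne, hδl⟩ := hδ
  obtain ⟨-, -, hel, -, -⟩ := hHC2.1 M hZ
  have hcl := hHC2.2 M hM
  obtain ⟨-, -, pc1, -, -, -, -⟩ := hPC M hZ
  have hδM : δ ∈ M := (hel δ hδc).1
  have hω := hZ.infinity
  obtain ⟨f, hf, hfi⟩ := iT
  obtain ⟨ζ₁, hζ₁⟩ : ∃ z, z ∈ δ := by
    by_contra hcon
    push Not at hcon
    exact hδne ((ZFSet.eq_empty δ).2 hcon)
  obtain ⟨t₁, ht₁, -⟩ := tδ ζ₁ hζ₁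
  -- the choice function
  set Q : ZFSet.{0} → ZFSet.{0} → Prop := fun c' y =>
    ∃ r ∈ H, ∃ g ∈ δ, sn y ⊆ c' ∧ pair (ln (sn y)) r ∈ c' ∧ pair r g ∈ G ∧ ln c' ⊆ g ∧
      ∀ t ∈ T, pair t (fs y) ∈ f → pair t c' ∈ E with hQ
  have hdln : ∀ {n : ℕ} {F : (Fin n → ZFSet.{0}) → ZFSet.{0}}, DfnF M M F →
      DfnF M M fun v => ln (F v) := by
    intro n F hF
    exact hZ.im' (h := fun p _ => fs p) hF (hZ.fs' (DfnF.proj 0))
  have hdQ : Dfn M M fun w : Fin 2 → ZFSet.{0} => Q (w 0) (w 1) := by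
    rw [hQ]
    apply hB.bex (DfnF.const hH)
    apply hB.bex (DfnF.const hδM)
    apply Dfn.and
    · exact hB.subset' (hZ.sn' (DfnF.proj 3)) (DfnF.proj 2)
    apply Dfn.and
    · exact Dfn.mem (hB.pair' (hdln (hZ.sn' (DfnF.proj 3))) (DfnF.proj 1)) (DfnF.proj 2)
    apply Dfn.and
    · exact Dfn.mem (hB.pair' (DfnF.proj 1) (DfnF.proj 0)) (DfnF.const hG)
    apply Dfn.and
    · exact hB.subset' (hdln (DfnF.proj 2)) (DfnF.proj 0)
    apply hB.ball (DfnF.const hT)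
    apply Dfn.imp
    · exact Dfn.mem (hB.pair' (DfnF.proj 0) (hZ.fs' (DfnF.proj 4))) (DfnF.const hf)
    · exact Dfn.mem (hB.pair' (DfnF.proj 0) (DfnF.proj 3)) (DfnF.const hE)
  have hdF : DfnF M M fun w : Fin 1 → ZFSet.{0} => ZFSet.sep (fun c' => Q c' (w 0)) K :=
    hZ.sep' (Q := fun c' v => Q c' (v 0)) (DfnF.const hK) hdQ
  obtain ⟨ch, hch, -, hchF⟩ := exists_choice hM (x := ZFSet.prod ZFSet.omega K)
    (hZ.prod_mem hω hK) (F := fun y => ZFSet.sep (fun c' => Q c' y) K) hdF (by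
      intro y hy
      obtain ⟨n, hn, k, hk, rfl⟩ := ZFSet.mem_prod.1 hy
      by_cases ht : ∃ t ∈ T, pair t n ∈ f
      · obtain ⟨t, ht, htn⟩ := ht
        obtain ⟨c', hc', r, hr, g, hg, h1, h2, h3, h4, h5⟩ := hst k hk t ht
        refine ⟨c', ZFSet.mem_sep.2 ⟨hc', r, hr, g, hg, ?_⟩⟩
        rw [sn_pair, fs_pair]
        refine ⟨h1, h2, h3, h4, fun t' _ ht'n => ?_⟩
        rw [hfi.2 t' t n ht'n htn]
        exact h5
      · obtain ⟨c', hc', r, hr, g, hg, h1, h2, h3, h4, -⟩ := hst k hk t₁ ht₁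
        refine ⟨c', ZFSet.mem_sep.2 ⟨hc', r, hr, g, hg, ?_⟩⟩
        rw [sn_pair, fs_pair]
        exact ⟨h1, h2, h3, h4, fun t' ht' ht'n => absurd ⟨t', ht', ht'n⟩ ht⟩)
  -- the sequence
  set s : ℕ → ZFSet.{0} := fun n => Rc ch c₀ (nat n) with hs
  have hs0 : s 0 = c₀ := Rc_zero _ _
  have hsS : ∀ n, s n ∈ K → s (n + 1) ∈ K ∧ Q (s (n + 1)) (pair (nat n) (s n)) := by
    intro n hn
    have h1 := hchF (pair (nat n) (s n)) (ZFSet.pair_mem_prod.2 ⟨nat_mem_omega n, hn⟩)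
    have h2 : s (n + 1) = ap ch (pair (nat n) (s n)) := Rc_succ _ _ _
    rw [← h2] at h1
    exact ZFSet.mem_sep.1 h1
  have hsK : ∀ n, s n ∈ K := by
    intro n
    induction n with
    | zero => rw [hs0]; exact hc₀
    | succ n ih => exact (hsS n ih).1
  have hstep : ∀ n, ∃ r ∈ H, ∃ g ∈ δ, s n ⊆ s (n + 1) ∧ pair (ln (s n)) r ∈ s (n + 1) ∧
      pair r g ∈ G ∧ ln (s (n + 1)) ⊆ g ∧ ∀ t ∈ T, pair t (nat n) ∈ f → pair t (s (n + 1)) ∈ E := by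
    intro n
    obtain ⟨r, hr, g, hg, h1⟩ := (hsS n (hsK n)).2
    rw [sn_pair, fs_pair] at h1
    exact ⟨r, hr, g, hg, h1⟩
  have hsub1 : ∀ n, s n ⊆ s (n + 1) := fun n => by
    obtain ⟨r, hr, g, hg, h1, -⟩ := hstep n
    exact h1
  have hmono : ∀ n m, n ≤ m → s n ⊆ s m := by
    intro n m hnm
    induction hnm with
    | refl => exact fun _ h => h
    | step _ ih => exact fun _ h => hsub1 _ (ih h)
  have hPs : ∀ n, Pc M (s n) := fun n => (hKp _ (hsK n)).1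
  have hfs : ∀ n, ZFSet.IsFunc (ln (s n)) (PW M) (s n) := fun n => (pc1 _ (hPs n)).2.2
  have hlnδ : ∀ n, ln (s n) ∈ δ := fun n => (hKp _ (hsK n)).2.1
  have htask : ∀ t ∈ T, ∃ n, pair t (s (n + 1)) ∈ E := by
    intro t ht
    obtain ⟨b, hb, hp⟩ := fun_exists hfi.1 ht
    obtain ⟨n, rfl⟩ := mem_omega_iff.1 hb
    obtain ⟨r, hr, g, hg, -, -, -, -, h5⟩ := hstep n
    exact ⟨n, h5 t ht hp⟩
  have hcov : ∀ ζ ∈ δ, ∃ n, ζ ∈ ln (s n) := by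
    intro ζ hζ
    obtain ⟨t, ht, h1⟩ := tδ ζ hζ
    obtain ⟨n, hn⟩ := htask t ht
    exact ⟨n + 1, h1 _ (hsK _) hn⟩
  -- the union
  set c : ZFSet.{0} := ZFSet.sUnion (im (Rc ch c₀) ZFSet.omega) with hc
  have hK0 : c₀ ∈ M := hZ.trans _ hK _ hc₀
  have hcM : c ∈ M := hZ.union _ (hZ.im_mem hω (dfn_Rc hZ hch hK0))
  have hmem : ∀ p, p ∈ c ↔ ∃ n, p ∈ s n := by
    intro p
    rw [hc, ZFSet.mem_sUnion]
    constructor
    · rintro ⟨w, hw, hp⟩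
      obtain ⟨z, hz, rfl⟩ := mem_im.1 hw
      obtain ⟨n, rfl⟩ := mem_omega_iff.1 hz
      exact ⟨n, hp⟩
    · rintro ⟨n, hp⟩
      exact ⟨_, mem_im.2 ⟨nat n, nat_mem_omega n, rfl⟩, hp⟩
  have hsc : ∀ n, s n ⊆ c := fun n p hp => (hmem p).2 ⟨n, hp⟩
  have hfc : ZFSet.IsFunc δ (PW M) c := by
    constructor
    · intro p hp
      obtain ⟨n, hn⟩ := (hmem p).1 hp
      obtain ⟨a, ha, b, hb, rfl⟩ := ZFSet.mem_prod.1 ((hfs n).1 hn)
      exact ZFSet.pair_mem_prod.2 ⟨hδo.mem_trans ha (hlnδ n), hb⟩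
    · intro z hz
      obtain ⟨n, hn⟩ := hcov z hz
      obtain ⟨b, hb, hp⟩ := fun_exists (hfs n) hn
      refine ⟨b, hsc n hp, fun b' hb' => ?_⟩
      obtain ⟨m, hm⟩ := (hmem _).1 hb'
      exact fun_unique (hfs (max n m)) (hmono m _ (le_max_right _ _) hm)
        (hmono n _ (le_max_left _ _) hp)
  have hlnc : ln c = δ := ln_of_func hfc
  have hpr : ∀ p ∈ c, ∃ a b, p = pair a b := fun p hp => by
    obtain ⟨a, _, b, _, h⟩ := ZFSet.mem_prod.1 (hfc.1 hp)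
    exact ⟨a, b, h⟩
  have hHCc : HCt M c := by
    refine hcl c hcM ?_ ?_
    · intro y hy
      obtain ⟨n, hn⟩ := (hmem y).1 hy
      exact (hel _ (hPs n).1).2.2 y hn
    · refine Inj.trans hZ hcM hω (y := δ) ?_ (hel δ hδc).2.1
      refine Inj.of_fun hZ hcM hδM (h := fs) (hZ.fs' (DfnF.proj 0)) ?_ ?_
      · intro p hp
        obtain ⟨a, ha, b, _, rfl⟩ := ZFSet.mem_prod.1 (hfc.1 hp)
        rwa [fs_pair]
      · intro p hp q hq h
        obtain ⟨a, ha, b, _, rfl⟩ := ZFSet.mem_prod.1 (hfc.1 hp)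
        obtain ⟨a', ha', b', _, rfl⟩ := ZFSet.mem_prod.1 (hfc.1 hq)
        rw [fs_pair, fs_pair] at h
        subst h
        rw [fun_unique hfc hp hq]
  have hrg : rg c δ = H := by
    ext h
    rw [mem_rg hpr]
    constructor
    · rintro ⟨j, hj, hp⟩
      obtain ⟨n, hn⟩ := (hmem _).1 hp
      refine (hKp _ (hsK n)).2.2 ?_
      rw [mem_rg (fun p hp => hpr p (hsc n hp))]
      exact ⟨j, (ZFSet.pair_mem_prod.1 ((hfs n).1 hn)).1, hn⟩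
    · intro hh
      obtain ⟨t, ht, h1⟩ := tH h hh
      obtain ⟨n, hn⟩ := htask t ht
      have h2 := h1 _ (hsK _) hn
      rw [mem_rg (fun p hp => hpr p (hsc _ hp))] at h2
      obtain ⟨j, hj, hp⟩ := h2
      exact ⟨j, hδo.mem_trans hj (hlnδ _), hsc _ hp⟩
  refine ⟨c, ⟨hHCc, δ, hδo, hfc, ?_⟩, hlnc, hs0 ▸ hsc 0, ?_⟩
  · intro ξ hξ hlim
    rcases ZFSet.mem_insert_iff.1 hξ with rfl | hξ
    · refine ⟨η, G, ln c₀, hη, hηo, hrg ▸ hGη, hFu, hs0 ▸ hlnδ 0, ?_, hrg ▸ hmin, ?_⟩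
      · intro ζ hζ h0
        -- the least index with ζ contained in the length
        have hex : ∃ m, ζ ⊆ ln (s m) := by
          obtain ⟨m, hm⟩ := hcov ζ hζ
          exact ⟨m, fun z hz => ((hδo.mem (hlnδ m)).mem_trans hz hm)⟩
        classical
        set m := Nat.find hex with hm
        have hm1 : ζ ⊆ ln (s m) := Nat.find_spec hex
        have hm0 : m ≠ 0 := by
          intro h
          rw [h, hs0] at hm1
          exact ZFSet.mem_irrefl _ (hm1 h0)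
        obtain ⟨n, hn⟩ := Nat.exists_eq_succ_of_ne_zero hm0
        have hn2 : ¬ ζ ⊆ ln (s n) := Nat.find_min hex (by omega)
        have hn3 : ln (s n) ∈ ζ := by
          rcases (hδo.mem (hlnδ n)).mem_or_subset (hδo.mem hζ) with h | h
          · exact h
          · exact absurd h hn2
        obtain ⟨r, hr, g, hg, -, h2, h3, h4, -⟩ := hstep n
        rw [hn] at hm1
        exact ⟨ln (s n), hn3, r, g, hsc _ h2, h3, hg, fun z hz => h4 (hm1 hz)⟩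
      · intro ζ hζ
        obtain ⟨h, hh, p, hp, n, hn, hnp⟩ := hcod ζ hζ
        rw [← hrg, mem_rg hpr] at hh
        obtain ⟨j, hj, hjh⟩ := hh
        exact ⟨j, hj, h, p, hjh, hp, n, hn, hnp⟩
    · obtain ⟨n, hn⟩ := hcov ξ hξ
      obtain ⟨-, δ', hδ', hf', hw'⟩ := hPs n
      have h1 : ln (s n) = δ' := ln_of_func hf'
      rw [h1] at hn
      obtain ⟨η', G', z', h2, h3⟩ := hw' ξ (ZFSet.mem_insert_iff.2 (Or.inr hn)) hlim
      exact ⟨η', G', z', h2, Wt_ext hf' hfc (hsc n) (fun j hj => hδ'.mem_trans hj hn)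
        (hδ'.mem hn) h3⟩
  · intro t ht
    obtain ⟨n, hn⟩ := htask t ht
    exact ⟨_, hsK (n + 1), hsc _, hn⟩

end Pool.Agent.H637_NO
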