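import Pool.Agent.H637_NO.ZC
import Pool.Agent.R597.Univ

/-!
# New orbits: transfer to the collapse of a countable elementary submodel of the universe
-/

set_option autoImplicit false
set_option linter.unreachableTactic false
set_option linter.unusedTactic false

namespace Pool.Agent.H637_NO

open Pool.Agent.W868 Pool.Agent.W868.GM
open ZFSet (pair)

section tr

variable (π : Pkg Unit)

/-- Bounded relations are preserved by the collapse. -/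
theorem d0_hat {n : ℕ} {R : (Fin n → ZFSet.{0}) → Prop} (h : D0 R) (v : Fin n → ZFSet.{0})
    (hv : ∀ i, v i ∈ π.Z) : R (fun i => π.hat (v i)) ↔ R v := by
  obtain ⟨φ, hφ⟩ := h
  have h1 := hφ π.V (fun x hx y hy => π.trans_V hx hy) (fun i => π.hat (v i))
    fun i => π.of_hat_mem_V (hv i)
  have h2 := hφ Set.univ (fun _ _ _ _ => trivial) v fun _ => trivial
  have h3 : (φ.map (Empty.elim : Empty → ZFSet.{0})).Over π.Z := by
    rw [over_map]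
    have h1 : ∀ {m : ℕ} (ψ : Fml Empty m), ψ.Over ((Empty.elim : Empty → ZFSet.{0}) ⁻¹' π.Z) := by
      intro m ψ
      induction ψ with
      | mem s t => exact ⟨fun a => a.elim, fun a => a.elim⟩
      | eq s t => exact ⟨fun a => a.elim, fun a => a.elim⟩
      | neg φ ih => exact ih
      | and φ ψ ih1 ih2 => exact ⟨ih1, ih2⟩
      | ex φ ih => exact ih
    exact h1 φ
  have h4 := π.sat_V _ h3 v hv
  rw [sat_map, sat_map] at h4
  have h5 : (id ∘ Empty.elim : Empty → ZFSet.{0}) = Empty.elim := funext fun a => a.elim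
  have h6 : (π.hat ∘ Empty.elim : Empty → ZFSet.{0}) = Empty.elim := funext fun a => a.elim
  rw [h5, h6] at h4
  exact h1.symm.trans (h4.trans h2)

theorem d0_hat1 {R : ZFSet.{0} → Prop} (h : D0 fun v : Fin 1 → ZFSet.{0} => R (v 0))
    {a : ZFSet.{0}} (ha : a ∈ π.Z) : R (π.hat a) ↔ R a :=
  d0_hat π h ![a] fun i => by
    fin_cases i
    exact ha

theorem d0_hat2 {R : ZFSet.{0} → ZFSet.{0} → Prop}
    (h : D0 fun v : Fin 2 → ZFSet.{0} => R (v 0) (v 1))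
    {a b : ZFSet.{0}} (ha : a ∈ π.Z) (hb : b ∈ π.Z) : R (π.hat a) (π.hat b) ↔ R a b :=
  d0_hat π h ![a, b] fun i => by
    fin_cases i
    · exact ha
    · exact hb

/-- The hierarchy and the collapse. -/
theorem hat_Lb {S ξ : ZFSet.{0}} (hS : S ∈ π.Z) (hξ : ξ ∈ π.Z) (hξo : ξ.IsOrdinal) :
    Lb S ξ ∈ π.Z ∧ π.hat (Lb S ξ) = Lb (π.hat S) (π.hat ξ) := by
  have hB := isBase_univ
  have h1 : Dfn π.Z Set.univ fun w : Fin 1 → ZFSet.{0} =>
      Hier S (w 0) ∧ ∃ X ∈ Set.univ, pair ξ X ∈ w 0 := by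
    apply Dfn.and
    · exact Dfn.comp2 (Q := Hier) (d0_Hier'.dfn hB.trans) (DfnF.const' trivial hS) (DfnF.proj 0)
    · apply Dfn.ex
      exact Dfn.mem (hB.pair' (DfnF.const' trivial hξ) (DfnF.proj 0)) (DfnF.proj 1)
  obtain ⟨f, hf, h2, h3⟩ := π.exists_Z (Q := fun f => Hier S f ∧ ∃ X ∈ Set.univ, pair ξ X ∈ f) h1
    ⟨gr (Lb S) (sc ξ), hier_gr (isOrdinal_sc hξo), Lb S ξ, trivial,
      mem_gr.2 ⟨ξ, ZFSet.mem_insert _ _, rfl⟩⟩
  have h4 : Dfn π.Z Set.univ fun w : Fin 1 → ZFSet.{0} => pair ξ (w 0) ∈ f :=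
    Dfn.mem (hB.pair' (DfnF.const' trivial hξ) (DfnF.proj 0)) (DfnF.const' trivial hf)
  obtain ⟨X, hX, h5⟩ := π.exists_Z (Q := fun X => pair ξ X ∈ f) h4 (by
    obtain ⟨X, -, hX⟩ := h3
    exact ⟨X, hX⟩)
  obtain rfl := h2.eq ξ X h5
  refine ⟨hX, ?_⟩
  have h6 : Hier (π.hat S) (π.hat f) := (d0_hat2 π d0_Hier' hS hf).2 h2
  exact h6.eq _ _ ((π.pair_mem_hat hξ hX hf).2 h5)

theorem tr_d0_Tra {n : ℕ} {F : (Fin n → ZFSet.{0}) → ZFSet.{0}} (hF : D0v F) :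
    D0 fun v => Tra (F v) := by
  unfold Tra
  apply D0.ball hF
  apply D0.ball (D0v.proj 0)
  exact D0.mem (D0v.proj 0) hF.tail.tail

theorem hat_tra {W : ZFSet.{0}} (hW : W ∈ π.Z) (h : Tra W) : Tra (π.hat W) :=
  (d0_hat1 π (R := Tra) (tr_d0_Tra (D0v.proj 0)) hW).2 h

/-- Being a model of ZF is preserved by the collapse. -/
theorem hat_isZF {W : ZFSet.{0}} (hW : W ∈ π.Z) (h : Tra W) :
    IsZF {x | x ∈ π.hat W} ↔ IsZF {x | x ∈ W} := by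
  obtain ⟨h1, h2⟩ := hat_Lb π hW π.omega_Z isOrdinal_omega
  rw [zC _ h, zC _ (hat_tra π hW h)]
  rw [π.hat_omega] at h2
  rw [← h2]
  exact d0_hat2 π d0_Zc' hW h1

/-- Hereditarily countable sets are not moved by the collapse. -/
theorem hat_HCt {a : ZFSet.{0}} (ha : a ∈ π.Z) (h : HCt Set.univ a) :
    π.hat a = a ∧ ∀ x ∈ a, x ∈ π.Z := by
  have hB := isBase_univ
  obtain ⟨T', -, hT', haT', f', -, hf'⟩ := h
  have h1 : Dfn π.Z Set.univ fun w : Fin 1 → ZFSet.{0} =>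
      Tra (w 0) ∧ a ∈ w 0 ∧ ∃ f ∈ Set.univ, IsInj (w 0) ZFSet.omega f := by
    apply Dfn.and
    · exact (tr_d0_Tra (D0v.proj 0)).dfn hB.trans
    apply Dfn.and
    · exact Dfn.mem (DfnF.const' trivial ha) (DfnF.proj 0)
    · apply Dfn.ex
      exact hB.isInj' (DfnF.proj 1) (DfnF.const' trivial π.omega_Z) (DfnF.proj 0)
  obtain ⟨T, hT, hTra, haT, h2⟩ := π.exists_Z
    (Q := fun T => Tra T ∧ a ∈ T ∧ ∃ f ∈ Set.univ, IsInj T ZFSet.omega f) h1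
    ⟨T', hT', haT', f', trivial, hf'⟩
  have h3 : Dfn π.Z Set.univ fun w : Fin 1 → ZFSet.{0} => IsInj T ZFSet.omega (w 0) :=
    hB.isInj' (DfnF.const' trivial hT) (DfnF.const' trivial π.omega_Z) (DfnF.proj 0)
  obtain ⟨f, hf, h4⟩ := π.exists_Z (Q := fun f => IsInj T ZFSet.omega f) h3 (by
    obtain ⟨f, -, h5⟩ := h2
    exact ⟨f, h5⟩)
  have h5 : ∀ x ∈ T, x ∈ π.Z := by
    intro x hx
    obtain ⟨n', hn', h6⟩ := fun_exists h4.1 hx
    obtain ⟨n, rfl⟩ := mem_omega_iff.1 hn'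
    have h7 : Dfn π.Z Set.univ fun w : Fin 1 → ZFSet.{0} => pair (w 0) (nat n) ∈ f :=
      Dfn.mem (hB.pair' (DfnF.proj 0) (DfnF.const' trivial (π.nat_Z n)))
        (DfnF.const' trivial hf)
    obtain ⟨y, hy, h8⟩ := π.exists_Z (Q := fun y => pair y (nat n) ∈ f) h7 ⟨x, h6⟩
    rwa [h4.2 x y _ h6 h8]
  have h6 : ∀ x, x ∈ T → π.hat x = x := by
    intro x
    induction x using ZFSet.inductionOn with
    | _ x ih =>
    intro hx
    ext z
    rw [π.mem_hat]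
    constructor
    · rintro ⟨y, hy, -, rfl⟩
      rwa [ih y hy (hTra x hx y hy)]
    · intro hz
      exact ⟨z, hz, h5 z (hTra x hx z hz), ih z hz (hTra x hx z hz)⟩
  exact ⟨h6 a haT, fun x hx => h5 x (hTra a haT x hx)⟩

theorem oo_Z : oo ∈ π.Z := π.prod_Z π.omega_Z π.omega_Z

theorem hat_union {x y : ZFSet.{0}} : π.hat (x ∪ y) = π.hat x ∪ π.hat y := by
  ext z
  rw [ZFSet.mem_union, π.mem_hat, π.mem_hat, π.mem_hat]
  constructor
  · rintro ⟨w, hw, hwZ, rfl⟩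
    rcases ZFSet.mem_union.1 hw with h | h
    · exact Or.inl ⟨w, h, hwZ, rfl⟩
    · exact Or.inr ⟨w, h, hwZ, rfl⟩
  · rintro (⟨w, h, hwZ, rfl⟩ | ⟨w, h, hwZ, rfl⟩)
    · exact ⟨w, ZFSet.mem_union.2 (Or.inl h), hwZ, rfl⟩
    · exact ⟨w, ZFSet.mem_union.2 (Or.inr h), hwZ, rfl⟩

theorem union_Z' {x y : ZFSet.{0}} (hx : x ∈ π.Z) (hy : y ∈ π.Z) : x ∪ y ∈ π.Z := by
  have h := π.union_Z (π.pair_Z hx hy)
  rwa [ZFSet.sUnion_pair] at h

theorem PW_univ : PW Set.univ = ZFSet.powerset oo := by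
  ext z
  unfold PW
  rw [ZFSet.mem_sep]
  exact ⟨fun h => h.1, fun h => ⟨h, trivial⟩⟩

theorem PW_Z : PW Set.univ ∈ π.Z := by
  rw [PW_univ]
  exact π.pow_Z (oo_Z π)

theorem T0b_eq : T0b = ZFSet.omega ∪ (ZFSet.sUnion oo ∪ oo) := by
  unfold T0b
  congr 2
  ext z
  rw [mem_im, ZFSet.mem_sUnion]
  constructor
  · rintro ⟨p, hp, rfl⟩
    obtain ⟨a, ha, b, hb, rfl⟩ := ZFSet.mem_prod.1 hp
    refine ⟨pair a b, hp, ?_⟩
    rw [fs_pair, sn_pair, pair]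
    exact ZFSet.mem_pair.2 (Or.inr rfl)
  · rintro ⟨p, hp, hz⟩
    obtain ⟨a, ha, b, hb, rfl⟩ := ZFSet.mem_prod.1 hp
    rw [pair] at hz
    rcases ZFSet.mem_pair.1 hz with rfl | rfl
    · refine ⟨pair a a, ZFSet.pair_mem_prod.2 ⟨ha, ha⟩, ?_⟩
      rw [fs_pair, sn_pair, ZFSet.pair_eq_singleton]
    · refine ⟨pair a b, hp, ?_⟩
      rw [fs_pair, sn_pair]

theorem T0b_Z : T0b ∈ π.Z := by
  rw [T0b_eq]
  exact union_Z' π π.omega_Z (union_Z' π (π.union_Z (oo_Z π)) (oo_Z π))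

theorem hat_nat_pairset (m n : ℕ) : ({nat m, nat n} : ZFSet.{0}) ∈ π.Z ∧
    π.hat {nat m, nat n} = {nat m, nat n} := by
  refine ⟨π.pair_Z (π.nat_Z m) (π.nat_Z n), ?_⟩
  rw [π.hat_pairset (π.nat_Z m) (π.nat_Z n), π.hat_nat, π.hat_nat]

theorem hat_nat_pair (m n : ℕ) : pair (nat m) (nat n) ∈ π.Z ∧
    π.hat (pair (nat m) (nat n)) = pair (nat m) (nat n) := by
  refine ⟨π.pair_mem_Z (π.nat_Z m) (π.nat_Z n), ?_⟩
  rw [π.hat_pair (π.nat_Z m) (π.nat_Z n), π.hat_nat, π.hat_nat]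

/-- A set all elements of which are in `Z` and not moved is not moved. -/
theorem hat_of_fixed {x : ZFSet.{0}} (h : ∀ y ∈ x, y ∈ π.Z ∧ π.hat y = y) : π.hat x = x := by
  ext z
  rw [π.mem_hat]
  constructor
  · rintro ⟨y, hy, -, rfl⟩
    rwa [(h y hy).2]
  · intro hz
    exact ⟨z, hz, (h z hz).1, (h z hz).2⟩

theorem fixed_T0b : ∀ y ∈ T0b, y ∈ π.Z ∧ π.hat y = y := by
  intro y hy
  unfold T0b at hy
  rcases ZFSet.mem_union.1 hy with h | h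
  · obtain ⟨n, rfl⟩ := mem_omega_iff.1 h
    exact ⟨π.nat_Z n, π.hat_nat n⟩
  rcases ZFSet.mem_union.1 h with h | h
  · obtain ⟨p, hp, rfl⟩ := mem_im.1 h
    obtain ⟨a, ha, b, hb, rfl⟩ := ZFSet.mem_prod.1 hp
    obtain ⟨m, rfl⟩ := mem_omega_iff.1 ha
    obtain ⟨n, rfl⟩ := mem_omega_iff.1 hb
    rw [fs_pair, sn_pair]
    exact hat_nat_pairset π m n
  · obtain ⟨a, ha, b, hb, rfl⟩ := ZFSet.mem_prod.1 h
    obtain ⟨m, rfl⟩ := mem_omega_iff.1 ha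
    obtain ⟨n, rfl⟩ := mem_omega_iff.1 hb
    exact hat_nat_pair π m n

theorem hat_T0b : π.hat T0b = T0b := hat_of_fixed π (fixed_T0b π)

/-- Reals are not moved. -/
theorem hat_real {r : ZFSet.{0}} (h : r ⊆ oo) : π.hat r = r := by
  refine hat_of_fixed π fun y hy => ?_
  obtain ⟨a, ha, b, hb, rfl⟩ := ZFSet.mem_prod.1 (h hy)
  obtain ⟨m, rfl⟩ := mem_omega_iff.1 ha
  obtain ⟨n, rfl⟩ := mem_omega_iff.1 hb
  exact hat_nat_pair π m n

theorem mem_hat_PW {r : ZFSet.{0}} : r ∈ π.hat (PW Set.univ) ↔ r ⊆ oo ∧ r ∈ π.Z := by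
  rw [PW_univ, π.mem_hat]
  constructor
  · rintro ⟨y, hy, hyZ, rfl⟩
    have h := ZFSet.mem_powerset.1 hy
    rw [hat_real π h]
    exact ⟨h, hyZ⟩
  · rintro ⟨h1, h2⟩
    exact ⟨r, ZFSet.mem_powerset.2 h1, h2, hat_real π h1⟩

theorem SB_Z {H : ZFSet.{0}} (hH : H ∈ π.Z) : SB H ∈ π.Z :=
  union_Z' π (T0b_Z π) (π.insert_Z hH hH)

theorem hat_SB {H : ZFSet.{0}} (hH : H ∈ π.Z) : π.hat (SB H) = SB (π.hat H) := by
  unfold SB
  rw [hat_union π, hat_T0b π, π.hat_insert hH]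

end tr

/-- Transfer to the collapse of a countable elementary submodel, without hypotheses. -/
theorem tR' : S_TR := fun π =>
  ⟨fun _ _ h v hv => d0_hat π h v hv,
    fun _ hS _ _ hξ hξo => hat_Lb π hS hξ hξo,
    fun _ hW h => hat_isZF π hW h,
    fun _ ha h => hat_HCt π ha h,
    ⟨PW_Z π, fun _ => mem_hat_PW π⟩,
    fun _ hH => ⟨SB_Z π hH, hat_SB π hH⟩⟩

/-- The form announced in the plan. -/
theorem tR (_ : S_HC) (_ : S_HC2) : S_TR := tR'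

end Pool.Agent.H637_NO
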