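import Pool.Agent.H637_NO.LbB
import Pool.Agent.R597.Univ
import Pool.Agent.Y588.Hst

/-!
# New orbits: the countable model `U`
-/

set_option autoImplicit false
set_option linter.unreachableTactic false
set_option linter.unusedTactic false

namespace Pool.Agent.H637_NO

open Pool.Agent.W868 Pool.Agent.W868.GM
open ZFSet (pair)

theorem Pc_congr {M M' : Set ZFSet.{0}} (h1 : ∀ z, HCt M z ↔ HCt M' z) (h2 : PW M = PW M')
    (c : ZFSet.{0}) : Pc M c ↔ Pc M' c := by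
  unfold Pc
  rw [h1, h2]
  simp only [h1]

namespace UA

/-! ### Elementarity for bounded formulas -/

section elem

variable (π : Pkg Unit)

theorem ex2 {R : ZFSet.{0} → ZFSet.{0} → Prop}
    (hR : D0 fun v : Fin 2 → ZFSet.{0} => R (v 0) (v 1)) {a : ZFSet.{0}} (ha : a ∈ π.Z)
    (h : ∃ x, R x a) : ∃ x ∈ π.Z, R x a :=
  π.exists_Z (Q := fun x => R x a) (Dfn.comp2 (Q := R) (hR.dfn fun _ _ _ _ => trivial)
    (DfnF.proj 0) (DfnF.const' trivial ha)) h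

theorem ex3 {R : ZFSet.{0} → ZFSet.{0} → ZFSet.{0} → Prop}
    (hR : D0 fun v : Fin 3 → ZFSet.{0} => R (v 0) (v 1) (v 2)) {a b : ZFSet.{0}} (ha : a ∈ π.Z)
    (hb : b ∈ π.Z) (h : ∃ x, R x a b) : ∃ x ∈ π.Z, R x a b :=
  π.exists_Z (Q := fun x => R x a b) (Dfn.comp3 (Q := R) (hR.dfn fun _ _ _ _ => trivial)
    (DfnF.proj 0) (DfnF.const' trivial ha) (DfnF.const' trivial hb)) h

theorem ex4 {R : ZFSet.{0} → ZFSet.{0} → ZFSet.{0} → ZFSet.{0} → Prop}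
    (hR : D0 fun v : Fin 4 → ZFSet.{0} => R (v 0) (v 1) (v 2) (v 3)) {a b c : ZFSet.{0}}
    (ha : a ∈ π.Z) (hb : b ∈ π.Z) (hc : c ∈ π.Z) (h : ∃ x, R x a b c) :
    ∃ x ∈ π.Z, R x a b c :=
  π.exists_Z (Q := fun x => R x a b c) (Dfn.comp4 (Q := R) (hR.dfn fun _ _ _ _ => trivial)
    (DfnF.proj 0) (DfnF.const' trivial ha) (DfnF.const' trivial hb) (DfnF.const' trivial hc)) h

end elem

section transfer

variable {π : Pkg Unit} (hT : ∀ (n : ℕ) (R : (Fin n → ZFSet.{0}) → Prop), D0 R →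
  ∀ v : Fin n → ZFSet.{0}, (∀ i, v i ∈ π.Z) → (R (fun i => π.hat (v i)) ↔ R v))

include hT

theorem tr1 {R : ZFSet.{0} → Prop} (hR : D0 fun v : Fin 1 → ZFSet.{0} => R (v 0))
    {a : ZFSet.{0}} (ha : a ∈ π.Z) : R (π.hat a) ↔ R a :=
  hT 1 _ hR ![a] fun i => by fin_cases i; exact ha

theorem tr2 {R : ZFSet.{0} → ZFSet.{0} → Prop}
    (hR : D0 fun v : Fin 2 → ZFSet.{0} => R (v 0) (v 1))
    {a b : ZFSet.{0}} (ha : a ∈ π.Z) (hb : b ∈ π.Z) : R (π.hat a) (π.hat b) ↔ R a b :=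
  hT 2 _ hR ![a, b] fun i => by fin_cases i <;> assumption

theorem tr3 {R : ZFSet.{0} → ZFSet.{0} → ZFSet.{0} → Prop}
    (hR : D0 fun v : Fin 3 → ZFSet.{0} => R (v 0) (v 1) (v 2))
    {a b c : ZFSet.{0}} (ha : a ∈ π.Z) (hb : b ∈ π.Z) (hc : c ∈ π.Z) :
    R (π.hat a) (π.hat b) (π.hat c) ↔ R a b c :=
  hT 3 _ hR ![a, b, c] fun i => by fin_cases i <;> assumption

end transfer

/-! ### Bounded formulas -/

theorem d0_Tra {n : ℕ} {F : (Fin n → ZFSet.{0}) → ZFSet.{0}} (hF : D0v F) :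
    D0 fun v => Tra (F v) := by
  have h : D0 fun v => ∀ x ∈ F v, ∀ y ∈ x, y ∈ F v := by
    have h1 := hF.tail.tail
    (repeat' first
      | assumption
      | exact D0v.proj _
      | apply D0.ball | apply D0.mem)
  exact h

theorem d0_inj {n : ℕ} {F G H : (Fin n → ZFSet.{0}) → ZFSet.{0}} (hF : D0v F) (hG : D0v G)
    (hH : D0v H) : D0 fun v => IsInj (F v) (G v) (H v) :=
  D0.comp3 (R := IsInj) Pool.Agent.Y588.d0_isInj hF hG hH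

/-- `T` and `f` show that `z` is hereditarily countable. -/
def Hcw (q z o : ZFSet.{0}) : Prop := ∃ T f, q = pair T f ∧ Tra T ∧ z ∈ T ∧ IsInj T o f

theorem d0_Hcw : D0 fun v : Fin 3 → ZFSet.{0} => Hcw (v 0) (v 1) (v 2) := by
  unfold Hcw
  (repeat' first
      | assumption
      | exact D0v.proj _
      | apply D0.expair | apply d0_inj | apply D0.and | apply d0_Tra | apply D0.mem)

/-- `DSeq` with a variable for `ω`. -/
def DSq (p D o : ZFSet.{0}) : Prop :=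
  (∀ q ∈ D, ∃ r g, q = pair r g ∧ ∀ q' ∈ D, ∃ r' g', q' = pair r' g' ∧ (r' = r → g' = g)) ∧
  (∀ n ∈ o, ∃ q ∈ D, ∃ n' X, q = pair n' X ∧ n' = n) ∧
  ∀ q ∈ D, ∃ n X, q = pair n X ∧ n ∈ o ∧ (∀ c ∈ X, c ∈ p) ∧
    (∀ c ∈ p, ∃ c' ∈ X, c ⊆ c') ∧ ∀ c ∈ X, ∀ c' ∈ p, c ⊆ c' → c' ∈ X

theorem d0_DSq : D0 fun v : Fin 3 → ZFSet.{0} => DSq (v 0) (v 1) (v 2) := by
  unfold DSq
  (repeat' first
      | assumption
      | exact D0v.proj _
      | apply D0.expair | apply D0.and | apply D0.ball | apply D0.bex | apply D0.imp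
      | apply D0.subset | apply D0.mem | apply D0.eq)

theorem DSeq_iff {p D : ZFSet.{0}} : DSeq p D ↔ DSq p D ZFSet.omega := by
  unfold DSeq DSq
  refine and_congr ?_ (and_congr (forall₂_congr fun n hn => ?_) Iff.rfl)
  · constructor
    · intro h q hq
      obtain ⟨r, g, rfl, h1⟩ := h q hq
      refine ⟨r, g, rfl, fun q' hq' => ?_⟩
      obtain ⟨r', g', rfl, -⟩ := h q' hq'
      refine ⟨r', g', rfl, ?_⟩
      rintro rfl
      exact h1 g' hq'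
    · intro h q hq
      obtain ⟨r, g, rfl, h1⟩ := h q hq
      refine ⟨r, g, rfl, fun g' hg' => ?_⟩
      obtain ⟨r', g'', h2, h3⟩ := h1 _ hg'
      obtain ⟨rfl, rfl⟩ := ZFSet.pair_inj.1 h2
      exact h3 rfl
  constructor
  · rintro ⟨X, hX⟩
    exact ⟨_, hX, n, X, rfl, rfl⟩
  · rintro ⟨q, hq, n', X, rfl, rfl⟩
    exact ⟨X, hq⟩

theorem d0_Dist : D0 fun v : Fin 2 → ZFSet.{0} => Dist (v 0) (v 1) := by
  unfold Dist
  (repeat' first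
      | assumption
      | exact D0v.proj _
      | apply D0.expair | apply D0.and | apply D0.ball | apply D0.bex | apply D0.imp
      | apply D0.subset | apply D0.mem | apply D0.eq)

/-! ### The base set -/

theorem tra_SB {H : ZFSet.{0}} (hH : ∀ r ∈ H, r ⊆ oo) : Tra (SB H) := by
  have hoo : ∀ q ∈ oo, q ∈ SB H := fun q hq =>
    ZFSet.mem_union.2 (Or.inl (ZFSet.mem_union.2 (Or.inr (ZFSet.mem_union.2 (Or.inr hq)))))
  have hω : ∀ q ∈ ZFSet.omega, q ∈ SB H := fun q hq =>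
    ZFSet.mem_union.2 (Or.inl (ZFSet.mem_union.2 (Or.inl hq)))
  have hup : ∀ m ∈ ZFSet.omega, ∀ n ∈ ZFSet.omega, ({m, n} : ZFSet.{0}) ∈ SB H := by
    intro m hm n hn
    have h1 : ({m, n} : ZFSet.{0}) ∈ im (fun p => ({fs p, sn p} : ZFSet.{0})) oo :=
      mem_im.2 ⟨pair m n, ZFSet.pair_mem_prod.2 ⟨hm, hn⟩, by rw [fs_pair, sn_pair]⟩
    exact ZFSet.mem_union.2 (Or.inl (ZFSet.mem_union.2 (Or.inr (ZFSet.mem_union.2
      (Or.inl h1)))))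
  intro x hx y hy
  rcases ZFSet.mem_union.1 hx with h | h
  · rcases ZFSet.mem_union.1 h with h | h
    · exact hω y (isOrdinal_omega.mem_trans hy h)
    rcases ZFSet.mem_union.1 h with h | h
    · obtain ⟨q, hq, rfl⟩ := mem_im.1 h
      obtain ⟨m, hm, n, hn, rfl⟩ := ZFSet.mem_prod.1 hq
      rw [fs_pair, sn_pair, ZFSet.mem_pair] at hy
      rcases hy with rfl | rfl
      · exact hω _ hm
      · exact hω _ hn
    · obtain ⟨m, hm, n, hn, rfl⟩ := ZFSet.mem_prod.1 h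
      change y ∈ ({{m}, {m, n}} : ZFSet.{0}) at hy
      rw [ZFSet.mem_pair] at hy
      rcases hy with rfl | rfl
      · have h1 := hup m hm m hm
        rwa [ZFSet.pair_eq_singleton] at h1
      · exact hup m hm n hn
  · rcases ZFSet.mem_insert_iff.1 h with rfl | h
    · exact ZFSet.mem_union.2 (Or.inr (ZFSet.mem_insert_of_mem _ hy))
    · exact hoo y (hH x h hy)

/-! ### Countable transitive models -/

/-- A countable class as a set. -/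
theorem exists_set {V : Set ZFSet.{0}} (hV : V.Countable) :
    ∃ N : ZFSet.{0}, (∀ z, z ∈ N ↔ z ∈ V) ∧ Inj Set.univ N ZFSet.omega := by
  classical
  rcases V.eq_empty_or_nonempty with rfl | hne
  · refine ⟨∅, fun z => ⟨fun h => absurd h (ZFSet.notMem_empty z), fun h => h.elim⟩, ?_⟩
    exact Inj.of_subset Pool.Agent.R597.isZFC_univ.toIsZF trivial trivial
      (ZFSet.empty_subset _)
  obtain ⟨f, rfl⟩ := hV.exists_eq_range hne
  let h : ZFSet.{0} → ZFSet.{0} := fun z => if hz : ∃ n, z = nat n then f hz.choose else ∅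
  have hh : ∀ n, h (nat n) = f n := by
    intro n
    have hz : ∃ m, nat n = nat m := ⟨n, rfl⟩
    simp only [h, dif_pos hz]
    rw [← nat_injective hz.choose_spec]
  refine ⟨im h ZFSet.omega, fun z => ?_, ?_⟩
  · rw [mem_im]
    constructor
    · rintro ⟨u, hu, rfl⟩
      obtain ⟨n, rfl⟩ := mem_omega_iff.1 hu
      rw [hh]
      exact ⟨n, rfl⟩
    · rintro ⟨n, rfl⟩
      exact ⟨nat n, nat_mem_omega n, (hh n).symm⟩
  · obtain ⟨g, hg⟩ := exists_isInj (card_im_le (h := h) (x := ZFSet.omega))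
    exact ⟨g, trivial, hg⟩

section main

variable (hHC2 : S_HC2)

include hHC2

theorem hct_tra {T : ZFSet.{0}} (hT : Tra T) (h : Inj Set.univ T ZFSet.omega) :
    HCt Set.univ T :=
  hHC2.2 _ Pool.Agent.R597.isZFC_univ T trivial (fun _ hy => ⟨T, trivial, hT, hy, h⟩) h

theorem hct_oo {r : ZFSet.{0}} (h : r ⊆ oo) : HCt Set.univ r :=
  (hHC2.1 _ Pool.Agent.R597.isZFC_univ.toIsZF).2.1 oo r
    (hHC2.1 _ Pool.Agent.R597.isZFC_univ.toIsZF).2.2.2.2 trivial h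

theorem hct_fun {T f : ZFSet.{0}} (hT : HCt Set.univ T)
    (hf : ZFSet.IsFunc T ZFSet.omega f) : HCt Set.univ f := by
  have hU := Pool.Agent.R597.isZFC_univ
  have h1 := hHC2.1 _ hU.toIsZF
  have hω : HCt Set.univ ZFSet.omega := h1.2.2.2.1
  have hTi : Inj Set.univ T ZFSet.omega := (h1.2.2.1 T hT).2.1
  refine hHC2.2 _ hU f trivial (fun p hp => ?_) ?_
  · obtain ⟨a, ha, b, hb, rfl⟩ := ZFSet.mem_prod.1 (hf.1 hp)
    exact (h1.1 a b ((h1.2.2.1 T hT).2.2 a ha) ((h1.2.2.1 _ hω).2.2 b hb)).1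
  · refine Inj.trans hU.toIsZF trivial trivial ?_ hTi
    refine Inj.of_fun hU.toIsZF trivial trivial (h := fs) (hU.toIsZF.fs' (DfnF.proj 0)) ?_ ?_
    · intro p hp
      obtain ⟨a, ha, b, hb, rfl⟩ := ZFSet.mem_prod.1 (hf.1 hp)
      rw [fs_pair]
      exact ha
    · intro p hp p' hp' h
      obtain ⟨a, ha, b, hb, rfl⟩ := ZFSet.mem_prod.1 (hf.1 hp)
      obtain ⟨a', ha', b', hb', rfl⟩ := ZFSet.mem_prod.1 (hf.1 hp')
      rw [fs_pair, fs_pair] at h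
      subst h
      rw [fun_unique hf hp hp']

/-- Hereditarily countable sets of a model between the hereditarily countable sets of `Z` and
the collapse of `Z`. -/
theorem hct_iff {π : Pkg Unit} (hT : ∀ (n : ℕ) (R : (Fin n → ZFSet.{0}) → Prop), D0 R →
      ∀ v : Fin n → ZFSet.{0}, (∀ i, v i ∈ π.Z) → (R (fun i => π.hat (v i)) ↔ R v))
    (hT4 : ∀ a ∈ π.Z, HCt Set.univ a → π.hat a = a ∧ ∀ x ∈ a, x ∈ π.Z)
    {M : Set ZFSet.{0}} (hsub : ∀ x ∈ M, ∃ y ∈ π.Z, π.hat y = x)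
    (hHC : ∀ a ∈ π.Z, HCt Set.univ a → a ∈ M) (z : ZFSet.{0}) :
    HCt M z ↔ HCt Set.univ z ∧ z ∈ π.Z := by
  constructor
  · rintro ⟨T, hTM, hTra, hz, f, hf, hinj⟩
    obtain ⟨t, ht, rfl⟩ := hsub T hTM
    obtain ⟨g, hg, rfl⟩ := hsub f hf
    have h1 : Tra t := (tr1 hT (d0_Tra (D0v.proj 0)) ht).1 hTra
    have h2 : IsInj t ZFSet.omega g := by
      have h3 := tr3 hT (R := IsInj) Pool.Agent.Y588.d0_isInj ht π.omega_Z hg
      rw [π.hat_omega] at h3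
      exact h3.1 hinj
    have h3 : HCt Set.univ t := hct_tra hHC2 h1 ⟨g, trivial, h2⟩
    obtain ⟨h4, h5⟩ := hT4 t ht h3
    rw [h4] at hz
    exact ⟨⟨t, trivial, h1, hz, g, trivial, h2⟩, h5 z hz⟩
  · rintro ⟨⟨T, -, hTra, hz, f, -, hinj⟩, hzZ⟩
    obtain ⟨q, hq, T, f, rfl, h1, h2, h3⟩ := ex3 π (R := Hcw) d0_Hcw hzZ π.omega_Z
      ⟨pair T f, T, f, rfl, hTra, hz, hinj⟩
    obtain ⟨h4, h5⟩ := π.of_pair_Z hq
    have h6 : HCt Set.univ T := hct_tra hHC2 h1 ⟨f, trivial, h3⟩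
    exact ⟨T, hHC T h4 h6, h1, h2, f, hHC f h5 (hct_fun hHC2 h6 h3.1), h3⟩

theorem mem_iff {π : Pkg Unit}
    (hT4 : ∀ a ∈ π.Z, HCt Set.univ a → π.hat a = a ∧ ∀ x ∈ a, x ∈ π.Z)
    {M : Set ZFSet.{0}} (hsub : ∀ x ∈ M, ∃ y ∈ π.Z, π.hat y = x)
    (hHC : ∀ a ∈ π.Z, HCt Set.univ a → a ∈ M) {r : ZFSet.{0}} (hr : r ⊆ oo) :
    r ∈ M ↔ r ∈ π.Z := by
  have hoZ : oo ∈ π.Z := π.prod_Z π.omega_Z π.omega_Z
  have hoh : π.hat oo = oo := (hT4 oo hoZ (hct_oo hHC2 fun _ h => h)).1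
  constructor
  · intro h
    obtain ⟨y, hy, rfl⟩ := hsub r h
    have h1 : y ⊆ oo := π.subset_of_hat hoZ hy (by rw [hoh]; exact hr)
    rw [(hT4 y hy (hct_oo hHC2 h1)).1]
    exact hy
  · intro h
    exact hHC r h (hct_oo hHC2 hr)

theorem ctm_univ (hTR : S_TR) {r : ZFSet.{0}} (hr : r ⊆ oo) :
    ∃ N, HCt Set.univ N ∧ Tra N ∧ IsZF {x | x ∈ N} ∧ r ∈ N := by
  obtain ⟨π, h1, -, -⟩ := exists_pkg (P := Unit) ∅ Set.countable_empty
    {check r} (Set.countable_singleton _) ()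
  have hrZ : r ∈ π.Z := h1 rfl
  obtain ⟨-, -, -, hT4, -, -⟩ := hTR π
  have h2 : r ∈ π.V := ⟨r, hrZ, (hT4 r hrZ (hct_oo hHC2 hr)).1⟩
  obtain ⟨N, hN, hi⟩ := exists_set (π.countable_W.mono π.V_subset_W)
  have hV : {x | x ∈ N} = π.V := by
    ext z
    exact hN z
  have hTra : Tra N := fun x hx y hy => (hN y).2 (π.trans_V ((hN x).1 hx) hy)
  refine ⟨N, hct_tra hHC2 hTra hi, hTra, ?_, (hN r).2 h2⟩
  rw [hV]
  exact π.isZFC_V.toIsZF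

end main

end UA

open UA in
theorem uA (_ : S_HC) (hHC2 : S_HC2) (hWD : S_WD) (hTR : S_TR) (hEXT : S_EXT) (hUU : S_UU)
    (hDIS : S_DIS) : S_UA := by
  classical
  obtain ⟨γ, hγ⟩ := hUU
  obtain ⟨h, hhT, hh⟩ := hγ.hc
  obtain ⟨p, hpT, hp⟩ := hγ.p
  have hctm : ∀ r : {r // r ∈ PW Set.univ}, ∃ N, HCt Set.univ N ∧ Tra N ∧
      IsZF {x | x ∈ N} ∧ r.1 ∈ N := fun r =>
    ctm_univ hHC2 hTR (ZFSet.mem_powerset.1 (ZFSet.mem_sep.1 r.2).1)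
  choose NN hNN using hctm
  have hStra : Tra (SB (PW Set.univ)) := tra_SB fun r hr => by
    rw [PW, ZFSet.mem_sep, ZFSet.mem_powerset] at hr
    exact hr.1
  obtain ⟨F, hF⟩ : ∃ F : ZFSet.{0}, ∀ q, q ∈ F ↔ ∃ r, pair r.1 (NN r) = q :=
    ⟨ZFSet.range fun r : {r // r ∈ PW Set.univ} => pair r.1 (NN r), fun q => ZFSet.mem_range⟩
  refine ⟨{γ, h, p, F, gr (Lb (SB (PW Set.univ))) γ}, (Set.toFinite _).countable,
    fun π hA => ?_⟩
  have hγZ : γ ∈ π.Z := hA (by simp)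
  have hhZ : h ∈ π.Z := hA (by simp)
  have hpZ : p ∈ π.Z := hA (by simp)
  have hFZ : F ∈ π.Z := hA (by simp)
  have hgZ : gr (Lb (SB (PW Set.univ))) γ ∈ π.Z := hA (by simp)
  obtain ⟨hT1, hT2, hT3, hT4, hT5, hT6⟩ := hTR π
  have hPW : ∀ {r : ZFSet.{0}}, r ⊆ oo → r ∈ PW Set.univ := by
    intro r hr
    rw [PW, ZFSet.mem_sep, ZFSet.mem_powerset]
    exact ⟨hr, trivial⟩
  have hPZ := hT5.1
  obtain ⟨hSZ, hSh⟩ := hT6 _ hPZ
  obtain ⟨hLZ, hLh⟩ := hT2 _ hSZ hStra γ hγZ hγ.ord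
  have hγo : (π.hat γ).IsOrdinal := (tr1 hT1 (D0.isOrdinal (D0v.proj 0)) hγZ).2 hγ.ord
  set U : Set ZFSet.{0} := {x | x ∈ π.hat (Lb (SB (PW Set.univ)) γ)} with hU
  have hsub : ∀ x ∈ U, ∃ y ∈ π.Z, π.hat y = x := by
    intro x hx
    obtain ⟨y, -, hy, rfl⟩ := π.mem_hat.1 hx
    exact ⟨y, hy, rfl⟩
  have hLtra : Tra (Lb (SB (PW Set.univ)) γ) := Lb_tra hStra γ
  have hHCU : ∀ a ∈ π.Z, HCt Set.univ a → a ∈ U := by
    intro a ha h1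
    have h2 : a ∈ Lb (SB (PW Set.univ)) γ := hLtra h hhT a ((hh a).2 h1)
    have h3 := (π.hat_mem_hat ha hLZ).2 h2
    rwa [(hT4 a ha h1).1] at h3
  have hHCV : ∀ a ∈ π.Z, HCt Set.univ a → a ∈ π.V := fun a ha h1 =>
    ⟨a, ha, (hT4 a ha h1).1⟩
  have hsubV : ∀ x ∈ π.V, ∃ y ∈ π.Z, π.hat y = x := fun x hx => hx
  have hcU := hct_iff hHC2 hT1 hT4 hsub hHCU
  have hcV := hct_iff hHC2 hT1 hT4 hsubV hHCV
  have hPWm : ∀ {M : Set ZFSet.{0}}, (∀ x ∈ M, ∃ y ∈ π.Z, π.hat y = x) →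
      (∀ a ∈ π.Z, HCt Set.univ a → a ∈ M) → PW M = π.hat (PW Set.univ) := by
    intro M h1 h2
    ext r
    rw [PW, ZFSet.mem_sep, ZFSet.mem_powerset, hT5.2]
    constructor
    · rintro ⟨h3, h4⟩
      exact ⟨h3, (mem_iff hHC2 hT4 h1 h2 h3).1 h4⟩
    · rintro ⟨h3, h4⟩
      exact ⟨h3, (mem_iff hHC2 hT4 h1 h2 h3).2 h4⟩
  have hPU := hPWm hsub hHCU
  have hPV := hPWm hsubV hHCV
  -- the conditions
  obtain ⟨PD, hPD, hPD'⟩ := hWD
  have hPcU : ∀ c, Pc U c ↔ Pc Set.univ c ∧ c ∈ π.Z := by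
    intro c
    rw [Pc_congr (M' := π.V) (fun z => (hcU z).trans (hcV z).symm) (hPU.trans hPV.symm),
      hPD' _ π.isZFC_V, hPD' _ Pool.Agent.R597.isZFC_univ]
    simp only [hcV]
    constructor
    · rintro ⟨b, ⟨h1, h2⟩, ⟨h3, h4⟩, h5⟩
      exact ⟨⟨b, h1, h3, h5⟩, h4⟩
    · rintro ⟨⟨b, h1, h2, h3⟩, h4⟩
      obtain ⟨b', hb', h5, h6⟩ := ex3 π (R := fun b h c => b ∈ h ∧ PD b c) (by
        apply D0.and
        · exact D0.mem (D0v.proj 0) (D0v.proj 1)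
        · exact D0.comp2 (R := PD) hPD (D0v.proj 0) (D0v.proj 2)) hhZ h4
        ⟨b, (hh b).2 h1, h3⟩
      exact ⟨b', ⟨(hh b').1 h5, hb'⟩, ⟨h2, h4⟩, h6⟩
  have hp' : ∀ c, c ∈ π.hat p ↔ Pc U c := by
    intro c
    rw [hPcU, π.mem_hat]
    constructor
    · rintro ⟨y, hy, hyZ, rfl⟩
      have h1 := (hp y).1 hy
      rw [(hT4 y hyZ h1.1).1]
      exact ⟨h1, hyZ⟩
    · rintro ⟨h1, h2⟩
      exact ⟨c, (hp c).2 h1, h2, (hT4 c h2 h1.1).1⟩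
  refine ⟨U, ?_, fun x => ?_⟩
  swap
  · refine mem_iff hHC2 hT4 hsub hHCU ?_
    intro q hq
    obtain ⟨n, rfl⟩ := ZFSet.mem_range.1 hq
    exact ZFSet.pair_mem_prod.2 ⟨nat_mem_omega _, nat_mem_omega _⟩
  refine ⟨?_, ?_, ?_, ?_, ?_, ?_, ?_, ?_⟩
  · refine π.countable_W.mono fun x hx => ?_
    obtain ⟨y, hy, rfl⟩ := hsub x hx
    exact π.V_subset_W (π.of_hat_mem_V hy)
  · exact (hT3 _ hLZ hLtra).2 hγ.zf
  · intro x hx
    obtain ⟨y, hy, hyZ, rfl⟩ := π.mem_hat.1 hx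
    obtain ⟨ξ, hξ, h1⟩ := hγ.lev y hy
    obtain ⟨q, hq, h2, ξ, Y, rfl, h3⟩ := ex3 π
      (R := fun q g y => q ∈ g ∧ ∃ ξ Y, q = pair ξ Y ∧ y ∈ Y) (by
        (repeat' first
      | assumption
      | exact D0v.proj _
      | apply D0.expair | apply D0.and | apply D0.mem | apply D0.eq)) hgZ hyZ
      ⟨pair ξ (Lb (SB (PW Set.univ)) ξ), mem_gr.2 ⟨ξ, hξ, rfl⟩, _, _, rfl, h1⟩
    obtain ⟨ξ', hξ', h4⟩ := mem_gr.1 h2
    obtain ⟨h5, h6⟩ := ZFSet.pair_inj.1 h4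
    subst h5 h6
    obtain ⟨hξZ, hLξZ⟩ := π.of_pair_Z hq
    have hξo : ξ.IsOrdinal := hγ.ord.mem hξ'
    refine ⟨π.hat ξ, ?_, (tr1 hT1 (D0.isOrdinal (D0v.proj 0)) hξZ).2 hξo, ?_⟩
    · exact (π.hat_mem_hat hξZ hLZ).2 ((hγ.mem ξ hξo).2 hξ')
    · rw [hPU, ← hSh, ← (hT2 _ hSZ hStra ξ hξZ hξo).2]
      exact (π.hat_mem_hat hyZ hLξZ).2 h3
  · intro α hα hαo
    obtain ⟨β, hβ, hβZ, rfl⟩ := π.mem_hat.1 hα
    have hβo : β.IsOrdinal := (tr1 hT1 (D0.isOrdinal (D0v.proj 0)) hβZ).1 hαo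
    have h1 := hγ.min β ((hγ.mem β hβo).1 hβ)
    obtain ⟨h2, h3⟩ := hT2 _ hSZ hStra β hβZ hβo
    rw [hPU, ← hSh, ← h3, hT3 _ h2 (Lb_tra hStra β)]
    exact h1
  · exact ⟨π.hat p, (π.hat_mem_hat hpZ hLZ).2 hpT, hp'⟩
  · intro c hc ζ hζ hζo
    rw [hPcU] at hc
    rw [hcU] at hζ
    obtain ⟨c', h1, h2, h3⟩ := hEXT c hc.1 ζ hζ.1 hζo
    obtain ⟨q0, h4, h5⟩ := mem_im.1 h3
    obtain ⟨δ, -, h6, -⟩ := h1.2
    obtain ⟨a, -, b, -, rfl⟩ := ZFSet.mem_prod.1 (h6.1 h4)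
    rw [fs_pair] at h5
    obtain ⟨c'', hc'', h7, h8, q, h9, x, y, rfl, rfl⟩ := ex4 π
      (R := fun c' p c ζ => c' ∈ p ∧ c ⊆ c' ∧ ∃ q ∈ c', ∃ x y, q = pair x y ∧ x = ζ) (by
        (repeat' first
      | assumption
      | exact D0v.proj _
      | apply D0.expair | apply D0.bex | apply D0.and | apply D0.mem | apply D0.eq
      | apply D0.subset)) hpZ hc.2 hζ.2
      ⟨c', (hp c').2 h1, h2, _, h4, a, b, rfl, h5.symm⟩
    exact ⟨c'', (hPcU c'').2 ⟨(hp c'').1 h7, hc''⟩, h8, mem_im.2 ⟨_, h9, (fs_pair _ _).symm⟩⟩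
  · intro p' hp'U hp'' D hD hDS
    obtain rfl : p' = π.hat p := by
      ext c
      rw [hp'', hp']
    obtain ⟨D, hDT, hDZ, rfl⟩ := π.mem_hat.1 hD
    have h1 : DSeq p D := by
      rw [DSeq_iff] at hDS ⊢
      have h2 := tr3 hT1 (R := DSq) d0_DSq hpZ hDZ π.omega_Z
      rw [π.hat_omega] at h2
      exact h2.1 hDS
    exact (tr2 hT1 (R := Dist) d0_Dist hpZ hDZ).2 (hDIS γ hγ p hp D hDT h1)
  · intro r hr
    rw [hPU, hT5.2] at hr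
    obtain ⟨hr, hrZ⟩ := hr
    obtain ⟨q, hq, h1, x, N, rfl, rfl⟩ := ex3 π
      (R := fun q F r => q ∈ F ∧ ∃ x N, q = pair x N ∧ x = r) (by
        (repeat' first
      | assumption
      | exact D0v.proj _
      | apply D0.expair | apply D0.and | apply D0.mem | apply D0.eq)) hFZ hrZ
      ⟨pair r (NN ⟨r, hPW hr⟩), (hF _).2 ⟨⟨r, hPW hr⟩, rfl⟩, _, _, rfl, rfl⟩
    obtain ⟨r', h2⟩ := (hF _).1 h1
    obtain ⟨h3, h4⟩ := ZFSet.pair_inj.1 h2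
    have h5 := hNN r'
    rw [h3, h4] at h5
    exact ⟨N, (hcU N).2 ⟨h5.1, (π.of_pair_Z hq).2⟩, h5.2⟩

end Pool.Agent.H637_NO
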