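import Pool.Agent.H637_NO.Stm
import Pool.Agent.W868.Base2

/-!
# New orbits: determinacy reflects to countable elementary submodels of the universe
-/

set_option autoImplicit false
set_option linter.unreachableTactic false
set_option linter.unusedTactic false
set_option linter.unusedSectionVars false

namespace Pool.Agent.H637_NO

open Pool.Agent.W868 Pool.Agent.W868.GM
open ZFSet (pair)

namespace UB

/-! ### The formulas are countable in number -/

/-- A code of a term. -/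
def eT {m k : ℕ} : Tm m k → ℕ
  | .var i => Nat.pair 0 i
  | .zero => Nat.pair 1 0
  | .succ t => Nat.pair 2 (eT t)
  | .add s t => Nat.pair 3 (Nat.pair (eT s) (eT t))
  | .mul s t => Nat.pair 4 (Nat.pair (eT s) (eT t))
  | .app i t => Nat.pair 5 (Nat.pair i (eT t))

theorem eT_inj {m k : ℕ} (s : Tm m k) : ∀ t : Tm m k, eT s = eT t → s = t := by
  induction s with
  | var i =>
    intro t h
    cases t <;> simp [eT, Nat.pair_eq_pair] at h ⊢
    exact Fin.ext h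
  | zero =>
    intro t h
    cases t <;> simp [eT, Nat.pair_eq_pair] at h ⊢
  | succ s ih =>
    intro t h
    cases t <;> simp [eT, Nat.pair_eq_pair] at h ⊢
    exact ih _ h
  | add s s' ih ih' =>
    intro t h
    cases t <;> simp [eT, Nat.pair_eq_pair] at h ⊢
    exact ⟨ih _ h.1, ih' _ h.2⟩
  | mul s s' ih ih' =>
    intro t h
    cases t <;> simp [eT, Nat.pair_eq_pair] at h ⊢
    exact ⟨ih _ h.1, ih' _ h.2⟩
  | app i s ih =>
    intro t h
    cases t <;> simp [eT, Nat.pair_eq_pair] at h ⊢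
    exact ⟨Fin.ext h.1, ih _ h.2⟩

/-- A code of a formula. -/
def eF : {m k : ℕ} → Fm m k → ℕ
  | _, _, .eq s t => Nat.pair 0 (Nat.pair (eT s) (eT t))
  | _, _, .neg φ => Nat.pair 1 (eF φ)
  | _, _, .and φ ψ => Nat.pair 2 (Nat.pair (eF φ) (eF ψ))
  | _, _, .exN φ => Nat.pair 3 (eF φ)
  | _, _, .exR φ => Nat.pair 4 (eF φ)

theorem eF_inj {m k : ℕ} (φ : Fm m k) : ∀ ψ : Fm m k, eF φ = eF ψ → φ = ψ := by
  induction φ with
  | eq s t =>
    intro ψ h
    cases ψ <;> simp [eF, Nat.pair_eq_pair] at h ⊢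
    exact ⟨eT_inj _ _ h.1, eT_inj _ _ h.2⟩
  | neg φ ih =>
    intro ψ h
    cases ψ <;> simp [eF, Nat.pair_eq_pair] at h ⊢
    exact ih _ h
  | and φ φ' ih ih' =>
    intro ψ h
    cases ψ <;> simp [eF, Nat.pair_eq_pair] at h ⊢
    exact ⟨ih _ h.1, ih' _ h.2⟩
  | exN φ ih =>
    intro ψ h
    cases ψ <;> simp [eF, Nat.pair_eq_pair] at h ⊢
    exact ih _ h
  | exR φ ih =>
    intro ψ h
    cases ψ <;> simp [eF, Nat.pair_eq_pair] at h ⊢
    exact ih _ h

instance (m k : ℕ) : Countable (Fm m k) :=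
  Function.Injective.countable (f := eF) fun φ ψ h => eF_inj φ ψ h

/-! ### Perfect trees -/

theorem ini_congr {x y : ℕ → ℕ} {n : ℕ} (h : ∀ i < n, y i = x i) : ini y n = ini x n := by
  unfold ini
  congr 1
  exact List.map_congr_left fun i hi => h i (List.mem_range.1 hi)

theorem zero_of_le {t : ℕ → ℕ} (ht : ∀ x n, t (ini x (n + 1)) = 0 → t (ini x n) = 0)
    (x : ℕ → ℕ) {n k : ℕ} (hnk : n ≤ k) (h : t (ini x k) = 0) : t (ini x n) = 0 := by
  induction k, hnk using Nat.le_induction with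
  | base => exact h
  | succ k _ ih => exact ih (ht x k h)

theorem step {t : ℕ → ℕ} (ht : Perfect t) (x : ℕ → ℕ) (n : ℕ) (h : t (ini x n) = 0) :
    ∃ y, (∀ i < n, y i = x i) ∧ t (ini y (n + 1)) = 0 := by
  obtain ⟨y, z, k, h1, h2, h3, h4, i, hi, h5⟩ := ht.2.2 x n h
  have h6 : n ≤ i := by
    by_contra h7
    push Not at h7
    exact h5 (((h1 i h7).1).trans (h1 i h7).2.symm)
  exact ⟨y, fun i hi => (h1 i hi).1, zero_of_le ht.2.1 y (by omega) h3⟩

theorem branch {t : ℕ → ℕ} (ht : Perfect t) (x : ℕ → ℕ) (n : ℕ) (h : t (ini x n) = 0) :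
    ∃ y, Branch t y ∧ ∀ i < n, y i = x i := by
  classical
  let F : (j : ℕ) → {y : ℕ → ℕ // t (ini y (n + j)) = 0} := fun j =>
    Nat.rec (motive := fun j => {y : ℕ → ℕ // t (ini y (n + j)) = 0}) ⟨x, h⟩
      (fun j y => ⟨(step ht y.1 (n + j) y.2).choose, (step ht y.1 (n + j) y.2).choose_spec.2⟩) j
  have hF : ∀ j, ∀ i < n + j, (F (j + 1)).1 i = (F j).1 i := fun j =>
    (step ht (F j).1 (n + j) (F j).2).choose_spec.1
  have hF0 : (F 0).1 = x := rfl
  have hF1 : ∀ j d, ∀ i < n + j, (F (j + d)).1 i = (F j).1 i := by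
    intro j d
    induction d with
    | zero => intro i _; rfl
    | succ d ih =>
      intro i hi
      exact (hF (j + d) i (by omega)).trans (ih i hi)
  let y : ℕ → ℕ := fun i => (F (i + 1)).1 i
  have hy : ∀ j, ∀ i < n + j, y i = (F j).1 i := by
    intro j i hi
    rcases le_total j (i + 1) with h1 | h1
    · obtain ⟨d, hd⟩ := Nat.exists_eq_add_of_le h1
      have := hF1 j d i hi
      simp only [y]
      rw [hd]
      exact this
    · obtain ⟨d, hd⟩ := Nat.exists_eq_add_of_le h1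
      have := hF1 (i + 1) d i (by omega)
      simp only [y]
      rw [hd]
      exact this.symm
  refine ⟨y, fun k => ?_, fun i hi => (hy 0 i (by omega))⟩
  have h1 : ini y (n + k) = ini (F k).1 (n + k) := ini_congr (hy k)
  have h2 : t (ini y (n + k)) = 0 := by
    rw [h1]
    exact (F k).2
  exact zero_of_le ht.2.1 y (by omega) h2

theorem two {t : ℕ → ℕ} (ht : Perfect t) : ∃ x y, Branch t x ∧ Branch t y ∧ x ≠ y := by
  obtain ⟨x, n, hx⟩ := ht.1
  obtain ⟨y, z, k, -, -, h3, h4, i, hi, h5⟩ := ht.2.2 x n hx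
  obtain ⟨y', h6, h7⟩ := branch ht y k h3
  obtain ⟨z', h8, h9⟩ := branch ht z k h4
  refine ⟨y', z', h6, h8, fun h => h5 ?_⟩
  rw [← h7 i hi, ← h9 i hi, h]

/-! ### Relations between reals as sets -/

theorem rl_inj {x y : ℕ → ℕ} (h : rl x = rl y) : x = y := by
  funext n
  have h1 : pair (nat n) (nat (x n)) ∈ rl y := by
    rw [← h]
    exact ZFSet.mem_range.2 ⟨n, rfl⟩
  obtain ⟨m, hm⟩ := ZFSet.mem_range.1 h1
  obtain ⟨h2, h3⟩ := ZFSet.pair_inj.1 hm
  obtain rfl := nat_injective h2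
  exact (nat_injective h3).symm

/-- The code of a finite sequence of reals. -/
noncomputable def cR : {m : ℕ} → (Fin m → ℕ → ℕ) → ZFSet.{0}
  | 0, _ => ∅
  | _ + 1, x => pair (rl (x 0)) (cR (Fin.tail x))

/-- The code of a finite sequence of numbers. -/
noncomputable def cN : {k : ℕ} → (Fin k → ℕ) → ZFSet.{0}
  | 0, _ => ∅
  | _ + 1, v => pair (nat (v 0)) (cN (Fin.tail v))

theorem cR_inj : ∀ {m : ℕ} {x y : Fin m → ℕ → ℕ}, cR x = cR y → x = y
  | 0, x, y, _ => funext fun i => i.elim0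
  | m + 1, x, y, h => by
    obtain ⟨h1, h2⟩ := ZFSet.pair_inj.1 h
    have h3 := rl_inj h1
    have h4 := cR_inj h2
    funext i
    refine Fin.cases h3 (fun i => ?_) i
    exact congrFun h4 i

theorem cN_inj : ∀ {m : ℕ} {x y : Fin m → ℕ}, cN x = cN y → x = y
  | 0, x, y, _ => funext fun i => i.elim0
  | m + 1, x, y, h => by
    obtain ⟨h1, h2⟩ := ZFSet.pair_inj.1 h
    have h3 := nat_injective h1
    have h4 := cN_inj h2
    funext i
    refine Fin.cases h3 (fun i => ?_) i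
    exact congrFun h4 i

theorem cR_Z (π : Pkg Unit) : ∀ {m : ℕ} (x : Fin m → ℕ → ℕ), (∀ i, rl (x i) ∈ π.Z) → cR x ∈ π.Z
  | 0, _, _ => π.empty_Z
  | _ + 1, x, h => π.pair_mem_Z (h 0) (cR_Z π (Fin.tail x) fun i => h i.succ)

theorem cN_Z (π : Pkg Unit) : ∀ {k : ℕ} (v : Fin k → ℕ), cN v ∈ π.Z
  | 0, _ => π.empty_Z
  | _ + 1, v => π.pair_mem_Z (π.nat_Z _) (cN_Z π (Fin.tail v))

/-- Reals as elements of the full structure. -/
def up {m : ℕ} (x : Fin m → ℕ → ℕ) : Fin m → (std Set.univ).R :=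
  fun i => (⟨x i, trivial⟩ : (Set.univ : Set (ℕ → ℕ)))

theorem up_cons {m : ℕ} (a : ℕ → ℕ) (x : Fin m → ℕ → ℕ) :
    up (Fin.cons a x : Fin (m + 1) → ℕ → ℕ) =
      Fin.cons (⟨a, trivial⟩ : (Set.univ : Set (ℕ → ℕ))) (up x) := by
  funext i
  refine Fin.cases rfl (fun i => ?_) i
  simp [up]

/-- The relation defined by a formula. -/
noncomputable def EV {m k : ℕ} (φ : Fm m k) : ZFSet.{0} :=
  ZFSet.range fun p : {p : (Fin m → ℕ → ℕ) × (Fin k → ℕ) // Holds (std Set.univ) φ (up p.1) p.2} =>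
    pair (cR p.1.1) (cN p.1.2)

/-- The plays with a strategy of the first player. -/
noncomputable def P1 : ZFSet.{0} := ZFSet.range fun p : (ℕ → ℕ) × (ℕ → ℕ) =>
  pair (pair (rl p.1) (rl p.2)) (rl (play₁ p.1 p.2))

/-- The plays with a strategy of the second player. -/
noncomputable def P2 : ZFSet.{0} := ZFSet.range fun p : (ℕ → ℕ) × (ℕ → ℕ) =>
  pair (pair (rl p.1) (rl p.2)) (rl (play₂ p.1 p.2))

/-- The winning strategies of the first player. -/
noncomputable def W1 {m : ℕ} (φ : Fm (m + 1) 0) : ZFSet.{0} :=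
  ZFSet.range fun p : {p : (ℕ → ℕ) × (Fin m → ℕ → ℕ) // ∀ y : ℕ → ℕ,
      Tr Set.univ φ (up (Fin.cons (play₁ p.1 y) p.2 : Fin (m + 1) → ℕ → ℕ))} =>
    pair (cR p.1.2) (rl p.1.1)

/-- The winning strategies of the second player. -/
noncomputable def W2 {m : ℕ} (φ : Fm (m + 1) 0) : ZFSet.{0} :=
  ZFSet.range fun p : {p : (ℕ → ℕ) × (Fin m → ℕ → ℕ) // ∀ y : ℕ → ℕ,
      ¬ Tr Set.univ φ (up (Fin.cons (play₂ p.1 y) p.2 : Fin (m + 1) → ℕ → ℕ))} =>
    pair (cR p.1.2) (rl p.1.1)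

/-- The pairs of branches of trees. -/
noncomputable def BR : ZFSet.{0} :=
  ZFSet.range fun p : {p : (ℕ → ℕ) × (ℕ → ℕ) × (ℕ → ℕ) //
      Branch p.1 p.2.1 ∧ Branch p.1 p.2.2 ∧ p.2.1 ≠ p.2.2} =>
    pair (rl p.1.1) (pair (rl p.1.2.1) (rl p.1.2.2))

theorem snd_Z (π : Pkg Unit) {a E : ZFSet.{0}} (ha : a ∈ π.Z) (hE : E ∈ π.Z)
    (h : ∃ X, pair a X ∈ E) : ∃ X ∈ π.Z, pair a X ∈ E := by
  have hB := isBase_univ
  refine π.exists_Z (Q := fun X => pair a X ∈ E) ?_ h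
  (repeat' first
    | assumption
    | exact DfnF.proj _
    | exact DfnF.const (by assumption)
    | exact DfnF.const' (by first | assumption | trivial) (by first | assumption | trivial)
    | exact Dfn.prop _
    | apply Dfn.not | apply Dfn.and | apply Dfn.or | apply Dfn.imp | apply Dfn.iff
    | apply hB.bex | apply hB.ball | apply Dfn.ex | apply Dfn.all
    | apply Dfn.eq | apply Dfn.mem | apply hB.pair')

theorem fst_Z (π : Pkg Unit) {a b E : ZFSet.{0}} (ha : a ∈ π.Z) (hb : b ∈ π.Z) (hE : E ∈ π.Z)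
    (h : ∃ X, pair (pair X a) b ∈ E) : ∃ X ∈ π.Z, pair (pair X a) b ∈ E := by
  have hB := isBase_univ
  refine π.exists_Z (Q := fun X => pair (pair X a) b ∈ E) ?_ h
  (repeat' first
    | assumption
    | exact DfnF.proj _
    | exact DfnF.const (by assumption)
    | exact DfnF.const' (by first | assumption | trivial) (by first | assumption | trivial)
    | exact Dfn.prop _
    | apply Dfn.not | apply Dfn.and | apply Dfn.or | apply Dfn.imp | apply Dfn.iff
    | apply hB.bex | apply hB.ball | apply Dfn.ex | apply Dfn.all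
    | apply Dfn.eq | apply Dfn.mem | apply hB.pair')

/-- The reals of the submodel. -/
def RZ (π : Pkg Unit) : Set (ℕ → ℕ) := {x | rl x ∈ π.Z}

theorem val_eq (π : Pkg Unit) {m k : ℕ} (x : Fin m → (std (RZ π)).R) (v : Fin k → ℕ)
    (t : Tm m k) : (t.val (std (RZ π)) x v : ℕ) =
      t.val (std Set.univ) (up fun i => (x i).1) v := by
  induction t with
  | var i => rfl
  | zero => rfl
  | succ t ih => exact congrArg Nat.succ ih
  | add s t ih ih' => exact congrArg₂ (fun a b : ℕ => a + b) ih ih'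
  | mul s t ih ih' => exact congrArg₂ (fun a b : ℕ => a * b) ih ih'
  | app i t ih => exact congrArg (x i).1 ih

theorem agree (π : Pkg Unit) (hA : ∀ (m k : ℕ) (φ : Fm m k), EV φ ∈ π.Z) {m k : ℕ}
    (φ : Fm m k) : ∀ (x : Fin m → (std (RZ π)).R) (v : Fin k → ℕ),
      Holds (std (RZ π)) φ x v ↔ Holds (std Set.univ) φ (up fun i => (x i).1) v := by
  induction φ with
  | eq s t =>
    intro x v
    simp only [Holds]
    exact Eq.congr (val_eq π x v s) (val_eq π x v t)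
  | neg φ ih => intro x v; exact not_congr (ih x v)
  | and φ ψ ih ih' => intro x v; exact and_congr (ih x v) (ih' x v)
  | exN φ ih => intro x v; exact exists_congr fun a => ih x (Fin.cons a v)
  | @exR m k φ ih =>
    intro x v
    constructor
    · rintro ⟨a, h⟩
      refine ⟨(⟨a.1, trivial⟩ : (Set.univ : Set (ℕ → ℕ))), ?_⟩
      have h1 := (ih _ v).1 h
      have h2 : (fun i => ((Fin.cons a x : Fin (m + 1) → (std (RZ π)).R) i).1) =
          (Fin.cons a.1 (fun i => (x i).1) : Fin (m + 1) → ℕ → ℕ) := by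
        funext i
        refine Fin.cases rfl (fun i => ?_) i
        simp
      rw [h2, up_cons] at h1
      exact h1
    · rintro ⟨a, h⟩
      have h1 : ∃ X, pair (pair X (cR fun i => (x i).1)) (cN v) ∈ EV φ := by
        refine ⟨rl a.1, ZFSet.mem_range.2 ⟨⟨((Fin.cons a.1 (fun i => (x i).1)), v), ?_⟩, rfl⟩⟩
        simp only
        rw [up_cons]
        exact h
      obtain ⟨X, hX, h2⟩ := fst_Z π (cR_Z π _ fun i => (x i).2) (cN_Z π v) (hA _ _ φ) h1
      obtain ⟨⟨⟨y, w⟩, hp⟩, h3⟩ := ZFSet.mem_range.1 h2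
      obtain ⟨h4, h5⟩ := ZFSet.pair_inj.1 h3
      simp only at h4 h5 hp
      obtain rfl := cN_inj h5
      obtain ⟨h6, h7⟩ := ZFSet.pair_inj.1 h4
      have h8 := cR_inj h7
      subst h6
      refine ⟨(⟨y 0, hX⟩ : RZ π), (ih _ w).2 ?_⟩
      have h9 : (fun i => ((Fin.cons (⟨y 0, hX⟩ : RZ π) x : Fin (m + 1) →
          (std (RZ π)).R) i).1) = y := by
        funext i
        refine Fin.cases rfl (fun i => ?_) i
        simp only [Fin.cons_succ]
        exact (congrFun h8 i).symm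
      rw [h9]
      exact hp

end UB

open UB

theorem uB : S_UB := by
  intro n hn
  refine ⟨{P1, P2, BR} ∪ ((⋃ m, ⋃ k, Set.range fun φ : Fm m k => EV φ) ∪
    ((⋃ m, Set.range fun φ : Fm (m + 1) 0 => W1 φ) ∪
      ⋃ m, Set.range fun φ : Fm (m + 1) 0 => W2 φ)), ?_, fun π hπ => ?_⟩
  · refine Set.Countable.union (Set.Finite.countable (Set.toFinite _)) (Set.Countable.union ?_
      (Set.Countable.union ?_ ?_))
    · exact Set.countable_iUnion fun m => Set.countable_iUnion fun k => Set.countable_range _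
    · exact Set.countable_iUnion fun m => Set.countable_range _
    · exact Set.countable_iUnion fun m => Set.countable_range _
  have hP1 : P1 ∈ π.Z := hπ (Or.inl (by simp))
  have hP2 : P2 ∈ π.Z := hπ (Or.inl (by simp))
  have hBR : BR ∈ π.Z := hπ (Or.inl (by simp))
  have hEV : ∀ (m k : ℕ) (φ : Fm m k), EV φ ∈ π.Z := fun m k φ => hπ (Or.inr (Or.inl
    (Set.mem_iUnion.2 ⟨m, Set.mem_iUnion.2 ⟨k, φ, rfl⟩⟩)))
  have hW1 : ∀ (m : ℕ) (φ : Fm (m + 1) 0), W1 φ ∈ π.Z := fun m φ => hπ (Or.inr (Or.inr (Or.inl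
    (Set.mem_iUnion.2 ⟨m, φ, rfl⟩))))
  have hW2 : ∀ (m : ℕ) (φ : Fm (m + 1) 0), W2 φ ∈ π.Z := fun m φ => hπ (Or.inr (Or.inr (Or.inr
    (Set.mem_iUnion.2 ⟨m, φ, rfl⟩))))
  refine ⟨?_, ?_⟩
  · intro m φ hφ p
    have hpl1 : ∀ σ ∈ RZ π, ∀ y ∈ RZ π, play₁ σ y ∈ RZ π := by
      intro σ hσ y hy
      obtain ⟨X, hX, h1⟩ := snd_Z π (π.pair_mem_Z hσ hy) hP1
        ⟨rl (play₁ σ y), ZFSet.mem_range.2 ⟨(σ, y), rfl⟩⟩
      obtain ⟨⟨σ', y'⟩, h2⟩ := ZFSet.mem_range.1 h1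
      obtain ⟨h3, h4⟩ := ZFSet.pair_inj.1 h2
      obtain ⟨h5, h6⟩ := ZFSet.pair_inj.1 h3
      obtain rfl := rl_inj h5
      obtain rfl := rl_inj h6
      subst h4
      exact hX
    have hpl2 : ∀ σ ∈ RZ π, ∀ y ∈ RZ π, play₂ σ y ∈ RZ π := by
      intro σ hσ y hy
      obtain ⟨X, hX, h1⟩ := snd_Z π (π.pair_mem_Z hσ hy) hP2
        ⟨rl (play₂ σ y), ZFSet.mem_range.2 ⟨(σ, y), rfl⟩⟩
      obtain ⟨⟨σ', y'⟩, h2⟩ := ZFSet.mem_range.1 h1
      obtain ⟨h3, h4⟩ := ZFSet.pair_inj.1 h2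
      obtain ⟨h5, h6⟩ := ZFSet.pair_inj.1 h3
      obtain rfl := rl_inj h5
      obtain rfl := rl_inj h6
      subst h4
      exact hX
    have hag : ∀ (z : ℕ → ℕ) (hz : z ∈ RZ π),
        (Tr (RZ π) φ (Fin.cons (⟨z, hz⟩ : RZ π) p) ↔
          Tr Set.univ φ (up (Fin.cons z (fun i => (p i).1) : Fin (m + 1) → ℕ → ℕ))) := by
      intro z hz
      have h1 := agree π hEV φ (Fin.cons (⟨z, hz⟩ : RZ π) p) Fin.elim0
      have h2 : (fun i => ((Fin.cons (⟨z, hz⟩ : RZ π) p : Fin (m + 1) →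
          (std (RZ π)).R) i).1) = (Fin.cons z (fun i => (p i).1) : Fin (m + 1) → ℕ → ℕ) := by
        funext i
        refine Fin.cases rfl (fun i => ?_) i
        simp only [Fin.cons_succ]
      rw [h2] at h1
      exact h1
    have hc : cR (fun i => (p i).1) ∈ π.Z := cR_Z π _ fun i => (p i).2
    rcases hn m φ hφ (up fun i => (p i).1) with ⟨σ, hσ⟩ | ⟨σ, hσ⟩
    · left
      obtain ⟨X, hX, h1⟩ := snd_Z π hc (hW1 m φ) ⟨rl σ.1, ZFSet.mem_range.2
        ⟨⟨(σ.1, fun i => (p i).1), fun y => by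
          obtain ⟨x, h1, h2⟩ := hσ ⟨y, trivial⟩
          rw [up_cons]
          have h3 : x = ⟨play₁ σ.1 y, trivial⟩ := Subtype.ext h1
          rw [h3] at h2
          exact h2⟩, rfl⟩⟩
      obtain ⟨⟨⟨σ', q⟩, hq⟩, h2⟩ := ZFSet.mem_range.1 h1
      obtain ⟨h3, h4⟩ := ZFSet.pair_inj.1 h2
      have h5 := cR_inj h3
      simp only at h4 h5 hq
      subst h4 h5
      refine ⟨⟨σ', hX⟩, fun y => ⟨⟨play₁ σ' y.1, hpl1 σ' hX y.1 y.2⟩, rfl, ?_⟩⟩
      exact (hag _ _).2 (hq y.1)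
    · right
      obtain ⟨X, hX, h1⟩ := snd_Z π hc (hW2 m φ) ⟨rl σ.1, ZFSet.mem_range.2
        ⟨⟨(σ.1, fun i => (p i).1), fun y => by
          obtain ⟨x, h1, h2⟩ := hσ ⟨y, trivial⟩
          rw [up_cons]
          have h3 : x = ⟨play₂ σ.1 y, trivial⟩ := Subtype.ext h1
          rw [h3] at h2
          exact h2⟩, rfl⟩⟩
      obtain ⟨⟨⟨σ', q⟩, hq⟩, h2⟩ := ZFSet.mem_range.1 h1
      obtain ⟨h3, h4⟩ := ZFSet.pair_inj.1 h2
      have h5 := cR_inj h3
      simp only at h4 h5 hq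
      subst h4 h5
      refine ⟨⟨σ', hX⟩, fun y => ⟨⟨play₂ σ' y.1, hpl2 σ' hX y.1 y.2⟩, rfl, ?_⟩⟩
      exact fun h => hq y.1 ((hag _ _).1 h)
  · intro t ht hp
    obtain ⟨x, y, h1, h2, h3⟩ := two hp
    obtain ⟨X, hX, h4⟩ := snd_Z π (a := rl t) ht hBR ⟨pair (rl x) (rl y), ZFSet.mem_range.2
      ⟨⟨(t, x, y), h1, h2, h3⟩, rfl⟩⟩
    obtain ⟨⟨⟨t', x', y'⟩, h5, h6, h7⟩, h8⟩ := ZFSet.mem_range.1 h4
    obtain ⟨h9, h10⟩ := ZFSet.pair_inj.1 h8
    obtain rfl := rl_inj h9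
    subst h10
    obtain ⟨h11, h12⟩ := π.of_pair_Z hX
    exact ⟨x', h11, y', h12, h5, h6, h7⟩

end Pool.Agent.H637_NO
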