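import Pool.Agent.H637_NO.Stm
import Pool.Agent.H637_NO.LZF
import Pool.Agent.R597.Am1
import Pool.Agent.R597.Univ

/-!
# New orbits: the least level of `L(R)` that is a model of ZF
-/

set_option autoImplicit false

namespace Pool.Agent.H637_NO

open Pool.Agent.W868 Pool.Agent.W868.GM Pool.Agent.R597
open ZFSet (pair)

/-! ### The base sets -/

theorem uU_nat_succ (n : ℕ) : nat (n + 1) = insert (nat n) (nat n) := rfl

theorem uU_nat_tra : ∀ n : ℕ, ∀ y ∈ nat n, y ∈ ZFSet.omega := by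
  intro n
  induction n with
  | zero => exact fun y hy => absurd hy (ZFSet.notMem_empty y)
  | succ n ih =>
    intro y hy
    rw [uU_nat_succ, ZFSet.mem_insert_iff] at hy
    rcases hy with rfl | hy
    · exact mem_omega_iff.2 ⟨n, rfl⟩
    · exact ih y hy

theorem uU_mem_T0b {x : ZFSet.{0}} : x ∈ T0b ↔ x ∈ ZFSet.omega ∨
    (∃ m ∈ ZFSet.omega, ∃ n ∈ ZFSet.omega, x = {m, n}) ∨
    ∃ m ∈ ZFSet.omega, ∃ n ∈ ZFSet.omega, x = pair m n := by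
  unfold T0b oo
  rw [ZFSet.mem_union, ZFSet.mem_union, mem_im, ZFSet.mem_prod]
  refine or_congr Iff.rfl (or_congr ?_ Iff.rfl)
  constructor
  · rintro ⟨p, hp, rfl⟩
    obtain ⟨a, ha, b, hb, rfl⟩ := ZFSet.mem_prod.1 hp
    exact ⟨a, ha, b, hb, by rw [fs_pair, sn_pair]⟩
  · rintro ⟨m, hm, n, hn, rfl⟩
    exact ⟨pair m n, ZFSet.pair_mem_prod.2 ⟨hm, hn⟩, by rw [fs_pair, sn_pair]⟩

theorem uU_mem_SB {H x : ZFSet.{0}} : x ∈ SB H ↔ x ∈ T0b ∨ x = H ∨ x ∈ H := by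
  unfold SB
  rw [ZFSet.mem_union, ZFSet.mem_insert_iff]

theorem uU_tra_T0b : Tra T0b := by
  intro x hx y hy
  rw [uU_mem_T0b] at hx ⊢
  rcases hx with hx | ⟨m, hm, n, hn, rfl⟩ | ⟨m, hm, n, hn, rfl⟩
  · obtain ⟨n, rfl⟩ := mem_omega_iff.1 hx
    exact Or.inl (uU_nat_tra n y hy)
  · rcases ZFSet.mem_pair.1 hy with rfl | rfl
    · exact Or.inl hm
    · exact Or.inl hn
  · rw [pair, ZFSet.mem_pair] at hy
    rcases hy with rfl | rfl
    · exact Or.inr (Or.inl ⟨m, hm, m, hm, by rw [ZFSet.pair_eq_singleton]⟩)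
    · exact Or.inr (Or.inl ⟨m, hm, n, hn, rfl⟩)

theorem uU_oo_sub : ∀ x ∈ oo, x ∈ T0b := by
  intro x hx
  unfold T0b
  exact ZFSet.mem_union.2 (Or.inr (ZFSet.mem_union.2 (Or.inr hx)))

theorem uU_tra_SB {H : ZFSet.{0}} (hH : ∀ r ∈ H, r ⊆ oo) : Tra (SB H) := by
  intro x hx y hy
  rw [uU_mem_SB] at hx ⊢
  rcases hx with hx | rfl | hx
  · exact Or.inl (uU_tra_T0b x hx y hy)
  · exact Or.inr (Or.inr hy)
  · exact Or.inl (uU_oo_sub y (hH x hx hy))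

theorem uU_mem_PW {M : Set ZFSet.{0}} {r : ZFSet.{0}} : r ∈ PW M ↔ r ⊆ oo ∧ r ∈ M := by
  unfold PW
  rw [ZFSet.mem_sep, ZFSet.mem_powerset]

theorem uU_empty_notMem_oo : ∅ ∉ oo := by
  intro h
  obtain ⟨a, -, b, -, h1⟩ := ZFSet.mem_prod.1 h
  have h2 : ({a} : ZFSet.{0}) ∈ (∅ : ZFSet.{0}) := by
    rw [h1, pair]
    exact ZFSet.mem_pair.2 (Or.inl rfl)
  exact ZFSet.notMem_empty _ h2

theorem uU_omega_notMem {M : Set ZFSet.{0}} : ZFSet.omega ∉ SB (PW M) := by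
  have h0 : ∅ ∈ ZFSet.omega := ZFSet.omega_zero
  intro h
  rw [uU_mem_SB, uU_mem_T0b] at h
  rcases h with (h | ⟨m, hm, n, hn, h⟩ | ⟨m, hm, n, hn, h⟩) | h | h
  · exact ZFSet.mem_irrefl _ h
  · have h1 : ∀ k : ℕ, nat k = m ∨ nat k = n := fun k => by
      have : nat k ∈ ZFSet.omega := mem_omega_iff.2 ⟨k, rfl⟩
      rw [h] at this
      exact ZFSet.mem_pair.1 this
    have h2 : ∀ k l : ℕ, nat k = nat l → k = l := fun k l h => nat_injective h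
    rcases h1 0 with a | a <;> rcases h1 1 with b | b <;> rcases h1 2 with c | c
    · exact absurd (h2 _ _ (a.trans b.symm)) (by norm_num)
    · exact absurd (h2 _ _ (a.trans b.symm)) (by norm_num)
    · exact absurd (h2 _ _ (a.trans c.symm)) (by norm_num)
    · exact absurd (h2 _ _ (b.trans c.symm)) (by norm_num)
    · exact absurd (h2 _ _ (b.trans c.symm)) (by norm_num)
    · exact absurd (h2 _ _ (a.trans c.symm)) (by norm_num)
    · exact absurd (h2 _ _ (a.trans b.symm)) (by norm_num)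
    · exact absurd (h2 _ _ (a.trans b.symm)) (by norm_num)
  · rw [h, pair] at h0
    rcases ZFSet.mem_pair.1 h0 with h1 | h1
    · exact ZFSet.notMem_empty m (h1 ▸ ZFSet.mem_singleton.2 rfl)
    · exact ZFSet.notMem_empty m (h1 ▸ ZFSet.mem_pair.2 (Or.inl rfl))
  · have h1 : nat 1 ∈ ZFSet.omega := mem_omega_iff.2 ⟨1, rfl⟩
    rw [h, uU_mem_PW] at h1
    refine uU_empty_notMem_oo (h1.1 ?_)
    exact ZFSet.mem_insert _ _
  · exact uU_empty_notMem_oo ((uU_mem_PW.1 h).1 h0)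

theorem uU_oo_mem {M : Set ZFSet.{0}} (hM : IsZF M) : oo ∈ M :=
  hM.prod_mem hM.infinity hM.infinity

theorem uU_T0b_mem {M : Set ZFSet.{0}} (hM : IsZF M) : T0b ∈ M := by
  refine hM.union_mem hM.infinity (hM.union_mem ?_ (uU_oo_mem hM))
  refine hM.im_mem (h := fun p => ({fs p, sn p} : ZFSet.{0})) (uU_oo_mem hM) ?_
  exact hM.base.upair' (hM.fs' (DfnF.proj 0)) (hM.sn' (DfnF.proj 0))

theorem uU_SB_mem {M : Set ZFSet.{0}} (hM : IsZF M) {H : ZFSet.{0}} (hH : H ∈ M) : SB H ∈ M :=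
  hM.union_mem (uU_T0b_mem hM) (hM.insert_mem hH hH)

/-! ### A reflecting set is a model of ZF -/

theorem uU_isZF_refl {W : ZFSet.{0}} (hW : IsRefl W) : IsZF {x | x ∈ W} where
  trans := hW.trans
  pairing x hx y hy := by
    have h2 : ∃ z ∈ W, z = ({x, y} : ZFSet.{0}) := by
      refine hW.exists_W (Q := fun z => z = ({x, y} : ZFSet.{0})) ?_ ⟨_, rfl⟩
      exact Dfn.eq (DfnF.proj 0) (isBase_univ.upair' (DfnF.const' trivial hx)
        (DfnF.const' trivial hy))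
    obtain ⟨z, hz, rfl⟩ := h2
    exact hz
  union x hx := by
    have h2 : ∃ z ∈ W, z = ZFSet.sUnion x := by
      refine hW.exists_W (Q := fun z => z = ZFSet.sUnion x) ?_ ⟨_, rfl⟩
      exact Dfn.eq (DfnF.proj 0) (isBase_univ.sUnion' (DfnF.const' trivial hx))
    obtain ⟨z, hz, rfl⟩ := h2
    exact hz
  infinity := hW.omega
  power x hx := ⟨ZFSet.powerset x, hW.pow x hx, fun z => by
    rw [ZFSet.mem_powerset]
    exact ⟨fun h => ⟨hW.sub x hx z h, h⟩, fun h => h.2⟩⟩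
  separation φ _ x hx := ⟨ZFSet.sep (fun z => Sat {x | x ∈ W} id φ ![z]) x,
    hW.sub x hx _ (fun z hz => (ZFSet.mem_sep.1 hz).1), fun z => ZFSet.mem_sep⟩
  replacement φ hφ x hx h := by
    obtain ⟨y, hy, h1⟩ := hW.coll hφ hx fun z hz => by
      obtain ⟨w, ⟨h2, h3⟩, -⟩ := h z hz
      exact ⟨w, h2, h3⟩
    refine ⟨ZFSet.sep (fun w => ∃ z ∈ x, Sat {x | x ∈ W} id φ ![z, w]) y,
      hW.sub y hy _ (fun z hz => (ZFSet.mem_sep.1 hz).1), fun w => ?_⟩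
    rw [ZFSet.mem_sep]
    constructor
    · rintro ⟨h2, h3⟩
      exact ⟨hW.trans y hy w h2, h3⟩
    · rintro ⟨h2, z, hz, h3⟩
      refine ⟨?_, z, hz, h3⟩
      obtain ⟨w', hw', h4⟩ := h1 z hz
      obtain ⟨w0, -, h5⟩ := h z hz
      have h6 : w = w' := (h5 w ⟨h2, h3⟩).trans (h5 w' ⟨hW.trans y hy w' hw', h4⟩).symm
      rw [h6]
      exact hw'

/-- Some level over `SB (PW univ)` is a model of ZF. -/
theorem uU_exists : ∃ κ : ZFSet.{0}, κ.IsOrdinal ∧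
    IsZF {x | x ∈ Lb (SB (PW Set.univ)) κ} := by
  obtain ⟨W, hW⟩ := exists_refl
  have hZ := uU_isZF_refl hW
  set S := SB (PW Set.univ) with hS
  have hSW : S ∈ {x | x ∈ W} := by
    refine uU_SB_mem hZ (hW.sub _ (hW.pow _ (uU_oo_mem hZ)) _ fun z hz => ?_)
    rw [ZFSet.mem_powerset]
    exact (uU_mem_PW.1 hz).1
  have hT : Tra S := uU_tra_SB fun r hr => (uU_mem_PW.1 hr).1
  have h1 := (lZF _ S hZ hSW hT).1
  obtain ⟨κ, hκ⟩ : ∃ κ : ZFSet.{0}, ∀ z, z ∈ κ ↔ z.IsOrdinal ∧ z ∈ W :=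
    ⟨ZFSet.sep (fun z => z.IsOrdinal) W, fun z => by rw [ZFSet.mem_sep, and_comm]⟩
  refine ⟨κ, ⟨?_, ?_⟩, ?_⟩
  · intro x hx y hy
    have hx' := (hκ x).1 hx
    exact (hκ y).2 ⟨hx'.1.mem hy, hW.trans x hx'.2 y hy⟩
  · intro x y z hx hy hz
    exact ((hκ z).1 hz).1.mem_trans hx hy
  · have h2 : {x | x ∈ Lb S κ} = LCb {x | x ∈ W} S := by
      ext x
      constructor
      · intro hx
        rcases mem_Lb.1 hx with h | ⟨u, hu, h⟩
        · exact ⟨∅, hZ.empty_mem, ZFSet.isOrdinal_empty, Lb_base h⟩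
        · have h3 := (hκ u).1 hu
          refine ⟨sc u, hZ.sc_mem h3.2, isOrdinal_sc h3.1, ?_⟩
          rw [Lb_sc]
          exact h
      · rintro ⟨ξ, h3, h4, h5⟩
        exact Lb_subset ((hκ ξ).2 ⟨h4, h3⟩) h5
    rw [h2]
    exact h1

theorem uU_HCt_mono {M : Set ZFSet.{0}} {z : ZFSet.{0}} (h : HCt M z) : HCt Set.univ z := by
  obtain ⟨T, -, h2, h3, f, -, h5⟩ := h
  exact ⟨T, trivial, h2, h3, f, trivial, h5⟩

/-- A model of ZF with all the reals has all the hereditarily countable sets. -/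
theorem uU_HCt {M : Set ZFSet.{0}} (hM : IsZF M) (hHC : S_HC) (hP : ∀ r : ZFSet.{0}, r ⊆ oo → r ∈ M)
    {z : ZFSet.{0}} : HCt Set.univ z ↔ HCt M z := by
  refine ⟨fun h => ?_, uU_HCt_mono⟩
  obtain ⟨r, hr, h1⟩ := (hHC _ isZFC_univ.toIsZF).2.1 z h
  have hr' := (uU_mem_PW.1 hr).1
  exact (hHC M hM).2.2.2.1 r (hP r hr') hr' z h1

theorem uU (hHC : S_HC) (_hHC2 : S_HC2) (hWD : S_WD) : S_UU := by
  classical
  obtain ⟨κ, hκ, hκZ⟩ := uU_exists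
  set S := SB (PW Set.univ) with hS
  have hT : Tra S := uU_tra_SB fun r hr => (uU_mem_PW.1 hr).1
  let A : Set ZFSet.{0} := {α | α.IsOrdinal ∧ IsZF {x | x ∈ Lb S α}}
  have hA : A.Nonempty := ⟨κ, hκ, hκZ⟩
  obtain ⟨γ, ⟨hγ, hγZ⟩, hmin⟩ : ∃ γ ∈ A, ∀ α ∈ γ, α ∉ A :=
    ⟨ZFSet.mem_wf.min A hA, ZFSet.mem_wf.min_mem A hA, fun α h1 h2 =>
      ZFSet.mem_wf.not_lt_min A h2 h1⟩
  have h0 : (∅ : ZFSet.{0}) ∈ γ := by
    rcases ZFSet.isOrdinal_empty.mem_trichotomous hγ with h | h | h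
    · exact h
    · subst h
      have h1 : ZFSet.omega ∈ Lb S ∅ := hγZ.infinity
      rw [Lb_empty] at h1
      exact absurd h1 uU_omega_notMem
    · exact absurd h (ZFSet.notMem_empty _)
  have hne : S ∈ Lb S γ := self_mem_Lb h0
  have hReal : ∀ r : ZFSet.{0}, r ⊆ oo → r ∈ {x | x ∈ Lb S γ} := fun r hr =>
    Lb_base (uU_mem_SB.2 (Or.inr (Or.inr (uU_mem_PW.2 ⟨hr, trivial⟩))))
  obtain ⟨h, hh, hmem⟩ := (hHC _ hγZ).1
  have hmem' : ∀ z, z ∈ h ↔ HCt Set.univ z := fun z => by rw [hmem, uU_HCt hγZ hHC hReal]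
  obtain ⟨PD, hPD, hPc⟩ := hWD
  refine ⟨γ, hγ, hγZ, fun α hα hZ => hmin α hα ⟨hγ.mem hα, hZ⟩,
    fun α hα => ord_level hT hγ hγZ hne hα, fun x hx => lev_level hT hγ hγZ hne hx,
    ⟨h, hh, hmem'⟩, ZFSet.sep (fun c => ∃ b ∈ h, PD b c) h, ?_, fun c => ?_⟩
  · refine hγZ.sep_mem (Q := fun c => ∃ b ∈ h, PD b c) ?_ hh
    apply hγZ.base.bex (DfnF.const hh)
    exact Dfn.comp2 (Q := PD) (hPD.dfn hγZ.trans) (DfnF.proj 0) (DfnF.proj 1)
  · rw [ZFSet.mem_sep, hPc _ isZFC_univ c, hmem']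
    constructor
    · rintro ⟨h1, b, hb, h2⟩
      exact ⟨b, (hmem' b).1 hb, h1, h2⟩
    · rintro ⟨b, hb, h1, h2⟩
      exact ⟨h1, b, (hmem' b).2 hb, h2⟩

end Pool.Agent.H637_NO
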