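import Pool.Agent.H637_NO.Stm
import Pool.Agent.R597.Wo

/-!
# New orbits: the model `V`

The generic extension of `U` by the fast sequences, and the class `L[A]` in it.
-/

set_option autoImplicit false
set_option linter.unusedSectionVars false
set_option linter.unreachableTactic false
set_option linter.unusedTactic false

namespace Pool.Agent.H637_NO

open Pool.Agent.W868 Pool.Agent.W868.GM Pool.Agent.Y588 Pool.Agent.R597
open ZFSet (pair)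

/-- The order of the fast sequences. -/
noncomputable def LeP (p : ZFSet.{0}) : ZFSet.{0} :=
  ZFSet.sep (fun q => sn q ⊆ fs q) (ZFSet.prod p p)

theorem mem_LeP {p a b : ZFSet.{0}} : pair a b ∈ LeP p ↔ a ∈ p ∧ b ∈ p ∧ b ⊆ a := by
  rw [LeP, ZFSet.mem_sep, ZFSet.pair_mem_prod, fs_pair, sn_pair, and_assoc]

theorem forc (hPC : S_PC) {U : Set ZFSet.{0}} (hU : IsZF U) {p : ZFSet.{0}} (hp : p ∈ U)
    (h : ∀ c, c ∈ p ↔ Pc U c) : IsForcing U p (LeP p) := by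
  have hB := hU.base
  refine ⟨hp, ?_, ?_, ?_, ?_⟩
  · exact hU.sep_mem (Q := fun q => sn q ⊆ fs q)
      (hB.subset' (hU.sn' (DfnF.proj 0)) (hU.fs' (DfnF.proj 0))) (hU.prod_mem hp hp)
  · intro a ha
    exact mem_LeP.2 ⟨ha, ha, fun _ h => h⟩
  · intro a ha b hb c hc h1 h2
    exact mem_LeP.2 ⟨hc, ha, fun x hx => (mem_LeP.1 h1).2.2 ((mem_LeP.1 h2).2.2 hx)⟩
  · have h0 := (h ∅).2 (hPC U hU).1
    exact ⟨∅, h0, fun c hc => mem_LeP.2 ⟨hc, h0, fun x hx => absurd hx (ZFSet.notMem_empty _)⟩⟩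

/-- The forcing of the fast sequences adds no subset of `ω × ω`. -/
theorem no_new (hHC2 : S_HC2) (hPC : S_PC) {U : Set ZFSet.{0}} (hU : GoodU U) {p : ZFSet.{0}}
    (hp : p ∈ U) (hpc : ∀ c, c ∈ p ↔ Pc U c) {G : ZFSet.{0}} (hG : IsGeneric U p (LeP p) G)
    {x : ZFSet.{0}} (hx : x ∈ ext U G) (hxo : x ⊆ oo) : x ∈ U := by
  have hZ := hU.zf
  have hB := hZ.base
  have hP := forc hPC hZ hp hpc
  obtain ⟨σ, hσ, rfl⟩ := hx
  obtain ⟨t, ht, htP, htU, htop⟩ := top_mem hZ hP hG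
  have hoo : oo ∈ U := hZ.prod_mem hZ.infinity hZ.infinity
  obtain ⟨f, hf, hfi⟩ : Inj U oo ZFSet.omega :=
    ((hHC2.1 U hZ).2.2.1 oo (hHC2.1 U hZ).2.2.2.2).2.1
  have hL := hP.le_mem
  have hω := hZ.infinity
  let Dec : ZFSet.{0} → ZFSet.{0} → Prop := fun c q => Qmem p (LeP p) (chk t q) σ c ∨
    ∀ d ∈ p, pair d c ∈ LeP p → ¬ Qmem p (LeP p) (chk t q) σ d
  have hchk : ∀ {m : ℕ} (i : Fin m), DfnF U U fun w : Fin m → ZFSet.{0} => chk t (w i) :=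
    fun i => DfnF.comp1 (f := chk t) (dfn_chk hZ htU) (DfnF.proj i)
  have hdec : Dfn U U fun w : Fin 2 → ZFSet.{0} => Dec (w 0) (w 1) := by
    refine (dfn_qmem hZ hp hL (hchk 1) (DfnF.const hσ) (DfnF.proj 0)).or ?_
    refine hB.ball (Q := fun d w => pair d (w 0) ∈ LeP p →
      ¬ Qmem p (LeP p) (chk t (w 1)) σ d) (DfnF.const hp) ?_
    refine (Dfn.mem (hB.pair' (DfnF.proj 0) (DfnF.proj 1)) (DfnF.const hL)).imp ?_
    exact (dfn_qmem hZ hp hL (hchk 2) (DfnF.const hσ) (DfnF.proj 0)).not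
  have hmono : ∀ c ∈ p, ∀ c' ∈ p, pair c' c ∈ LeP p → ∀ q, Dec c q → Dec c' q := by
    rintro c hc c' hc' h q (h1 | h1)
    · exact Or.inl (h1.mono hP hc hc' h)
    · exact Or.inr fun d hd hdc => h1 d hd (hP.trans _ hc _ hc' _ hd hdc h)
  have hdense : ∀ c ∈ p, ∀ q, ∃ c' ∈ p, pair c' c ∈ LeP p ∧ Dec c' q := by
    intro c hc q
    by_cases h : ∀ d ∈ p, pair d c ∈ LeP p → ¬ Qmem p (LeP p) (chk t q) σ d
    · exact ⟨c, hc, hP.refl _ hc, Or.inr h⟩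
    · push Not at h
      obtain ⟨d, hd, hdc, h1⟩ := h
      exact ⟨d, hd, hdc, Or.inl h1⟩
  let X : ZFSet.{0} → ZFSet.{0} := fun n =>
    ZFSet.sep (fun c => ∀ q ∈ oo, pair q n ∈ f → Dec c q) p
  have hX : DfnF U U fun w : Fin 1 → ZFSet.{0} => X (w 0) := by
    refine hZ.sep' (Q := fun c w => ∀ q ∈ oo, pair q (w 0) ∈ f → Dec c q) (DfnF.const hp) ?_
    refine hB.ball (Q := fun q (w : Fin 2 → ZFSet.{0}) => pair q (w 1) ∈ f → Dec (w 0) q)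
      (DfnF.const hoo) ?_
    refine (Dfn.mem (hB.pair' (DfnF.proj 0) (DfnF.proj 2)) (DfnF.const hf)).imp ?_
    exact Dfn.comp2 (Q := Dec) hdec (DfnF.proj 1) (DfnF.proj 0)
  have hD : im (fun n => pair n (X n)) ZFSet.omega ∈ U :=
    hZ.im_mem hω (hB.pair' (DfnF.proj 0) hX)
  have hDS : DSeq p (im (fun n => pair n (X n)) ZFSet.omega) := by
    refine ⟨fun q hq => ?_, fun n hn => ⟨X n, mem_im.2 ⟨n, hn, rfl⟩⟩, fun q hq => ?_⟩
    · obtain ⟨n, hn, rfl⟩ := mem_im.1 hq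
      refine ⟨n, X n, rfl, fun g' hg' => ?_⟩
      obtain ⟨m, hm, h⟩ := mem_im.1 hg'
      obtain ⟨rfl, rfl⟩ := ZFSet.pair_inj.1 h
      rfl
    obtain ⟨n, hn, rfl⟩ := mem_im.1 hq
    refine ⟨n, X n, rfl, hn, fun c hc => (ZFSet.mem_sep.1 hc).1, fun c hc => ?_,
      fun c hc c' hc' hcc => ?_⟩
    · by_cases h1 : ∃ q ∈ oo, pair q n ∈ f
      · obtain ⟨q, hq, hqn⟩ := h1
        obtain ⟨c', hc', h2, h3⟩ := hdense c hc q
        refine ⟨c', ZFSet.mem_sep.2 ⟨hc', fun q' hq' h4 => ?_⟩, (mem_LeP.1 h2).2.2⟩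
        rw [hfi.2 _ _ _ h4 hqn]
        exact h3
      · exact ⟨c, ZFSet.mem_sep.2 ⟨hc, fun q' hq' h4 => absurd ⟨q', hq', h4⟩ h1⟩, fun _ h => h⟩
    · obtain ⟨h1, h2⟩ := ZFSet.mem_sep.1 hc
      exact ZFSet.mem_sep.2 ⟨hc', fun q hq h3 =>
        hmono c h1 c' hc' (mem_LeP.2 ⟨hc', h1, hcc⟩) q (h2 q hq h3)⟩
  have hE : ZFSet.sep (fun c => ∀ q ∈ oo, Dec c q) p ∈ U := by
    refine hZ.sep_mem (Q := fun c => ∀ q ∈ oo, Dec c q) ?_ hp
    refine hB.ball (Q := fun q (w : Fin 1 → ZFSet.{0}) => Dec (w 0) q) (DfnF.const hoo) ?_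
    exact Dfn.comp2 (Q := Dec) hdec (DfnF.proj 1) (DfnF.proj 0)
  obtain ⟨c, hcE, hcG⟩ := hG.meet _ hE (fun c hc => (ZFSet.mem_sep.1 hc).1) (by
    intro c hc
    obtain ⟨c', hc', h1, h2⟩ := hU.dist p hp hpc _ hD hDS c hc
    refine ⟨c', ZFSet.mem_sep.2 ⟨hc', fun q hq => ?_⟩, mem_LeP.2 ⟨hc', hc, h1⟩⟩
    obtain ⟨n, hn, h3⟩ := fun_exists hfi.1 hq
    obtain ⟨n', X', h4, h5⟩ := h2 _ (mem_im.2 ⟨n, hn, rfl⟩)
    obtain ⟨rfl, rfl⟩ := ZFSet.pair_inj.1 h4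
    exact (ZFSet.mem_sep.1 h5).2 q hq h3)
  obtain ⟨hcp, hcd⟩ := ZFSet.mem_sep.1 hcE
  have key : ev G σ = ZFSet.sep (fun q => Qmem p (LeP p) (chk t q) σ c) oo := by
    ext q
    rw [ZFSet.mem_sep]
    constructor
    · intro hq
      have hqo := hxo hq
      refine ⟨hqo, ?_⟩
      have hqU := hZ.trans _ hoo _ hqo
      rcases hcd q hqo with h1 | h1
      · exact h1
      · exfalso
        rw [← ev_chk ht q, ev_mem_iff hZ hP hG (chk_mem hZ htU hqU) hσ] at hq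
        obtain ⟨d, hd, h2⟩ := hq
        obtain ⟨e, he, hed, hec⟩ := hG.dir d hd c hcG
        exact h1 e (hG.sub he) hec (h2.mono hP (hG.sub hd) (hG.sub he) hed)
    · rintro ⟨hqo, h1⟩
      have hqU := hZ.trans _ hoo _ hqo
      rw [← ev_chk ht q, ev_mem_iff hZ hP hG (chk_mem hZ htU hqU) hσ]
      exact ⟨c, hcG, h1⟩
  rw [key]
  exact hZ.sep_mem (Q := fun q => Qmem p (LeP p) (chk t q) σ c)
    (dfn_qmem hZ hp hL (hchk 0) (DfnF.const hσ) (DfnF.const (hZ.trans _ hp _ hcp))) hoo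

theorem v_mem_PW {M : Set ZFSet.{0}} {r : ZFSet.{0}} : r ∈ PW M ↔ r ⊆ oo ∧ r ∈ M := by
  rw [PW, ZFSet.mem_sep, ZFSet.mem_powerset]

theorem rl_sub (x : ℕ → ℕ) : rl x ⊆ oo := by
  intro q hq
  rw [rl, ZFSet.mem_range] at hq
  obtain ⟨n, rfl⟩ := hq
  exact ZFSet.pair_mem_prod.2 ⟨nat_mem_omega _, nat_mem_omega _⟩

/-- The model `V`. -/
theorem gV : S_HC → S_HC2 → S_RW → S_PC → S_V := by
  intro hHC hHC2 _ hPC U hU
  have hZ := hU.zf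
  have hB := hZ.base
  obtain ⟨p, hp, hpc⟩ := hU.p
  have hP := forc hPC hZ hp hpc
  obtain ⟨f0, f1, f2, f3, f4, f5, f6⟩ := hPC U hZ
  obtain ⟨G, hG, -⟩ := exists_gen hU.ctb hP ((hpc ∅).2 f0)
  have hW : IsZF (ext U G) := isZF_ext' hZ hP hG
  have hWB := hW.base
  have hsub : U ⊆ ext U G := sub_ext hZ hP hG
  have hGW : G ∈ ext U G := gen_mem_ext hZ hP hG
  -- the ordinals that are hereditarily countable
  obtain ⟨h, hh, hh1⟩ := (hHC U hZ).1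
  obtain ⟨o, ho, ho1⟩ : ∃ o ∈ U, ∀ z, z ∈ o ↔ HCt U z ∧ z.IsOrdinal := by
    refine ⟨ZFSet.sep (fun z => z.IsOrdinal) h, hZ.sep_mem (Q := fun z => z.IsOrdinal)
      (hB.isOrdinal' (DfnF.proj 0)) hh, fun z => ?_⟩
    rw [ZFSet.mem_sep, hh1]
  -- the elements of the filter
  have hGc : ∀ c ∈ G, Pc U c := fun c hc => (hpc c).1 (hG.sub hc)
  have hcomp : ∀ c ∈ G, ∀ c' ∈ G, c ⊆ c' ∨ c' ⊆ c := by
    intro c hc c' hc'
    obtain ⟨d, hd, h1, h2⟩ := hG.dir c hc c' hc'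
    exact f6 c c' d (hGc c hc) (hGc c' hc') (hGc d hd) (mem_LeP.1 h1).2.2 (mem_LeP.1 h2).2.2
  have hlno : ∀ c ∈ G, ln c ⊆ o := by
    intro c hc j hj
    obtain ⟨h1, h2, -⟩ := f2 c (hGc c hc)
    exact (ho1 j).2 ⟨((hHC2.1 U hZ).2.2.1 _ h2).2.2 j hj, h1.mem hj⟩
  -- the union of the filter
  have hBW : ZFSet.sUnion G ∈ ext U G := hW.union _ hGW
  obtain ⟨B, hBdef⟩ : ∃ B, B = (ZFSet.sUnion G : ZFSet.{0}) := ⟨_, rfl⟩
  rw [← hBdef] at hBW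
  have hBm : ∀ q, q ∈ B ↔ ∃ c ∈ G, q ∈ c := by
    intro q
    rw [hBdef, ZFSet.mem_sUnion]
  have hBs : B ⊆ ZFSet.prod o (PW U) := by
    intro q hq
    obtain ⟨c, hc, hqc⟩ := (hBm q).1 hq
    obtain ⟨-, -, h3⟩ := f2 c (hGc c hc)
    obtain ⟨j, hj, X, hX, rfl⟩ := ZFSet.mem_prod.1 (h3.1 hqc)
    exact ZFSet.pair_mem_prod.2 ⟨hlno c hc hj, hX⟩
  have hBu : ∀ j X X', pair j X ∈ B → pair j X' ∈ B → X = X' := by
    intro j X X' h1 h2
    obtain ⟨c, hc, h1⟩ := (hBm _).1 h1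
    obtain ⟨c', hc', h2⟩ := (hBm _).1 h2
    rcases hcomp c hc c' hc' with h3 | h3
    · exact fun_unique (f2 c' (hGc c' hc')).2.2 (h3 h1) h2
    · exact fun_unique (f2 c (hGc c hc)).2.2 h1 (h3 h2)
  have hlen : ∀ ξ ∈ o, ∃ c ∈ G, ξ ∈ ln c := by
    intro ξ hξ
    refine gen_dense hZ hP hG (Q := fun c => ξ ∈ ln c)
      (Dfn.mem (DfnF.const (hZ.trans _ ho _ hξ)) (dm' hZ (DfnF.proj 0))) ?_
    intro c hc
    obtain ⟨c', h1, h2, h3⟩ := hU.ext c ((hpc c).1 hc) ξ ((ho1 ξ).1 hξ).1 ((ho1 ξ).1 hξ).2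
    exact ⟨c', (hpc c').2 h1, mem_LeP.2 ⟨(hpc c').2 h1, hc, h2⟩, h3⟩
  have hBf : ZFSet.IsFunc o (PW U) B := by
    refine ⟨hBs, fun ξ hξ => ?_⟩
    obtain ⟨c, hc, h1⟩ := hlen ξ hξ
    obtain ⟨X, -, h2⟩ := fun_exists (f2 c (hGc c hc)).2.2 h1
    exact ⟨X, (hBm _).2 ⟨c, hc, h2⟩, fun X' h3 => hBu ξ X' X h3 ((hBm _).2 ⟨c, hc, h2⟩)⟩
  have honto : ∀ r ∈ PW U, ∃ j ∈ o, pair j r ∈ B := by
    intro r hr
    have hrU := (v_mem_PW.1 hr).2
    obtain ⟨c, hc, j, hj, h1⟩ := gen_dense hZ hP hG (Q := fun c => ∃ j ∈ ln c, pair j r ∈ c)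
      (hB.bex (Q := fun j (w : Fin 1 → ZFSet.{0}) => pair j r ∈ w 0) (dm' hZ (DfnF.proj 0))
        (Dfn.mem (hB.pair' (DfnF.proj 0) (DfnF.const hrU)) (DfnF.proj 1))) (by
      intro c hc
      obtain ⟨h1, h2, h3⟩ := f4 c ((hpc c).1 hc) r hr
      refine ⟨ad c r, (hpc _).2 h1, mem_LeP.2 ⟨(hpc _).2 h1, hc, h3⟩, ln c, ?_, ?_⟩
      · rw [h2]
        exact ZFSet.mem_insert _ _
      · exact ZFSet.mem_insert _ _)
    exact ⟨j, hlno c hc hj, (hBm _).2 ⟨c, hc, h1⟩⟩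
  have hrs : ∀ ξ ∈ o, Pc U (rs B ξ) := by
    intro ξ hξ
    obtain ⟨c, hc, h1⟩ := hlen ξ hξ
    obtain ⟨g1, g2, g3⟩ := f2 c (hGc c hc)
    have h2 : rs B ξ = rs c ξ := by
      ext q
      rw [rs, rs, ZFSet.mem_sep, ZFSet.mem_sep]
      refine and_congr_left fun h3 => ⟨fun h4 => ?_, fun h4 => (hBm q).2 ⟨c, hc, h4⟩⟩
      obtain ⟨c', hc', h5⟩ := (hBm q).1 h4
      rcases hcomp c hc c' hc' with h6 | h6
      · obtain ⟨j, hj, X, hX, rfl⟩ := ZFSet.mem_prod.1 ((f2 c' (hGc c' hc')).2.2.1 h5)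
        rw [fs_pair] at h3
        obtain ⟨X', -, h7⟩ := fun_exists g3 (g1.mem_trans h3 h1)
        rw [fun_unique (f2 c' (hGc c' hc')).2.2 h5 (h6 h7)]
        exact h7
      · exact h6 h5
    rw [h2]
    exact (f3 c (hGc c hc) ξ (ZFSet.mem_insert_iff.2 (Or.inr h1))).1
  -- the set `A`
  have hooW : oo ∈ ext U G := hW.prod_mem hW.infinity hW.infinity
  obtain ⟨A, hA, hA1⟩ : ∃ A ∈ ext U G, ∀ u, u ∈ A ↔
      ∃ j ∈ o, ∃ q ∈ oo, u = pair j q ∧ ∃ X, pair j X ∈ B ∧ q ∈ X := by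
    refine ⟨ZFSet.sep (fun u => sn u ∈ ap B (fs u)) (ZFSet.prod o oo),
      hW.sep_mem (Q := fun u => sn u ∈ ap B (fs u)) (Dfn.mem (hW.sn' (DfnF.proj 0))
        (hW.ap' (DfnF.const hBW) (hW.fs' (DfnF.proj 0)))) (hW.prod_mem (hsub ho) hooW),
      fun u => ?_⟩
    rw [ZFSet.mem_sep, ZFSet.mem_prod]
    constructor
    · rintro ⟨⟨j, hj, q, hq, rfl⟩, h1⟩
      rw [fs_pair, sn_pair] at h1
      obtain ⟨X, -, h2⟩ := fun_exists hBf hj
      rw [ap_func hBf h2] at h1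
      exact ⟨j, hj, q, hq, rfl, X, h2, h1⟩
    · rintro ⟨j, hj, q, hq, rfl, X, h2, h1⟩
      refine ⟨⟨j, hj, q, hq, rfl⟩, ?_⟩
      rw [fs_pair, sn_pair, ap_func hBf h2]
      exact h1
  have hLZ : IsZF (LC (ext U G) A) := isZF_LC hW hA
  have hordL : ∀ ξ ∈ ext U G, ξ.IsOrdinal → ξ ∈ LC (ext U G) A := fun ξ h1 h2 =>
    ord_LC hW hA h1 h2
  have hooL : oo ∈ LC (ext U G) A := hLZ.prod_mem hLZ.infinity hLZ.infinity
  have hAL : ∀ u ∈ A, u ∈ LC (ext U G) A := by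
    intro u hu
    obtain ⟨j, hj, q, hq, rfl, -⟩ := (hA1 u).1 hu
    exact hLZ.pair_mem (hordL j (hW.trans _ (hsub ho) _ hj) ((ho1 j).1 hj).2)
      (hLZ.trans _ hooL _ hq)
  obtain ⟨δ, hδ, hδo, hδ1⟩ := exists_level hW hA hA (Q := fun w z => w = z)
    (Dfn.eq (DfnF.proj 0) (DfnF.proj 1))
  have hLA : IsLA A (LC (ext U G) A) := by
    refine isLA_LC hW hA hδ hδo fun u hu => ?_
    obtain ⟨w, hw, rfl⟩ := hδ1 u hu ⟨u, hAL u hu, rfl⟩
    exact hw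
  obtain ⟨V, hVdef⟩ : ∃ V, V = LC (ext U G) A := ⟨_, rfl⟩
  rw [← hVdef] at hLZ hordL hooL hAL hLA
  have hVW : V ⊆ ext U G := by
    rw [hVdef]
    exact LC_subset hW hA
  have hAV : A ∈ V := hLA.mem
  have hVB := hLZ.base
  -- the reals of `V`
  have hPW : PW V = PW U := by
    ext r
    rw [v_mem_PW, v_mem_PW]
    refine and_congr_right fun hr => ⟨fun h1 => ?_, fun h1 => ?_⟩
    · exact no_new hHC2 hPC hU hp hpc hG (hVW h1) hr
    · obtain ⟨j, hj, h2⟩ := honto r (v_mem_PW.2 ⟨hr, h1⟩)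
      have hjV : j ∈ V := hordL j (hW.trans _ (hsub ho) _ hj) ((ho1 j).1 hj).2
      have h3 : r = ZFSet.sep (fun q => pair j q ∈ A) oo := by
        ext q
        rw [ZFSet.mem_sep, hA1]
        constructor
        · exact fun h4 => ⟨hr h4, j, hj, q, hr h4, rfl, r, h2, h4⟩
        · rintro ⟨-, j', hj', q', hq', h4, X, h5, h6⟩
          obtain ⟨rfl, rfl⟩ := ZFSet.pair_inj.1 h4
          rw [hBu _ _ _ h2 h5]
          exact h6
      rw [h3]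
      exact hLZ.sep_mem (Q := fun q => pair j q ∈ A)
        (Dfn.mem (hVB.pair' (DfnF.const hjV) (DfnF.proj 0)) (DfnF.const hAV)) hooL
  have hHCt : HCt V = HCt U := by
    funext a
    apply propext
    constructor
    · intro h1
      obtain ⟨r, hr, hc⟩ := (hHC V hLZ).2.1 a h1
      rw [hPW, v_mem_PW] at hr
      exact (hHC U hZ).2.2.2.1 r hr.2 hr.1 a hc
    · intro h1
      obtain ⟨r, hr, hc⟩ := (hHC U hZ).2.1 a h1
      rw [← hPW, v_mem_PW] at hr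
      exact (hHC V hLZ).2.2.2.1 r hr.2 hr.1 a hc
  have hPcV : Pc V = Pc U := by
    funext c
    unfold Pc
    rw [hHCt, hPW]
  refine ⟨V, ⟨?_, isZFC_of_gc hLZ hLA.gc, ?_, ?_, ?_, ?_⟩, ?_⟩
  · exact (hU.ctb.image _).mono hVW
  · intro α hα hαo
    rw [hPW]
    exact hU.min α (ord_of_ext hZ (hVW hα) hαo) hαo
  · intro r hr
    rw [hPW] at hr
    obtain ⟨N, h1, h2⟩ := hU.ctm r hr
    exact ⟨N, by rw [hHCt]; exact h1, h2⟩
  · intro c hc ζ hζ hζo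
    rw [hPcV] at hc
    rw [hHCt] at hζ
    obtain ⟨c', h1, h2⟩ := hU.ext c hc ζ hζ hζo
    exact ⟨c', by rw [hPcV]; exact h1, h2⟩
  · obtain ⟨h', hh', hh1'⟩ := (hHC V hLZ).1
    have hoV : o ∈ V := by
      have h1 : o = ZFSet.sep (fun z => z.IsOrdinal) h' := by
        ext z
        rw [ho1, ZFSet.mem_sep, hh1', hHCt]
      rw [h1]
      exact hLZ.sep_mem (Q := fun z => z.IsOrdinal) (hVB.isOrdinal' (DfnF.proj 0)) hh'
    have hBV : B ∈ V := by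
      have h1 : B = im (fun j => pair j (ZFSet.sep (fun q => pair j q ∈ A) oo)) o := by
        have h2 : ∀ j X, pair j X ∈ B → X = ZFSet.sep (fun q => pair j q ∈ A) oo := by
          intro j X h2
          obtain ⟨hj, hX⟩ := ZFSet.pair_mem_prod.1 (hBs h2)
          have hXo := (v_mem_PW.1 hX).1
          ext q
          rw [ZFSet.mem_sep, hA1]
          constructor
          · exact fun h4 => ⟨hXo h4, j, hj, q, hXo h4, rfl, X, h2, h4⟩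
          · rintro ⟨-, j', hj', q', hq', h4, X', h5, h6⟩
            obtain ⟨rfl, rfl⟩ := ZFSet.pair_inj.1 h4
            rw [hBu _ _ _ h2 h5]
            exact h6
        ext u
        rw [mem_im]
        constructor
        · intro hu
          obtain ⟨j, hj, X, hX, rfl⟩ := ZFSet.mem_prod.1 (hBs hu)
          exact ⟨j, hj, by rw [← h2 j X hu]⟩
        · rintro ⟨j, hj, rfl⟩
          obtain ⟨X, -, h3⟩ := fun_exists hBf hj
          rw [← h2 j X h3]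
          exact h3
      rw [h1]
      refine hLZ.im_mem hoV (h := fun j => pair j (ZFSet.sep (fun q => pair j q ∈ A) oo)) ?_
      refine hVB.pair' (DfnF.proj 0) (hLZ.sep' (Q := fun q w => pair (w 0) q ∈ A)
        (DfnF.const hooL) ?_)
      exact Dfn.mem (hVB.pair' (DfnF.proj 1) (DfnF.proj 0)) (DfnF.const hAV)
    refine ⟨B, hBV, o, hoV, ?_, ?_, ?_, ?_⟩
    · rw [hHCt]
      exact ho1
    · rw [hPW]
      exact hBf
    · rw [hPW]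
      exact honto
    · rw [hPcV]
      exact hrs
  · ext x
    have h1 : rl x ∈ PW V ↔ rl x ∈ PW U := by rw [hPW]
    rw [v_mem_PW, v_mem_PW] at h1
    exact ⟨fun h2 => (h1.1 ⟨rl_sub x, h2⟩).2, fun h2 => (h1.2 ⟨rl_sub x, h2⟩).2⟩

end Pool.Agent.H637_NO
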