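import Pool.Agent.H637_NO.ZC
import Pool.Agent.R597.Cho

/-!
# New orbits: being a fast sequence is a bounded statement with a hereditarily countable witness
-/

set_option autoImplicit false
set_option linter.unreachableTactic false
set_option linter.unusedTactic false
set_option linter.unusedSectionVars false

namespace Pool.Agent.H637_NO

open Pool.Agent.W868 Pool.Agent.W868.GM
open ZFSet (pair)

/-! ### Bounded statements -/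

/-- `o` is the set of the natural numbers. -/
def OmD (o : ZFSet.{0}) : Prop := o.IsOrdinal ∧ (∃ z ∈ o, ∀ u ∈ z, u ≠ u) ∧
  (∀ z ∈ o, ∃ u ∈ o, z ∈ u) ∧ ∀ z ∈ o, (∀ u ∈ z, u ≠ u) ∨ ∃ u ∈ z, ∀ x ∈ z, x = u ∨ x ∈ u

/-- `x` is the unordered pair of `m` and `n`. -/
def UpD (x m n : ZFSet.{0}) : Prop := m ∈ x ∧ n ∈ x ∧ ∀ u ∈ x, u = m ∨ u = n

/-- `S` is the base set for `H`. -/
def SbD (o H S : ZFSet.{0}) : Prop :=
  (∀ x ∈ S, x ∈ o ∨ (∃ m ∈ o, ∃ n ∈ o, UpD x m n) ∨ (∃ m n, x = pair m n ∧ m ∈ o ∧ n ∈ o) ∨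
    x = H ∨ x ∈ H) ∧
  (∀ m ∈ o, m ∈ S) ∧ (∀ m ∈ o, ∀ n ∈ o, ∃ x ∈ S, UpD x m n) ∧
  (∀ m ∈ o, ∀ n ∈ o, pair m n ∈ S) ∧ H ∈ S ∧ ∀ x ∈ H, x ∈ S

/-- `c` is a function on `δ` whose values are internal reals. -/
def FnD (o δ c : ZFSet.{0}) : Prop :=
  (∀ p ∈ c, ∃ j r, p = pair j r ∧ j ∈ δ ∧ (∀ q ∈ r, ∃ m n, q = pair m n ∧ m ∈ o ∧ n ∈ o) ∧
    ∀ q ∈ c, ∃ j' r', q = pair j' r' ∧ (j' = j → r' = r)) ∧
  ∀ j ∈ δ, ∃ p ∈ c, ∃ j' r, p = pair j' r ∧ j' = j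

/-- `H` is the set of the values of `c` at arguments in `ξ`. -/
def RgD (c ξ H : ZFSet.{0}) : Prop :=
  (∀ r ∈ H, ∃ p ∈ c, ∃ j r', p = pair j r' ∧ j ∈ ξ ∧ r' = r) ∧
  ∀ p ∈ c, ∃ j r, p = pair j r ∧ (j ∈ ξ → r ∈ H)

/-- `ξ` is a limit ordinal. -/
def LmD (ξ : ZFSet.{0}) : Prop := ξ.IsOrdinal ∧ (∃ z ∈ ξ, z = z) ∧
  ∀ ζ ∈ ξ, ∃ u ∈ ξ, ζ ∈ u ∧ (∀ x ∈ ζ, x ∈ u) ∧ ∀ x ∈ u, x = ζ ∨ x ∈ ζ

/-- `p` is the collapse of `r`. -/
def CpD (o r p : ZFSet.{0}) : Prop :=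
  (∀ q ∈ p, ∃ n x, q = pair n x ∧ n ∈ o ∧
    (∀ y ∈ x, ∃ m ∈ o, pair m n ∈ r ∧ pair m y ∈ p) ∧
    ∀ m ∈ o, pair m n ∈ r → ∃ y ∈ x, pair m y ∈ p) ∧
  ∀ n ∈ o, ∃ q ∈ p, ∃ n' x, q = pair n' x ∧ n' = n

/-- `G` is a set of pairs that is a function. -/
def FuD (G : ZFSet.{0}) : Prop :=
  ∀ q ∈ G, ∃ r g, q = pair r g ∧ ∀ q' ∈ G, ∃ r' g', q' = pair r' g' ∧ (r' = r → g' = g)

/-- Clause (ii). -/
def W2D (c ξ G ζ₀ : ZFSet.{0}) : Prop :=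
  ∀ ζ ∈ ξ, ζ₀ ∈ ζ → ∃ j ∈ ζ, ∃ p ∈ c, ∃ j' r, p = pair j' r ∧ j' = j ∧
    ∃ q ∈ G, ∃ r' g, q = pair r' g ∧ r' = r ∧ g ∈ ξ ∧ ζ ⊆ g

/-- `f'` contains `(o, W')` with `W'` not coding a model. -/
def NzD (o W f' : ZFSet.{0}) : Prop :=
  Hier W f' ∧ ∃ q ∈ f', ∃ o' W', q = pair o' W' ∧ o' = o ∧ ¬ Zc W W'

/-- Clause (iii). -/
def W3D (o η ξ f w : ZFSet.{0}) : Prop :=
  ∀ α ∈ η, ξ ∈ α → ∃ q ∈ f, ∃ α' W, q = pair α' W ∧ α' = α ∧ ∃ f' ∈ w, NzD o W f'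

/-- Clause (iv). -/
def W4D (o c ξ w : ZFSet.{0}) : Prop :=
  ∀ ζ ∈ ξ, ∃ j ∈ ξ, ∃ q ∈ c, ∃ j' r, q = pair j' r ∧ j' = j ∧
    ∃ p ∈ w, CpD o r p ∧ ∃ n ∈ o, pair n ζ ∈ p

/-- `(η, X) ∈ f` and `G ∈ X`. -/
def LvD (η G f : ZFSet.{0}) : Prop := ∃ q ∈ f, ∃ η' X, q = pair η' X ∧ η' = η ∧ G ∈ X

/-- `w` contains witnesses for `c` being fast at `ξ`. -/
def WfD (o c ξ w : ZFSet.{0}) : Prop :=
  ∃ η ∈ w, ∃ G ∈ w, ∃ ζ₀ ∈ ξ, ∃ H ∈ w, ∃ S ∈ w, ∃ f ∈ w, η.IsOrdinal ∧ RgD c ξ H ∧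
    SbD o H S ∧ Hier S f ∧ LvD η G f ∧ FuD G ∧ W2D c ξ G ζ₀ ∧ W3D o η ξ f w ∧ W4D o c ξ w

/-- `b` is a witness for `c` being a fast sequence. -/
def PD (b c : ZFSet.{0}) : Prop :=
  ∃ o ∈ b, OmD o ∧ ∃ δ ∈ b, δ.IsOrdinal ∧ FnD o δ c ∧
    ∀ ξ ∈ (insert δ δ : ZFSet.{0}), LmD ξ → ∃ w ∈ b, WfD o c ξ w

theorem D0.comp5 {n : ℕ} {R : ZFSet.{0} → ZFSet.{0} → ZFSet.{0} → ZFSet.{0} → ZFSet.{0} → Prop}
    (h : D0 fun v : Fin 5 → ZFSet.{0} => R (v 0) (v 1) (v 2) (v 3) (v 4))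
    {F G H K L : (Fin n → ZFSet.{0}) → ZFSet.{0}}
    (hF : D0v F) (hG : D0v G) (hH : D0v H) (hK : D0v K) (hL : D0v L) :
    D0 fun v => R (F v) (G v) (H v) (K v) (L v) := by
  obtain ⟨a, ha⟩ := hF
  obtain ⟨b, hb⟩ := hG
  obtain ⟨c, hc⟩ := hH
  obtain ⟨d, hd⟩ := hK
  obtain ⟨e, he⟩ := hL
  refine (h.comp ![a, b, c, d, e]).congr fun v => ?_
  rw [ha, hb, hc, hd, he]
  rfl

theorem d0_OmD' : D0 fun v : Fin 1 → ZFSet.{0} => OmD (v 0) := by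
  unfold OmD
  (repeat' first
      | assumption
      | exact D0v.proj _
      | apply D0.not | apply D0.or | apply D0.and | apply D0.pairMem | apply D0.expair
      | apply D0.bex | apply D0.ball | apply D0.imp | apply D0.subset
      | apply D0.eq | apply D0.mem | apply D0.isOrdinal)

theorem d0_UpD' : D0 fun v : Fin 3 → ZFSet.{0} => UpD (v 0) (v 1) (v 2) := by
  unfold UpD
  (repeat' first
      | assumption
      | exact D0v.proj _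
      | apply D0.not | apply D0.or | apply D0.and | apply D0.pairMem | apply D0.expair
      | apply D0.bex | apply D0.ball | apply D0.imp | apply D0.subset
      | apply D0.eq | apply D0.mem | apply D0.isOrdinal)

theorem d0_UpD {n : ℕ} {F G H : (Fin n → ZFSet.{0}) → ZFSet.{0}}
    (hF : D0v F) (hG : D0v G) (hH : D0v H) : D0 fun v => UpD (F v) (G v) (H v) :=
  D0.comp3 (R := UpD) d0_UpD' hF hG hH

theorem d0_SbD' : D0 fun v : Fin 3 → ZFSet.{0} => SbD (v 0) (v 1) (v 2) := by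
  unfold SbD
  (repeat' first
      | assumption
      | exact D0v.proj _
      | apply d0_UpD
      | apply D0.not | apply D0.or | apply D0.and | apply D0.pairMem | apply D0.expair
      | apply D0.bex | apply D0.ball | apply D0.imp | apply D0.subset
      | apply D0.eq | apply D0.mem | apply D0.isOrdinal)

theorem d0_FnD' : D0 fun v : Fin 3 → ZFSet.{0} => FnD (v 0) (v 1) (v 2) := by
  unfold FnD
  (repeat' first
      | assumption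
      | exact D0v.proj _
      | apply D0.not | apply D0.or | apply D0.and | apply D0.pairMem | apply D0.expair
      | apply D0.bex | apply D0.ball | apply D0.imp | apply D0.subset
      | apply D0.eq | apply D0.mem | apply D0.isOrdinal)

theorem d0_RgD' : D0 fun v : Fin 3 → ZFSet.{0} => RgD (v 0) (v 1) (v 2) := by
  unfold RgD
  (repeat' first
      | assumption
      | exact D0v.proj _
      | apply D0.not | apply D0.or | apply D0.and | apply D0.pairMem | apply D0.expair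
      | apply D0.bex | apply D0.ball | apply D0.imp | apply D0.subset
      | apply D0.eq | apply D0.mem | apply D0.isOrdinal)

theorem d0_LmD' : D0 fun v : Fin 1 → ZFSet.{0} => LmD (v 0) := by
  unfold LmD
  (repeat' first
      | assumption
      | exact D0v.proj _
      | apply D0.not | apply D0.or | apply D0.and | apply D0.pairMem | apply D0.expair
      | apply D0.bex | apply D0.ball | apply D0.imp | apply D0.subset
      | apply D0.eq | apply D0.mem | apply D0.isOrdinal)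

theorem d0_CpD' : D0 fun v : Fin 3 → ZFSet.{0} => CpD (v 0) (v 1) (v 2) := by
  unfold CpD
  (repeat' first
      | assumption
      | exact D0v.proj _
      | apply D0.not | apply D0.or | apply D0.and | apply D0.pairMem | apply D0.expair
      | apply D0.bex | apply D0.ball | apply D0.imp | apply D0.subset
      | apply D0.eq | apply D0.mem | apply D0.isOrdinal)

theorem d0_FuD' : D0 fun v : Fin 1 → ZFSet.{0} => FuD (v 0) := by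
  unfold FuD
  (repeat' first
      | assumption
      | exact D0v.proj _
      | apply D0.not | apply D0.or | apply D0.and | apply D0.pairMem | apply D0.expair
      | apply D0.bex | apply D0.ball | apply D0.imp | apply D0.subset
      | apply D0.eq | apply D0.mem | apply D0.isOrdinal)

theorem d0_W2D' : D0 fun v : Fin 4 → ZFSet.{0} => W2D (v 0) (v 1) (v 2) (v 3) := by
  unfold W2D
  (repeat' first
      | assumption
      | exact D0v.proj _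
      | apply D0.not | apply D0.or | apply D0.and | apply D0.pairMem | apply D0.expair
      | apply D0.bex | apply D0.ball | apply D0.imp | apply D0.subset
      | apply D0.eq | apply D0.mem | apply D0.isOrdinal)

theorem d0_NzD' : D0 fun v : Fin 3 → ZFSet.{0} => NzD (v 0) (v 1) (v 2) := by
  unfold NzD
  (repeat' first
      | assumption
      | exact D0v.proj _
      | apply d0_Hier | apply d0_Zc
      | apply D0.not | apply D0.or | apply D0.and | apply D0.pairMem | apply D0.expair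
      | apply D0.bex | apply D0.ball | apply D0.imp | apply D0.subset
      | apply D0.eq | apply D0.mem | apply D0.isOrdinal)

theorem d0_NzD {n : ℕ} {F G H : (Fin n → ZFSet.{0}) → ZFSet.{0}}
    (hF : D0v F) (hG : D0v G) (hH : D0v H) : D0 fun v => NzD (F v) (G v) (H v) :=
  D0.comp3 (R := NzD) d0_NzD' hF hG hH

theorem d0_CpD {n : ℕ} {F G H : (Fin n → ZFSet.{0}) → ZFSet.{0}}
    (hF : D0v F) (hG : D0v G) (hH : D0v H) : D0 fun v => CpD (F v) (G v) (H v) :=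
  D0.comp3 (R := CpD) d0_CpD' hF hG hH

theorem d0_W3D' : D0 fun v : Fin 5 → ZFSet.{0} => W3D (v 0) (v 1) (v 2) (v 3) (v 4) := by
  unfold W3D
  (repeat' first
      | assumption
      | exact D0v.proj _
      | apply d0_NzD
      | apply D0.not | apply D0.or | apply D0.and | apply D0.pairMem | apply D0.expair
      | apply D0.bex | apply D0.ball | apply D0.imp | apply D0.subset
      | apply D0.eq | apply D0.mem | apply D0.isOrdinal)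

theorem d0_W4D' : D0 fun v : Fin 4 → ZFSet.{0} => W4D (v 0) (v 1) (v 2) (v 3) := by
  unfold W4D
  (repeat' first
      | assumption
      | exact D0v.proj _
      | apply d0_CpD
      | apply D0.not | apply D0.or | apply D0.and | apply D0.pairMem | apply D0.expair
      | apply D0.bex | apply D0.ball | apply D0.imp | apply D0.subset
      | apply D0.eq | apply D0.mem | apply D0.isOrdinal)

theorem d0_LvD' : D0 fun v : Fin 3 → ZFSet.{0} => LvD (v 0) (v 1) (v 2) := by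
  unfold LvD
  (repeat' first
      | assumption
      | exact D0v.proj _
      | apply D0.not | apply D0.or | apply D0.and | apply D0.pairMem | apply D0.expair
      | apply D0.bex | apply D0.ball | apply D0.imp | apply D0.subset
      | apply D0.eq | apply D0.mem | apply D0.isOrdinal)

theorem d0_WfD' : D0 fun v : Fin 4 → ZFSet.{0} => WfD (v 0) (v 1) (v 2) (v 3) := by
  unfold WfD
  (repeat' first
      | assumption
      | exact D0v.proj _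
      | apply d0_Hier
      | apply D0.comp3 (R := RgD) d0_RgD'
      | apply D0.comp3 (R := SbD) d0_SbD'
      | apply D0.comp3 (R := LvD) d0_LvD'
      | apply D0.comp1 (R := FuD) d0_FuD'
      | apply D0.comp4 (R := W2D) d0_W2D'
      | apply D0.comp5 (R := W3D) d0_W3D'
      | apply D0.comp4 (R := W4D) d0_W4D'
      | apply D0.and | apply D0.bex | apply D0.isOrdinal)

theorem d0_PD' : D0 fun v : Fin 2 → ZFSet.{0} => PD (v 0) (v 1) := by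
  unfold PD
  (repeat' first
      | assumption
      | exact D0v.proj _
      | apply D0.comp1 (R := OmD) d0_OmD'
      | apply D0.comp1 (R := LmD) d0_LmD'
      | apply D0.comp3 (R := FnD) d0_FnD'
      | apply D0.comp4 (R := WfD) d0_WfD'
      | apply D0.ballIns
      | apply D0.and | apply D0.bex | apply D0.imp | apply D0.isOrdinal)

/-! ### The meaning of the bounded statements -/

theorem omD_iff {o : ZFSet.{0}} : OmD o ↔ o = ZFSet.omega := by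
  constructor
  · rintro ⟨h1, h2, h3, h4⟩
    exact omega_of h1 h2 h3 h4
  · rintro rfl
    refine ⟨isOrdinal_omega, ⟨∅, ZFSet.omega_zero, fun u hu =>
      absurd hu (ZFSet.notMem_empty u)⟩, fun z hz => ⟨sc z, ?_, ZFSet.mem_insert _ _⟩,
      fun z hz => ?_⟩
    · obtain ⟨n, rfl⟩ := mem_omega_iff.1 hz
      exact nat_mem_omega (n + 1)
    · obtain ⟨n, rfl⟩ := mem_omega_iff.1 hz
      cases n with
      | zero => exact Or.inl fun u hu => absurd hu (ZFSet.notMem_empty u)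
      | succ n =>
        refine Or.inr ⟨nat n, ZFSet.mem_insert _ _, fun x hx => ?_⟩
        exact ZFSet.mem_insert_iff.1 hx

theorem upD_iff {x m n : ZFSet.{0}} : UpD x m n ↔ x = {m, n} := by
  constructor
  · rintro ⟨h2, h3, h4⟩
    ext u
    rw [ZFSet.mem_pair]
    exact ⟨h4 u, fun h => h.elim (fun h => h ▸ h2) (fun h => h ▸ h3)⟩
  · rintro rfl
    exact ⟨ZFSet.mem_pair.2 (Or.inl rfl), ZFSet.mem_pair.2 (Or.inr rfl),
      fun u hu => ZFSet.mem_pair.1 hu⟩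

theorem mem_T0b {x : ZFSet.{0}} : x ∈ T0b ↔ x ∈ ZFSet.omega ∨
    (∃ m ∈ ZFSet.omega, ∃ n ∈ ZFSet.omega, x = {m, n}) ∨
    ∃ m n, x = pair m n ∧ m ∈ ZFSet.omega ∧ n ∈ ZFSet.omega := by
  rw [T0b, ZFSet.mem_union, ZFSet.mem_union, mem_im, oo]
  constructor
  · rintro (h | ⟨p, hp, rfl⟩ | h)
    · exact Or.inl h
    · obtain ⟨m, hm, n, hn, rfl⟩ := ZFSet.mem_prod.1 hp
      refine Or.inr (Or.inl ⟨m, hm, n, hn, ?_⟩)
      rw [fs_pair, sn_pair]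
    · obtain ⟨m, hm, n, hn, rfl⟩ := ZFSet.mem_prod.1 h
      exact Or.inr (Or.inr ⟨m, n, rfl, hm, hn⟩)
  · rintro (h | ⟨m, hm, n, hn, rfl⟩ | ⟨m, n, rfl, hm, hn⟩)
    · exact Or.inl h
    · refine Or.inr (Or.inl ⟨pair m n, ZFSet.pair_mem_prod.2 ⟨hm, hn⟩, ?_⟩)
      rw [fs_pair, sn_pair]
    · exact Or.inr (Or.inr (ZFSet.pair_mem_prod.2 ⟨hm, hn⟩))

theorem mem_SB {x H : ZFSet.{0}} : x ∈ SB H ↔ x ∈ T0b ∨ x = H ∨ x ∈ H := by
  rw [SB, ZFSet.mem_union, ZFSet.mem_insert_iff]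

theorem sbD_iff {H S : ZFSet.{0}} : SbD ZFSet.omega H S ↔ S = SB H := by
  constructor
  · rintro ⟨h1, h2, h3, h4, h5, h6⟩
    ext x
    rw [mem_SB, mem_T0b]
    constructor
    · intro hx
      rcases h1 x hx with h | ⟨m, hm, n, hn, h⟩ | ⟨m, n, rfl, hm, hn⟩ | h | h
      · exact Or.inl (Or.inl h)
      · exact Or.inl (Or.inr (Or.inl ⟨m, hm, n, hn, upD_iff.1 h⟩))
      · exact Or.inl (Or.inr (Or.inr ⟨m, n, rfl, hm, hn⟩))
      · exact Or.inr (Or.inl h)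
      · exact Or.inr (Or.inr h)
    · rintro ((h | ⟨m, hm, n, hn, rfl⟩ | ⟨m, n, rfl, hm, hn⟩) | rfl | h)
      · exact h2 x h
      · obtain ⟨y, hy, h⟩ := h3 m hm n hn
        rw [upD_iff] at h
        exact h ▸ hy
      · exact h4 m hm n hn
      · exact h5
      · exact h6 x h
  · rintro rfl
    refine ⟨fun x hx => ?_, fun m hm => mem_SB.2 (Or.inl (mem_T0b.2 (Or.inl hm))),
      fun m hm n hn => ⟨_, mem_SB.2 (Or.inl (mem_T0b.2 (Or.inr (Or.inl ⟨m, hm, n, hn, rfl⟩)))),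
        upD_iff.2 rfl⟩,
      fun m hm n hn => mem_SB.2 (Or.inl (mem_T0b.2 (Or.inr (Or.inr ⟨m, n, rfl, hm, hn⟩)))),
      mem_SB.2 (Or.inr (Or.inl rfl)), fun x hx => mem_SB.2 (Or.inr (Or.inr hx))⟩
    rw [mem_SB, mem_T0b] at hx
    rcases hx with (h | ⟨m, hm, n, hn, h⟩ | ⟨m, n, rfl, hm, hn⟩) | h | h
    · exact Or.inl h
    · exact Or.inr (Or.inl ⟨m, hm, n, hn, upD_iff.2 h⟩)
    · exact Or.inr (Or.inr (Or.inl ⟨m, n, rfl, hm, hn⟩))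
    · exact Or.inr (Or.inr (Or.inr (Or.inl h)))
    · exact Or.inr (Or.inr (Or.inr (Or.inr h)))

theorem lmD_iff {ξ : ZFSet.{0}} : LmD ξ ↔ Lim ξ := by
  constructor
  · rintro ⟨h1, ⟨z, hz, -⟩, h3⟩
    refine ⟨h1, fun h => ZFSet.notMem_empty z (h ▸ hz), fun ζ hζ => ?_⟩
    obtain ⟨u, hu, h4, h5, h6⟩ := h3 ζ hζ
    have h7 : sc ζ = u := by
      ext x
      rw [sc, ZFSet.mem_insert_iff]
      exact ⟨fun h => h.elim (fun h => h ▸ h4) (h5 x), h6 x⟩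
    rw [h7]
    exact hu
  · rintro ⟨h1, h2, h3⟩
    refine ⟨h1, ?_, fun ζ hζ => ⟨sc ζ, h3 ζ hζ, ZFSet.mem_insert _ _,
      fun x hx => ZFSet.mem_insert_of_mem _ hx, fun x hx => ZFSet.mem_insert_iff.1 hx⟩⟩
    by_contra h4
    push Not at h4
    apply h2
    rw [ZFSet.eq_empty]
    exact fun z hz => h4 z hz rfl

theorem cpD_iff {r p : ZFSet.{0}} : CpD ZFSet.omega r p ↔ Clp r p := by
  unfold CpD Clp
  refine and_congr Iff.rfl (forall₂_congr fun n hn => ?_)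
  constructor
  · rintro ⟨q, hq, n', x, rfl, rfl⟩
    exact ⟨x, hq⟩
  · rintro ⟨x, hx⟩
    exact ⟨_, hx, n, x, rfl, rfl⟩

theorem fuD_iff {G : ZFSet.{0}} : FuD G ↔ Fu G := by
  constructor
  · intro h q hq
    obtain ⟨r, g, rfl, h1⟩ := h q hq
    refine ⟨r, g, rfl, fun g' hg' => ?_⟩
    obtain ⟨r1, g1, h2, h3⟩ := h1 _ hg'
    obtain ⟨rfl, rfl⟩ := ZFSet.pair_inj.1 h2
    exact h3 rfl
  · intro h q hq
    obtain ⟨r, g, rfl, h1⟩ := h q hq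
    refine ⟨r, g, rfl, fun q' hq' => ?_⟩
    obtain ⟨r', g', rfl, -⟩ := h q' hq'
    exact ⟨r', g', rfl, fun h2 => h1 g' (h2 ▸ hq')⟩

theorem w2D_iff {c ξ G ζ₀ : ZFSet.{0}} : W2D c ξ G ζ₀ ↔
    ∀ ζ ∈ ξ, ζ₀ ∈ ζ → ∃ j ∈ ζ, ∃ r g, pair j r ∈ c ∧ pair r g ∈ G ∧ g ∈ ξ ∧ ζ ⊆ g := by
  unfold W2D
  refine forall₃_congr fun ζ hζ h0 => exists_congr fun j => and_congr Iff.rfl ?_
  constructor
  · rintro ⟨p, hp, j', r, rfl, rfl, q, hq, r', g, rfl, rfl, h1, h2⟩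
    exact ⟨_, _, hp, hq, h1, h2⟩
  · rintro ⟨r, g, h1, h2, h3, h4⟩
    exact ⟨_, h1, _, _, rfl, rfl, _, h2, _, _, rfl, rfl, h3, h4⟩

theorem lvD_iff {η G f : ZFSet.{0}} : LvD η G f ↔ ∃ X, pair η X ∈ f ∧ G ∈ X := by
  constructor
  · rintro ⟨q, hq, η', X, rfl, rfl, h⟩
    exact ⟨X, hq, h⟩
  · rintro ⟨X, h1, h2⟩
    exact ⟨_, h1, _, _, rfl, rfl, h2⟩

theorem nzD_iff {W f' : ZFSet.{0}} (hT : Tra W) : NzD ZFSet.omega W f' ↔
    Hier W f' ∧ (∃ W', pair ZFSet.omega W' ∈ f') ∧ ¬ IsZF {x | x ∈ W} := by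
  rw [zC W hT]
  constructor
  · rintro ⟨h1, q, hq, o', W', rfl, rfl, h2⟩
    have h3 := h1.eq _ _ hq
    subst h3
    exact ⟨h1, ⟨_, hq⟩, h2⟩
  · rintro ⟨h1, ⟨W', hq⟩, h2⟩
    have h3 := h1.eq _ _ hq
    subst h3
    exact ⟨h1, _, hq, _, _, rfl, rfl, h2⟩

theorem w4D_iff {c ξ w : ZFSet.{0}} : W4D ZFSet.omega c ξ w ↔
    ∀ ζ ∈ ξ, ∃ j ∈ ξ, ∃ r, pair j r ∈ c ∧ ∃ p ∈ w, Clp r p ∧
      ∃ n ∈ ZFSet.omega, pair n ζ ∈ p := by
  unfold W4D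
  refine forall₂_congr fun ζ hζ => exists_congr fun j => and_congr Iff.rfl ?_
  simp only [cpD_iff]
  constructor
  · rintro ⟨q, hq, j', r, rfl, rfl, h1⟩
    exact ⟨r, hq, h1⟩
  · rintro ⟨r, h1, h2⟩
    exact ⟨_, h1, _, _, rfl, rfl, h2⟩

theorem rgD_iff {c ξ H : ZFSet.{0}} (hc : ∀ p ∈ c, ∃ j r, p = pair j r) :
    RgD c ξ H ↔ H = rg c ξ := by
  have h0 : ∀ r, r ∈ rg c ξ ↔ ∃ j, j ∈ ξ ∧ pair j r ∈ c := by
    intro r
    rw [rg, mem_im]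
    constructor
    · rintro ⟨p, hp, rfl⟩
      rw [rs, ZFSet.mem_sep] at hp
      obtain ⟨j, r, rfl⟩ := hc p hp.1
      rw [fs_pair] at hp
      rw [sn_pair]
      exact ⟨j, hp.2, hp.1⟩
    · rintro ⟨j, h1, h2⟩
      refine ⟨pair j r, ?_, (sn_pair _ _).symm⟩
      rw [rs, ZFSet.mem_sep, fs_pair]
      exact ⟨h2, h1⟩
  constructor
  · rintro ⟨h1, h2⟩
    ext r
    rw [h0]
    constructor
    · intro hr
      obtain ⟨p, hp, j, r', rfl, h3, rfl⟩ := h1 r hr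
      exact ⟨j, h3, hp⟩
    · rintro ⟨j, h3, h4⟩
      obtain ⟨j', r', h5, h6⟩ := h2 _ h4
      obtain ⟨rfl, rfl⟩ := ZFSet.pair_inj.1 h5
      exact h6 h3
  · rintro rfl
    refine ⟨fun r hr => ?_, fun p hp => ?_⟩
    · obtain ⟨j, h3, h4⟩ := (h0 r).1 hr
      exact ⟨_, h4, j, r, rfl, h3, rfl⟩
    · obtain ⟨j, r, rfl⟩ := hc p hp
      exact ⟨j, r, rfl, fun h => (h0 r).2 ⟨j, h, hp⟩⟩

theorem wd_mem_PW {M : Set ZFSet.{0}} {r : ZFSet.{0}} : r ∈ PW M ↔ r ⊆ oo ∧ r ∈ M := by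
  rw [PW, ZFSet.mem_sep, ZFSet.mem_powerset]

theorem sub_oo_iff {r : ZFSet.{0}} : r ⊆ oo ↔
    ∀ q ∈ r, ∃ m n, q = pair m n ∧ m ∈ ZFSet.omega ∧ n ∈ ZFSet.omega := by
  constructor
  · intro h q hq
    obtain ⟨m, hm, n, hn, rfl⟩ := ZFSet.mem_prod.1 (h hq)
    exact ⟨m, n, rfl, hm, hn⟩
  · intro h q hq
    obtain ⟨m, n, rfl, hm, hn⟩ := h q hq
    exact ZFSet.pair_mem_prod.2 ⟨hm, hn⟩

theorem fnD_iff {M : Set ZFSet.{0}} (hM : IsZF M) {δ c : ZFSet.{0}} (hc : c ∈ M) :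
    FnD ZFSet.omega δ c ↔ ZFSet.IsFunc δ (PW M) c := by
  constructor
  · rintro ⟨h1, h2⟩
    refine ⟨fun p hp => ?_, fun j hj => ?_⟩
    · obtain ⟨j, r, rfl, h3, h4, -⟩ := h1 p hp
      refine ZFSet.pair_mem_prod.2 ⟨h3, wd_mem_PW.2 ⟨sub_oo_iff.2 h4, ?_⟩⟩
      exact (hM.of_pair_mem (hM.trans _ hc _ hp)).2
    · obtain ⟨p, hp, j', r, rfl, rfl⟩ := h2 j hj
      refine ⟨r, hp, fun r' hr' => ?_⟩
      obtain ⟨j1, r1, h3, -, -, h4⟩ := h1 _ hp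
      obtain ⟨rfl, rfl⟩ := ZFSet.pair_inj.1 h3
      obtain ⟨j2, r2, h5, h6⟩ := h4 _ hr'
      obtain ⟨rfl, rfl⟩ := ZFSet.pair_inj.1 h5
      exact h6 rfl
  · intro h
    refine ⟨fun p hp => ?_, fun j hj => ?_⟩
    · obtain ⟨j, hj, r, hr, rfl⟩ := ZFSet.mem_prod.1 (h.1 hp)
      refine ⟨j, r, rfl, hj, sub_oo_iff.1 (wd_mem_PW.1 hr).1, fun q hq => ?_⟩
      obtain ⟨j', hj', r', hr', rfl⟩ := ZFSet.mem_prod.1 (h.1 hq)
      exact ⟨j', r', rfl, fun h1 => fun_unique h (h1 ▸ hq) hp⟩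
    · obtain ⟨r, -, hr⟩ := fun_exists h hj
      exact ⟨_, hr, j, r, rfl, rfl⟩

theorem wd_tra_SB {H : ZFSet.{0}} (hH : ∀ r ∈ H, r ⊆ oo) : Tra (SB H) := by
  intro x hx y hy
  have h0 : ∀ m ∈ ZFSet.omega, m ∈ SB H := fun m hm =>
    mem_SB.2 (Or.inl (mem_T0b.2 (Or.inl hm)))
  rw [mem_SB] at hx
  rcases hx with hx | rfl | hx
  · rw [mem_T0b] at hx
    rcases hx with hx | ⟨m, hm, n, hn, rfl⟩ | ⟨m, n, rfl, hm, hn⟩
    · exact h0 y (isOrdinal_omega.isTransitive.mem_trans hy hx)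
    · rcases ZFSet.mem_pair.1 hy with rfl | rfl
      · exact h0 _ hm
      · exact h0 _ hn
    · rw [pair, ZFSet.mem_pair] at hy
      rcases hy with rfl | rfl
      · refine mem_SB.2 (Or.inl (mem_T0b.2 (Or.inr (Or.inl ⟨m, hm, m, hm, ?_⟩))))
        rw [ZFSet.pair_eq_singleton]
      · exact mem_SB.2 (Or.inl (mem_T0b.2 (Or.inr (Or.inl ⟨m, hm, n, hn, rfl⟩))))
  · exact mem_SB.2 (Or.inr (Or.inr hy))
  · obtain ⟨m, n, rfl, hm, hn⟩ := sub_oo_iff.1 (hH x hx) y hy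
    exact mem_SB.2 (Or.inl (mem_T0b.2 (Or.inr (Or.inr ⟨m, n, rfl, hm, hn⟩))))

/-! ### Hereditarily countable sets in a model of ZFC -/

section

variable {M : Set ZFSet.{0}} (h1 : S_HC) (h2 : S_HC2) (hM : IsZFC M)

include h1 h2 hM

theorem wd_big {x : ZFSet.{0}} (hx : x ∈ M) (h : ∀ y ∈ x, HCt M y) (hi : Inj M x ZFSet.omega) :
    HCt M x := h2.2 M hM x hx h hi

theorem wd_tra {a : ZFSet.{0}} (h : HCt M a) : ∃ T, HCt M T ∧ Tra T ∧ a ∈ T := by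
  obtain ⟨T, hT, h3, h4, h5⟩ := h
  exact ⟨T, wd_big h1 h2 hM hT (fun y hy => ⟨T, hT, h3, hy, h5⟩) h5, h3, h4⟩

theorem wd_image {x : ZFSet.{0}} (hx : x ∈ M) (hi : Inj M x ZFSet.omega)
    {F : ZFSet.{0} → ZFSet.{0}} (hF : DfnF M M fun w : Fin 1 → ZFSet.{0} => F (w 0))
    (h : ∀ y ∈ x, HCt M (F y)) : HCt M (im F x) := by
  have hZ := hM.toIsZF
  refine wd_big h1 h2 hM (hZ.im_mem hx hF) ?_
    (Inj.image hZ hx hZ.infinity isOrdinal_omega hi hF)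
  intro y hy
  obtain ⟨u, hu, rfl⟩ := mem_im.1 hy
  exact h u hu

/-- Countable collection. -/
theorem wd_coll {x : ZFSet.{0}} (hx : x ∈ M) (hi : Inj M x ZFSet.omega)
    {R : ZFSet.{0} → ZFSet.{0} → Prop} (hR : Dfn M M fun w : Fin 2 → ZFSet.{0} => R (w 0) (w 1))
    (h : ∀ a ∈ x, ∃ y, HCt M y ∧ R a y) : ∃ b, HCt M b ∧ ∀ a ∈ x, ∃ y ∈ b, R a y := by
  have hZ := hM.toIsZF
  obtain ⟨⟨H, hH, hH'⟩, -⟩ := h1 M hZ
  have hF : DfnF M M fun w : Fin 1 → ZFSet.{0} => ZFSet.sep (fun y => R (w 0) y) H :=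
    hZ.sep' (Q := fun y w => R (w 0) y) (DfnF.const hH) (hR.comp ![1, 0])
  obtain ⟨c, hc, h3, h4⟩ := Pool.Agent.R597.exists_choice hM hx
    (F := fun a => ZFSet.sep (fun y => R a y) H) hF (by
      intro a ha
      obtain ⟨y, hy, h5⟩ := h a ha
      exact ⟨y, ZFSet.mem_sep.2 ⟨(hH' y).2 hy, h5⟩⟩)
  have hap : DfnF M M fun w : Fin 1 → ZFSet.{0} => ap c (w 0) :=
    hZ.ap' (DfnF.const hc) (DfnF.proj 0)
  refine ⟨im (fun a => ap c a) x, wd_image h1 h2 hM hx hi hap fun a ha => ?_, fun a ha => ?_⟩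
  · exact (hH' _).1 (ZFSet.mem_sep.1 (h4 a ha)).1
  · exact ⟨_, mem_im.2 ⟨a, ha, rfl⟩, (ZFSet.mem_sep.1 (h4 a ha)).2⟩

theorem wd_stepN {X : ZFSet.{0}} (hX : HCt M X) (k : ℕ) : HCt M (stepN ∅ X k) := by
  have hZ := hM.toIsZF
  obtain ⟨c1, c2, c3, c4, c5⟩ := h2.1 M hZ
  induction k with
  | zero => exact hX
  | succ k ih =>
    rw [stepN]
    refine (c1 _ _ ih ?_).2.2.2
    have h3 : HCt M (insert X X) := (c1 _ _ hX hX).2.2.1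
    obtain ⟨h4, h5, -⟩ := c3 _ h3
    have h6 := Inj.pair_into hZ hZ.infinity isOrdinal_omega (fun _ h => h) h4 h5
    refine wd_image h1 h2 hM (hZ.prod_mem h4 h4) h6 ?_ ?_
    · refine hZ.sep' (Q := fun u w => GR ∅ k u (fs (w 0)) (sn (w 0))) (DfnF.const (c3 _ hX).1) ?_
      exact dfn_GR hZ hZ.empty_mem k (DfnF.proj 0) (hZ.fs' (DfnF.proj 1)) (hZ.sn' (DfnF.proj 1))
    · intro p hp
      refine c2 _ _ hX ?_ fun u hu => (ZFSet.mem_sep.1 hu).1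
      have hpM := hZ.trans _ (hZ.prod_mem h4 h4) _ hp
      refine hZ.sep_mem (Q := fun u => GR ∅ k u (fs p) (sn p)) ?_ (c3 _ hX).1
      exact dfn_GR hZ hZ.empty_mem k (DfnF.proj 0) (DfnF.const (hZ.fs_mem hpM))
        (DfnF.const (hZ.sn_mem hpM))

theorem wd_Lb {S : ZFSet.{0}} (hS : HCt M S) (ξ : ZFSet.{0}) : HCt M ξ → HCt M (Lb S ξ) := by
  have hZ := hM.toIsZF
  obtain ⟨c1, c2, c3, c4, c5⟩ := h2.1 M hZ
  induction ξ using ZFSet.inductionOn with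
  | _ ξ ih =>
  intro hξ
  obtain ⟨hS1, -, -⟩ := c3 _ hS
  obtain ⟨hξ1, hξ2, hξ3⟩ := c3 _ hξ
  have hF : DfnF M M fun w : Fin 1 → ZFSet.{0} => step ∅ (Lb S (w 0)) :=
    DfnF.comp1 (f := fun x => step ∅ x) (dfn_step0 hZ) (dfn_Lb hZ hS1)
  have h3 : HCt M (im (fun u => step ∅ (Lb S u)) ξ) :=
    wd_image h1 h2 hM hξ1 hξ2 hF fun u hu => wd_stepN h1 h2 hM (ih u hu (hξ3 u hu)) 11
  have h4 := (c1 _ _ hS h3).2.2.1
  obtain ⟨T, hT, hT1, hT2⟩ := wd_tra h1 h2 hM h4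
  refine c2 _ _ hT (Lb_mem_M hZ hS1 hξ1) ?_
  intro y hy
  rcases mem_Lb.1 hy with h5 | ⟨u, hu, h5⟩
  · exact hT1 _ (hT1 _ hT2 _ (ZFSet.mem_insert _ _)) _ h5
  · exact hT1 _ (hT1 _ hT2 _ (ZFSet.mem_insert_of_mem _ (mem_im.2 ⟨u, hu, rfl⟩))) _ h5

theorem wd_gr {S ξ : ZFSet.{0}} (hS : HCt M S) (hξ : HCt M ξ) : HCt M (gr (Lb S) ξ) := by
  have hZ := hM.toIsZF
  have hB := hZ.base
  obtain ⟨c1, c2, c3, c4, c5⟩ := h2.1 M hZ
  obtain ⟨hS1, -, -⟩ := c3 _ hS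
  obtain ⟨hξ1, hξ2, hξ3⟩ := c3 _ hξ
  refine wd_image h1 h2 hM hξ1 hξ2 (F := fun u => pair u (Lb S u)) ?_ ?_
  · exact hB.pair' (DfnF.proj 0) (dfn_Lb hZ hS1)
  · intro u hu
    exact (c1 _ _ (hξ3 u hu) (wd_Lb h1 h2 hM hS u (hξ3 u hu))).1

theorem wd_SB {H : ZFSet.{0}} (hH : HCt M H) : HCt M (SB H) := by
  have hZ := hM.toIsZF
  have hB := hZ.base
  obtain ⟨c1, c2, c3, c4, c5⟩ := h2.1 M hZ
  obtain ⟨ho1, ho2, ho3⟩ := c3 _ c5
  obtain ⟨-, -, hω3⟩ := c3 _ c4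
  refine (c1 _ _ ?_ (c1 _ _ hH hH).2.2.1).2.2.2
  refine (c1 _ _ c4 (c1 _ _ ?_ c5).2.2.2).2.2.2
  refine wd_image h1 h2 hM ho1 ho2 ?_ ?_
  · exact hB.upair' (hZ.fs' (DfnF.proj 0)) (hZ.sn' (DfnF.proj 0))
  · intro p hp
    obtain ⟨m, hm, n, hn, rfl⟩ := ZFSet.mem_prod.1 hp
    rw [fs_pair, sn_pair]
    exact (c1 _ _ (hω3 m hm) (hω3 n hn)).2.1

theorem wd_rg {c ξ : ZFSet.{0}} (hc : HCt M c) (hξ : ξ ∈ M) (hc' : ∀ p ∈ c, ∃ j r, p = pair j r) :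
    HCt M (rg c ξ) := by
  have hZ := hM.toIsZF
  obtain ⟨c1, c2, c3, c4, c5⟩ := h2.1 M hZ
  obtain ⟨hc1, -, -⟩ := c3 _ hc
  obtain ⟨T, hT, hT1, hT2⟩ := wd_tra h1 h2 hM hc
  refine c2 _ _ hT ?_ ?_
  · refine hZ.im_mem (hZ.sep_mem (Q := fun p => fs p ∈ ξ) ?_ hc1) (hZ.sn' (DfnF.proj 0))
    exact Dfn.mem (hZ.fs' (DfnF.proj 0)) (DfnF.const hξ)
  · intro r hr
    obtain ⟨p, hp, rfl⟩ := mem_im.1 hr
    have hp' := (ZFSet.mem_sep.1 hp).1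
    obtain ⟨j, r, rfl⟩ := hc' p hp'
    rw [sn_pair]
    have h3 : ({j, r} : ZFSet.{0}) ∈ pair j r := by simp [pair]
    exact hT1 _ (hT1 _ (hT1 _ hT2 _ hp') _ h3) _ (by simp)

omit h1 h2 hM in
theorem wd_trans_pair {T a b : ZFSet.{0}} (hT : Tra T) (h : pair a b ∈ T) : a ∈ T ∧ b ∈ T := by
  have h3 : ({a, b} : ZFSet.{0}) ∈ T := hT _ h _ (by simp [pair])
  exact ⟨hT _ h3 _ (by simp), hT _ h3 _ (by simp)⟩

/-- The witnesses at one limit. -/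
theorem wd_wit {c δ ξ η G ζ₀ : ZFSet.{0}} (hc : HCt M c) (hcf : ZFSet.IsFunc δ (PW M) c)
    (hξ : HCt M ξ) (hη : HCt M η) (hW : Wt c ξ η G ζ₀) :
    ∃ w, HCt M w ∧ WfD ZFSet.omega c ξ w := by
  have hZ := hM.toIsZF
  have hB := hZ.base
  obtain ⟨c1, c2, c3, c4, c5⟩ := h2.1 M hZ
  obtain ⟨-, -, hclp, -, -⟩ := h1 M hZ
  obtain ⟨w1, w2, w3, w4, w5, w6, w7⟩ := hW
  have hcp : ∀ p ∈ c, ∃ j r, p = pair j r := fun p hp => by
    obtain ⟨j, -, r, -, rfl⟩ := ZFSet.mem_prod.1 (hcf.1 hp)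
    exact ⟨j, r, rfl⟩
  have hcr : ∀ j r, pair j r ∈ c → r ⊆ oo ∧ r ∈ M := fun j r h =>
    wd_mem_PW.1 (ZFSet.pair_mem_prod.1 (hcf.1 h)).2
  have hcM := (c3 _ hc).1
  obtain ⟨hξ1, hξ2, hξ3⟩ := c3 _ hξ
  obtain ⟨hη1, hη2, hη3⟩ := c3 _ hη
  -- the base set
  have hH := wd_rg h1 h2 hM hc hξ1 hcp
  have hS := wd_SB h1 h2 hM hH
  have hT : Tra (SB (rg c ξ)) := wd_tra_SB fun r hr => by
    obtain ⟨p, hp, rfl⟩ := mem_im.1 hr
    have hp' := (ZFSet.mem_sep.1 hp).1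
    obtain ⟨j, r, rfl⟩ := hcp p hp'
    rw [sn_pair]
    exact (hcr j r hp').1
  set S := SB (rg c ξ) with hSdef
  have hSM := (c3 _ hS).1
  have hscη : HCt M (sc η) := (c1 _ _ hη hη).2.2.1
  have hf := wd_gr h1 h2 hM hS hscη
  have hscω : HCt M (sc ZFSet.omega) := (c1 _ _ c4 c4).2.2.1
  have hLη := wd_Lb h1 h2 hM hS η hη
  have hG : HCt M G := (c3 _ hLη).2.2 G w2
  -- the hierarchies over the levels
  obtain ⟨F, hF, hF'⟩ : ∃ F, HCt M F ∧ ∀ α ∈ η, ∃ f' ∈ F, Hier (Lb S α) f' ∧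
      ∃ W' ∈ M, pair ZFSet.omega W' ∈ f' := by
    refine wd_coll h1 h2 hM hη1 hη2
      (R := fun α f' => Hier (Lb S α) f' ∧ ∃ W' ∈ M, pair ZFSet.omega W' ∈ f') ?_ ?_
    · apply Dfn.and
      · exact Dfn.comp2 (Q := Hier) (d0_Hier'.dfn hZ.trans)
          (DfnF.comp1 (f := Lb S) (dfn_Lb hZ hSM) (DfnF.proj 0)) (DfnF.proj 1)
      · apply Dfn.ex
        exact Dfn.mem (hB.pair' (DfnF.const hZ.infinity) (DfnF.proj 0)) (DfnF.proj 2)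
    · intro α hα
      have h3 := wd_Lb h1 h2 hM hS α (hη3 α hα)
      refine ⟨gr (Lb (Lb S α)) (sc ZFSet.omega), wd_gr h1 h2 hM h3 hscω,
        hier_gr (isOrdinal_sc isOrdinal_omega), Lb (Lb S α) ZFSet.omega,
        Lb_mem_M hZ (c3 _ h3).1 hZ.infinity, mem_gr.2 ⟨_, ZFSet.mem_insert _ _, rfl⟩⟩
  -- the collapses
  obtain ⟨K, hK, hK'⟩ : ∃ K, HCt M K ∧ ∀ ζ ∈ ξ, ∃ p ∈ K, ∃ j ∈ ξ, ∃ r ∈ M, pair j r ∈ c ∧
      CpD ZFSet.omega r p ∧ ∃ n ∈ ZFSet.omega, pair n ζ ∈ p := by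
    refine wd_coll h1 h2 hM hξ1 hξ2 (R := fun ζ p => ∃ j ∈ ξ, ∃ r ∈ M, pair j r ∈ c ∧
      CpD ZFSet.omega r p ∧ ∃ n ∈ ZFSet.omega, pair n ζ ∈ p) ?_ ?_
    · apply hB.bex (DfnF.const hξ1)
      apply Dfn.ex
      apply Dfn.and
      · exact Dfn.mem (hB.pair' (DfnF.proj 1) (DfnF.proj 0)) (DfnF.const hcM)
      · apply Dfn.and
        · exact Dfn.comp3 (Q := CpD) (d0_CpD'.dfn hZ.trans) (DfnF.const hZ.infinity)
            (DfnF.proj 0) (DfnF.proj 3)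
        · apply hB.bex (DfnF.const hZ.infinity)
          exact Dfn.mem (hB.pair' (DfnF.proj 0) (DfnF.proj 3)) (DfnF.proj 4)
    · intro ζ hζ
      obtain ⟨j, hj, r, p, h3, h4, h5⟩ := w7 ζ hζ
      obtain ⟨h6, h7⟩ := hcr j r h3
      exact ⟨p, hclp r h7 h6 p h4, j, hj, r, h7, h3, cpD_iff.2 h4, h5⟩
  -- the witness
  have h3 : HCt M (pair η (pair G (pair (rg c ξ) (pair S (pair (gr (Lb S) (sc η))
      (pair F K)))))) :=
    (c1 _ _ hη (c1 _ _ hG (c1 _ _ hH (c1 _ _ hS (c1 _ _ hf (c1 _ _ hF hK).1).1).1).1).1).1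
  obtain ⟨w, hw, hwT, hww⟩ := wd_tra h1 h2 hM h3
  obtain ⟨m1, hww⟩ := wd_trans_pair hwT hww
  obtain ⟨m2, hww⟩ := wd_trans_pair hwT hww
  obtain ⟨m3, hww⟩ := wd_trans_pair hwT hww
  obtain ⟨m4, hww⟩ := wd_trans_pair hwT hww
  obtain ⟨m5, hww⟩ := wd_trans_pair hwT hww
  obtain ⟨m6, m7⟩ := wd_trans_pair hwT hww
  refine ⟨w, hw, η, m1, G, m2, ζ₀, w4, rg c ξ, m3, S, m4, gr (Lb S) (sc η), m5, w1,
    (rgD_iff hcp).2 rfl, sbD_iff.2 rfl, hier_gr (isOrdinal_sc w1),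
    lvD_iff.2 ⟨Lb S η, mem_gr.2 ⟨η, ZFSet.mem_insert _ _, rfl⟩, w2⟩, fuD_iff.2 w3,
    w2D_iff.2 w5, ?_, ?_⟩
  · intro α hα hξα
    obtain ⟨f', hf', h4, W', -, h5⟩ := hF' α hα
    exact ⟨pair α (Lb S α), mem_gr.2 ⟨α, ZFSet.mem_insert_of_mem _ hα, rfl⟩, α, Lb S α, rfl,
      rfl, f', hwT _ m6 _ hf', (nzD_iff (Lb_tra hT α)).2 ⟨h4, ⟨W', h5⟩, w6 α hα hξα⟩⟩
  · rw [w4D_iff]
    intro ζ hζ
    obtain ⟨p, hp, j, hj, r, -, h4, h5, h6⟩ := hK' ζ hζ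
    exact ⟨j, hj, r, h4, p, hwT _ m7 _ hp, cpD_iff.1 h5, h6⟩

end

/-- From the witness to the property. -/
theorem wt_of_wfD {M : Set ZFSet.{0}} {c δ ξ w : ZFSet.{0}} (hcf : ZFSet.IsFunc δ (PW M) c)
    (h : WfD ZFSet.omega c ξ w) : ∃ η ∈ w, ∃ G ζ₀, Wt c ξ η G ζ₀ := by
  obtain ⟨η, hη, G, -, ζ₀, hζ, H, -, S, -, f, -, h1, h2, h3, h4, h5, h6, h7, h8, h9⟩ := h
  have hcp : ∀ p ∈ c, ∃ j r, p = pair j r := fun p hp => by
    obtain ⟨j, -, r, -, rfl⟩ := ZFSet.mem_prod.1 (hcf.1 hp)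
    exact ⟨j, r, rfl⟩
  rw [rgD_iff hcp] at h2
  subst h2
  rw [sbD_iff] at h3
  subst h3
  obtain ⟨X, h10, h11⟩ := lvD_iff.1 h5
  have h12 := h4.eq _ _ h10
  subst h12
  have hT : Tra (SB (rg c ξ)) := wd_tra_SB fun r hr => by
    obtain ⟨p, hp, rfl⟩ := mem_im.1 hr
    have hp' := (ZFSet.mem_sep.1 hp).1
    obtain ⟨j, r, rfl⟩ := hcp p hp'
    rw [sn_pair]
    exact (wd_mem_PW.1 (ZFSet.pair_mem_prod.1 (hcf.1 hp')).2).1
  refine ⟨η, hη, G, ζ₀, h1, h11, fuD_iff.1 h6, hζ, w2D_iff.1 h7, ?_, ?_⟩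
  · intro α hα hξα
    obtain ⟨q, hq, α', W, rfl, rfl, f', -, h13⟩ := h8 α hα hξα
    have h14 := h4.eq _ _ hq
    subst h14
    exact ((nzD_iff (Lb_tra hT _)).1 h13).2.2
  · intro ζ hζ'
    obtain ⟨j, hj, r, h13, p, -, h14, h15⟩ := w4D_iff.1 h9 ζ hζ'
    exact ⟨j, hj, r, p, h13, h14, h15⟩

/-- Being a fast sequence is `Σ_1` over the hereditarily countable sets. -/
theorem wD (h1 : S_HC) (h2 : S_HC2) (_h3 : S_PC) : S_WD := by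
  refine ⟨PD, d0_PD', fun M hM c => ?_⟩
  have hZ := hM.toIsZF
  have hB := hZ.base
  obtain ⟨c1, c2, c3, c4, c5⟩ := h2.1 M hZ
  constructor
  · rintro ⟨hc, δ, hδ, hcf, hW⟩
    have hcM := (c3 _ hc).1
    have hcp : ∀ p ∈ c, ∃ j r, p = pair j r := fun p hp => by
      obtain ⟨j, -, r, -, rfl⟩ := ZFSet.mem_prod.1 (hcf.1 hp)
      exact ⟨j, r, rfl⟩
    -- the length
    have hδ1 : δ = im fs c := by
      ext j
      rw [mem_im]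
      constructor
      · intro hj
        obtain ⟨r, -, hr⟩ := fun_exists hcf hj
        exact ⟨_, hr, (fs_pair _ _).symm⟩
      · rintro ⟨p, hp, rfl⟩
        obtain ⟨j, hj, r, hr, rfl⟩ := ZFSet.mem_prod.1 (hcf.1 hp)
        rw [fs_pair]
        exact hj
    have hδM : δ ∈ M := by
      rw [hδ1]
      exact hZ.im_mem hcM (hZ.fs' (DfnF.proj 0))
    have hδH : HCt M δ := by
      obtain ⟨T, hT, hT1, hT2⟩ := wd_tra h1 h2 hM hc
      refine c2 _ _ hT hδM ?_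
      intro j hj
      obtain ⟨r, -, hr⟩ := fun_exists hcf hj
      exact (wd_trans_pair hT1 (hT1 _ hT2 _ hr)).1
    have hsδ : HCt M (sc δ) := (c1 _ _ hδH hδH).2.2.1
    obtain ⟨hs1, hs2, hs3⟩ := c3 _ hsδ
    obtain ⟨b, hb, hb'⟩ : ∃ b, HCt M b ∧ ∀ ξ ∈ sc δ, ∃ w ∈ b,
        LmD ξ → WfD ZFSet.omega c ξ w := by
      refine wd_coll h1 h2 hM hs1 hs2 (R := fun ξ w => LmD ξ → WfD ZFSet.omega c ξ w) ?_ ?_
      · apply Dfn.imp
        · exact Dfn.comp1 (Q := LmD) (d0_LmD'.dfn hZ.trans) (DfnF.proj 0)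
        · exact Dfn.comp4 (Q := WfD) (d0_WfD'.dfn hZ.trans) (DfnF.const hZ.infinity)
            (DfnF.const hcM) (DfnF.proj 0) (DfnF.proj 1)
      · intro ξ hξ
        by_cases hl : Lim ξ
        · obtain ⟨η, G, ζ₀, hη, h4⟩ := hW ξ hξ hl
          obtain ⟨w, hw, h5⟩ := wd_wit h1 h2 hM hc hcf (hs3 ξ hξ) hη h4
          exact ⟨w, hw, fun _ => h5⟩
        · exact ⟨ξ, hs3 ξ hξ, fun h => absurd (lmD_iff.1 h) hl⟩
    obtain ⟨T, hT, hT1, hT2⟩ := wd_tra h1 h2 hM (c1 _ _ hb (c1 _ _ c4 hδH).1).1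
    obtain ⟨m1, hT2⟩ := wd_trans_pair hT1 hT2
    obtain ⟨m2, m3⟩ := wd_trans_pair hT1 hT2
    refine ⟨T, hT, hc, ZFSet.omega, m2, omD_iff.2 rfl, δ, m3, hδ, (fnD_iff hZ hcM).2 hcf,
      fun ξ hξ hl => ?_⟩
    obtain ⟨w, hw, h4⟩ := hb' ξ hξ
    exact ⟨w, hT1 _ m1 _ hw, h4 hl⟩
  · rintro ⟨b, hb, hc, o, -, ho, δ, -, hδ, hcf, hW⟩
    rw [omD_iff] at ho
    subst ho
    have hcM := (c3 _ hc).1
    rw [fnD_iff hZ hcM] at hcf
    refine ⟨hc, δ, hδ, hcf, fun ξ hξ hl => ?_⟩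
    obtain ⟨w, hw, h4⟩ := hW ξ hξ (lmD_iff.2 hl)
    obtain ⟨η, hη, G, ζ₀, h5⟩ := wt_of_wfD hcf h4
    have hwH : HCt M w := (c3 _ hb).2.2 w hw
    exact ⟨η, G, ζ₀, (c3 _ hwH).2.2 η hη, h5⟩

end Pool.Agent.H637_NO
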