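import Pool.Agent.H637_NO.C1
import Pool.Agent.H637_NO.C2
import Pool.Agent.H637_NO.C3
import Pool.Agent.H637_NO.C5
import Pool.Agent.H637_NO.CP
import Pool.Agent.H637_NO.CT
import Pool.Agent.H637_NO.D1
import Pool.Agent.H637_NO.D1a
import Pool.Agent.H637_NO.D1b
import Pool.Agent.H637_NO.D2
import Pool.Agent.H637_NO.D3
import Pool.Agent.H637_NO.DIS
import Pool.Agent.H637_NO.EXT
import Pool.Agent.H637_NO.FUS
import Pool.Agent.H637_NO.HC2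
import Pool.Agent.H637_NO.Q0
import Pool.Agent.H637_NO.RW
import Pool.Agent.H637_NO.TR
import Pool.Agent.H637_NO.UA
import Pool.Agent.H637_NO.UB
import Pool.Agent.H637_NO.UU
import Pool.Agent.H637_NO.V
import Pool.Agent.H637_NO.WD

/-!
# New orbits: the final assembly
-/

set_option autoImplicit false
set_option linter.unreachableTactic false
set_option linter.unusedTactic false

namespace Pool.Agent.H637_NO

open Pool.Agent.W868 Pool.Agent.W868.GM Pool.Agent.Y588 Pool.Agent.R597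
open ZFSet (pair)

/-- Some countable transitive model of ZF contains the real. -/
def Psi2 (M : Set ZFSet.{0}) (z : ℕ → ℕ) : Prop :=
  ∃ N, HCt M N ∧ Tra N ∧ IsZF {x | x ∈ N} ∧ rw' z ∈ N

theorem exists_rel (hHC : S_HC) : ∃ ψ : Fm 1 0, Cls true 2 ψ ∧ ∀ M, IsZFC M →
    ∀ x : Reals M, Psi2 M x.1 ↔ Holds (std (Reals M)) ψ ![x] (fun i => i.elim0) := by
  obtain ⟨RZ, h1, h2⟩ := d3 hHC hC2
  have h3 : S_D1 := d1 (d1a hHC hC2 rW) d1b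
  obtain ⟨ψ, h4, h5⟩ := h3 1 (fun a v => RZ a (v 0)) (by
    refine h1.congr fun v => ?_
    rfl)
  refine ⟨ψ, h4, fun M hM x => ?_⟩
  have h6 := h5 M hM ![x]
  have h7 : (Fin.elim0 : Fin 0 → ℕ) = fun i => i.elim0 := funext fun i => i.elim0
  unfold Tr at h6
  rw [h7] at h6
  refine Iff.trans ?_ h6
  have h8 : rw' x.1 ∈ M := (mem_PW.1 ((rW M hM.toIsZF).1 x.1 x.2)).1
  exact (h2 M hM _ h8).symm

/-- In the model `V` all reals satisfy `Psi2`. -/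
theorem psi2_V {V : Set ZFSet.{0}} (hG : GoodV V) (z : ℕ → ℕ) (hz : z ∈ Reals V) : Psi2 V z :=
  hG.ctm _ ((rW V hG.zfc.toIsZF).1 z hz)

theorem HCt.up {V W : Set ZFSet.{0}} (h : V ⊆ W) {z : ZFSet.{0}} (hz : HCt V z) : HCt W z := by
  obtain ⟨T, hT, h1, h2, f, hf, h3⟩ := hz
  exact ⟨T, h hT, h1, h2, f, h hf, h3⟩

theorem psi2_ext {V W : Set ZFSet.{0}} (h : V ⊆ W) {z : ℕ → ℕ} (hz : Psi2 V z) : Psi2 W z := by
  obtain ⟨N, h1, h2⟩ := hz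
  exact ⟨N, h1.up h, h2⟩

/-- The generic real is in no countable transitive model of ZF. -/
theorem not_psi2 (hHC : S_HC) {V : Set ZFSet.{0}} (hG : GoodV V) (h1 : S_C1) (h4 : S_C4)
    {G : ZFSet.{0}} (hgen : IsGeneric V (Pf V) (Lf V) G) :
    ∃ x : Reals (ext V G), ¬ Psi2 (ext V G) x.1 := by
  have hV := hG.zfc
  have hM := hV.toIsZF
  have hfor := (h1 V hG).1
  have hW : IsZFC (ext V G) := isZFC_ext hV hfor hgen
  have hWZ := hW.toIsZF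
  obtain ⟨C, s, h5, h6⟩ := h4 V hG G hgen
  obtain ⟨r, hr, hrs⟩ := (hHC _ hWZ).2.1 s h5
  obtain ⟨z, hz, rfl⟩ := (rW _ hWZ).2 r hr
  refine ⟨⟨z, hz⟩, ?_⟩
  rintro ⟨N, h7, h8, h9, h10⟩
  have h11 : s ∈ N := by
    have h12 := (hHC {x | x ∈ N} h9).2.2.2.1 (rw' z) h10 (mem_PW.1 hr).2 s hrs
    obtain ⟨T, hT, -, h13, -⟩ := h12
    exact h8 T hT s h13
  have hNW : N ∈ ext V G := hct_mem hWZ h7
  obtain ⟨κ, hκ⟩ : ∃ κ, κ = ZFSet.sep (fun x => x.IsOrdinal) N := ⟨_, rfl⟩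
  have hmκ : ∀ z, z ∈ κ ↔ z ∈ N ∧ z.IsOrdinal := by
    intro z
    rw [hκ, ZFSet.mem_sep]
  have hκW : κ ∈ ext V G := by
    rw [hκ]
    exact hWZ.sep_mem ((D0.isOrdinal (D0v.proj 0)).dfn hWZ.trans) hNW
  have hκo : κ.IsOrdinal := by
    refine ⟨?_, ?_⟩
    · intro x hx y hy
      have hx' := (hmκ x).1 hx
      exact (hmκ y).2 ⟨h8 x hx'.1 y hy, hx'.2.mem hy⟩
    · intro x y z hx hy hz
      exact ((hmκ z).1 hz).2.mem_trans hx hy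
  have hκV : κ ∈ V := ord_of_ext hM hκW hκo
  exact c5 hHC hC2 (pC hHC hC2) (cT hHC hC2) V hG C s h6 N h8 h9 h11
    ⟨κ, hκV, hκo, fun α hα => ⟨fun h => (hmκ α).2 ⟨h, hα⟩, fun h => ((hmκ α).1 h).1⟩⟩

/-- The final theorem, from the two remaining pieces. -/
theorem final (hHC : S_HC) (h4 : S_C4) (n : ℕ) (hdet : PiDet Set.univ (n + 1)) :
    ∃ V : Set ZFSet.{0}, V.Countable ∧ IsZFC V ∧ PiDet (Reals V) (n + 1) ∧
      ∃ P Le : ZFSet.{0}, IsForcing V P Le ∧ Sig12 V P Le ∧ Proper V P Le ∧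
        ∃ φ φ' : Fm 2 0, ProvDelta (n + 3) φ φ' ∧
          (∀ 𝔐 : Str, Nonempty 𝔐.R →
            Equivalence fun x y : 𝔐.R => Holds 𝔐 φ ![x, y] fun i => i.elim0) ∧
          Thin (Reals V) (Rel (Reals V) φ) ∧ NewOrbit V P Le φ := by
  have hPC := pC hHC hC2
  have hCT := cT hHC hC2
  have hWD := wD hHC hC2 hPC
  have hFUS := fUS hHC hC2 hPC
  have hTR := tR'
  have hEXT := eXT hHC hC2 rW hPC hCT hFUS hTR
  have hUU := uU hHC hC2 hWD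
  have hDIS := dIS hHC hC2 rW hPC hFUS hTR hEXT
  have hUA := uA hHC hC2 hWD hTR hEXT hUU hDIS
  have hC1 := c1 hHC hC2 rW hWD hPC
  have hCP := cP hC2 hPC
  have hD1 : S_D1 := d1 (d1a hHC hC2 rW) d1b
  have hc2 := c2 hHC hC2 rW hWD hPC hC1 hCP hD1
  have hc3 := c3 hHC hC2 rW rWd hWD (q0 hC2) hFUS hC1 hCP
  obtain ⟨A₁, hA₁, hU₁⟩ := hUA
  obtain ⟨A₂, hA₂, hU₂⟩ := uB (n + 1) hdet
  obtain ⟨π, hπ, -⟩ := exists_pkg' (P := Unit) ((check : ZFSet.{0} → PName Unit) '' (A₁ ∪ A₂))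
    ((hA₁.union hA₂).image _) ()
  have hZ : ∀ x ∈ A₁ ∪ A₂, x ∈ π.Z := fun x hx => hπ ⟨x, hx, rfl⟩
  obtain ⟨U, hU, hUr⟩ := hU₁ π fun x hx => hZ x (Or.inl hx)
  obtain ⟨h5, h6⟩ := hU₂ π fun x hx => hZ x (Or.inr hx)
  obtain ⟨V, hG, hVU⟩ := gV hHC hC2 rW hPC U hU
  have hRV : Reals V = {x | rl x ∈ π.Z} := by
    rw [hVU]
    ext x
    exact hUr x
  rw [← hRV] at h5 h6
  obtain ⟨ψ, hψ, hψ'⟩ := exists_rel hHC
  obtain ⟨φ, φ', h7, h8⟩ := d2 ψ hψ n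
  have hV := hG.zfc
  have hM := hV.toIsZF
  have hfor := (hC1 V hG).1
  have hrel : ∀ (𝓡 : Set (ℕ → ℕ)) (x y : 𝓡), Rel 𝓡 φ x y ↔
      (Holds (std 𝓡) ψ ![x] (fun i => i.elim0) ↔ Holds (std 𝓡) ψ ![y] (fun i => i.elim0)) := by
    intro 𝓡 x y
    have h9 : (Fin.elim0 : Fin 0 → ℕ) = fun i => i.elim0 := funext fun i => i.elim0
    unfold Rel Tr
    rw [h9]
    exact h8 (std 𝓡) ⟨x⟩ x y
  refine ⟨V, hG.ctb, hV, h5, Pf V, Lf V, hfor, hc2 V hG, hc3 V hG, φ, φ', h7, ?_, ?_, ?_, ?_⟩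
  · intro 𝔐 hne
    refine ⟨fun x => ?_, fun {x y} h => ?_, fun {x y z} h h' => ?_⟩
    · exact (h8 𝔐 hne x x).2 Iff.rfl
    · exact (h8 𝔐 hne y x).2 ((h8 𝔐 hne x y).1 h).symm
    · exact (h8 𝔐 hne x z).2 (((h8 𝔐 hne x y).1 h).trans ((h8 𝔐 hne y z).1 h'))
  · rintro ⟨t, ht, hp, h9⟩
    obtain ⟨x, hx, y, hy, h10, h11, h12⟩ := h6 t ht hp
    refine (h9 ⟨x, hx⟩ ⟨y, hy⟩ h10 h11 fun h => h12 (congrArg Subtype.val h)).1 ?_
    rw [hrel]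
    exact ⟨fun _ => (hψ' V hV _).1 (psi2_V hG y hy), fun _ => (hψ' V hV _).1 (psi2_V hG x hx)⟩
  · obtain ⟨t, ht, -⟩ := hfor.top
    obtain ⟨G, hgen, -⟩ := exists_gen hG.ctb hfor ht
    exact ⟨G, hgen⟩
  · intro G hgen
    have hW : IsZFC (ext V G) := isZFC_ext hV hfor hgen
    obtain ⟨x, hx⟩ := not_psi2 hHC hG hC1 h4 hgen
    refine ⟨x, ⟨x, (hrel _ x x).2 Iff.rfl⟩, fun y hy => ?_⟩
    have h9 : ¬ Holds (std (Reals (ext V G))) ψ ![x] (fun i => i.elim0) := fun h =>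
      hx ((hψ' _ hW x).2 h)
    have h10 : Holds (std (Reals (ext V G))) ψ ![y] (fun i => i.elim0) :=
      (hψ' _ hW y).1 (psi2_ext (sub_ext hM hfor hgen) (psi2_V hG y.1 hy))
    rw [hrel, hrel]
    exact ⟨fun h => h9 (h.2 h10), fun h => h9 (h.1 h10)⟩

end Pool.Agent.H637_NO
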