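import Pool.Agent.H637_NO.HC2
import Pool.Agent.W868.Rec

/-!
# New orbits: hereditarily countable sets and codes
-/

set_option autoImplicit false
set_option linter.unreachableTactic false
set_option linter.unusedTactic false

namespace Pool.Agent.H637_NO

open Pool.Agent.W868 Pool.Agent.W868.GM
open ZFSet (pair)

namespace HCg

theorem clp_unique {r p p' : ZFSet.{0}} (h : Clp r p) (h' : Clp r p') :
    ∀ x n x', pair n x ∈ p → pair n x' ∈ p' → x = x' := by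
  intro x
  refine ZFSet.inductionOn x ?_
  intro x ih n x' hx hx'
  obtain ⟨n₁, x₁, e₁, -, h1, h2⟩ := h.1 _ hx
  obtain ⟨rfl, rfl⟩ := ZFSet.pair_inj.1 e₁
  obtain ⟨n₂, x₂, e₂, -, h3, h4⟩ := h'.1 _ hx'
  obtain ⟨rfl, rfl⟩ := ZFSet.pair_inj.1 e₂
  ext y
  constructor
  · intro hy
    obtain ⟨m, hm, h5, h6⟩ := h1 y hy
    obtain ⟨y', hy', h7⟩ := h4 m hm h5
    rwa [ih y hy m y' h6 h7]
  · intro hy'
    obtain ⟨m, hm, h5, h6⟩ := h3 y hy'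
    obtain ⟨y₁, hy₁, h7⟩ := h2 m hm h5
    rwa [← ih y₁ hy₁ m y h7 h6]

theorem cod_unique {r a a' : ZFSet.{0}} (h : Cod r a) (h' : Cod r a') : a = a' := by
  obtain ⟨p, h1, h2⟩ := h
  obtain ⟨p', h3, h4⟩ := h'
  exact clp_unique h1 h3 a ∅ a' h2 h4

/-- The product of hereditarily countable sets. -/
theorem HCt.prod {M : Set ZFSet.{0}} (hM : IsZF M) {a b : ZFSet.{0}} (ha : HCt M a)
    (hb : HCt M b) : HCt M (ZFSet.prod a b) := by
  have hB := hM.base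
  obtain ⟨T, hT, h1, h2, h3, h4⟩ := HCt.two hM ha hb
  have haT : ∀ x ∈ a, x ∈ T := fun x hx => h1 _ h2 x hx
  have hbT : ∀ x ∈ b, x ∈ T := fun x hx => h1 _ h3 x hx
  have hP : ZFSet.prod T T ∈ M := hM.prod_mem hT hT
  have hPi : Inj M (ZFSet.prod T T) ZFSet.omega :=
    Inj.trans hM hP hM.infinity (Inj.prod hM hT hT hM.infinity hM.infinity h4 h4)
      (inj_omega_sq hM)
  have hω : (ZFSet.omega : ZFSet.{0}).IsOrdinal := omega_eq ▸ ZFSet.isOrdinal_toZFSet _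
  have hQ : im (fun p => ({fs p, sn p} : ZFSet.{0})) (ZFSet.prod T T) ∈ M :=
    hM.im_mem hP (dfn_fssn hM)
  have hQi : Inj M (im (fun p => ({fs p, sn p} : ZFSet.{0})) (ZFSet.prod T T)) ZFSet.omega :=
    Inj.image hM hP hM.infinity hω hPi (dfn_fssn hM)
  have hQP := hM.union_mem hQ hP
  have hup : ∀ x ∈ T, ∀ y ∈ T, ({x, y} : ZFSet.{0}) ∈
      im (fun p => ({fs p, sn p} : ZFSet.{0})) (ZFSet.prod T T) := by
    intro x hx y hy
    refine mem_im.2 ⟨pair x y, ZFSet.pair_mem_prod.2 ⟨hx, hy⟩, ?_⟩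
    simp
  refine HCt.of_sub hM (T := T ∪ (im (fun p => ({fs p, sn p} : ZFSet.{0})) (ZFSet.prod T T) ∪
    ZFSet.prod T T)) (hM.union_mem hT hQP) ?_
    (inj_omega_union hM hT hQP h4 (inj_omega_union hM hQ hP hQi hPi))
    (hM.prod_mem (hM.trans _ hT _ h2) (hM.trans _ hT _ h3)) ?_
  · intro x hx y hy
    rcases ZFSet.mem_union.1 hx with hx | hx
    · exact ZFSet.mem_union.2 (Or.inl (h1 x hx y hy))
    rcases ZFSet.mem_union.1 hx with hx | hx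
    · obtain ⟨p, hp, rfl⟩ := mem_im.1 hx
      obtain ⟨u, hu, v, hv, rfl⟩ := ZFSet.mem_prod.1 hp
      rw [fs_pair, sn_pair] at hy
      rcases ZFSet.mem_pair.1 hy with rfl | rfl
      · exact ZFSet.mem_union.2 (Or.inl hu)
      · exact ZFSet.mem_union.2 (Or.inl hv)
    · obtain ⟨u, hu, v, hv, rfl⟩ := ZFSet.mem_prod.1 hx
      refine ZFSet.mem_union.2 (Or.inr (ZFSet.mem_union.2 (Or.inl ?_)))
      rcases ZFSet.mem_pair.1 hy with rfl | rfl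
      · have h5 := hup u hu u hu
        rwa [ZFSet.pair_eq_singleton] at h5
      · exact hup u hu v hv
  · intro q hq
    obtain ⟨u, hu, v, hv, rfl⟩ := ZFSet.mem_prod.1 hq
    exact ZFSet.mem_union.2 (Or.inr (ZFSet.mem_union.2 (Or.inr
      (ZFSet.pair_mem_prod.2 ⟨haT u hu, hbT v hv⟩))))

/-- The predecessors of `z`. -/
noncomputable def prd (r z : ZFSet.{0}) : ZFSet.{0} := ZFSet.sep (fun m => pair m z ∈ r) ZFSet.omega

theorem mem_prd {r z m : ZFSet.{0}} : m ∈ prd r z ↔ m ∈ ZFSet.omega ∧ pair m z ∈ r :=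
  ZFSet.mem_sep

section col

variable {M : Set ZFSet.{0}} (hM : IsZF M)

include hM

theorem clp_mem {r p : ZFSet.{0}} (hr : r ∈ M) (hro : r ⊆ oo) (h : Clp r p) :
    ∃ F : ZFSet.{0} → ZFSet.{0}, (DfnF M M fun w : Fin 1 → ZFSet.{0} => F (w 0)) ∧
      (∀ z, F z = im F (prd r z)) ∧ p = gr F ZFSet.omega := by
  have hB := hM.base
  -- the values
  have hval : ∀ n ∈ ZFSet.omega, ∃ x, pair n x ∈ p := h.2
  choose! c hc using hval
  have hcu : ∀ n x, pair n x ∈ p → n ∈ ZFSet.omega ∧ x = c n := by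
    intro n x hx
    obtain ⟨n₁, x₁, e₁, hn, -, -⟩ := h.1 _ hx
    obtain ⟨rfl, rfl⟩ := ZFSet.pair_inj.1 e₁
    exact ⟨hn, clp_unique h h _ _ _ hx (hc _ hn)⟩
  have hcm : ∀ n ∈ ZFSet.omega, ∀ y, y ∈ c n ↔ ∃ m ∈ ZFSet.omega, pair m n ∈ r ∧ y = c m := by
    intro n hn y
    obtain ⟨n₁, x₁, e₁, -, h1, h2⟩ := h.1 _ (hc n hn)
    obtain ⟨rfl, rfl⟩ := ZFSet.pair_inj.1 e₁
    constructor
    · intro hy
      obtain ⟨m, hm, h3, h4⟩ := h1 y hy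
      exact ⟨m, hm, h3, (hcu _ _ h4).2⟩
    · rintro ⟨m, hm, h3, rfl⟩
      obtain ⟨y, hy, h4⟩ := h2 m hm h3
      rwa [← (hcu _ _ h4).2]
  have hz : ∀ z m, m ∈ prd r z → z ∈ ZFSet.omega := by
    intro z m hm
    exact (ZFSet.pair_mem_prod.1 (hro (mem_prd.1 hm).2)).2
  have hwf : WellFounded fun u z => u ∈ prd r z := by
    refine Subrelation.wf (r := InvImage (fun x y : ZFSet.{0} => x ∈ y) c) ?_
      (InvImage.wf c ZFSet.mem_wf)
    intro u z hu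
    exact (hcm z (hz z u hu) (c u)).2 ⟨u, (mem_prd.1 hu).1, (mem_prd.1 hu).2, rfl⟩
  have hF := wfF_eq (prd r) hwf (fun _ g => im sn g)
  refine ⟨wfF (prd r) hwf fun _ g => im sn g, ?_, ?_, ?_⟩
  · refine IsZF.wfrec hM hwf ?_ ?_ hF
    · unfold prd
      refine hM.sep' (Q := fun m v => pair m (v 0) ∈ r) (DfnF.const hM.infinity) ?_
      exact Dfn.mem (hB.pair' (DfnF.proj 0) (DfnF.proj 1)) (DfnF.const hr)
    · exact hM.im' (h := fun p _ => sn p) (DfnF.proj 1) (hM.sn' (DfnF.proj 0))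
  · intro z
    rw [hF z]
    ext y
    rw [mem_im, mem_im]
    constructor
    · rintro ⟨q, hq, rfl⟩
      obtain ⟨u, hu, rfl⟩ := mem_gr.1 hq
      exact ⟨u, hu, by rw [sn_pair]⟩
    · rintro ⟨u, hu, rfl⟩
      exact ⟨_, mem_gr.2 ⟨u, hu, rfl⟩, by rw [sn_pair]⟩
  · have hFc : ∀ z, z ∈ ZFSet.omega → wfF (prd r) hwf (fun _ g => im sn g) z = c z := by
      intro z
      refine hwf.induction (C := fun z => z ∈ ZFSet.omega →
        wfF (prd r) hwf (fun _ g => im sn g) z = c z) z ?_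
      intro z ih hzω
      rw [hF z]
      ext y
      rw [mem_im, hcm z hzω]
      constructor
      · rintro ⟨q, hq, rfl⟩
        obtain ⟨u, hu, rfl⟩ := mem_gr.1 hq
        have hu' := mem_prd.1 hu
        exact ⟨u, hu'.1, hu'.2, by rw [sn_pair, ih u hu hu'.1]⟩
      · rintro ⟨m, hm, h3, rfl⟩
        refine ⟨_, mem_gr.2 ⟨m, mem_prd.2 ⟨hm, h3⟩, rfl⟩, ?_⟩
        rw [sn_pair, ih m (mem_prd.2 ⟨hm, h3⟩) hm]
    ext q
    rw [mem_gr]
    constructor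
    · intro hq
      obtain ⟨n, x, rfl, hn, -, -⟩ := h.1 q hq
      exact ⟨n, hn, by rw [hFc n hn, (hcu n x hq).2]⟩
    · rintro ⟨n, hn, rfl⟩
      rw [hFc n hn]
      exact hc n hn

theorem clp_hct {r p : ZFSet.{0}} (hr : r ∈ M) (hro : r ⊆ oo) (h : Clp r p) :
    HCt M p ∧ ∀ n x, pair n x ∈ p → HCt M x := by
  obtain ⟨F, hF, h1, rfl⟩ := clp_mem hM hr hro h
  have hω : (ZFSet.omega : ZFSet.{0}).IsOrdinal := omega_eq ▸ ZFSet.isOrdinal_toZFSet _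
  have hR : im F ZFSet.omega ∈ M := hM.im_mem hM.infinity hF
  have hRt : Tra (im F ZFSet.omega) := by
    intro x hx y hy
    obtain ⟨n, hn, rfl⟩ := mem_im.1 hx
    rw [h1 n] at hy
    obtain ⟨m, hm, rfl⟩ := mem_im.1 hy
    exact mem_im.2 ⟨m, (mem_prd.1 hm).1, rfl⟩
  have hRi : Inj M (im F ZFSet.omega) ZFSet.omega :=
    Inj.image hM hM.infinity hM.infinity hω
      (Inj.of_subset hM hM.infinity hM.infinity fun _ h => h) hF
  have hRh : HCt M (im F ZFSet.omega) := HCt.of_sub hM hR hRt hRi hR fun _ h => h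
  have hp : gr F ZFSet.omega ∈ M := by
    unfold gr
    exact hM.im_mem hM.infinity (hM.base.pair' (DfnF.proj 0) hF)
  refine ⟨HCt.sub hM (HCt.prod hM (hCt_omega hM) hRh) hp ?_, ?_⟩
  · intro q hq
    obtain ⟨n, hn, rfl⟩ := mem_gr.1 hq
    exact ZFSet.pair_mem_prod.2 ⟨hn, mem_im.2 ⟨n, hn, rfl⟩⟩
  · intro n x hx
    obtain ⟨hn, rfl⟩ := pair_mem_gr.1 hx
    exact HCt.elem hRh (mem_im.2 ⟨n, hn, rfl⟩)

theorem exists_code {a : ZFSet.{0}} (ha : HCt M a) : ∃ r ∈ PW M, Cod r a := by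
  have hB := hM.base
  obtain ⟨T, hT, h1, h2, f, hf, h3⟩ := ha
  have haM : a ∈ M := hM.trans _ hT _ h2
  have h0 := hM.empty_mem
  have h0ω : ∅ ∈ (ZFSet.omega : ZFSet.{0}) := ZFSet.omega_zero
  have hsc : ∀ k ∈ (ZFSet.omega : ZFSet.{0}), insert k k ∈ (ZFSet.omega : ZFSet.{0}) :=
    fun k hk => ZFSet.omega_succ hk
  have hne : ∀ k : ZFSet.{0}, insert k k ≠ ∅ := by
    intro k h
    exact ZFSet.notMem_empty k (h ▸ ZFSet.mem_insert k k)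
  have hii : ∀ k k' : ZFSet.{0}, insert k k = insert k' k' → k = k' := by
    intro k k' h
    by_contra hne
    have h5 : k ∈ insert k' k' := h ▸ ZFSet.mem_insert k k
    have h6 : k' ∈ insert k k := h.symm ▸ ZFSet.mem_insert k' k'
    rcases ZFSet.mem_insert_iff.1 h5 with h5 | h5
    · exact hne h5
    rcases ZFSet.mem_insert_iff.1 h6 with h6 | h6
    · exact hne h6.symm
    exact ZFSet.mem_asymm h5 h6
  have hR : Dfn M M fun w : Fin 2 → ZFSet.{0} => (w 0 = a ∧ w 1 = ∅) ∨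
      (¬ w 0 = a ∧ ∃ k ∈ ZFSet.omega, pair (w 0) k ∈ f ∧ w 1 = insert k k) := by
    apply Dfn.or
    · exact Dfn.and (Dfn.eq (DfnF.proj 0) (DfnF.const haM))
        (Dfn.eq (DfnF.proj 1) (DfnF.const h0))
    · apply Dfn.and (Dfn.not (Dfn.eq (DfnF.proj 0) (DfnF.const haM)))
      apply hB.bex (DfnF.const hM.infinity)
      apply Dfn.and
      · exact Dfn.mem (hB.pair' (DfnF.proj 1) (DfnF.proj 0)) (DfnF.const hf)
      · exact Dfn.eq (DfnF.proj 2) (hB.insert' (DfnF.proj 0) (DfnF.proj 0))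
  obtain ⟨g, hg, h4, h5⟩ := inj_of_rel hM hT hM.infinity
    (R := fun x m => (x = a ∧ m = ∅) ∨
      (¬ x = a ∧ ∃ k ∈ ZFSet.omega, pair x k ∈ f ∧ m = insert k k)) hR
    (by
      intro x hx
      by_cases hxa : x = a
      · exact ⟨∅, h0ω, Or.inl ⟨hxa, rfl⟩⟩
      · obtain ⟨k, hk, h6⟩ := fun_exists h3.1 hx
        exact ⟨_, hsc k hk, Or.inr ⟨hxa, k, hk, h6, rfl⟩⟩)
    (by
      rintro x - m - m' - (⟨h6, rfl⟩ | ⟨h6, k, -, h7, rfl⟩) (⟨h8, rfl⟩ | ⟨h8, k', -, h9, rfl⟩)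
      · rfl
      · exact absurd h6 h8
      · exact absurd h8 h6
      · rw [fun_unique h3.1 h7 h9])
    (by
      rintro x - x' - m - (⟨h6, rfl⟩ | ⟨h6, k, -, h7, rfl⟩) (⟨h8, h9⟩ | ⟨h8, k', -, h9, h10⟩)
      · rw [h6, h8]
      · exact absurd h10.symm (hne k')
      · exact absurd h9 (hne k)
      · obtain rfl := hii _ _ h10
        exact h3.2 _ _ _ h7 h9)
  have hga : pair a ∅ ∈ g := (h5 a ∅).2 ⟨h2, h0ω, Or.inl ⟨rfl, rfl⟩⟩
  obtain ⟨r, hr, h6, h7⟩ := hM.rel_mem hM.infinity hM.infinity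
    (Q := fun m n => ∃ x ∈ T, ∃ y ∈ T, x ∈ y ∧ pair x m ∈ g ∧ pair y n ∈ g) (by
      apply hB.bex (DfnF.const hT)
      apply hB.bex (DfnF.const hT)
      apply Dfn.and (Dfn.mem (DfnF.proj 1) (DfnF.proj 0))
      apply Dfn.and
      · exact Dfn.mem (hB.pair' (DfnF.proj 1) (DfnF.proj 2)) (DfnF.const hg)
      · exact Dfn.mem (hB.pair' (DfnF.proj 0) (DfnF.proj 3)) (DfnF.const hg))
  have hgT : ∀ x m, pair x m ∈ g → x ∈ T ∧ m ∈ ZFSet.omega := fun x m h =>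
    ⟨((h5 x m).1 h).1, ((h5 x m).1 h).2.1⟩
  refine ⟨r, ZFSet.mem_sep.2 ⟨ZFSet.mem_powerset.2 h6, hr⟩, ?_⟩
  refine ⟨ZFSet.sep (fun q => ∃ n x, q = pair n x ∧ ((x ∈ T ∧ pair x n ∈ g) ∨
    (x = ∅ ∧ ¬ ∃ y, pair y n ∈ g))) (ZFSet.prod ZFSet.omega (insert ∅ T)), ?_, ?_⟩
  · have hmp : ∀ n x, pair n x ∈ ZFSet.sep (fun q => ∃ n x, q = pair n x ∧
        ((x ∈ T ∧ pair x n ∈ g) ∨ (x = ∅ ∧ ¬ ∃ y, pair y n ∈ g)))
        (ZFSet.prod ZFSet.omega (insert ∅ T)) ↔ n ∈ ZFSet.omega ∧ ((x ∈ T ∧ pair x n ∈ g) ∨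
        (x = ∅ ∧ ¬ ∃ y, pair y n ∈ g)) := by
      intro n x
      rw [ZFSet.mem_sep, ZFSet.pair_mem_prod]
      constructor
      · rintro ⟨⟨hn, -⟩, n', x', e, h8⟩
        obtain ⟨rfl, rfl⟩ := ZFSet.pair_inj.1 e
        exact ⟨hn, h8⟩
      · rintro ⟨hn, h8⟩
        refine ⟨⟨hn, ?_⟩, n, x, rfl, h8⟩
        rcases h8 with h8 | h8
        · exact ZFSet.mem_insert_iff.2 (Or.inr h8.1)
        · exact ZFSet.mem_insert_iff.2 (Or.inl h8.1)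
    refine ⟨?_, ?_⟩
    · intro q hq
      have hq' := hq
      rw [ZFSet.mem_sep] at hq
      obtain ⟨-, n, x, rfl, -⟩ := hq
      obtain ⟨hn, h8⟩ := (hmp n x).1 hq'
      refine ⟨n, x, rfl, hn, ?_, ?_⟩
      · intro y hy
        rcases h8 with ⟨hx, h8⟩ | ⟨rfl, -⟩
        · have hyT := h1 x hx y hy
          obtain ⟨m, hm, h9⟩ := fun_exists h4.1 hyT
          exact ⟨m, hm, (h7 m n).2 ⟨hm, hn, y, hyT, x, hx, hy, h9, h8⟩,
            (hmp m y).2 ⟨hm, Or.inl ⟨hyT, h9⟩⟩⟩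
        · exact absurd hy (ZFSet.notMem_empty y)
      · intro m hm h9
        obtain ⟨-, -, x', hx', y', hy', h10, h11, h12⟩ := (h7 m n).1 h9
        rcases h8 with ⟨hx, h8⟩ | ⟨rfl, h8⟩
        · obtain rfl := h4.2 _ _ _ h12 h8
          exact ⟨x', h10, (hmp m x').2 ⟨hm, Or.inl ⟨hx', h11⟩⟩⟩
        · exact absurd ⟨y', h12⟩ h8
    · intro n hn
      by_cases h8 : ∃ y, pair y n ∈ g
      · obtain ⟨y, h8⟩ := h8
        exact ⟨y, (hmp n y).2 ⟨hn, Or.inl ⟨(hgT _ _ h8).1, h8⟩⟩⟩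
      · exact ⟨∅, (hmp n ∅).2 ⟨hn, Or.inr ⟨rfl, h8⟩⟩⟩
  · rw [ZFSet.mem_sep, ZFSet.pair_mem_prod]
    exact ⟨⟨h0ω, ZFSet.mem_insert_iff.2 (Or.inr h2)⟩, ∅, a, rfl, Or.inl ⟨h2, hga⟩⟩

open Classical in
/-- The set that is coded by `r`. -/
noncomputable def dec (M : Set ZFSet.{0}) (r : ZFSet.{0}) : ZFSet.{0} :=
  if h : r ∈ PW M ∧ ∃ a, Cod r a then h.2.choose else ∅

omit hM in
theorem dec_of {r a : ZFSet.{0}} (hr : r ∈ PW M) (h : Cod r a) : dec M r = a := by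
  have h1 : r ∈ PW M ∧ ∃ a, Cod r a := ⟨hr, a, h⟩
  unfold dec
  rw [dif_pos h1]
  exact cod_unique h1.2.choose_spec h

omit hM in
theorem dec_not {r : ZFSet.{0}} (h : ¬ (r ∈ PW M ∧ ∃ a, Cod r a)) : dec M r = ∅ := by
  unfold dec
  rw [dif_neg h]

omit hM in
theorem mem_PW' {r : ZFSet.{0}} : r ∈ PW M ↔ r ∈ M ∧ r ⊆ oo := by
  unfold PW
  rw [ZFSet.mem_sep, ZFSet.mem_powerset]
  exact and_comm

theorem PW_mem' : PW M ∈ M := by
  obtain ⟨y, hy, h⟩ := hM.power oo (hM.prod_mem hM.infinity hM.infinity)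
  have h1 : y = PW M := by
    ext z
    rw [h, mem_PW']
  exact h1 ▸ hy

theorem cod_hct {r a : ZFSet.{0}} (hr : r ∈ M) (hro : r ⊆ oo) (h : Cod r a) : HCt M a := by
  obtain ⟨p, h1, h2⟩ := h
  exact (clp_hct hM hr hro h1).2 _ _ h2

theorem dec_hct (r : ZFSet.{0}) : HCt M (dec M r) := by
  by_cases h : r ∈ PW M ∧ ∃ a, Cod r a
  · obtain ⟨hr, a, ha⟩ := h
    rw [dec_of hr ha]
    exact cod_hct hM (mem_PW'.1 hr).1 (mem_PW'.1 hr).2 ha
  · rw [dec_not h]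
    exact hCt_empty hM

/-- `Clp` with a parameter for `ω`. -/
def ClpV (w r p : ZFSet.{0}) : Prop :=
  (∀ q ∈ p, ∃ n x, q = pair n x ∧ n ∈ w ∧
    (∀ y ∈ x, ∃ m ∈ w, pair m n ∈ r ∧ pair m y ∈ p) ∧
    ∀ m ∈ w, pair m n ∈ r → ∃ y ∈ x, pair m y ∈ p) ∧
  ∀ n ∈ w, ∃ q ∈ p, ∃ n' x, q = pair n' x ∧ n' = n

omit hM in
theorem clpV_iff {r p : ZFSet.{0}} : ClpV ZFSet.omega r p ↔ Clp r p := by
  unfold ClpV Clp
  refine and_congr Iff.rfl ⟨fun h n hn => ?_, fun h n hn => ?_⟩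
  · obtain ⟨q, hq, n', x, rfl, rfl⟩ := h n hn
    exact ⟨x, hq⟩
  · obtain ⟨x, hx⟩ := h n hn
    exact ⟨_, hx, n, x, rfl, rfl⟩

omit hM in
theorem d0_ClpV : D0 fun v : Fin 3 → ZFSet.{0} => ClpV (v 0) (v 1) (v 2) := by
  unfold ClpV
  (repeat' first
      | assumption
      | exact D0v.proj _
      | apply D0.and | apply D0.pairMem | apply D0.expair
      | apply D0.bex | apply D0.ball | apply D0.imp
      | apply D0.eq | apply D0.mem)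

theorem dfn_code : Dfn M M fun w : Fin 2 → ZFSet.{0} => w 0 ∈ PW M ∧ Cod (w 0) (w 1) := by
  have hB := hM.base
  have h1 : Dfn M M fun w : Fin 2 → ZFSet.{0} => w 0 ∈ PW M ∧
      ∃ p ∈ M, ClpV ZFSet.omega (w 0) p ∧ pair ∅ (w 1) ∈ p := by
    apply Dfn.and (Dfn.mem (DfnF.proj 0) (DfnF.const (PW_mem' hM)))
    apply Dfn.ex
    apply Dfn.and
    · exact Dfn.comp3 (Q := ClpV) (d0_ClpV.dfn hM.trans) (DfnF.const hM.infinity)
        (DfnF.proj 1) (DfnF.proj 0)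
    · exact Dfn.mem (hB.pair' (DfnF.const hM.empty_mem) (DfnF.proj 2)) (DfnF.proj 0)
  refine h1.congr fun v _ => and_congr_right fun h2 => ?_
  constructor
  · rintro ⟨p, -, h3, h4⟩
    exact ⟨p, clpV_iff.1 h3, h4⟩
  · rintro ⟨p, h3, h4⟩
    have h5 := (clp_hct hM (mem_PW'.1 h2).1 (mem_PW'.1 h2).2 h3).1
    exact ⟨p, HCt.mem_M hM h5, clpV_iff.2 h3, h4⟩

theorem dfn_dec : DfnF M M fun w : Fin 1 → ZFSet.{0} => dec M (w 0) := by
  have hB := hM.base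
  have h1 : Dfn M M fun w : Fin 2 → ZFSet.{0} =>
      (w 1 ∈ PW M ∧ Cod (w 1) (w 0)) ∨
      ((¬ ∃ a ∈ M, (w 1 ∈ PW M ∧ Cod (w 1) a)) ∧ w 0 = ∅) := by
    apply Dfn.or
    · exact Dfn.comp2 (Q := fun r a => r ∈ PW M ∧ Cod r a) (dfn_code hM) (DfnF.proj 1)
        (DfnF.proj 0)
    · apply Dfn.and
      · apply Dfn.not
        apply Dfn.ex
        exact Dfn.comp2 (Q := fun r a => r ∈ PW M ∧ Cod r a) (dfn_code hM) (DfnF.proj 2)
          (DfnF.proj 0)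
      · exact Dfn.eq (DfnF.proj 0) (DfnF.const hM.empty_mem)
  refine DfnF.of_unique (R := fun y v => (v 0 ∈ PW M ∧ Cod (v 0) y) ∨
      ((¬ ∃ a ∈ M, (v 0 ∈ PW M ∧ Cod (v 0) a)) ∧ y = ∅)) h1 ?_
  intro v hv
  refine ⟨HCt.mem_M hM (dec_hct hM _), fun y hy => ?_⟩
  constructor
  · rintro (⟨h2, h3⟩ | ⟨h2, rfl⟩)
    · exact (dec_of h2 h3).symm
    · rw [dec_not]
      rintro ⟨h3, a, h4⟩
      exact h2 ⟨a, HCt.mem_M hM (cod_hct hM (mem_PW'.1 h3).1 (mem_PW'.1 h3).2 h4), h3, h4⟩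
  · rintro rfl
    by_cases h : v 0 ∈ PW M ∧ ∃ a, Cod (v 0) a
    · obtain ⟨hr, a, ha⟩ := h
      rw [dec_of hr ha]
      exact Or.inl ⟨hr, ha⟩
    · refine Or.inr ⟨?_, dec_not h⟩
      rintro ⟨a, -, h3, h4⟩
      exact h ⟨h3, a, h4⟩

theorem exists_hc : ∃ h ∈ M, ∀ z, z ∈ h ↔ HCt M z := by
  refine ⟨im (dec M) (PW M), hM.im_mem (PW_mem' hM) (dfn_dec hM), fun z => ?_⟩
  rw [mem_im]
  constructor
  · rintro ⟨r, -, rfl⟩
    exact dec_hct hM r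
  · intro hz
    obtain ⟨r, hr, h⟩ := exists_code hM hz
    exact ⟨r, hr, (dec_of hr h).symm⟩

end col

end HCg

theorem hCg : S_HC := by
  intro M hM
  exact ⟨HCg.exists_hc hM, fun a ha => HCg.exists_code hM ha,
    fun r hr hro p h => (HCg.clp_hct hM hr hro h).1,
    fun r hr hro a h => HCg.cod_hct hM hr hro h, fun r a a' h h' => HCg.cod_unique h h'⟩

end Pool.Agent.H637_NO
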