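import Pool.Agent.H637_NO.Fin
import Pool.Agent.H637_NO.HCg
import Pool.Agent.H637_NO.C4

/-!
# New orbits: facts on the model `V` and the forcing `P`, without hypotheses
-/

set_option autoImplicit false
set_option linter.unreachableTactic false
set_option linter.unusedTactic false

namespace Pool.Agent.H637_NO

open Pool.Agent.W868 Pool.Agent.W868.GM Pool.Agent.Y588 Pool.Agent.R597
open ZFSet (pair)

theorem s_PC : S_PC := pC hCg hC2
theorem s_CT : S_CT := cT hCg hC2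
theorem s_WD : S_WD := wD hCg hC2 s_PC
theorem s_FUS : S_FUS := fUS hCg hC2 s_PC
theorem s_EXT : S_EXT := eXT hCg hC2 rW s_PC s_CT s_FUS tR'
theorem s_UU : S_UU := uU hCg hC2 s_WD
theorem s_DIS : S_DIS := dIS hCg hC2 rW s_PC s_FUS tR' s_EXT
theorem s_UA : S_UA := uA hCg hC2 s_WD tR' s_EXT s_UU s_DIS
theorem s_V : S_V := gV hCg hC2 rW s_PC
theorem s_C1 : S_C1 := c1 hCg hC2 rW s_WD s_PC
theorem s_CP : S_CP := cP hC2 s_PC
theorem s_D1 : S_D1 := d1 (d1a hCg hC2 rW) d1b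
theorem s_C2 : S_C2 := c2 hCg hC2 rW s_WD s_PC s_C1 s_CP s_D1
theorem s_C3 : S_C3 := c3 hCg hC2 rW rWd s_WD (q0 hC2) s_FUS s_C1 s_CP
theorem s_C4 : S_C4 := c4 hCg hC2 rW s_WD s_PC s_C1 s_CP

/-- There is a model `V` that satisfies all the determinacy of the universe. -/
theorem exists_V : ∃ V, GoodV V ∧ ∀ n, PiDet Set.univ n → PiDet (Reals V) n := by
  obtain ⟨A₁, hA₁, hU₁⟩ := s_UA
  have h1 : ∀ n, ∃ A : Set ZFSet.{0}, A.Countable ∧
      ∀ π : Pkg Unit, A ⊆ π.Z → PiDet Set.univ n → PiDet {x | rl x ∈ π.Z} n := by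
    intro n
    by_cases h : PiDet Set.univ n
    · obtain ⟨A, hA, h2⟩ := uB n h
      exact ⟨A, hA, fun π hπ _ => (h2 π hπ).1⟩
    · exact ⟨∅, Set.countable_empty, fun π _ h' => absurd h' h⟩
  choose A hA hA' using h1
  obtain ⟨π, hπ, -⟩ := exists_pkg' (P := Unit) ((check : ZFSet.{0} → PName Unit) ''
    (A₁ ∪ ⋃ n, A n)) ((hA₁.union (Set.countable_iUnion hA)).image _) ()
  have hZ : ∀ x ∈ A₁ ∪ ⋃ n, A n, x ∈ π.Z := fun x hx => hπ ⟨x, hx, rfl⟩
  obtain ⟨U, hU, hUr⟩ := hU₁ π fun x hx => hZ x (Or.inl hx)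
  obtain ⟨V, hG, hVU⟩ := s_V U hU
  have hRV : Reals V = {x | rl x ∈ π.Z} := by
    rw [hVU]
    ext x
    exact hUr x
  refine ⟨V, hG, fun n hn => ?_⟩
  rw [hRV]
  exact hA' n π (fun x hx => hZ x (Or.inr (Set.mem_iUnion.2 ⟨n, hx⟩))) hn

/-- The `Σ^1_3` sentence that fails in `V` and holds in the generic extensions. -/
theorem exists_sentence : ∃ φ : Fm 0 0, Cls true 3 φ ∧ ∀ M, IsZFC M →
    (Tr (Reals M) φ ![] ↔ ∃ x : Reals M, ¬ Psi2 M x.1) := by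
  obtain ⟨ψ, hψ, hψ'⟩ := exists_rel hCg
  obtain ⟨χ, h1, h2⟩ := d2_neg hψ
  refine ⟨χ.exR, Cls.ex' h1, fun M hM => ?_⟩
  unfold Tr
  change (∃ a : Reals M, Holds (std (Reals M)) χ (Fin.cons a ![]) Fin.elim0) ↔ _
  refine exists_congr fun x => ?_
  have h3 := h2 (std (Reals M)) ⟨x⟩ ![x] (fun i => i.elim0)
  rw [hψ' M hM x]
  refine Iff.trans (iff_of_eq ?_) h3.symm
  refine congrArg₂ (Holds (std (Reals M)) χ) ?_ (funext fun i => i.elim0)
  funext i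
  fin_cases i
  rfl

end Pool.Agent.H637_NO
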