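import Pool.Agent.H637_NO.LbB
import Pool.Agent.W868.God

/-!
# New orbits: hereditarily countable sets and codes
-/

set_option autoImplicit false
set_option linter.unreachableTactic false
set_option linter.unusedTactic false

namespace Pool.Agent.H637_NO

open Pool.Agent.W868 Pool.Agent.W868.GM
open ZFSet (pair)

/-! ### Collapses -/

/-- The collapse is unique. -/
theorem clp_uniq {r p p' : ZFSet.{0}} (hp : Clp r p) (hp' : Clp r p') :
    ∀ x n x', pair n x ∈ p → pair n x' ∈ p' → x = x' := by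
  intro x
  induction x using ZFSet.inductionOn with
  | _ x ih =>
  intro n x' h1 h2
  obtain ⟨n1, x1, e1, -, a1, b1⟩ := hp.1 _ h1
  obtain ⟨rfl, rfl⟩ := ZFSet.pair_inj.1 e1
  obtain ⟨n2, x2, e2, -, a2, b2⟩ := hp'.1 _ h2
  obtain ⟨rfl, rfl⟩ := ZFSet.pair_inj.1 e2
  ext y
  constructor
  · intro hy
    obtain ⟨m, hm, h3, h4⟩ := a1 y hy
    obtain ⟨y', hy', h5⟩ := b2 m hm h3
    rw [ih y hy m y' h4 h5]
    exact hy'
  · intro hy
    obtain ⟨m, hm, h3, h4⟩ := a2 y hy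
    obtain ⟨y', hy', h5⟩ := b1 m hm h3
    rw [← ih y' hy' m y h5 h4]
    exact hy'

theorem clp_fun {r p : ZFSet.{0}} (hp : Clp r p) {n x x' : ZFSet.{0}} (h : pair n x ∈ p)
    (h' : pair n x' ∈ p) : x = x' := clp_uniq hp hp x n x' h h'

theorem clp_eq {r p p' : ZFSet.{0}} (hp : Clp r p) (hp' : Clp r p') : p = p' := by
  have key : ∀ {p p' : ZFSet.{0}}, Clp r p → Clp r p' → ∀ q ∈ p, q ∈ p' := by
    intro p p' hp hp' q hq
    obtain ⟨n, x, rfl, hn, -, -⟩ := hp.1 q hq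
    obtain ⟨x', hx'⟩ := hp'.2 n hn
    rw [clp_uniq hp hp' x n x' hq hx']
    exact hx'
  ext q
  exact ⟨key hp hp' q, key hp' hp q⟩

theorem cod_uniq {r a a' : ZFSet.{0}} (h : Cod r a) (h' : Cod r a') : a = a' := by
  obtain ⟨p, hp, h1⟩ := h
  obtain ⟨p', hp', h2⟩ := h'
  exact clp_uniq hp hp' a ∅ a' h1 h2

open Classical in
/-- The collapse as a function. -/
noncomputable def clF (p n : ZFSet.{0}) : ZFSet.{0} :=
  if h : ∃ x, pair n x ∈ p then h.choose else ∅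

theorem clF_spec {p n x : ZFSet.{0}} (h : pair n x ∈ p) : pair n (clF p n) ∈ p := by
  have h1 : ∃ x, pair n x ∈ p := ⟨x, h⟩
  rw [clF, dif_pos h1]
  exact h1.choose_spec

theorem clF_none {p n : ZFSet.{0}} (h : ¬ ∃ x, pair n x ∈ p) : clF p n = ∅ := by
  rw [clF, dif_neg h]

theorem clF_eq {r p n x : ZFSet.{0}} (hp : Clp r p) (h : pair n x ∈ p) : clF p n = x :=
  clp_fun hp (clF_spec h) h

/-- The predecessors of `z` for the relation `r`. -/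
noncomputable def clpr (r z : ZFSet.{0}) : ZFSet.{0} :=
  ZFSet.sep (fun m => pair m z ∈ r) ZFSet.omega

theorem mem_clpr {r z m : ZFSet.{0}} : m ∈ clpr r z ↔ m ∈ ZFSet.omega ∧ pair m z ∈ r :=
  ZFSet.mem_sep

theorem clp_dom {r p n x : ZFSet.{0}} (hp : Clp r p) (h : pair n x ∈ p) : n ∈ ZFSet.omega := by
  obtain ⟨n1, x1, e1, h1, -, -⟩ := hp.1 _ h
  obtain ⟨rfl, rfl⟩ := ZFSet.pair_inj.1 e1
  exact h1

/-- The recursion equation of the collapse. -/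
theorem clF_rec {r p : ZFSet.{0}} (hr : r ⊆ oo) (hp : Clp r p) (z : ZFSet.{0}) :
    ∀ y, y ∈ clF p z ↔ ∃ m ∈ clpr r z, y = clF p m := by
  intro y
  by_cases hz : z ∈ ZFSet.omega
  · obtain ⟨x, hx⟩ := hp.2 z hz
    rw [clF_eq hp hx]
    obtain ⟨n1, x1, e1, -, a1, b1⟩ := hp.1 _ hx
    obtain ⟨rfl, rfl⟩ := ZFSet.pair_inj.1 e1
    constructor
    · intro hy
      obtain ⟨m, hm, h3, h4⟩ := a1 y hy
      exact ⟨m, mem_clpr.2 ⟨hm, h3⟩, (clF_eq hp h4).symm⟩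
    · rintro ⟨m, hm, rfl⟩
      obtain ⟨hm, h3⟩ := mem_clpr.1 hm
      obtain ⟨y, hy, h4⟩ := b1 m hm h3
      rw [clF_eq hp h4]
      exact hy
  · have h1 : ¬ ∃ x, pair z x ∈ p := fun ⟨x, hx⟩ => hz (clp_dom hp hx)
    rw [clF_none h1]
    constructor
    · intro h
      exact absurd h (ZFSet.notMem_empty _)
    · rintro ⟨m, hm, -⟩
      exact absurd (ZFSet.pair_mem_prod.1 (hr (mem_clpr.1 hm).2)).2 hz

theorem clpr_wf {r p : ZFSet.{0}} (hr : r ⊆ oo) (hp : Clp r p) :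
    WellFounded fun u z => u ∈ clpr r z := by
  refine Subrelation.wf (r := InvImage (fun a b : ZFSet.{0} => a ∈ b) (clF p)) ?_
    (InvImage.wf _ ZFSet.mem_wf)
  intro u z h
  exact (clF_rec hr hp z _).2 ⟨u, h, rfl⟩

theorem clp_gr {r p : ZFSet.{0}} (hp : Clp r p) : p = gr (clF p) ZFSet.omega := by
  ext q
  rw [mem_gr]
  constructor
  · intro hq
    obtain ⟨n, x, rfl, hn, -, -⟩ := hp.1 q hq
    exact ⟨n, hn, by rw [clF_eq hp hq]⟩
  · rintro ⟨n, hn, rfl⟩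
    obtain ⟨x, hx⟩ := hp.2 n hn
    exact clF_spec hx

/-- The values of a collapse form a transitive set. -/
theorem tra_clF {r p : ZFSet.{0}} (hr : r ⊆ oo) (hp : Clp r p) :
    Tra (im (clF p) ZFSet.omega) := by
  intro x hx y hy
  obtain ⟨n, hn, rfl⟩ := mem_im.1 hx
  obtain ⟨m, hm, rfl⟩ := (clF_rec hr hp n y).1 hy
  exact mem_im.2 ⟨m, (mem_clpr.1 hm).1, rfl⟩

theorem tra_omega : Tra ZFSet.omega := fun _ hx _ hy => isOrdinal_omega.mem_trans hy hx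

theorem mem_PW {M : Set ZFSet.{0}} {z : ZFSet.{0}} : z ∈ PW M ↔ z ∈ M ∧ z ⊆ oo := by
  rw [PW, ZFSet.mem_sep, ZFSet.mem_powerset]
  exact and_comm

section

variable {M : Set ZFSet.{0}} (hM : IsZF M)

include hM

theorem oo_mem : oo ∈ M := hM.prod_mem hM.infinity hM.infinity

theorem PW_mem : PW M ∈ M := by
  obtain ⟨y, hy, h⟩ := hM.power _ (oo_mem hM)
  have h1 : y = PW M := by
    ext z
    rw [h, mem_PW]
  exact h1 ▸ hy

theorem dfn_clF {r p : ZFSet.{0}} (hrM : r ∈ M) (hr : r ⊆ oo) (hp : Clp r p) :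
    DfnF M M fun w : Fin 1 → ZFSet.{0} => clF p (w 0) := by
  have hB := hM.base
  have hω := hM.infinity
  refine hM.wfrec (pr := clpr r) (G := fun _ g => im sn g) (clpr_wf hr hp) ?_ ?_ ?_
  · refine hM.sep' (Q := fun m v => pair m (v 0) ∈ r) (DfnF.const hω) ?_
    exact Dfn.mem (hB.pair' (DfnF.proj 0) (DfnF.proj 1)) (DfnF.const hrM)
  · exact hM.im' (h := fun p _ => sn p) (DfnF.proj 1) (hM.sn' (DfnF.proj 0))
  · intro z
    ext y
    rw [clF_rec hr hp z y, mem_im]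
    constructor
    · rintro ⟨m, hm, rfl⟩
      exact ⟨_, mem_gr.2 ⟨m, hm, rfl⟩, (sn_pair _ _).symm⟩
    · rintro ⟨q, hq, rfl⟩
      obtain ⟨m, hm, rfl⟩ := mem_gr.1 hq
      exact ⟨m, hm, sn_pair _ _⟩

theorem clp_mem {r p : ZFSet.{0}} (hrM : r ∈ M) (hr : r ⊆ oo) (hp : Clp r p) : p ∈ M := by
  have h := dfn_clF hM hrM hr hp
  rw [clp_gr hp, gr]
  exact hM.im_mem hM.infinity (hM.base.pair' (DfnF.proj 0) h)

/-! ### Sets that are countable in the model -/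

theorem inj_sq : Inj M (ZFSet.prod ZFSet.omega ZFSet.omega) ZFSet.omega :=
  sq_inj hM hM.infinity isOrdinal_omega fun _ h => h

theorem inj_single {x : ZFSet.{0}} (hx : x ∈ M) : Inj M {x} ZFSet.omega := by
  refine Inj.of_fun hM (hM.single_mem hx) hM.infinity (h := fun _ => ∅) (DfnF.const hM.empty_mem)
    (fun _ _ => ZFSet.omega_zero) ?_
  intro a ha a' ha' _
  rw [ZFSet.mem_singleton.1 ha, ZFSet.mem_singleton.1 ha']

theorem inj_union {x y : ZFSet.{0}} (hx : x ∈ M) (hy : y ∈ M) (h1 : Inj M x ZFSet.omega)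
    (h2 : Inj M y ZFSet.omega) : Inj M (x ∪ y) ZFSet.omega := by
  have hB := hM.base
  have hω := hM.infinity
  have h0 := hM.empty_mem
  have h01 : ({∅} : ZFSet.{0}) ∈ M := hM.single_mem h0
  have h0n : ({∅} : ZFSet.{0}) ≠ ∅ := fun h =>
    ZFSet.notMem_empty (∅ : ZFSet.{0}) (by
      have h' : (∅ : ZFSet.{0}) ∈ ({∅} : ZFSet.{0}) := ZFSet.mem_singleton.2 rfl
      rwa [h] at h')
  have h1ω : ({∅} : ZFSet.{0}) ∈ ZFSet.omega := by
    have h := ZFSet.omega_succ ZFSet.omega_zero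
    have e : (insert ∅ ∅ : ZFSet.{0}) = {∅} := by
      ext z
      simp
    rwa [e] at h
  obtain ⟨f, hf, h1⟩ := h1
  obtain ⟨g, hg, h2⟩ := h2
  have hxy := hM.union_mem hx hy
  have hR : Dfn M M fun w : Fin 2 → ZFSet.{0} =>
      (w 0 ∈ x ∧ ∃ c ∈ ZFSet.omega, pair (w 0) c ∈ f ∧ w 1 = pair ∅ c) ∨
      (¬ w 0 ∈ x ∧ ∃ c ∈ ZFSet.omega, pair (w 0) c ∈ g ∧ w 1 = pair {∅} c) := by
    (repeat' first
      | assumption
      | exact DfnF.proj _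
      | exact DfnF.const (by assumption)
      | apply Dfn.not | apply Dfn.and | apply Dfn.or
      | apply hB.bex
      | apply Dfn.eq | apply Dfn.mem | apply hB.pair')
  refine Inj.trans hM hxy hω (y := ZFSet.prod ZFSet.omega ZFSet.omega) ?_ (inj_sq hM)
  refine Inj.of_rel hM hxy (hM.prod_mem hω hω)
    (R := fun a b => (a ∈ x ∧ ∃ c ∈ ZFSet.omega, pair a c ∈ f ∧ b = pair ∅ c) ∨
      (¬ a ∈ x ∧ ∃ c ∈ ZFSet.omega, pair a c ∈ g ∧ b = pair {∅} c)) hR ?_ ?_ ?_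
  · intro a ha
    by_cases hax : a ∈ x
    · obtain ⟨c, hc, h3⟩ := fun_exists h1.1 hax
      exact ⟨_, ZFSet.pair_mem_prod.2 ⟨ZFSet.omega_zero, hc⟩, Or.inl ⟨hax, c, hc, h3, rfl⟩⟩
    · have hay : a ∈ y := (ZFSet.mem_union.1 ha).resolve_left hax
      obtain ⟨c, hc, h3⟩ := fun_exists h2.1 hay
      exact ⟨_, ZFSet.pair_mem_prod.2 ⟨h1ω, hc⟩, Or.inr ⟨hax, c, hc, h3, rfl⟩⟩
  · rintro a - b - b' - (⟨h3, c, -, h4, rfl⟩ | ⟨h3, c, -, h4, rfl⟩)
      (⟨h5, d, -, h6, rfl⟩ | ⟨h5, d, -, h6, rfl⟩)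
    · rw [fun_unique h1.1 h4 h6]
    · exact absurd h3 h5
    · exact absurd h5 h3
    · rw [fun_unique h2.1 h4 h6]
  · rintro a - a' - b - (⟨h3, c, -, h4, rfl⟩ | ⟨h3, c, -, h4, rfl⟩)
      (⟨h5, d, -, h6, h7⟩ | ⟨h5, d, -, h6, h7⟩)
    · obtain ⟨-, rfl⟩ := ZFSet.pair_inj.1 h7
      exact h1.2 _ _ _ h4 h6
    · exact absurd (ZFSet.pair_inj.1 h7).1.symm h0n
    · exact absurd (ZFSet.pair_inj.1 h7).1 h0n
    · obtain ⟨-, rfl⟩ := ZFSet.pair_inj.1 h7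
      exact h2.2 _ _ _ h4 h6

theorem inj_omega : Inj M ZFSet.omega ZFSet.omega :=
  Inj.of_subset hM hM.infinity hM.infinity fun _ h => h

theorem inj_im {h : ZFSet.{0} → ZFSet.{0}}
    (hh : DfnF M M fun w : Fin 1 → ZFSet.{0} => h (w 0)) : Inj M (im h ZFSet.omega) ZFSet.omega :=
  Inj.image hM hM.infinity hM.infinity isOrdinal_omega (inj_omega hM) hh

theorem hct_of_cod {r a : ZFSet.{0}} (hrM : r ∈ M) (hr : r ⊆ oo) (h : Cod r a) : HCt M a := by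
  obtain ⟨p, hp, h1⟩ := h
  have h2 := dfn_clF hM hrM hr hp
  refine ⟨im (clF p) ZFSet.omega, hM.im_mem hM.infinity h2, tra_clF hr hp, ?_, inj_im hM h2⟩
  exact mem_im.2 ⟨∅, ZFSet.omega_zero, (clF_eq hp h1).symm⟩

theorem hct_of_clp {r p : ZFSet.{0}} (hrM : r ∈ M) (hr : r ⊆ oo) (hp : Clp r p) : HCt M p := by
  have hB := hM.base
  have hω := hM.infinity
  have hpM := clp_mem hM hrM hr hp
  have hF := dfn_clF hM hrM hr hp
  have hF2 : DfnF M M fun w : Fin 1 → ZFSet.{0} => ({w 0, clF p (w 0)} : ZFSet.{0}) :=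
    hB.upair' (DfnF.proj 0) hF
  have hF3 : DfnF M M fun w : Fin 1 → ZFSet.{0} => ({w 0} : ZFSet.{0}) := hB.single' (DfnF.proj 0)
  have hF4 : DfnF M M fun w : Fin 1 → ZFSet.{0} => pair (w 0) (clF p (w 0)) :=
    hB.pair' (DfnF.proj 0) hF
  set A := im (clF p) ZFSet.omega with hA
  set B := im (fun n => ({n, clF p n} : ZFSet.{0})) ZFSet.omega with hB'
  set C := im (fun n => ({n} : ZFSet.{0})) ZFSet.omega with hC
  have hAM : A ∈ M := hM.im_mem hω hF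
  have hBM : B ∈ M := hM.im_mem hω hF2
  have hCM : C ∈ M := hM.im_mem hω hF3
  have hpi : Inj M p ZFSet.omega := by
    have h1 : p = im (fun n => pair n (clF p n)) ZFSet.omega := clp_gr hp
    have h2 := inj_im hM (h := fun n => pair n (clF p n)) hF4
    rwa [← h1] at h2
  have m1 := hM.union_mem hω hAM
  have m2 := hM.union_mem hBM m1
  have m3 := hM.union_mem hCM m2
  have m4 := hM.union_mem hpM m3
  have m5 := hM.union_mem (hM.single_mem hpM) m4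
  have i1 := inj_union hM hω hAM (inj_omega hM) (inj_im hM hF)
  have i2 := inj_union hM hBM m1 (inj_im hM hF2) i1
  have i3 := inj_union hM hCM m2 (inj_im hM hF3) i2
  have i4 := inj_union hM hpM m3 hpi i3
  have i5 := inj_union hM (hM.single_mem hpM) m4 (inj_single hM hpM) i4
  refine ⟨_, m5, ?_, ZFSet.mem_union.2 (Or.inl (ZFSet.mem_singleton.2 rfl)), i5⟩
  have t1 : ∀ x ∈ ZFSet.omega ∪ A, ∀ y ∈ x, y ∈ ZFSet.omega ∪ A := by
    intro x hx y hy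
    rcases ZFSet.mem_union.1 hx with hx | hx
    · exact ZFSet.mem_union.2 (Or.inl (tra_omega x hx y hy))
    · exact ZFSet.mem_union.2 (Or.inr (tra_clF hr hp x hx y hy))
  have t2 : ∀ x ∈ B ∪ (ZFSet.omega ∪ A), ∀ y ∈ x, y ∈ ZFSet.omega ∪ A := by
    intro x hx y hy
    rcases ZFSet.mem_union.1 hx with hx | hx
    · obtain ⟨n, hn, rfl⟩ := mem_im.1 hx
      rcases ZFSet.mem_pair.1 hy with rfl | rfl
      · exact ZFSet.mem_union.2 (Or.inl hn)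
      · exact ZFSet.mem_union.2 (Or.inr (mem_im.2 ⟨n, hn, rfl⟩))
    · exact t1 x hx y hy
  have t3 : ∀ x ∈ C ∪ (B ∪ (ZFSet.omega ∪ A)), ∀ y ∈ x, y ∈ ZFSet.omega ∪ A := by
    intro x hx y hy
    rcases ZFSet.mem_union.1 hx with hx | hx
    · obtain ⟨n, hn, rfl⟩ := mem_im.1 hx
      rw [ZFSet.mem_singleton.1 hy]
      exact ZFSet.mem_union.2 (Or.inl hn)
    · exact t2 x hx y hy
  intro x hx y hy
  rcases ZFSet.mem_union.1 hx with hx | hx
  · rw [ZFSet.mem_singleton.1 hx] at hy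
    exact ZFSet.mem_union.2 (Or.inr (ZFSet.mem_union.2 (Or.inl hy)))
  refine ZFSet.mem_union.2 (Or.inr (ZFSet.mem_union.2 (Or.inr ?_)))
  rcases ZFSet.mem_union.1 hx with hx | hx
  · obtain ⟨n, z, rfl, hn, -, -⟩ := hp.1 _ hx
    rw [pair, ZFSet.mem_pair] at hy
    rcases hy with rfl | rfl
    · exact ZFSet.mem_union.2 (Or.inl (mem_im.2 ⟨n, hn, rfl⟩))
    · refine ZFSet.mem_union.2 (Or.inr (ZFSet.mem_union.2 (Or.inl (mem_im.2 ⟨n, hn, ?_⟩))))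
      rw [clF_eq hp hx]
  · exact ZFSet.mem_union.2 (Or.inr (ZFSet.mem_union.2 (Or.inr (t3 x hx y hy))))

/-! ### Codes -/

/-- Every set that is hereditarily countable in the model has a code. -/
theorem exists_cod {a : ZFSet.{0}} (ha : HCt M a) : ∃ r ∈ PW M, Cod r a := by
  have hB := hM.base
  have hω := hM.infinity
  have h0 := hM.empty_mem
  obtain ⟨T, hT, htr, haT, f, hf, hfi⟩ := ha
  have haM := hM.trans _ hT _ haT
  have hsc : ∀ a b : ZFSet.{0}, (insert a a : ZFSet.{0}) = insert b b → a = b := by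
    intro a b h
    have h1 : a ∈ (insert b b : ZFSet.{0}) := h ▸ ZFSet.mem_insert _ _
    have h2 : b ∈ (insert a a : ZFSet.{0}) := h ▸ ZFSet.mem_insert _ _
    rcases ZFSet.mem_insert_iff.1 h1 with h1 | h1
    · exact h1
    rcases ZFSet.mem_insert_iff.1 h2 with h2 | h2
    · exact h2.symm
    exact absurd h2 (ZFSet.mem_asymm h1)
  have hins : ∀ a : ZFSet.{0}, (insert a a : ZFSet.{0}) ≠ ∅ := fun a h =>
    ZFSet.notMem_empty a (h ▸ ZFSet.mem_insert _ _)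
  -- an injection that maps `a` to `0`
  have hR : Dfn M M fun w : Fin 2 → ZFSet.{0} => (w 0 = a ∧ w 1 = ∅) ∨
      (¬ w 0 = a ∧ ∃ c ∈ ZFSet.omega, pair (w 0) c ∈ f ∧ w 1 = insert c c) := by
    (repeat' first
      | assumption
      | exact DfnF.proj _
      | exact DfnF.const (by assumption)
      | apply Dfn.not | apply Dfn.and | apply Dfn.or
      | apply hB.bex
      | apply Dfn.eq | apply Dfn.mem | apply hB.pair' | apply hB.insert')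
  obtain ⟨e, he, hei, he2⟩ := inj_of_rel hM hT hω
    (R := fun x n => (x = a ∧ n = ∅) ∨
      (¬ x = a ∧ ∃ c ∈ ZFSet.omega, pair x c ∈ f ∧ n = insert c c)) hR
    (by
      intro x hx
      by_cases h : x = a
      · exact ⟨∅, ZFSet.omega_zero, Or.inl ⟨h, rfl⟩⟩
      · obtain ⟨c, hc, h3⟩ := fun_exists hfi.1 hx
        exact ⟨_, ZFSet.omega_succ hc, Or.inr ⟨h, c, hc, h3, rfl⟩⟩)
    (by
      rintro x - b - b' - (⟨h3, rfl⟩ | ⟨h3, c, -, h4, rfl⟩) (⟨h5, rfl⟩ | ⟨h5, d, -, h6, rfl⟩)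
      · rfl
      · exact absurd h3 h5
      · exact absurd h5 h3
      · rw [fun_unique hfi.1 h4 h6])
    (by
      rintro x - x' - b - (⟨h3, rfl⟩ | ⟨h3, c, -, h4, rfl⟩) (⟨h5, h7⟩ | ⟨h5, d, -, h6, h7⟩)
      · rw [h3, h5]
      · exact absurd h7.symm (hins _)
      · exact absurd h7 (hins _)
      · rw [hsc _ _ h7] at h4
        exact hfi.2 _ _ _ h4 h6)
  -- the code
  have hR2 : Dfn M M fun w : Fin 2 → ZFSet.{0} => ∃ x ∈ T, ∃ y ∈ T, x ∈ y ∧ pair x (w 0) ∈ e ∧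
      pair y (w 1) ∈ e := by
    (repeat' first
      | assumption
      | exact DfnF.proj _
      | exact DfnF.const (by assumption)
      | apply Dfn.not | apply Dfn.and | apply Dfn.or
      | apply hB.bex
      | apply Dfn.eq | apply Dfn.mem | apply hB.pair')
  obtain ⟨r, hr, hr1, hr2⟩ := hM.rel_mem hω hω
    (Q := fun m n => ∃ x ∈ T, ∃ y ∈ T, x ∈ y ∧ pair x m ∈ e ∧ pair y n ∈ e) hR2
  refine ⟨r, mem_PW.2 ⟨hr, hr1⟩, ZFSet.sep (fun q => ∃ n x, q = pair n x ∧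
    ((x ∈ T ∧ pair x n ∈ e) ∨ (x = ∅ ∧ ¬ ∃ y ∈ T, pair y n ∈ e)))
    (ZFSet.prod ZFSet.omega (insert ∅ T)), ?_, ?_⟩
  · have hmem : ∀ n x, pair n x ∈ ZFSet.sep (fun q => ∃ n x, q = pair n x ∧
        ((x ∈ T ∧ pair x n ∈ e) ∨ (x = ∅ ∧ ¬ ∃ y ∈ T, pair y n ∈ e)))
        (ZFSet.prod ZFSet.omega (insert ∅ T)) ↔ n ∈ ZFSet.omega ∧
        ((x ∈ T ∧ pair x n ∈ e) ∨ (x = ∅ ∧ ¬ ∃ y ∈ T, pair y n ∈ e)) := by
      intro n x
      rw [ZFSet.mem_sep, ZFSet.pair_mem_prod]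
      constructor
      · rintro ⟨⟨h1, -⟩, n', x', h2, h3⟩
        obtain ⟨rfl, rfl⟩ := ZFSet.pair_inj.1 h2
        exact ⟨h1, h3⟩
      · rintro ⟨h1, h2⟩
        refine ⟨⟨h1, ?_⟩, n, x, rfl, h2⟩
        rcases h2 with h2 | h2
        · exact ZFSet.mem_insert_iff.2 (Or.inr h2.1)
        · exact ZFSet.mem_insert_iff.2 (Or.inl h2.1)
    refine ⟨fun q hq => ?_, fun n hn => ?_⟩
    · obtain ⟨-, n, x, rfl, -⟩ := ZFSet.mem_sep.1 hq
      obtain ⟨hn, hx⟩ := (hmem n x).1 hq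
      refine ⟨n, x, rfl, hn, ?_, ?_⟩
      · intro y hy
        rcases hx with ⟨hxT, hxe⟩ | ⟨rfl, -⟩
        · have hyT := htr x hxT y hy
          obtain ⟨m, hm, h3⟩ := fun_exists hei.1 hyT
          exact ⟨m, hm, (hr2 m n).2 ⟨hm, hn, y, hyT, x, hxT, hy, h3, hxe⟩,
            (hmem m y).2 ⟨hm, Or.inl ⟨hyT, h3⟩⟩⟩
        · exact absurd hy (ZFSet.notMem_empty _)
      · intro m hm hmn
        obtain ⟨-, -, x', hx', y', hy', h3, h4, h5⟩ := (hr2 m n).1 hmn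
        rcases hx with ⟨hxT, hxe⟩ | ⟨rfl, hno⟩
        · have h6 : y' = x := hei.2 _ _ _ h5 hxe
          rw [h6] at h3
          exact ⟨x', h3, (hmem m x').2 ⟨hm, Or.inl ⟨hx', h4⟩⟩⟩
        · exact absurd ⟨y', hy', h5⟩ hno
    · by_cases h : ∃ y ∈ T, pair y n ∈ e
      · obtain ⟨y, hy, h1⟩ := h
        exact ⟨y, (hmem n y).2 ⟨hn, Or.inl ⟨hy, h1⟩⟩⟩
      · exact ⟨∅, (hmem n ∅).2 ⟨hn, Or.inr ⟨rfl, h⟩⟩⟩
  · refine ZFSet.mem_sep.2 ⟨ZFSet.pair_mem_prod.2 ⟨ZFSet.omega_zero,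
      ZFSet.mem_insert_iff.2 (Or.inr haT)⟩, ∅, a, rfl, Or.inl ⟨haT, ?_⟩⟩
    exact (he2 _ _).2 ⟨haT, ZFSet.omega_zero, Or.inl ⟨rfl, rfl⟩⟩

/-- A set is hereditarily countable in the model if and only if it has a code in the model. -/
theorem hct_iff {a : ZFSet.{0}} : HCt M a ↔ ∃ r ∈ PW M, Cod r a :=
  ⟨exists_cod hM, fun ⟨_, hr, h⟩ => hct_of_cod hM (mem_PW.1 hr).1 (mem_PW.1 hr).2 h⟩

omit hM in
theorem hct_mem (hM : ∀ x ∈ M, ∀ y ∈ x, y ∈ M) {a : ZFSet.{0}} (h : HCt M a) : a ∈ M := by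
  obtain ⟨T, hT, -, h1, -⟩ := h
  exact hM _ hT _ h1

end

/-! ### Definability -/

/-- `Clp` with the set `ω` as a parameter. -/
def ClpW (o r p : ZFSet.{0}) : Prop :=
  (∀ q ∈ p, ∃ n x, q = pair n x ∧ n ∈ o ∧
    (∀ y ∈ x, ∃ m ∈ o, pair m n ∈ r ∧ pair m y ∈ p) ∧
    ∀ m ∈ o, pair m n ∈ r → ∃ y ∈ x, pair m y ∈ p) ∧
  ∀ n ∈ o, ∃ x, pair n x ∈ p

theorem clpW_iff {r p : ZFSet.{0}} : ClpW ZFSet.omega r p ↔ Clp r p := Iff.rfl

theorem d0_ClpW : D0 fun v : Fin 3 → ZFSet.{0} => ClpW (v 0) (v 1) (v 2) := by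
  have h1 : D0 fun v : Fin 3 → ZFSet.{0} => (∀ q ∈ v 2, ∃ n x, q = pair n x ∧ n ∈ v 0 ∧
      (∀ y ∈ x, ∃ m ∈ v 0, pair m n ∈ v 1 ∧ pair m y ∈ v 2) ∧
      ∀ m ∈ v 0, pair m n ∈ v 1 → ∃ y ∈ x, pair m y ∈ v 2) ∧
      ∀ n ∈ v 0, ∃ q ∈ v 2, ∃ m x, q = pair m x ∧ m = n := by
    (repeat' first
      | assumption
      | exact D0v.proj _
      | apply D0.pairMem
      | apply D0.expair
      | apply D0.not | apply D0.and | apply D0.or | apply D0.imp | apply D0.iff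
      | apply D0.bex | apply D0.ball
      | apply D0.eq | apply D0.mem)
  refine h1.congr fun v => and_congr Iff.rfl ?_
  constructor
  · intro h n hn
    obtain ⟨q, hq, m, x, rfl, rfl⟩ := h n hn
    exact ⟨x, hq⟩
  · intro h n hn
    obtain ⟨x, hx⟩ := h n hn
    exact ⟨_, hx, n, x, rfl, rfl⟩

section

variable {M : Set ZFSet.{0}} (hM : IsZF M)

include hM

theorem dfn_Clp : Dfn M M fun w : Fin 2 → ZFSet.{0} => Clp (w 0) (w 1) := by
  have h := (d0_ClpW.dfn (S := M) hM.trans).specN (m := 2)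
    (Fin.cons (Sum.inr ZFSet.omega) fun i => Sum.inl i) (fun i => by
      refine Fin.cases ?_ (fun i => ?_) i
      · exact tOver_inr.2 hM.infinity
      · exact TOver.inl _)
  exact h

theorem clpD {n : ℕ} {F G : (Fin n → ZFSet.{0}) → ZFSet.{0}} (hF : DfnF M M F)
    (hG : DfnF M M G) : Dfn M M fun v => Clp (F v) (G v) :=
  Dfn.comp2 (Q := Clp) (dfn_Clp hM) hF hG

/-- The relation `Cod`, restricted to codes in the model. -/
theorem dfn_Cod : Dfn M M fun w : Fin 2 → ZFSet.{0} => w 0 ⊆ oo ∧ Cod (w 0) (w 1) := by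
  have hB := hM.base
  have h0 := hM.empty_mem
  have hoo := oo_mem hM
  have h1 : Dfn M M fun w : Fin 2 → ZFSet.{0} => w 0 ⊆ oo ∧ ∃ p ∈ M, Clp (w 0) p ∧
      pair ∅ (w 1) ∈ p := by
    apply Dfn.and (hB.subset' (DfnF.proj _) (DfnF.const hoo))
    apply Dfn.ex (Q := fun p w => Clp (w 0) p ∧ pair ∅ (w 1) ∈ p)
    apply Dfn.and
    · exact clpD hM (DfnF.proj 1) (DfnF.proj 0)
    · exact Dfn.mem (hB.pair' (DfnF.const h0) (DfnF.proj 2)) (DfnF.proj 0)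
  refine h1.congr fun v hv => ?_
  constructor
  · rintro ⟨h2, p, -, h3, h4⟩
    exact ⟨h2, p, h3, h4⟩
  · rintro ⟨h2, p, h3, h4⟩
    exact ⟨h2, p, clp_mem hM (hv 0) h2 h3, h3, h4⟩

open Classical in
/-- The set with the code `r`. -/
noncomputable def dec (r : ZFSet.{0}) : ZFSet.{0} :=
  if h : r ⊆ oo ∧ ∃ a, Cod r a then h.2.choose else ∅

theorem dfn_dec : DfnF M M fun w : Fin 1 → ZFSet.{0} => dec (w 0) := by
  have hB := hM.base
  have h0 := hM.empty_mem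
  have hoo := oo_mem hM
  refine DfnF.of_unique (R := fun y v => ((v 0) ⊆ oo ∧ Cod (v 0) y) ∨
    (y = ∅ ∧ ¬ ∃ a ∈ M, ((v 0) ⊆ oo ∧ Cod (v 0) a))) ?_ ?_
  · apply Dfn.or
    · exact Dfn.comp2 (Q := fun r a => r ⊆ oo ∧ Cod r a) (dfn_Cod hM) (DfnF.proj 1) (DfnF.proj 0)
    · apply Dfn.and (Dfn.eq (DfnF.proj 0) (DfnF.const h0))
      apply Dfn.not
      apply Dfn.ex
      exact Dfn.comp2 (Q := fun r a => r ⊆ oo ∧ Cod r a) (dfn_Cod hM) (DfnF.proj 2) (DfnF.proj 0)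
  · intro v hv
    by_cases h : (v 0) ⊆ oo ∧ ∃ a, Cod (v 0) a
    · have h1 : Cod (v 0) (dec (v 0)) := by
        rw [dec, dif_pos h]
        exact h.2.choose_spec
      have h2 : dec (v 0) ∈ M := hct_mem hM.trans (hct_of_cod hM (hv 0) h.1 h1)
      refine ⟨h2, fun y _ => ?_⟩
      constructor
      · rintro (h3 | ⟨-, h3⟩)
        · exact cod_uniq h3.2 h1
        · exact absurd ⟨_, h2, h.1, h1⟩ h3
      · rintro rfl
        exact Or.inl ⟨h.1, h1⟩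
    · rw [dec, dif_neg h]
      refine ⟨h0, fun y _ => ?_⟩
      constructor
      · rintro (h3 | ⟨h3, -⟩)
        · exact absurd ⟨h3.1, y, h3.2⟩ h
        · exact h3
      · rintro rfl
        exact Or.inr ⟨rfl, fun ⟨a, _, h3, h4⟩ => h ⟨h3, a, h4⟩⟩

omit hM in
theorem dec_eq {r a : ZFSet.{0}} (hr : r ⊆ oo) (h : Cod r a) : dec r = a := by
  have h1 : r ⊆ oo ∧ ∃ a, Cod r a := ⟨hr, a, h⟩
  rw [dec, dif_pos h1]
  exact cod_uniq h1.2.choose_spec h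

/-- The hereditarily countable sets of the model form a set of the model. -/
theorem hct_set : ∃ h ∈ M, ∀ z, z ∈ h ↔ HCt M z := by
  have hB := hM.base
  have hd : Dfn M M fun w : Fin 1 → ZFSet.{0} => ∃ a ∈ M, w 0 ⊆ oo ∧ Cod (w 0) a := by
    apply Dfn.ex (Q := fun a w => w 0 ⊆ oo ∧ Cod (w 0) a)
    exact Dfn.comp2 (Q := fun r a => r ⊆ oo ∧ Cod r a) (dfn_Cod hM) (DfnF.proj 1) (DfnF.proj 0)
  have h1 := hM.sep_mem (Q := fun r => ∃ a ∈ M, r ⊆ oo ∧ Cod r a) hd (PW_mem hM)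
  refine ⟨_, hM.im_mem h1 (dfn_dec hM), fun z => ?_⟩
  rw [mem_im, hct_iff hM]
  constructor
  · rintro ⟨r, hr, rfl⟩
    obtain ⟨hr, a, -, h2, h3⟩ := ZFSet.mem_sep.1 hr
    exact ⟨r, hr, by rwa [dec_eq h2 h3]⟩
  · rintro ⟨r, hr, h2⟩
    have h3 := (mem_PW.1 hr).2
    refine ⟨r, ZFSet.mem_sep.2 ⟨hr, z, ?_, h3, h2⟩, (dec_eq h3 h2).symm⟩
    exact hct_mem hM.trans (hct_of_cod hM (mem_PW.1 hr).1 h3 h2)

theorem dfn_HCt : Dfn M M fun w : Fin 1 → ZFSet.{0} => HCt M (w 0) := by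
  obtain ⟨h, hh, h1⟩ := hct_set hM
  exact (Dfn.mem (DfnF.proj 0) (DfnF.const hh)).congr fun v _ => h1 _

theorem hctD {n : ℕ} {F : (Fin n → ZFSet.{0}) → ZFSet.{0}} (hF : DfnF M M F) :
    Dfn M M fun v => HCt M (F v) := Dfn.comp1 (Q := HCt M) (dfn_HCt hM) hF

end

theorem hC : S_HC := by
  intro M hM
  refine ⟨hct_set hM, fun a ha => exists_cod hM ha, fun r hr hr2 p hp => hct_of_clp hM hr hr2 hp,
    fun r hr hr2 a ha => hct_of_cod hM hr hr2 ha, fun r a a' h h' => cod_uniq h h'⟩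

end Pool.Agent.H637_NO
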