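import Pool.Agent.H637_NO.Stm
import Pool.Agent.R597.Wo

/-!
# New orbits: closure properties of the class of the hereditarily countable sets

Main statement: `hC2 : S_HC2`. Also exported: `HCt.of_sub`, `HCt.two`, `HCt.mem_M`, `HCt.inj`,
`HCt.elem`, `HCt.upair`, `HCt.pair`, `HCt.insert`, `HCt.union`, `HCt.sub`, `hCt_omega`, `hCt_oo`,
`tra_T0b`, `T0b_mem`, `inj_T0b`, `hCt_T0b`, `tra_SB`, `HCt.SB`, `HCt.ln`, `HCt.rg`, `HCt.SB_rg`.
-/

set_option autoImplicit false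
set_option linter.unreachableTactic false
set_option linter.unusedTactic false

namespace Pool.Agent.H637_NO

open Pool.Agent.W868 Pool.Agent.W868.GM Pool.Agent.R597
open ZFSet (pair)

/-! ### Countable sets in a model of ZF -/

section ctb

variable {M : Set ZFSet.{0}} (hM : IsZF M)

include hM

theorem inj_omega_sq : Inj M (ZFSet.prod ZFSet.omega ZFSet.omega) ZFSet.omega :=
  sq_inj hM hM.infinity (omega_eq ▸ ZFSet.isOrdinal_toZFSet _) fun _ h => h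

theorem inj_omega_union {x y : ZFSet.{0}} (hx : x ∈ M) (hy : y ∈ M)
    (h1 : Inj M x ZFSet.omega) (h2 : Inj M y ZFSet.omega) : Inj M (x ∪ y) ZFSet.omega := by
  have hB := hM.base
  obtain ⟨f, hf, h1⟩ := h1
  obtain ⟨g, hg, h2⟩ := h2
  have hω := hM.infinity
  have hn0 := hM.nat_mem 0
  have hn1 := hM.nat_mem 1
  have hne : nat 0 ≠ nat 1 := fun h => absurd (nat_injective h) (by omega)
  have hR : Dfn M M fun w : Fin 2 → ZFSet.{0} =>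
      (w 0 ∈ x ∧ ∃ b ∈ ZFSet.omega, pair (w 0) b ∈ f ∧ w 1 = pair (nat 0) b) ∨
      (¬ w 0 ∈ x ∧ ∃ b ∈ ZFSet.omega, pair (w 0) b ∈ g ∧ w 1 = pair (nat 1) b) := by
    (repeat' first
      | assumption
      | exact DfnF.proj _
      | exact DfnF.const (by assumption)
      | exact Dfn.prop _
      | apply Dfn.not | apply Dfn.and | apply Dfn.or | apply Dfn.imp | apply Dfn.iff
      | apply hB.bex | apply hB.ball | apply Dfn.ex | apply Dfn.all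
      | apply Dfn.eq | apply Dfn.mem | apply hB.pair')
  refine Inj.trans hM (hM.union_mem hx hy) hω (Inj.of_rel hM (hM.union_mem hx hy)
    (hM.prod_mem hω hω) (R := fun a p =>
      (a ∈ x ∧ ∃ b ∈ ZFSet.omega, pair a b ∈ f ∧ p = pair (nat 0) b) ∨
      (¬ a ∈ x ∧ ∃ b ∈ ZFSet.omega, pair a b ∈ g ∧ p = pair (nat 1) b)) hR ?_ ?_ ?_)
    (inj_omega_sq hM)
  · intro a ha
    by_cases hax : a ∈ x
    · obtain ⟨b, hb, h3⟩ := fun_exists h1.1 hax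
      exact ⟨_, ZFSet.pair_mem_prod.2 ⟨nat_mem_omega 0, hb⟩, Or.inl ⟨hax, b, hb, h3, rfl⟩⟩
    · have hay : a ∈ y := (ZFSet.mem_union.1 ha).resolve_left hax
      obtain ⟨b, hb, h3⟩ := fun_exists h2.1 hay
      exact ⟨_, ZFSet.pair_mem_prod.2 ⟨nat_mem_omega 1, hb⟩, Or.inr ⟨hax, b, hb, h3, rfl⟩⟩
  · rintro a - p - p' - (⟨h3, b, -, h4, rfl⟩ | ⟨h3, b, -, h4, rfl⟩)
      (⟨h5, b', -, h6, rfl⟩ | ⟨h5, b', -, h6, rfl⟩)
    · rw [fun_unique h1.1 h4 h6]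
    · exact absurd h3 h5
    · exact absurd h5 h3
    · rw [fun_unique h2.1 h4 h6]
  · rintro a - a' - p - (⟨h3, b, -, h4, rfl⟩ | ⟨h3, b, -, h4, rfl⟩)
      (⟨h5, b', -, h6, h7⟩ | ⟨h5, b', -, h6, h7⟩)
    · obtain ⟨-, rfl⟩ := ZFSet.pair_inj.1 h7
      exact h1.2 _ _ _ h4 h6
    · exact absurd (ZFSet.pair_inj.1 h7).1 hne
    · exact absurd (ZFSet.pair_inj.1 h7).1.symm hne
    · obtain ⟨-, rfl⟩ := ZFSet.pair_inj.1 h7
      exact h2.2 _ _ _ h4 h6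

theorem inj_omega_single {x : ZFSet.{0}} (hx : x ∈ M) : Inj M {x} ZFSet.omega := by
  have h := upair_countable hM hx hx
  rw [ZFSet.pair_eq_singleton] at h
  exact h

theorem inj_omega_insert {x y : ZFSet.{0}} (hx : x ∈ M) (hy : y ∈ M)
    (h2 : Inj M y ZFSet.omega) : Inj M (insert x y) ZFSet.omega := by
  have h := inj_omega_union hM (hM.single_mem hx) hy (inj_omega_single hM hx) h2
  have h1 : ({x} ∪ y : ZFSet.{0}) = insert x y := by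
    ext z
    simp
  rwa [h1] at h

theorem inj_omega_sub {x y : ZFSet.{0}} (hx : x ∈ M) (hy : y ∈ M) (h : x ⊆ y)
    (h2 : Inj M y ZFSet.omega) : Inj M x ZFSet.omega :=
  Inj.trans hM hx hM.infinity (Inj.of_subset hM hx hy h) h2

/-! ### Hereditarily countable sets -/

theorem HCt.of_sub {T b : ZFSet.{0}} (hT : T ∈ M) (h1 : Tra T) (h2 : Inj M T ZFSet.omega)
    (hb : b ∈ M) (h3 : b ⊆ T) : HCt M b := by
  refine ⟨insert b T, hM.insert_mem hb hT, ?_, ZFSet.mem_insert _ _,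
    inj_omega_insert hM hb hT h2⟩
  intro x hx y hy
  rcases ZFSet.mem_insert_iff.1 hx with rfl | hx
  · exact ZFSet.mem_insert_iff.2 (Or.inr (h3 hy))
  · exact ZFSet.mem_insert_iff.2 (Or.inr (h1 x hx y hy))

theorem HCt.two {a b : ZFSet.{0}} (ha : HCt M a) (hb : HCt M b) :
    ∃ T ∈ M, Tra T ∧ a ∈ T ∧ b ∈ T ∧ Inj M T ZFSet.omega := by
  obtain ⟨T, hT, h1, h2, h3⟩ := ha
  obtain ⟨S, hS, k1, k2, k3⟩ := hb
  refine ⟨T ∪ S, hM.union_mem hT hS, ?_, ZFSet.mem_union.2 (Or.inl h2),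
    ZFSet.mem_union.2 (Or.inr k2), inj_omega_union hM hT hS h3 k3⟩
  intro x hx y hy
  rcases ZFSet.mem_union.1 hx with hx | hx
  · exact ZFSet.mem_union.2 (Or.inl (h1 x hx y hy))
  · exact ZFSet.mem_union.2 (Or.inr (k1 x hx y hy))

theorem HCt.mem_M {a : ZFSet.{0}} (ha : HCt M a) : a ∈ M := by
  obtain ⟨T, hT, h1, h2, h3⟩ := ha
  exact hM.trans _ hT _ h2

theorem HCt.inj {a : ZFSet.{0}} (ha : HCt M a) : Inj M a ZFSet.omega := by
  obtain ⟨T, hT, h1, h2, h3⟩ := ha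
  exact inj_omega_sub hM (hM.trans _ hT _ h2) hT (fun y hy => h1 _ h2 y hy) h3

omit hM in
theorem HCt.elem {a x : ZFSet.{0}} (ha : HCt M a) (hx : x ∈ a) : HCt M x := by
  obtain ⟨T, hT, h1, h2, h3⟩ := ha
  exact ⟨T, hT, h1, h1 _ h2 x hx, h3⟩

theorem HCt.upair {a b : ZFSet.{0}} (ha : HCt M a) (hb : HCt M b) : HCt M {a, b} := by
  obtain ⟨T, hT, h1, h2, h3, h4⟩ := HCt.two hM ha hb
  refine HCt.of_sub hM hT h1 h4 (hM.pairing _ (hM.trans _ hT _ h2) _ (hM.trans _ hT _ h3)) ?_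
  intro z hz
  rcases ZFSet.mem_pair.1 hz with rfl | rfl
  · exact h2
  · exact h3

theorem HCt.single {a : ZFSet.{0}} (ha : HCt M a) : HCt M {a} := by
  have h := HCt.upair hM ha ha
  rwa [ZFSet.pair_eq_singleton] at h

theorem HCt.pair {a b : ZFSet.{0}} (ha : HCt M a) (hb : HCt M b) : HCt M (ZFSet.pair a b) :=
  HCt.upair hM (HCt.single hM ha) (HCt.upair hM ha hb)

theorem HCt.insert {a b : ZFSet.{0}} (ha : HCt M a) (hb : HCt M b) :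
    HCt M (Insert.insert a b) := by
  obtain ⟨T, hT, h1, h2, h3, h4⟩ := HCt.two hM ha hb
  refine HCt.of_sub hM hT h1 h4 (hM.insert_mem (hM.trans _ hT _ h2) (hM.trans _ hT _ h3)) ?_
  intro z hz
  rcases ZFSet.mem_insert_iff.1 hz with rfl | hz
  · exact h2
  · exact h1 _ h3 z hz

theorem HCt.sc {a : ZFSet.{0}} (ha : HCt M a) : HCt M (sc a) := HCt.insert hM ha ha

theorem HCt.union {a b : ZFSet.{0}} (ha : HCt M a) (hb : HCt M b) : HCt M (a ∪ b) := by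
  obtain ⟨T, hT, h1, h2, h3, h4⟩ := HCt.two hM ha hb
  refine HCt.of_sub hM hT h1 h4 (hM.union_mem (hM.trans _ hT _ h2) (hM.trans _ hT _ h3)) ?_
  intro z hz
  rcases ZFSet.mem_union.1 hz with hz | hz
  · exact h1 _ h2 z hz
  · exact h1 _ h3 z hz

theorem HCt.sub {a b : ZFSet.{0}} (ha : HCt M a) (hb : b ∈ M) (h : b ⊆ a) : HCt M b := by
  obtain ⟨T, hT, h1, h2, h3⟩ := ha
  exact HCt.of_sub hM hT h1 h3 hb fun z hz => h1 _ h2 z (h hz)

theorem hCt_empty : HCt M ∅ :=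
  HCt.of_sub hM hM.empty_mem (fun x hx => absurd hx (ZFSet.notMem_empty x))
    (inj_omega_sub hM hM.empty_mem hM.infinity (fun z hz => absurd hz (ZFSet.notMem_empty z))
      (Inj.of_subset hM hM.infinity hM.infinity fun _ h => h))
    hM.empty_mem fun _ hz => hz

omit hM in
theorem tra_omega : Tra ZFSet.omega := by
  intro x hx y hy
  have h : ZFSet.omega.IsOrdinal := omega_eq ▸ ZFSet.isOrdinal_toZFSet _
  exact h.mem_trans hy hx

theorem hCt_omega : HCt M ZFSet.omega :=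
  HCt.of_sub hM hM.infinity tra_omega (Inj.of_subset hM hM.infinity hM.infinity fun _ h => h)
    hM.infinity fun _ h => h

theorem hc2_oo_mem : oo ∈ M := hM.prod_mem hM.infinity hM.infinity

theorem dfn_fssn : DfnF M M fun w : Fin 1 → ZFSet.{0} => ({fs (w 0), sn (w 0)} : ZFSet.{0}) :=
  hM.base.upair' (hM.fs' (DfnF.proj 0)) (hM.sn' (DfnF.proj 0))

theorem T0b_mem : T0b ∈ M :=
  hM.union_mem hM.infinity (hM.union_mem (hM.im_mem (hc2_oo_mem hM) (dfn_fssn hM)) (hc2_oo_mem hM))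

omit hM in
theorem oo_sub_T0b : oo ⊆ T0b := fun _ h =>
  ZFSet.mem_union.2 (Or.inr (ZFSet.mem_union.2 (Or.inr h)))

omit hM in
theorem upair_mem_T0b {m n : ZFSet.{0}} (hm : m ∈ ZFSet.omega) (hn : n ∈ ZFSet.omega) :
    ({m, n} : ZFSet.{0}) ∈ T0b := by
  refine ZFSet.mem_union.2 (Or.inr (ZFSet.mem_union.2 (Or.inl (mem_im.2
    ⟨ZFSet.pair m n, ZFSet.pair_mem_prod.2 ⟨hm, hn⟩, ?_⟩))))
  rw [fs_pair, sn_pair]

omit hM in
theorem tra_T0b : Tra T0b := by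
  intro x hx y hy
  rcases ZFSet.mem_union.1 hx with hx | hx
  · exact ZFSet.mem_union.2 (Or.inl (tra_omega x hx y hy))
  rcases ZFSet.mem_union.1 hx with hx | hx
  · obtain ⟨p, hp, rfl⟩ := mem_im.1 hx
    obtain ⟨m, hm, n, hn, rfl⟩ := ZFSet.mem_prod.1 hp
    rw [fs_pair, sn_pair] at hy
    rcases ZFSet.mem_pair.1 hy with rfl | rfl
    · exact ZFSet.mem_union.2 (Or.inl hm)
    · exact ZFSet.mem_union.2 (Or.inl hn)
  · obtain ⟨m, hm, n, hn, rfl⟩ := ZFSet.mem_prod.1 hx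
    rw [ZFSet.pair, ZFSet.mem_pair] at hy
    rcases hy with rfl | rfl
    · have h := upair_mem_T0b hm hm
      rwa [ZFSet.pair_eq_singleton] at h
    · exact upair_mem_T0b hm hn

theorem inj_T0b : Inj M T0b ZFSet.omega := by
  have hω := hM.infinity
  have ho := hc2_oo_mem hM
  have hωo : ZFSet.omega.IsOrdinal := omega_eq ▸ ZFSet.isOrdinal_toZFSet _
  have h1 : Inj M (im (fun p => ({fs p, sn p} : ZFSet.{0})) oo) ZFSet.omega :=
    Inj.image hM ho hω hωo (inj_omega_sq hM) (dfn_fssn hM)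
  exact inj_omega_union hM hω (hM.union_mem (hM.im_mem ho (dfn_fssn hM)) ho)
    (Inj.of_subset hM hω hω fun _ h => h)
    (inj_omega_union hM (hM.im_mem ho (dfn_fssn hM)) ho h1 (inj_omega_sq hM))

theorem hCt_T0b : HCt M T0b :=
  HCt.of_sub hM (T0b_mem hM) tra_T0b (inj_T0b hM) (T0b_mem hM) fun _ h => h

theorem hCt_oo : HCt M oo :=
  HCt.of_sub hM (T0b_mem hM) tra_T0b (inj_T0b hM) (hc2_oo_mem hM) oo_sub_T0b

omit hM in
theorem tra_SB {H : ZFSet.{0}} (hH : ∀ h ∈ H, h ⊆ oo) : Tra (SB H) := by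
  intro x hx y hy
  rcases ZFSet.mem_union.1 hx with hx | hx
  · exact ZFSet.mem_union.2 (Or.inl (tra_T0b x hx y hy))
  rcases ZFSet.mem_insert_iff.1 hx with rfl | hx
  · exact ZFSet.mem_union.2 (Or.inr (ZFSet.mem_insert_iff.2 (Or.inr hy)))
  · exact ZFSet.mem_union.2 (Or.inl (oo_sub_T0b (hH x hx hy)))

theorem SB_mem {H : ZFSet.{0}} (hH : H ∈ M) : SB H ∈ M :=
  hM.union_mem (T0b_mem hM) (hM.insert_mem hH hH)

theorem HCt.SB {H : ZFSet.{0}} (hH : HCt M H) : HCt M (SB H) :=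
  HCt.union hM (hCt_T0b hM) (HCt.insert hM hH hH)

/-! ### Sequences -/

/-- The components of the elements of a hereditarily countable set. -/
theorem HCt.pair_of {c : ZFSet.{0}} (hc : HCt M c) : ∃ T ∈ M, Tra T ∧ c ∈ T ∧
    Inj M T ZFSet.omega ∧ ∀ a b, ZFSet.pair a b ∈ c → a ∈ T ∧ b ∈ T := by
  obtain ⟨T, hT, h1, h2, h3⟩ := hc
  refine ⟨T, hT, h1, h2, h3, fun a b hab => ?_⟩
  have h4 : ZFSet.pair a b ∈ T := h1 _ h2 _ hab
  have h5 : ({a, b} : ZFSet.{0}) ∈ T := h1 _ h4 _ (by simp [ZFSet.pair])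
  exact ⟨h1 _ h5 _ (by simp), h1 _ h5 _ (by simp)⟩

theorem rs_mem {c ξ : ZFSet.{0}} (hc : c ∈ M) (hξ : ξ ∈ M) : rs c ξ ∈ M :=
  hM.sep_mem (Q := fun p => fs p ∈ ξ) (Dfn.mem (hM.fs' (DfnF.proj 0)) (DfnF.const hξ)) hc

theorem rg_mem {c ξ : ZFSet.{0}} (hc : c ∈ M) (hξ : ξ ∈ M) : rg c ξ ∈ M :=
  hM.im_mem (rs_mem hM hc hξ) (hM.sn' (DfnF.proj 0))

theorem ln_mem {c : ZFSet.{0}} (hc : c ∈ M) : ln c ∈ M :=
  hM.im_mem hc (hM.fs' (DfnF.proj 0))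

/-- The values of a hereditarily countable function. -/
theorem HCt.rg {c ξ x y : ZFSet.{0}} (hc : HCt M c) (hf : ZFSet.IsFunc x y c) (hξ : ξ ∈ M) :
    HCt M (rg c ξ) := by
  obtain ⟨T, hT, h1, h2, h3, h4⟩ := HCt.pair_of hM hc
  refine HCt.of_sub hM hT h1 h3 (rg_mem hM (hM.trans _ hT _ h2) hξ) ?_
  intro z hz
  obtain ⟨p, hp, rfl⟩ := mem_im.1 hz
  obtain ⟨a, -, b, -, rfl⟩ := ZFSet.mem_prod.1 (hf.1 (ZFSet.mem_sep.1 hp).1)
  rw [sn_pair]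
  exact (h4 a b (ZFSet.mem_sep.1 hp).1).2

/-- The domain of a hereditarily countable function. -/
theorem HCt.ln {c x y : ZFSet.{0}} (hc : HCt M c) (hf : ZFSet.IsFunc x y c) :
    HCt M (ln c) := by
  obtain ⟨T, hT, h1, h2, h3, h4⟩ := HCt.pair_of hM hc
  refine HCt.of_sub hM hT h1 h3 (ln_mem hM (hM.trans _ hT _ h2)) ?_
  intro z hz
  obtain ⟨p, hp, rfl⟩ := mem_im.1 hz
  obtain ⟨a, -, b, -, rfl⟩ := ZFSet.mem_prod.1 (hf.1 hp)
  rw [fs_pair]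
  exact (h4 a b hp).1

theorem HCt.rs {c ξ : ZFSet.{0}} (hc : HCt M c) (hξ : ξ ∈ M) : HCt M (rs c ξ) :=
  HCt.sub hM hc (rs_mem hM (HCt.mem_M hM hc) hξ) fun _ h => (ZFSet.mem_sep.1 h).1

omit hM in
theorem mem_rg_iff {c ξ x y z : ZFSet.{0}} (hf : ZFSet.IsFunc x y c) :
    z ∈ H637_NO.rg c ξ ↔ ∃ j ∈ ξ, ZFSet.pair j z ∈ c := by
  constructor
  · intro hz
    obtain ⟨p, hp, rfl⟩ := mem_im.1 hz
    obtain ⟨h1, h2⟩ := ZFSet.mem_sep.1 hp
    obtain ⟨a, -, b, -, rfl⟩ := ZFSet.mem_prod.1 (hf.1 h1)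
    rw [fs_pair] at h2
    rw [sn_pair]
    exact ⟨a, h2, h1⟩
  · rintro ⟨j, hj, h1⟩
    exact mem_im.2 ⟨ZFSet.pair j z, ZFSet.mem_sep.2 ⟨h1, by rwa [fs_pair]⟩, (sn_pair _ _).symm⟩

omit hM in
theorem ln_eq {c x y : ZFSet.{0}} (hf : ZFSet.IsFunc x y c) : H637_NO.ln c = x := by
  ext z
  constructor
  · intro hz
    obtain ⟨p, hp, rfl⟩ := mem_im.1 hz
    obtain ⟨a, ha, b, -, rfl⟩ := ZFSet.mem_prod.1 (hf.1 hp)
    rwa [fs_pair]
  · intro hz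
    obtain ⟨b, -, h1⟩ := fun_exists hf hz
    exact mem_im.2 ⟨_, h1, (fs_pair _ _).symm⟩

omit hM in
/-- Values of a sequence of reals are reals. -/
theorem rg_sub_oo {c ξ x : ZFSet.{0}} (hf : ZFSet.IsFunc x (PW M) c) :
    ∀ h ∈ H637_NO.rg c ξ, h ⊆ oo := by
  intro h hh
  obtain ⟨j, -, h1⟩ := (mem_rg_iff hf).1 hh
  have h2 := (ZFSet.pair_mem_prod.1 (hf.1 h1)).2
  exact ZFSet.mem_powerset.1 (ZFSet.mem_sep.1 h2).1

/-- The base set of a hereditarily countable sequence of reals. -/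
theorem HCt.SB_rg {c ξ x y : ZFSet.{0}} (hc : HCt M c) (hf : ZFSet.IsFunc x y c) (hξ : ξ ∈ M) :
    HCt M (H637_NO.SB (H637_NO.rg c ξ)) := HCt.SB hM (HCt.rg hM hc hf hξ)

end ctb

/-! ### Countable sets of hereditarily countable sets -/

theorem HCt.of_ctb {M : Set ZFSet.{0}} (hM : IsZFC M) {x : ZFSet.{0}} (hx : x ∈ M)
    (hy : ∀ y ∈ x, HCt M y) (hi : Inj M x ZFSet.omega) : HCt M x := by
  have hZ := hM.toIsZF
  have hB := hZ.base
  have hω := hZ.infinity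
  have hωo : ZFSet.omega.IsOrdinal := omega_eq ▸ ZFSet.isOrdinal_toZFSet _
  -- the choice of the witnesses
  set Q : ZFSet.{0} → ZFSet.{0} → Prop := fun y p =>
    Tra (fs p) ∧ y ∈ fs p ∧ IsInj (fs p) ZFSet.omega (sn p) with hQ
  have hfs : ∀ {n : ℕ} (i : Fin n), DfnF M M fun w : Fin n → ZFSet.{0} => fs (w i) :=
    fun i => hZ.fs' (DfnF.proj i)
  have hsn : ∀ {n : ℕ} (i : Fin n), DfnF M M fun w : Fin n → ZFSet.{0} => sn (w i) :=
    fun i => hZ.sn' (DfnF.proj i)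
  have hQd : Dfn M M fun w : Fin 2 → ZFSet.{0} => Q (w 1) (w 0) := by
    apply Dfn.and
    · apply hB.ball (hfs 0)
      apply hB.ball (DfnF.proj 0)
      exact Dfn.mem (DfnF.proj 0) (hfs 2)
    apply Dfn.and
    · exact Dfn.mem (DfnF.proj 1) (hfs 0)
    · exact hB.isInj' (hfs 0) (DfnF.const hω) (hsn 0)
  have hF : DfnF M M fun w : Fin 1 → ZFSet.{0} => wt M fun p => Q (w 0) p :=
    wt' hZ (Q := fun p w => Q (w 0) p) hQd
  obtain ⟨c, hc, -, hcs⟩ := exists_choice hM hx (F := fun y => wt M fun p => Q y p) hF (by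
    intro y hyx
    obtain ⟨T, hT, h1, h2, f, hf, h3⟩ := hy y hyx
    refine wt_ne hZ ⟨ZFSet.pair T f, hZ.pair_mem hT hf, ?_⟩
    rw [hQ]
    simp only [fs_pair, sn_pair]
    exact ⟨h1, h2, h3⟩)
  have hcq : ∀ y ∈ x, Q y (ap c y) := fun y hyx => (wt_spec (hcs y hyx)).2
  have hap : DfnF M M fun w : Fin 1 → ZFSet.{0} => fs (ap c (w 0)) :=
    hZ.fs' (hZ.ap' (DfnF.const hc) (DfnF.proj 0))
  set U : ZFSet.{0} := ZFSet.sUnion (im (fun y => fs (ap c y)) x) with hU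
  have hUM : U ∈ M := hZ.union _ (hZ.im_mem hx hap)
  have hmU : ∀ u, u ∈ U ↔ ∃ y ∈ x, u ∈ fs (ap c y) := by
    intro u
    rw [hU, ZFSet.mem_sUnion]
    constructor
    · rintro ⟨z, hz, hu⟩
      obtain ⟨y, hyx, rfl⟩ := mem_im.1 hz
      exact ⟨y, hyx, hu⟩
    · rintro ⟨y, hyx, hu⟩
      exact ⟨_, mem_im.2 ⟨y, hyx, rfl⟩, hu⟩
  have hUt : Tra U := by
    intro u hu v hv
    obtain ⟨y, hyx, h1⟩ := (hmU u).1 hu
    exact (hmU v).2 ⟨y, hyx, (hcq y hyx).1 u h1 v hv⟩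
  have hxU : x ⊆ U := fun y hyx => (hmU y).2 ⟨y, hyx, (hcq y hyx).2.1⟩
  obtain ⟨f, hf, hfi⟩ := hi
  -- the least index
  have hP : Dfn M M fun w : Fin 2 → ZFSet.{0} => ∃ y ∈ x, w 1 ∈ fs (ap c y) ∧
      ZFSet.pair y (w 0) ∈ f := by
    apply hB.bex (DfnF.const hx)
    apply Dfn.and
    · exact Dfn.mem (DfnF.proj 2) (DfnF.comp1 (f := fun y => fs (ap c y)) hap (DfnF.proj 0))
    · exact Dfn.mem (hB.pair' (DfnF.proj 0) (DfnF.proj 1)) (DfnF.const hf)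
  set i : ZFSet.{0} → ZFSet.{0} := fun u => lo M fun n => ∃ y ∈ x, u ∈ fs (ap c y) ∧
    ZFSet.pair y n ∈ f with hi
  have hid : DfnF M M fun w : Fin 1 → ZFSet.{0} => i (w 0) :=
    hZ.lo' (Q := fun n w => ∃ y ∈ x, w 0 ∈ fs (ap c y) ∧ ZFSet.pair y n ∈ f) hP
  have his : ∀ u ∈ U, ∃ y ∈ x, u ∈ fs (ap c y) ∧ ZFSet.pair y (i u) ∈ f := by
    intro u hu
    obtain ⟨y, hyx, h1⟩ := (hmU u).1 hu
    obtain ⟨n, hn, h2⟩ := fun_exists hfi.1 hyx
    exact (lo_spec (M := M) (P := fun n => ∃ y ∈ x, u ∈ fs (ap c y) ∧ ZFSet.pair y n ∈ f)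
      ⟨n, hZ.trans _ hω _ hn, hωo.mem hn, y, hyx, h1, h2⟩).2.2
  have hiω : ∀ u ∈ U, i u ∈ ZFSet.omega := by
    intro u hu
    obtain ⟨y, -, -, h⟩ := his u hu
    exact (ZFSet.pair_mem_prod.1 (hfi.1.1 h)).2
  have hR : Dfn M M fun w : Fin 2 → ZFSet.{0} => ∃ y ∈ x, w 0 ∈ fs (ap c y) ∧
      ZFSet.pair y (i (w 0)) ∈ f ∧ ∃ b ∈ ZFSet.omega, ZFSet.pair (w 0) b ∈ sn (ap c y) ∧
        w 1 = ZFSet.pair (i (w 0)) b := by
    apply hB.bex (DfnF.const hx)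
    apply Dfn.and
    · exact Dfn.mem (DfnF.proj 1) (DfnF.comp1 (f := fun y => fs (ap c y)) hap (DfnF.proj 0))
    apply Dfn.and
    · exact Dfn.mem (hB.pair' (DfnF.proj 0) (DfnF.comp1 (f := i) hid (DfnF.proj 1)))
        (DfnF.const hf)
    apply hB.bex (DfnF.const hω)
    apply Dfn.and
    · refine Dfn.mem (hB.pair' (DfnF.proj 2) (DfnF.proj 0)) ?_
      exact hZ.sn' (hZ.ap' (DfnF.const hc) (DfnF.proj 1))
    · exact Dfn.eq (DfnF.proj 3) (hB.pair' (DfnF.comp1 (f := i) hid (DfnF.proj 2)) (DfnF.proj 0))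
  have hUi : Inj M U ZFSet.omega := by
    refine Inj.trans hZ hUM hω (Inj.of_rel hZ hUM (hZ.prod_mem hω hω)
      (R := fun u q => ∃ y ∈ x, u ∈ fs (ap c y) ∧
        ZFSet.pair y (i u) ∈ f ∧ ∃ b ∈ ZFSet.omega, ZFSet.pair u b ∈ sn (ap c y) ∧
        q = ZFSet.pair (i u) b) hR ?_ ?_ ?_) (inj_omega_sq hZ)
    · intro u hu
      obtain ⟨y, hyx, h1, h2⟩ := his u hu
      obtain ⟨b, hb, h3⟩ := fun_exists (hcq y hyx).2.2.1 h1
      exact ⟨_, ZFSet.pair_mem_prod.2 ⟨hiω u hu, hb⟩, y, hyx, h1, h2, b, hb, h3, rfl⟩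
    · rintro u - q - q' - ⟨y, hyx, h1, h2, b, hb, h3, rfl⟩ ⟨y', hyx', h1', h2', b', hb', h3', rfl⟩
      obtain rfl := hfi.2 _ _ _ h2 h2'
      rw [fun_unique (hcq y hyx).2.2.1 h3 h3']
    · rintro u - u' - q - ⟨y, hyx, h1, h2, b, hb, h3, rfl⟩ ⟨y', hyx', h1', h2', b', hb', h3', h4⟩
      obtain ⟨h5, rfl⟩ := ZFSet.pair_inj.1 h4
      rw [← h5] at h2'
      obtain rfl := hfi.2 _ _ _ h2 h2'
      exact (hcq y hyx).2.2.2 _ _ _ h3 h3'
  exact HCt.of_sub hZ hUM hUt hUi hx hxU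

/-- Closure properties of the class of the hereditarily countable sets. -/
theorem hC2 : S_HC2 := by
  refine ⟨fun M hM => ⟨fun a b ha hb => ⟨HCt.pair hM ha hb, HCt.upair hM ha hb,
    HCt.insert hM ha hb, HCt.union hM ha hb⟩, fun a b ha hb h => HCt.sub hM ha hb h,
    fun a ha => ⟨HCt.mem_M hM ha, HCt.inj hM ha, fun x hx => HCt.elem ha hx⟩, hCt_omega hM,
    hCt_oo hM⟩, fun M hM x hx hy hi => HCt.of_ctb hM hx hy hi⟩

end Pool.Agent.H637_NO
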