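import Pool.Agent.H637_NO.LbB
import Pool.Agent.H637_NO.PC

/-!
# Levels of the hierarchy over a hereditarily countable set are hereditarily countable
-/

set_option autoImplicit false

namespace Pool.Agent.H637_NO

open Pool.Agent.W868 Pool.Agent.W868.GM
open ZFSet (pair)

section

variable {M : Set ZFSet.{0}} (hM : IsZFC M) (h2 : S_HC2)

include hM h2

/-- A product of hereditarily countable sets. -/
theorem hct_prod {a b : ZFSet.{0}} (ha : HCt M a) (hb : HCt M b) : HCt M (ZFSet.prod a b) := by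
  have hZ := hM.toIsZF
  obtain ⟨h3, -, h4, -, h5⟩ := h2.1 M hZ
  obtain ⟨haM, hai, ha'⟩ := h4 a ha
  obtain ⟨hbM, hbi, hb'⟩ := h4 b hb
  obtain ⟨hoM, hoi, -⟩ := h4 oo h5
  refine h2.2 M hM _ (hZ.prod_mem haM hbM) (fun y hy => ?_) ?_
  · obtain ⟨x, hx, z, hz, rfl⟩ := ZFSet.mem_prod.1 hy
    exact (h3 x z (ha' x hx) (hb' z hz)).1
  · exact (Inj.prod hZ haM hbM hZ.infinity hZ.infinity hai hbi).trans hZ
      (hZ.prod_mem haM hbM) hZ.infinity hoi

/-- The image of a hereditarily countable set under a definable operation with hereditarily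
countable values. -/
theorem hct_im {a : ZFSet.{0}} (ha : HCt M a) {h : ZFSet.{0} → ZFSet.{0}}
    (hh : DfnF M M fun w : Fin 1 → ZFSet.{0} => h (w 0)) (hv : ∀ x ∈ a, HCt M (h x)) :
    HCt M (im h a) := by
  have hZ := hM.toIsZF
  obtain ⟨haM, hai, -⟩ := (h2.1 M hZ).2.2.1 a ha
  refine h2.2 M hM _ (hZ.im_mem haM hh) (fun y hy => ?_) ?_
  · obtain ⟨x, hx, rfl⟩ := mem_im.1 hy
    exact hv x hx
  · exact Inj.image hZ haM hZ.infinity isOrdinal_omega hai hh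

omit h2 in
/-- The union of a hereditarily countable set. -/
theorem hcl_sUnion {a : ZFSet.{0}} (ha : HCt M a) : HCt M (ZFSet.sUnion a : ZFSet.{0}) := by
  have hZ := hM.toIsZF
  obtain ⟨T, hT, hTt, haT, hi⟩ := ha
  refine pc_hct_of_subset hZ hT hTt hi (hZ.union _ (hZ.trans _ hT _ haT)) fun x hx => ?_
  obtain ⟨y, hy, hx⟩ := ZFSet.mem_sUnion.1 hx
  exact hTt _ (hTt _ haT _ hy) _ hx

theorem hct_stepN {X : ZFSet.{0}} (hX : HCt M X) (k : ℕ) : HCt M (stepN ∅ X k) := by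
  have hZ := hM.toIsZF
  obtain ⟨h3, h6, h4, -, h5⟩ := h2.1 M hZ
  have hXM := (h4 X hX).1
  induction k with
  | zero => exact hX
  | succ k ih =>
    have hI : HCt M (insert X X) := (h3 X X hX hX).2.2.1
    have hP := hct_prod hM h2 hI hI
    refine (h3 _ _ ih ?_).2.2.2
    have hh : DfnF M M fun w : Fin 1 → ZFSet.{0} =>
        ZFSet.sep (fun u => GR ∅ k u (fs (w 0)) (sn (w 0))) X := by
      refine hZ.sep' (Q := fun u w => GR ∅ k u (fs (w 0)) (sn (w 0))) (DfnF.const hXM) ?_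
      exact dfn_GR hZ hZ.empty_mem k (DfnF.proj 0) (hZ.fs' (DfnF.proj 1)) (hZ.sn' (DfnF.proj 1))
    refine hct_im hM h2 hP (h := fun p => ZFSet.sep (fun u => GR ∅ k u (fs p) (sn p)) X) hh ?_
    intro x hx
    refine h6 X _ hX ?_ fun u hu => (ZFSet.mem_sep.1 hu).1
    exact hh.1 (fun _ => x) fun _ => hZ.trans _ (h4 _ hP).1 _ hx

theorem hct_step {X : ZFSet.{0}} (hX : HCt M X) : HCt M (step ∅ X) := hct_stepN hM h2 hX 11

/-- The levels of the hierarchy. -/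
theorem hct_Lb {S ξ : ZFSet.{0}} (hS : HCt M S) (hξ : HCt M ξ) : HCt M (Lb S ξ) := by
  have hZ := hM.toIsZF
  obtain ⟨h3, h6, h4, -, h5⟩ := h2.1 M hZ
  have hSM := (h4 S hS).1
  induction ξ using ZFSet.inductionOn with
  | _ ξ ih =>
  have hξ' := (h4 ξ hξ).2.2
  have h7 : HCt M (im (fun u => step ∅ (Lb S u)) ξ) := by
    refine hct_im hM h2 hξ ?_ fun x hx => hct_step hM h2 (ih x hx (hξ' x hx))
    exact DfnF.comp1 (f := step ∅) (dfn_step0 hZ) (dfn_Lb hZ hSM)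
  have h8 := (h3 _ _ hS (hcl_sUnion hM h7)).2.2.2
  have h9 : Lb S ξ = S ∪ (ZFSet.sUnion (im (fun u => step ∅ (Lb S u)) ξ) : ZFSet.{0}) := by
    ext y
    rw [mem_Lb, ZFSet.mem_union, ZFSet.mem_sUnion]
    refine or_congr Iff.rfl ?_
    constructor
    · rintro ⟨u, hu, h⟩
      exact ⟨_, mem_im.2 ⟨u, hu, rfl⟩, h⟩
    · rintro ⟨z, hz, h⟩
      obtain ⟨u, hu, rfl⟩ := mem_im.1 hz
      exact ⟨u, hu, h⟩
  rw [h9]
  exact h8

/-- Initial segments of the hierarchy. -/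
theorem hct_gr {S ξ : ZFSet.{0}} (hS : HCt M S) (hξ : HCt M ξ) : HCt M (gr (Lb S) ξ) := by
  have hZ := hM.toIsZF
  obtain ⟨h3, h6, h4, -, h5⟩ := h2.1 M hZ
  have hSM := (h4 S hS).1
  have hξ' := (h4 ξ hξ).2.2
  refine hct_im hM h2 hξ (h := fun u => pair u (Lb S u)) ?_ fun x hx =>
    (h3 _ _ (hξ' x hx) (hct_Lb hM h2 hS (hξ' x hx))).1
  exact hZ.base.pair' (DfnF.proj 0) (dfn_Lb hZ hSM)

end

end Pool.Agent.H637_NO
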