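import Pool.Agent.H637_NO.Stm

/-!
# New orbits: the hierarchy over a transitive set
-/

set_option autoImplicit false
set_option linter.unreachableTactic false
set_option linter.unusedTactic false

namespace Pool.Agent.H637_NO

open Pool.Agent.W868 Pool.Agent.W868.GM
open ZFSet (pair)

theorem mem_Lb {S z y : ZFSet.{0}} : y ∈ Lb S z ↔ y ∈ S ∨ ∃ u ∈ z, y ∈ step ∅ (Lb S u) := mem_itr

theorem Lb_base {S z : ZFSet.{0}} : S ⊆ Lb S z := itr_base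

theorem step_subset_Lb {S z u : ZFSet.{0}} (h : u ∈ z) : step ∅ (Lb S u) ⊆ Lb S z := itr_step h

theorem Lb_subset {S z u : ZFSet.{0}} (h : u ∈ z) : Lb S u ⊆ Lb S z :=
  fun _ hy => step_subset_Lb h (subset_step hy)

theorem Lb_mem {S z u : ZFSet.{0}} (h : u ∈ z) : Lb S u ∈ Lb S z :=
  step_subset_Lb h self_mem_step

theorem Lb_mono {S z z' : ZFSet.{0}} (h : z ⊆ z') : Lb S z ⊆ Lb S z' := itr_mono h

theorem Lb_trans {S : ZFSet.{0}} (hT : Tra S) (z : ZFSet.{0}) :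
    ∀ y ∈ Lb S z, ∀ w ∈ y, w ∈ Lb S z := by
  induction z using ZFSet.inductionOn with
  | _ z ih =>
  intro y hy w hw
  rcases mem_Lb.1 hy with h | ⟨u, hu, h⟩
  · exact Lb_base (hT y h w hw)
  · rcases step_cases h with h | h
    · exact Lb_subset hu (ih u hu y h w hw)
    · exact Lb_subset hu (h hw)

theorem Lb_tra {S : ZFSet.{0}} (hT : Tra S) (z : ZFSet.{0}) : Tra (Lb S z) := Lb_trans hT z

theorem Lb_sc {S z : ZFSet.{0}} : Lb S (sc z) = step ∅ (Lb S z) := by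
  ext y
  rw [mem_Lb]
  constructor
  · rintro (h | ⟨u, hu, h⟩)
    · exact subset_step (Lb_base h)
    · rcases ZFSet.mem_insert_iff.1 hu with rfl | hu
      · exact h
      · exact subset_step (mem_Lb.2 (Or.inr ⟨u, hu, h⟩))
  · intro h
    exact Or.inr ⟨z, ZFSet.mem_insert _ _, h⟩

theorem Lb_empty {S : ZFSet.{0}} : Lb S ∅ = S := by
  ext y
  rw [mem_Lb]
  exact ⟨fun h => h.elim id fun ⟨u, hu, _⟩ => absurd hu (ZFSet.notMem_empty u), Or.inl⟩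

theorem self_mem_Lb {S z : ZFSet.{0}} (h : ∅ ∈ z) : S ∈ Lb S z := by
  have h1 := Lb_mem (S := S) h
  rwa [Lb_empty] at h1

/-! ### Definability -/

section dfn

variable {M : Set ZFSet.{0}} (hM : IsZF M) {S : ZFSet.{0}}

include hM

theorem dfn_step0 : DfnF M M fun w : Fin 1 → ZFSet.{0} => step ∅ (w 0) :=
  dfn_step hM hM.empty_mem

theorem dfn_Lb (hS : S ∈ M) : DfnF M M fun w : Fin 1 → ZFSet.{0} => Lb S (w 0) :=
  dfn_itr hM hS (dfn_step0 hM)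

theorem Lb_mem_M (hS : S ∈ M) {z : ZFSet.{0}} (hz : z ∈ M) : Lb S z ∈ M :=
  itr_mem_M hM hS hz (dfn_step0 hM)

end dfn

/-! ### Bounded definitions -/

/-- `f` is an initial segment of the hierarchy over `S`. -/
def Hier (S f : ZFSet.{0}) : Prop :=
  ∀ p ∈ f, ∃ ξ X, p = pair ξ X ∧ ξ.IsOrdinal ∧ S ⊆ X ∧
    (∀ η ∈ ξ, ∃ q ∈ f, ∃ η' Y, q = pair η' Y ∧ η' = η) ∧
    (∀ y ∈ X, y ∈ S ∨ ∃ q ∈ f, ∃ η Y, q = pair η Y ∧ η ∈ ξ ∧ y ∈ step ∅ Y) ∧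
    ∀ q ∈ f, ∃ η Y, q = pair η Y ∧ (η ∈ ξ → step ∅ Y ⊆ X)

theorem GR_congr {A A' : ZFSet.{0}} {i : ℕ} (h : i < 10) {u a b : ZFSet.{0}} :
    GR A i u a b ↔ GR A' i u a b := by
  match i, h with
  | 0, _ => rfl
  | 1, _ => rfl
  | 2, _ => rfl
  | 3, _ => rfl
  | 4, _ => rfl
  | 5, _ => rfl
  | 6, _ => rfl
  | 7, _ => rfl
  | 8, _ => rfl
  | 9, _ => rfl

/-- The set `y` is given within `X` by the operation `i < 10` at `a`, `b`. -/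
def Vb (X y a b : ZFSet.{0}) (i : ℕ) : Prop := ∀ u, u ∈ y ↔ u ∈ X ∧ GR ∅ i u a b

/-- `step ∅` without the tenth operation. -/
theorem mem_step0 {X y : ZFSet.{0}} : y ∈ step ∅ X ↔ y ∈ X ∨ y = ∅ ∨
    ∃ i < 10, ∃ a ∈ (insert X X : ZFSet.{0}), ∃ b ∈ (insert X X : ZFSet.{0}), Vb X y a b i := by
  rw [mem_step]
  constructor
  · rintro (h | ⟨i, hi, a, ha, b, hb, h⟩)
    · exact Or.inl h
    · by_cases h10 : i < 10
      · exact Or.inr (Or.inr ⟨i, h10, a, ha, b, hb, h⟩)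
      · have : i = 10 := by omega
        subst this
        refine Or.inr (Or.inl ?_)
        rw [ZFSet.eq_empty]
        intro u hu
        exact ZFSet.notMem_empty u ((h u).1 hu).2
  · rintro (h | rfl | ⟨i, hi, a, ha, b, hb, h⟩)
    · exact Or.inl h
    · refine Or.inr ⟨10, by omega, X, ZFSet.mem_insert _ _, X, ZFSet.mem_insert _ _, fun u => ?_⟩
      constructor
      · exact fun h => absurd h (ZFSet.notMem_empty u)
      · exact fun h => absurd h.2 (ZFSet.notMem_empty u)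
    · exact Or.inr ⟨i, by omega, a, ha, b, hb, h⟩

theorem D0v.comp {n m : ℕ} {F : (Fin n → ZFSet.{0}) → ZFSet.{0}} (h : D0v F)
    (ρ : Fin n → Fin m) : D0v fun v : Fin m → ZFSet.{0} => F fun i => v (ρ i) := by
  obtain ⟨i, hi⟩ := h
  exact ⟨ρ i, fun v => hi _⟩

theorem d0_Vb {n : ℕ} {G H K L : (Fin n → ZFSet.{0}) → ZFSet.{0}}
    (hG : D0v G) (hH : D0v H) (hK : D0v K) (hL : D0v L) (i : ℕ) (hi : i < 10) :
    D0 fun v => Vb (G v) (H v) (K v) (L v) i := by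
  have h1 : D0 fun v => (∀ u ∈ H v, u ∈ G v ∧ GR (G v) i u (K v) (L v)) ∧
      ∀ u ∈ G v, GR (G v) i u (K v) (L v) → u ∈ H v := by
    apply D0.and
    · apply D0.ball hH
      exact D0.and (D0.mem (D0v.proj 0) hG.tail)
        (d0_GR' i hG.tail (D0v.proj 0) hK.tail hL.tail)
    · apply D0.ball hG
      exact D0.imp (d0_GR' i hG.tail (D0v.proj 0) hK.tail hL.tail)
        (D0.mem (D0v.proj 0) hH.tail)
  refine h1.congr fun v => ?_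
  constructor
  · rintro ⟨h2, h3⟩ u
    exact ⟨fun h => ⟨(h2 u h).1, (GR_congr hi).1 (h2 u h).2⟩,
      fun h => h3 u h.1 ((GR_congr hi).1 h.2)⟩
  · intro h
    exact ⟨fun u hu => ⟨((h u).1 hu).1, (GR_congr hi).1 ((h u).1 hu).2⟩,
      fun u h2 h3 => (h u).2 ⟨h2, (GR_congr hi).1 h3⟩⟩

theorem D0.isEmpty {n : ℕ} {F : (Fin n → ZFSet.{0}) → ZFSet.{0}} (hF : D0v F) :
    D0 fun v => F v = ∅ := by
  have h1 : D0 fun v => ∀ u ∈ F v, ¬ u = u :=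
    D0.ball hF (D0.not (D0.eq (D0v.proj 0) (D0v.proj 0)))
  refine h1.congr fun v => ?_
  rw [ZFSet.eq_empty]
  exact ⟨fun h u hu => h u hu rfl, fun h u hu => absurd hu (h u)⟩

theorem d0_exLt10 {n : ℕ} {R : ℕ → (Fin n → ZFSet.{0}) → Prop} (k : ℕ) (hk : k ≤ 10)
    (h : ∀ i < 10, D0 (R i)) : D0 fun v => ∃ i < k, R i v := by
  have h1 : D0 fun v => ∃ i < k, (if i < 10 then R i v else False) := by
    apply D0.exLt
    intro i
    by_cases hi : i < 10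
    · exact (h i hi).congr fun v => by rw [if_pos hi]
    · exact (D0.tt.not).congr fun v => by simp [hi]
  refine h1.congr fun v => ?_
  constructor
  · rintro ⟨i, hi, h2⟩
    rw [if_pos (by omega)] at h2
    exact ⟨i, hi, h2⟩
  · rintro ⟨i, hi, h2⟩
    refine ⟨i, hi, ?_⟩
    rw [if_pos (by omega)]
    exact h2

theorem d0_allLt10 {n : ℕ} {R : ℕ → (Fin n → ZFSet.{0}) → Prop} (k : ℕ) (hk : k ≤ 10)
    (h : ∀ i < 10, D0 (R i)) : D0 fun v => ∀ i < k, R i v := by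
  have h1 := (d0_exLt10 k hk (R := fun i v => ¬ R i v) fun i hi => (h i hi).not).not
  refine h1.congr fun v => ?_
  push Not
  rfl

theorem d0_memStep0 {n : ℕ} {G H : (Fin n → ZFSet.{0}) → ZFSet.{0}}
    (hG : D0v G) (hH : D0v H) : D0 fun v => H v ∈ step ∅ (G v) := by
  have h1 : D0 fun v => H v ∈ G v ∨ H v = ∅ ∨ ∃ i < 10, ∃ a ∈ (insert (G v) (G v) : ZFSet.{0}),
      ∃ b ∈ (insert (G v) (G v) : ZFSet.{0}), Vb (G v) (H v) a b i := by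
    apply D0.or (D0.mem hH hG)
    apply D0.or (D0.isEmpty hH)
    apply d0_exLt10 _ le_rfl
    intro i hi
    apply D0.bexIns hG
    apply D0.bexIns hG.tail
    exact d0_Vb hG.tail.tail hH.tail.tail (D0v.proj 1) (D0v.proj 0) i hi
  exact h1.congr fun v => mem_step0.symm

theorem d0_stepSub0 {n : ℕ} {G H : (Fin n → ZFSet.{0}) → ZFSet.{0}}
    (hG : D0v G) (hH : D0v H) : D0 fun v => step ∅ (G v) ⊆ H v := by
  have h1 : D0 fun v => G v ⊆ H v ∧ (∃ e ∈ H v, e = ∅) ∧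
      ∀ i < 10, ∀ a ∈ (insert (G v) (G v) : ZFSet.{0}),
      ∀ b ∈ (insert (G v) (G v) : ZFSet.{0}), ∃ y ∈ H v, Vb (G v) y a b i := by
    apply D0.and (D0.subset hG hH)
    apply D0.and (D0.bex hH (D0.isEmpty (D0v.proj 0)))
    apply d0_allLt10 _ le_rfl
    intro i hi
    apply D0.ballIns hG
    apply D0.ballIns hG.tail
    apply D0.bex hH.tail.tail
    exact d0_Vb hG.tail.tail.tail (D0v.proj 0) (D0v.proj 2) (D0v.proj 1) i hi
  refine h1.congr fun v => ?_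
  constructor
  · rintro ⟨h2, ⟨e, he, rfl⟩, h3⟩ y hy
    rcases mem_step0.1 hy with h4 | rfl | ⟨i, hi, a, ha, b, hb, h4⟩
    · exact h2 h4
    · exact he
    · obtain ⟨y', h5, h6⟩ := h3 i hi a ha b hb
      have h7 : y = y' := by
        ext u
        rw [h4, h6]
      exact h7 ▸ h5
  · intro h2
    refine ⟨fun y hy => h2 (subset_step hy), ⟨∅, h2 (mem_step0.2 (Or.inr (Or.inl rfl))), rfl⟩,
      fun i hi a ha b hb => ?_⟩
    have h3 : Vb (G v) (ZFSet.sep (fun u => GR ∅ i u a b) (G v)) a b i := by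
      intro u
      rw [ZFSet.mem_sep]
    exact ⟨_, h2 (mem_step0.2 (Or.inr (Or.inr ⟨i, hi, a, ha, b, hb, h3⟩))), h3⟩

theorem d0_Hier' : D0 fun v : Fin 2 → ZFSet.{0} => Hier (v 0) (v 1) := by
  unfold Hier
  (repeat' first
      | assumption
      | exact D0v.proj _
      | apply d0_memStep0 | apply d0_stepSub0
      | apply D0.or
      | apply D0.and | apply D0.expair
      | apply D0.bex | apply D0.ball | apply D0.imp | apply D0.subset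
      | apply D0.eq | apply D0.mem | apply D0.isOrdinal)

theorem D0.comp2 {n : ℕ} {R : ZFSet.{0} → ZFSet.{0} → Prop}
    (h : D0 fun v : Fin 2 → ZFSet.{0} => R (v 0) (v 1)) {F G : (Fin n → ZFSet.{0}) → ZFSet.{0}}
    (hF : D0v F) (hG : D0v G) : D0 fun v => R (F v) (G v) := by
  obtain ⟨a, ha⟩ := hF
  obtain ⟨b, hb⟩ := hG
  refine (h.comp ![a, b]).congr fun v => ?_
  rw [ha, hb]
  rfl

theorem D0.comp1 {n : ℕ} {R : ZFSet.{0} → Prop}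
    (h : D0 fun v : Fin 1 → ZFSet.{0} => R (v 0)) {F : (Fin n → ZFSet.{0}) → ZFSet.{0}}
    (hF : D0v F) : D0 fun v => R (F v) := by
  obtain ⟨a, ha⟩ := hF
  refine (h.comp ![a]).congr fun v => ?_
  rw [ha]
  rfl

theorem D0.comp3 {n : ℕ} {R : ZFSet.{0} → ZFSet.{0} → ZFSet.{0} → Prop}
    (h : D0 fun v : Fin 3 → ZFSet.{0} => R (v 0) (v 1) (v 2))
    {F G H : (Fin n → ZFSet.{0}) → ZFSet.{0}}
    (hF : D0v F) (hG : D0v G) (hH : D0v H) : D0 fun v => R (F v) (G v) (H v) := by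
  obtain ⟨a, ha⟩ := hF
  obtain ⟨b, hb⟩ := hG
  obtain ⟨c, hc⟩ := hH
  refine (h.comp ![a, b, c]).congr fun v => ?_
  rw [ha, hb, hc]
  rfl

theorem D0.comp4 {n : ℕ} {R : ZFSet.{0} → ZFSet.{0} → ZFSet.{0} → ZFSet.{0} → Prop}
    (h : D0 fun v : Fin 4 → ZFSet.{0} => R (v 0) (v 1) (v 2) (v 3))
    {F G H K : (Fin n → ZFSet.{0}) → ZFSet.{0}}
    (hF : D0v F) (hG : D0v G) (hH : D0v H) (hK : D0v K) :
    D0 fun v => R (F v) (G v) (H v) (K v) := by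
  obtain ⟨a, ha⟩ := hF
  obtain ⟨b, hb⟩ := hG
  obtain ⟨c, hc⟩ := hH
  obtain ⟨d, hd⟩ := hK
  refine (h.comp ![a, b, c, d]).congr fun v => ?_
  rw [ha, hb, hc, hd]
  rfl

theorem d0_Hier {n : ℕ} {F G : (Fin n → ZFSet.{0}) → ZFSet.{0}} (hF : D0v F) (hG : D0v G) :
    D0 fun v => Hier (F v) (G v) := D0.comp2 d0_Hier' hF hG

theorem Hier.eq {S f : ZFSet.{0}} (h : Hier S f) : ∀ ξ X, pair ξ X ∈ f → X = Lb S ξ := by
  intro ξ
  induction ξ using ZFSet.inductionOn with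
  | _ ξ ih =>
  intro X hX
  obtain ⟨ξ', X', h1, -, h0, h2, h3, h4⟩ := h _ hX
  obtain ⟨rfl, rfl⟩ := ZFSet.pair_inj.1 h1
  ext y
  rw [mem_Lb]
  constructor
  · intro hy
    rcases h3 y hy with h5 | ⟨q, hq, η, Y, rfl, h5, h6⟩
    · exact Or.inl h5
    · rw [ih η h5 Y hq] at h6
      exact Or.inr ⟨η, h5, h6⟩
  · rintro (h5 | ⟨η, h5, h6⟩)
    · exact h0 h5
    · obtain ⟨q, hq, η', Y, rfl, rfl⟩ := h2 η h5
      obtain ⟨η'', Y', h7, h8⟩ := h4 _ hq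
      obtain ⟨rfl, rfl⟩ := ZFSet.pair_inj.1 h7
      rw [ih _ h5 _ hq] at h8
      exact h8 h5 h6

theorem Hier.ord {S f ξ X : ZFSet.{0}} (h : Hier S f) (hX : pair ξ X ∈ f) : ξ.IsOrdinal := by
  obtain ⟨ξ', X', h1, h2, -⟩ := h _ hX
  obtain ⟨rfl, rfl⟩ := ZFSet.pair_inj.1 h1
  exact h2

theorem hier_gr {S δ : ZFSet.{0}} (hδ : δ.IsOrdinal) : Hier S (gr (Lb S) δ) := by
  intro p hp
  obtain ⟨ξ, hξ, rfl⟩ := mem_gr.1 hp
  refine ⟨ξ, _, rfl, hδ.mem hξ, Lb_base, fun η hη => ?_, fun y hy => ?_, fun q hq => ?_⟩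
  · exact ⟨_, mem_gr.2 ⟨η, hδ.mem_trans hη hξ, rfl⟩, η, _, rfl, rfl⟩
  · rcases mem_Lb.1 hy with h | ⟨η, hη, h⟩
    · exact Or.inl h
    · exact Or.inr ⟨_, mem_gr.2 ⟨η, hδ.mem_trans hη hξ, rfl⟩, η, _, rfl, hη, h⟩
  · obtain ⟨η, hη, rfl⟩ := mem_gr.1 hq
    exact ⟨η, _, rfl, fun h => step_subset_Lb h⟩

theorem gr_Lb_mem {M : Set ZFSet.{0}} (hM : IsZF M) {S δ : ZFSet.{0}} (hS : S ∈ M) (hδ : δ ∈ M) :
    gr (Lb S) δ ∈ M := by
  have hB := hM.base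
  refine hM.im_mem hδ (h := fun u => pair u (Lb S u)) ?_
  exact hB.pair' (DfnF.proj 0) (DfnF.comp1 (f := Lb S) (dfn_Lb hM hS) (DfnF.proj 0))

/-- `X` is the level number `ξ` of the hierarchy over `S`. -/
theorem Lb_iff {M : Set ZFSet.{0}} (hM : IsZF M) {S ξ X : ZFSet.{0}} (hS : S ∈ M) (hξ : ξ ∈ M)
    (hξo : ξ.IsOrdinal) : X = Lb S ξ ↔ ∃ f ∈ M, Hier S f ∧ pair ξ X ∈ f := by
  constructor
  · rintro rfl
    exact ⟨_, gr_Lb_mem hM hS (hM.sc_mem hξ), hier_gr (isOrdinal_sc hξo),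
      mem_gr.2 ⟨ξ, ZFSet.mem_insert _ _, rfl⟩⟩
  · rintro ⟨f, -, h1, h2⟩
    exact h1.eq ξ X h2

/-- The map `(S, ξ) ↦ Lb S ξ` is definable uniformly in `S`. -/
theorem dfn_Lb2 {M : Set ZFSet.{0}} (hM : IsZF M) {n : ℕ} {F G : (Fin n → ZFSet.{0}) → ZFSet.{0}}
    (hF : DfnF M M F) (hG : DfnF M M G) (hG' : ∀ v, (∀ i, v i ∈ M) → (G v).IsOrdinal) :
    DfnF M M fun v => Lb (F v) (G v) := by
  have hB := hM.base
  refine DfnF.of_unique (R := fun y v => ∃ f ∈ M, Hier (F v) f ∧ pair (G v) y ∈ f) ?_ ?_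
  · apply Dfn.ex
    apply Dfn.and
    · exact Dfn.comp2 (Q := Hier) (d0_Hier'.dfn hM.trans) (F := fun w => F (Fin.tail (Fin.tail w)))
        (G := fun w => w 0) hF.tail.tail (DfnF.proj 0)
    · exact Dfn.mem (hB.pair' hG.tail.tail (DfnF.proj 1)) (DfnF.proj 0)
  · intro v hv
    have h1 := hF.1 v hv
    have h2 := hG.1 v hv
    refine ⟨Lb_mem_M hM h1 h2, fun y hy => ?_⟩
    exact (Lb_iff hM h1 h2 (hG' v hv)).symm

/-! ### Closure under the basic operations -/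

theorem upair_mem_Lb {S ξ x y : ZFSet.{0}} (hx : x ∈ Lb S ξ) (hy : y ∈ Lb S ξ) :
    ({x, y} : ZFSet.{0}) ∈ Lb S (sc ξ) := by
  rw [Lb_sc]
  refine mem_step.2 (Or.inr ⟨1, by omega, x, ZFSet.mem_insert_of_mem _ hx, y,
    ZFSet.mem_insert_of_mem _ hy, fun u => ?_⟩)
  rw [ZFSet.mem_pair]
  constructor
  · rintro (rfl | rfl)
    · exact ⟨hx, Or.inl rfl⟩
    · exact ⟨hy, Or.inr rfl⟩
  · exact fun h => h.2

theorem pair_mem_Lb {S ξ x y : ZFSet.{0}} (hx : x ∈ Lb S ξ) (hy : y ∈ Lb S ξ) :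
    pair x y ∈ Lb S (sc (sc ξ)) := by
  have h1 := upair_mem_Lb hx hx
  rw [ZFSet.pair_eq_singleton] at h1
  exact upair_mem_Lb h1 (upair_mem_Lb hx hy)

theorem Lb_sub_sc {S ξ : ZFSet.{0}} : Lb S ξ ⊆ Lb S (sc ξ) := Lb_subset (ZFSet.mem_insert _ _)

theorem Lb_sub_sc2 {S ξ : ZFSet.{0}} : Lb S ξ ⊆ Lb S (sc (sc ξ)) :=
  fun _ h => Lb_sub_sc (Lb_sub_sc h)

theorem of_pair_mem_Lb {S ξ x y : ZFSet.{0}} (hT : Tra S) (h : pair x y ∈ Lb S ξ) :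
    x ∈ Lb S ξ ∧ y ∈ Lb S ξ := by
  have h1 : ({x, y} : ZFSet.{0}) ∈ Lb S ξ := Lb_trans hT _ _ h _ (by simp [pair])
  exact ⟨Lb_trans hT _ _ h1 _ (by simp), Lb_trans hT _ _ h1 _ (by simp)⟩

theorem GR_boundb {S ξ a b u : ZFSet.{0}} (hT : Tra S) (ha : a ∈ Lb S ξ) (hb : b ∈ Lb S ξ) :
    ∀ i < 10, GR ∅ i u a b → u ∈ Lb S (sc (sc (sc (sc ξ)))) := by
  intro i hi h
  have tr : ∀ {x y : ZFSet.{0}}, x ∈ y → y ∈ Lb S ξ → x ∈ Lb S ξ := fun hx hy =>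
    Lb_trans hT _ _ hy _ hx
  have up : ∀ {x : ZFSet.{0}}, x ∈ Lb S ξ → x ∈ Lb S (sc (sc (sc (sc ξ)))) := fun hx =>
    Lb_sub_sc2 (Lb_sub_sc2 hx)
  match i, hi, h with
  | 0, _, h => exact up (tr h ha)
  | 1, _, h =>
    rcases h with rfl | rfl
    · exact up ha
    · exact up hb
  | 2, _, h =>
    obtain ⟨x, hx, h⟩ := h
    exact up (tr h (tr hx ha))
  | 3, _, h => exact up (tr h.1 ha)
  | 4, _, h =>
    obtain ⟨x, hx, y, hy, rfl⟩ := h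
    exact Lb_sub_sc2 (pair_mem_Lb (tr hx ha) (tr hy hb))
  | 5, _, h =>
    obtain ⟨p, hp, x, y, rfl, rfl⟩ := h
    exact up (of_pair_mem_Lb hT (tr hp ha)).2
  | 6, _, h =>
    obtain ⟨p, hp, x, y, rfl, rfl⟩ := h
    exact up (of_pair_mem_Lb hT (tr hp ha)).1
  | 7, _, h =>
    obtain ⟨x, hx, y, hy, c, d, rfl, rfl, rfl⟩ := h
    exact pair_mem_Lb (Lb_sub_sc2 (tr hx ha)) (pair_mem_Lb (tr hx ha) (tr hy hb))
  | 8, _, h =>
    obtain ⟨z, hz, p, hp, x, y, rfl, c, d, rfl, rfl, rfl⟩ := h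
    have h1 := of_pair_mem_Lb hT (tr hp hb)
    exact pair_mem_Lb (Lb_sub_sc2 h1.1) (pair_mem_Lb (tr hz ha) h1.2)
  | 9, _, h =>
    obtain ⟨p, hp, q, hq, x, y, rfl, rfl, -⟩ := h
    exact up (of_pair_mem_Lb hT (tr hp ha)).2

theorem gd_LCb {M : Set ZFSet.{0}} (hM : IsZF M) {S : ZFSet.{0}} (hT : Tra S) :
    Gd ∅ (LCb M S) := by
  have hsc : ∀ ξ ∈ M, sc ξ ∈ M := fun ξ h => hM.sc_mem h
  have hso : ∀ {ξ : ZFSet.{0}}, ξ.IsOrdinal → (sc ξ).IsOrdinal := fun h => ZFSet.isOrdinal_succ h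
  refine ⟨?_, ?_, ?_⟩
  · rintro x ⟨ξ, h1, h2, h3⟩ y hy
    exact ⟨ξ, h1, h2, Lb_trans hT _ _ h3 _ hy⟩
  · refine ⟨Lb S ∅, sc ∅, hsc _ hM.empty_mem, hso ZFSet.isOrdinal_empty,
      Lb_mem (ZFSet.mem_insert _ _)⟩
  · rintro i hi a ⟨ξ, h1, h2, ha⟩ b ⟨η, h3, h4, hb⟩
    obtain ⟨ζ, hζ, hζo, ha', hb'⟩ : ∃ ζ ∈ M, ζ.IsOrdinal ∧ a ∈ Lb S ζ ∧ b ∈ Lb S ζ := by
      rcases h2.subset_total h4 with h5 | h5
      · exact ⟨η, h3, h4, Lb_mono h5 ha, hb⟩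
      · exact ⟨ξ, h1, h2, ha, Lb_mono h5 hb⟩
    set δ := sc (sc (sc (sc ζ))) with hδ
    have hδM : δ ∈ M := hsc _ (hsc _ (hsc _ (hsc _ hζ)))
    have hδo : δ.IsOrdinal := hso (hso (hso (hso hζo)))
    have up : ∀ {x : ZFSet.{0}}, x ∈ Lb S ζ → x ∈ Lb S δ := fun hx =>
      Lb_sub_sc2 (Lb_sub_sc2 hx)
    refine ⟨ZFSet.sep (fun u => GR ∅ i u a b) (Lb S δ), ⟨sc δ, hsc _ hδM, hso hδo, ?_⟩, ?_⟩
    · rw [Lb_sc]
      refine mem_step.2 (Or.inr ⟨i, by omega, a, ZFSet.mem_insert_of_mem _ (up ha'), b,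
        ZFSet.mem_insert_of_mem _ (up hb'), fun u => ?_⟩)
      rw [ZFSet.mem_sep]
    · intro u
      rw [ZFSet.mem_sep]
      exact ⟨fun h => h.2, fun h => ⟨GR_boundb hT ha' hb' i hi h, h⟩⟩

end Pool.Agent.H637_NO
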