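import Pool.Agent.H637_NO.LbB

/-!
# New orbits: the graph of the pairing function of the natural numbers is in all models of ZF
-/

set_option autoImplicit false
set_option linter.unreachableTactic false
set_option linter.unusedTactic false

namespace Pool.Agent.H637_NO.NPf

open Pool.Agent.W868 Pool.Agent.W868.GM
open ZFSet (pair)

theorem nat_mem_nat {m n : ℕ} : nat m ∈ nat n ↔ m < n := by
  rw [nat_eq, nat_eq, Ordinal.toZFSet_mem_toZFSet_iff]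
  exact_mod_cast Iff.rfl

/-- The step of the enumeration of the pairs. -/
def Stp (a b a' b' : ZFSet.{0}) : Prop :=
  (insert a a ∈ b ∧ a' = insert a a ∧ b' = b) ∨ (insert a a = b ∧ a' = b ∧ b' = ∅) ∨
    (b ∈ a ∧ a' = a ∧ b' = insert b b) ∨ (a = b ∧ a' = ∅ ∧ b' = insert a a)

/-- The step, for natural numbers. -/
def stp (a b a' b' : ℕ) : Prop :=
  (a + 1 < b ∧ a' = a + 1 ∧ b' = b) ∨ (a + 1 = b ∧ a' = b ∧ b' = 0) ∨
    (b < a ∧ a' = a ∧ b' = b + 1) ∨ (a = b ∧ a' = 0 ∧ b' = a + 1)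

theorem nat_inj {m n : ℕ} : nat m = nat n ↔ m = n := nat_injective.eq_iff

theorem stp_iff {a b a' b' : ℕ} : Stp (nat a) (nat b) (nat a') (nat b') ↔ stp a b a' b' := by
  have h1 : ∀ n, (insert (nat n) (nat n) : ZFSet.{0}) = nat (n + 1) := fun n => rfl
  have h0 : (∅ : ZFSet.{0}) = nat 0 := rfl
  rw [Stp, stp, h1, h1, h0]
  simp only [nat_mem_nat, nat_inj]

theorem stp_pair {a b a' b' : ℕ} (h : stp a b a' b') : Nat.pair a' b' = Nat.pair a b + 1 := by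
  unfold Nat.pair
  rcases h with ⟨h, rfl, rfl⟩ | ⟨h, rfl, rfl⟩ | ⟨h, rfl, rfl⟩ | ⟨h, rfl, rfl⟩
  · rw [if_pos h, if_pos (by omega)]
    ring
  · subst h
    rw [if_neg (by omega), if_pos (by omega)]
    ring
  · rw [if_neg (by omega), if_neg (by omega)]
    ring
  · subst h
    rw [if_pos (by omega), if_neg (by omega)]
    ring

theorem exists_stp (a b : ℕ) : ∃ a' b', stp a b a' b' := by
  rcases lt_trichotomy a b with h | h | h
  · by_cases h1 : a + 1 < b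
    · exact ⟨_, _, Or.inl ⟨h1, rfl, rfl⟩⟩
    · exact ⟨_, _, Or.inr (Or.inl ⟨by omega, rfl, rfl⟩)⟩
  · exact ⟨_, _, Or.inr (Or.inr (Or.inr ⟨h, rfl, rfl⟩))⟩
  · exact ⟨_, _, Or.inr (Or.inr (Or.inl ⟨h, rfl, rfl⟩))⟩

/-- The set `t` is closed under predecessors of the enumeration. -/
def Cls' (t : ZFSet.{0}) : Prop :=
  ∀ q ∈ t, ∃ i ∈ ZFSet.omega, ∃ a ∈ ZFSet.omega, ∃ b ∈ ZFSet.omega, q = pair i (pair a b) ∧
    ((i = ∅ ∧ a = ∅ ∧ b = ∅) ∨ ∃ j ∈ ZFSet.omega, ∃ a' ∈ ZFSet.omega, ∃ b' ∈ ZFSet.omega,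
      i = insert j j ∧ pair j (pair a' b') ∈ t ∧ Stp a' b' a b)

theorem cls_pair {t : ZFSet.{0}} (h : Cls' t) : ∀ (i a b : ℕ),
    pair (nat i) (pair (nat a) (nat b)) ∈ t → i = Nat.pair a b := by
  intro i
  induction i with
  | zero =>
    intro a b h1
    obtain ⟨i, -, a', -, b', -, h2, h3⟩ := h _ h1
    obtain ⟨rfl, h4⟩ := ZFSet.pair_inj.1 h2
    obtain ⟨rfl, rfl⟩ := ZFSet.pair_inj.1 h4
    rcases h3 with ⟨-, h5, h6⟩ | ⟨j, -, a', -, b', -, h5, -⟩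
    · have h7 : nat a = nat 0 := h5
      have h8 : nat b = nat 0 := h6
      rw [nat_inj] at h7 h8
      subst h7
      subst h8
      rfl
    · have h6 : j ∈ (nat 0 : ZFSet.{0}) := h5 ▸ ZFSet.mem_insert _ _
      exact absurd h6 (ZFSet.notMem_empty _)
  | succ i ih =>
    intro a b h1
    obtain ⟨i', -, a', -, b', -, h2, h3⟩ := h _ h1
    obtain ⟨rfl, h4⟩ := ZFSet.pair_inj.1 h2
    obtain ⟨rfl, rfl⟩ := ZFSet.pair_inj.1 h4
    rcases h3 with ⟨h5, -⟩ | ⟨j, hj, a', ha', b', hb', h5, h6, h7⟩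
    · have h6 : nat (i + 1) = nat 0 := h5
      rw [nat_inj] at h6
      omega
    · obtain ⟨j, rfl⟩ := mem_omega_iff.1 hj
      obtain ⟨a', rfl⟩ := mem_omega_iff.1 ha'
      obtain ⟨b', rfl⟩ := mem_omega_iff.1 hb'
      have h8 : nat (i + 1) = nat (j + 1) := h5
      rw [nat_inj] at h8
      obtain rfl : i = j := by omega
      rw [stp_pair (stp_iff.1 h7), ← ih _ _ h6]

theorem exists_cls {M : Set ZFSet.{0}} (hM : IsZF M) : ∀ i : ℕ, ∃ a b : ℕ, i = Nat.pair a b ∧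
    ∃ t ∈ M, Cls' t ∧ pair (nat i) (pair (nat a) (nat b)) ∈ t := by
  intro i
  have hp : ∀ i a b : ℕ, pair (nat i) (pair (nat a) (nat b)) ∈ M := fun i a b =>
    hM.pair_mem (hM.nat_mem _) (hM.pair_mem (hM.nat_mem _) (hM.nat_mem _))
  induction i with
  | zero =>
    refine ⟨0, 0, rfl, {pair (nat 0) (pair (nat 0) (nat 0))}, hM.single_mem (hp 0 0 0), ?_,
      ZFSet.mem_singleton.2 rfl⟩
    intro q hq
    rw [ZFSet.mem_singleton] at hq
    exact ⟨_, nat_mem_omega 0, _, nat_mem_omega 0, _, nat_mem_omega 0, hq, Or.inl ⟨rfl, rfl, rfl⟩⟩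
  | succ i ih =>
    obtain ⟨a, b, h1, t, ht, h2, h3⟩ := ih
    obtain ⟨a', b', h4⟩ := exists_stp a b
    refine ⟨a', b', by rw [stp_pair h4, ← h1], insert (pair (nat (i + 1)) (pair (nat a') (nat b'))) t,
      hM.insert_mem (hp _ _ _) ht, ?_, ZFSet.mem_insert _ _⟩
    intro q hq
    rcases ZFSet.mem_insert_iff.1 hq with rfl | hq
    · exact ⟨_, nat_mem_omega _, _, nat_mem_omega _, _, nat_mem_omega _, rfl, Or.inr
        ⟨_, nat_mem_omega i, _, nat_mem_omega a, _, nat_mem_omega b, rfl,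
          ZFSet.mem_insert_of_mem _ h3, stp_iff.2 h4⟩⟩
    · obtain ⟨j, hj, c, hc, d, hd, h5, h6⟩ := h2 q hq
      refine ⟨j, hj, c, hc, d, hd, h5, h6.imp id ?_⟩
      rintro ⟨k, hk, e, he, f, hf, h7, h8, h9⟩
      exact ⟨k, hk, e, he, f, hf, h7, ZFSet.mem_insert_of_mem _ h8, h9⟩

theorem np_mem {M : Set ZFSet.{0}} (hM : IsZF M) : ∃ g ∈ M, ∀ m n k : ℕ,
    pair (pair (nat m) (nat n)) (nat k) ∈ g ↔ k = Nat.pair m n := by
  have hB := hM.base
  have hω := hM.infinity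
  have h0 := hM.empty_mem
  have h1 : Dfn M M fun w : Fin 2 → ZFSet.{0} => ∃ t ∈ M, (∀ q ∈ t, ∃ i ∈ ZFSet.omega,
      ∃ a ∈ ZFSet.omega, ∃ b ∈ ZFSet.omega, q = pair i (pair a b) ∧
      ((i = ∅ ∧ a = ∅ ∧ b = ∅) ∨ ∃ j ∈ ZFSet.omega, ∃ a' ∈ ZFSet.omega, ∃ b' ∈ ZFSet.omega,
        i = insert j j ∧ pair j (pair a' b') ∈ t ∧
        ((insert a' a' ∈ b' ∧ a = insert a' a' ∧ b = b') ∨ (insert a' a' = b' ∧ a = b' ∧ b = ∅) ∨
          (b' ∈ a' ∧ a = a' ∧ b = insert b' b') ∨ (a' = b' ∧ a = ∅ ∧ b = insert a' a')))) ∧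
      pair (w 1) (w 0) ∈ t := by
    (repeat' first
      | assumption
      | exact DfnF.proj _
      | exact DfnF.const (by assumption)
      | apply hB.insert'
      | apply Dfn.not | apply Dfn.and | apply Dfn.or | apply Dfn.imp | apply Dfn.iff
      | apply hB.bex | apply hB.ball | apply Dfn.ex | apply Dfn.all
      | apply Dfn.eq | apply Dfn.mem | apply hB.pair')
  obtain ⟨g, hg, -, h2⟩ := hM.rel_mem (hM.prod_mem hω hω) hω
    (Q := fun p k => ∃ t ∈ M, Cls' t ∧ pair k p ∈ t) h1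
  refine ⟨g, hg, fun m n k => ?_⟩
  rw [h2]
  constructor
  · rintro ⟨-, -, t, -, h3, h4⟩
    exact cls_pair h3 _ _ _ h4
  · intro h3
    refine ⟨ZFSet.pair_mem_prod.2 ⟨nat_mem_omega _, nat_mem_omega _⟩, nat_mem_omega _, ?_⟩
    obtain ⟨a, b, h4, t, ht, h5, h6⟩ := exists_cls hM k
    obtain ⟨rfl, rfl⟩ := Nat.pair_eq_pair.1 (h4.symm.trans h3)
    exact ⟨t, ht, h5, h6⟩

end Pool.Agent.H637_NO.NPf
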