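import Pool.Agent.W868.GM.Dfs

/-!
# New orbits of thin transitive relations under proper forcing: the definitions

The library files `Pool.Agent.W868.Defs` and `Pool.Agent.W868.GM.Dfs` contain transitive models of
ZF and ZFC (`IsZF`, `IsZFC`), notions of forcing in a model (`IsForcing`), generic filters
(`IsGeneric`) and generic extensions (`ext`). Reals are functions from `ℕ` to `ℕ`.
-/

set_option autoImplicit false

namespace Pool.Agent.H637_NO

open Pool.Agent.W868 Pool.Agent.W868.GM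
open ZFSet (pair)

/-! ### Second order arithmetic -/

/-- Terms of second order arithmetic with `m` real variables and `k` number variables. -/
inductive Tm (m k : ℕ) : Type
  | var (i : Fin k)
  | zero
  | succ (t : Tm m k)
  | add (s t : Tm m k)
  | mul (s t : Tm m k)
  | app (i : Fin m) (t : Tm m k)

/-- Formulas of second order arithmetic, with `m` free real variables and `k` free number
variables. In `exN φ` and `exR φ` the bound variable is the variable `0` of `φ`, and the variable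
`i + 1` of `φ` is the variable `i` of the quantified formula. -/
inductive Fm : ℕ → ℕ → Type
  | eq {m k : ℕ} (s t : Tm m k) : Fm m k
  | neg {m k : ℕ} (φ : Fm m k) : Fm m k
  | and {m k : ℕ} (φ ψ : Fm m k) : Fm m k
  | exN {m k : ℕ} (φ : Fm m (k + 1)) : Fm m k
  | exR {m k : ℕ} (φ : Fm (m + 1) k) : Fm m k

/-- Universal quantification over the reals. -/
def Fm.allR {m k : ℕ} (φ : Fm (m + 1) k) : Fm m k := .neg (.exR (.neg φ))

/-- The formula has no quantifier over the reals. -/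
def Fm.Arith : {m k : ℕ} → Fm m k → Prop
  | _, _, .eq _ _ => True
  | _, _, .neg φ => φ.Arith
  | _, _, .and φ ψ => φ.Arith ∧ ψ.Arith
  | _, _, .exN φ => φ.Arith
  | _, _, .exR _ => False

/-- `Cls true n φ` says that `φ` is a `Σ^1_n` formula and `Cls false n φ` that `φ` is a `Π^1_n`
formula: a string of quantifiers over the reals in at most `n` blocks of quantifiers of the same
kind, the first of them existential (universal, respectively), followed by a formula without
quantifiers over the reals. -/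
inductive Cls : Bool → ℕ → {m k : ℕ} → Fm m k → Prop
  | arith {b : Bool} {n m k : ℕ} {φ : Fm m k} : φ.Arith → Cls b n φ
  | ex {n m k : ℕ} {φ : Fm (m + 1) k} : Cls true (n + 1) φ → Cls true (n + 1) (.exR φ)
  | ex' {n m k : ℕ} {φ : Fm (m + 1) k} : Cls false n φ → Cls true (n + 1) (.exR φ)
  | all {n m k : ℕ} {φ : Fm (m + 1) k} : Cls false (n + 1) φ → Cls false (n + 1) φ.allR
  | all' {n m k : ℕ} {φ : Fm (m + 1) k} : Cls true n φ → Cls false (n + 1) φ.allR

/-- A structure for the language of second order arithmetic: `N` is the domain of the number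
variables and `R` is the domain of the real variables. -/
structure Str where
  N : Type
  R : Type
  zero : N
  succ : N → N
  add : N → N → N
  mul : N → N → N
  app : R → N → N

/-- The value of a term. -/
def Tm.val (𝔐 : Str) {m k : ℕ} (x : Fin m → 𝔐.R) (v : Fin k → 𝔐.N) : Tm m k → 𝔐.N
  | .var i => v i
  | .zero => 𝔐.zero
  | .succ t => 𝔐.succ (t.val 𝔐 x v)
  | .add s t => 𝔐.add (s.val 𝔐 x v) (t.val 𝔐 x v)
  | .mul s t => 𝔐.mul (s.val 𝔐 x v) (t.val 𝔐 x v)
  | .app i t => 𝔐.app (x i) (t.val 𝔐 x v)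

/-- Truth of a formula in a structure. -/
def Holds (𝔐 : Str) : {m k : ℕ} → Fm m k → (Fin m → 𝔐.R) → (Fin k → 𝔐.N) → Prop
  | _, _, .eq s t, x, v => s.val 𝔐 x v = t.val 𝔐 x v
  | _, _, .neg φ, x, v => ¬ Holds 𝔐 φ x v
  | _, _, .and φ ψ, x, v => Holds 𝔐 φ x v ∧ Holds 𝔐 ψ x v
  | _, _, .exN φ, x, v => ∃ a : 𝔐.N, Holds 𝔐 φ x (Fin.cons a v)
  | _, _, .exR φ, x, v => ∃ a : 𝔐.R, Holds 𝔐 φ (Fin.cons a x) v

/-- The structure whose numbers are the natural numbers and whose reals are the elements of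
`𝓡`. -/
def std (𝓡 : Set (ℕ → ℕ)) : Str where
  N := ℕ
  R := 𝓡
  zero := 0
  succ := Nat.succ
  add := (· + ·)
  mul := (· * ·)
  app := fun x n => x.1 n

/-- Truth of a formula with real variables only, for the reals in `𝓡`. -/
def Tr (𝓡 : Set (ℕ → ℕ)) {m : ℕ} (φ : Fm m 0) (x : Fin m → 𝓡) : Prop :=
  Holds (std 𝓡) φ x (Fin.elim0 : Fin 0 → ℕ)

/-! ### Determinacy -/

/-- The code of the finite sequence `y 0, ..., y (n - 1)`. -/
def ini (y : ℕ → ℕ) (n : ℕ) : ℕ := Encodable.encode ((List.range n).map y)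

/-- The run of the game in which the first player follows the strategy `σ` and `y` is the
sequence of the moves of the second player. -/
def play₁ (σ y : ℕ → ℕ) : ℕ → ℕ := fun n => if n % 2 = 0 then σ (ini y (n / 2)) else y (n / 2)

/-- The run of the game in which the second player follows the strategy `σ` and `y` is the
sequence of the moves of the first player. -/
def play₂ (σ y : ℕ → ℕ) : ℕ → ℕ := fun n => if n % 2 = 0 then y (n / 2) else σ (ini y (n / 2 + 1))

/-- Boldface `Π^1_n`-determinacy, for the reals in `𝓡`: for every game whose payoff set is given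
by a `Π^1_n` formula with parameters one of the players has a winning strategy. -/
def PiDet (𝓡 : Set (ℕ → ℕ)) (n : ℕ) : Prop :=
  ∀ (m : ℕ) (φ : Fm (m + 1) 0), Cls false n φ → ∀ p : Fin m → 𝓡,
    (∃ σ : 𝓡, ∀ y : 𝓡, ∃ x : 𝓡, x.1 = play₁ σ.1 y.1 ∧ Tr 𝓡 φ (Fin.cons x p)) ∨
    (∃ σ : 𝓡, ∀ y : 𝓡, ∃ x : 𝓡, x.1 = play₂ σ.1 y.1 ∧ ¬ Tr 𝓡 φ (Fin.cons x p))

/-! ### Thin relations and orbits -/

/-- The relation on the reals in `𝓡` that is defined by a formula. -/
def Rel (𝓡 : Set (ℕ → ℕ)) (φ : Fm 2 0) (x y : 𝓡) : Prop := Tr 𝓡 φ ![x, y]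

/-- `x` is a branch of the tree of the finite sequences whose codes are zeros of `t`. -/
def Branch (t x : ℕ → ℕ) : Prop := ∀ n, t (ini x n) = 0

/-- The zeros of `t` are the codes of the elements of a perfect tree of finite sequences: a
nonempty tree in which every node has two incompatible extensions. -/
def Perfect (t : ℕ → ℕ) : Prop :=
  (∃ x n, t (ini x n) = 0) ∧ (∀ x n, t (ini x (n + 1)) = 0 → t (ini x n) = 0) ∧
    ∀ x n, t (ini x n) = 0 → ∃ y z k, (∀ i < n, y i = x i ∧ z i = x i) ∧ n ≤ k ∧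
      t (ini y k) = 0 ∧ t (ini z k) = 0 ∧ ∃ i < k, y i ≠ z i

/-- The relation `E` on the reals in `𝓡` is thin: there is no perfect set of reals such that any
two distinct elements of it are unrelated. -/
def Thin (𝓡 : Set (ℕ → ℕ)) (E : 𝓡 → 𝓡 → Prop) : Prop :=
  ¬ ∃ t ∈ 𝓡, Perfect t ∧ ∀ x y : 𝓡, Branch t x.1 → Branch t y.1 → x ≠ y → ¬ E x y ∧ ¬ E y x

/-- The formulas `φ` and `ψ` define a provably `Δ^1_n` relation: they are lightface `Σ^1_n` and
`Π^1_n` formulas that are equivalent in all structures for the language of second order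
arithmetic. -/
def ProvDelta (n : ℕ) (φ ψ : Fm 2 0) : Prop :=
  Cls true n φ ∧ Cls false n ψ ∧ ∀ 𝔐 : Str, Nonempty 𝔐.R → ∀ x : Fin 2 → 𝔐.R,
    (Holds 𝔐 φ x (fun i => i.elim0) ↔ Holds 𝔐 ψ x (fun i => i.elim0))

/-! ### Reals in models, and the definability of a forcing -/

/-- A real as a set: the graph of the function. -/
noncomputable def rl (x : ℕ → ℕ) : ZFSet.{0} := ZFSet.range fun n : ℕ => pair (nat n) (nat (x n))

/-- The reals of a model. -/
def Reals (M : Set ZFSet.{0}) : Set (ℕ → ℕ) := {x | rl x ∈ M}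

/-- In the model `M`, the forcing `P` with the relation `Le` is `Σ^1_2`: its elements are reals,
and the set `P`, the relation `Le` and the incompatibility relation are defined by `Σ^1_2`
formulas without parameters. -/
def Sig12 (M : Set ZFSet.{0}) (P Le : ZFSet.{0}) : Prop :=
  (∀ p ∈ P, ∃ x ∈ Reals M, p = rl x) ∧
  (∃ φ : Fm 1 0, Cls true 2 φ ∧ ∀ x : Reals M, rl x.1 ∈ P ↔ Tr (Reals M) φ ![x]) ∧
  (∃ φ : Fm 2 0, Cls true 2 φ ∧ ∀ x y : Reals M,
    (rl x.1 ∈ P ∧ rl y.1 ∈ P ∧ pair (rl x.1) (rl y.1) ∈ Le) ↔ Tr (Reals M) φ ![x, y]) ∧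
  ∃ φ : Fm 2 0, Cls true 2 φ ∧ ∀ x y : Reals M,
    (rl x.1 ∈ P ∧ rl y.1 ∈ P ∧ ¬ ∃ r ∈ P, pair r (rl x.1) ∈ Le ∧ pair r (rl y.1) ∈ Le) ↔
      Tr (Reals M) φ ![x, y]

/-! ### Proper forcing -/

/-- The set `H(θ)` of `M`: the sets in `M` whose transitive closure has in `M` size less than
`θ`. -/
def Hth (M : Set ZFSet.{0}) (θ : ZFSet.{0}) : Set ZFSet.{0} :=
  {x | x ∈ M ∧ ∃ T ∈ M, (∀ y ∈ T, ∀ z ∈ y, z ∈ T) ∧ x ⊆ T ∧ ∃ β ∈ θ, ∃ f ∈ M, IsInj T β f}

/-- In the model `M`, `θ` is an uncountable regular cardinal: an ordinal larger than `ω` such that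
all functions in `M` from smaller ordinals to `θ` are bounded. -/
def Regular (M : Set ZFSet.{0}) (θ : ZFSet.{0}) : Prop :=
  θ ∈ M ∧ θ.IsOrdinal ∧ ZFSet.omega ∈ θ ∧
    ∀ β ∈ θ, ∀ f ∈ M, ZFSet.IsFunc β θ f → ∃ γ ∈ θ, ∀ x y, pair x y ∈ f → y ∈ γ

/-- The structure `(N, ∈)` is an elementary substructure of `(H, ∈)`. -/
def Elem (N H : ZFSet.{0}) : Prop :=
  N ⊆ H ∧ ∀ (n : ℕ) (φ : Fml Empty n) (v : Fin n → ZFSet.{0}), (∀ i, v i ∈ N) →
    (Sat {x | x ∈ N} Empty.elim φ v ↔ Sat {x | x ∈ H} Empty.elim φ v)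

/-- The condition `q` is `(N, P)`-generic: for each dense set `D ∈ N` the set `D ∩ N` is predense
below `q`. -/
def NGeneric (P Le N q : ZFSet.{0}) : Prop :=
  ∀ D ∈ N, D ⊆ P → (∀ p ∈ P, ∃ d ∈ D, pair d p ∈ Le) → ∀ r ∈ P, pair r q ∈ Le →
    ∃ d ∈ D, d ∈ N ∧ ∃ t ∈ P, pair t d ∈ Le ∧ pair t r ∈ Le

/-- In the model `M`, the forcing `P` is proper: for all large enough regular cardinals `θ` there
is some `x ∈ H(θ)` such that for all countable elementary submodels `N` of `H(θ)` with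
`x ∈ N`, every condition in `N` has an `(N, P)`-generic extension. -/
def Proper (M : Set ZFSet.{0}) (P Le : ZFSet.{0}) : Prop :=
  ∃ θ₀ ∈ M, ∀ θ, Regular M θ → θ₀ ∈ θ → ∀ H ∈ M, (∀ z, z ∈ H ↔ z ∈ Hth M θ) →
    ∃ x ∈ H, ∀ N ∈ M, (∃ g ∈ M, IsInj N ZFSet.omega g) → Elem N H → x ∈ N →
      ∀ p ∈ P, p ∈ N → ∃ q ∈ P, pair q p ∈ Le ∧ NGeneric P Le N q

/-! ### New orbits -/

/-- The forcing `P` adds a new orbit to the relation defined by `φ`: in every generic extension
`V[G]` there is a real in the field of the relation that is not related to any real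
in `V`. -/
def NewOrbit (V : Set ZFSet.{0}) (P Le : ZFSet.{0}) (φ : Fm 2 0) : Prop :=
  (∃ G, IsGeneric V P Le G) ∧ ∀ G, IsGeneric V P Le G → ∃ x : Reals (ext V G),
    (∃ y, Rel (Reals (ext V G)) φ x y) ∧ ∀ y : Reals (ext V G), y.1 ∈ Reals V →
      ¬ Rel (Reals (ext V G)) φ x y ∧ ¬ Rel (Reals (ext V G)) φ y x

end Pool.Agent.H637_NO
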