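import Pool.Agent.H637_NO.Defs

/-!
# New orbits: the pieces of the proof

Each piece is a `def S_... : Prop`. A piece may be proved from other pieces as hypotheses.
-/

set_option autoImplicit false

namespace Pool.Agent.H637_NO

open Pool.Agent.W868 Pool.Agent.W868.GM
open ZFSet (pair)

/-! ### Part A: the hierarchy, codes, fast sequences -/

/-- `L(S)` of a model of ZF is a model of ZF. Port of `W868.LZF`. -/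
def S_LZF : Prop := ∀ (M : Set ZFSet.{0}) (S : ZFSet.{0}), IsZF M → S ∈ M → Tra S →
  IsZF (LCb M S) ∧ S ∈ LCb M S ∧ LCb M S ⊆ M ∧
    ∀ ξ ∈ M, ξ.IsOrdinal → ξ ∈ LCb M S ∧ Lb S ξ ∈ LCb M S

/-- Interpretation lemma: being a model of ZF is a bounded statement about `W` and `Lb W ω`. -/
def S_ZC : Prop := ∀ W : ZFSet.{0}, Tra W → (IsZF {x | x ∈ W} ↔ Zc W (Lb W ZFSet.omega))

/-- Hereditarily countable sets and codes. -/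
def S_HC : Prop := ∀ M : Set ZFSet.{0}, IsZF M →
  (∃ h ∈ M, ∀ z, z ∈ h ↔ HCt M z) ∧
  (∀ a, HCt M a → ∃ r ∈ PW M, Cod r a) ∧
  (∀ r ∈ M, r ⊆ oo → ∀ p, Clp r p → HCt M p) ∧
  (∀ r ∈ M, r ⊆ oo → ∀ a, Cod r a → HCt M a) ∧
  ∀ r a a', Cod r a → Cod r a' → a = a'

/-- Closure properties of the class of the hereditarily countable sets. -/
def S_HC2 : Prop :=
  (∀ M : Set ZFSet.{0}, IsZF M →
    (∀ a b, HCt M a → HCt M b → HCt M (pair a b) ∧ HCt M {a, b} ∧ HCt M (insert a b) ∧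
      HCt M (a ∪ b)) ∧
    (∀ a b, HCt M a → b ∈ M → b ⊆ a → HCt M b) ∧
    (∀ a, HCt M a → a ∈ M ∧ Inj M a ZFSet.omega ∧ ∀ x ∈ a, HCt M x) ∧
    HCt M ZFSet.omega ∧ HCt M oo) ∧
  ∀ M : Set ZFSet.{0}, IsZFC M → ∀ x ∈ M, (∀ y ∈ x, HCt M y) → Inj M x ZFSet.omega → HCt M x

/-- Reals as subsets of `ω × ω`. -/
def S_RW : Prop := ∀ M : Set ZFSet.{0}, IsZF M →
  (∀ z ∈ Reals M, rw' z ∈ PW M) ∧ ∀ r ∈ PW M, ∃ z ∈ Reals M, rw' z = r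

/-- Being a fast sequence is `Σ_1` over the hereditarily countable sets. -/
def S_WD : Prop := ∃ PD : ZFSet.{0} → ZFSet.{0} → Prop,
  (D0 fun v : Fin 2 → ZFSet.{0} => PD (v 0) (v 1)) ∧
  ∀ M : Set ZFSet.{0}, IsZFC M → ∀ c, Pc M c ↔ ∃ b, HCt M b ∧ HCt M c ∧ PD b c

/-- Basic facts on fast sequences. -/
def S_PC : Prop := ∀ M : Set ZFSet.{0}, IsZF M →
  Pc M ∅ ∧ ln ∅ = ∅ ∧
  (∀ c, Pc M c → (ln c).IsOrdinal ∧ HCt M (ln c) ∧ ZFSet.IsFunc (ln c) (PW M) c) ∧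
  (∀ c, Pc M c → ∀ ξ ∈ sc (ln c), Pc M (rs c ξ) ∧ ln (rs c ξ) = ξ ∧ rs c ξ ⊆ c) ∧
  (∀ c, Pc M c → ∀ r ∈ PW M, Pc M (ad c r) ∧ ln (ad c r) = sc (ln c) ∧ c ⊆ ad c r) ∧
  (∀ c c', Pc M c → Pc M c' → c ⊆ c' → ln c ∈ sc (ln c') ∧ rs c' (ln c) = c) ∧
  ∀ c c' d, Pc M c → Pc M c' → Pc M d → c ⊆ d → c' ⊆ d → c ⊆ c' ∨ c' ⊆ c

/-- Fast sequences are countable in all models of ZF that contain them. -/
def S_CT : Prop := ∀ Q : Set ZFSet.{0}, IsZF Q → ∀ M : Set ZFSet.{0}, ∀ c ∈ Q, Pc M c → HCt Q c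

/-- Fusion. -/
def S_FUS : Prop := ∀ M : Set ZFSet.{0}, IsZFC M →
  ∀ K T E H G δ η : ZFSet.{0}, K ∈ M → T ∈ M → E ∈ M → H ∈ M → G ∈ M →
  Inj M T ZFSet.omega → Inj M K ZFSet.omega → Inj M H ZFSet.omega → Lim δ → HCt M δ →
  (∀ c ∈ K, Pc M c ∧ ln c ∈ δ ∧ rg c (ln c) ⊆ H) → H ⊆ PW M →
  (∀ c ∈ K, ∀ t ∈ T, ∃ c' ∈ K, ∃ r ∈ H, ∃ g ∈ δ, c ⊆ c' ∧ pair (ln c) r ∈ c' ∧ pair r g ∈ G ∧
    ln c' ⊆ g ∧ pair t c' ∈ E) →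
  (∀ h ∈ H, ∃ t ∈ T, ∀ c' ∈ K, pair t c' ∈ E → h ∈ rg c' (ln c')) →
  (∀ ζ ∈ δ, ∃ t ∈ T, ∀ c' ∈ K, pair t c' ∈ E → ζ ∈ ln c') →
  (∀ ζ ∈ δ, ∃ h ∈ H, ∃ p, Clp h p ∧ ∃ n ∈ ZFSet.omega, pair n ζ ∈ p) →
  HCt M η → η.IsOrdinal → G ∈ Lb (SB H) η → Fu G →
  (∀ α ∈ η, δ ∈ α → ¬ IsZF {x | x ∈ Lb (SB H) α}) →
  ∀ c₀ ∈ K, ∃ c, Pc M c ∧ ln c = δ ∧ c₀ ⊆ c ∧ ∀ t ∈ T, ∃ c' ∈ K, c' ⊆ c ∧ pair t c' ∈ E

/-! ### Part B: the models `U` and `V` -/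

/-- Transfer to the collapse of a countable elementary submodel of the universe. -/
def S_TR : Prop := ∀ π : Pkg Unit,
  (∀ (n : ℕ) (R : (Fin n → ZFSet.{0}) → Prop), D0 R → ∀ v : Fin n → ZFSet.{0},
    (∀ i, v i ∈ π.Z) → (R (fun i => π.hat (v i)) ↔ R v)) ∧
  (∀ S ∈ π.Z, Tra S → ∀ ξ ∈ π.Z, ξ.IsOrdinal →
    Lb S ξ ∈ π.Z ∧ π.hat (Lb S ξ) = Lb (π.hat S) (π.hat ξ)) ∧
  (∀ W ∈ π.Z, Tra W → (IsZF {x | x ∈ π.hat W} ↔ IsZF {x | x ∈ W})) ∧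
  (∀ a ∈ π.Z, HCt Set.univ a → π.hat a = a ∧ ∀ x ∈ a, x ∈ π.Z) ∧
  (PW Set.univ ∈ π.Z ∧ ∀ r, r ∈ π.hat (PW Set.univ) ↔ r ⊆ oo ∧ r ∈ π.Z) ∧
  ∀ H ∈ π.Z, SB H ∈ π.Z ∧ π.hat (SB H) = SB (π.hat H)

/-- The extension lemma in the universe. -/
def S_EXT : Prop := ExtP Set.univ

/-- The least level of `L(R)` that is a model of ZF, in the universe. -/
structure GoodS (γ : ZFSet.{0}) : Prop where
  ord : γ.IsOrdinal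
  zf : IsZF {x | x ∈ Lb (SB (PW Set.univ)) γ}
  min : ∀ α ∈ γ, ¬ IsZF {x | x ∈ Lb (SB (PW Set.univ)) α}
  mem : ∀ α : ZFSet.{0}, α.IsOrdinal → (α ∈ Lb (SB (PW Set.univ)) γ ↔ α ∈ γ)
  lev : ∀ x ∈ Lb (SB (PW Set.univ)) γ, ∃ ξ ∈ γ, x ∈ Lb (SB (PW Set.univ)) ξ
  hc : ∃ h ∈ Lb (SB (PW Set.univ)) γ, ∀ z, z ∈ h ↔ HCt Set.univ z
  p : ∃ p ∈ Lb (SB (PW Set.univ)) γ, ∀ c, c ∈ p ↔ Pc Set.univ c

def S_UU : Prop := ∃ γ, GoodS γ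

/-- Distributivity in the universe. -/
def S_DIS : Prop := ∀ γ, GoodS γ → ∀ p, (∀ c, c ∈ p ↔ Pc Set.univ c) →
  ∀ D ∈ Lb (SB (PW Set.univ)) γ, DSeq p D → Dist p D

/-- The model `U`. -/
def S_UA : Prop := ∃ A : Set ZFSet.{0}, A.Countable ∧ ∀ π : Pkg Unit, A ⊆ π.Z →
  ∃ U, GoodU U ∧ ∀ x : ℕ → ℕ, rl x ∈ U ↔ rl x ∈ π.Z

/-- Perfect trees have two branches. -/
def PerfB (𝓡 : Set (ℕ → ℕ)) : Prop :=
  ∀ t ∈ 𝓡, Perfect t → ∃ x ∈ 𝓡, ∃ y ∈ 𝓡, Branch t x ∧ Branch t y ∧ x ≠ y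

/-- Determinacy reflects to countable elementary submodels of the universe. -/
def S_UB : Prop := ∀ n, PiDet Set.univ n → ∃ A : Set ZFSet.{0}, A.Countable ∧
  ∀ π : Pkg Unit, A ⊆ π.Z → PiDet {x | rl x ∈ π.Z} n ∧ PerfB {x | rl x ∈ π.Z}

/-- The model `V`. -/
def S_V : Prop := ∀ U, GoodU U → ∃ V, GoodV V ∧ Reals V = Reals U

/-! ### Part C: the forcing -/

def S_C1 : Prop := ∀ V, GoodV V → IsForcing V (Pf V) (Lf V) ∧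
  (∀ c s F, Cd V c s F → HCt V (pair c (pair s F)) ∧ ∃ z, Cz V z c s F) ∧
  (∀ z, z ∈ Reals V → (rl z ∈ Pf V ↔ ∃ c s F, Cz V z c s F)) ∧
  ∀ z c s F z' c' s' F', Cz V z c s F → Cz V z' c' s' F' →
    (pair (rl z') (rl z) ∈ Lf V ↔ Stronger c s F c' s' F')

/-- Compatibility. -/
def S_CP : Prop := ∀ V, GoodV V → ∀ c s F c' s' F', Cd V c s F → Cd V c' s' F' →
  ((∃ c'' s'' F'', Cd V c'' s'' F'' ∧ Stronger c s F c'' s'' F'' ∧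
      Stronger c' s' F' c'' s'' F'') ↔
    (c ⊆ c' ∨ c' ⊆ c) ∧ (∀ u ∈ s', u ∉ s → ∀ v ∈ F, ¬ Hit u v) ∧
      ∀ u ∈ s, u ∉ s' → ∀ v ∈ F', ¬ Hit u v)

def S_C2 : Prop := ∀ V, GoodV V → Sig12 V (Pf V) (Lf V)

def S_C3 : Prop := ∀ V, GoodV V → Proper V (Pf V) (Lf V)

def S_C4 : Prop := ∀ V, GoodV V → ∀ G, IsGeneric V (Pf V) (Lf V) G →
  ∃ C s, HCt (ext V G) s ∧ Gen2 V C s

def S_C5 : Prop := ∀ V, GoodV V → ∀ C s, Gen2 V C s → ∀ N, Tra N → IsZF {x | x ∈ N} → s ∈ N →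
  ¬ ∃ κ ∈ V, κ.IsOrdinal ∧ ∀ α : ZFSet.{0}, α.IsOrdinal → (α ∈ N ↔ α ∈ κ)

/-! ### Part D: second order arithmetic -/

/-- The domain of the structure that is coded by `y`. -/
def Dm (y : ℕ → ℕ) (n : ℕ) : Prop := y (Nat.pair n n) = 0

/-- The relation of the structure that is coded by `y`. -/
def Em (y : ℕ → ℕ) (m n : ℕ) : Prop := m ≠ n ∧ y (Nat.pair m n) = 0 ∧ Dm y m ∧ Dm y n

/-- Truth in the structure `(D, E)` on a set of natural numbers. -/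
def Ev (D : ℕ → Prop) (E : ℕ → ℕ → Prop) : {n : ℕ} → Fml Empty n → (Fin n → ℕ) → Prop
  | _, .mem s t, v => E (Sum.elim v Empty.elim s) (Sum.elim v Empty.elim t)
  | _, .eq s t, v => Sum.elim v Empty.elim s = Sum.elim v Empty.elim t
  | _, .neg φ, v => ¬ Ev D E φ v
  | _, .and φ ψ, v => Ev D E φ v ∧ Ev D E ψ v
  | _, .ex φ, v => ∃ a, D a ∧ Ev D E φ (Fin.cons a v)

/-- The structure coded by `y` is extensional, `e m` represents the number `m`, `p (m, n)`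
represents the pair `(m, n)`, `c i` represents the set `rw' (x i)`, and `φ` is true for some
first argument. -/
def CodeC {k : ℕ} (φ : Fml Empty (k + 1)) (y e s t p c : ℕ → ℕ) (x : Fin k → ℕ → ℕ) : Prop :=
  (∀ m n, Dm y m → Dm y n → (∀ l, Em y l m ↔ Em y l n) → m = n) ∧
  (∀ m, Dm y (e m)) ∧ (∀ l, ¬ Em y l (e 0)) ∧
  (∀ m l, Em y l (e (m + 1)) ↔ Em y l (e m) ∨ l = e m) ∧
  (∀ m, Dm y (s m) ∧ ∀ l, Em y l (s m) ↔ l = e m) ∧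
  (∀ m n, Dm y (t (Nat.pair m n)) ∧ ∀ l, Em y l (t (Nat.pair m n)) ↔ l = e m ∨ l = e n) ∧
  (∀ m n, Dm y (p (Nat.pair m n)) ∧
    ∀ l, Em y l (p (Nat.pair m n)) ↔ l = s m ∨ l = t (Nat.pair m n)) ∧
  (∀ i : Fin k, Dm y (c i) ∧
    ∀ l, Em y l (c i) ↔ ∃ m n, x i (Nat.pair m n) = 0 ∧ l = p (Nat.pair m n)) ∧
  ∃ a, Dm y a ∧ Ev (Dm y) (Em y) φ (Fin.cons a fun i : Fin k => c i)

/-- Codes of countable transitive sets. -/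
def S_D1a : Prop := ∀ (k : ℕ) (R : (Fin (k + 1) → ZFSet.{0}) → Prop) (φ : Fml Empty (k + 1)),
  (∀ M : Set ZFSet.{0}, (∀ x ∈ M, ∀ y ∈ x, y ∈ M) → ∀ v, (∀ i, v i ∈ M) →
    (Sat M Empty.elim φ v ↔ R v)) →
  ∀ M, IsZFC M → ∀ x : Fin k → Reals M,
    ((∃ a, HCt M a ∧ R (Fin.cons a fun i => rw' (x i).1)) ↔
      ∃ y e s t p c : Reals M, CodeC φ y.1 e.1 s.1 t.1 p.1 c.1 (fun i => (x i).1) ∧
        ∀ z : Reals M, ¬ ∀ n, Em y.1 (z.1 (n + 1)) (z.1 n))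

/-- The formula for `CodeC`. -/
def S_D1b : Prop := ∀ (k : ℕ) (φ : Fml Empty (k + 1)), ∃ θ : Fm k 0, Cls true 2 θ ∧
  ∀ (𝓡 : Set (ℕ → ℕ)) (x : Fin k → 𝓡), Tr 𝓡 θ x ↔
    ∃ y e s t p c : 𝓡, CodeC φ y.1 e.1 s.1 t.1 p.1 c.1 (fun i => (x i).1) ∧
      ∀ z : 𝓡, ¬ ∀ n, Em y.1 (z.1 (n + 1)) (z.1 n)

/-- `Σ_1` statements over the hereditarily countable sets are `Σ^1_2`. -/
def S_D1 : Prop := ∀ (k : ℕ) (R : ZFSet.{0} → (Fin k → ZFSet.{0}) → Prop),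
  (D0 fun v : Fin (k + 1) → ZFSet.{0} => R (v 0) (Fin.tail v)) →
  ∃ φ : Fm k 0, Cls true 2 φ ∧ ∀ M, IsZFC M → ∀ x : Fin k → Reals M,
    ((∃ a, HCt M a ∧ R a fun i => rw' (x i).1) ↔ Tr (Reals M) φ x)

/-- The equivalence relation with two classes. -/
def S_D2 : Prop := ∀ ψ : Fm 1 0, Cls true 2 ψ → ∀ n, ∃ φ φ' : Fm 2 0, ProvDelta (n + 3) φ φ' ∧
  ∀ 𝔐 : Str, Nonempty 𝔐.R → ∀ x y : 𝔐.R, (Holds 𝔐 φ ![x, y] (fun i => i.elim0) ↔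
    (Holds 𝔐 ψ ![x] (fun i => i.elim0) ↔ Holds 𝔐 ψ ![y] (fun i => i.elim0)))

/-- `Some countable transitive model of ZF contains r` is `Σ_1` over the hereditarily countable
sets. -/
def S_D3 : Prop := ∃ RZ : ZFSet.{0} → ZFSet.{0} → Prop,
  (D0 fun v : Fin 2 → ZFSet.{0} => RZ (v 0) (v 1)) ∧
  ∀ M, IsZFC M → ∀ r ∈ M, (∃ a, HCt M a ∧ RZ a r) ↔
    ∃ N, HCt M N ∧ Tra N ∧ IsZF {x | x ∈ N} ∧ r ∈ N

end Pool.Agent.H637_NO
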